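import Pool.Agent.Lib_GD.ArcDefs

/-! K02: colengths of lattices over `O = L⟦X⟧`. -/

open PowerSeries

namespace Pool.Agent.Lib_GD

section ColenAux

variable {A : Type} [CommRing A] {P Q : Type} [AddCommGroup P] [Module A P]
  [AddCommGroup Q] [Module A Q]

private theorem Colen_length_factor {M M' : Submodule A P} (h : M ≤ M') :
    Module.length A (P ⧸ M) =
      Module.length A (M'.map M.mkQ) + Module.length A (P ⧸ M') := by
  refine Module.length_eq_add_of_exact (M'.map M.mkQ).subtype (Submodule.factor h)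
    (Submodule.subtype_injective _) (Submodule.factor_surjective h) ?_
  rw [LinearMap.exact_iff, Submodule.range_subtype]
  ext x
  obtain ⟨y, rfl⟩ := Submodule.mkQ_surjective M x
  constructor
  · intro hy
    have hy' : Submodule.factor h (M.mkQ y) = 0 := hy
    have : (Submodule.Quotient.mk y : P ⧸ M') = 0 := hy'
    rw [Submodule.Quotient.mk_eq_zero] at this
    exact ⟨y, this, rfl⟩
  · rintro ⟨z, hz, hzy⟩
    rw [← hzy]
    change (Submodule.Quotient.mk z : P ⧸ M') = 0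
    rw [Submodule.Quotient.mk_eq_zero]
    exact hz

private theorem Colen_coe {M : Submodule A P} (hM : FinColen M) :
    ((colen M : ℕ) : ℕ∞) = Module.length A (P ⧸ M) :=
  ENat.natCast_toNat hM

private theorem Colen_eq_of {M : Submodule A P} {k : ℕ}
    (h : Module.length A (P ⧸ M) = (k : ℕ∞)) : FinColen M ∧ colen M = k := by
  refine ⟨?_, ?_⟩
  · unfold FinColen
    rw [h]
    exact ENat.natCast_ne_top k
  · unfold colen
    rw [h]
    rfl

end ColenAux

variable {L : Type} [Field L] {P : Type} [AddCommGroup P] [Module L⟦X⟧ P]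

theorem finColen_mono {M M' : Submodule L⟦X⟧ P} (h : M ≤ M') (hM : FinColen M) :
    FinColen M' := by
  intro h'
  apply hM
  rw [Colen_length_factor h, h', add_top]

theorem colen_anti {M M' : Submodule L⟦X⟧ P} (h : M ≤ M') (hM : FinColen M) :
    colen M' ≤ colen M := by
  have hM' := finColen_mono h hM
  have h1 := Colen_length_factor h
  rw [← Colen_coe hM, ← Colen_coe hM'] at h1
  have h2 : ((colen M' : ℕ) : ℕ∞) ≤ (colen M : ℕ) := by
    rw [h1]
    exact le_add_self
  exact_mod_cast h2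

private theorem Colen_kill (k : ℕ) : ∀ (Q : Type) [AddCommGroup Q] [Module L⟦X⟧ Q],
    Module.length L⟦X⟧ Q ≤ (k : ℕ∞) → ∀ q : Q, (X : L⟦X⟧) ^ k • q = 0 := by
  induction k with
  | zero =>
    intro Q _ _ h q
    have h0 : Module.length L⟦X⟧ Q = 0 := by simpa using h
    rw [Module.length_eq_zero_iff] at h0
    exact Subsingleton.elim _ _
  | succ k ih =>
    intro Q _ _ h q
    by_cases hs : Subsingleton Q
    · exact Subsingleton.elim _ _
    rw [not_subsingleton_iff_nontrivial] at hs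
    have hfin : Module.length L⟦X⟧ Q ≠ ⊤ := ne_top_of_le_ne_top (ENat.natCast_ne_top _) h
    rw [Module.length_ne_top_iff, isFiniteLength_iff_isNoetherian_isArtinian] at hfin
    obtain ⟨hN, hA⟩ := hfin
    set N : Submodule L⟦X⟧ Q := LinearMap.range (LinearMap.lsmul L⟦X⟧ Q X) with hNdef
    have hne : N ≠ ⊤ := by
      intro htop
      have h1 : (⊤ : Submodule L⟦X⟧ Q) ≤ Ideal.span {(X : L⟦X⟧)} • (⊤ : Submodule L⟦X⟧ Q) := by
        intro y _
        have hy : y ∈ N := by rw [htop]; trivial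
        obtain ⟨z, hz⟩ := hy
        rw [← hz]
        exact Submodule.smul_mem_smul (Ideal.mem_span_singleton_self _) trivial
      have h2 : (⊤ : Submodule L⟦X⟧ Q) = ⊥ := by
        refine Submodule.eq_bot_of_le_smul_of_le_jacobson_bot _ _
          (Module.Finite.fg_top) h1 ?_
        rw [← PowerSeries.maximalIdeal_eq_span_X]
        exact IsLocalRing.maximalIdeal_le_jacobson ⊥
      have : Subsingleton Q := by
        rw [← Submodule.subsingleton_iff L⟦X⟧]
        exact subsingleton_of_bot_eq_top h2.symm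
      exact not_subsingleton Q this
    have hlt := Submodule.length_lt hne
    have hle : Module.length L⟦X⟧ N ≤ (k : ℕ∞) := by
      have h3 : Module.length L⟦X⟧ N < ((k + 1 : ℕ) : ℕ∞) := lt_of_lt_of_le hlt h
      have h4 : Module.length L⟦X⟧ N ≠ ⊤ := ne_top_of_lt h3
      lift Module.length L⟦X⟧ N to ℕ using h4 with m
      have h5 : m < k + 1 := by exact_mod_cast h3
      exact_mod_cast Nat.lt_succ_iff.mp h5
    have h6 := ih N hle ⟨(X : L⟦X⟧) • q, ⟨q, rfl⟩⟩
    have h7 := congrArg Subtype.val h6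
    rw [pow_succ, mul_smul]
    exact h7

/-- A submodule of colength `a` contains `X ^ a P`. -/
theorem X_pow_smul_mem {M : Submodule L⟦X⟧ P} (hM : FinColen M) {k : ℕ} (hk : colen M ≤ k)
    (f : P) : (X : L⟦X⟧) ^ k • f ∈ M := by
  have h1 : Module.length L⟦X⟧ (P ⧸ M) ≤ (k : ℕ∞) := by
    rw [← Colen_coe hM]
    exact_mod_cast hk
  have h2 := Colen_kill k (P ⧸ M) h1 (Submodule.Quotient.mk f)
  rw [← Submodule.Quotient.mk_smul, Submodule.Quotient.mk_eq_zero] at h2
  exact h2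

/-- Modular law for colengths. -/
theorem colen_inf_add_colen_sup {M M' : Submodule L⟦X⟧ P} (hM : FinColen M)
    (hM' : FinColen M') :
    FinColen (M ⊓ M') ∧ colen (M ⊓ M') + colen (M ⊔ M') = colen M + colen M' := by
  have hMM : FinColen (M ⊔ M') := finColen_mono le_sup_left hM
  have key : Module.length L⟦X⟧ ((P ⧸ M) × (P ⧸ M')) =
      Module.length L⟦X⟧ (P ⧸ (M ⊓ M')) + Module.length L⟦X⟧ (P ⧸ (M ⊔ M')) := by
    let f : (P ⧸ (M ⊓ M')) →ₗ[L⟦X⟧] ((P ⧸ M) × (P ⧸ M')) :=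
      LinearMap.prod (Submodule.factor inf_le_left) (Submodule.factor inf_le_right)
    let g : ((P ⧸ M) × (P ⧸ M')) →ₗ[L⟦X⟧] (P ⧸ (M ⊔ M')) :=
      LinearMap.comp (Submodule.factor le_sup_left) (LinearMap.fst _ _ _) -
        LinearMap.comp (Submodule.factor le_sup_right) (LinearMap.snd _ _ _)
    refine Module.length_eq_add_of_exact f g ?_ ?_ ?_
    · rw [← LinearMap.ker_eq_bot, eq_bot_iff]
      intro x hx
      obtain ⟨y, rfl⟩ := Submodule.mkQ_surjective _ x
      have hx' : f ((M ⊓ M').mkQ y) = 0 := hx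
      have h1 : (Submodule.Quotient.mk y : P ⧸ M) = 0 := congrArg Prod.fst hx'
      have h2 : (Submodule.Quotient.mk y : P ⧸ M') = 0 := congrArg Prod.snd hx'
      rw [Submodule.Quotient.mk_eq_zero] at h1 h2
      rw [Submodule.mem_bot]
      change (Submodule.Quotient.mk y : P ⧸ (M ⊓ M')) = 0
      rw [Submodule.Quotient.mk_eq_zero]
      exact ⟨h1, h2⟩
    · intro x
      obtain ⟨y, rfl⟩ := Submodule.mkQ_surjective _ x
      refine ⟨(M.mkQ y, 0), ?_⟩
      change Submodule.factor (le_sup_left : M ≤ M ⊔ M') (M.mkQ y) -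
        Submodule.factor (le_sup_right : M' ≤ M ⊔ M') (0 : P ⧸ M') = _
      rw [map_zero, sub_zero]
      rfl
    · rw [LinearMap.exact_iff]
      ext ⟨a, b⟩
      obtain ⟨a, rfl⟩ := Submodule.mkQ_surjective _ a
      obtain ⟨b, rfl⟩ := Submodule.mkQ_surjective _ b
      constructor
      · intro h
        have h' : g (M.mkQ a, M'.mkQ b) = 0 := h
        have h1 : (Submodule.Quotient.mk a : P ⧸ (M ⊔ M')) - Submodule.Quotient.mk b = 0 := h'
        rw [← Submodule.Quotient.mk_sub, Submodule.Quotient.mk_eq_zero,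
          Submodule.mem_sup] at h1
        obtain ⟨y, hy, z, hz, hyz⟩ := h1
        refine ⟨Submodule.Quotient.mk (a - y), ?_⟩
        refine Prod.ext ?_ ?_
        · change (Submodule.Quotient.mk (a - y) : P ⧸ M) = Submodule.Quotient.mk a
          rw [Submodule.Quotient.eq]
          simpa using hy
        · change (Submodule.Quotient.mk (a - y) : P ⧸ M') = Submodule.Quotient.mk b
          rw [Submodule.Quotient.eq]
          have : a - y - b = z := by
            have h3 : z = a - b - y := by rw [← hyz]; abel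
            rw [h3]; abel
          rw [this]
          exact hz
      · rintro ⟨x, hx⟩
        obtain ⟨c, rfl⟩ := Submodule.mkQ_surjective _ x
        change g (M.mkQ a, M'.mkQ b) = 0
        rw [← hx]
        change (Submodule.Quotient.mk c : P ⧸ (M ⊔ M')) - Submodule.Quotient.mk c = 0
        rw [sub_self]
  rw [Module.length_prod, ← Colen_coe hM, ← Colen_coe hM', ← Colen_coe hMM] at key
  have hfin : FinColen (M ⊓ M') := by
    intro h
    rw [h, top_add] at key
    have : ((colen M + colen M' : ℕ) : ℕ∞) = ⊤ := by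
      rw [← key]; push_cast; rfl
    exact ENat.natCast_ne_top _ this
  refine ⟨hfin, ?_⟩
  rw [← Colen_coe hfin] at key
  exact_mod_cast key.symm

private theorem Colen_length_X_pow (r B : ℕ) :
    Module.length L⟦X⟧ ((Fin r → L⟦X⟧) ⧸
      LinearMap.range (LinearMap.lsmul L⟦X⟧ (Fin r → L⟦X⟧) (X ^ B))) = ((B * r : ℕ) : ℕ∞) := by
  have h1 : LinearMap.range (LinearMap.lsmul L⟦X⟧ (Fin r → L⟦X⟧) (X ^ B)) =
      Submodule.pi Set.univ (fun _ => (Ideal.span {(X : L⟦X⟧) ^ B} : Submodule L⟦X⟧ L⟦X⟧)) := by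
    ext v
    rw [Submodule.mem_pi]
    constructor
    · rintro ⟨w, rfl⟩ i _
      change (X : L⟦X⟧) ^ B * w i ∈ Ideal.span {(X : L⟦X⟧) ^ B}
      rw [Ideal.mem_span_singleton]
      exact dvd_mul_right _ _
    · intro h
      have h' : ∀ i, (X : L⟦X⟧) ^ B ∣ v i := fun i => Ideal.mem_span_singleton.mp (h i trivial)
      choose w hw using h'
      refine ⟨w, ?_⟩
      funext i
      exact (hw i).symm
  rw [h1, (Submodule.quotientPi _).length_eq, Module.length_pi_of_fintype]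
  have h2 : Module.length L⟦X⟧ (L⟦X⟧ ⧸ (Ideal.span {(X : L⟦X⟧) ^ B})) = (B : ℕ∞) := by
    rw [← Ideal.span_singleton_pow, ← PowerSeries.maximalIdeal_eq_span_X]
    exact IsDiscreteValuationRing.length_quotient_pow_maximalIdeal L⟦X⟧ B
  rw [Finset.sum_congr rfl (fun i _ => h2)]
  simp [mul_comm]

theorem colen_X_pow (r B : ℕ) :
    colen (LinearMap.range (LinearMap.lsmul L⟦X⟧ (Fin r → L⟦X⟧) (X ^ B))) = B * r :=
  (Colen_eq_of (Colen_length_X_pow (L := L) r B)).2

/-- `X ^ B O^r` has colength `B r`. -/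
theorem finColen_of_X_pow {r B : ℕ} {M : Submodule L⟦X⟧ (Fin r → L⟦X⟧)}
    (h : ∀ f, (X : L⟦X⟧) ^ B • f ∈ M) : FinColen M ∧ colen M ≤ B * r := by
  have h1 : LinearMap.range (LinearMap.lsmul L⟦X⟧ (Fin r → L⟦X⟧) (X ^ B)) ≤ M := by
    rintro _ ⟨f, rfl⟩
    exact h f
  have h2 := (Colen_eq_of (Colen_length_X_pow (L := L) r B)).1
  refine ⟨finColen_mono h1 h2, ?_⟩
  rw [← colen_X_pow (L := L) r B]
  exact colen_anti h1 h2

/-- If `M ≤ M'` and `X ^ h M' ≤ M` while `M' / M` has length `c`, then ... : in the form used,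
a chain `M ≤ M'` with `colen M ≤ colen M' + c` satisfies `X ^ c M' ≤ M`. -/
theorem X_pow_smul_mem_of_colen {M M' : Submodule L⟦X⟧ P} (h : M ≤ M') (hM : FinColen M)
    {c : ℕ} (hc : colen M ≤ colen M' + c) {f : P} (hf : f ∈ M') :
    (X : L⟦X⟧) ^ c • f ∈ M := by
  have hM' := finColen_mono h hM
  have h1 := Colen_length_factor h
  rw [← Colen_coe hM, ← Colen_coe hM'] at h1
  have h2 : Module.length L⟦X⟧ (M'.map M.mkQ) ≤ (c : ℕ∞) := by
    have h3 : Module.length L⟦X⟧ (M'.map M.mkQ) ≠ ⊤ := by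
      intro h4
      rw [h4, top_add] at h1
      exact ENat.natCast_ne_top _ h1
    generalize Module.length L⟦X⟧ (M'.map M.mkQ) = ℓ at h1 h3
    lift ℓ to ℕ using h3
    have h5 : colen M = ℓ + colen M' := by exact_mod_cast h1
    have h6 : ℓ ≤ c := by omega
    exact_mod_cast h6
  have h7 := Colen_kill c (M'.map M.mkQ) h2 ⟨M.mkQ f, ⟨f, hf, rfl⟩⟩
  have h8 : (Submodule.Quotient.mk ((X : L⟦X⟧) ^ c • f) : P ⧸ M) = 0 := by
    rw [Submodule.Quotient.mk_smul]
    exact congrArg Subtype.val h7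
  rwa [Submodule.Quotient.mk_eq_zero] at h8

/-- The colength of `X ^ u M + X ^ B O^r`. -/
theorem colen_smul_sup {r B u : ℕ} {M : Submodule L⟦X⟧ (Fin r → L⟦X⟧)}
    (h : ∀ f, (X : L⟦X⟧) ^ B • f ∈ M) :
    colen (M.map (LinearMap.lsmul L⟦X⟧ (Fin r → L⟦X⟧) (X ^ u)) ⊔
      LinearMap.range (LinearMap.lsmul L⟦X⟧ (Fin r → L⟦X⟧) (X ^ B))) ≤ colen M + u * r := by
  obtain ⟨hM, -⟩ := finColen_of_X_pow h
  set φ : (Fin r → L⟦X⟧) →ₗ[L⟦X⟧] (Fin r → L⟦X⟧) :=
    LinearMap.lsmul L⟦X⟧ (Fin r → L⟦X⟧) (X ^ u) with hφ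
  have hφinj : Function.Injective φ := by
    intro a b hab
    have hab' : (X : L⟦X⟧) ^ u • a = (X : L⟦X⟧) ^ u • b := hab
    funext i
    have := congrFun hab' i
    simp only [Pi.smul_apply, smul_eq_mul] at this
    exact mul_left_cancel₀ (pow_ne_zero _ PowerSeries.X_ne_zero) this
  have key : Module.length L⟦X⟧ ((Fin r → L⟦X⟧) ⧸ M.map φ) =
      Module.length L⟦X⟧ ((Fin r → L⟦X⟧) ⧸ M) +
        Module.length L⟦X⟧ ((Fin r → L⟦X⟧) ⧸ LinearMap.range φ) := by
    have hle : M.map φ ≤ LinearMap.range φ := LinearMap.map_le_range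
    refine Module.length_eq_add_of_exact (Submodule.mapQ M (M.map φ) φ
      (Submodule.le_comap_map φ M)) (Submodule.factor hle) ?_ (Submodule.factor_surjective hle) ?_
    · rw [← LinearMap.ker_eq_bot, eq_bot_iff]
      intro x hx
      obtain ⟨y, rfl⟩ := Submodule.mkQ_surjective _ x
      have hx' : (Submodule.Quotient.mk (φ y) : (Fin r → L⟦X⟧) ⧸ M.map φ) = 0 := hx
      rw [Submodule.Quotient.mk_eq_zero] at hx'
      obtain ⟨z, hz, hzy⟩ := hx'
      rw [Submodule.mem_bot]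
      change (Submodule.Quotient.mk y : (Fin r → L⟦X⟧) ⧸ M) = 0
      rw [Submodule.Quotient.mk_eq_zero, ← hφinj hzy]
      exact hz
    · rw [LinearMap.exact_iff]
      ext x
      obtain ⟨y, rfl⟩ := Submodule.mkQ_surjective _ x
      constructor
      · intro hx
        have hx' : (Submodule.Quotient.mk y : (Fin r → L⟦X⟧) ⧸ LinearMap.range φ) = 0 := hx
        rw [Submodule.Quotient.mk_eq_zero] at hx'
        obtain ⟨z, hz⟩ := hx'
        refine ⟨M.mkQ z, ?_⟩
        change (Submodule.Quotient.mk (φ z) : (Fin r → L⟦X⟧) ⧸ M.map φ) = _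
        rw [hz]
        rfl
      · rintro ⟨z, hz⟩
        obtain ⟨w, rfl⟩ := Submodule.mkQ_surjective _ z
        rw [← hz]
        change (Submodule.Quotient.mk (φ w) : (Fin r → L⟦X⟧) ⧸ LinearMap.range φ) = 0
        rw [Submodule.Quotient.mk_eq_zero]
        exact ⟨w, rfl⟩
  rw [hφ, Colen_length_X_pow (L := L) r u, ← hφ, ← Colen_coe hM] at key
  have key' : Module.length L⟦X⟧ ((Fin r → L⟦X⟧) ⧸ M.map φ) = ((colen M + u * r : ℕ) : ℕ∞) := by
    rw [key]; push_cast; rfl
  obtain ⟨h1, h2⟩ := Colen_eq_of key'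
  rw [← h2]
  exact colen_anti le_sup_left h1

/-- Exactness: for submodules `Ξ` of a product `P × Q`, colength is additive along the
projection to `P`. -/
theorem colen_prod {Q : Type} [AddCommGroup Q] [Module L⟦X⟧ Q] {Ξ : Submodule L⟦X⟧ (P × Q)}
    (h : FinColen Ξ) :
    FinColen (Ξ.map (LinearMap.fst L⟦X⟧ P Q)) ∧
    FinColen (Ξ.comap (LinearMap.inr L⟦X⟧ P Q)) ∧
    colen Ξ = colen (Ξ.map (LinearMap.fst L⟦X⟧ P Q)) +
      colen (Ξ.comap (LinearMap.inr L⟦X⟧ P Q)) := by
  have key : Module.length L⟦X⟧ ((P × Q) ⧸ Ξ) =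
      Module.length L⟦X⟧ (Q ⧸ Ξ.comap (LinearMap.inr L⟦X⟧ P Q)) +
        Module.length L⟦X⟧ (P ⧸ Ξ.map (LinearMap.fst L⟦X⟧ P Q)) := by
    refine Module.length_eq_add_of_exact
      (Submodule.mapQ (Ξ.comap (LinearMap.inr L⟦X⟧ P Q)) Ξ (LinearMap.inr L⟦X⟧ P Q) le_rfl)
      (Submodule.mapQ Ξ (Ξ.map (LinearMap.fst L⟦X⟧ P Q)) (LinearMap.fst L⟦X⟧ P Q)
        (Submodule.le_comap_map _ _)) ?_ ?_ ?_
    · rw [← LinearMap.ker_eq_bot, eq_bot_iff]
      intro x hx
      obtain ⟨y, rfl⟩ := Submodule.mkQ_surjective _ x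
      have hx' : (Submodule.Quotient.mk (LinearMap.inr L⟦X⟧ P Q y) : (P × Q) ⧸ Ξ) = 0 := hx
      rw [Submodule.Quotient.mk_eq_zero] at hx'
      rw [Submodule.mem_bot]
      change (Submodule.Quotient.mk y : Q ⧸ Ξ.comap (LinearMap.inr L⟦X⟧ P Q)) = 0
      rw [Submodule.Quotient.mk_eq_zero]
      exact hx'
    · intro x
      obtain ⟨y, rfl⟩ := Submodule.mkQ_surjective _ x
      exact ⟨Ξ.mkQ (y, 0), rfl⟩
    · rw [LinearMap.exact_iff]
      ext x
      obtain ⟨⟨p, q⟩, rfl⟩ := Submodule.mkQ_surjective _ x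
      constructor
      · intro hx
        have hx' : (Submodule.Quotient.mk p : P ⧸ Ξ.map (LinearMap.fst L⟦X⟧ P Q)) = 0 := hx
        rw [Submodule.Quotient.mk_eq_zero] at hx'
        obtain ⟨⟨p', q'⟩, hz, hzp⟩ := hx'
        have hp : p' = p := hzp
        subst hp
        refine ⟨Submodule.Quotient.mk (q - q'), ?_⟩
        change (Submodule.Quotient.mk (LinearMap.inr L⟦X⟧ P Q (q - q')) : (P × Q) ⧸ Ξ) =
          Submodule.Quotient.mk (p', q)
        rw [Submodule.Quotient.eq]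
        have : (LinearMap.inr L⟦X⟧ P Q (q - q')) - (p', q) = -(p', q') := by
          ext <;> simp
        rw [this]
        exact Ξ.neg_mem hz
      · rintro ⟨z, hz⟩
        obtain ⟨w, rfl⟩ := Submodule.mkQ_surjective _ z
        rw [← hz]
        change (Submodule.Quotient.mk (0 : P) : P ⧸ Ξ.map (LinearMap.fst L⟦X⟧ P Q)) = 0
        exact Submodule.Quotient.mk_zero _
  have h1 : FinColen (Ξ.map (LinearMap.fst L⟦X⟧ P Q)) := by
    intro h'
    apply h
    rw [key, h', add_top]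
  have h2 : FinColen (Ξ.comap (LinearMap.inr L⟦X⟧ P Q)) := by
    intro h'
    apply h
    rw [key, h', top_add]
  refine ⟨h1, h2, ?_⟩
  rw [← Colen_coe h, ← Colen_coe h1, ← Colen_coe h2] at key
  rw [add_comm]
  exact_mod_cast key

end Pool.Agent.Lib_GD
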