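import Pool.Agent.Lib_GD.Rational
import Pool.Agent.Lib_GD.Colen

/-! J02: derivations and algebraic independence. -/

open PowerSeries

namespace Pool.Agent.Lib_GD

variable {L : Type} [Field L] [Algebra ℂ L]

/-- A derivation which kills a ring `R` is linear over `R`. -/
private def trdegBoundDer (R : Type) [CommRing R] [Algebra R L] (δ : Derivation ℂ L L)
    (h : ∀ r : R, δ (algebraMap R L r) = 0) : Derivation R L L :=
  Derivation.mk'
    { toFun := δ
      map_add' := δ.map_add
      map_smul' := fun r x => by
        rw [Algebra.smul_def, δ.leibniz, h r, smul_zero, add_zero, smul_eq_mul,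
          RingHom.id_apply, Algebra.smul_def] }
    (fun a b => δ.leibniz a b)

private theorem trdegBound_der_algebraic_aux (R : Type) [CommRing R] [Algebra R L]
    (hinj : Function.Injective (algebraMap R L)) (δ : Derivation ℂ L L)
    (h : ∀ r : R, δ (algebraMap R L r) = 0) (a : L) (n : ℕ) :
    ∀ p : Polynomial R, p ≠ 0 → p.natDegree ≤ n → Polynomial.aeval a p = 0 → δ a = 0 := by
  have hL : CharZero L := charZero_of_injective_algebraMap (algebraMap ℂ L).injective
  induction n with
  | zero =>
    intro p hp hn h0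
    exfalso
    have h1 : p = Polynomial.C (p.coeff 0) := Polynomial.eq_C_of_natDegree_le_zero hn
    rw [h1, Polynomial.aeval_C] at h0
    have h2 : p.coeff 0 = 0 := hinj (by rw [h0, map_zero])
    exact hp (by rw [h1, h2, map_zero])
  | succ n ih =>
    intro p hp hn h0
    by_cases h1 : Polynomial.aeval a (Polynomial.derivative p) = 0
    · by_cases h2 : Polynomial.derivative p = 0
      · exfalso
        have h3 : p.natDegree = 0 := by
          by_contra h3
          obtain ⟨m, hm⟩ := Nat.exists_eq_succ_of_ne_zero h3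
          have h4 : (Polynomial.derivative p).coeff m = 0 := by rw [h2, Polynomial.coeff_zero]
          rw [Polynomial.coeff_derivative] at h4
          have h5 : algebraMap R L (p.coeff (m + 1)) * ((m : L) + 1) = 0 := by
            have h6 := congrArg (algebraMap R L) h4
            simpa using h6
          have h7 : ((m : L) + 1) ≠ 0 := by exact_mod_cast Nat.succ_ne_zero m
          have h8 : algebraMap R L (p.coeff (m + 1)) = 0 := by
            rcases mul_eq_zero.mp h5 with h | h
            · exact h
            · exact absurd h h7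
          have h9 : p.coeff (m + 1) = 0 := hinj (by rw [h8, map_zero])
          have h10 : p.leadingCoeff = 0 := by
            rw [Polynomial.leadingCoeff, hm]
            exact h9
          exact hp (Polynomial.leadingCoeff_eq_zero.mp h10)
        have h4 : p = Polynomial.C (p.coeff 0) := Polynomial.eq_C_of_natDegree_le_zero h3.le
        rw [h4, Polynomial.aeval_C] at h0
        have h5 : p.coeff 0 = 0 := hinj (by rw [h0, map_zero])
        exact hp (by rw [h4, h5, map_zero])
      · refine ih _ h2 ?_ h1
        have := Polynomial.natDegree_derivative_le p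
        omega
    · have h2 := (trdegBoundDer R δ h).map_aeval p a
      rw [h0, map_zero] at h2
      have h3 : Polynomial.aeval a (Polynomial.derivative p) * δ a = 0 := h2.symm
      rcases mul_eq_zero.mp h3 with h | h
      · exact absurd h h1
      · exact h

private theorem trdegBound_der_algebraic (R : Type) [CommRing R] [Algebra R L]
    (hinj : Function.Injective (algebraMap R L)) (δ : Derivation ℂ L L)
    (h : ∀ r : R, δ (algebraMap R L r) = 0) {a : L} (ha : IsAlgebraic R a) : δ a = 0 := by
  obtain ⟨p, hp, h0⟩ := ha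
  exact trdegBound_der_algebraic_aux R hinj δ h a p.natDegree p hp le_rfl h0

private theorem trdegBound_der_adjoin {K : Type} [Field K] [Algebra K L] (δ : Derivation ℂ L L)
    (h : ∀ r : K, δ (algebraMap K L r) = 0) (S : Set L) (hS : ∀ x ∈ S, δ x = 0)
    (y : Algebra.adjoin K S) : δ (algebraMap (Algebra.adjoin K S) L y) = 0 := by
  obtain ⟨y, hy⟩ := y
  change δ y = 0
  induction hy using Algebra.adjoin_induction with
  | mem x hx => exact hS x hx
  | algebraMap r => exact h r
  | add x y _ _ hx hy => rw [map_add, hx, hy, add_zero]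
  | mul x y _ _ hx hy => rw [δ.leibniz, hx, hy, smul_zero, smul_zero, add_zero]

/-- J02a: if a space of derivations `Δ` of `L` realises, on a finite family `z` of elements, a
space of values of dimension at least `r`, then `r` members of the family are algebraically
independent over the constants of `Δ`. -/
theorem exists_algebraicIndependent {ι : Type} [Fintype ι] (Δ : Submodule L (Derivation ℂ L L))
    (z : ι → L) (r : ℕ)
    (h : r ≤ Module.finrank L (Submodule.span L {v : ι → L | ∃ δ ∈ Δ, ∀ p, δ (z p) = v p})) :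
    ∃ s : Finset ι, r ≤ s.card ∧
      AlgebraicIndependent (consts (Δ : Set (Derivation ℂ L L))) (fun p : s => z p) := by
  classical
  set K := consts (Δ : Set (Derivation ℂ L L)) with hK
  -- a maximal independent subfamily
  have h0 : ({s : Finset ι | AlgebraicIndepOn K z (s : Set ι)} : Set (Finset ι)).Nonempty := by
    refine ⟨∅, ?_⟩
    change AlgebraicIndepOn K z ((∅ : Finset ι) : Set ι)
    rw [Finset.coe_empty]
    have : IsEmpty ((∅ : Set ι) : Type) := inferInstance
    exact algebraicIndependent_empty_type_iff.mpr (algebraMap K L).injective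
  obtain ⟨s, hs⟩ := Set.Finite.exists_maximal (Set.toFinite _) h0
  have hs1 : AlgebraicIndepOn K z (s : Set ι) := hs.prop
  have halg : ∀ q, IsAlgebraic (Algebra.adjoin K (z '' (s : Set ι))) (z q) := by
    intro q
    by_contra hq
    have h1 : AlgebraicIndepOn K z (insert q (s : Set ι)) := hs1.insert hq
    have h2 : (insert q s : Finset ι) ∈ {s : Finset ι | AlgebraicIndepOn K z (s : Set ι)} := by
      change AlgebraicIndepOn K z ((insert q s : Finset ι) : Set ι)
      rw [Finset.coe_insert]
      exact h1
    have h3 : insert q s ≤ s := hs.le_of_ge h2 (Finset.subset_insert q s)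
    have h4 : q ∈ s := h3 (Finset.mem_insert_self q s)
    refine hq ?_
    exact isAlgebraic_algebraMap (⟨z q, Algebra.subset_adjoin ⟨q, h4, rfl⟩⟩ :
      Algebra.adjoin K (z '' (s : Set ι)))
  have hkill : ∀ δ ∈ Δ, (∀ p ∈ s, δ (z p) = 0) → ∀ q, δ (z q) = 0 := by
    intro δ hδ h1 q
    refine trdegBound_der_algebraic (Algebra.adjoin K (z '' (s : Set ι)))
      Subtype.val_injective δ ?_ (halg q)
    refine trdegBound_der_adjoin δ (fun r => r.2 δ hδ) _ ?_
    rintro x ⟨p, hp, rfl⟩
    exact h1 p hp
  -- the values form a submodule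
  let ev : Derivation ℂ L L →ₗ[L] (ι → L) :=
    { toFun := fun δ p => δ (z p)
      map_add' := fun _ _ => rfl
      map_smul' := fun _ _ => rfl }
  have hspan : Submodule.span L {v : ι → L | ∃ δ ∈ Δ, ∀ p, δ (z p) = v p} = Δ.map ev := by
    have h1 : {v : ι → L | ∃ δ ∈ Δ, ∀ p, δ (z p) = v p} = ((Δ.map ev : Submodule L (ι → L)) :
        Set (ι → L)) := by
      ext v
      constructor
      · rintro ⟨δ, hδ, hv⟩
        exact ⟨δ, hδ, funext hv⟩
      · rintro ⟨δ, hδ, hv⟩
        exact ⟨δ, hδ, fun p => congrFun hv p⟩
    rw [h1, Submodule.span_eq]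
  rw [hspan] at h
  refine ⟨s, ?_, hs1⟩
  let ρ : (ι → L) →ₗ[L] (s → L) := LinearMap.funLeft L L (fun p : s => (p : ι))
  have hinj : Function.Injective (ρ.domRestrict (Δ.map ev)) := by
    rw [injective_iff_map_eq_zero]
    rintro ⟨v, δ, hδ, rfl⟩ hv
    have h1 : ∀ p ∈ s, δ (z p) = 0 := fun p hp => congrFun hv ⟨p, hp⟩
    apply Subtype.ext
    funext q
    exact hkill δ hδ h1 q
  have h2 := LinearMap.finrank_le_finrank_of_injective hinj
  have h3 : Module.finrank L (s → L) = s.card := by
    rw [Module.finrank_fintype_fun_eq_card, Fintype.card_coe]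
  omega

private theorem trdegBound_exists_basis {κ : Type} (x : κ → L)
    (hx : IsTranscendenceBasis ℂ x) (w : κ → L) : ∃ δ : Derivation ℂ L L, ∀ i, δ (x i) = w i := by
  let _ : Algebra (MvPolynomial κ ℂ) L := (MvPolynomial.aeval x).toRingHom.toAlgebra
  have hmap : ∀ p : MvPolynomial κ ℂ, algebraMap (MvPolynomial κ ℂ) L p = MvPolynomial.aeval x p :=
    fun _ => rfl
  have : IsScalarTower ℂ (MvPolynomial κ ℂ) L := by
    refine IsScalarTower.of_algebraMap_eq fun c => ?_
    rw [hmap, MvPolynomial.algebraMap_eq, MvPolynomial.aeval_C]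
  have hinj : Function.Injective (algebraMap (MvPolynomial κ ℂ) L) := hx.1
  have : FaithfulSMul (MvPolynomial κ ℂ) L := (faithfulSMul_iff_algebraMap_injective _ _).mpr hinj
  let _ : Algebra (FractionRing (MvPolynomial κ ℂ)) L := FractionRing.liftAlgebra _ _
  have : IsScalarTower (MvPolynomial κ ℂ) (FractionRing (MvPolynomial κ ℂ)) L :=
    FractionRing.isScalarTower_liftAlgebra _ _
  have halg0 : ∀ a : L, IsAlgebraic (MvPolynomial κ ℂ) a := by
    intro a
    obtain ⟨p, hp, hp0⟩ := hx.isAlgebraic.isAlgebraic a
    have hsymm : ∀ y : Algebra.adjoin ℂ (Set.range x),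
        algebraMap (MvPolynomial κ ℂ) L (hx.1.aevalEquiv.symm y) = (y : L) := by
      intro y
      rw [hmap]
      have h1 := hx.1.algebraMap_aevalEquiv (hx.1.aevalEquiv.symm y)
      rw [AlgEquiv.apply_symm_apply] at h1
      exact h1.symm
    refine ⟨p.map hx.1.aevalEquiv.symm.toAlgHom.toRingHom, ?_, ?_⟩
    · rw [Ne, Polynomial.map_eq_zero_iff]
      · exact hp
      · exact hx.1.aevalEquiv.symm.injective
    · rw [Polynomial.aeval_def, Polynomial.eval₂_map]
      rw [Polynomial.aeval_def] at hp0
      have h2 : (algebraMap (MvPolynomial κ ℂ) L).comp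
          hx.1.aevalEquiv.symm.toAlgHom.toRingHom =
          algebraMap (Algebra.adjoin ℂ (Set.range x)) L := by
        ext y
        exact hsymm y
      rw [h2]
      exact hp0
  have : Algebra.IsAlgebraic (FractionRing (MvPolynomial κ ℂ)) L := by
    refine ⟨fun a => ?_⟩
    exact (halg0 a).extendScalars (IsFractionRing.injective (MvPolynomial κ ℂ)
      (FractionRing (MvPolynomial κ ℂ)))
  have : Algebra.FormallyEtale (MvPolynomial κ ℂ) (FractionRing (MvPolynomial κ ℂ)) :=
    Algebra.FormallyEtale.of_isLocalization (nonZeroDivisors (MvPolynomial κ ℂ))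
  have hcz : CharZero (FractionRing (MvPolynomial κ ℂ)) :=
    charZero_of_injective_algebraMap (algebraMap ℂ (FractionRing (MvPolynomial κ ℂ))).injective
  have : Algebra.FormallyEtale (FractionRing (MvPolynomial κ ℂ)) L :=
    Algebra.FormallyEtale.of_isSeparable _ _
  have : Algebra.FormallyEtale (MvPolynomial κ ℂ) L :=
    Algebra.FormallyEtale.comp _ (FractionRing (MvPolynomial κ ℂ)) _
  let D0 : Derivation ℂ (MvPolynomial κ ℂ) L := MvPolynomial.mkDerivation ℂ w
  let ψ : (TensorProduct (MvPolynomial κ ℂ) L (Ω[MvPolynomial κ ℂ⁄ℂ])) →ₗ[L] L :=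
    LinearMap.liftBaseChange L D0.liftKaehlerDifferential
  let e := KaehlerDifferential.tensorKaehlerEquivOfFormallyEtale ℂ (MvPolynomial κ ℂ) L
  refine ⟨(ψ.comp e.symm.toLinearMap).compDer (KaehlerDifferential.D ℂ L), fun i => ?_⟩
  have h1 : x i = algebraMap (MvPolynomial κ ℂ) L (MvPolynomial.X i) := by
    rw [hmap, MvPolynomial.aeval_X]
  change ψ (e.symm (KaehlerDifferential.D ℂ L (x i))) = w i
  rw [h1, KaehlerDifferential.tensorKaehlerEquivOfFormallyEtale_symm_D_algebraMap]
  simp [ψ, D0]

/-- J02c: in characteristic zero derivations of a field can be prescribed arbitrarily on an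
algebraically independent family. -/
theorem exists_derivation {ι : Type} (z : ι → L) (hz : AlgebraicIndependent ℂ z) (v : ι → L) :
    ∃ δ : Derivation ℂ L L, ∀ i, δ (z i) = v i := by
  classical
  obtain ⟨T, hT, hB⟩ := exists_isTranscendenceBasis_superset hz.coe_range
  obtain ⟨δ, hδ⟩ := trdegBound_exists_basis (fun t : T => (t : L)) hB
    (fun t => if h : ∃ i, z i = t then v h.choose else 0)
  refine ⟨δ, fun i => ?_⟩
  have h1 := hδ ⟨z i, hT ⟨i, rfl⟩⟩
  have h2 : ∃ j, z j = z i := ⟨i, rfl⟩
  have h3 : h2.choose = i := hz.injective h2.choose_spec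
  simp only at h1
  rw [dif_pos h2, h3] at h1
  exact h1

/-- J02d: an element killed by all derivations which kill the family `z` is algebraic over the
field generated by `z`. -/
theorem isAlgebraic_of_derivation {ι : Type} (z : ι → L) (f : L)
    (h : ∀ δ : Derivation ℂ L L, (∀ i, δ (z i) = 0) → δ f = 0) :
    IsAlgebraic (IntermediateField.adjoin ℂ (Set.range z)) f := by
  classical
  by_contra hf
  obtain ⟨B, hB⟩ := (AlgebraicIndependent.matroid ℂ L).exists_isBasis (Set.range z)
  rw [AlgebraicIndependent.matroid_isBasis_iff] at hB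
  obtain ⟨hB1, hB2, hB3⟩ := hB
  have hfB : Transcendental (Algebra.adjoin ℂ B) f := by
    intro halg
    apply hf
    obtain ⟨p, hp, hp0⟩ := halg
    have hle : Algebra.adjoin ℂ B ≤
        (IntermediateField.adjoin ℂ (Set.range z)).toSubalgebra :=
      Algebra.adjoin_le fun x hx => IntermediateField.subset_adjoin ℂ _ (hB2 hx)
    refine ⟨p.map (Subalgebra.inclusion hle).toRingHom, ?_, ?_⟩
    · rw [Ne, Polynomial.map_eq_zero_iff]
      · exact hp
      · exact Subalgebra.inclusion_injective hle
    · rw [Polynomial.aeval_def, Polynomial.eval₂_map]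
      exact hp0
  have hind : AlgebraicIndependent ℂ (fun o : Option B => o.elim f (fun b : B => (b : L))) := by
    have hB1' : AlgebraicIndependent ℂ (fun b : B => (b : L)) := hB1
    rw [AlgebraicIndependent.option_iff_transcendental hB1', Subtype.range_coe]
    exact hfB
  obtain ⟨δ, hδ⟩ := exists_derivation _ hind (fun o => o.elim 1 (fun _ => 0))
  have h1 : δ f = 1 := hδ none
  have h2 : ∀ b ∈ B, δ b = 0 := fun b hb => hδ (some ⟨b, hb⟩)
  have h3 : ∀ i, δ (z i) = 0 := by
    intro i
    refine trdegBound_der_algebraic (Algebra.adjoin ℂ B) Subtype.val_injective δ ?_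
      (hB3 (z i) ⟨i, rfl⟩)
    exact trdegBound_der_adjoin δ (fun r => δ.map_algebraMap r) _ h2
  rw [h δ h3] at h1
  exact zero_ne_one h1

end Pool.Agent.Lib_GD
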