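import Pool.Agent.Lib_GD.ChartDer
import Pool.Agent.Lib_GD.TrdegBound

/-! J05b: coefficients of arcs are algebraic over those of the coordinates. -/

open PowerSeries

namespace Pool.Agent.Lib_GD

variable {R : Type} [CommRing R] [Algebra ℂ R] {𝒜 : ℕ → Submodule ℂ R} {n : ℕ}

/-- J05b: the coefficients of order `< k` of an arc are algebraic over those of its coordinates. -/
theorem Chart.isAlgebraic_coeff (c : Chart 𝒜 n) {L : Type} [Field L] [Algebra ℂ L]
    (x : c.B →ₐ[ℂ] L⟦X⟧) (k : ℕ) (b : c.B) (j : ℕ) (hj : j < k) :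
    IsAlgebraic (IntermediateField.adjoin ℂ
      (Set.range fun p : Fin n × Fin k => coeff (p.2 : ℕ) (x (c.y p.1)))) (coeff j (x b)) := by
  refine isAlgebraic_of_derivation
    (fun p : Fin n × Fin k => coeff (p.2 : ℕ) (x (c.y p.1))) (coeff j (x b)) fun δ hδ => ?_
  have hc : ∀ (f : L⟦X⟧) (m : ℕ), coeff m (hat δ f) = δ (coeff m f) := by
    intro f m
    rw [hat, PowerSeries.coeff_mk]
  have h1 : ∀ l, (X : L⟦X⟧) ^ k ∣ hat δ (x (c.y l)) := by
    intro l
    rw [X_pow_dvd_iff]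
    intro m hm
    rw [hc]
    exact hδ (l, ⟨m, hm⟩)
  have h2 : (X : L⟦X⟧) ^ k ∣ hat δ (x b) := by
    rw [c.hat_arc x δ b]
    exact Finset.dvd_sum fun l _ => Dvd.dvd.mul_left (h1 l) _
  rw [← hc]
  exact X_pow_dvd_iff.1 h2 j hj

end Pool.Agent.Lib_GD
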