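import Pool.Agent.Lib_GD.ArcDefs

/-! K01: the coefficientwise action of derivations. -/

open PowerSeries

namespace Pool.Agent.Lib_GD

variable {L : Type} [Field L] [Algebra ℂ L]

theorem coeff_hat (δ : Derivation ℂ L L) (f : L⟦X⟧) (k : ℕ) :
    coeff k (hat δ f) = δ (coeff k f) := by
  rw [hat, PowerSeries.coeff_mk]

theorem hat_add (δ : Derivation ℂ L L) (f g : L⟦X⟧) : hat δ (f + g) = hat δ f + hat δ g := by
  ext k
  simp only [coeff_hat, map_add]

theorem hat_zero (δ : Derivation ℂ L L) : hat δ (0 : L⟦X⟧) = 0 := by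
  ext k
  simp only [coeff_hat, map_zero]

theorem hat_mul (δ : Derivation ℂ L L) (f g : L⟦X⟧) :
    hat δ (f * g) = f * hat δ g + hat δ f * g := by
  ext k
  rw [coeff_hat, PowerSeries.coeff_mul, map_add, PowerSeries.coeff_mul, PowerSeries.coeff_mul,
    map_sum, ← Finset.sum_add_distrib]
  refine Finset.sum_congr rfl fun p _ => ?_
  rw [Derivation.leibniz, coeff_hat, coeff_hat, smul_eq_mul, smul_eq_mul,
    mul_comm (δ (coeff p.1 f))]

theorem hat_sum (δ : Derivation ℂ L L) {ι : Type} (s : Finset ι) (f : ι → L⟦X⟧) :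
    hat δ (∑ i ∈ s, f i) = ∑ i ∈ s, hat δ (f i) := by
  classical
  induction s using Finset.induction_on with
  | empty => simp only [Finset.sum_empty, hat_zero]
  | insert a s ha ih => rw [Finset.sum_insert ha, Finset.sum_insert ha, hat_add, ih]

private theorem HatLem_X_pow (δ : Derivation ℂ L L) (k : ℕ) : hat δ ((X : L⟦X⟧) ^ k) = 0 := by
  ext m
  rw [coeff_hat, PowerSeries.coeff_X_pow, map_zero]
  split_ifs
  · exact Derivation.map_one_eq_zero δ
  · exact map_zero δ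

theorem hat_X_pow_mul (δ : Derivation ℂ L L) (k : ℕ) (f : L⟦X⟧) :
    hat δ (X ^ k * f) = X ^ k * hat δ f := by
  rw [hat_mul, HatLem_X_pow, zero_mul, add_zero]

theorem X_pow_dvd_hat (δ : Derivation ℂ L L) {k : ℕ} {f : L⟦X⟧} (h : (X : L⟦X⟧) ^ k ∣ f) :
    (X : L⟦X⟧) ^ k ∣ hat δ f := by
  obtain ⟨g, rfl⟩ := h
  rw [hat_X_pow_mul]
  exact dvd_mul_right _ _

theorem hat_add_der (δ δ' : Derivation ℂ L L) (f : L⟦X⟧) :
    hat (δ + δ') f = hat δ f + hat δ' f := by
  ext k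
  simp only [coeff_hat, map_add, Derivation.add_apply]

theorem hat_smul_der (c : L) (δ : Derivation ℂ L L) (f : L⟦X⟧) :
    hat (c • δ) f = C c * hat δ f := by
  ext k
  rw [coeff_hat, PowerSeries.coeff_C_mul, coeff_hat, Derivation.smul_apply, smul_eq_mul]

namespace ArcSystem

variable {n N : ℕ} (Γ : ArcSystem L n N)

theorem ev_apply (j : Fin N) (α : Fin n →₀ ℕ) (f : Fin N → L⟦X⟧) :
    Γ.ev j α f = ∑ i, Γ.u j α i * f i := rfl

/-- Transport law for `H(O)`. -/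
theorem hat_ev (δ : Derivation ℂ L L) (hδ : δ ∈ Γ.𝒟) (j : Fin N) (α : Fin n →₀ ℕ)
    (f : Fin N → L⟦X⟧) :
    hat δ (Γ.ev j α f) = Γ.ev j α (fun i => hat δ (f i)) +
      ∑ l, Γ.ξ δ j l * Γ.ev j (α + Finsupp.single l 1) f := by
  simp only [ev_apply, hat_sum, hat_mul, Finset.sum_add_distrib, Γ.transport δ hδ j α,
    Finset.sum_mul, Finset.mul_sum]
  congr 1
  rw [Finset.sum_comm]
  exact Finset.sum_congr rfl fun l _ => Finset.sum_congr rfl fun i _ => mul_assoc _ _ _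

/-- The derivations killing the arcs in `S` kill the evaluations there. -/
theorem hat_ev_of_mem (S : Finset (Fin N)) (δ : Derivation ℂ L L) (hδ : δ ∈ Γ.Dker S)
    {i : Fin N} (hi : i ∈ S) (α : Fin n →₀ ℕ) (f : Fin N → L⟦X⟧) :
    hat δ (Γ.ev i α f) = Γ.ev i α (fun k => hat δ (f k)) := by
  rw [Γ.hat_ev δ hδ.1, add_eq_left]
  refine Finset.sum_eq_zero fun l _ => ?_
  rw [hδ.2 i hi, Pi.zero_apply, zero_mul]

/-- `W_S` is stable. -/
theorem stable_W (S : Finset (Fin N)) : Γ.Stable S (Γ.W S) := by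
  intro δ hδ f hf i hi
  rw [← Γ.hat_ev_of_mem S δ hδ hi, hf i hi, hat_zero]

/-- The disc lattices are stable. -/
theorem stable_Lam (B a : ℕ) (S : Finset (Fin N)) : Γ.Stable S (Γ.Lam B a S) := by
  intro δ hδ f hf i hi α
  rw [← Γ.hat_ev_of_mem S δ hδ hi, ← hat_X_pow_mul]
  exact X_pow_dvd_hat δ (hf i hi α)

/-- The whole module is stable, sums, intersections, multiples by `X ^ k` of stable submodules
are stable. -/
theorem stable_top (S : Finset (Fin N)) : Γ.Stable S ⊤ := fun _ _ _ _ => Submodule.mem_top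

theorem stable_sup {S : Finset (Fin N)} {M M' : Submodule L⟦X⟧ (Fin N → L⟦X⟧)}
    (h : Γ.Stable S M) (h' : Γ.Stable S M') : Γ.Stable S (M ⊔ M') := by
  intro δ hδ f hf
  obtain ⟨a, ha, b, hb, rfl⟩ := Submodule.mem_sup.1 hf
  have h1 : (fun i => hat δ ((a + b) i)) = (fun i => hat δ (a i)) + fun i => hat δ (b i) := by
    funext i
    rw [Pi.add_apply, Pi.add_apply, hat_add]
  rw [h1]
  exact Submodule.add_mem_sup (h δ hδ a ha) (h' δ hδ b hb)

theorem stable_inf {S : Finset (Fin N)} {M M' : Submodule L⟦X⟧ (Fin N → L⟦X⟧)}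
    (h : Γ.Stable S M) (h' : Γ.Stable S M') : Γ.Stable S (M ⊓ M') :=
  fun δ hδ f hf => ⟨h δ hδ f hf.1, h' δ hδ f hf.2⟩

/-- If `M` is stable so is `X ^ k M`. -/
theorem stable_map {S : Finset (Fin N)} {M : Submodule L⟦X⟧ (Fin N → L⟦X⟧)}
    (h : Γ.Stable S M) (k : ℕ) :
    Γ.Stable S (M.map (LinearMap.lsmul L⟦X⟧ (Fin N → L⟦X⟧) (X ^ k))) := by
  intro δ hδ f hf
  obtain ⟨g, hg, rfl⟩ := Submodule.mem_map.1 hf
  refine Submodule.mem_map.2 ⟨fun i => hat δ (g i), h δ hδ g hg, ?_⟩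
  funext i
  simp only [LinearMap.lsmul_apply, Pi.smul_apply, smul_eq_mul, hat_X_pow_mul]

end ArcSystem

end Pool.Agent.Lib_GD
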