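import Pool.Agent.Lib_GD.Colen
import Pool.Agent.Lib_GD.HatLem

/-! K09: the window lemma: stable sublattices of almost stable lattices. -/

open PowerSeries

namespace Pool.Agent.Lib_GD

variable {L : Type} [Field L] [Algebra ℂ L]

/-- Stability of a lattice under a set `Δ` of derivations. -/
def StableD {N : ℕ} (Δ : Set (Derivation ℂ L L)) (M : Submodule L⟦X⟧ (Fin N → L⟦X⟧)) : Prop :=
  ∀ δ ∈ Δ, ∀ f ∈ M, (fun i => hat δ (f i)) ∈ M

section aux

variable {L : Type} [Field L] {N : ℕ}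

/-- multiplication by `X ^ k` -/
private noncomputable abbrev Window_mul (L : Type) [Field L] (N k : ℕ) :
    (Fin N → L⟦X⟧) →ₗ[L⟦X⟧] (Fin N → L⟦X⟧) :=
  LinearMap.lsmul L⟦X⟧ (Fin N → L⟦X⟧) (X ^ k)

private theorem Window_mul_apply (k : ℕ) (f : Fin N → L⟦X⟧) :
    Window_mul L N k f = (X : L⟦X⟧) ^ k • f := rfl

private theorem Window_mul_inj (k : ℕ) : Function.Injective (Window_mul L N k) := by
  intro f g h
  funext i
  have h1 : (X : L⟦X⟧) ^ k * f i = X ^ k * g i := congrFun h i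
  exact mul_left_cancel₀ (pow_ne_zero k X_ne_zero) h1

private theorem Window_pow_add (a b : ℕ) (f : Fin N → L⟦X⟧) :
    (X : L⟦X⟧) ^ (a + b) • f = (X : L⟦X⟧) ^ a • (X : L⟦X⟧) ^ b • f := by
  rw [pow_add, mul_smul]

/-- the colength of `X ^ k M` -/
private theorem Window_colen_map (k : ℕ) {M : Submodule L⟦X⟧ (Fin N → L⟦X⟧)} (hM : FinColen M) :
    FinColen (M.map (Window_mul L N k)) ∧
      colen (M.map (Window_mul L N k)) = colen M + k * N := by
  have hr : FinColen (LinearMap.range (Window_mul L N k)) :=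
    (finColen_of_X_pow (B := k) fun f => LinearMap.mem_range.2 ⟨f, rfl⟩).1
  have hle : M.map (Window_mul L N k) ≤ LinearMap.range (Window_mul L N k) :=
    LinearMap.map_le_range
  have key : Module.length L⟦X⟧ ((Fin N → L⟦X⟧) ⧸ M.map (Window_mul L N k)) =
      Module.length L⟦X⟧ ((Fin N → L⟦X⟧) ⧸ M) +
        Module.length L⟦X⟧ ((Fin N → L⟦X⟧) ⧸ LinearMap.range (Window_mul L N k)) := by
    refine Module.length_eq_add_of_exact
      (Submodule.mapQ M (M.map (Window_mul L N k)) (Window_mul L N k) (Submodule.le_comap_map _ _))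
      (Submodule.mapQ _ _ LinearMap.id hle) ?_ ?_ ?_
    · rw [← LinearMap.ker_eq_bot, eq_bot_iff]
      intro x hx
      obtain ⟨f, rfl⟩ := Submodule.Quotient.mk_surjective _ x
      rw [LinearMap.mem_ker, Submodule.mapQ_apply, Submodule.Quotient.mk_eq_zero] at hx
      obtain ⟨g, hg, hgf⟩ := Submodule.mem_map.1 hx
      have : g = f := Window_mul_inj k hgf
      rw [Submodule.mem_bot, Submodule.Quotient.mk_eq_zero, ← this]
      exact hg
    · intro x
      obtain ⟨f, rfl⟩ := Submodule.Quotient.mk_surjective _ x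
      exact ⟨Submodule.Quotient.mk f, rfl⟩
    · intro x
      obtain ⟨f, rfl⟩ := Submodule.Quotient.mk_surjective _ x
      rw [Submodule.mapQ_apply, LinearMap.id_apply, Submodule.Quotient.mk_eq_zero]
      constructor
      · rintro ⟨g, hg⟩
        exact ⟨Submodule.Quotient.mk g, by rw [Submodule.mapQ_apply, hg]⟩
      · rintro ⟨y, hy⟩
        obtain ⟨g, rfl⟩ := Submodule.Quotient.mk_surjective _ y
        rw [Submodule.mapQ_apply, Submodule.Quotient.eq] at hy
        have h1 : f = Window_mul L N k g - (Window_mul L N k g - f) := by abel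
        rw [h1]
        exact Submodule.sub_mem _ ⟨g, rfl⟩ (hle hy)
  have hM' : Module.length L⟦X⟧ ((Fin N → L⟦X⟧) ⧸ M) ≠ ⊤ := hM
  have hr' : Module.length L⟦X⟧ ((Fin N → L⟦X⟧) ⧸ LinearMap.range (Window_mul L N k)) ≠ ⊤ := hr
  constructor
  · unfold FinColen
    rw [key]
    exact WithTop.add_ne_top.2 ⟨hM', hr'⟩
  · have h1 : colen (LinearMap.range (Window_mul L N k)) = k * N := colen_X_pow N k
    rw [← h1]
    unfold colen
    rw [key, ENat.toNat_add hM' hr']

/-- equal colengths -/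
private theorem Window_eq_of_colen {M M' : Submodule L⟦X⟧ (Fin N → L⟦X⟧)} (h : M ≤ M')
    (hM : FinColen M) (hc : colen M ≤ colen M') : M = M' := by
  by_contra hne
  have hlt : M < M' := lt_of_le_of_ne h hne
  have hM' : FinColen M' := finColen_mono h hM
  have h1 : Module.length L⟦X⟧ ((Fin N → L⟦X⟧) ⧸ M') < Module.length L⟦X⟧ ((Fin N → L⟦X⟧) ⧸ M) := by
    rw [Module.length_quotient, Module.length_quotient]
    refine Order.coheight_strictAnti hlt ?_
    rw [← Module.length_quotient]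
    exact lt_top_iff_ne_top.2 hM'
  have h2 : colen M' < colen M := by
    unfold colen
    have h3 : (Module.length L⟦X⟧ ((Fin N → L⟦X⟧) ⧸ M)) ≠ ⊤ := hM
    have h4 : (Module.length L⟦X⟧ ((Fin N → L⟦X⟧) ⧸ M')) ≠ ⊤ := hM'
    rw [← ENat.natCast_toNat h3, ← ENat.natCast_toNat h4] at h1
    exact_mod_cast h1
  omega

/-- `Q ^ (u) = {f ∈ Λ : X ^ u f ∈ Q}` -/
private noncomputable def Window_Q (Λ Q : Submodule L⟦X⟧ (Fin N → L⟦X⟧)) (u : ℕ) :
    Submodule L⟦X⟧ (Fin N → L⟦X⟧) :=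
  Λ ⊓ Q.comap (Window_mul L N u)

private theorem Window_mem {Λ Q : Submodule L⟦X⟧ (Fin N → L⟦X⟧)} {u : ℕ} {f : Fin N → L⟦X⟧} :
    f ∈ Window_Q Λ Q u ↔ f ∈ Λ ∧ (X : L⟦X⟧) ^ u • f ∈ Q := Iff.rfl

private theorem Window_mono {Λ Q : Submodule L⟦X⟧ (Fin N → L⟦X⟧)} {u v : ℕ} (h : u ≤ v) :
    Window_Q Λ Q u ≤ Window_Q Λ Q v := by
  intro f hf
  obtain ⟨h1, h2⟩ := Window_mem.1 hf
  refine Window_mem.2 ⟨h1, ?_⟩
  obtain ⟨w, rfl⟩ := Nat.exists_eq_add_of_le h
  rw [add_comm, Window_pow_add]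
  exact Q.smul_mem _ h2

private theorem Window_fin {Λ Q : Submodule L⟦X⟧ (Fin N → L⟦X⟧)} (hQΛ : Q ≤ Λ) (hQ : FinColen Q)
    (u : ℕ) : FinColen (Window_Q Λ Q u) := by
  refine finColen_mono ?_ hQ
  intro f hf
  exact Window_mem.2 ⟨hQΛ hf, Q.smul_mem _ hf⟩

/-- the modular law for `Q ^ (u)` and `X ^ k M` -/
private theorem Window_modular {Λ Q : Submodule L⟦X⟧ (Fin N → L⟦X⟧)} (hQΛ : Q ≤ Λ)
    (hQ : FinColen Q) (u k : ℕ) {M : Submodule L⟦X⟧ (Fin N → L⟦X⟧)} (hM : M ≤ Λ)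
    (hM' : Window_Q Λ Q (u + k) ≤ M) :
    colen (Window_Q Λ Q u ⊔ M.map (Window_mul L N k)) + colen (Window_Q Λ Q (u + k)) =
      colen (Window_Q Λ Q u) + colen M := by
  have hfM : FinColen M := finColen_mono hM' (Window_fin hQΛ hQ _)
  have h1 := colen_inf_add_colen_sup (Window_fin hQΛ hQ u) (Window_colen_map k hfM).1
  have h2 : Window_Q Λ Q u ⊓ M.map (Window_mul L N k) =
      (Window_Q Λ Q (u + k)).map (Window_mul L N k) := by
    ext f
    constructor
    · rintro ⟨hf1, hf2⟩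
      obtain ⟨g, hg, rfl⟩ := Submodule.mem_map.1 hf2
      refine Submodule.mem_map.2 ⟨g, Window_mem.2 ⟨hM hg, ?_⟩, rfl⟩
      have h3 := (Window_mem.1 hf1).2
      rw [Window_mul_apply, ← Window_pow_add] at h3
      exact h3
    · intro hf
      obtain ⟨g, hg, rfl⟩ := Submodule.mem_map.1 hf
      obtain ⟨hg1, hg2⟩ := Window_mem.1 hg
      refine ⟨Window_mem.2 ⟨Λ.smul_mem _ hg1, ?_⟩, Submodule.mem_map.2 ⟨g, hM' hg, rfl⟩⟩
      rw [Window_mul_apply, ← Window_pow_add]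
      exact hg2
  have h3 := h1.2
  rw [h2, (Window_colen_map k (Window_fin hQΛ hQ (u + k))).2, (Window_colen_map k hfM).2] at h3
  omega

private theorem Window_convex {Λ Q : Submodule L⟦X⟧ (Fin N → L⟦X⟧)} (hQΛ : Q ≤ Λ)
    (hQ : FinColen Q) (u : ℕ) :
    2 * colen (Window_Q Λ Q (u + 1)) ≤ colen (Window_Q Λ Q u) + colen (Window_Q Λ Q (u + 2)) ∧
    (colen (Window_Q Λ Q u) + colen (Window_Q Λ Q (u + 2)) ≤ 2 * colen (Window_Q Λ Q (u + 1)) →
      ∀ f ∈ Window_Q Λ Q (u + 1), ∃ a ∈ Window_Q Λ Q u, ∃ b ∈ Window_Q Λ Q (u + 2),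
        f = a + (X : L⟦X⟧) ^ 1 • b) := by
  have h1 := Window_modular hQΛ hQ u 1 (M := Window_Q Λ Q (u + 2)) inf_le_left
    (Window_mono (by omega))
  have hsub : Window_Q Λ Q u ⊔ (Window_Q Λ Q (u + 2)).map (Window_mul L N 1) ≤
      Window_Q Λ Q (u + 1) := by
    refine sup_le (Window_mono (by omega)) ?_
    intro f hf
    obtain ⟨g, hg, rfl⟩ := Submodule.mem_map.1 hf
    obtain ⟨hg1, hg2⟩ := Window_mem.1 hg
    refine Window_mem.2 ⟨Λ.smul_mem _ hg1, ?_⟩
    rw [Window_mul_apply, ← Window_pow_add]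
    exact hg2
  have hfin : FinColen (Window_Q Λ Q u ⊔ (Window_Q Λ Q (u + 2)).map (Window_mul L N 1)) :=
    finColen_mono le_sup_left (Window_fin hQΛ hQ u)
  have h2 := colen_anti hsub hfin
  refine ⟨by omega, ?_⟩
  intro h3 f hf
  have h4 := Window_eq_of_colen hsub hfin (by omega)
  rw [← h4] at hf
  obtain ⟨a, ha, b, hb, rfl⟩ := Submodule.mem_sup.1 hf
  obtain ⟨g, hg, rfl⟩ := Submodule.mem_map.1 hb
  exact ⟨a, ha, g, hg, rfl⟩

/-- in a window `Q ^ (u + j) ⊆ Q ^ (u) + X ^ k Q ^ (u + j + k)` -/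
private theorem Window_spread {Λ Q : Submodule L⟦X⟧ (Fin N → L⟦X⟧)} {u g : ℕ}
    (hE : ∀ i, i + 1 ≤ g → ∀ f ∈ Window_Q Λ Q (u + i + 1), ∃ a ∈ Window_Q Λ Q (u + i),
      ∃ b ∈ Window_Q Λ Q (u + i + 2), f = a + (X : L⟦X⟧) ^ 1 • b) :
    ∀ j k, j + k ≤ g + 1 → ∀ f ∈ Window_Q Λ Q (u + j), ∃ a ∈ Window_Q Λ Q u,
      ∃ b ∈ Window_Q Λ Q (u + j + k), f = a + (X : L⟦X⟧) ^ k • b := by
  intro j
  induction j with
  | zero =>
    intro k _ f hf
    exact ⟨f, hf, 0, Submodule.zero_mem _, by rw [smul_zero, add_zero]⟩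
  | succ j ihj =>
    intro k
    induction k with
    | zero =>
      intro _ f hf
      exact ⟨0, Submodule.zero_mem _, f, hf, by rw [pow_zero, one_smul, zero_add]⟩
    | succ k ihk =>
      intro hjk f hf
      obtain ⟨a, ha, b, hb, hfab⟩ := ihk (by omega) f hf
      have hb' : b ∈ Window_Q Λ Q (u + (j + k) + 1) := by
        have e : u + (j + 1) + k = u + (j + k) + 1 := by ring
        rw [← e]; exact hb
      obtain ⟨b0, hb0, b1, hb1, hbb⟩ := hE (j + k) (by omega) b hb'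
      have hb0' : (X : L⟦X⟧) ^ k • b0 ∈ Window_Q Λ Q (u + j) := by
        obtain ⟨h1, h2⟩ := Window_mem.1 hb0
        refine Window_mem.2 ⟨Λ.smul_mem _ h1, ?_⟩
        rw [← Window_pow_add]
        have e : u + j + k = u + (j + k) := by ring
        rw [e]; exact h2
      obtain ⟨a', ha', b2, hb2, he2⟩ := ihj (k + 1) (by omega) _ hb0'
      refine ⟨a + a', Submodule.add_mem _ ha ha', b1 + b2, Submodule.add_mem _ ?_ ?_, ?_⟩
      · have e : u + (j + 1) + (k + 1) = u + (j + k) + 2 := by ring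
        rw [e]; exact hb1
      · exact Window_mono (by omega) hb2
      · rw [hfab, hbb, smul_add, he2, ← Window_pow_add, smul_add]
        abel

/-- a convex decreasing sequence of naturals with a small total drop has a window -/
private theorem Window_exists (d : ℕ → ℕ) (hd : Antitone d)
    (hconv : ∀ u, 2 * d (u + 1) ≤ d u + d (u + 2)) (dΛ c u₁ P g : ℕ) (hlow : ∀ u, dΛ ≤ d u)
    (h0 : d 0 ≤ dΛ + c) (hu : 1 ≤ u₁) (hP : c ≤ P * u₁) :
    ∃ w ≤ P, d (u₁ + w * g) - d (u₁ + w * g + 1) = d (u₁ + (w + 1) * g) - d (u₁ + (w + 1) * g + 1) ∧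
      d (u₁ + w * g) - d (u₁ + w * g + 1) ≤ P := by
  set p : ℕ → ℕ := fun u => d u - d (u + 1) with hp
  have hpd : ∀ u, d u = d (u + 1) + p u := fun u => by
    have := hd (Nat.le_succ u)
    simp only [Nat.succ_eq_add_one] at this
    simp only [hp]
    omega
  have hpanti : Antitone p := by
    refine antitone_nat_of_succ_le ?_
    intro u
    have h1 := hpd u
    have h2 := hpd (u + 1)
    have h3 := hconv u
    simp only [add_assoc] at h2 h3 ⊢
    norm_num at h2 h3 ⊢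
    omega
  have hsum : ∀ u, u * p u ≤ d 0 - d u := by
    intro u
    induction u with
    | zero => simp
    | succ u ih =>
      have h1 : p (u + 1) ≤ p u := hpanti (Nat.le_succ u)
      have h2 := hpd u
      have h3 := hd (Nat.zero_le u)
      have h4 := hd (Nat.zero_le (u + 1))
      have h5 : (u + 1) * p (u + 1) ≤ (u + 1) * p u := Nat.mul_le_mul_left _ h1
      have h6 : (u + 1) * p u = u * p u + p u := by ring
      omega
  have hp1 : p u₁ ≤ P := by
    have h1 := hsum u₁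
    have h2 := hlow u₁
    have h3 : u₁ * p u₁ ≤ u₁ * P := by
      rw [mul_comm u₁ P]; omega
    exact Nat.le_of_mul_le_mul_left h3 (by omega)
  have hall : ∀ w, p (u₁ + w * g) ≤ P := fun w => (hpanti (Nat.le_add_right _ _)).trans hp1
  by_contra hcon
  push Not at hcon
  have hstrict : ∀ w, w ≤ P → p (u₁ + (w + 1) * g) < p (u₁ + w * g) := by
    intro w hw
    have h1 : p (u₁ + (w + 1) * g) ≤ p (u₁ + w * g) := hpanti (by
      have : (w + 1) * g = w * g + g := by ring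
      omega)
    rcases h1.eq_or_lt with h2 | h2
    · exact absurd (hcon w hw h2.symm) (not_lt.2 (hall w))
    · exact h2
  have hfin : ∀ w, w ≤ P + 1 → p (u₁ + w * g) + w ≤ P := by
    intro w
    induction w with
    | zero => intro _; simpa using hp1
    | succ w ih =>
      intro hw
      have h1 := ih (by omega)
      have h2 := hstrict w (by omega)
      omega
  have := hfin (P + 1) le_rfl
  omega

end aux

/-- K09a, one step. Let `Q ≤ Λ`, `Λ` stable, `X ^ h δ Q ⊆ Q`, `X ^ e Λ ⊆ Q`, length of `Λ/Q` at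
most `c`, `u₁ ≥ 1`, `h < g` and `P ≥ c / u₁`. If `e > u₁ + (P + 1) g`, there is a stable
`Λ' ≤ Λ` with `X ^ (e - (g - h)) Λ' ⊆ Q` and `colen Λ' ≤ colen Λ + (g - h) P`. -/
theorem window_step {N : ℕ} (Δ : Set (Derivation ℂ L L))
    (Λ Q : Submodule L⟦X⟧ (Fin N → L⟦X⟧)) (hQΛ : Q ≤ Λ) (hQ : FinColen Q) (hΛ : StableD Δ Λ)
    (h g e c u₁ P : ℕ) (hQs : ∀ δ ∈ Δ, ∀ f ∈ Q, (X : L⟦X⟧) ^ h • (fun i => hat δ (f i)) ∈ Q)
    (he : ∀ f ∈ Λ, (X : L⟦X⟧) ^ e • f ∈ Q) (hc : colen Q ≤ colen Λ + c) (hu : 1 ≤ u₁)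
    (hP : c ≤ P * u₁) (hg : h < g) (he' : u₁ + (P + 1) * g ≤ e) :
    ∃ Λ' : Submodule L⟦X⟧ (Fin N → L⟦X⟧), Λ' ≤ Λ ∧ StableD Δ Λ' ∧ FinColen Λ' ∧
      (∀ f ∈ Λ', (X : L⟦X⟧) ^ (e - (g - h)) • f ∈ Q) ∧
      colen Λ' ≤ colen Λ + (g - h) * P := by
  have hQ0 : Window_Q Λ Q 0 = Q := by
    ext f
    constructor
    · intro hf
      have := (Window_mem.1 hf).2
      rwa [pow_zero, one_smul] at this
    · intro hf
      exact Window_mem.2 ⟨hQΛ hf, by rw [pow_zero, one_smul]; exact hf⟩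
  have hanti : Antitone fun u => colen (Window_Q Λ Q u) := fun u v huv =>
    colen_anti (Window_mono huv) (Window_fin hQΛ hQ u)
  obtain ⟨w, hw, hwin, hwP⟩ := Window_exists (fun u => colen (Window_Q Λ Q u)) hanti
    (fun u => (Window_convex hQΛ hQ u).1) (colen Λ) c u₁ P g
    (fun u => colen_anti inf_le_left (Window_fin hQΛ hQ u)) (by simp only [hQ0]; exact hc) hu hP
  set u := u₁ + w * g with hu_def
  have hug : u₁ + (w + 1) * g = u + g := by rw [hu_def]; ring
  rw [hug] at hwin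
  have hue : u + g ≤ e := by
    refine le_trans ?_ he'
    rw [← hug]
    have : (w + 1) * g ≤ (P + 1) * g := Nat.mul_le_mul_right _ (by omega)
    omega
  -- drops are constant in the window
  have hpa : ∀ v, colen (Window_Q Λ Q (v + 1)) - colen (Window_Q Λ Q (v + 2)) ≤
      colen (Window_Q Λ Q v) - colen (Window_Q Λ Q (v + 1)) := by
    intro v
    have h1 := (Window_convex hQΛ hQ v).1
    have h2 := hanti (show v ≤ v + 1 by omega)
    have h3 := hanti (show v + 1 ≤ v + 2 by omega)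
    simp only at h2 h3
    omega
  have hpanti : Antitone fun v => colen (Window_Q Λ Q v) - colen (Window_Q Λ Q (v + 1)) :=
    antitone_nat_of_succ_le hpa
  have hE : ∀ i, i + 1 ≤ g → ∀ f ∈ Window_Q Λ Q (u + i + 1), ∃ a ∈ Window_Q Λ Q (u + i),
      ∃ b ∈ Window_Q Λ Q (u + i + 2), f = a + (X : L⟦X⟧) ^ 1 • b := by
    intro i hi
    refine (Window_convex hQΛ hQ (u + i)).2 ?_
    have h1 := hpanti (show u ≤ u + i by omega)
    have h2 := hpanti (show u + i + 1 ≤ u + g by omega)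
    have h3 := hanti (show u + i ≤ u + i + 1 by omega)
    have h4 := hanti (show u + i + 1 ≤ u + i + 2 by omega)
    simp only at h1 h2 h3 h4
    have e1 : u + i + 1 + 1 = u + i + 2 := rfl
    rw [e1] at h2
    omega
  have hspread := Window_spread hE h (g - h) (by omega)
  set k := g - h with hk
  refine ⟨Window_Q Λ Q u ⊔ Λ.map (Window_mul L N k), ?_, ?_, ?_, ?_, ?_⟩
  · refine sup_le inf_le_left ?_
    intro f hf
    obtain ⟨y, hy, rfl⟩ := Submodule.mem_map.1 hf
    exact Λ.smul_mem _ hy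
  · intro δ hδ f hf
    obtain ⟨a, ha, b, hb, rfl⟩ := Submodule.mem_sup.1 hf
    obtain ⟨y, hy, rfl⟩ := Submodule.mem_map.1 hb
    have h1 : (fun i => hat δ ((a + Window_mul L N k y) i)) =
        (fun i => hat δ (a i)) + Window_mul L N k (fun i => hat δ (y i)) := by
      funext i
      have e1 : (a + Window_mul L N k y) i = a i + X ^ k * y i := rfl
      rw [e1, hat_add, hat_X_pow_mul]
      rfl
    rw [h1]
    refine Submodule.add_mem _ ?_ (Submodule.mem_sup_right ⟨_, hΛ δ hδ y hy, rfl⟩)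
    have h2 : (fun i => hat δ (a i)) ∈ Window_Q Λ Q (u + h) := by
      obtain ⟨ha1, ha2⟩ := Window_mem.1 ha
      refine Window_mem.2 ⟨hΛ δ hδ a ha1, ?_⟩
      have h3 := hQs δ hδ _ ha2
      have h4 : (fun i => hat δ (((X : L⟦X⟧) ^ u • a) i)) = (X : L⟦X⟧) ^ u • fun i => hat δ (a i) := by
        funext i
        exact hat_X_pow_mul δ u (a i)
      rw [h4, ← Window_pow_add, add_comm] at h3
      exact h3
    obtain ⟨a', ha', b', hb', he2⟩ := hspread _ h2
    rw [he2]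
    refine Submodule.add_mem _ (Submodule.mem_sup_left ha') (Submodule.mem_sup_right ⟨b', ?_, rfl⟩)
    exact (Window_mem.1 hb').1
  · exact finColen_mono le_sup_left (Window_fin hQΛ hQ u)
  · intro f hf
    obtain ⟨a, ha, b, hb, rfl⟩ := Submodule.mem_sup.1 hf
    obtain ⟨y, hy, rfl⟩ := Submodule.mem_map.1 hb
    rw [smul_add]
    refine Q.add_mem ?_ ?_
    · have h1 : e - k = (e - k - u) + u := by omega
      rw [h1, Window_pow_add]
      exact Q.smul_mem _ (Window_mem.1 ha).2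
    · rw [Window_mul_apply, ← Window_pow_add]
      have h1 : e - k + k = e := by omega
      rw [h1]
      exact he y hy
  · have h1 := Window_modular hQΛ hQ u k le_rfl (M := Λ) inf_le_left
    have h2 : ∀ i, colen (Window_Q Λ Q u) ≤ colen (Window_Q Λ Q (u + i)) + i * P := by
      intro i
      induction i with
      | zero => simp
      | succ i ih =>
        have h3 := hpanti (show u ≤ u + i by omega)
        have h4 := hanti (show u + i ≤ u + i + 1 by omega)
        simp only at h3 h4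
        have e1 : u + (i + 1) = u + i + 1 := rfl
        have e2 : (i + 1) * P = i * P + P := by ring
        rw [e1, e2]
        omega
    have h3 := h2 k
    omega

/-- K09b, iteration: there is a stable `Λ' ≤ Λ` with `X ^ (u₁ + (P + 1) g) Λ' ⊆ Q` and
`colen Λ' ≤ colen Λ + P (e + g)`. -/
theorem window {N : ℕ} (Δ : Set (Derivation ℂ L L))
    (Λ Q : Submodule L⟦X⟧ (Fin N → L⟦X⟧)) (hQΛ : Q ≤ Λ) (hQ : FinColen Q) (hΛ : StableD Δ Λ)
    (h g e c u₁ P : ℕ) (hQs : ∀ δ ∈ Δ, ∀ f ∈ Q, (X : L⟦X⟧) ^ h • (fun i => hat δ (f i)) ∈ Q)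
    (he : ∀ f ∈ Λ, (X : L⟦X⟧) ^ e • f ∈ Q) (hc : colen Q ≤ colen Λ + c) (hu : 1 ≤ u₁)
    (hP : c ≤ P * u₁) (hg : h < g) :
    ∃ Λ' : Submodule L⟦X⟧ (Fin N → L⟦X⟧), Λ' ≤ Λ ∧ StableD Δ Λ' ∧ FinColen Λ' ∧
      (∀ f ∈ Λ', (X : L⟦X⟧) ^ (u₁ + (P + 1) * g) • f ∈ Q) ∧
      colen Λ' ≤ colen Λ + P * (e + g) := by
  induction e using Nat.strong_induction_on generalizing Λ Q with
  | _ e ih =>
    rcases Nat.lt_or_ge e (u₁ + (P + 1) * g) with hlt | hge
    · refine ⟨Λ, le_rfl, hΛ, finColen_mono hQΛ hQ, ?_, by omega⟩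
      intro f hf
      have h1 : u₁ + (P + 1) * g = (u₁ + (P + 1) * g - e) + e := by omega
      rw [h1, Window_pow_add]
      exact Q.smul_mem _ (he f hf)
    · obtain ⟨Λ1, h1, h2, h3, h4, h5⟩ :=
        window_step Δ Λ Q hQΛ hQ hΛ h g e c u₁ P hQs he hc hu hP hg hge
      obtain ⟨hm1, hm2⟩ := colen_inf_add_colen_sup hQ h3
      have hsup : colen Λ ≤ colen (Q ⊔ Λ1) :=
        colen_anti (sup_le hQΛ h1) (finColen_mono le_sup_left hQ)
      have hge' : g ≤ e := by
        have : g ≤ (P + 1) * g := Nat.le_mul_of_pos_left _ (by omega)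
        omega
      obtain ⟨Λ2, k1, k2, k3, k4, k5⟩ := ih (e - (g - h)) (by omega) Λ1 (Q ⊓ Λ1) inf_le_right hm1 h2
        (by
          intro δ hδ f hf
          exact ⟨hQs δ hδ f hf.1, Λ1.smul_mem _ (h2 δ hδ f hf.2)⟩)
        (by
          intro f hf
          exact ⟨h4 f hf, Λ1.smul_mem _ hf⟩)
        (by omega)
      refine ⟨Λ2, k1.trans h1, k2, k3, fun f hf => (k4 f hf).1, ?_⟩
      have e1 : e - (g - h) + g = e + g - (g - h) := by omega
      have e2 : (g - h) * P + P * (e + g - (g - h)) = P * (e + g) := by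
        rw [mul_comm (g - h) P, ← mul_add]
        congr 1
        omega
      rw [e1] at k5
      omega

end Pool.Agent.Lib_GD
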