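import Pool.Agent.Lib_GD.Colen

/-! A05: colengths and matrices. -/

open PowerSeries

namespace Pool.Agent.Lib_GD

private theorem ArcColen_ord_prod {R : Type} [CommRing R] [IsDomain R] {m : Type} (s : Finset m)
    (c : m → R) (hc : ∀ i, c i ≠ 0) : Ring.ord R (∏ i ∈ s, c i) = ∑ i ∈ s, Ring.ord R (c i) := by
  classical
  induction s using Finset.induction_on with
  | empty => simp
  | insert a s ha ih =>
    rw [Finset.prod_insert ha, Finset.sum_insert ha, Ring.ord_mul R, ih]
    exact mem_nonZeroDivisors_of_ne_zero (Finset.prod_ne_zero_iff.2 fun i _ => hc i)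

/-- The length of the cokernel of a square matrix over a principal ideal domain. -/
private theorem ArcColen_length {R : Type} [CommRing R] [IsDomain R] [IsPrincipalIdealRing R]
    {m : Type} [Fintype m] [DecidableEq m] (A : Matrix m m R) (hA : A.det ≠ 0) :
    Module.length R ((m → R) ⧸ Submodule.span R (Set.range A)) = Ring.ord R A.det := by
  set N : Submodule R (m → R) := Submodule.span R (Set.range A) with hN
  have hr : LinearMap.range A.vecMulLinear = N := by
    rw [range_vecMulLinear]
    rfl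
  have hinj : Function.Injective A.vecMulLinear := by
    rw [← LinearMap.ker_eq_bot, LinearMap.ker_eq_bot']
    intro x hx
    exact Matrix.eq_zero_of_vecMul_eq_zero hA hx
  let eN : (m → R) ≃ₗ[R] N :=
    (LinearEquiv.ofInjective A.vecMulLinear hinj).trans (LinearEquiv.ofEq _ _ hr)
  have heN : ∀ x, ((eN x : N) : m → R) = A.vecMulLinear x := fun x => rfl
  have hrank : Module.finrank R N = Module.finrank R (m → R) := eN.finrank_eq.symm
  let b := Pi.basisFun R m
  let b' := Submodule.smithNormalFormTopBasis b hrank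
  let ab := Submodule.smithNormalFormBotBasis b hrank
  let c := Submodule.smithNormalFormCoeffs b hrank
  have hab : ∀ i, (ab i : m → R) = c i • b' i := Submodule.smithNormalFormBotBasis_def b hrank
  have hc : ∀ i, c i ≠ 0 := fun i => Submodule.smithNormalFormCoeffs_ne_zero b hrank i
  rw [(N.quotientEquivPiSpan b hrank).length_eq, Module.length_pi_of_fintype]
  have h1 : ∑ i, Module.length R (R ⧸ Ideal.span ({c i} : Set R)) = Ring.ord R (∏ i, c i) := by
    rw [ArcColen_ord_prod _ _ hc]
    rfl
  refine h1.trans (Ring.ord_eq_of_associated ?_)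
  -- the two determinants
  let ψ : (m → R) →ₗ[R] (m → R) := N.subtype ∘ₗ (b'.equiv ab (Equiv.refl m)).toLinearMap
  have hψ : LinearMap.det ψ = ∏ i, c i := by
    rw [← LinearMap.det_toMatrix b', ← Matrix.det_diagonal]
    congr 1
    ext i j
    rw [LinearMap.toMatrix_apply]
    have h2 : ψ (b' j) = c j • b' j := by
      rw [← hab j]
      show ((b'.equiv ab (Equiv.refl m) (b' j) : N) : m → R) = ab j
      rw [Module.Basis.equiv_apply]
      rfl
    rw [h2, map_smul, Finsupp.smul_apply, Module.Basis.repr_self, Matrix.diagonal_apply,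
      smul_eq_mul, Finsupp.single_apply]
    split_ifs with h3 h4 h4
    · rw [mul_one, h3]
    · exact absurd h3.symm h4
    · exact absurd h4.symm h3
    · rw [mul_zero]
  have hφ : LinearMap.det A.vecMulLinear = A.det := by
    rw [← Matrix.mulVecLin_transpose, ← Matrix.toLin'_apply', LinearMap.det_toLin',
      Matrix.det_transpose]
  rw [← hψ, ← hφ]
  refine (LinearMap.associated_det_of_eq_comp (eN.trans (b'.equiv ab (Equiv.refl m)).symm)
    A.vecMulLinear ψ fun x => ?_).symm
  show A.vecMulLinear x = ((b'.equiv ab (Equiv.refl m)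
    ((b'.equiv ab (Equiv.refl m)).symm (eN x)) : N) : m → R)
  rw [LinearEquiv.apply_symm_apply, heN]

/-- If the cokernel has finite length the determinant is not zero. -/
private theorem ArcColen_det_ne {R : Type} [CommRing R] [IsDomain R] [IsDiscreteValuationRing R]
    {m : Type} [Fintype m] [DecidableEq m] (A : Matrix m m R)
    (h : Module.length R ((m → R) ⧸ Submodule.span R (Set.range A)) ≠ ⊤) : A.det ≠ 0 := by
  intro h0
  obtain ⟨w, hw0, hw⟩ := Matrix.exists_mulVec_eq_zero_iff.2 h0
  obtain ⟨q, hq⟩ : ∃ q, w q ≠ 0 := by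
    by_contra hne
    push Not at hne
    exact hw0 (funext hne)
  let ℓ : (m → R) →ₗ[R] R := ∑ i, w i • LinearMap.proj i
  have hℓ : ∀ x, ℓ x = ∑ i, w i * x i := by
    intro x
    simp [ℓ, LinearMap.sum_apply]
  have hker : Submodule.span R (Set.range A) ≤ LinearMap.ker ℓ := by
    rw [Submodule.span_le]
    rintro _ ⟨p, rfl⟩
    show ℓ (A p) = 0
    rw [hℓ]
    have := congrFun hw p
    rw [Matrix.mulVec, dotProduct, Pi.zero_apply] at this
    rw [← this]
    exact Finset.sum_congr rfl fun i _ => mul_comm _ _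
  let g : R →ₗ[R] ((m → R) ⧸ Submodule.span R (Set.range A)) :=
    (Submodule.mkQ _) ∘ₗ (LinearMap.single R (fun _ => R) q)
  have hg : Function.Injective g := by
    rw [← LinearMap.ker_eq_bot, LinearMap.ker_eq_bot']
    intro x hx
    have h1 : (Pi.single q x : m → R) ∈ Submodule.span R (Set.range A) :=
      (Submodule.Quotient.mk_eq_zero _).1 hx
    have h2 : ℓ (Pi.single q x) = 0 := hker h1
    rw [hℓ, Finset.sum_eq_single q] at h2
    · rw [Pi.single_eq_same] at h2
      exact (mul_eq_zero.1 h2).resolve_left hq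
    · intro i _ hi
      rw [Pi.single_eq_of_ne hi, mul_zero]
    · intro hh
      exact absurd (Finset.mem_univ q) hh
  have h3 : Module.length R R ≠ ⊤ := fun hh =>
    h (top_le_iff.1 (hh ▸ Module.length_le_of_injective g hg))
  have h4 : IsArtinian R R := (isFiniteLength_iff_isNoetherian_isArtinian.1
    (Module.length_ne_top_iff.1 h3)).2
  have h5 : IsArtinianRing R := h4
  exact IsDiscreteValuationRing.not_isField R (IsArtinianRing.isField_of_isDomain R)

private theorem ArcColen_ord_dvr {R : Type} [CommRing R] [IsDomain R] [IsDiscreteValuationRing R]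
    (x : R) (hx : x ≠ 0) : Ring.ord R x = IsDiscreteValuationRing.addVal R x := by
  obtain ⟨ϖ, hϖ⟩ := IsDiscreteValuationRing.exists_irreducible R
  obtain ⟨n, u, rfl⟩ := IsDiscreteValuationRing.eq_unit_mul_pow_irreducible hx hϖ
  rw [IsDiscreteValuationRing.addVal_def' u hϖ n, Ring.ord_mul_of_isUnit_left u.isUnit,
    Ring.ord_pow (mem_nonZeroDivisors_of_ne_zero hϖ.ne_zero), Ring.ord_of_irreducible hϖ,
    nsmul_eq_mul, mul_one]

private theorem ArcColen_ord_series {L : Type} [Field L] (f : L⟦X⟧) (hf : f ≠ 0) :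
    Ring.ord L⟦X⟧ f = f.order := by
  have h1 : f.order = (f.order.toNat : ℕ∞) := by
    rw [ENat.natCast_toNat]
    exact fun h => hf (PowerSeries.order_eq_top.1 h)
  have h2 : IsUnit (divXPowOrder f) := by
    rw [PowerSeries.isUnit_iff_constantCoeff, isUnit_iff_ne_zero, constantCoeff_divXPowOrder]
    exact coeff_order hf
  conv_lhs => rw [← X_pow_order_mul_divXPowOrder (f := f)]
  rw [Ring.ord_mul_of_isUnit_right h2, Ring.ord_pow (mem_nonZeroDivisors_of_ne_zero X_ne_zero),
    Ring.ord_of_irreducible X_irreducible, nsmul_eq_mul, mul_one, ← h1]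

/-- A05 (linear algebra over a DVR and `L⟦X⟧`): if `J` is an `r × r` matrix over `V` with
`length (V^r / J V^r) = a` and `Φ : V → L⟦X⟧` preserves orders, then the submodule of `O^r` of all
`ζ₀ Φ(J_0) + ∑ ζ_l Φ(J_l)`, `X ∣ ζ₀` (`J_i` the rows), has colength `a + 1`; here for index types
`Option (Fin r)` and `κ`. -/
theorem colen_of_matrix {V : Type} [CommRing V] [IsDomain V] [IsDiscreteValuationRing V]
    {L : Type} [Field L] (Φ : V →+* L⟦X⟧)
    (hΦ : ∀ f, (Φ f).order = IsDiscreteValuationRing.addVal V f) {r : ℕ} {κ : Type} [Fintype κ]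
    [DecidableEq κ] (hκ : Fintype.card κ = r + 1) (J : κ → Option (Fin r) → V)
    (a : ℕ) (ha : Module.length V ((Option (Fin r) → V) ⧸ Submodule.span V (Set.range J)) = a)
    (M : Submodule L⟦X⟧ (κ → L⟦X⟧))
    (hM : ∀ v, v ∈ M ↔ ∃ ζ : Option (Fin r) → L⟦X⟧, X ∣ ζ none ∧
      ∀ p, v p = ∑ q, ζ q * Φ (J p q)) :
    FinColen M ∧ colen M = a + 1 := by
  classical
  let e : κ ≃ Option (Fin r) := Fintype.equivOfCardEq (by
    rw [hκ, Fintype.card_option, Fintype.card_fin])
  let A : Matrix (Option (Fin r)) (Option (Fin r)) V := fun i q => J (e.symm i) q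
  have hrange : Set.range A = Set.range J := by
    ext x
    constructor
    · rintro ⟨i, rfl⟩
      exact ⟨e.symm i, rfl⟩
    · rintro ⟨p, rfl⟩
      exact ⟨e p, by show J (e.symm (e p)) = J p; rw [e.symm_apply_apply]⟩
  rw [← hrange] at ha
  have hA : A.det ≠ 0 := ArcColen_det_ne A (by rw [ha]; exact ENat.natCast_ne_top a)
  have ha' : IsDiscreteValuationRing.addVal V A.det = a := by
    rw [← ArcColen_ord_dvr _ hA, ← ArcColen_length A hA, ha]
  -- the matrix over the power series
  let d : Option (Fin r) → L⟦X⟧ := fun q => if q = none then X else 1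
  let B : Matrix (Option (Fin r)) (Option (Fin r)) L⟦X⟧ :=
    Matrix.diagonal d * (A.map Φ).transpose
  have hB : ∀ q i, B q i = d q * Φ (A i q) := by
    intro q i
    exact (Matrix.diagonal_mul d (A.map Φ).transpose q i).trans rfl
  have hdetC : (A.map Φ).det = Φ A.det := (RingHom.map_det Φ A).symm
  have hdetC0 : (A.map Φ).det ≠ 0 := by
    rw [hdetC]
    intro h
    have h2 := hΦ A.det
    rw [h, PowerSeries.order_zero, ha'] at h2
    exact ENat.natCast_ne_top a h2.symm
  have hdetd : ∏ q, d q = X := by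
    rw [Fintype.prod_option]
    simp [d]
  have hdetB : B.det = X * (A.map Φ).det := by
    rw [Matrix.det_mul, Matrix.det_diagonal, Matrix.det_transpose, hdetd]
  have hdetB0 : B.det ≠ 0 := by
    rw [hdetB]
    exact mul_ne_zero X_ne_zero hdetC0
  have hlenB : Module.length L⟦X⟧ ((Option (Fin r) → L⟦X⟧) ⧸
      Submodule.span L⟦X⟧ (Set.range B)) = ((a + 1 : ℕ) : ℕ∞) := by
    rw [ArcColen_length B hdetB0, hdetB,
      Ring.ord_mul L⟦X⟧ (mem_nonZeroDivisors_of_ne_zero hdetC0),
      Ring.ord_of_irreducible X_irreducible, ArcColen_ord_series _ hdetC0, hdetC, hΦ, ha',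
      Nat.cast_add, Nat.cast_one, add_comm]
  -- reindexing
  let E : (κ → L⟦X⟧) ≃ₗ[L⟦X⟧] (Option (Fin r) → L⟦X⟧) :=
    LinearEquiv.funCongrLeft L⟦X⟧ L⟦X⟧ e.symm
  have hE : ∀ v i, E v i = v (e.symm i) := fun v i => rfl
  have hmap : M.map (E : (κ → L⟦X⟧) →ₗ[L⟦X⟧] (Option (Fin r) → L⟦X⟧)) =
      Submodule.span L⟦X⟧ (Set.range B) := by
    ext x
    rw [Submodule.mem_span_range_iff_exists_fun]
    constructor
    · rintro ⟨v, hv, rfl⟩
      obtain ⟨ζ, ⟨z, hz⟩, h⟩ := (hM v).1 hv
      refine ⟨fun q => if q = none then z else ζ q, ?_⟩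
      funext i
      rw [Finset.sum_apply]
      show _ = v (e.symm i)
      rw [h (e.symm i)]
      refine Finset.sum_congr rfl fun q _ => ?_
      rw [Pi.smul_apply, smul_eq_mul, hB]
      rcases q with _ | q
      · simp only [d, if_true]
        rw [hz]
        ring
      · simp only [d, reduceCtorEq, if_false, one_mul]
        rfl
    · rintro ⟨c, rfl⟩
      refine ⟨fun p => ∑ q, (c q * d q) * Φ (J p q), ?_, ?_⟩
      · refine (hM _).2 ⟨fun q => c q * d q, ?_, fun p => rfl⟩
        simp only [d, if_true]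
        exact dvd_mul_left _ _
      · funext i
        rw [Finset.sum_apply]
        show ∑ q, (c q * d q) * Φ (J (e.symm i) q) = _
        refine Finset.sum_congr rfl fun q _ => ?_
        rw [Pi.smul_apply, smul_eq_mul, hB, mul_assoc]
  have hlen : Module.length L⟦X⟧ ((κ → L⟦X⟧) ⧸ M) = ((a + 1 : ℕ) : ℕ∞) := by
    rw [← hlenB]
    exact (Submodule.Quotient.equiv M _ E hmap).length_eq
  refine ⟨?_, ?_⟩
  · rw [FinColen, hlen]
    exact ENat.natCast_ne_top _
  · rw [colen, hlen, ENat.toNat_natCast]

end Pool.Agent.Lib_GD
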