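import Mathlib

/-! Taylor expansions for commuting derivations. -/

namespace Pool.Agent.Lib_GD

section

variable {n : ℕ} {B : Type} [CommRing B] [Algebra ℂ B] (der : Fin n → Derivation ℂ B B)

/-- The iterated derivation. -/
noncomputable def ddG (α : Fin n →₀ ℕ) : Module.End ℂ B :=
  ((List.finRange n).map fun l => ((der l : B →ₗ[ℂ] B) : Module.End ℂ B) ^ (α l)).prod

theorem ddG_zero (b : B) : ddG der 0 b = b := by
  have : ddG der 0 = 1 := by
    unfold ddG
    rw [List.prod_eq_one]
    intro x hx
    obtain ⟨l, -, rfl⟩ := List.mem_map.1 hx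
    simp
  rw [this]; rfl

theorem ddG_comm_aux (hc : ∀ l k b, der l (der k b) = der k (der l b)) (l k : Fin n) :
    Commute ((der l : B →ₗ[ℂ] B) : Module.End ℂ B) ((der k : B →ₗ[ℂ] B) : Module.End ℂ B) := by
  ext b; exact hc l k b

theorem prod_map_comm {M : Type} [Monoid M] (L : List (Fin n)) (f : Fin n → M) (x : M)
    (h : ∀ l, Commute (f l) x) : Commute (L.map f).prod x := by
  induction L with
  | nil => simp
  | cons a t ih => simpa using (h a).mul_left ih

theorem prod_pow_add {M : Type} [Monoid M] (f : Fin n → M) (h : ∀ l k, Commute (f l) (f k))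
    (α β : Fin n → ℕ) (L : List (Fin n)) :
    (L.map fun l => f l ^ (α l + β l)).prod =
      (L.map fun l => f l ^ α l).prod * (L.map fun l => f l ^ β l).prod := by
  induction L with
  | nil => simp
  | cons a t ih =>
    have : Commute (f a ^ β a) (t.map fun l => f l ^ α l).prod :=
      (prod_map_comm t _ _ fun l => ((h l a).pow_pow _ _)).symm
    rw [List.map_cons, List.prod_cons, ih, pow_add, List.map_cons, List.prod_cons, List.map_cons,
      List.prod_cons, mul_assoc, mul_assoc, ← mul_assoc (f a ^ β a), this.eq, mul_assoc]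

theorem ddG_add (hc : ∀ l k b, der l (der k b) = der k (der l b)) (α β : Fin n →₀ ℕ) (b : B) :
    ddG der (α + β) b = ddG der α (ddG der β b) := by
  have : ddG der (α + β) = ddG der α * ddG der β := by
    unfold ddG
    exact prod_pow_add _ (ddG_comm_aux der hc) α β _
  rw [this]; rfl

theorem ddG_single (l : Fin n) (b : B) : ddG der (Finsupp.single l 1) b = der l b := by
  have : ddG der (Finsupp.single l 1) = ((der l : B →ₗ[ℂ] B) : Module.End ℂ B) := by
    unfold ddG
    have h : ∀ (L : List (Fin n)), L.Nodup →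
        (L.map fun k => ((der k : B →ₗ[ℂ] B) : Module.End ℂ B) ^
          ((Finsupp.single l 1 : Fin n →₀ ℕ) k)).prod =
        if l ∈ L then ((der l : B →ₗ[ℂ] B) : Module.End ℂ B) else 1 := by
      intro L
      induction L with
      | nil => simp
      | cons a t ih =>
        intro hL
        rw [List.nodup_cons] at hL
        simp only [List.map_cons, List.prod_cons, ih hL.2]
        by_cases hal : l = a
        · subst hal
          simp [hL.1]
        · have h1 : (Finsupp.single l 1 : Fin n →₀ ℕ) a = 0 := by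
            rw [Finsupp.single_apply]; simp [hal]
          simp [h1, hal]
    rw [h _ (List.nodup_finRange n)]
    simp
  rw [this]; rfl

theorem ddG_add_single (hc : ∀ l k b, der l (der k b) = der k (der l b)) (α : Fin n →₀ ℕ)
    (l : Fin n) (b : B) : ddG der (α + Finsupp.single l 1) b = ddG der α (der l b) := by
  rw [ddG_add der hc, ddG_single]

theorem der_ddG (hc : ∀ l k b, der l (der k b) = der k (der l b)) (α : Fin n →₀ ℕ)
    (l : Fin n) (b : B) : der l (ddG der α b) = ddG der (α + Finsupp.single l 1) b := by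
  rw [add_comm, ddG_add der hc, ddG_single]

/-- Divided Taylor coefficients with values in `K`. -/
noncomputable def tayG {K : Type} [CommRing K] [Algebra ℂ K] (x : B →ₐ[ℂ] K)
    (α : Fin n →₀ ℕ) (b : B) : K :=
  algebraMap ℂ K (∏ l, ((α l).factorial : ℂ))⁻¹ * x (ddG der α b)

/-- The factor `∏ α_l!`. -/
noncomputable def facG (α : Fin n →₀ ℕ) : ℂ := ∏ l, ((α l).factorial : ℂ)

theorem facG_ne_zero (α : Fin n →₀ ℕ) : facG α ≠ 0 :=
  Finset.prod_ne_zero_iff.2 fun _ _ => Nat.cast_ne_zero.2 (Nat.factorial_ne_zero _)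

theorem facG_add_single (α : Fin n →₀ ℕ) (l : Fin n) :
    facG (α + Finsupp.single l 1) = (α l + 1) * facG α := by
  unfold facG
  rw [← Finset.mul_prod_erase _ _ (Finset.mem_univ l),
    ← Finset.mul_prod_erase Finset.univ (fun k => ((α k).factorial : ℂ)) (Finset.mem_univ l),
    ← mul_assoc]
  congr 1
  · simp [Nat.factorial_succ]
  · refine Finset.prod_congr rfl fun k hk => ?_
    have : k ≠ l := Finset.ne_of_mem_erase hk
    simp [this.symm]

theorem tayG_add_single (hc : ∀ l k b, der l (der k b) = der k (der l b)) {K : Type} [CommRing K]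
    [Algebra ℂ K] (x : B →ₐ[ℂ] K) (α : Fin n →₀ ℕ) (l : Fin n) (b : B) :
    tayG der x (α + Finsupp.single l 1) b * ((α l : K) + 1) = tayG der x α (der l b) := by
  unfold tayG
  rw [ddG_add_single der hc]
  have h1 : (∏ k, (((α + Finsupp.single l 1 : Fin n →₀ ℕ) k).factorial : ℂ)) =
      (α l + 1) * ∏ k, ((α k).factorial : ℂ) := facG_add_single α l
  have h2 : ((α l : ℂ) + 1) ≠ 0 := Nat.cast_add_one_ne_zero (α l)
  have h3 : ((α l : K) + 1) = algebraMap ℂ K (α l + 1) := by simp
  rw [h1, h3, mul_right_comm, ← map_mul]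
  congr 2
  have h4 : (∏ k, ((α k).factorial : ℂ)) ≠ 0 := facG_ne_zero α
  field_simp

/-- The Taylor series as a function. -/
noncomputable def tsG {K : Type} [CommRing K] [Algebra ℂ K] (x : B →ₐ[ℂ] K) (b : B) :
    MvPowerSeries (Fin n) K := fun α => tayG der x α b

theorem coeff_tsG {K : Type} [CommRing K] [Algebra ℂ K] (x : B →ₐ[ℂ] K) (b : B)
    (α : Fin n →₀ ℕ) : MvPowerSeries.coeff α (tsG der x b) = tayG der x α b := rfl

theorem tayG_add {K : Type} [CommRing K] [Algebra ℂ K] (x : B →ₐ[ℂ] K) (b b' : B)
    (α : Fin n →₀ ℕ) : tayG der x α (b + b') = tayG der x α b + tayG der x α b' := by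
  simp [tayG, mul_add]

theorem tayG_smul {K : Type} [CommRing K] [Algebra ℂ K] (x : B →ₐ[ℂ] K) (c : ℂ) (b : B)
    (α : Fin n →₀ ℕ) : tayG der x α (c • b) = c • tayG der x α b := by
  simp [tayG]

theorem pderiv_tsG (hc : ∀ l k b, der l (der k b) = der k (der l b)) {K : Type} [CommRing K]
    [Algebra ℂ K] (x : B →ₐ[ℂ] K) (l : Fin n) (b : B) :
    MvPowerSeries.pderiv K l (tsG der x b) = tsG der x (der l b) := by
  ext α
  rw [MvPowerSeries.coeff_pderiv, coeff_tsG, coeff_tsG, tayG_add_single der hc]

theorem tsG_mul_aux (hc : ∀ l k b, der l (der k b) = der k (der l b)) {K : Type} [CommRing K]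
    [Algebra ℂ K] (x : B →ₐ[ℂ] K) : ∀ (m : ℕ) (α : Fin n →₀ ℕ), α.degree = m → ∀ b b' : B,
    MvPowerSeries.coeff α (tsG der x (b * b')) =
      MvPowerSeries.coeff α (tsG der x b * tsG der x b') := by
  intro m
  induction m with
  | zero =>
    intro α hα b b'
    have h0 : α = 0 := by simpa [Finsupp.degree_eq_zero_iff] using hα
    subst h0
    have e1 : MvPowerSeries.coeff (0 : Fin n →₀ ℕ) (tsG der x b * tsG der x b') =
        MvPowerSeries.coeff (0 : Fin n →₀ ℕ) (tsG der x b) *
          MvPowerSeries.coeff (0 : Fin n →₀ ℕ) (tsG der x b') := by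
      simp only [MvPowerSeries.coeff_zero_eq_constantCoeff_apply, map_mul]
    rw [e1, coeff_tsG, coeff_tsG, coeff_tsG]
    simp [tayG, ddG_zero]
  | succ m ih =>
    intro α hα b b'
    obtain ⟨l, hl⟩ : ∃ l, α l ≠ 0 := by
      by_contra hcon
      push Not at hcon
      have : α = 0 := by ext l; simp [hcon l]
      subst this
      simp at hα
    obtain ⟨β, rfl⟩ : ∃ β : Fin n →₀ ℕ, α = β + Finsupp.single l 1 := by
      refine ⟨α - Finsupp.single l 1, ?_⟩
      rw [tsub_add_cancel_of_le]
      rw [Finsupp.single_le_iff]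
      omega
    have hβ : β.degree = m := by
      rw [map_add, Finsupp.degree_single] at hα
      omega
    have key : MvPowerSeries.coeff β (MvPowerSeries.pderiv K l (tsG der x (b * b'))) =
        MvPowerSeries.coeff β (MvPowerSeries.pderiv K l (tsG der x b * tsG der x b')) := by
      rw [pderiv_tsG der hc, Derivation.leibniz, Derivation.leibniz, pderiv_tsG der hc,
        pderiv_tsG der hc, smul_eq_mul, smul_eq_mul]
      have hsum : tsG der x (b * der l b' + b' * der l b) =
          tsG der x (b * der l b') + tsG der x (b' * der l b) := by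
        ext γ; simp [coeff_tsG, tayG_add]
      rw [hsum, map_add, ih β hβ, ih β hβ, ← map_add, smul_eq_mul, smul_eq_mul]
    rw [MvPowerSeries.coeff_pderiv, MvPowerSeries.coeff_pderiv] at key
    have hu : IsUnit ((β l : K) + 1) := by
      have : ((β l : K) + 1) = algebraMap ℂ K (β l + 1) := by simp
      rw [this]
      exact (IsUnit.mk0 _ (Nat.cast_add_one_ne_zero (β l))).map _
    exact hu.mul_right_cancel key

/-- The Taylor homomorphism. -/
noncomputable def taylorG (hc : ∀ l k b, der l (der k b) = der k (der l b)) {K : Type} [CommRing K]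
    [Algebra ℂ K] (x : B →ₐ[ℂ] K) : B →ₐ[ℂ] MvPowerSeries (Fin n) K :=
  AlgHom.ofLinearMap
    { toFun := tsG der x
      map_add' := fun b b' => by ext α; simp [coeff_tsG, tayG_add]
      map_smul' := fun c b => by
        ext α
        rw [coeff_tsG, tayG_smul, RingHom.id_apply]
        rfl }
    (by
      ext α
      change tayG der x α 1 = _
      have h1 : ∀ (m : ℕ) (α : Fin n →₀ ℕ), α.degree = m → α ≠ 0 → tayG der x α 1 = 0 := by
        intro m α _ h0
        obtain ⟨l, hl⟩ : ∃ l, α l ≠ 0 := by
          by_contra hcon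
          push Not at hcon
          exact h0 (by ext l; simp [hcon l])
        obtain ⟨β, rfl⟩ : ∃ β : Fin n →₀ ℕ, α = β + Finsupp.single l 1 := by
          refine ⟨α - Finsupp.single l 1, ?_⟩
          rw [tsub_add_cancel_of_le]
          rw [Finsupp.single_le_iff]
          omega
        unfold tayG
        rw [ddG_add_single der hc, Derivation.map_one_eq_zero]
        simp
      by_cases h0 : α = 0
      · subst h0
        simp [tayG, ddG_zero]
      · rw [h1 _ α rfl h0, MvPowerSeries.coeff_one, if_neg h0])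
    (by
      intro b b'
      ext α
      exact tsG_mul_aux der hc x _ α rfl b b')

theorem coeff_taylorG (hc : ∀ l k b, der l (der k b) = der k (der l b)) {K : Type} [CommRing K]
    [Algebra ℂ K] (x : B →ₐ[ℂ] K) (b : B) (α : Fin n →₀ ℕ) :
    MvPowerSeries.coeff α (taylorG der hc x b) = tayG der x α b := rfl

end

end Pool.Agent.Lib_GD
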