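import Pool.Agent.Lib_GD.GeomDefs
import Pool.Agent.Lib_GD.TaylorGen

/-! G01: calculus on a chart. -/

open PowerSeries

namespace Pool.Agent.Lib_GD.Chart

variable {R : Type} [CommRing R] [Algebra ℂ R] {𝒜 : ℕ → Submodule ℂ R} {n : ℕ}
  (c : Chart 𝒜 n)

/-- Every derivation is determined by the coordinates. -/
theorem der_eq {M : Type} [AddCommGroup M] [Module ℂ M] [Module c.B M]
    [IsScalarTower ℂ c.B M] (D : Derivation ℂ c.B M) (b : c.B) :
    D b = ∑ l, c.der l b • D (c.y l) := by
  have h := congrArg D.liftKaehlerDifferential (c.gen b)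
  rw [map_sum, Derivation.liftKaehlerDifferential_comp_D] at h
  rw [h]
  refine Finset.sum_congr rfl fun l _ => ?_
  rw [map_smul, Derivation.liftKaehlerDifferential_comp_D]

theorem der_comm (l k : Fin n) (b : c.B) : c.der l (c.der k b) = c.der k (c.der l b) := by
  have h := c.der_eq ⁅c.der l, c.der k⁆ b
  have h0 : ∀ i, ⁅c.der l, c.der k⁆ (c.y i) = 0 := by
    intro i
    rw [Derivation.commutator_apply, c.der_y, c.der_y]
    split_ifs <;> simp
  simp only [h0, smul_zero, Finset.sum_const_zero] at h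
  rw [Derivation.commutator_apply] at h
  exact sub_eq_zero.1 h

theorem dd_eq (α : Fin n →₀ ℕ) : c.dd α = ddG c.der α := rfl

theorem dd_zero (b : c.B) : c.dd 0 b = b := ddG_zero c.der b

theorem dd_add_single (α : Fin n →₀ ℕ) (l : Fin n) (b : c.B) :
    c.dd (α + Finsupp.single l 1) b = c.dd α (c.der l b) :=
  ddG_add_single c.der c.der_comm α l b

theorem der_dd (α : Fin n →₀ ℕ) (l : Fin n) (b : c.B) :
    c.der l (c.dd α b) = c.dd (α + Finsupp.single l 1) b :=
  der_ddG c.der c.der_comm α l b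

theorem dd_add (α β : Fin n →₀ ℕ) (b : c.B) : c.dd (α + β) b = c.dd α (c.dd β b) :=
  ddG_add c.der c.der_comm α β b

/-- Divided powers `x(∂^α b) / α!`. -/
noncomputable def tay {K : Type} [CommRing K] [Algebra ℂ K] (x : c.B →ₐ[ℂ] K)
    (α : Fin n →₀ ℕ) (b : c.B) : K :=
  algebraMap ℂ K (∏ l, ((α l).factorial : ℂ))⁻¹ * x (c.dd α b)

/-- The Taylor homomorphism at a point `x`. -/
theorem exists_taylor {K : Type} [CommRing K] [Algebra ℂ K] (x : c.B →ₐ[ℂ] K) :
    ∃ T : c.B →ₐ[ℂ] MvPowerSeries (Fin n) K, ∀ b α, MvPowerSeries.coeff α (T b) = c.tay x α b :=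
  ⟨taylorG c.der c.der_comm x, fun b α => coeff_taylorG c.der c.der_comm x b α⟩

/-- Leibniz rule for Taylor coefficients. -/
theorem tay_mul {K : Type} [CommRing K] [Algebra ℂ K] (x : c.B →ₐ[ℂ] K)
    (α : Fin n →₀ ℕ) (b b' : c.B) :
    c.tay x α (b * b') = ∑ p ∈ Finset.HasAntidiagonal.antidiagonal α,
      c.tay x p.1 b * c.tay x p.2 b' := by
  classical
  obtain ⟨T, hT⟩ := c.exists_taylor x
  rw [← hT, map_mul, MvPowerSeries.coeff_mul]
  refine Finset.sum_congr rfl fun p _ => ?_
  rw [hT, hT]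

/-- Transport: for an arc `x : B → L⟦X⟧` and a derivation `δ` of `L`. -/
theorem hat_arc {L : Type} [Field L] [Algebra ℂ L] (x : c.B →ₐ[ℂ] L⟦X⟧)
    (δ : Derivation ℂ L L) (b : c.B) :
    hat δ (x b) = ∑ l, x (c.der l b) * hat δ (x (c.y l)) := by
  letI : Module c.B L⟦X⟧ := Module.compHom L⟦X⟧ x.toRingHom
  have hsm : ∀ (b : c.B) (f : L⟦X⟧), b • f = x b * f := fun _ _ => rfl
  haveI : IsScalarTower ℂ c.B L⟦X⟧ := ⟨fun z b f => by
    rw [hsm, hsm, map_smul, smul_mul_assoc]⟩
  let D : Derivation ℂ c.B L⟦X⟧ :=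
    { toFun := fun b => hat δ (x b)
      map_add' := fun a b => by
        ext k; simp [hat]
      map_smul' := fun z b => by
        ext k; simp [hat]
      map_one_eq_zero' := by
        change hat δ (x 1) = 0
        ext k
        rw [map_one, hat, PowerSeries.coeff_mk, PowerSeries.coeff_one]
        split_ifs <;> simp
      leibniz' := fun a b => by
        change hat δ (x (a * b)) = a • hat δ (x b) + b • hat δ (x a)
        rw [hsm, hsm, map_mul]
        ext k
        simp only [hat, PowerSeries.coeff_mk, PowerSeries.coeff_mul, map_sum, map_add,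
          Derivation.leibniz, smul_eq_mul]
        rw [Finset.sum_add_distrib]
        congr 1
        rw [← Finset.Nat.sum_antidiagonal_swap]
        rfl }
  have h := c.der_eq D b
  exact h

end Pool.Agent.Lib_GD.Chart
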