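import Pool.Agent.Lib_GD.ChartPoint
import Pool.Agent.Lib_GD.ChartDer

/-! A04: pulled back differentials. -/

open PowerSeries

namespace Pool.Agent.Lib_GD

variable {R : Type} [CommRing R] [Algebra ℂ R] {𝒜 : ℕ → Submodule ℂ R} [GradedAlgebra 𝒜]
  {n N : ℕ}

omit [GradedAlgebra 𝒜] in
/-- chain rule for a map from a chart -/
private theorem ArcPull_chain (c : Chart 𝒜 n) {V : Type} [CommRing V] [Algebra ℂ V]
    (ψ : c.B →ₐ[ℂ] V) (b : c.B) :
    KaehlerDifferential.D ℂ V (ψ b) =
      ∑ l, ψ (c.der l b) • KaehlerDifferential.D ℂ V (ψ (c.y l)) := by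
  let _ : Module c.B (KaehlerDifferential ℂ V) :=
    Module.compHom (KaehlerDifferential ℂ V) ψ.toRingHom
  have hsm : ∀ (b : c.B) (f : KaehlerDifferential ℂ V), b • f = ψ b • f := fun _ _ => rfl
  have _ : IsScalarTower ℂ c.B (KaehlerDifferential ℂ V) := ⟨fun z b f => by
    rw [hsm, hsm, map_smul, smul_assoc]⟩
  let D : Derivation ℂ c.B (KaehlerDifferential ℂ V) :=
    { toFun := fun b => KaehlerDifferential.D ℂ V (ψ b)
      map_add' := fun a b => by rw [map_add, map_add]
      map_smul' := fun z b => by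
        rw [map_smul, Derivation.map_smul]; rfl
      map_one_eq_zero' := by
        change KaehlerDifferential.D ℂ V (ψ 1) = 0
        rw [map_one, Derivation.map_one_eq_zero]
      leibniz' := fun a b => by
        change KaehlerDifferential.D ℂ V (ψ (a * b)) =
          a • KaehlerDifferential.D ℂ V (ψ b) + b • KaehlerDifferential.D ℂ V (ψ a)
        rw [hsm, hsm, map_mul, Derivation.leibniz] }
  exact c.der_eq D b

/-- the derivative of an inverse -/
private theorem ArcPull_inv {V : Type} [CommRing V] [Algebra ℂ V] {a b : V} (h : a * b = 1) :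
    KaehlerDifferential.D ℂ V b = -(b ^ 2) • KaehlerDifferential.D ℂ V a := by
  have h1 : KaehlerDifferential.D ℂ V (a * b) = 0 := by
    rw [h, Derivation.map_one_eq_zero]
  rw [Derivation.leibniz] at h1
  have h2 : b • (a • KaehlerDifferential.D ℂ V b + b • KaehlerDifferential.D ℂ V a) = 0 := by
    rw [h1, smul_zero]
  rw [smul_add, smul_smul, smul_smul, mul_comm b a, h, one_smul, ← pow_two] at h2
  rw [neg_smul]
  exact eq_neg_of_add_eq_zero_left h2

/-- A04: the pulled back differentials are spanned by the `d (ψ_j (y_l))`. -/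
theorem DivisorOver.pulledBack_eq (E : DivisorOver 𝒜 n N) (c : Fin N → Chart 𝒜 n)
    (ψ : ∀ j, (c j).B →ₐ[ℂ] E.V) (w : Fin N → E.Vˣ)
    (hψ : ∀ j m, ∀ s ∈ 𝒜 m, E.φ j s = (w j : E.V) ^ m * ψ j ((c j).ρ s)) :
    E.pulledBack = Submodule.span E.V
      (Set.range fun p : Fin N × Fin n => KaehlerDifferential.D ℂ E.V (ψ p.1 ((c p.1).y p.2))) := by
  have hmem : ∀ j (b : (c j).B), KaehlerDifferential.D ℂ E.V (ψ j b) ∈ Submodule.span E.V
      (Set.range fun p : Fin N × Fin n =>
        KaehlerDifferential.D ℂ E.V (ψ p.1 ((c p.1).y p.2))) := by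
    intro j b
    rw [ArcPull_chain (c j) (ψ j) b]
    exact Submodule.sum_mem _ fun l _ => Submodule.smul_mem _ _
      (Submodule.subset_span ⟨(j, l), rfl⟩)
  apply le_antisymm
  · unfold DivisorOver.pulledBack
    rw [Submodule.span_le]
    rintro _ ⟨j, m, s, hs, s', hs', w', hw', rfl⟩
    rw [hψ j m s' hs'] at hw'
    have e1 : E.φ j s * w' = ψ j ((c j).ρ s) * ((w j : E.V) ^ m * w') := by
      rw [hψ j m s hs]; ring
    have e2 : ψ j ((c j).ρ s') * ((w j : E.V) ^ m * w') = 1 := by
      rw [← hw']; ring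
    rw [e1, Derivation.leibniz, ArcPull_inv e2]
    exact Submodule.add_mem _ (Submodule.smul_mem _ _ (Submodule.smul_mem _ _ (hmem _ _)))
      (Submodule.smul_mem _ _ (hmem _ _))
  · rw [Submodule.span_le]
    rintro _ ⟨⟨j, l⟩, rfl⟩
    obtain ⟨m, s, hs, s', hs', hu, h1⟩ := (c j).ratio_mem ((c j).y l)
    have hu' : IsUnit (E.φ j s') := by
      rw [hψ j m s' hs']
      exact ((w j).isUnit.pow m).mul (hu.map (ψ j))
    obtain ⟨w', hw'⟩ := hu'.exists_right_inv
    have e1 : ψ j ((c j).y l) = E.φ j s * w' := by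
      have hw2 := hw'
      rw [hψ j m s' hs'] at hw2
      rw [hψ j m s hs, ← h1, map_mul]
      calc ψ j ((c j).y l) = ψ j ((c j).y l) * 1 := (mul_one _).symm
        _ = (w j : E.V) ^ m * (ψ j ((c j).y l) * ψ j ((c j).ρ s')) * w' := by
            rw [← hw2]; ring
    have e2 : KaehlerDifferential.D ℂ E.V (E.φ j s * w') ∈ E.pulledBack :=
      Submodule.subset_span ⟨j, m, s, hs, s', hs', w', hw', rfl⟩
    rw [← e1] at e2
    exact e2

/-- the derivative of a ratio of sections, the denominator only non-zero -/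
private theorem ArcPull_ratio (E : DivisorOver 𝒜 n N) (j : Fin N) (m : ℕ) {s s' : R}
    (hs : s ∈ 𝒜 m) (hs' : s' ∈ 𝒜 m) (h0 : E.φ j s' ≠ 0) :
    ∃ a b : E.V, b ≠ 0 ∧ KaehlerDifferential.D ℂ E.V a ∈ E.pulledBack ∧
      KaehlerDifferential.D ℂ E.V b ∈ E.pulledBack ∧
      algebraMap E.V (FractionRing E.V) (E.φ j s) / algebraMap E.V (FractionRing E.V) (E.φ j s') =
        algebraMap E.V (FractionRing E.V) a / algebraMap E.V (FractionRing E.V) b := by
  obtain ⟨d, hd, f, hf, hu⟩ := E.centre j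
  obtain ⟨w, hw⟩ := (hu.pow m).exists_right_inv
  have hfm : f ^ m ∈ 𝒜 (m * d) := by
    have := SetLike.pow_mem_graded (A := 𝒜) m hf
    simpa [nsmul_eq_mul] using this
  have hnum : s * s' ^ (d - 1) ∈ 𝒜 (m * d) := by
    have h1 := SetLike.mul_mem_graded (A := 𝒜) hs (SetLike.pow_mem_graded (A := 𝒜) (d - 1) hs')
    have h2 : m + (d - 1) • m = m * d := by
      rw [smul_eq_mul]
      obtain ⟨e, rfl⟩ : ∃ e, d = e + 1 := ⟨d - 1, by omega⟩
      simp only [Nat.add_sub_cancel]; ring
    rwa [h2] at h1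
  have hden : s' ^ d ∈ 𝒜 (m * d) := by
    have h1 := SetLike.pow_mem_graded (A := 𝒜) d hs'
    have h2 : d • m = m * d := by rw [smul_eq_mul, mul_comm]
    rwa [h2] at h1
  have hw' : E.φ j (f ^ m) * w = 1 := by rw [map_pow]; exact hw
  have hw0 : w ≠ 0 := by
    intro h
    rw [h, mul_zero] at hw
    exact zero_ne_one hw
  refine ⟨E.φ j (s * s' ^ (d - 1)) * w, E.φ j (s' ^ d) * w, ?_, ?_, ?_, ?_⟩
  · rw [map_pow]
    exact mul_ne_zero (pow_ne_zero _ h0) hw0
  · exact Submodule.subset_span ⟨j, m * d, _, hnum, _, hfm, w, hw', rfl⟩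
  · exact Submodule.subset_span ⟨j, m * d, _, hden, _, hfm, w, hw', rfl⟩
  · have hinj := IsFractionRing.injective E.V (FractionRing E.V)
    have h0' : algebraMap E.V (FractionRing E.V) (E.φ j s') ≠ 0 := by
      rw [Ne, map_eq_zero_iff _ hinj]; exact h0
    have hw0' : algebraMap E.V (FractionRing E.V) w ≠ 0 := by
      rw [Ne, map_eq_zero_iff _ hinj]; exact hw0
    obtain ⟨e, rfl⟩ : ∃ e, d = e + 1 := ⟨d - 1, by omega⟩
    simp only [Nat.add_sub_cancel, map_mul, map_pow]
    field_simp
    ring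

/-- every differential has a non-zero multiple which is pulled back -/
private theorem ArcPull_torsion (E : DivisorOver 𝒜 n N) (ω : KaehlerDifferential ℂ E.V) :
    ∃ v : E.V, v ≠ 0 ∧ v • ω ∈ E.pulledBack := by
  let K := FractionRing E.V
  let f := KaehlerDifferential.map ℂ ℂ E.V K
  have _ : IsLocalizedModule (nonZeroDivisors E.V) f :=
    KaehlerDifferential.isLocalizedModule_map ℂ E.V K (nonZeroDivisors E.V)
  let L : Submodule K (KaehlerDifferential ℂ K) :=
    E.pulledBack.localized' K (nonZeroDivisors E.V) f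
  have hL : ∀ p ∈ E.pulledBack, f p ∈ L := by
    intro p hp
    change f p ∈ E.pulledBack.localized' K (nonZeroDivisors E.V) f
    rw [Submodule.localized'_eq_span]
    exact Submodule.subset_span ⟨p, hp, rfl⟩
  have hLD : ∀ a : E.V, KaehlerDifferential.D ℂ E.V a ∈ E.pulledBack →
      KaehlerDifferential.D ℂ K (algebraMap E.V K a) ∈ L := by
    intro a ha
    have := hL _ ha
    change KaehlerDifferential.map ℂ ℂ E.V K (KaehlerDifferential.D ℂ E.V a) ∈ L at this
    rwa [KaehlerDifferential.map_D] at this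
  have hall : ∀ z : K, KaehlerDifferential.D ℂ K z ∈ L := by
    intro z
    have hz : z ∈ IntermediateField.adjoin ℂ {z : FractionRing E.V | ∃ j m, ∃ s ∈ 𝒜 m,
        ∃ s' ∈ 𝒜 m, E.φ j s' ≠ 0 ∧ z = algebraMap E.V (FractionRing E.V) (E.φ j s) /
          algebraMap E.V (FractionRing E.V) (E.φ j s')} := by
      rw [E.generates]; exact IntermediateField.mem_top
    refine IntermediateField.adjoin_induction ℂ
      (p := fun z _ => KaehlerDifferential.D ℂ K z ∈ L) ?_ ?_ ?_ ?_ ?_ hz
    · rintro z ⟨j, m, s, hs, s', hs', h0, rfl⟩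
      obtain ⟨a, b, hb, ha1, hb1, hab⟩ := ArcPull_ratio E j m hs hs' h0
      rw [hab, Derivation.leibniz_div]
      exact Submodule.smul_mem _ _ (Submodule.sub_mem _ (Submodule.smul_mem _ _ (hLD a ha1))
        (Submodule.smul_mem _ _ (hLD b hb1)))
    · intro x
      rw [Derivation.map_algebraMap]
      exact Submodule.zero_mem _
    · intro x y _ _ hx hy
      rw [map_add]
      exact Submodule.add_mem _ hx hy
    · intro x _ hx
      rw [Derivation.leibniz_inv]
      exact Submodule.smul_mem _ _ hx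
    · intro x y _ _ hx hy
      rw [Derivation.leibniz]
      exact Submodule.add_mem _ (Submodule.smul_mem _ _ hy) (Submodule.smul_mem _ _ hx)
  have htop : L = ⊤ := by
    rw [← top_le_iff, ← KaehlerDifferential.span_range_derivation ℂ K, Submodule.span_le]
    rintro _ ⟨z, rfl⟩
    exact hall z
  have h1 : f ω ∈ L := by rw [htop]; exact Submodule.mem_top
  obtain ⟨p, hp, s, hs⟩ := (Submodule.mem_localized' _ _ _ _ _).1 h1
  rw [IsLocalizedModule.mk'_eq_iff] at hs
  have hs2 : f p = f ((s : E.V) • ω) := by rw [hs, map_smul]; rfl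
  obtain ⟨c, hc⟩ := IsLocalizedModule.exists_of_eq (S := nonZeroDivisors E.V) hs2
  refine ⟨(c : E.V) * s, ?_, ?_⟩
  · exact mul_ne_zero (nonZeroDivisors.ne_zero c.2) (nonZeroDivisors.ne_zero s.2)
  · have h2 : ((c : E.V) * (s : E.V)) • ω = (c : E.V) • p := by
      rw [mul_smul]
      exact hc.symm
    rw [h2]
    exact Submodule.smul_mem _ _ hp

/-- A04b: log discrepancies are finite: the fraction field of `V` is generated by ratios of
sections, so the pulled back differentials span `Ω_V` generically. -/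
theorem DivisorOver.logDisc_ne_top (E : DivisorOver 𝒜 n N) : E.logDisc ≠ ⊤ := by
  classical
  have _ : Module.Finite E.V (KaehlerDifferential ℂ E.V) := KaehlerDifferential.finite ℂ E.V
  set Q := KaehlerDifferential ℂ E.V ⧸ E.pulledBack with hQ
  obtain ⟨k, g, hg⟩ := Module.Finite.exists_fin' E.V Q
  -- each generator is torsion
  have htor : ∀ i : Fin k, ∃ v : E.V, v ≠ 0 ∧ v • g (Pi.single i 1) = 0 := by
    intro i
    obtain ⟨ω, hω⟩ := Submodule.Quotient.mk_surjective E.pulledBack (g (Pi.single i 1))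
    obtain ⟨v, hv, hv1⟩ := ArcPull_torsion E ω
    refine ⟨v, hv, ?_⟩
    rw [← hω, ← Submodule.Quotient.mk_smul, Submodule.Quotient.mk_eq_zero]
    exact hv1
  choose v hv hv1 using htor
  have hfin : ∀ i, IsFiniteLength E.V (E.V ⧸ Ideal.span {v i}) := fun i =>
    isFiniteLength_quotient_span_singleton E.V (mem_nonZeroDivisors_of_ne_zero (hv i))
  have _ : ∀ i, IsArtinian E.V (E.V ⧸ Ideal.span {v i}) := fun i =>
    (isFiniteLength_iff_isNoetherian_isArtinian.1 (hfin i)).2
  have hker : ∀ i, (Ideal.span {v i} : Submodule E.V E.V) ≤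
      LinearMap.ker (LinearMap.toSpanSingleton E.V Q (g (Pi.single i 1))) := by
    intro i x hx
    obtain ⟨y, rfl⟩ := Ideal.mem_span_singleton'.1 hx
    rw [LinearMap.mem_ker, LinearMap.toSpanSingleton_apply, mul_smul, hv1 i, smul_zero]
  let h : (∀ i : Fin k, E.V ⧸ Ideal.span {v i}) →ₗ[E.V] Q :=
    ∑ i, (Submodule.liftQ _ (LinearMap.toSpanSingleton E.V Q (g (Pi.single i 1))) (hker i)).comp
      (LinearMap.proj i)
  have hh : Function.Surjective h := by
    intro q
    obtain ⟨x, rfl⟩ := hg q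
    refine ⟨fun i => Ideal.Quotient.mk _ (x i), ?_⟩
    change (∑ i, (Submodule.liftQ _ (LinearMap.toSpanSingleton E.V Q (g (Pi.single i 1)))
      (hker i)).comp (LinearMap.proj i)) (fun i => Ideal.Quotient.mk _ (x i)) = g x
    rw [LinearMap.sum_apply]
    have h1 : ∀ i, ((Submodule.liftQ _ (LinearMap.toSpanSingleton E.V Q (g (Pi.single i 1)))
        (hker i)).comp (LinearMap.proj i)) (fun i => Ideal.Quotient.mk (Ideal.span {v i}) (x i)) =
        x i • g (Pi.single i 1) := by
      intro i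
      rfl
    rw [Finset.sum_congr rfl fun i _ => h1 i]
    have hx : x = ∑ i, x i • (Pi.single i 1 : Fin k → E.V) := by
      funext j
      rw [Finset.sum_apply]
      simp [Pi.single_apply]
    conv_rhs => rw [hx, map_sum]
    exact Finset.sum_congr rfl fun i _ => (map_smul g (x i) _).symm
  have _ : IsArtinian E.V Q := isArtinian_of_surjective _ h hh
  have hlen : Module.length E.V Q ≠ ⊤ := Module.length_ne_top
  unfold DivisorOver.logDisc
  rw [Ne, ENat.add_eq_top, not_or]
  exact ⟨ENat.one_ne_top, hlen⟩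

end Pool.Agent.Lib_GD
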