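import Pool.Agent.Lib_GD.GenericArc
import Pool.Agent.Lib_GD.ArcPull
import Pool.Agent.Lib_GD.ArcColen
import Pool.Agent.Lib_GD.Growth

/-! A06: the arc system of a prime divisor over `X ^ N`. -/

open PowerSeries

namespace Pool.Agent.Lib_GD

variable {R : Type} [CommRing R] [Algebra ℂ R] {𝒜 : ℕ → Submodule ℂ R} [GradedAlgebra 𝒜]
  {n N : ℕ}

/-- Derivations of `L` on the image of `Φ`. -/
private theorem ArcBuild_hat {V : Type} [CommRing V] [Algebra ℂ V] {r : ℕ} {t : V}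
    {w : Fin r → V} {δt : Derivation ℂ V V} {δ : Fin r → Derivation ℂ V V}
    (h5 : ∀ f, KaehlerDifferential.D ℂ V f = δt f • KaehlerDifferential.D ℂ V t +
        ∑ l, δ l f • KaehlerDifferential.D ℂ V (w l))
    {L : Type} [Field L] [Algebra ℂ L] (Φ : V →ₐ[ℂ] L⟦X⟧) (d : Derivation ℂ L L) (f : V) :
    hat d (Φ f) = Φ (δt f) * hat d (Φ t) + ∑ l, Φ (δ l f) * hat d (Φ (w l)) := by
  let _ : Module V L⟦X⟧ := Module.compHom L⟦X⟧ Φ.toRingHom
  have hsm : ∀ (b : V) (f : L⟦X⟧), b • f = Φ b * f := fun _ _ => rfl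
  have _ : IsScalarTower ℂ V L⟦X⟧ := ⟨fun z b f => by
    rw [hsm, hsm, map_smul, smul_mul_assoc]⟩
  let D : Derivation ℂ V L⟦X⟧ :=
    { toFun := fun b => hat d (Φ b)
      map_add' := fun a b => by
        ext k; simp [hat]
      map_smul' := fun z b => by
        ext k; simp [hat]
      map_one_eq_zero' := by
        change hat d (Φ 1) = 0
        ext k
        rw [map_one, hat, PowerSeries.coeff_mk, PowerSeries.coeff_one]
        split_ifs <;> simp
      leibniz' := fun a b => by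
        change hat d (Φ (a * b)) = a • hat d (Φ b) + b • hat d (Φ a)
        rw [hsm, hsm, map_mul, hat_mul, mul_comm (hat d (Φ a))] }
  have h := congrArg D.liftKaehlerDifferential (h5 f)
  rw [map_add, map_sum, map_smul, Derivation.liftKaehlerDifferential_comp_D,
    Derivation.liftKaehlerDifferential_comp_D] at h
  have h' : D f = δt f • D t + ∑ l, δ l f • D (w l) := by
    rw [h]
    congr 1
    refine Finset.sum_congr rfl fun l _ => ?_
    rw [map_smul, Derivation.liftKaehlerDifferential_comp_D]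
  exact h'

private theorem ArcBuild_length {A P Q : Type} [CommRing A] [AddCommGroup P] [Module A P]
    [AddCommGroup Q] [Module A Q] (e : P ≃ₗ[A] Q) (M : Submodule A P) (M' : Submodule A Q)
    (h : M.map (e : P →ₗ[A] Q) = M') :
    Module.length A (P ⧸ M) = Module.length A (Q ⧸ M') :=
  (Submodule.Quotient.equiv M M' e h).length_eq

/-- The submodule of the values of the derivations. -/
private def ArcBuild_Xi {L : Type} [Field L] {r N n : ℕ}
    (J : Fin N × Fin n → Option (Fin r) → L⟦X⟧) :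
    Submodule L⟦X⟧ (Fin N → Fin n → L⟦X⟧) where
  carrier := {v | ∃ ζ : Option (Fin r) → L⟦X⟧, X ∣ ζ none ∧
    ∀ j l, v j l = ∑ q, ζ q * J (j, l) q}
  add_mem' := by
    rintro a b ⟨ζ, hζ, h⟩ ⟨ζ', hζ', h'⟩
    refine ⟨ζ + ζ', dvd_add hζ hζ', fun j l => ?_⟩
    rw [Pi.add_apply, Pi.add_apply, h, h', ← Finset.sum_add_distrib]
    exact Finset.sum_congr rfl fun q _ => by rw [Pi.add_apply, add_mul]
  zero_mem' := ⟨0, dvd_zero _, fun j l => by simp⟩
  smul_mem' := by
    rintro c a ⟨ζ, hζ, h⟩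
    refine ⟨c • ζ, Dvd.dvd.mul_left hζ c, fun j l => ?_⟩
    rw [Pi.smul_apply, Pi.smul_apply, h, smul_eq_mul, Finset.mul_sum]
    exact Finset.sum_congr rfl fun q _ => by rw [Pi.smul_apply, smul_eq_mul, mul_assoc]

/-- A06: the arc system of a divisor over `X ^ N_m`. -/
theorem exists_arcSystem (h : IsSmoothPolarised 𝒜 n) (hn : 1 ≤ n) (a : Atlas 𝒜 n) (m : ℕ)
    (hm : 1 ≤ secDim 𝒜 m) (E : DivisorOver 𝒜 n (secDim 𝒜 m)) (hA : E.logDisc ≠ ⊤) :
    ∃ (L : Type) (_ : Field L) (_ : Algebra ℂ L) (k : Fin (secDim 𝒜 m) → Fin a.r)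
      (x : ∀ j, (a.chart (k j)).B →ₐ[ℂ] L⟦X⟧) (Γ : ArcSystem L n (secDim 𝒜 m)),
      Γ.𝒟 = ⊤ ∧
      (∀ j α i, Γ.u j α i = x j ((a.chart (k j)).dd α ((a.chart (k j)).ρ (secBasis 𝒜 m i)))) ∧
      (∀ δ j l, Γ.ξ δ j l = hat δ (x j ((a.chart (k j)).y l))) ∧
      (Γ.A : ℕ∞) = E.logDisc ∧ Γ.det.order = E.ordDet 𝒜 := by
  classical
  obtain ⟨r, hr⟩ : ∃ r, n * secDim 𝒜 m = r + 1 :=
    ⟨n * secDim 𝒜 m - 1, (Nat.sub_add_cancel (Nat.mul_pos hn hm)).symm⟩
  have htr : Algebra.trdeg ℂ E.V = (r + 1 : ℕ) := by rw [E.trdeg, hr]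
  obtain ⟨t, w, b, ht, hb, hb'⟩ := exists_dvr_coords E.V r htr
  obtain ⟨δt, δ, h1, h2, h3, h4, h5, h6, h7⟩ := exists_dvr_der E.V r t w b hb hb'
  obtain ⟨L, _, _, Φ, hΦ, hreal⟩ := exists_generic_arc E.V r t w ht δt δ h1 h2 h3 h4 h5 h6 h7
  have hpt : ∀ j, ∃ (k : Fin a.r) (ψ : (a.chart k).B →ₐ[ℂ] E.V) (w : E.Vˣ),
      ∀ m, ∀ s ∈ 𝒜 m, E.φ j s = (w : E.V) ^ m * ψ ((a.chart k).ρ s) :=
    fun j => a.exists_point (E.φ j) (E.centre j)
  choose k ψ wu hψ using hpt
  -- the Jacobian matrix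
  set J : Fin (secDim 𝒜 m) × Fin n → Option (Fin r) → E.V := fun p q =>
    match q with
    | none => δt (ψ p.1 ((a.chart (k p.1)).y p.2))
    | some l => δ l (ψ p.1 ((a.chart (k p.1)).y p.2)) with hJ
  have hhat : ∀ (d : Derivation ℂ L L) (j : Fin (secDim 𝒜 m)) (l : Fin n),
      hat d (Φ (ψ j ((a.chart (k j)).y l))) =
        ∑ q, (match q with | none => hat d (Φ t) | some i => hat d (Φ (w i))) *
          Φ (J (j, l) q) := by
    intro d j l
    rw [ArcBuild_hat h5 Φ d, Fintype.sum_option]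
    simp only [hJ]
    congr 1
    · exact mul_comm _ _
    · exact Finset.sum_congr rfl fun i _ => mul_comm _ _
  have hXt : ∀ d : Derivation ℂ L L, X ∣ hat d (Φ t) := by
    intro d
    have h0 : (X : L⟦X⟧) ^ 1 ∣ Φ t := by
      rw [PowerSeries.X_pow_dvd_iff]
      intro i hi
      apply PowerSeries.coeff_of_lt_order
      rw [hΦ, IsDiscreteValuationRing.addVal_uniformizer ht]
      exact_mod_cast hi
    have := X_pow_dvd_hat d h0
    rwa [pow_one] at this
  -- colengths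
  set M : Submodule L⟦X⟧ (Fin (secDim 𝒜 m) → Fin n → L⟦X⟧) :=
    ArcBuild_Xi (fun p q => Φ (J p q)) with hM
  let cur : (Fin (secDim 𝒜 m) → Fin n → L⟦X⟧) ≃ₗ[L⟦X⟧]
      (Fin (secDim 𝒜 m) × Fin n → L⟦X⟧) := (LinearEquiv.curry L⟦X⟧ L⟦X⟧ _ _).symm
  have hfin : Module.length E.V (KaehlerDifferential ℂ E.V ⧸ E.pulledBack) ≠ ⊤ := by
    intro h0
    apply hA
    rw [DivisorOver.logDisc, h0]
    rfl
  obtain ⟨a₀, ha₀⟩ := ENat.ne_top_iff_exists.1 hfin
  have hlen : Module.length E.V ((Option (Fin r) → E.V) ⧸ Submodule.span E.V (Set.range J))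
      = a₀ := by
    rw [ha₀]
    symm
    apply ArcBuild_length b.equivFun
    rw [E.pulledBack_eq (fun j => a.chart (k j)) ψ wu hψ, Submodule.map_span, ← Set.range_comp]
    congr 1
    congr 1
    funext p
    have h8 : b.equivFun.symm (J p) =
        KaehlerDifferential.D ℂ E.V (ψ p.1 ((a.chart (k p.1)).y p.2)) := by
      rw [b.equivFun_symm_apply, Fintype.sum_option, hb,
        h5 (ψ p.1 ((a.chart (k p.1)).y p.2))]
      simp only [hb', hJ]
    rw [Function.comp_apply, ← h8]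
    exact b.equivFun.apply_symm_apply _
  have hcard : Fintype.card (Fin (secDim 𝒜 m) × Fin n) = r + 1 := by
    rw [Fintype.card_prod, Fintype.card_fin, Fintype.card_fin, mul_comm, hr]
  obtain ⟨hf1, hf2⟩ := colen_of_matrix (Φ : E.V →+* L⟦X⟧) hΦ hcard J a₀ hlen
    (M.map (cur : _ →ₗ[L⟦X⟧] _)) (by
      intro v
      constructor
      · rintro ⟨u, ⟨ζ, hζ, hu⟩, rfl⟩
        exact ⟨ζ, hζ, fun p => hu p.1 p.2⟩
      · rintro ⟨ζ, hζ, hv⟩
        refine ⟨fun j l => v (j, l), ⟨ζ, hζ, fun j l => hv (j, l)⟩, ?_⟩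
        funext p
        rfl)
  have hl : Module.length L⟦X⟧ ((Fin (secDim 𝒜 m) → Fin n → L⟦X⟧) ⧸ M) =
      Module.length L⟦X⟧ ((Fin (secDim 𝒜 m) × Fin n → L⟦X⟧) ⧸ M.map (cur : _ →ₗ[L⟦X⟧] _)) :=
    ArcBuild_length cur M _ rfl
  have hMfin : FinColen M := by
    unfold FinColen
    rw [hl]
    exact hf1
  have hMcol : colen M = a₀ + 1 := by
    unfold colen
    rw [hl]
    exact hf2
  let Γ : ArcSystem L n (secDim 𝒜 m) :=
    { 𝒟 := ⊤
      u := fun j α i => Φ (ψ j ((a.chart (k j)).dd α ((a.chart (k j)).ρ (secBasis 𝒜 m i))))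
      ξ := fun d j l => hat d (Φ (ψ j ((a.chart (k j)).y l)))
      transport := by
        intro d _ j α i
        have := (a.chart (k j)).hat_arc (Φ.comp (ψ j)) d
          ((a.chart (k j)).dd α ((a.chart (k j)).ρ (secBasis 𝒜 m i)))
        simp only [AlgHom.comp_apply] at this
        rw [this]
        refine Finset.sum_congr rfl fun l _ => ?_
        rw [(a.chart (k j)).der_dd, mul_comm]
      Ξ := M
      mem_Ξ := by
        intro v
        constructor
        · rintro ⟨ζ, hζ, hv⟩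
          obtain ⟨d, hd0, hd⟩ := hreal (ζ none) (fun l => ζ (some l)) hζ
          refine ⟨d, Submodule.mem_top, ?_⟩
          funext j l
          rw [hhat, hv, Fintype.sum_option, Fintype.sum_option]
          simp only [hd0, hd]
        · rintro ⟨d, _, rfl⟩
          refine ⟨fun q => match q with | none => hat d (Φ t) | some i => hat d (Φ (w i)),
            hXt d, fun j l => hhat d j l⟩
      fin_Ξ := hMfin }
  refine ⟨L, inferInstance, inferInstance, k, fun j => Φ.comp (ψ j), Γ, rfl, fun j α i => rfl,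
    fun d j l => rfl, ?_, ?_⟩
  · change ((colen M : ℕ) : ℕ∞) = E.logDisc
    rw [hMcol, DivisorOver.logDisc, ← ha₀]
    push_cast
    exact add_comm _ _
  · have hdet : Γ.det = Φ (Matrix.det (Matrix.of fun j i : Fin (secDim 𝒜 m) =>
        ψ j ((a.chart (k j)).ρ (secBasis 𝒜 m i)))) := by
      change Matrix.det (Matrix.of fun j i : Fin (secDim 𝒜 m) =>
        Φ (ψ j ((a.chart (k j)).dd 0 ((a.chart (k j)).ρ (secBasis 𝒜 m i))))) = _
      rw [AlgHom.map_det]
      congr 1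
      ext1 j i
      simp only [Matrix.of_apply, AlgHom.mapMatrix_apply, Matrix.map_apply]
      rw [(a.chart (k j)).dd_zero]
    have hord : Matrix.det (Matrix.of fun j i : Fin (secDim 𝒜 m) => E.φ j (secBasis 𝒜 m i)) =
        (∏ j, (wu j : E.V) ^ m) * Matrix.det (Matrix.of fun j i : Fin (secDim 𝒜 m) =>
          ψ j ((a.chart (k j)).ρ (secBasis 𝒜 m i))) := by
      rw [← Matrix.det_mul_column]
      congr 1
      ext1 j i
      simp only [Matrix.of_apply]
      exact hψ j m _ ((secBasis_spec h m).1 i)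
    have hunit : IsUnit (∏ j, (wu j : E.V) ^ m) := by
      have : (∏ j, (wu j : E.V) ^ m) = ((∏ j, (wu j) ^ m : E.Vˣ) : E.V) := by
        push_cast
        rfl
      rw [this]
      exact Units.isUnit _
    rw [hdet, hΦ, DivisorOver.ordDet, DivisorOver.ord, hord, IsDiscreteValuationRing.addVal_mul,
      (IsDiscreteValuationRing.addVal_eq_zero_iff).2 hunit, zero_add]

end Pool.Agent.Lib_GD
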