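import Mathlib

/-!
# Arc systems: definitions

`O = L⟦X⟧`; derivations of `L` act coefficientwise on `O`. An arc system is the linear algebra
shadow of `N` arcs `x_j : B_j → O` on an `n`-dimensional smooth variety and a space `𝒟` of
derivations of `L`: `u j α i` stands for `(∂^α s_i)(x_j)`, `ξ δ j l` for `δ (y_l (x_j))`.
-/

open PowerSeries

namespace Pool.Agent.Lib_GD

/-- The colength of a submodule (`0` if it is infinite). -/
noncomputable def colen {A P : Type} [CommRing A] [AddCommGroup P] [Module A P]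
    (M : Submodule A P) : ℕ :=
  (Module.length A (P ⧸ M)).toNat

/-- The submodule has finite colength. -/
def FinColen {A P : Type} [CommRing A] [AddCommGroup P] [Module A P] (M : Submodule A P) : Prop :=
  Module.length A (P ⧸ M) ≠ ⊤

variable {L : Type} [Field L] [Algebra ℂ L]

/-- Coefficientwise action of a derivation on power series. -/
noncomputable def hat (δ : Derivation ℂ L L) (f : L⟦X⟧) : L⟦X⟧ :=
  PowerSeries.mk fun k => δ (PowerSeries.coeff k f)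

/-- An arc system. -/
structure ArcSystem (L : Type) [Field L] [Algebra ℂ L] (n N : ℕ) where
  /-- the derivations -/
  𝒟 : Submodule L (Derivation ℂ L L)
  /-- `u j α i = (∂^α s_i)(x_j)` -/
  u : Fin N → (Fin n →₀ ℕ) → Fin N → L⟦X⟧
  /-- `ξ δ j l = δ (y_l (x_j))` -/
  ξ : Derivation ℂ L L → Fin N → Fin n → L⟦X⟧
  transport : ∀ δ ∈ 𝒟, ∀ j α i,
    hat δ (u j α i) = ∑ l, ξ δ j l * u j (α + Finsupp.single l 1) i
  /-- the possible values of `ξ` -/
  Ξ : Submodule L⟦X⟧ (Fin N → Fin n → L⟦X⟧)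
  mem_Ξ : ∀ v, v ∈ Ξ ↔ ∃ δ ∈ 𝒟, ξ δ = v
  fin_Ξ : FinColen Ξ

namespace ArcSystem

variable {n N : ℕ} (Γ : ArcSystem L n N)

/-- The total cost `A`. -/
noncomputable def A : ℕ := colen Γ.Ξ

/-- The functionals `f ↦ (∂^α f)(x_j)` on `H(O) = O^N`. -/
noncomputable def ev (j : Fin N) (α : Fin n →₀ ℕ) : (Fin N → L⟦X⟧) →ₗ[L⟦X⟧] L⟦X⟧ where
  toFun f := ∑ i, Γ.u j α i * f i
  map_add' f g := by simp [mul_add, Finset.sum_add_distrib]
  map_smul' c f := by
    simp only [Pi.smul_apply, smul_eq_mul, RingHom.id_apply, Finset.mul_sum]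
    exact Finset.sum_congr rfl fun i _ => by ring

/-- The elements of `Ξ` vanishing at the points of `S`. -/
def XiS (S : Finset (Fin N)) : Submodule L⟦X⟧ (Fin N → Fin n → L⟦X⟧) where
  carrier := {w | w ∈ Γ.Ξ ∧ ∀ i ∈ S, w i = 0}
  add_mem' {a b} ha hb := ⟨Γ.Ξ.add_mem ha.1 hb.1, fun i hi => by simp [ha.2 i hi, hb.2 i hi]⟩
  zero_mem' := ⟨Γ.Ξ.zero_mem, fun _ _ => rfl⟩
  smul_mem' c a ha := ⟨Γ.Ξ.smul_mem c ha.1, fun i hi => by simp [ha.2 i hi]⟩

/-- `Ξ_{j|S}`. -/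
noncomputable def Xirel (j : Fin N) (S : Finset (Fin N)) : Submodule L⟦X⟧ (Fin n → L⟦X⟧) :=
  (Γ.XiS S).map (LinearMap.proj j)

/-- The cost `a(j|S)`. -/
noncomputable def cost (j : Fin N) (S : Finset (Fin N)) : ℕ := colen (Γ.Xirel j S)

/-- The derivations killing the arcs `x_i`, `i ∈ S`. -/
def Dker (S : Finset (Fin N)) : Set (Derivation ℂ L L) :=
  {δ | δ ∈ Γ.𝒟 ∧ ∀ i ∈ S, Γ.ξ δ i = 0}

/-- Submodules of `H(O) = O^N` stable under the derivations killing the arcs in `S`. -/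
def Stable (S : Finset (Fin N)) (M : Submodule L⟦X⟧ (Fin N → L⟦X⟧)) : Prop :=
  ∀ δ ∈ Γ.Dker S, ∀ f ∈ M, (fun i => hat δ (f i)) ∈ M

/-- `W_S`: the elements of `H(O)` vanishing at the arcs `x_i`, `i ∈ S`. -/
def W (S : Finset (Fin N)) : Submodule L⟦X⟧ (Fin N → L⟦X⟧) where
  carrier := {f | ∀ i ∈ S, Γ.ev i 0 f = 0}
  add_mem' {a b} ha hb i hi := by simp [ha i hi, hb i hi]
  zero_mem' i _ := by simp
  smul_mem' c a ha i hi := by simp [ha i hi]

/-- The energy `φ(j|S)`: the smallest order at `x_j` of an element of `W_S`. -/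
noncomputable def phi (j : Fin N) (S : Finset (Fin N)) : ℕ :=
  sInf {k | ∃ f ∈ Γ.W S, ¬ (X : L⟦X⟧) ^ (k + 1) ∣ Γ.ev j 0 f}

/-- The evaluation determinant. -/
noncomputable def det : L⟦X⟧ := Matrix.det (Matrix.of fun j i : Fin N => Γ.u j 0 i)

/-- Hypothesis (T): vanishing orders of non-zero sections over `L` are at most `D`. -/
def HT (D : ℕ) : Prop :=
  ∀ (j : Fin N) (v : Fin N → L), v ≠ 0 →
    ∃ α : Fin n →₀ ℕ, α.degree ≤ D ∧ ∑ i, constantCoeff (Γ.u j α i) * v i ≠ 0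

/-- Hypothesis (Sep): the jets of order `< q` are independent. -/
def HSep (q : ℕ) : Prop :=
  ∀ j : Fin N, LinearIndependent L (fun α : {α : Fin n →₀ ℕ // α.degree < q} =>
    fun i : Fin N => constantCoeff (Γ.u j α i))

/-- Hypothesis (I2): a stable lattice `X ^ (-B) M`, `X ^ B O^N ⊆ M ⊆ O^N`, with integral values
at `x_j` has length at most `σ a(j|S)` over `O^N`. -/
def HI2 (σ : ℝ) : Prop :=
  ∀ (S : Finset (Fin N)) (j : Fin N), j ∉ S →
    ∀ (B : ℕ) (M : Submodule L⟦X⟧ (Fin N → L⟦X⟧)), (∀ f, (X : L⟦X⟧) ^ B • f ∈ M) →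
      Γ.Stable S M → (∀ f ∈ M, (X : L⟦X⟧) ^ B ∣ Γ.ev j 0 f) →
      (B : ℝ) * N - colen M ≤ σ * Γ.cost j S

/-- The disc lattice `X ^ B Λ_S` of radius `a`. -/
def Lam (B a : ℕ) (S : Finset (Fin N)) : Submodule L⟦X⟧ (Fin N → L⟦X⟧) where
  carrier := {f | ∀ i ∈ S, ∀ α : Fin n →₀ ℕ,
    (X : L⟦X⟧) ^ B ∣ X ^ (α.degree * a) * Γ.ev i α f}
  add_mem' {f g} hf hg i hi α := by
    rw [map_add, mul_add]; exact dvd_add (hf i hi α) (hg i hi α)
  zero_mem' i _ α := by simp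
  smul_mem' c f hf i hi α := by
    rw [map_smul, smul_eq_mul, mul_left_comm]; exact Dvd.dvd.mul_left (hf i hi α) c

/-- `r_S(b)` as a subspace of `L^N`: the reductions of the `f ∈ O^N` with
`X ^ (B - b) f ∈ X ^ B Λ_S`. -/
def rsub (B a : ℕ) (S : Finset (Fin N)) (b : ℕ) : Submodule L (Fin N → L) where
  carrier := {v | ∃ f : Fin N → L⟦X⟧, (∀ i, constantCoeff (f i) = v i) ∧
    (X : L⟦X⟧) ^ (B - b) • f ∈ Γ.Lam B a S}
  add_mem' {v w} := by
    rintro ⟨f, hf, hf'⟩ ⟨g, hg, hg'⟩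
    exact ⟨f + g, fun i => by simp [hf i, hg i], by rw [smul_add]; exact add_mem hf' hg'⟩
  zero_mem' := ⟨0, fun i => by simp, by simp⟩
  smul_mem' c v := by
    rintro ⟨f, hf, hf'⟩
    refine ⟨(C c : L⟦X⟧) • f, fun i => by simp [hf i], ?_⟩
    rw [smul_comm]; exact Submodule.smul_mem _ _ hf'

/-- `r_S(b)`. -/
noncomputable def rk (B a : ℕ) (S : Finset (Fin N)) (b : ℕ) : ℕ :=
  Module.finrank L (Γ.rsub B a S b)

end ArcSystem

end Pool.Agent.Lib_GD
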