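import Pool.Agent.Lib_GD.ChartDer

/-! G02: Taylor expansions at a `ℂ`-point. -/

open PowerSeries

namespace Pool.Agent.Lib_GD.Chart

variable {R : Type} [CommRing R] [Algebra ℂ R] {𝒜 : ℕ → Submodule ℂ R} {n : ℕ}
  (c : Chart 𝒜 n)

private theorem ChartTay_zero (x : c.B →ₐ[ℂ] ℂ) (b : c.B) : c.tay x 0 b = x b := by
  unfold tay
  rw [c.dd_zero]
  simp

private theorem ChartTay_dd_one (α : Fin n →₀ ℕ) (hα : α ≠ 0) : c.dd α (1 : c.B) = 0 := by
  classical
  obtain ⟨l, hl⟩ : ∃ l, α l ≠ 0 := by
    by_contra h
    push Not at h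
    exact hα (Finsupp.ext h)
  have h1 : α = (α - Finsupp.single l 1) + Finsupp.single l 1 := by
    ext i
    by_cases hi : i = l
    · subst hi
      simp only [Finsupp.add_apply, Finsupp.tsub_apply, Finsupp.single_eq_same]
      omega
    · simp [Finsupp.single_eq_of_ne hi]
  rw [h1, c.dd_add_single, Derivation.map_one_eq_zero, map_zero]

private theorem ChartTay_coord (x : c.B →ₐ[ℂ] ℂ) (α : Fin n →₀ ℕ) (l : Fin n) :
    c.tay x α (c.y l - algebraMap ℂ c.B (x (c.y l))) =
      if α = Finsupp.single l 1 then 1 else 0 := by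
  classical
  by_cases hα : α = 0
  · subst hα
    rw [ChartTay_zero, map_sub, AlgHom.commutes]
    have h1 : (0 : Fin n →₀ ℕ) ≠ Finsupp.single l 1 := by
      intro h
      have := DFunLike.congr_fun h l
      simp at this
    rw [if_neg h1]
    simp
  · obtain ⟨k, hk⟩ : ∃ k, α k ≠ 0 := by
      by_contra h
      push Not at h
      exact hα (Finsupp.ext h)
    obtain ⟨α', hα'⟩ : ∃ α' : Fin n →₀ ℕ, α = α' + Finsupp.single k 1 := by
      refine ⟨α - Finsupp.single k 1, ?_⟩
      ext i
      by_cases hi : i = k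
      · subst hi
        simp only [Finsupp.add_apply, Finsupp.tsub_apply, Finsupp.single_eq_same]
        omega
      · simp [Finsupp.single_eq_of_ne hi]
    have h1 : c.dd α (c.y l - algebraMap ℂ c.B (x (c.y l))) =
        c.dd α' (if k = l then (1 : c.B) else 0) := by
      rw [hα', c.dd_add_single, map_sub, c.der_y, Derivation.map_algebraMap, sub_zero]
    by_cases hkl : k = l
    · subst hkl
      rw [if_pos rfl] at h1
      by_cases h0 : α' = 0
      · subst h0
        rw [zero_add] at hα'
        rw [if_pos hα']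
        unfold tay
        rw [h1, c.dd_zero, map_one, mul_one, hα']
        have h2 : ∏ i, (((Finsupp.single k 1 : Fin n →₀ ℕ) i).factorial : ℂ) = 1 := by
          refine Finset.prod_eq_one fun i _ => ?_
          by_cases hi : i = k
          · subst hi
            simp
          · simp [Finsupp.single_eq_of_ne hi]
        rw [h2]
        simp
      · have h2 : α ≠ Finsupp.single k 1 := by
          intro h
          rw [hα'] at h
          have h3 : α' = 0 := by
            have : α' + Finsupp.single k 1 = 0 + Finsupp.single k 1 := by rw [h, zero_add]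
            exact add_right_cancel this
          exact h0 h3
        rw [if_neg h2]
        unfold tay
        rw [h1, ChartTay_dd_one c α' h0]
        simp
    · rw [if_neg hkl] at h1
      have h2 : α ≠ Finsupp.single l 1 := by
        intro h
        rw [h] at hk
        rw [Finsupp.single_eq_of_ne hkl] at hk
        exact hk rfl
      rw [if_neg h2]
      unfold tay
      rw [h1]
      simp

/-- Taylor coefficients of a power of `y - y(x)`: if `x : B → K`, then
`tay x α (∏ (y_l - p_l)^{β_l})` is `1` for `α = β` and `0` for `α.degree ≤ β.degree`, `α ≠ β`,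
where `p_l ∈ ℂ`; more generally with values in `K` the elements live in `K ⊗ B`. Here is the
form used: for `p : Fin n → ℂ` with `x (y l) = p l`. -/
theorem tay_monomial (x : c.B →ₐ[ℂ] ℂ) (α β : Fin n →₀ ℕ) :
    c.tay x α (∏ l, (c.y l - algebraMap ℂ c.B (x (c.y l))) ^ (β l)) = if α = β then 1 else 0 := by
  classical
  obtain ⟨T, hT⟩ := c.exists_taylor x
  have hX : ∀ l, T (c.y l - algebraMap ℂ c.B (x (c.y l))) = MvPowerSeries.X l := by
    intro l
    ext γ
    rw [hT, ChartTay_coord c x γ l, MvPowerSeries.coeff_X]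
  rw [← hT, map_prod]
  have h1 : ∏ l, T ((c.y l - algebraMap ℂ c.B (x (c.y l))) ^ (β l)) =
      MvPowerSeries.monomial β (1 : ℂ) := by
    rw [MvPowerSeries.monomial_one_eq, Finsupp.prod_fintype _ _ (fun i => pow_zero _)]
    refine Finset.prod_congr rfl fun l _ => ?_
    rw [map_pow, hX]
  rw [h1, MvPowerSeries.coeff_monomial]

/-- the Euler derivation at the point `x` -/
private noncomputable def ChartTay_eu (x : c.B →ₐ[ℂ] ℂ) : Derivation ℂ c.B c.B :=
  ∑ l, (c.y l - algebraMap ℂ c.B (x (c.y l))) • c.der l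

private theorem ChartTay_eu_apply (x : c.B →ₐ[ℂ] ℂ) (b : c.B) :
    ChartTay_eu c x b = ∑ l, (c.y l - algebraMap ℂ c.B (x (c.y l))) * c.der l b := by
  unfold ChartTay_eu
  have h : ∀ s : Finset (Fin n),
      (∑ l ∈ s, (c.y l - algebraMap ℂ c.B (x (c.y l))) • c.der l) b =
        ∑ l ∈ s, (c.y l - algebraMap ℂ c.B (x (c.y l))) * c.der l b := by
    intro s
    classical
    induction s using Finset.induction_on with
    | empty => simp
    | insert a s ha ih =>
      rw [Finset.sum_insert ha, Finset.sum_insert ha, Derivation.add_apply, ih,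
        Derivation.smul_apply, smul_eq_mul]
  exact h Finset.univ

private theorem ChartTay_y_mem (x : c.B →ₐ[ℂ] ℂ) (b : c.B) :
    b - algebraMap ℂ c.B (x b) ∈ RingHom.ker x.toRingHom := by
  rw [RingHom.mem_ker]
  change x (b - algebraMap ℂ c.B (x b)) = 0
  rw [map_sub, AlgHom.commutes]
  simp

/-- modulo the square of the maximal ideal -/
private theorem ChartTay_sq (x : c.B →ₐ[ℂ] ℂ) (b : c.B) (hb : b ∈ RingHom.ker x.toRingHom) :
    ChartTay_eu c x b - b ∈ RingHom.ker x.toRingHom ^ 2 := by
  set m : Ideal c.B := RingHom.ker x.toRingHom with hm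
  let D : Derivation ℂ c.B (c.B ⧸ m ^ 2) :=
    { toFun := fun b => Ideal.Quotient.mk (m ^ 2) (b - algebraMap ℂ c.B (x b))
      map_add' := fun a b => by
        rw [map_add, map_add, ← map_add (Ideal.Quotient.mk (m ^ 2))]
        congr 1
        ring
      map_smul' := fun z b => by
        rw [RingHom.id_apply, map_smul, smul_eq_mul, map_mul]
        have h1 : z • b - algebraMap ℂ c.B z * algebraMap ℂ c.B (x b) =
            z • (b - algebraMap ℂ c.B (x b)) := by
          rw [smul_sub, Algebra.smul_def, Algebra.smul_def]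
        rw [h1]
        rfl
      map_one_eq_zero' := by
        change Ideal.Quotient.mk (m ^ 2) (1 - algebraMap ℂ c.B (x 1)) = 0
        rw [map_one, map_one, sub_self, map_zero]
      leibniz' := fun a b => by
        change Ideal.Quotient.mk (m ^ 2) (a * b - algebraMap ℂ c.B (x (a * b))) =
          a • Ideal.Quotient.mk (m ^ 2) (b - algebraMap ℂ c.B (x b)) +
          b • Ideal.Quotient.mk (m ^ 2) (a - algebraMap ℂ c.B (x a))
        rw [Algebra.smul_def, Algebra.smul_def, Ideal.Quotient.algebraMap_eq, ← map_mul,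
          ← map_mul, ← map_add, Ideal.Quotient.eq, map_mul, map_mul]
        have h1 : a * b - algebraMap ℂ c.B (x a) * algebraMap ℂ c.B (x b) -
            (a * (b - algebraMap ℂ c.B (x b)) + b * (a - algebraMap ℂ c.B (x a))) =
            -((a - algebraMap ℂ c.B (x a)) * (b - algebraMap ℂ c.B (x b))) := by ring
        rw [h1, pow_two]
        exact neg_mem (Ideal.mul_mem_mul (ChartTay_y_mem c x a) (ChartTay_y_mem c x b)) }
  have h := c.der_eq D b
  have h1 : D b = Ideal.Quotient.mk (m ^ 2) b := by
    change Ideal.Quotient.mk (m ^ 2) (b - algebraMap ℂ c.B (x b)) = _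
    have h2 : x b = 0 := hb
    rw [h2, map_zero, sub_zero]
  have h2 : ∑ l, c.der l b • D (c.y l) = Ideal.Quotient.mk (m ^ 2) (ChartTay_eu c x b) := by
    rw [ChartTay_eu_apply, map_sum]
    refine Finset.sum_congr rfl fun l _ => ?_
    change c.der l b • Ideal.Quotient.mk (m ^ 2) (c.y l - algebraMap ℂ c.B (x (c.y l))) = _
    rw [Algebra.smul_def, Ideal.Quotient.algebraMap_eq, ← map_mul, mul_comm]
  rw [h1, h2] at h
  exact (Ideal.Quotient.eq.1 h.symm)

private theorem ChartTay_eu_pow (x : c.B →ₐ[ℂ] ℂ) (k : ℕ) : ∀ b ∈ RingHom.ker x.toRingHom ^ k,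
    ChartTay_eu c x b - (k : c.B) * b ∈ RingHom.ker x.toRingHom ^ (k + 1) := by
  induction k with
  | zero =>
    intro b _
    rw [Nat.cast_zero, zero_mul, sub_zero, zero_add, pow_one, ChartTay_eu_apply]
    exact Ideal.sum_mem _ fun l _ => Ideal.mul_mem_right _ _ (ChartTay_y_mem c x (c.y l))
  | succ k ih =>
    intro b hb
    rw [pow_succ] at hb
    refine Submodule.mul_induction_on hb ?_ ?_
    · intro u hu v hv
      have h1 := ih u hu
      have h2 := ChartTay_sq c x v hv
      have h3 : ChartTay_eu c x (u * v) - ((k + 1 : ℕ) : c.B) * (u * v) =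
          u * (ChartTay_eu c x v - v) + (ChartTay_eu c x u - (k : c.B) * u) * v := by
        rw [Derivation.leibniz, smul_eq_mul, smul_eq_mul]
        push_cast
        ring
      rw [h3]
      refine Ideal.add_mem _ ?_ ?_
      · have h4 : RingHom.ker x.toRingHom ^ (k + 1 + 1) =
            RingHom.ker x.toRingHom ^ k * RingHom.ker x.toRingHom ^ 2 := by
          rw [← pow_add]
        rw [h4]
        exact Ideal.mul_mem_mul hu h2
      · rw [pow_succ (RingHom.ker x.toRingHom) (k + 1)]
        exact Ideal.mul_mem_mul h1 hv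
    · intro u v hu hv
      have h3 : ChartTay_eu c x (u + v) - ((k + 1 : ℕ) : c.B) * (u + v) =
          (ChartTay_eu c x u - ((k + 1 : ℕ) : c.B) * u) +
          (ChartTay_eu c x v - ((k + 1 : ℕ) : c.B) * v) := by
        rw [map_add]
        ring
      rw [h3]
      exact Ideal.add_mem _ hu hv

private theorem ChartTay_mem_pow (x : c.B →ₐ[ℂ] ℂ) (k : ℕ) : ∀ b : c.B,
    (∀ α, x (c.dd α b) = 0) → b ∈ RingHom.ker x.toRingHom ^ k := by
  induction k with
  | zero =>
    intro b _
    simp
  | succ k ih =>
    intro b hb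
    rcases Nat.eq_zero_or_pos k with hk | hk
    · subst hk
      rw [zero_add, pow_one]
      have h1 := hb 0
      rw [c.dd_zero] at h1
      exact h1
    · have hder : ∀ l, c.der l b ∈ RingHom.ker x.toRingHom ^ k := by
        intro l
        refine ih _ fun α => ?_
        rw [← c.dd_add_single]
        exact hb _
      have heu : ChartTay_eu c x b ∈ RingHom.ker x.toRingHom ^ (k + 1) := by
        rw [ChartTay_eu_apply]
        refine Ideal.sum_mem _ fun l _ => ?_
        rw [pow_succ, mul_comm (RingHom.ker x.toRingHom ^ k)]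
        exact Ideal.mul_mem_mul (ChartTay_y_mem c x (c.y l)) (hder l)
      have h1 := ChartTay_eu_pow c x k b (ih b hb)
      have h2 : (k : c.B) * b ∈ RingHom.ker x.toRingHom ^ (k + 1) := by
        have h3 : (k : c.B) * b = ChartTay_eu c x b - (ChartTay_eu c x b - (k : c.B) * b) := by
          ring
        rw [h3]
        exact Ideal.sub_mem _ heu h1
      have hk0 : (k : ℂ) ≠ 0 := by
        exact_mod_cast hk.ne'
      have h4 : b = algebraMap ℂ c.B ((k : ℂ)⁻¹) * ((k : c.B) * b) := by
        have h5 : (k : c.B) = algebraMap ℂ c.B (k : ℂ) := by simp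
        rw [← mul_assoc, h5, ← map_mul, inv_mul_cancel₀ hk0, map_one, one_mul]
      rw [h4]
      exact Ideal.mul_mem_left _ _ h2

/-- G02: a function all of whose Taylor coefficients at a `ℂ`-point vanish is zero. -/
theorem eq_zero_of_tay (x : c.B →ₐ[ℂ] ℂ) (b : c.B) (h : ∀ α, c.tay x α b = 0) : b = 0 := by
  haveI : IsNoetherianRing c.B := Algebra.FiniteType.isNoetherianRing ℂ c.B
  have h1 : ∀ α, x (c.dd α b) = 0 := by
    intro α
    have h2 := h α
    unfold tay at h2
    have h3 : algebraMap ℂ ℂ (∏ l, ((α l).factorial : ℂ))⁻¹ ≠ 0 := by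
      rw [Algebra.algebraMap_self, RingHom.id_apply]
      refine inv_ne_zero (Finset.prod_ne_zero_iff.2 fun l _ => ?_)
      exact_mod_cast Nat.factorial_ne_zero _
    exact (mul_eq_zero.1 h2).resolve_left h3
  have h2 : b ∈ ⨅ k : ℕ, RingHom.ker x.toRingHom ^ k := by
    rw [Submodule.mem_iInf]
    exact fun k => ChartTay_mem_pow c x k b h1
  have hne : RingHom.ker x.toRingHom ≠ ⊤ := RingHom.ker_ne_top _
  rw [Ideal.iInf_pow_eq_bot_of_isDomain _ hne] at h2
  exact h2

end Pool.Agent.Lib_GD.Chart
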