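import Pool.Agent.Lib_GD.ChartPoint
import Pool.Agent.Lib_GD.ChartTay

/-! J07b: injectivity of generic arcs. -/

open PowerSeries

namespace Pool.Agent.Lib_GD

variable {R : Type} [CommRing R] [Algebra ℂ R] {𝒜 : ℕ → Submodule ℂ R} {n : ℕ}

/-- Nullstellensatz: a proper ideal of a finitely generated algebra vanishes at a point. -/
private theorem ArcInj_point {B : Type} [CommRing B] [Algebra ℂ B] [Algebra.FiniteType ℂ B]
    (I : Ideal B) (hI : I ≠ ⊤) : ∃ ψ : B →ₐ[ℂ] ℂ, ∀ b ∈ I, ψ b = 0 := by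
  obtain ⟨M, hM, hle⟩ := I.exists_le_maximal hI
  let _ : Field (B ⧸ M) := Ideal.Quotient.field M
  have : Algebra.FiniteType ℂ (B ⧸ M) :=
    Algebra.FiniteType.of_surjective (Ideal.Quotient.mkₐ ℂ M) (Ideal.Quotient.mkₐ_surjective ℂ M)
  have : Module.Finite ℂ (B ⧸ M) := finite_of_finite_type_of_isJacobsonRing ℂ (B ⧸ M)
  have hbij : Function.Bijective (algebraMap ℂ (B ⧸ M)) :=
    IsAlgClosed.algebraMap_bijective_of_isIntegral
  let e : ℂ ≃ₐ[ℂ] (B ⧸ M) := AlgEquiv.ofBijective (Algebra.ofId ℂ (B ⧸ M)) hbij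
  refine ⟨(e.symm : (B ⧸ M) →ₐ[ℂ] ℂ).comp (Ideal.Quotient.mkₐ ℂ M), fun b hb => ?_⟩
  have h1 : Ideal.Quotient.mkₐ ℂ M b = 0 := by
    rw [Ideal.Quotient.mkₐ_eq_mk]
    exact Ideal.Quotient.eq_zero_iff_mem.2 (hle hb)
  rw [AlgHom.comp_apply, h1, map_zero]

/-- The kernel of the arc is stable under the coordinate derivations. -/
private theorem ArcInj_der (c : Chart 𝒜 n) {L : Type} [Field L] [Algebra ℂ L]
    (x : c.B →ₐ[ℂ] L⟦X⟧) (k : ℕ)
    (h : ∀ v : Fin n → L⟦X⟧, (∀ l, X ^ k ∣ v l) →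
        ∃ δ : Derivation ℂ L L, ∀ l, hat δ (x (c.y l)) = v l) (b : c.B) (hb : x b = 0) (l : Fin n) :
    x (c.der l b) = 0 := by
  classical
  obtain ⟨δ, hδ⟩ := h (fun l' => if l' = l then X ^ k else 0) (by
    intro l'
    by_cases hl : l' = l
    · simp [hl]
    · simp [hl])
  have h1 := c.hat_arc x δ b
  have h2 : hat δ (x b) = 0 := by
    rw [hb]
    ext m
    simp [hat]
  rw [h2] at h1
  have h3 : ∑ l', x (c.der l' b) * hat δ (x (c.y l')) = x (c.der l b) * X ^ k := by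
    rw [Finset.sum_eq_single l]
    · rw [hδ l, if_pos rfl]
    · intro l' _ hl'
      rw [hδ l', if_neg hl', mul_zero]
    · intro hl
      exact absurd (Finset.mem_univ l) hl
  rw [h3] at h1
  have h4 := mul_eq_zero.1 h1.symm
  rcases h4 with h4 | h4
  · exact h4
  · exact absurd h4 (pow_ne_zero k X_ne_zero)

/-- The kernel of the arc is stable under the iterated derivations. -/
private theorem ArcInj_dd (c : Chart 𝒜 n) {L : Type} [Field L] [Algebra ℂ L]
    (x : c.B →ₐ[ℂ] L⟦X⟧) (k : ℕ)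
    (h : ∀ v : Fin n → L⟦X⟧, (∀ l, X ^ k ∣ v l) →
        ∃ δ : Derivation ℂ L L, ∀ l, hat δ (x (c.y l)) = v l) (α : Fin n →₀ ℕ) (b : c.B)
    (hb : x b = 0) : x (c.dd α b) = 0 := by
  have hpow : ∀ (l : Fin n) (m : ℕ) (b : c.B), x b = 0 →
      x ((((c.der l : c.B →ₗ[ℂ] c.B) : Module.End ℂ c.B) ^ m) b) = 0 := by
    intro l m
    induction m with
    | zero => intro b hb; simpa using hb
    | succ m ih =>
      intro b hb
      rw [pow_succ, Module.End.mul_apply]
      exact ih _ (ArcInj_der c x k h b hb l)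
  have hlist : ∀ (t : List (Fin n)) (b : c.B), x b = 0 →
      x ((t.map fun l => ((c.der l : c.B →ₗ[ℂ] c.B) : Module.End ℂ c.B) ^ (α l)).prod b) = 0 := by
    intro t
    induction t with
    | nil => intro b hb; simpa using hb
    | cons a t ih =>
      intro b hb
      rw [List.map_cons, List.prod_cons, Module.End.mul_apply]
      exact hpow a (α a) _ (ih b hb)
  exact hlist _ b hb

/-- J07b: injectivity of an arc whose coordinates can be moved by all `v ∈ X ^ k O^n`. -/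
theorem Chart.arc_injective (c : Chart 𝒜 n) {L : Type} [Field L] [Algebra ℂ L]
    (x : c.B →ₐ[ℂ] L⟦X⟧) (k : ℕ)
    (h : ∀ v : Fin n → L⟦X⟧, (∀ l, X ^ k ∣ v l) →
        ∃ δ : Derivation ℂ L L, ∀ l, hat δ (x (c.y l)) = v l) : Function.Injective x := by
  rw [injective_iff_map_eq_zero]
  intro b hb
  obtain ⟨ψ, hψ⟩ := ArcInj_point (RingHom.ker x.toRingHom) (by
    intro htop
    have h1 : (1 : c.B) ∈ RingHom.ker x.toRingHom := by rw [htop]; trivial
    rw [RingHom.mem_ker] at h1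
    have h2 : x 1 = 0 := h1
    rw [map_one] at h2
    exact one_ne_zero h2)
  apply c.eq_zero_of_tay ψ b
  intro α
  unfold Chart.tay
  rw [hψ (c.dd α b) (by
    rw [RingHom.mem_ker]
    exact ArcInj_dd c x k h α b hb), mul_zero]

end Pool.Agent.Lib_GD
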