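import Mathlib

/-! J07a: divisorial valuation rings are essentially of finite type. -/

namespace Pool.Agent.Lib_GD

open IsLocalRing in
/-- A discrete valuation ring dominating a Dedekind domain, with finite separable extension of
fraction fields, is essentially of finite type over it. -/
private theorem EssRes_step (W V K L : Type) [CommRing W] [IsDedekindDomain W]
    [CommRing V] [IsDomain V] [IsDiscreteValuationRing V] [Field K] [Field L]
    [Algebra W V] [Algebra V K] [Algebra W K] [IsScalarTower W V K] [IsFractionRing V K]
    [Algebra W L] [IsFractionRing W L] [Algebra L K] [IsScalarTower W L K]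
    [FiniteDimensional L K] [Algebra.IsSeparable L K]
    (t : W) (ht0 : t ≠ 0) (ht : algebraMap W V t ∈ maximalIdeal V) :
    Algebra.EssFiniteType W V := by
  classical
  have hVK : Function.Injective (algebraMap V K) := IsFractionRing.injective V K
  have hfin : Module.Finite W (integralClosure W K) :=
    IsIntegralClosure.finite W L K (integralClosure W K)
  have hded : IsDedekindDomain (integralClosure W K) := integralClosure.isDedekindDomain W L K
  have hfrac : IsFractionRing (integralClosure W K) K :=
    integralClosure.isFractionRing_of_finite_extension L K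
  let ι : V →ₐ[W] K := IsScalarTower.toAlgHom W V K
  have hι : Function.Injective ι := hVK
  have hW'V : integralClosure W K ≤ ι.range := by
    intro x hx
    have hx' : IsIntegral V x := IsIntegral.tower_top (show IsIntegral W x from hx)
    obtain ⟨v, hv⟩ := IsIntegrallyClosed.isIntegral_iff.1 hx'
    exact ⟨v, hv⟩
  let f : integralClosure W K →ₐ[W] V :=
    ((AlgEquiv.ofInjective ι hι).symm.toAlgHom).comp (Subalgebra.inclusion hW'V)
  have hf : ∀ x : integralClosure W K, algebraMap V K (f x) = x := by
    intro x
    have h1 : (AlgEquiv.ofInjective ι hι) (f x) = Subalgebra.inclusion hW'V x :=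
      AlgEquiv.apply_symm_apply _ _
    have h2 := congrArg (fun y : ι.range => (y : K)) h1
    exact h2
  let : Algebra (integralClosure W K) V := f.toRingHom.toAlgebra
  have : IsScalarTower W (integralClosure W K) V :=
    IsScalarTower.of_algebraMap_eq' (AlgHom.comp_algebraMap f).symm
  have hEss : Algebra.EssFiniteType (integralClosure W K) V := by
    rw [Algebra.essFiniteType_iff]
    refine ⟨∅, fun v => ?_⟩
    simp only [Finset.coe_empty, Algebra.adjoin_empty, Algebra.mem_bot, Set.mem_range,
      exists_exists_eq_and]
    let q : Ideal (integralClosure W K) := (maximalIdeal V).comap f.toRingHom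
    have hqp : q.IsPrime := Ideal.comap_isPrime _ _
    have hq0 : q ≠ ⊥ := by
      intro h0
      have h1 : algebraMap W (integralClosure W K) t ∈ q := by
        change f (algebraMap W (integralClosure W K) t) ∈ maximalIdeal V
        rw [AlgHom.commutes]
        exact ht
      rw [h0, Ideal.mem_bot] at h1
      have h2 : algebraMap W K t = 0 := by
        have := congrArg (fun y : integralClosure W K => (y : K)) h1
        exact this
      have h3 : Function.Injective (algebraMap W K) := by
        rw [IsScalarTower.algebraMap_eq W L K]
        exact (algebraMap L K).injective.comp (IsFractionRing.injective W L)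
      exact ht0 (h3 (by rw [h2, map_zero]))
    have hdvr : IsDiscreteValuationRing (Localization.AtPrime q) :=
      IsLocalization.AtPrime.isDiscreteValuationRing_of_dedekind_domain (integralClosure W K)
        hq0 (Localization.AtPrime q)
    have hαi : Function.Injective
        (algebraMap (integralClosure W K) (Localization.AtPrime q)) :=
      IsLocalization.injective (Localization.AtPrime q) q.primeCompl_le_nonZeroDivisors
    have hunit : ∀ s : integralClosure W K, s ∉ q → IsUnit (f s) := by
      intro s hs
      by_contra hcon
      exact hs ((mem_maximalIdeal _).2 hcon)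
    obtain ⟨a, b, hb, hab⟩ := IsFractionRing.div_surjective (A := integralClosure W K)
      (algebraMap V K v)
    have hb0 : b ≠ 0 := nonZeroDivisors.ne_zero hb
    have hbK : algebraMap (integralClosure W K) K b ≠ 0 := by
      intro h0
      exact hb0 ((IsFractionRing.injective (integralClosure W K) K) (by rw [h0, map_zero]))
    have hvb : v * f b = f a := by
      apply hVK
      rw [map_mul, hf, hf, ← hab]
      exact div_mul_cancel₀ _ hbK
    have hfb0 : f b ≠ 0 := by
      intro h0
      apply hbK
      have := hf b
      rw [h0, map_zero] at this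
      exact this.symm
    obtain ⟨c, hc⟩ := ValuationRing.cond
      (algebraMap (integralClosure W K) (Localization.AtPrime q) a)
      (algebraMap (integralClosure W K) (Localization.AtPrime q) b)
    obtain ⟨⟨d, s⟩, hds⟩ := IsLocalization.surj q.primeCompl c
    have hs : IsUnit (f s) := hunit s s.2
    dsimp only at hds
    rcases hc with hc | hc
    · have h1 : a * d = b * s := by
        apply hαi
        rw [map_mul, map_mul, ← hds, ← hc]
        ring
      have h2 : v * f d = f s := by
        have h3 := congrArg f h1
        rw [map_mul, map_mul, ← hvb] at h3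
        apply mul_left_cancel₀ hfb0
        rw [← h3]
        ring
      refine ⟨d, ?_, s, h2.symm⟩
      change IsUnit (f d)
      rw [← h2] at hs
      exact isUnit_of_mul_isUnit_right hs
    · have h1 : b * d = a * s := by
        apply hαi
        rw [map_mul, map_mul, ← hds, ← hc]
        ring
      have h2 : v * f s = f d := by
        have h3 := congrArg f h1
        rw [map_mul, map_mul, ← hvb] at h3
        apply mul_left_cancel₀ hfb0
        rw [h3]
        ring
      exact ⟨s, hs, d, h2.symm⟩
  exact Algebra.EssFiniteType.comp W (integralClosure W K) V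

section base

open IsLocalRing

variable {V : Type} [CommRing V] [IsDomain V] [IsDiscreteValuationRing V] [Algebra ℂ V] {m : ℕ}
  {w : Fin m → V} (hw : AlgebraicIndependent ℂ (fun i => IsLocalRing.residue V (w i)))

include hw in
private theorem EssRes_zero {b : V} (hb : b ∈ Algebra.adjoin ℂ (Set.range w))
    (hbm : b ∈ maximalIdeal V) : b = 0 := by
  rw [Algebra.adjoin_range_eq_range_aeval] at hb
  obtain ⟨f, rfl⟩ := hb
  have h1 : MvPolynomial.aeval (fun i => residue V (w i)) f =
      residue V (MvPolynomial.aeval w f) :=
    MvPolynomial.aeval_algebraMap_apply (B := ResidueField V) w f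
  have h2 : MvPolynomial.aeval (fun i => residue V (w i)) f = 0 := by
    rw [h1]
    exact (residue_eq_zero_iff _).2 hbm
  have h3 := hw.eq_zero_of_aeval_eq_zero f h2
  change MvPolynomial.aeval w f = 0
  rw [h3, map_zero]

include hw in
private theorem EssRes_transc {t : V} (ht0 : t ≠ 0) (htm : t ∈ maximalIdeal V) :
    Transcendental (Algebra.adjoin ℂ (Set.range w)) t := by
  rw [transcendental_iff]
  have key : ∀ (N : ℕ) (p : Polynomial (Algebra.adjoin ℂ (Set.range w))), p.natDegree ≤ N →
      Polynomial.aeval t p = 0 → p = 0 := by
    intro N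
    induction N with
    | zero =>
      intro p hp h
      have h1 := Polynomial.eq_C_of_natDegree_le_zero hp
      rw [h1, Polynomial.aeval_C] at h
      have h2 : p.coeff 0 = 0 := Subtype.ext h
      rw [h1, h2, map_zero]
    | succ N ih =>
      intro p hp h
      have h1 := Polynomial.divX_mul_X_add p
      have h2 : Polynomial.aeval t p.divX * t + ((p.coeff 0 : Algebra.adjoin ℂ (Set.range w)) : V)
          = 0 := by
        have h3 := congrArg (Polynomial.aeval t) h1
        rw [map_add, map_mul, Polynomial.aeval_X, Polynomial.aeval_C, h] at h3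
        exact h3
      have h3 : ((p.coeff 0 : Algebra.adjoin ℂ (Set.range w)) : V) = 0 := by
        refine EssRes_zero hw (p.coeff 0).2 ?_
        have h4 : ((p.coeff 0 : Algebra.adjoin ℂ (Set.range w)) : V) =
            -(Polynomial.aeval t p.divX) * t := by linear_combination h2
        rw [h4]
        exact Ideal.mul_mem_left _ _ htm
      rw [h3, add_zero] at h2
      have h4 : Polynomial.aeval t p.divX = 0 := by
        rcases mul_eq_zero.1 h2 with h | h
        · exact h
        · exact absurd h ht0
      have h5 : p.divX = 0 := by
        apply ih _ _ h4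
        rw [Polynomial.natDegree_divX_eq_natDegree_tsub_one]
        omega
      have h6 : p.coeff 0 = 0 := Subtype.ext h3
      rw [← h1, h5, h6, zero_mul, map_zero, add_zero]
  intro p hp
  exact key p.natDegree p le_rfl hp

omit [IsDomain V] [IsDiscreteValuationRing V] in
private theorem EssRes_split (w : Fin m → V) (t : V) {r : V}
    (hr : r ∈ Algebra.adjoin ℂ (Set.range (fun o : Option (Fin m) => o.elim t w))) :
    ∃ b ∈ Algebra.adjoin ℂ (Set.range w), ∃ r' ∈ Algebra.adjoin ℂ
      (Set.range (fun o : Option (Fin m) => o.elim t w)), r = b + r' * t := by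
  have hsub : Algebra.adjoin ℂ (Set.range w) ≤
      Algebra.adjoin ℂ (Set.range (fun o : Option (Fin m) => o.elim t w)) := by
    apply Algebra.adjoin_mono
    rintro _ ⟨i, rfl⟩
    exact ⟨some i, rfl⟩
  have ht : t ∈ Algebra.adjoin ℂ (Set.range (fun o : Option (Fin m) => o.elim t w)) :=
    Algebra.subset_adjoin ⟨none, rfl⟩
  refine Algebra.adjoin_induction ?_ ?_ ?_ ?_ hr
  · rintro _ ⟨o, rfl⟩
    rcases o with _ | i
    · exact ⟨0, zero_mem _, 1, one_mem _, by simp⟩
    · exact ⟨w i, Algebra.subset_adjoin ⟨i, rfl⟩, 0, zero_mem _, by simp⟩
  · intro c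
    exact ⟨algebraMap ℂ V c, algebraMap_mem _ c, 0, zero_mem _, by simp⟩
  · rintro x y - - ⟨b, hb, r, hr, rfl⟩ ⟨b', hb', r', hr', rfl⟩
    exact ⟨b + b', add_mem hb hb', r + r', add_mem hr hr', by ring⟩
  · rintro x y - - ⟨b, hb, r, hr, rfl⟩ ⟨b', hb', r', hr', rfl⟩
    refine ⟨b * b', mul_mem hb hb', r * b' + b * r' + r * r' * t, ?_, by ring⟩
    exact add_mem (add_mem (mul_mem hr (hsub hb')) (mul_mem (hsub hb) hr'))
      (mul_mem (mul_mem hr hr') ht)

end base

/-- The same with the finiteness deduced from algebraicity. -/
private theorem EssRes_mid (V K R W : Type) [CommRing V] [IsDomain V] [IsDiscreteValuationRing V]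
    [Field K] [Algebra V K] [IsFractionRing V K] [Algebra ℂ V] [Algebra ℂ K]
    [IsScalarTower ℂ V K] [CommRing R] [Algebra R V] [CommRing W] [IsDomain W]
    [IsDiscreteValuationRing W] [Algebra ℂ W] [Algebra R W] [Algebra W V] [IsScalarTower R W V]
    [IsScalarTower ℂ W V] (hWV : Function.Injective (algebraMap W V))
    (hRV : Function.Injective (algebraMap R V))
    (hess : Algebra.EssFiniteType ℂ K) (halg : Algebra.IsAlgebraic R V)
    (t : W) (ht0 : t ≠ 0) (ht : algebraMap W V t ∈ IsLocalRing.maximalIdeal V) :
    Algebra.EssFiniteType W V := by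
  classical
  let : Algebra W K := ((algebraMap V K).comp (algebraMap W V)).toAlgebra
  have hst : IsScalarTower W V K := IsScalarTower.of_algebraMap_eq' rfl
  have hVK : Function.Injective (algebraMap V K) := IsFractionRing.injective V K
  have hWK : Function.Injective (algebraMap W K) := by
    rw [IsScalarTower.algebraMap_eq W V K]
    exact hVK.comp hWV
  have hfs : FaithfulSMul W K := (faithfulSMul_iff_algebraMap_injective _ _).2 hWK
  let : Algebra (FractionRing W) K := FractionRing.liftAlgebra W K
  have hst3 : IsScalarTower W (FractionRing W) K := FractionRing.isScalarTower_liftAlgebra W K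
  have hst5 : IsScalarTower ℂ W K := by
    apply IsScalarTower.of_algebraMap_eq
    intro c
    rw [IsScalarTower.algebraMap_apply W V K, ← IsScalarTower.algebraMap_apply ℂ W V,
      ← IsScalarTower.algebraMap_apply ℂ V K]
  have hst4 : IsScalarTower ℂ (FractionRing W) K := by
    apply IsScalarTower.of_algebraMap_eq
    intro c
    rw [IsScalarTower.algebraMap_apply ℂ W (FractionRing W),
      ← IsScalarTower.algebraMap_apply W (FractionRing W) K,
      ← IsScalarTower.algebraMap_apply ℂ W K]
  have hess3 : Algebra.EssFiniteType (FractionRing W) K := Algebra.EssFiniteType.of_comp ℂ _ _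
  have halg2 : Algebra.IsAlgebraic (FractionRing W) K := by
    have h1 : Algebra.IsAlgebraic W V := by
      constructor
      intro x
      obtain ⟨P, hP0, hP⟩ := halg.isAlgebraic x
      refine ⟨P.map (algebraMap R W), ?_, ?_⟩
      · intro h
        apply hP0
        have hRW : Function.Injective (algebraMap R W) := by
          intro a b hab
          apply hRV
          rw [IsScalarTower.algebraMap_apply R W V, hab, ← IsScalarTower.algebraMap_apply R W V]
        exact Polynomial.map_injective _ hRW (by rw [h, Polynomial.map_zero])
      · rw [Polynomial.aeval_map_algebraMap]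
        exact hP
    have h2 : Algebra.IsAlgebraic V K := IsLocalization.isAlgebraic K (nonZeroDivisors V)
    have h3 : Algebra.IsAlgebraic W K := Algebra.IsAlgebraic.trans W V K
    exact Algebra.IsAlgebraic.extendScalars (R := W) (IsFractionRing.injective W (FractionRing W))
  have hfin : Module.Finite (FractionRing W) K :=
    Algebra.finite_of_essFiniteType_of_isAlgebraic
  have hchar : CharZero (FractionRing W) := by
    have : Algebra ℂ (FractionRing W) := inferInstance
    exact charZero_of_injective_algebraMap (algebraMap ℂ (FractionRing W)).injective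
  exact EssRes_step W V K (FractionRing W) t ht0 ht

/-- J07a: let `V` be a domain over `ℂ` with fraction field of transcendence degree `n`, which is
a discrete valuation ring, and whose residue field has transcendence degree at least `n - 1`.
Then `V` is essentially of finite type over `ℂ`, if its fraction field is a finitely generated
field extension of `ℂ`. -/
theorem essFiniteType_of_residue (V : Type) [CommRing V] [IsDomain V]
    [IsDiscreteValuationRing V] [Algebra ℂ V] (n : ℕ) (hn : 1 ≤ n)
    (hV : Algebra.trdeg ℂ V = n) (hfg : Algebra.EssFiniteType ℂ (FractionRing V))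
    (w : Fin (n - 1) → V)
    (hw : AlgebraicIndependent ℂ (fun i => IsLocalRing.residue V (w i))) :
    Algebra.EssFiniteType ℂ V := by
  classical
  obtain ⟨t, htirr⟩ := IsDiscreteValuationRing.exists_irreducible V
  have ht0 : t ≠ 0 := htirr.ne_zero
  have htm : t ∈ IsLocalRing.maximalIdeal V :=
    (IsLocalRing.mem_maximalIdeal _).2 htirr.not_isUnit
  have hw1 : AlgebraicIndependent ℂ w :=
    AlgebraicIndependent.of_comp
      (IsScalarTower.toAlgHom ℂ V (IsLocalRing.ResidueField V)) hw
  have hx := (hw1.option_iff_transcendental t).2 (EssRes_transc hw ht0 htm)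
  have hbasis : IsTranscendenceBasis ℂ (fun o : Option (Fin (n - 1)) => o.elim t w) := by
    refine hx.isTranscendenceBasis_of_trdeg_le_of_finite ?_
    rw [hV]
    simp only [Cardinal.mk_fintype, Fintype.card_option, Fintype.card_fin]
    rw [Nat.sub_add_cancel hn]
  have halg : Algebra.IsAlgebraic
      (Algebra.adjoin ℂ (Set.range (fun o : Option (Fin (n - 1)) => o.elim t w))) V :=
    hbasis.isAlgebraic
  have hsplit := fun r (hr : r ∈ Algebra.adjoin ℂ
    (Set.range (fun o : Option (Fin (n - 1)) => o.elim t w))) => EssRes_split w t hr
  have htR : t ∈ Algebra.adjoin ℂ (Set.range (fun o : Option (Fin (n - 1)) => o.elim t w)) :=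
    Algebra.subset_adjoin ⟨none, rfl⟩
  have hsub : Algebra.adjoin ℂ (Set.range w) ≤
      Algebra.adjoin ℂ (Set.range (fun o : Option (Fin (n - 1)) => o.elim t w)) := by
    apply Algebra.adjoin_mono
    rintro _ ⟨i, rfl⟩
    exact ⟨some i, rfl⟩
  have hft : Algebra.FiniteType ℂ
      (Algebra.adjoin ℂ (Set.range (fun o : Option (Fin (n - 1)) => o.elim t w))) :=
    (Subalgebra.fg_iff_finiteType _).1 (Subalgebra.fg_def.2 ⟨_, Set.finite_range _, rfl⟩)
  generalize Algebra.adjoin ℂ (Set.range (fun o : Option (Fin (n - 1)) => o.elim t w)) = R0
    at halg hsplit htR hft hsub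
  clear hx hbasis
  have hnoeth : IsNoetherianRing R0 := Algebra.FiniteType.isNoetherianRing ℂ R0
  let p : Ideal R0 := (IsLocalRing.maximalIdeal V).comap (algebraMap R0 V)
  have hpp : p.IsPrime := Ideal.comap_isPrime _ _
  let t0 : R0 := ⟨t, htR⟩
  have ht00 : t0 ≠ 0 := fun h => ht0 (congrArg Subtype.val h)
  have hpt : p = Ideal.span {t0} := by
    apply le_antisymm
    · intro r hr
      obtain ⟨b, hb, r', hr', hrb⟩ := hsplit r.1 r.2
      have hr2 : (r : V) ∈ IsLocalRing.maximalIdeal V := hr
      have hbm : b ∈ IsLocalRing.maximalIdeal V := by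
        have h1 : b = (r : V) - r' * t := by linear_combination -hrb
        rw [h1]
        exact Ideal.sub_mem _ hr2 (Ideal.mul_mem_left _ _ htm)
      have hb0 := EssRes_zero hw hb hbm
      rw [Ideal.mem_span_singleton']
      refine ⟨⟨r', hr'⟩, Subtype.ext ?_⟩
      change r' * t = (r : V)
      rw [hrb, hb0, zero_add]
    · rw [Ideal.span_singleton_le_iff_mem]
      exact htm
  have hWdom : IsDomain (Localization.AtPrime p) :=
    IsLocalization.isDomain_localization p.primeCompl_le_nonZeroDivisors
  have hWnoeth : IsNoetherianRing (Localization.AtPrime p) :=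
    IsLocalization.isNoetherianRing p.primeCompl _ hnoeth
  have hRWi : Function.Injective (algebraMap R0 (Localization.AtPrime p)) :=
    IsLocalization.injective (Localization.AtPrime p) p.primeCompl_le_nonZeroDivisors
  have hmax : IsLocalRing.maximalIdeal (Localization.AtPrime p) =
      Ideal.span {algebraMap R0 (Localization.AtPrime p) t0} := by
    have h1 : Ideal.map (algebraMap R0 (Localization.AtPrime p)) p =
        Ideal.map (algebraMap R0 (Localization.AtPrime p)) (Ideal.span {t0}) :=
      congrArg (Ideal.map (algebraMap R0 (Localization.AtPrime p))) hpt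
    rw [← Localization.AtPrime.map_eq_maximalIdeal, h1, Ideal.map_span, Set.image_singleton]
  have hnf : ¬ IsField (Localization.AtPrime p) := by
    rw [IsLocalRing.isField_iff_maximalIdeal_eq, hmax, Ideal.span_singleton_eq_bot]
    intro h
    exact ht00 (hRWi (by rw [h, map_zero]))
  have hprinc : (IsLocalRing.maximalIdeal (Localization.AtPrime p)).IsPrincipal := ⟨⟨_, hmax⟩⟩
  have hWdvr : IsDiscreteValuationRing (Localization.AtPrime p) :=
    ((IsDiscreteValuationRing.TFAE (Localization.AtPrime p) hnf).out 0 4).2 hprinc
  have hg : ∀ y : p.primeCompl, IsUnit (algebraMap R0 V y) := by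
    intro y
    by_contra hcon
    exact y.2 ((IsLocalRing.mem_maximalIdeal _).2 hcon)
  have hRVi : Function.Injective (algebraMap R0 V) := Subtype.val_injective
  let f : Localization.AtPrime p →+* V := IsLocalization.lift (M := p.primeCompl) hg
  have hfi : Function.Injective f :=
    (IsLocalization.lift_injective_iff (M := p.primeCompl) hg).2 fun x y =>
      ⟨fun h => congrArg _ (hRWi h), fun h => congrArg _ (hRVi h)⟩
  let : Algebra (Localization.AtPrime p) V := f.toAlgebra
  have hst : IsScalarTower R0 (Localization.AtPrime p) V :=
    IsScalarTower.of_algebraMap_eq' (IsLocalization.lift_comp hg).symm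
  have hst2 : IsScalarTower ℂ (Localization.AtPrime p) V := by
    apply IsScalarTower.of_algebraMap_eq
    intro c
    rw [IsScalarTower.algebraMap_apply ℂ R0 (Localization.AtPrime p),
      ← IsScalarTower.algebraMap_apply R0 (Localization.AtPrime p) V]
    rfl
  have hess2 : Algebra.EssFiniteType (Localization.AtPrime p) V :=
    EssRes_mid V (FractionRing V) R0 (Localization.AtPrime p) hfi hRVi hfg halg
      (algebraMap R0 (Localization.AtPrime p) t0)
      (fun h => ht00 (hRWi (by rw [h, map_zero])))
      (by
        rw [← IsScalarTower.algebraMap_apply]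
        exact htm)
  exact Algebra.EssFiniteType.comp ℂ (Localization.AtPrime p) V

end Pool.Agent.Lib_GD
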