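import Pool.Agent.Lib_GD.ChartPoint
import Pool.Agent.Lib_GD.ChartDer
import Pool.Agent.Lib_GD.Growth
import Pool.Agent.Lib_GD.EssRes
import Pool.Agent.Lib_GD.ArcInj
import Pool.Agent.Lib_GD.HatLem
import Pool.Agent.Lib_GD.TrdegBound
import Pool.Agent.Lib_GD.DvrCoords
import Pool.Agent.Lib_GD.ArcPull

/-! J07: from an arc to a divisor. -/

open PowerSeries

namespace Pool.Agent.Lib_GD

/-! ### Orders of power series -/

private theorem ArcDivisor_assoc {L : Type} [Field L] {f : L⟦X⟧} (hf : f ≠ 0) :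
    Associated (X ^ f.order.toNat) f := by
  obtain ⟨u, hu⟩ := isUnit_divided_by_X_pow_order hf
  refine ⟨u, ?_⟩
  rw [hu, X_pow_order_mul_divXPowOrder]

private theorem ArcDivisor_dvd {L : Type} [Field L] {f g : L⟦X⟧} (h : f.order ≤ g.order) :
    f ∣ g := by
  by_cases hg : g = 0
  · rw [hg]; exact dvd_zero f
  have hf : f ≠ 0 := by
    rintro rfl
    rw [order_zero, top_le_iff, order_eq_top] at h
    exact hg h
  refine ((ArcDivisor_assoc hf).symm.dvd).trans (dvd_trans ?_ (ArcDivisor_assoc hg).dvd)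
  apply pow_dvd_pow
  rw [← coe_toNat_order hf, ← coe_toNat_order hg] at h
  exact_mod_cast h

private theorem ArcDivisor_isUnit {L : Type} [Field L] {f : L⟦X⟧} (h : f.order = 0) :
    IsUnit f := isUnit_of_dvd_one (ArcDivisor_dvd (by rw [h]; exact zero_le))

/-! ### The valuation ring of an arc -/

private theorem ArcDivisor_ring {B : Type} [CommRing B] [IsDomain B] [Algebra ℂ B] {L : Type}
    [Field L] [Algebra ℂ L] (x : B →ₐ[ℂ] L⟦X⟧) (hx : Function.Injective x) :
    ∃ (V : Type) (_ : CommRing V) (_ : IsDomain V) (_ : Algebra ℂ V) (ψ : B →ₐ[ℂ] V)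
      (Φ : V →ₐ[ℂ] L⟦X⟧), (∀ b, Φ (ψ b) = x b) ∧ Function.Injective Φ ∧
      (∀ f g, Φ f ∣ Φ g → f ∣ g) ∧ (∀ f : V, ∃ b b' : B, b' ≠ 0 ∧ f * ψ b' = ψ b) := by
  let K := FractionRing B
  let F := FractionRing L⟦X⟧
  let i : L⟦X⟧ →ₐ[ℂ] F := IsScalarTower.toAlgHom ℂ L⟦X⟧ F
  have hi : Function.Injective i := IsFractionRing.injective L⟦X⟧ F
  have hix : Function.Injective (i.comp x) := hi.comp hx
  let xK : K →ₐ[ℂ] F := IsFractionRing.liftAlgHom (g := i.comp x) hix
  have hxK : ∀ b : B, xK (algebraMap B K b) = i (x b) := fun b =>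
    IsFractionRing.lift_algebraMap hix b
  let V : Subalgebra ℂ K := i.range.comap xK
  have hVmem : ∀ f : K, f ∈ V ↔ ∃ g, i g = xK f := fun f => Iff.rfl
  let ψ : B →ₐ[ℂ] V := (IsScalarTower.toAlgHom ℂ B K).codRestrict V
    (fun b => (hVmem _).2 ⟨x b, (hxK b).symm⟩)
  let e : L⟦X⟧ ≃ₐ[ℂ] i.range := AlgEquiv.ofInjective i hi
  let Φ : V →ₐ[ℂ] L⟦X⟧ := (e.symm : i.range →ₐ[ℂ] L⟦X⟧).comp
    ((xK.comp V.val).codRestrict i.range (fun v => v.2))
  have hΦ : ∀ v : V, i (Φ v) = xK v := by
    intro v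
    have h1 : e (Φ v) = (xK.comp V.val).codRestrict i.range (fun v => v.2) v := by
      simp [Φ]
    exact congrArg Subtype.val h1
  have hΦinj : Function.Injective Φ := by
    intro v w hvw
    have h1 : xK v = xK w := by rw [← hΦ, ← hΦ, hvw]
    exact Subtype.ext (xK.toRingHom.injective h1)
  refine ⟨V, inferInstance, inferInstance, inferInstance, ψ, Φ, ?_, hΦinj, ?_, ?_⟩
  · intro b
    apply hi
    rw [hΦ]
    exact hxK b
  · intro f g ⟨c, hc⟩
    by_cases hf : f = 0
    · rw [hf, map_zero, zero_mul] at hc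
      have : g = 0 := hΦinj (by rw [hc, map_zero])
      rw [this]; exact dvd_zero f
    have hf' : (f : K) ≠ 0 := fun h => hf (Subtype.ext h)
    have hm : (g : K) / (f : K) ∈ V := by
      rw [hVmem]
      refine ⟨c, ?_⟩
      have h2 : xK (f : K) ≠ 0 := by
        rw [Ne, _root_.map_eq_zero]; exact hf'
      rw [map_div₀, eq_div_iff h2, ← hΦ, ← hΦ, hc, map_mul, mul_comm]
    refine ⟨⟨_, hm⟩, Subtype.ext ?_⟩
    change (g : K) = (f : K) * ((g : K) / (f : K))
    rw [mul_div_cancel₀ _ hf']
  · intro f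
    obtain ⟨b, b', hb', h⟩ := IsFractionRing.div_surjective (A := B) (f : K)
    refine ⟨b, b', nonZeroDivisors.ne_zero hb', Subtype.ext ?_⟩
    change (f : K) * algebraMap B K b' = algebraMap B K b
    rw [← h, div_mul_cancel₀]
    exact IsFractionRing.to_map_ne_zero_of_mem_nonZeroDivisors hb'


/-! ### The valuation ring is discrete -/

section dvr

variable {V : Type} [CommRing V] [IsDomain V] [Algebra ℂ V] {L : Type} [Field L] [Algebra ℂ L]
  (Φ : V →ₐ[ℂ] L⟦X⟧)

private theorem ArcDivisor_dvr (hinj : Function.Injective Φ) (hd : ∀ f g, Φ f ∣ Φ g → f ∣ g)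
    (hnt : ∃ f : V, f ≠ 0 ∧ (Φ f).order ≠ 0) :
    ∃ (e : ℕ) (_ : IsDiscreteValuationRing V), 1 ≤ e ∧
      ∀ f, (Φ f).order = e * IsDiscreteValuationRing.addVal V f := by
  classical
  have hne : ∀ f : V, f ≠ 0 → Φ f ≠ 0 := fun f hf h => hf (hinj (by rw [h, map_zero]))
  have hle : ∀ f g : V, (Φ f).order ≤ (Φ g).order → f ∣ g := fun f g h => hd f g (ArcDivisor_dvd h)
  have hunit : ∀ f : V, (Φ f).order = 0 → IsUnit f := fun f h =>
    isUnit_of_dvd_one (hle f 1 (by rw [h]; exact zero_le))
  have hex : ∃ e : ℕ, 1 ≤ e ∧ ∃ t : V, (Φ t).order = e := by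
    obtain ⟨f, hf, hf'⟩ := hnt
    refine ⟨(Φ f).order.toNat, ?_, f, (coe_toNat_order (hne f hf)).symm⟩
    rw [Nat.one_le_iff_ne_zero]
    intro h0
    apply hf'
    rw [← coe_toNat_order (hne f hf), h0]; rfl
  obtain ⟨he1, t, ht⟩ := Nat.find_spec hex
  have hmin : ∀ f : V, ∀ m : ℕ, (Φ f).order = m → m < Nat.find hex → m = 0 := by
    intro f m hm hlt
    by_contra h0
    exact Nat.find_min hex hlt ⟨Nat.one_le_iff_ne_zero.2 h0, f, hm⟩
  generalize Nat.find hex = e at he1 ht hmin
  have ht0 : t ≠ 0 := by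
    rintro rfl
    rw [map_zero, order_zero] at ht
    exact absurd ht (ENat.top_ne_natCast e)
  have htpow : ∀ q : ℕ, (Φ (t ^ q)).order = ((q * e : ℕ) : ℕ∞) := by
    intro q
    rw [map_pow]
    induction q with
    | zero => simp
    | succ q ih => rw [pow_succ, order_mul, ih, ht, ← Nat.cast_add]; congr 1; ring
  -- factorisation
  have hfac : ∀ f : V, f ≠ 0 → ∃ (q : ℕ) (u : V), IsUnit u ∧ f = t ^ q * u ∧ (Φ f).order = ((q * e : ℕ) : ℕ∞) := by
    intro f hf
    have hm := (coe_toNat_order (hne f hf)).symm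
    generalize (Φ f).order.toNat = m at hm
    have h1 : t ^ (m / e) ∣ f := by
      apply hle
      rw [htpow, hm]
      exact_mod_cast Nat.div_mul_le_self m e
    obtain ⟨u, hu⟩ := h1
    have hu0 : u ≠ 0 := by rintro rfl; exact hf (by rw [hu, mul_zero])
    have hmu := (coe_toNat_order (hne u hu0)).symm
    generalize (Φ u).order.toNat = r at hmu
    have h2 : m = m / e * e + r := by
      have h3 := congrArg (fun z => (Φ z).order) hu
      simp only [map_mul, order_mul] at h3
      rw [hm, hmu, htpow, ← Nat.cast_add] at h3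
      exact_mod_cast h3
    have h4 : r < e := by
      have h5 := Nat.mod_lt m (show 0 < e by omega)
      have h6 := Nat.div_add_mod' m e
      omega
    have h7 := hmin u r hmu h4
    subst h7
    refine ⟨m / e, u, hunit u (by rw [hmu]; rfl), hu, ?_⟩
    rw [hm]; congr 1
  have htirr : Irreducible t := by
    constructor
    · intro hu
      have h1 : IsUnit (Φ t) := hu.map Φ
      rw [order_zero_of_unit h1] at ht
      have : e = 0 := by exact_mod_cast ht.symm
      omega
    · intro a b hab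
      have ha0 : a ≠ 0 := by rintro rfl; exact ht0 (by rw [hab, zero_mul])
      have hb0 : b ≠ 0 := by rintro rfl; exact ht0 (by rw [hab, mul_zero])
      have ha := (coe_toNat_order (hne a ha0)).symm
      have hb := (coe_toNat_order (hne b hb0)).symm
      generalize (Φ a).order.toNat = ma at ha
      generalize (Φ b).order.toNat = mb at hb
      have h3 : e = ma + mb := by
        have h3 := congrArg (fun z => (Φ z).order) hab
        simp only [map_mul, order_mul] at h3
        rw [ht, ha, hb, ← Nat.cast_add] at h3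
        exact_mod_cast h3
      by_cases hma : ma < e
      · left
        have := hmin a ma ha hma
        exact hunit a (by rw [ha, this]; rfl)
      · right
        have : mb = 0 := by omega
        exact hunit b (by rw [hb, this]; rfl)
  have hdvr : IsDiscreteValuationRing V := by
    apply IsDiscreteValuationRing.ofHasUnitMulPowIrreducibleFactorization
    refine ⟨t, htirr, ?_⟩
    intro f hf
    obtain ⟨q, u, hu, hfu, -⟩ := hfac f hf
    exact ⟨q, hu.unit, hfu.symm⟩
  refine ⟨e, hdvr, he1, ?_⟩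
  intro f
  by_cases hf : f = 0
  · rw [hf, map_zero, order_zero, IsDiscreteValuationRing.addVal_zero]
    rw [ENat.mul_top]
    exact_mod_cast (show e ≠ 0 by omega)
  obtain ⟨q, u, hu, hfu, hord⟩ := hfac f hf
  have h1 : IsDiscreteValuationRing.addVal V f = q := by
    rw [IsDiscreteValuationRing.addVal_def f hu.unit htirr q (by rw [hfu, mul_comm]; rfl)]
  rw [h1, hord]
  push_cast; ring

end dvr


/-! ### The Newton argument -/

section newton

variable {V : Type} [CommRing V] [IsDomain V] [Algebra ℂ V] {L : Type} [Field L] [Algebra ℂ L]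
  (Φ : V →ₐ[ℂ] L⟦X⟧)

private theorem ArcDivisor_hat_zero_of_adjoin (δ : Derivation ℂ L L) {ι : Type} (u : ι → V)
    (hu : ∀ i, hat δ (Φ (u i)) = 0) (p : MvPolynomial ι ℂ) :
    hat δ (Φ (MvPolynomial.aeval u p)) = 0 := by
  induction p using MvPolynomial.induction_on with
  | C a =>
    rw [MvPolynomial.aeval_C, AlgHom.commutes]
    ext k
    rw [coeff_hat, PowerSeries.algebraMap_apply, PowerSeries.coeff_C]
    split_ifs
    · simp
    · simp
  | add p q hp hq => rw [map_add, map_add, hat_add, hp, hq, add_zero]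
  | mul_X p i hp => rw [map_mul, map_mul, hat_mul, hp, MvPolynomial.aeval_X, hu, mul_zero, zero_mul,
      add_zero]

private theorem ArcDivisor_hat_pow (δ : Derivation ℂ L L) (f : L⟦X⟧) (m : ℕ) :
    hat δ (f ^ m) = m * f ^ (m - 1) * hat δ f := by
  induction m with
  | zero =>
    have h1 := hat_mul δ (1 : L⟦X⟧) 1
    rw [mul_one, one_mul, mul_one] at h1
    simpa using h1
  | succ m ih =>
    rw [pow_succ, hat_mul, ih]
    rcases m with _ | m
    · simp
    · simp only [Nat.add_sub_cancel, Nat.cast_add, Nat.cast_one]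
      ring

private theorem ArcDivisor_hat_eval₂ (δ : Derivation ℂ L L) {ι : Type} (u : ι → V)
    (hu : ∀ i, hat δ (Φ (u i)) = 0) (f : V) (P : Polynomial (MvPolynomial ι ℂ)) :
    hat δ (Φ (P.eval₂ (MvPolynomial.aeval u : MvPolynomial ι ℂ →ₐ[ℂ] V).toRingHom f)) =
      Φ (P.derivative.eval₂ (MvPolynomial.aeval u : MvPolynomial ι ℂ →ₐ[ℂ] V).toRingHom f) *
        hat δ (Φ f) := by
  induction P using Polynomial.induction_on' with
  | add p q hp hq =>
    rw [Polynomial.eval₂_add, map_add, hat_add, hp, hq, Polynomial.derivative_add,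
      Polynomial.eval₂_add, map_add, add_mul]
  | monomial m a =>
    rw [Polynomial.eval₂_monomial, Polynomial.derivative_monomial, Polynomial.eval₂_monomial,
      map_mul, hat_mul]
    have h0 : hat δ (Φ ((MvPolynomial.aeval u : MvPolynomial ι ℂ →ₐ[ℂ] V).toRingHom a)) = 0 :=
      ArcDivisor_hat_zero_of_adjoin Φ δ u hu a
    rw [h0, zero_mul, add_zero, map_pow, ArcDivisor_hat_pow]
    simp only [map_mul, map_natCast, map_pow]
    ring

private theorem ArcDivisor_newton [IsDiscreteValuationRing V] (e : ℕ) (he : 1 ≤ e)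
    (hord : ∀ f, (Φ f).order = e * IsDiscreteValuationRing.addVal V f)
    {ι : Type} (u : ι → V)
    (hu : IsTranscendenceBasis ℂ (fun i => IsLocalRing.residue V (u i)))
    (t : V) (ht : Irreducible t)
    (δ : Derivation ℂ L L) (hδu : ∀ i, hat δ (Φ (u i)) = 0) (hδt : hat δ (Φ t) = 0) (f : V) :
    hat δ (Φ f) = 0 := by
  classical
  by_contra hf
  have hex : ∃ m : ℕ, ∃ f : V, (hat δ (Φ f)).order = m :=
    ⟨_, f, (coe_toNat_order hf).symm⟩
  obtain ⟨g, hg⟩ := Nat.find_spec hex
  have hmin : ∀ (g' : V) (m : ℕ), (hat δ (Φ g')).order = m → Nat.find hex ≤ m :=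
    fun g' m hm => Nat.find_min' hex ⟨g', hm⟩
  generalize Nat.find hex = m at hg hmin
  clear hf f hex
  have hgne : hat δ (Φ g) ≠ 0 := by
    intro h
    rw [h, order_zero] at hg
    exact ENat.top_ne_natCast m hg
  let π : V →ₐ[ℂ] IsLocalRing.ResidueField V :=
    IsScalarTower.toAlgHom ℂ V (IsLocalRing.ResidueField V)
  have hπ : ∀ v, π v = IsLocalRing.residue V v := fun v => rfl
  set ub : ι → IsLocalRing.ResidueField V := fun i => IsLocalRing.residue V (u i) with hub
  have hev : ∀ P : Polynomial (MvPolynomial ι ℂ),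
      π (P.eval₂ (MvPolynomial.aeval u : MvPolynomial ι ℂ →ₐ[ℂ] V).toRingHom g) =
      P.eval₂ (MvPolynomial.aeval ub : MvPolynomial ι ℂ →ₐ[ℂ] _).toRingHom (π g) := by
    intro P
    have h1 : π.toRingHom.comp (MvPolynomial.aeval u : MvPolynomial ι ℂ →ₐ[ℂ] V).toRingHom =
        (MvPolynomial.aeval ub : MvPolynomial ι ℂ →ₐ[ℂ] _).toRingHom := by
      have : π.comp (MvPolynomial.aeval u) = MvPolynomial.aeval ub := by
        ext i
        simp [hub, hπ]
      rw [← this]; rfl
    rw [← h1]
    exact Polynomial.hom_eval₂ P _ π.toRingHom g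
  have hexP : ∃ d : ℕ, ∃ P : Polynomial (MvPolynomial ι ℂ), P ≠ 0 ∧ P.natDegree = d ∧
      P.eval₂ (MvPolynomial.aeval ub : MvPolynomial ι ℂ →ₐ[ℂ] _).toRingHom (π g) = 0 := by
    have halg := hu.isAlgebraic
    obtain ⟨Q, hQ0, hQ⟩ := halg.isAlgebraic (π g)
    refine ⟨_, Q.map hu.1.aevalEquiv.symm.toRingEquiv.toRingHom, ?_, rfl, ?_⟩
    · rw [Ne, Polynomial.map_eq_zero_iff]
      · exact hQ0
      · exact hu.1.aevalEquiv.symm.injective
    · rw [Polynomial.eval₂_map]
      rw [Polynomial.aeval_def] at hQ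
      have h2 : (MvPolynomial.aeval ub : MvPolynomial ι ℂ →ₐ[ℂ] _).toRingHom.comp
          hu.1.aevalEquiv.symm.toRingEquiv.toRingHom =
          algebraMap (Algebra.adjoin ℂ (Set.range ub)) (IsLocalRing.ResidueField V) := by
        refine RingHom.ext fun a => ?_
        have h3 := hu.1.algebraMap_aevalEquiv (hu.1.aevalEquiv.symm a)
        rw [AlgEquiv.apply_symm_apply] at h3
        exact h3.symm
      rw [h2]
      exact hQ
  obtain ⟨P, hP0, hPd, hPev⟩ := Nat.find_spec hexP
  have hPmin : ∀ P' : Polynomial (MvPolynomial ι ℂ), P' ≠ 0 → P'.natDegree < P.natDegree →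
      P'.eval₂ (MvPolynomial.aeval ub : MvPolynomial ι ℂ →ₐ[ℂ] _).toRingHom (π g) ≠ 0 := by
    intro P' h0 hlt h1
    rw [hPd] at hlt
    exact Nat.find_min hexP hlt ⟨P', h0, rfl, h1⟩
  clear hPd hexP
  have hPdeg : P.natDegree ≠ 0 := by
    intro h0
    obtain ⟨a, rfl⟩ := Polynomial.natDegree_eq_zero.1 h0
    rw [Polynomial.eval₂_C] at hPev
    have h1 : a = 0 := by
      have h2 := (injective_iff_map_eq_zero (MvPolynomial.aeval ub : MvPolynomial ι ℂ →ₐ[ℂ] _)).1
        hu.1 a hPev
      exact h2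
    exact hP0 (by rw [h1, map_zero])
  have hP'0 : P.derivative ≠ 0 := fun h =>
    hPdeg (Polynomial.derivative_eq_zero.1 h)
  have hP'ev := hPmin P.derivative hP'0 (Polynomial.natDegree_derivative_lt hPdeg)
  rw [← hev] at hP'ev hPev
  set E := P.eval₂ (MvPolynomial.aeval u : MvPolynomial ι ℂ →ₐ[ℂ] V).toRingHom g with hE
  set E' := P.derivative.eval₂ (MvPolynomial.aeval u : MvPolynomial ι ℂ →ₐ[ℂ] V).toRingHom g with hE'
  have hder : hat δ (Φ E) = Φ E' * hat δ (Φ g) := ArcDivisor_hat_eval₂ Φ δ u hδu g P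
  have hE'u : IsUnit E' := by
    rw [hπ] at hP'ev
    by_contra hcon
    exact hP'ev ((IsLocalRing.residue_eq_zero_iff E').2 ((IsLocalRing.mem_maximalIdeal E').2 hcon))
  have hEm : t ∣ E := by
    rw [hπ, IsLocalRing.residue_eq_zero_iff, ht.maximalIdeal_eq, Ideal.mem_span_singleton] at hPev
    exact hPev
  obtain ⟨g', hg'⟩ := hEm
  rw [hg', map_mul, hat_mul, hδt, zero_mul, add_zero] at hder
  have hΦt : (Φ t).order = e := by
    rw [hord, IsDiscreteValuationRing.addVal_uniformizer ht, mul_one]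
  have hord' := congrArg PowerSeries.order hder
  rw [order_mul, order_mul, hΦt, order_zero_of_unit (hE'u.map Φ), zero_add, hg] at hord'
  have hg'ne : hat δ (Φ g') ≠ 0 := by
    intro h
    rw [h, order_zero, add_top] at hord'
    exact ENat.top_ne_natCast m hord'
  have hg'm := (coe_toNat_order hg'ne).symm
  have h5 := hmin g' _ hg'm
  rw [hg'm, ← Nat.cast_add] at hord'
  have h6 : e + (hat δ (Φ g')).order.toNat = m := by exact_mod_cast hord'
  omega

end newton


/-! ### The residue field has transcendence degree at least `n - 1` -/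

section residue

variable {R : Type} [CommRing R] [Algebra ℂ R] {𝒜 : ℕ → Submodule ℂ R} {n : ℕ}
  (c : Chart 𝒜 n) {L : Type} [Field L] [Algebra ℂ L] (x : c.B →ₐ[ℂ] L⟦X⟧)

private theorem ArcDivisor_hat_frac (δ : Derivation ℂ L L) (F : L⟦X⟧) (b b' : c.B)
    (hF : F * x b' = x b) :
    x b' ^ 2 * hat δ F =
      ∑ l, (x b' * x (c.der l b) - x b * x (c.der l b')) * hat δ (x (c.y l)) := by
  have h1 := congrArg (fun z => x b' * hat δ z) hF
  simp only [hat_mul] at h1
  have h2 : ∑ l, (x b' * x (c.der l b) - x b * x (c.der l b')) * hat δ (x (c.y l)) =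
      x b' * hat δ (x b) - x b * hat δ (x b') := by
    rw [c.hat_arc x δ b, c.hat_arc x δ b', Finset.mul_sum, Finset.mul_sum, ← Finset.sum_sub_distrib]
    exact Finset.sum_congr rfl fun l _ => by ring
  rw [h2, ← h1, ← hF]
  ring

private theorem ArcDivisor_residue (hn : 1 ≤ n) (k : ℕ)
    (h1 : ∀ v : Fin n → L⟦X⟧, (∀ l, X ^ k ∣ v l) →
        ∃ δ : Derivation ℂ L L, ∀ l, hat δ (x (c.y l)) = v l)
    {V : Type} [CommRing V] [IsDomain V] [Algebra ℂ V] [IsDiscreteValuationRing V]
    (ψ : c.B →ₐ[ℂ] V) (Φ : V →ₐ[ℂ] L⟦X⟧) (hx : Function.Injective x)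
    (hψ : ∀ b, Φ (ψ b) = x b)
    (hfr : ∀ f : V, ∃ b b' : c.B, b' ≠ 0 ∧ f * ψ b' = ψ b)
    (e : ℕ) (he : 1 ≤ e) (hord : ∀ f, (Φ f).order = e * IsDiscreteValuationRing.addVal V f) :
    ∃ w : Fin (n - 1) → V, AlgebraicIndependent ℂ (fun i => IsLocalRing.residue V (w i)) := by
  classical
  obtain ⟨s, hs⟩ := exists_isTranscendenceBasis ℂ (IsLocalRing.ResidueField V)
  by_cases hbig : Nonempty (Fin (n - 1) ↪ s)
  · obtain ⟨j⟩ := hbig
    choose w hw using fun i => IsLocalRing.residue_surjective (R := V) (j i : IsLocalRing.ResidueField V)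
    refine ⟨w, ?_⟩
    have : (fun i => IsLocalRing.residue V (w i)) = (fun z : s => (z : IsLocalRing.ResidueField V)) ∘ j := by
      funext i; exact hw i
    rw [this]
    exact hs.1.comp j j.injective
  · exfalso
    have hfin : Finite s := by
      by_contra hinf
      rw [not_finite_iff_infinite] at hinf
      exact hbig ⟨(Fin.valEmbedding).trans (Infinite.natEmbedding s)⟩
    haveI := Fintype.ofFinite s
    have hcard : Fintype.card s < n - 1 := by
      by_contra hcon
      rw [not_lt] at hcon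
      apply hbig
      have : Fintype.card (Fin (n - 1)) ≤ Fintype.card s := by rwa [Fintype.card_fin]
      exact Function.Embedding.nonempty_of_card_le this
    choose u hu using fun i : s => IsLocalRing.residue_surjective (R := V) (i : IsLocalRing.ResidueField V)
    have hu' : IsTranscendenceBasis ℂ (fun i : s => IsLocalRing.residue V (u i)) := by
      have : (fun i : s => IsLocalRing.residue V (u i)) = (fun z : s => (z : IsLocalRing.ResidueField V)) := by
        funext i; exact hu i
      rw [this]; exact hs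
    obtain ⟨t, ht⟩ := IsDiscreteValuationRing.exists_irreducible V
    let g : Option s → V := fun o => o.elim t u
    choose b b' hb' hbb' using fun o => hfr (g o)
    let M : (Fin n → L⟦X⟧) →ₗ[L⟦X⟧] (Option s → L⟦X⟧) :=
      { toFun := fun v o => ∑ l, (x (b' o) * x (c.der l (b o)) - x (b o) * x (c.der l (b' o))) * v l
        map_add' := fun v w => by
          funext o
          simp only [Pi.add_apply, mul_add, Finset.sum_add_distrib]
        map_smul' := fun a v => by
          funext o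
          simp only [Pi.smul_apply, smul_eq_mul, RingHom.id_apply, Finset.mul_sum]
          exact Finset.sum_congr rfl fun l _ => by ring }
    have hM : ¬ Function.Injective M := by
      intro hinj
      have := card_le_of_injective L⟦X⟧ M hinj
      rw [Fintype.card_fin, Fintype.card_option] at this
      omega
    rw [injective_iff_map_eq_zero] at hM
    push Not at hM
    obtain ⟨v, hv, hv0⟩ := hM
    obtain ⟨δ, hδ⟩ := h1 (fun l => X ^ k * v l) (fun l => dvd_mul_right _ _)
    have hkill : ∀ o, hat δ (Φ (g o)) = 0 := by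
      intro o
      have h2 := ArcDivisor_hat_frac c x δ (Φ (g o)) (b o) (b' o) (by
        rw [← hψ, ← map_mul, hbb', hψ])
      have h3 : ∑ l, (x (b' o) * x (c.der l (b o)) - x (b o) * x (c.der l (b' o))) *
          hat δ (x (c.y l)) = X ^ k * M v o := by
        have hMv : M v o =
            ∑ l, (x (b' o) * x (c.der l (b o)) - x (b o) * x (c.der l (b' o))) * v l := rfl
        rw [hMv, Finset.mul_sum]
        simp only [hδ]
        exact Finset.sum_congr rfl fun l _ => by ring
      rw [h3, hv, Pi.zero_apply, mul_zero] at h2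
      have h4 : x (b' o) ≠ 0 := fun h => hb' o (hx (by rw [h, map_zero]))
      exact (mul_eq_zero.1 h2).resolve_left (pow_ne_zero 2 h4)
    have hall := ArcDivisor_newton Φ e he hord u hu' t ht δ (fun i => hkill (some i)) (hkill none)
    apply hv0
    funext l
    have h5 := hall (ψ (c.y l))
    rw [hψ, hδ] at h5
    exact (mul_eq_zero.1 h5).resolve_left (pow_ne_zero k (X_ne_zero : (X : L⟦X⟧) ≠ 0))

end residue


/-! ### Transcendence degree of the function field -/

section trdeg

variable {R : Type} [CommRing R] [Algebra ℂ R] {𝒜 : ℕ → Submodule ℂ R} {n : ℕ}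
  (c : Chart 𝒜 n)

private theorem ArcDivisor_der_aeval (l : Fin n) (P : MvPolynomial (Fin n) ℂ) :
    c.der l (MvPolynomial.aeval c.y P) = MvPolynomial.aeval c.y (MvPolynomial.pderiv l P) := by
  induction P using MvPolynomial.induction_on with
  | C a => simp
  | add p q hp hq => simp only [map_add, hp, hq]
  | mul_X p i hp =>
    rw [map_mul, Derivation.leibniz, hp, MvPolynomial.aeval_X, c.der_y, MvPolynomial.pderiv_mul,
      map_add, map_mul, map_mul, MvPolynomial.aeval_X, MvPolynomial.pderiv_X, smul_eq_mul,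
      smul_eq_mul]
    by_cases h : l = i
    · subst h; simp; ring
    · have h' : i ≠ l := fun e => h e.symm
      simp [h, h']; ring

private theorem ArcDivisor_algInd : AlgebraicIndependent ℂ c.y := by
  classical
  rw [algebraicIndependent_iff]
  have key : ∀ (d : ℕ) (P : MvPolynomial (Fin n) ℂ), P.totalDegree ≤ d →
      MvPolynomial.aeval c.y P = 0 → P = 0 := by
    intro d
    induction d with
    | zero =>
      intro P hd hP
      have h1 := MvPolynomial.totalDegree_eq_zero_iff_eq_C.1 (Nat.le_zero.1 hd)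
      rw [h1, MvPolynomial.aeval_C, map_eq_zero_iff _ (algebraMap ℂ c.B).injective] at hP
      rw [h1, hP, map_zero]
    | succ d ih =>
      intro P hd hP
      have h2 : ∀ l, MvPolynomial.pderiv l P = 0 := by
        intro l
        apply ih
        · apply Finset.sup_le
          intro m hm
          rw [MvPolynomial.mem_support_iff, MvPolynomial.coeff_pderiv] at hm
          have hm' := left_ne_zero_of_mul hm
          have h3 := MvPolynomial.le_totalDegree (MvPolynomial.mem_support_iff.2 hm')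
          rw [Finsupp.sum_add_index' (fun _ => rfl) (fun _ _ _ => rfl),
            Finsupp.sum_single_index rfl] at h3
          omega
        · rw [← ArcDivisor_der_aeval, hP, map_zero]
      apply ih P _ hP
      have h4 : P.totalDegree = 0 := by
        rw [MvPolynomial.totalDegree_eq_zero_iff]
        intro m hm l
        by_contra hml
        have h5 := congrArg (MvPolynomial.coeff (m - Finsupp.single l 1)) (h2 l)
        rw [MvPolynomial.coeff_pderiv, MvPolynomial.coeff_zero, tsub_add_cancel_of_le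
          (by rw [Finsupp.single_le_iff]; omega)] at h5
        rcases mul_eq_zero.1 h5 with h6 | h6
        · exact (MvPolynomial.mem_support_iff.1 hm) h6
        · exact absurd h6 (Nat.cast_add_one_ne_zero _)
      rw [h4]; exact Nat.zero_le d
  exact fun P hP => key _ P le_rfl hP

private theorem ArcDivisor_trdeg {V : Type} [CommRing V] [IsDomain V] [Algebra ℂ V]
    (ψ : c.B →ₐ[ℂ] V) (hψ : Function.Injective ψ)
    (hfr : ∀ f : V, ∃ b b' : c.B, b' ≠ 0 ∧ f * ψ b' = ψ b) :
    Algebra.trdeg ℂ V = n := by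
  classical
  have hV : Algebra.trdeg ℂ (FractionRing V) = Algebra.trdeg ℂ V := by
    have h1 := trdeg_add_eq ℂ V (A := FractionRing V)
    have h3 : Algebra.IsAlgebraic V (FractionRing V) :=
      IsLocalization.isAlgebraic _ (nonZeroDivisors V)
    have h2 : Algebra.trdeg V (FractionRing V) = 0 := trdeg_eq_zero
    rw [h2, add_zero] at h1
    exact h1.symm
  rw [← hV]
  let F := FractionRing V
  let i : c.B →ₐ[ℂ] F := (IsScalarTower.toAlgHom ℂ V F).comp ψ
  have hi : Function.Injective i := (IsFractionRing.injective V F).comp hψ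
  let z : Fin n → F := fun l => i (c.y l)
  have hz : AlgebraicIndependent ℂ z := (ArcDivisor_algInd c).map' hi
  -- derivations killing `z` are zero
  have hder : ∀ δ : Derivation ℂ F F, (∀ l, δ (z l) = 0) → ∀ f : F, δ f = 0 := by
    intro δ hδ
    have hB : ∀ b : c.B, δ (i b) = 0 := by
      intro b
      letI : Module c.B F := Module.compHom F i.toRingHom
      have hsm : ∀ (b : c.B) (f : F), b • f = i b * f := fun _ _ => rfl
      haveI : IsScalarTower ℂ c.B F := ⟨fun z b f => by
        rw [hsm, hsm, map_smul, smul_mul_assoc]⟩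
      let D : Derivation ℂ c.B F :=
        { toFun := fun b => δ (i b)
          map_add' := fun a b => by simp
          map_smul' := fun z b => by simp
          map_one_eq_zero' := by
            change δ (i 1) = 0
            rw [map_one, Derivation.map_one_eq_zero]
          leibniz' := fun a b => by
            change δ (i (a * b)) = a • δ (i b) + b • δ (i a)
            rw [hsm, hsm, map_mul, Derivation.leibniz, smul_eq_mul, smul_eq_mul] }
      have h := c.der_eq D b
      have h0 : ∀ l, D (c.y l) = 0 := hδ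
      simp only [h0, smul_zero, Finset.sum_const_zero] at h
      exact h
    have hVz : ∀ f : V, δ (algebraMap V F f) = 0 := by
      intro f
      obtain ⟨b, b', hb', hbb'⟩ := hfr f
      have h1 : algebraMap V F f * i b' = i b := by
        change algebraMap V F f * algebraMap V F (ψ b') = algebraMap V F (ψ b)
        rw [← map_mul, hbb']
      have h2 := congrArg δ h1
      rw [Derivation.leibniz, hB, hB, smul_zero, zero_add, smul_eq_mul] at h2
      have h3 : i b' ≠ 0 := fun h => hb' (hi (by rw [h, map_zero]))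
      exact (mul_eq_zero.1 h2).resolve_left h3
    intro f
    obtain ⟨g, g', hg', rfl⟩ := IsFractionRing.div_surjective (A := V) f
    have hne : algebraMap V F g' ≠ 0 := IsFractionRing.to_map_ne_zero_of_mem_nonZeroDivisors hg'
    have h1 : algebraMap V F g / algebraMap V F g' * algebraMap V F g' = algebraMap V F g :=
      div_mul_cancel₀ _ hne
    have h2 := congrArg δ h1
    rw [Derivation.leibniz, hVz, hVz, smul_zero, zero_add, smul_eq_mul] at h2
    exact (mul_eq_zero.1 h2).resolve_left hne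
  have halg : ∀ f : F, IsAlgebraic (IntermediateField.adjoin ℂ (Set.range z)) f :=
    fun f => isAlgebraic_of_derivation z f fun δ hδ => hder δ hδ f
  have halg' : Algebra.IsAlgebraic (Algebra.adjoin ℂ (Set.range z)) F := by
    open scoped IntermediateField.algebraAdjoinAdjoin in
    rw [IsFractionRing.comap_isAlgebraic_iff (K := IntermediateField.adjoin ℂ (Set.range z))]
    exact ⟨halg⟩
  apply le_antisymm
  · have h1 := Algebra.IsAlgebraic.trdeg_le_cardinalMk ℂ (Set.range z) (A := F)
    refine h1.trans ?_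
    exact (Cardinal.mk_range_le).trans (by simp)
  · have h1 := hz.cardinalMk_le_trdeg
    simpa using h1

end trdeg


/-! ### The fraction field and the divisor -/

section divisor

private theorem ArcDivisor_frac {B V : Type} [CommRing B] [Algebra ℂ B] [CommRing V] [IsDomain V]
    [Algebra ℂ V] (ψ : B →ₐ[ℂ] V) (hψ : Function.Injective ψ)
    (hfr : ∀ f : V, ∃ b b' : B, b' ≠ 0 ∧ f * ψ b' = ψ b) (f : FractionRing V) :
    ∃ b b' : B, b' ≠ 0 ∧ algebraMap V (FractionRing V) (ψ b') ≠ 0 ∧
      f * algebraMap V (FractionRing V) (ψ b') = algebraMap V (FractionRing V) (ψ b) := by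
  have hne : ∀ b : B, b ≠ 0 → algebraMap V (FractionRing V) (ψ b) ≠ 0 := by
    intro b hb h
    exact hb (hψ ((IsFractionRing.injective V (FractionRing V)) (by rw [h, map_zero, map_zero])))
  obtain ⟨g, g', hg', rfl⟩ := IsFractionRing.div_surjective (A := V) f
  have hg'0 : algebraMap V (FractionRing V) g' ≠ 0 :=
    IsFractionRing.to_map_ne_zero_of_mem_nonZeroDivisors hg'
  obtain ⟨a, a', ha', h1⟩ := hfr g
  obtain ⟨d, d', hd', h2⟩ := hfr g'
  have hd0 : d ≠ 0 := by
    rintro rfl
    rw [map_zero] at h2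
    rcases mul_eq_zero.1 h2 with h | h
    · exact nonZeroDivisors.ne_zero hg' h
    · exact hd' (hψ (by rw [h, map_zero]))
  have hB : IsDomain B := hψ.isDomain ψ
  refine ⟨a * d', a' * d, mul_ne_zero ha' hd0, hne _ (mul_ne_zero ha' hd0), ?_⟩
  have h3 : g * ψ (a' * d) = g' * ψ (a * d') := by
    rw [map_mul, map_mul, ← h1, ← h2]; ring
  have h4 : algebraMap V (FractionRing V) g * algebraMap V (FractionRing V) (ψ (a' * d)) =
      algebraMap V (FractionRing V) g' * algebraMap V (FractionRing V) (ψ (a * d')) := by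
    rw [← map_mul (algebraMap V (FractionRing V)), h3, map_mul (algebraMap V (FractionRing V))]
  rw [div_mul_eq_mul_div, h4, mul_div_cancel_left₀ _ hg'0]

private theorem ArcDivisor_essFinite {B V : Type} [CommRing B] [Algebra ℂ B]
    [Algebra.FiniteType ℂ B] [CommRing V] [IsDomain V]
    [Algebra ℂ V] (ψ : B →ₐ[ℂ] V) (hψ : Function.Injective ψ)
    (hfr : ∀ f : V, ∃ b b' : B, b' ≠ 0 ∧ f * ψ b' = ψ b) :
    Algebra.EssFiniteType ℂ (FractionRing V) := by
  have hB : IsDomain B := hψ.isDomain ψ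
  let F := FractionRing V
  let i : B →ₐ[ℂ] F := (IsScalarTower.toAlgHom ℂ V F).comp ψ
  have hi : Function.Injective i := (IsFractionRing.injective V F).comp hψ
  letI : Algebra B F := i.toRingHom.toAlgebra
  haveI : IsScalarTower ℂ B F := IsScalarTower.of_algebraMap_eq (fun z => (i.commutes z).symm)
  haveI : IsLocalization (nonZeroDivisors B) F := by
    refine (isLocalization_iff _ _).2 ⟨?_, ?_, ?_⟩
    · intro b
      have hb : (b : B) ≠ 0 := nonZeroDivisors.ne_zero b.2
      exact (Ne.isUnit fun h => hb (hi (by rw [map_zero]; exact h)))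
    · intro f
      obtain ⟨b, b', hb', -, h⟩ := ArcDivisor_frac ψ hψ hfr f
      exact ⟨⟨b, ⟨b', mem_nonZeroDivisors_of_ne_zero hb'⟩⟩, h⟩
    · intro b b' h
      exact ⟨1, by rw [hi h]⟩
  haveI := Algebra.EssFiniteType.of_isLocalization F (nonZeroDivisors B)
  exact Algebra.EssFiniteType.comp ℂ B F

variable {R : Type} [CommRing R] [Algebra ℂ R] {𝒜 : ℕ → Submodule ℂ R} [GradedAlgebra 𝒜] {n : ℕ}
  (c : Chart 𝒜 n)

private theorem ArcDivisor_generates {V : Type} [CommRing V] [IsDomain V] [Algebra ℂ V]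
    (ψ : c.B →ₐ[ℂ] V) (hψ : Function.Injective ψ)
    (hfr : ∀ f : V, ∃ b b' : c.B, b' ≠ 0 ∧ f * ψ b' = ψ b) :
    IntermediateField.adjoin ℂ {z : FractionRing V | ∃ (_ : Fin 1) (m : ℕ), ∃ s ∈ 𝒜 m, ∃ s' ∈ 𝒜 m,
      ψ.comp c.ρ s' ≠ 0 ∧ z = algebraMap V (FractionRing V) (ψ.comp c.ρ s) /
        algebraMap V (FractionRing V) (ψ.comp c.ρ s')} = ⊤ := by
  rw [eq_top_iff]
  intro f _
  have hB : ∀ b : c.B, algebraMap V (FractionRing V) (ψ b) ∈ IntermediateField.adjoin ℂ
      {z : FractionRing V | ∃ (_ : Fin 1) (m : ℕ), ∃ s ∈ 𝒜 m, ∃ s' ∈ 𝒜 m,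
      ψ.comp c.ρ s' ≠ 0 ∧ z = algebraMap V (FractionRing V) (ψ.comp c.ρ s) /
        algebraMap V (FractionRing V) (ψ.comp c.ρ s')} := by
    intro b
    apply IntermediateField.subset_adjoin
    obtain ⟨m, s, hs, s', hs', hu, h⟩ := c.ratio_mem b
    have h1 : IsUnit (ψ (c.ρ s')) := hu.map ψ
    refine ⟨0, m, s, hs, s', hs', h1.ne_zero, ?_⟩
    change _ = algebraMap V (FractionRing V) (ψ (c.ρ s)) / algebraMap V (FractionRing V) (ψ (c.ρ s'))
    rw [eq_div_iff (h1.map (algebraMap V (FractionRing V))).ne_zero, ← map_mul, ← map_mul, h]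
  obtain ⟨b, b', -, hb', h⟩ := ArcDivisor_frac ψ hψ hfr f
  rw [← eq_div_iff hb'] at h
  rw [h]
  exact div_mem (hB b) (hB b')

end divisor

/-! ### Counting dimensions modulo `X ^ k` -/

private theorem ArcDivisor_count {L : Type} [Field L] {n k : ℕ}
    (M : Submodule L⟦X⟧ (Fin n → L⟦X⟧))
    (hk : ∀ v : Fin n → L⟦X⟧, (∀ l, X ^ k ∣ v l) → v ∈ M)
    (A : Set (Fin n × Fin k → L)) (hA : ∀ a ∈ A, ∃ v ∈ M, ∀ p, coeff (p.2 : ℕ) (v p.1) = a p) :
    colen M + Module.finrank L (Submodule.span L A) ≤ n * k := by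
  classical
  let τ : (Fin n → L⟦X⟧) →ₗ[L] (Fin n × Fin k → L) :=
    { toFun := fun v p => coeff (p.2 : ℕ) (v p.1)
      map_add' := fun v w => by funext p; simp
      map_smul' := fun a v => by funext p; simp }
  let M' : Submodule L (Fin n → L⟦X⟧) := M.restrictScalars L
  have hker : ∀ v, τ v = 0 → v ∈ M' := by
    intro v hv
    apply hk
    intro l
    rw [X_pow_dvd_iff]
    intro m hm
    exact congrFun hv (l, ⟨m, hm⟩)
  have hspan : Submodule.span L A ≤ M'.map τ := by
    rw [Submodule.span_le]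
    intro a ha
    obtain ⟨v, hv, hva⟩ := hA a ha
    exact ⟨v, hv, funext hva⟩
  have h1 : Module.finrank L (Submodule.span L A) ≤ Module.finrank L (M'.map τ) :=
    Submodule.finrank_mono hspan
  have h2 := Submodule.finrank_quotient_add_finrank (M'.map τ)
  have h3 : Module.finrank L (Fin n × Fin k → L) = n * k := by
    rw [Module.finrank_fintype_fun_eq_card, Fintype.card_prod, Fintype.card_fin, Fintype.card_fin]
  have h4 : Module.length L⟦X⟧ ((Fin n → L⟦X⟧) ⧸ M) ≤
      (Module.finrank L ((Fin n × Fin k → L) ⧸ M'.map τ) : ℕ∞) := by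
    have e1 : Module.length L⟦X⟧ ((Fin n → L⟦X⟧) ⧸ M) ≤ Module.length L ((Fin n → L⟦X⟧) ⧸ M) := by
      have := Submodule.length_le_length_restrictScalars L (⊤ : Submodule L⟦X⟧ ((Fin n → L⟦X⟧) ⧸ M))
      rw [Module.length_top, Submodule.restrictScalars_top, Module.length_top] at this
      exact this
    have e2 : Module.length L ((Fin n → L⟦X⟧) ⧸ M) = Module.length L ((Fin n → L⟦X⟧) ⧸ M') :=
      (Submodule.Quotient.restrictScalarsEquiv L M).length_eq.symm
    have e3 : Module.length L ((Fin n → L⟦X⟧) ⧸ M') ≤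
        Module.length L ((Fin n × Fin k → L) ⧸ M'.map τ) := by
      apply Module.length_le_of_injective (M'.mapQ (M'.map τ) τ (Submodule.le_comap_map τ M'))
      rw [injective_iff_map_eq_zero]
      intro q hq
      obtain ⟨v, rfl⟩ := Submodule.Quotient.mk_surjective M' q
      rw [Submodule.mapQ_apply, Submodule.Quotient.mk_eq_zero] at hq
      obtain ⟨w, hw, hwv⟩ := hq
      rw [Submodule.Quotient.mk_eq_zero]
      have h6 : v - w ∈ M' := hker _ (by rw [map_sub, hwv, sub_self])
      have h7 := M'.add_mem h6 hw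
      rwa [sub_add_cancel] at h7
    rw [e2] at e1
    refine e1.trans (e3.trans_eq ?_)
    exact Module.length_eq_finrank L _
  have h5 : colen M ≤ Module.finrank L ((Fin n × Fin k → L) ⧸ M'.map τ) := by
    unfold colen
    exact ENat.toNat_le_of_le_natCast h4
  omega


/-! ### The log discrepancy -/

section logDisc

private theorem ArcDivisor_ord_prod {R : Type} [CommRing R] [IsDomain R] {m : Type} (s : Finset m)
    (c : m → R) (hc : ∀ i, c i ≠ 0) : Ring.ord R (∏ i ∈ s, c i) = ∑ i ∈ s, Ring.ord R (c i) := by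
  classical
  induction s using Finset.induction_on with
  | empty => simp
  | insert a s ha ih =>
    rw [Finset.prod_insert ha, Finset.sum_insert ha, Ring.ord_mul R, ih]
    exact mem_nonZeroDivisors_of_ne_zero (Finset.prod_ne_zero_iff.2 fun i _ => hc i)

/-- The length of the cokernel of a square matrix over a principal ideal domain. -/
private theorem ArcDivisor_length {R : Type} [CommRing R] [IsDomain R] [IsPrincipalIdealRing R]
    {m : Type} [Fintype m] [DecidableEq m] (A : Matrix m m R) (hA : A.det ≠ 0) :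
    Module.length R ((m → R) ⧸ Submodule.span R (Set.range A)) = Ring.ord R A.det := by
  set N : Submodule R (m → R) := Submodule.span R (Set.range A) with hN
  have hr : LinearMap.range A.vecMulLinear = N := by
    rw [range_vecMulLinear]
    rfl
  have hinj : Function.Injective A.vecMulLinear := by
    rw [← LinearMap.ker_eq_bot, LinearMap.ker_eq_bot']
    intro x hx
    exact Matrix.eq_zero_of_vecMul_eq_zero hA hx
  let eN : (m → R) ≃ₗ[R] N :=
    (LinearEquiv.ofInjective A.vecMulLinear hinj).trans (LinearEquiv.ofEq _ _ hr)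
  have heN : ∀ x, ((eN x : N) : m → R) = A.vecMulLinear x := fun x => rfl
  have hrank : Module.finrank R N = Module.finrank R (m → R) := eN.finrank_eq.symm
  let b := Pi.basisFun R m
  let b' := Submodule.smithNormalFormTopBasis b hrank
  let ab := Submodule.smithNormalFormBotBasis b hrank
  let c := Submodule.smithNormalFormCoeffs b hrank
  have hab : ∀ i, (ab i : m → R) = c i • b' i := Submodule.smithNormalFormBotBasis_def b hrank
  have hc : ∀ i, c i ≠ 0 := fun i => Submodule.smithNormalFormCoeffs_ne_zero b hrank i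
  rw [(N.quotientEquivPiSpan b hrank).length_eq, Module.length_pi_of_fintype]
  have h1 : ∑ i, Module.length R (R ⧸ Ideal.span ({c i} : Set R)) = Ring.ord R (∏ i, c i) := by
    rw [ArcDivisor_ord_prod _ _ hc]
    rfl
  refine h1.trans (Ring.ord_eq_of_associated ?_)
  -- the two determinants
  let ψ : (m → R) →ₗ[R] (m → R) := N.subtype ∘ₗ (b'.equiv ab (Equiv.refl m)).toLinearMap
  have hψ : LinearMap.det ψ = ∏ i, c i := by
    rw [← LinearMap.det_toMatrix b', ← Matrix.det_diagonal]
    congr 1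
    ext i j
    rw [LinearMap.toMatrix_apply]
    have h2 : ψ (b' j) = c j • b' j := by
      rw [← hab j]
      show ((b'.equiv ab (Equiv.refl m) (b' j) : N) : m → R) = ab j
      rw [Module.Basis.equiv_apply]
      rfl
    rw [h2, map_smul, Finsupp.smul_apply, Module.Basis.repr_self, Matrix.diagonal_apply,
      smul_eq_mul, Finsupp.single_apply]
    split_ifs with h3 h4 h4
    · rw [mul_one, h3]
    · exact absurd h3.symm h4
    · exact absurd h4.symm h3
    · rw [mul_zero]
  have hφ : LinearMap.det A.vecMulLinear = A.det := by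
    rw [← Matrix.mulVecLin_transpose, ← Matrix.toLin'_apply', LinearMap.det_toLin',
      Matrix.det_transpose]
  rw [← hψ, ← hφ]
  refine (LinearMap.associated_det_of_eq_comp (eN.trans (b'.equiv ab (Equiv.refl m)).symm)
    A.vecMulLinear ψ fun x => ?_).symm
  show A.vecMulLinear x = ((b'.equiv ab (Equiv.refl m)
    ((b'.equiv ab (Equiv.refl m)).symm (eN x)) : N) : m → R)
  rw [LinearEquiv.apply_symm_apply, heN]

/-- If the cokernel has finite length the determinant is not zero. -/
private theorem ArcDivisor_det_ne {R : Type} [CommRing R] [IsDomain R] [IsDiscreteValuationRing R]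
    {m : Type} [Fintype m] [DecidableEq m] (A : Matrix m m R)
    (h : Module.length R ((m → R) ⧸ Submodule.span R (Set.range A)) ≠ ⊤) : A.det ≠ 0 := by
  intro h0
  obtain ⟨w, hw0, hw⟩ := Matrix.exists_mulVec_eq_zero_iff.2 h0
  obtain ⟨q, hq⟩ : ∃ q, w q ≠ 0 := by
    by_contra hne
    push Not at hne
    exact hw0 (funext hne)
  let ℓ : (m → R) →ₗ[R] R := ∑ i, w i • LinearMap.proj i
  have hℓ : ∀ x, ℓ x = ∑ i, w i * x i := by
    intro x
    simp [ℓ, LinearMap.sum_apply]
  have hker : Submodule.span R (Set.range A) ≤ LinearMap.ker ℓ := by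
    rw [Submodule.span_le]
    rintro _ ⟨p, rfl⟩
    show ℓ (A p) = 0
    rw [hℓ]
    have := congrFun hw p
    rw [Matrix.mulVec, dotProduct, Pi.zero_apply] at this
    rw [← this]
    exact Finset.sum_congr rfl fun i _ => mul_comm _ _
  let g : R →ₗ[R] ((m → R) ⧸ Submodule.span R (Set.range A)) :=
    (Submodule.mkQ _) ∘ₗ (LinearMap.single R (fun _ => R) q)
  have hg : Function.Injective g := by
    rw [← LinearMap.ker_eq_bot, LinearMap.ker_eq_bot']
    intro x hx
    have h1 : (Pi.single q x : m → R) ∈ Submodule.span R (Set.range A) :=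
      (Submodule.Quotient.mk_eq_zero _).1 hx
    have h2 : ℓ (Pi.single q x) = 0 := hker h1
    rw [hℓ, Finset.sum_eq_single q] at h2
    · rw [Pi.single_eq_same] at h2
      exact (mul_eq_zero.1 h2).resolve_left hq
    · intro i _ hi
      rw [Pi.single_eq_of_ne hi, mul_zero]
    · intro hh
      exact absurd (Finset.mem_univ q) hh
  have h3 : Module.length R R ≠ ⊤ := fun hh =>
    h (top_le_iff.1 (hh ▸ Module.length_le_of_injective g hg))
  have h4 : IsArtinian R R := (isFiniteLength_iff_isNoetherian_isArtinian.1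
    (Module.length_ne_top_iff.1 h3)).2
  have h5 : IsArtinianRing R := h4
  exact IsDiscreteValuationRing.not_isField R (IsArtinianRing.isField_of_isDomain R)

private theorem ArcDivisor_ord_dvr {R : Type} [CommRing R] [IsDomain R] [IsDiscreteValuationRing R]
    (x : R) (hx : x ≠ 0) : Ring.ord R x = IsDiscreteValuationRing.addVal R x := by
  obtain ⟨ϖ, hϖ⟩ := IsDiscreteValuationRing.exists_irreducible R
  obtain ⟨n, u, rfl⟩ := IsDiscreteValuationRing.eq_unit_mul_pow_irreducible hx hϖ
  rw [IsDiscreteValuationRing.addVal_def' u hϖ n, Ring.ord_mul_of_isUnit_left u.isUnit,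
    Ring.ord_pow (mem_nonZeroDivisors_of_ne_zero hϖ.ne_zero), Ring.ord_of_irreducible hϖ,
    nsmul_eq_mul, mul_one]

private theorem ArcDivisor_ord_series {L : Type} [Field L] (f : L⟦X⟧) (hf : f ≠ 0) :
    Ring.ord L⟦X⟧ f = f.order := by
  have h1 : f.order = (f.order.toNat : ℕ∞) := by
    rw [ENat.natCast_toNat]
    exact fun h => hf (PowerSeries.order_eq_top.1 h)
  have h2 : IsUnit (divXPowOrder f) := by
    rw [PowerSeries.isUnit_iff_constantCoeff, isUnit_iff_ne_zero, constantCoeff_divXPowOrder]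
    exact coeff_order hf
  conv_lhs => rw [← X_pow_order_mul_divXPowOrder (f := f)]
  rw [Ring.ord_mul_of_isUnit_right h2, Ring.ord_pow (mem_nonZeroDivisors_of_ne_zero X_ne_zero),
    Ring.ord_of_irreducible X_irreducible, nsmul_eq_mul, mul_one, ← h1]

/-- Colengths and matrices, ramified version of `colen_of_matrix`. -/
private theorem ArcDivisor_colen_matrix {V : Type} [CommRing V] [IsDomain V] [IsDiscreteValuationRing V]
    {L : Type} [Field L] (Φ : V →+* L⟦X⟧) (e₀ : ℕ)
    (hΦ : ∀ f, (Φ f).order = e₀ * IsDiscreteValuationRing.addVal V f) {r : ℕ} {κ : Type} [Fintype κ]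
    [DecidableEq κ] (hκ : Fintype.card κ = r + 1) (J : κ → Option (Fin r) → V)
    (a : ℕ) (ha : Module.length V ((Option (Fin r) → V) ⧸ Submodule.span V (Set.range J)) = a)
    (M : Submodule L⟦X⟧ (κ → L⟦X⟧))
    (hM : ∀ v, v ∈ M ↔ ∃ ζ : Option (Fin r) → L⟦X⟧, X ^ e₀ ∣ ζ none ∧
      ∀ p, v p = ∑ q, ζ q * Φ (J p q)) :
    FinColen M ∧ colen M = e₀ * (a + 1) := by
  classical
  let e : κ ≃ Option (Fin r) := Fintype.equivOfCardEq (by
    rw [hκ, Fintype.card_option, Fintype.card_fin])
  let A : Matrix (Option (Fin r)) (Option (Fin r)) V := fun i q => J (e.symm i) q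
  have hrange : Set.range A = Set.range J := by
    ext x
    constructor
    · rintro ⟨i, rfl⟩
      exact ⟨e.symm i, rfl⟩
    · rintro ⟨p, rfl⟩
      exact ⟨e p, by show J (e.symm (e p)) = J p; rw [e.symm_apply_apply]⟩
  rw [← hrange] at ha
  have hA : A.det ≠ 0 := ArcDivisor_det_ne A (by rw [ha]; exact ENat.natCast_ne_top a)
  have ha' : IsDiscreteValuationRing.addVal V A.det = a := by
    rw [← ArcDivisor_ord_dvr _ hA, ← ArcDivisor_length A hA, ha]
  -- the matrix over the power series
  let d : Option (Fin r) → L⟦X⟧ := fun q => if q = none then X ^ e₀ else 1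
  let B : Matrix (Option (Fin r)) (Option (Fin r)) L⟦X⟧ :=
    Matrix.diagonal d * (A.map Φ).transpose
  have hB : ∀ q i, B q i = d q * Φ (A i q) := by
    intro q i
    exact (Matrix.diagonal_mul d (A.map Φ).transpose q i).trans rfl
  have hdetC : (A.map Φ).det = Φ A.det := (RingHom.map_det Φ A).symm
  have hdetC0 : (A.map Φ).det ≠ 0 := by
    rw [hdetC]
    intro h
    have h2 := hΦ A.det
    rw [h, PowerSeries.order_zero, ha', ← Nat.cast_mul] at h2
    exact ENat.natCast_ne_top _ h2.symm
  have hdetd : ∏ q, d q = X ^ e₀ := by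
    rw [Fintype.prod_option]
    simp [d]
  have hdetB : B.det = X ^ e₀ * (A.map Φ).det := by
    rw [Matrix.det_mul, Matrix.det_diagonal, Matrix.det_transpose, hdetd]
  have hdetB0 : B.det ≠ 0 := by
    rw [hdetB]
    exact mul_ne_zero (pow_ne_zero _ X_ne_zero) hdetC0
  have hlenB : Module.length L⟦X⟧ ((Option (Fin r) → L⟦X⟧) ⧸
      Submodule.span L⟦X⟧ (Set.range B)) = ((e₀ * (a + 1) : ℕ) : ℕ∞) := by
    rw [ArcDivisor_length B hdetB0, hdetB,
      Ring.ord_mul L⟦X⟧ (mem_nonZeroDivisors_of_ne_zero hdetC0),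
      Ring.ord_pow (mem_nonZeroDivisors_of_ne_zero X_ne_zero),
      Ring.ord_of_irreducible X_irreducible, ArcDivisor_ord_series _ hdetC0, hdetC, hΦ, ha',
      nsmul_eq_mul, mul_one]
    push_cast
    ring
  -- reindexing
  let E : (κ → L⟦X⟧) ≃ₗ[L⟦X⟧] (Option (Fin r) → L⟦X⟧) :=
    LinearEquiv.funCongrLeft L⟦X⟧ L⟦X⟧ e.symm
  have hE : ∀ v i, E v i = v (e.symm i) := fun v i => rfl
  have hmap : M.map (E : (κ → L⟦X⟧) →ₗ[L⟦X⟧] (Option (Fin r) → L⟦X⟧)) =
      Submodule.span L⟦X⟧ (Set.range B) := by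
    ext x
    rw [Submodule.mem_span_range_iff_exists_fun]
    constructor
    · rintro ⟨v, hv, rfl⟩
      obtain ⟨ζ, ⟨z, hz⟩, h⟩ := (hM v).1 hv
      refine ⟨fun q => if q = none then z else ζ q, ?_⟩
      funext i
      rw [Finset.sum_apply]
      show _ = v (e.symm i)
      rw [h (e.symm i)]
      refine Finset.sum_congr rfl fun q _ => ?_
      rw [Pi.smul_apply, smul_eq_mul, hB]
      rcases q with _ | q
      · simp only [d, if_true]
        rw [hz]
        ring
      · simp only [d, reduceCtorEq, if_false, one_mul]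
        rfl
    · rintro ⟨c, rfl⟩
      refine ⟨fun p => ∑ q, (c q * d q) * Φ (J p q), ?_, ?_⟩
      · refine (hM _).2 ⟨fun q => c q * d q, ?_, fun p => rfl⟩
        simp only [d, if_true]
        exact dvd_mul_left _ _
      · funext i
        rw [Finset.sum_apply]
        show ∑ q, (c q * d q) * Φ (J (e.symm i) q) = _
        refine Finset.sum_congr rfl fun q _ => ?_
        rw [Pi.smul_apply, smul_eq_mul, hB, mul_assoc]
  have hlen : Module.length L⟦X⟧ ((κ → L⟦X⟧) ⧸ M) = ((e₀ * (a + 1) : ℕ) : ℕ∞) := by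
    rw [← hlenB]
    exact (Submodule.Quotient.equiv M _ E hmap).length_eq
  refine ⟨?_, ?_⟩
  · rw [FinColen, hlen]
    exact ENat.natCast_ne_top _
  · rw [colen, hlen, ENat.toNat_natCast]

private theorem ArcDivisor_hat_basis {V : Type} [CommRing V] [Algebra ℂ V] {L : Type}
    [Field L] [Algebra ℂ L] (Φ : V →ₐ[ℂ] L⟦X⟧) (δ : Derivation ℂ L L) {ι : Type} [Fintype ι]
    (b : Module.Basis ι V (KaehlerDifferential ℂ V)) (g : ι → V)
    (hb : ∀ q, b q = KaehlerDifferential.D ℂ V (g q)) (f : V) :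
    hat δ (Φ f) = ∑ q, hat δ (Φ (g q)) * Φ (b.repr (KaehlerDifferential.D ℂ V f) q) := by
  letI : Module V L⟦X⟧ := Module.compHom L⟦X⟧ Φ.toRingHom
  have hsm : ∀ (b : V) (f : L⟦X⟧), b • f = Φ b * f := fun _ _ => rfl
  haveI : IsScalarTower ℂ V L⟦X⟧ := ⟨fun z b f => by
    rw [hsm, hsm, map_smul, smul_mul_assoc]⟩
  let D : Derivation ℂ V L⟦X⟧ :=
    { toFun := fun b => hat δ (Φ b)
      map_add' := fun a b => by rw [map_add, hat_add]
      map_smul' := fun z b => by
        ext k; simp [hat]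
      map_one_eq_zero' := by
        change hat δ (Φ 1) = 0
        rw [map_one]
        have h1 := ArcDivisor_hat_pow δ (1 : L⟦X⟧) 0
        simpa using h1
      leibniz' := fun a b => by
        change hat δ (Φ (a * b)) = a • hat δ (Φ b) + b • hat δ (Φ a)
        rw [hsm, hsm, map_mul, hat_mul]
        ring }
  have h1 : D.liftKaehlerDifferential (KaehlerDifferential.D ℂ V f) = hat δ (Φ f) :=
    D.liftKaehlerDifferential_comp_D f
  rw [← h1]
  conv_lhs => rw [← b.sum_repr (KaehlerDifferential.D ℂ V f)]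
  rw [map_sum]
  refine Finset.sum_congr rfl fun q _ => ?_
  rw [map_smul, hb, hsm, Derivation.liftKaehlerDifferential_comp_D, mul_comm]
  rfl

private theorem ArcDivisor_logDisc {V : Type} [CommRing V] [IsDomain V] [Algebra ℂ V]
    [IsDiscreteValuationRing V] [Algebra.EssFiniteType ℂ V] {L : Type} [Field L] [Algebra ℂ L]
    (Φ : V →ₐ[ℂ] L⟦X⟧) (e : ℕ)
    (hord : ∀ f, (Φ f).order = e * IsDiscreteValuationRing.addVal V f) {r : ℕ}
    (hr : Algebra.trdeg ℂ V = (r + 1 : ℕ)) (y : Fin (r + 1) → V) (k a : ℕ)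
    (h1 : ∀ v : Fin (r + 1) → L⟦X⟧, (∀ l, X ^ k ∣ v l) →
      ∃ δ : Derivation ℂ L L, ∀ l, hat δ (Φ (y l)) = v l)
    (h2 : (r + 1) * k ≤ a + Module.finrank L (Submodule.span L {v : Fin (r + 1) × Fin k → L |
        ∃ δ : Derivation ℂ L L, ∀ p, coeff (p.2 : ℕ) (hat δ (Φ (y p.1))) = v p}))
    (hfin : Module.length V (KaehlerDifferential ℂ V ⧸ Submodule.span V
      (Set.range fun l => KaehlerDifferential.D ℂ V (y l))) ≠ ⊤) :
    (e : ℕ∞) * (1 + Module.length V (KaehlerDifferential ℂ V ⧸ Submodule.span V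
      (Set.range fun l => KaehlerDifferential.D ℂ V (y l)))) ≤ a := by
  classical
  obtain ⟨t, w, b, ht, hbt, hbw⟩ := exists_dvr_coords V r hr
  obtain ⟨a', ha'⟩ := ENat.ne_top_iff_exists.1 hfin
  let J : Fin (r + 1) → Option (Fin r) → V :=
    fun l q => b.repr (KaehlerDifferential.D ℂ V (y l)) q
  have hlen : Module.length V ((Option (Fin r) → V) ⧸ Submodule.span V (Set.range J)) = a' := by
    rw [ha']
    refine (LinearEquiv.length_eq (Submodule.Quotient.equiv _ _ b.equivFun ?_)).symm
    rw [Submodule.map_span, ← Set.range_comp]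
    rfl
  let M : Submodule L⟦X⟧ (Fin (r + 1) → L⟦X⟧) :=
    { carrier := {v | ∃ ζ : Option (Fin r) → L⟦X⟧, X ^ e ∣ ζ none ∧
        ∀ p, v p = ∑ q, ζ q * Φ (J p q)}
      add_mem' := by
        rintro v v' ⟨ζ, hζ, h⟩ ⟨ζ', hζ', h'⟩
        refine ⟨ζ + ζ', dvd_add hζ hζ', fun p => ?_⟩
        rw [Pi.add_apply, h, h', ← Finset.sum_add_distrib]
        exact Finset.sum_congr rfl fun q _ => by rw [Pi.add_apply, add_mul]
      zero_mem' := ⟨0, dvd_zero _, fun p => by simp⟩
      smul_mem' := by
        rintro c v ⟨ζ, hζ, h⟩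
        refine ⟨c • ζ, Dvd.dvd.mul_left hζ c, fun p => ?_⟩
        rw [Pi.smul_apply, h, smul_eq_mul, Finset.mul_sum]
        exact Finset.sum_congr rfl fun q _ => by rw [Pi.smul_apply, smul_eq_mul, mul_assoc] }
  have hM : ∀ v, v ∈ M ↔ ∃ ζ : Option (Fin r) → L⟦X⟧, X ^ e ∣ ζ none ∧
        ∀ p, v p = ∑ q, ζ q * Φ (J p q) := fun v => Iff.rfl
  obtain ⟨-, hcol⟩ := ArcDivisor_colen_matrix Φ.toRingHom e hord (Fintype.card_fin _) J a' hlen
    M hM
  have hT : ∀ δ : Derivation ℂ L L, (fun l => hat δ (Φ (y l))) ∈ M := by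
    intro δ
    rw [hM]
    let g : Option (Fin r) → V := fun o => o.elim t w
    have hb : ∀ q, b q = KaehlerDifferential.D ℂ V (g q) := by
      rintro (_ | i)
      · exact hbt
      · exact hbw i
    refine ⟨fun q => hat δ (Φ (g q)), ?_, fun p => ArcDivisor_hat_basis Φ δ b g hb (y p)⟩
    apply X_pow_dvd_hat
    change X ^ e ∣ Φ t
    rw [X_pow_dvd_iff]
    intro m hm
    apply coeff_of_lt_order
    rw [hord, IsDiscreteValuationRing.addVal_uniformizer ht, mul_one]
    exact_mod_cast hm
  have hcount := ArcDivisor_count (k := k) M (fun v hv => by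
      obtain ⟨δ, hδ⟩ := h1 v hv
      have h3 := hT δ
      have h4 : (fun l => hat δ (Φ (y l))) = v := funext hδ
      rwa [h4] at h3)
    {v : Fin (r + 1) × Fin k → L |
        ∃ δ : Derivation ℂ L L, ∀ p, coeff (p.2 : ℕ) (hat δ (Φ (y p.1))) = v p}
    (by
      rintro v ⟨δ, hδ⟩
      exact ⟨_, hT δ, hδ⟩)
  have hle : e * (a' + 1) ≤ a := by
    rw [← hcol]; omega
  rw [← ha']
  have : ((e * (a' + 1) : ℕ) : ℕ∞) ≤ a := by exact_mod_cast hle
  refine le_trans (le_of_eq ?_) this
  push_cast
  ring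

end logDisc


/-! ### The theorem -/

variable {R : Type} [CommRing R] [Algebra ℂ R] {𝒜 : ℕ → Submodule ℂ R} [GradedAlgebra 𝒜]
  {n : ℕ}

/-- J07c (arc to divisor): if moreover the space of values modulo `X ^ k` has dimension at least
`n k - a`, then the order function of the arc is either trivial or `e` times the order function of
a prime divisor `E` over `X`, with `e A(E) ≤ a`. -/
theorem Chart.exists_divisor (h : IsSmoothPolarised 𝒜 n) (hn : 1 ≤ n) (c : Chart 𝒜 n)
    {L : Type} [Field L] [Algebra ℂ L] (x : c.B →ₐ[ℂ] L⟦X⟧) (k a : ℕ)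
    (h1 : ∀ v : Fin n → L⟦X⟧, (∀ l, X ^ k ∣ v l) →
        ∃ δ : Derivation ℂ L L, ∀ l, hat δ (x (c.y l)) = v l)
    (h2 : n * k ≤ a + Module.finrank L (Submodule.span L {v : Fin n × Fin k → L |
        ∃ δ : Derivation ℂ L L, ∀ p, coeff (p.2 : ℕ) (hat δ (x (c.y p.1))) = v p})) :
    (∀ m, ∀ s ∈ 𝒜 m, s ≠ 0 → (x (c.ρ s)).order = 0) ∨
    ∃ (E : DivisorOver 𝒜 n 1) (e : ℕ), 1 ≤ e ∧ (e : ℕ∞) * E.logDisc ≤ a ∧
      ∀ m, ∀ s ∈ 𝒜 m, (x (c.ρ s)).order = e * E.ord (E.φ 0 s) := by
  have hx : Function.Injective x := c.arc_injective x k h1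
  obtain ⟨V, iC, iD, iA, ψ, Φ, hψ, hΦ, hdvd, hfr⟩ := ArcDivisor_ring x hx
  have hψi : Function.Injective ψ := fun b b' hb => hx (by rw [← hψ, ← hψ, hb])
  by_cases htriv : ∀ f : V, f ≠ 0 → (Φ f).order = 0
  · left
    intro m s hs hs0
    rw [← hψ]
    apply htriv
    intro h0
    exact hs0 (c.inj m s hs (hψi (by rw [h0, map_zero])))
  right
  push Not at htriv
  obtain ⟨e, iV, he, hord⟩ := ArcDivisor_dvr Φ hΦ hdvd htriv
  obtain ⟨r, rfl⟩ : ∃ r, n = r + 1 := ⟨n - 1, by omega⟩
  have htr : Algebra.trdeg ℂ V = (r + 1 : ℕ) := ArcDivisor_trdeg c ψ hψi hfr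
  obtain ⟨w, hw⟩ := ArcDivisor_residue c x hn k h1 ψ Φ hx hψ hfr e he hord
  have hess : Algebra.EssFiniteType ℂ V :=
    essFiniteType_of_residue V (r + 1) hn htr (ArcDivisor_essFinite ψ hψi hfr) w hw
  let E : DivisorOver 𝒜 (r + 1) 1 :=
    { V := V
      φ := fun _ => ψ.comp c.ρ
      centre := fun _ => ⟨c.d, c.hd, c.F, c.hF, c.unit.map ψ⟩
      generates := ArcDivisor_generates c ψ hψi hfr
      trdeg := by rw [mul_one]; exact htr }
  have hpb : E.pulledBack = Submodule.span V
      (Set.range fun l : Fin (r + 1) => KaehlerDifferential.D ℂ V (ψ (c.y l))) := by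
    have h3 := E.pulledBack_eq (fun _ => c) (fun _ => ψ) (fun _ => 1)
      (fun j m s hs => by rw [Units.val_one, one_pow, one_mul]; rfl)
    rw [h3]
    congr 1
    ext ω
    constructor
    · rintro ⟨p, rfl⟩; exact ⟨p.2, rfl⟩
    · rintro ⟨l, rfl⟩; exact ⟨(0, l), rfl⟩
  have hne : Module.length V (KaehlerDifferential ℂ V ⧸ Submodule.span V
      (Set.range fun l : Fin (r + 1) => KaehlerDifferential.D ℂ V (ψ (c.y l)))) ≠ ⊤ := by
    intro htop
    apply E.logDisc_ne_top
    unfold DivisorOver.logDisc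
    rw [hpb, htop]
    simp
  refine ⟨E, e, he, ?_, ?_⟩
  · unfold DivisorOver.logDisc
    rw [hpb]
    apply ArcDivisor_logDisc Φ e hord htr (fun l => ψ (c.y l)) k a
    · simpa only [hψ] using h1
    · have hset : {v : Fin (r + 1) × Fin k → L |
          ∃ δ : Derivation ℂ L L, ∀ p, coeff (p.2 : ℕ) (hat δ (Φ (ψ (c.y p.1)))) = v p} =
          {v : Fin (r + 1) × Fin k → L |
          ∃ δ : Derivation ℂ L L, ∀ p, coeff (p.2 : ℕ) (hat δ (x (c.y p.1))) = v p} := by
        ext v
        simp only [hψ]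
      rw [hset]
      exact h2
    · exact hne
  · intro m s hs
    rw [← hψ]
    exact hord _

end Pool.Agent.Lib_GD
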