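import Mathlib

/-! B06: leading exponents and filtrations. -/

namespace Pool.Agent.Lib_GD

private theorem leading_linInd {V : Type} [AddCommGroup V] [Module ℂ V] {Λ : Type}
    [LinearOrder Λ] [WellFoundedLT Λ] (c : Λ → V →ₗ[ℂ] ℂ) (T : Set Λ) (v : T → V)
    (h1 : ∀ γ : T, c γ (v γ) ≠ 0) (h2 : ∀ γ : T, ∀ α < (γ : Λ), c α (v γ) = 0) :
    LinearIndependent ℂ v := by
  classical
  rw [linearIndependent_iff']
  intro s a ha
  have key : ∀ γ : Λ, ∀ hγ : γ ∈ T, (⟨γ, hγ⟩ : T) ∈ s → a ⟨γ, hγ⟩ = 0 := by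
    intro γ
    induction γ using WellFoundedLT.induction with
    | _ γ ih =>
      intro hγ hs
      have h3 := congrArg (c γ) ha
      rw [map_sum, map_zero, Finset.sum_eq_single_of_mem _ hs] at h3
      · rw [map_smul, smul_eq_mul] at h3
        rcases mul_eq_zero.1 h3 with h4 | h4
        · exact h4
        · exact absurd h4 (h1 ⟨γ, hγ⟩)
      · rintro ⟨β, hβ⟩ hβs hne
        rw [map_smul, smul_eq_mul]
        rcases lt_trichotomy β γ with h | h | h
        · rw [ih β h hβ hβs, zero_mul]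
        · exact absurd (Subtype.ext h) hne
        · rw [h2 ⟨β, hβ⟩ γ h, mul_zero]
  intro γ hγ
  exact key γ γ.2 hγ

private theorem leading_set {V : Type} [AddCommGroup V] [Module ℂ V] [Module.Finite ℂ V]
    {Λ : Type} [LinearOrder Λ] [WellFoundedLT Λ] (c : Λ → V →ₗ[ℂ] ℂ)
    (hc : ∀ v, (∀ α, c α v = 0) → v = 0) (W : Submodule ℂ V) :
    ∃ S : Finset Λ, S.card = Module.finrank ℂ W ∧
      ∀ γ, γ ∈ S ↔ ∃ v ∈ W, c γ v ≠ 0 ∧ ∀ α < γ, c α v = 0 := by
  classical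
  set P : Set Λ := {γ | ∃ v ∈ W, c γ v ≠ 0 ∧ ∀ α < γ, c α v = 0} with hP
  have hb : ∀ T : Finset Λ, (T : Set Λ) ⊆ P → T.card ≤ Module.finrank ℂ W := by
    intro T hT
    have h0 : ∀ γ : (T : Set Λ), ∃ v ∈ W, c γ v ≠ 0 ∧ ∀ α < (γ : Λ), c α v = 0 :=
      fun γ => hT γ.2
    choose v hvW hv1 hv2 using h0
    have hli := leading_linInd c (T : Set Λ) v hv1 hv2
    have hli2 : LinearIndependent ℂ (fun γ : (T : Set Λ) => (⟨v γ, hvW γ⟩ : W)) := by
      refine LinearIndependent.of_comp W.subtype ?_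
      exact hli
    have := hli2.fintype_card_le_finrank
    simpa using this
  have hfin : P.Finite := by
    by_contra hinf
    obtain ⟨T, hT, hcard⟩ := Set.Infinite.exists_subset_card_eq hinf (Module.finrank ℂ W + 1)
    have := hb T hT
    omega
  refine ⟨hfin.toFinset, le_antisymm (hb _ (by simp)) ?_, fun γ => by simp [hP]⟩
  let L : W →ₗ[ℂ] (hfin.toFinset → ℂ) := LinearMap.pi fun γ => (c γ).comp W.subtype
  have hL : Function.Injective L := by
    rw [injective_iff_map_eq_zero]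
    intro w hw
    by_contra hne
    have hne' : (w : V) ≠ 0 := fun h => hne (Subtype.ext h)
    have hex : ∃ α, c α (w : V) ≠ 0 := by
      by_contra hcon
      push Not at hcon
      exact hne' (hc _ hcon)
    have hwf : WellFounded ((· < ·) : Λ → Λ → Prop) := wellFounded_lt
    set γ := hwf.min {α | c α (w : V) ≠ 0} hex with hγ
    have hγ1 : c γ (w : V) ≠ 0 := hwf.min_mem {α | c α (w : V) ≠ 0} hex
    have hγ2 : ∀ α < γ, c α (w : V) = 0 := by
      intro α hα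
      by_contra hcon
      exact hwf.not_lt_min {α | c α (w : V) ≠ 0} hcon hα
    have hmem : γ ∈ hfin.toFinset := by
      rw [Set.Finite.mem_toFinset]
      exact ⟨w, w.2, hγ1, hγ2⟩
    have := congrFun hw ⟨γ, hmem⟩
    exact hγ1 this
  have := LinearMap.finrank_le_finrank_of_injective hL
  simpa using this

open Classical in
/-- B06: `V` a finite-dimensional space with functionals `c α`, `α` in a well-ordered set, jointly
injective; `ν v` the smallest `α` with `c α v ≠ 0`. For a function `f : V → ℕ∞` all of whose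
superlevel sets `{f ≥ k}` are subspaces, with `f v ≠ ⊤` for `v ≠ 0`, there is `g` such that: the
set `Γ` of leading exponents is finite with `dim V` elements, `g γ` is the maximum of `f` on the
vectors with leading exponent `γ`, the number of `γ ∈ Γ` with `g γ ≥ k` is `dim {f ≥ k}`, and the
sum of `f` over any basis is at most `∑ g`. -/
theorem exists_leading {V : Type} [AddCommGroup V] [Module ℂ V] [Module.Finite ℂ V] {Λ : Type}
    [LinearOrder Λ] [WellFoundedLT Λ] (c : Λ → V →ₗ[ℂ] ℂ) (hc : ∀ v, (∀ α, c α v = 0) → v = 0)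
    (f : V → ℕ∞) (U : ℕ → Submodule ℂ V) (hU : ∀ k v, v ∈ U k ↔ (k : ℕ∞) ≤ f v)
    (hf : ∀ v, v ≠ 0 → f v ≠ ⊤) :
    ∃ (Γ : Finset Λ) (g : Λ → ℕ), Γ.card = Module.finrank ℂ V ∧
      (∀ γ, γ ∈ Γ ↔ ∃ v, c γ v ≠ 0 ∧ ∀ α < γ, c α v = 0) ∧
      (∀ γ ∈ Γ, ∃ v, c γ v ≠ 0 ∧ (∀ α < γ, c α v = 0) ∧ f v = g γ) ∧
      (∀ γ v, c γ v ≠ 0 → (∀ α < γ, c α v = 0) → f v ≤ g γ) ∧
      (∀ k : ℕ, (Γ.filter fun γ => k ≤ g γ).card = Module.finrank ℂ (U k)) ∧
      ∀ b : Fin (Module.finrank ℂ V) → V, LinearIndependent ℂ b →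
        ∑ i, (f (b i)).toNat ≤ ∑ γ ∈ Γ, g γ := by
  obtain ⟨Γ, hΓc, hΓ⟩ := leading_set c hc (⊤ : Submodule ℂ V)
  have hΓ' : ∀ γ, γ ∈ Γ ↔ ∃ v, c γ v ≠ 0 ∧ ∀ α < γ, c α v = 0 := by
    intro γ; rw [hΓ]; simp
  -- the filtration is eventually zero
  have hanti : Antitone U := by
    intro a b hab v hv
    rw [hU] at hv ⊢
    exact le_trans (by exact_mod_cast hab) hv
  obtain ⟨K, hK⟩ : ∃ K, ∀ n, K ≤ n → U K = U n :=
    monotone_stabilizes_iff_artinian.2 inferInstance ⟨fun n => OrderDual.toDual (U n), hanti⟩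
  have hK0 : ∀ v, v ≠ 0 → f v < K := by
    intro v hv
    by_contra hcon
    rw [not_lt, ← hU] at hcon
    apply hf v hv
    rw [ENat.eq_top_iff_forall_ge]
    intro m
    rcases le_total K m with h | h
    · rw [← hU, ← hK m h]; exact hcon
    · rw [← hU]; exact hanti h hcon
  -- the maximum
  let g : Λ → ℕ := fun γ => sSup {k : ℕ | ∃ v, c γ v ≠ 0 ∧ (∀ α < γ, c α v = 0) ∧ (k : ℕ∞) ≤ f v}
  have hbd : ∀ γ, BddAbove {k : ℕ | ∃ v, c γ v ≠ 0 ∧ (∀ α < γ, c α v = 0) ∧ (k : ℕ∞) ≤ f v} := by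
    intro γ
    refine ⟨K, ?_⟩
    rintro k ⟨v, h1, _, h3⟩
    have hv : v ≠ 0 := by rintro rfl; simp at h1
    have := lt_of_le_of_lt h3 (hK0 v hv)
    exact_mod_cast this.le
  have hfin : ∀ v, v ≠ 0 → ((f v).toNat : ℕ∞) = f v := fun v hv => ENat.natCast_toNat (hf v hv)
  have hg2 : ∀ γ v, c γ v ≠ 0 → (∀ α < γ, c α v = 0) → f v ≤ g γ := by
    intro γ v h1 h2
    have hv : v ≠ 0 := by rintro rfl; simp at h1
    rw [← hfin v hv]
    have : (f v).toNat ≤ g γ := le_csSup (hbd γ) ⟨v, h1, h2, (hfin v hv).le⟩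
    exact_mod_cast this
  have hg1 : ∀ γ ∈ Γ, ∃ v, c γ v ≠ 0 ∧ (∀ α < γ, c α v = 0) ∧ f v = g γ := by
    intro γ hγ
    obtain ⟨v0, h1, h2⟩ := (hΓ' γ).1 hγ
    have hne : {k : ℕ | ∃ v, c γ v ≠ 0 ∧ (∀ α < γ, c α v = 0) ∧ (k : ℕ∞) ≤ f v}.Nonempty :=
      ⟨0, v0, h1, h2, by simp⟩
    obtain ⟨v, h3, h4, h5⟩ := Nat.sSup_mem hne (hbd γ)
    exact ⟨v, h3, h4, le_antisymm (hg2 γ v h3 h4) h5⟩
  have hcount : ∀ k : ℕ, (Γ.filter fun γ => k ≤ g γ).card = Module.finrank ℂ (U k) := by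
    intro k
    obtain ⟨S, hSc, hS⟩ := leading_set c hc (U k)
    rw [← hSc]
    congr 1
    ext γ
    rw [Finset.mem_filter, hS]
    constructor
    · rintro ⟨h1, h2⟩
      obtain ⟨v, h3, h4, h5⟩ := hg1 γ h1
      exact ⟨v, (hU k v).2 (by rw [h5]; exact_mod_cast h2), h3, h4⟩
    · rintro ⟨v, h1, h2, h3⟩
      refine ⟨(hΓ' γ).2 ⟨v, h2, h3⟩, ?_⟩
      have := le_trans ((hU k v).1 h1) (hg2 γ v h2 h3)
      exact_mod_cast this
  refine ⟨Γ, g, by rw [hΓc]; exact finrank_top ℂ V, hΓ', hg1, hg2, hcount, ?_⟩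
  intro b hb
  -- layer cake
  have hcake : ∀ (m : ℕ), m ≤ K → m = ∑ k ∈ Finset.range K, if k + 1 ≤ m then 1 else 0 := by
    intro m hm
    rw [Finset.sum_ite, Finset.sum_const_zero, add_zero, Finset.sum_const, smul_eq_mul, mul_one]
    have : (Finset.range K).filter (fun k => k + 1 ≤ m) = Finset.range m := by
      ext k; simp only [Finset.mem_filter, Finset.mem_range]; omega
    rw [this, Finset.card_range]
  have hbv : ∀ i, b i ≠ 0 := fun i => hb.ne_zero i
  have hb1 : ∀ i, (f (b i)).toNat ≤ K := by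
    intro i
    have := hK0 (b i) (hbv i)
    rw [← hfin _ (hbv i)] at this
    exact_mod_cast this.le
  have hg3 : ∀ γ ∈ Γ, g γ ≤ K := by
    intro γ hγ
    obtain ⟨v, h3, h4, h5⟩ := hg1 γ hγ
    have hv : v ≠ 0 := by rintro rfl; simp at h3
    have := hK0 v hv
    rw [h5] at this
    exact_mod_cast this.le
  calc ∑ i, (f (b i)).toNat
      = ∑ i, ∑ k ∈ Finset.range K, (if k + 1 ≤ (f (b i)).toNat then 1 else 0) :=
        Finset.sum_congr rfl fun i _ => hcake _ (hb1 i)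
    _ = ∑ k ∈ Finset.range K, ∑ i, (if k + 1 ≤ (f (b i)).toNat then 1 else 0) :=
        Finset.sum_comm
    _ ≤ ∑ k ∈ Finset.range K, ∑ γ ∈ Γ, (if k + 1 ≤ g γ then 1 else 0) := by
        refine Finset.sum_le_sum fun k _ => ?_
        rw [← Finset.card_filter, ← Finset.card_filter, hcount (k + 1)]
        set I := Finset.univ.filter (fun i => k + 1 ≤ (f (b i)).toNat) with hI
        have hmem : ∀ i : I, b i ∈ U (k + 1) := by
          intro i
          have := (Finset.mem_filter.1 i.2).2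
          rw [hU, ← hfin _ (hbv i)]
          exact_mod_cast this
        have hli : LinearIndependent ℂ (fun i : I => (⟨b i, hmem i⟩ : U (k + 1))) := by
          refine LinearIndependent.of_comp (U (k + 1)).subtype ?_
          exact hb.comp (fun i : I => (i : Fin _)) Subtype.val_injective
        have := hli.fintype_card_le_finrank
        simpa using this
    _ = ∑ γ ∈ Γ, ∑ k ∈ Finset.range K, (if k + 1 ≤ g γ then 1 else 0) := Finset.sum_comm
    _ = ∑ γ ∈ Γ, g γ := Finset.sum_congr rfl fun γ hγ => (hcake _ (hg3 γ hγ)).symm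

end Pool.Agent.Lib_GD
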