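import Pool.Agent.Lib_GD.GeomDefs
import Pool.Agent.Lib_GD.ChartDer

/-! G05: points of `X` and charts. -/

open PowerSeries

namespace Pool.Agent.Lib_GD

variable {R : Type} [CommRing R] [Algebra ℂ R] {𝒜 : ℕ → Submodule ℂ R} [GradedAlgebra 𝒜]
  {n : ℕ}

section ChartPoint

variable (c : Chart 𝒜 n)

private theorem ChartPoint_pow (k : ℕ) : c.F ^ k ∈ 𝒜 (c.d * k) := by
  have h := SetLike.pow_mem_graded k c.hF
  rwa [smul_eq_mul, Nat.mul_comm] at h

private theorem ChartPoint_inj (m : ℕ) (s s' : R) (hs : s ∈ 𝒜 m) (hs' : s' ∈ 𝒜 m)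
    (h : c.ρ s = c.ρ s') : s = s' := by
  have h1 := c.inj m (s - s') (sub_mem hs hs') (by rw [map_sub, h, sub_self])
  exact sub_eq_zero.1 h1

variable {V : Type} [CommRing V] [Algebra ℂ V] (φ : R →ₐ[ℂ] V)

omit [Algebra ℂ V] in
private theorem ChartPoint_mulmem {a b : R} {i j l : ℕ} (ha : a ∈ 𝒜 i) (hb : b ∈ 𝒜 j)
    (h : i + j = l) : a * b ∈ 𝒜 l := by
  subst h
  exact SetLike.mul_mem_graded ha hb

/-- two presentations of the same function -/
private theorem ChartPoint_eq {b : c.B} {k k' : ℕ} {s s' : R} (hs : s ∈ 𝒜 (c.d * k))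
    (hs' : s' ∈ 𝒜 (c.d * k')) (h : b * c.ρ c.F ^ k = c.ρ s) (h' : b * c.ρ c.F ^ k' = c.ρ s') :
    φ s * φ c.F ^ k' = φ s' * φ c.F ^ k := by
  have h1 : s * c.F ^ k' = s' * c.F ^ k := by
    refine ChartPoint_inj c (c.d * (k + k')) _ _
      (ChartPoint_mulmem hs (ChartPoint_pow c k') (by ring))
      (ChartPoint_mulmem hs' (ChartPoint_pow c k) (by ring)) ?_
    rw [map_mul, map_mul, map_pow, map_pow, ← h, ← h']
    ring
  rw [← map_pow, ← map_mul, h1, map_mul, map_pow]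

end ChartPoint

/-- G05a: a point `φ : R → V` of the cone for which `F` and `T` are units comes from the chart:
`φ s = w^m ψ (ρ s)` for `s ∈ 𝒜 m`. -/
theorem Chart.exists_point (c : Chart 𝒜 n) {V : Type} [CommRing V] [Algebra ℂ V]
    (φ : R →ₐ[ℂ] V) (hF : IsUnit (φ c.F)) (hT : IsUnit (φ c.T)) :
    ∃ (ψ : c.B →ₐ[ℂ] V) (w : Vˣ), ∀ m, ∀ s ∈ 𝒜 m, φ s = (w : V) ^ m * ψ (c.ρ s) := by
  classical
  obtain ⟨uF, huF⟩ := hF
  obtain ⟨uT, huT⟩ := hT
  choose k s hs hks using c.surj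
  let f : c.B → V := fun b => φ (s b) * ((uF⁻¹ : Vˣ) : V) ^ k b
  -- the value of f from any presentation
  have key : ∀ (b : c.B) (l : ℕ) (t : R), t ∈ 𝒜 (c.d * l) → b * c.ρ c.F ^ l = c.ρ t →
      f b * φ c.F ^ l = φ t := by
    intro b l t ht h
    have h1 := ChartPoint_eq c φ (hs b) ht (hks b) h
    have h2 : φ c.F ^ k b * ((uF⁻¹ : Vˣ) : V) ^ k b = 1 := by
      rw [← huF, ← mul_pow, Units.mul_inv, one_pow]
    calc f b * φ c.F ^ l = φ (s b) * φ c.F ^ l * ((uF⁻¹ : Vˣ) : V) ^ k b := by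
          change φ (s b) * ((uF⁻¹ : Vˣ) : V) ^ k b * φ c.F ^ l = _
          ring
      _ = φ t * (φ c.F ^ k b * ((uF⁻¹ : Vˣ) : V) ^ k b) := by rw [h1]; ring
      _ = φ t := by rw [h2, mul_one]
  have canc : ∀ (l : ℕ) (x y : V), x * φ c.F ^ l = y * φ c.F ^ l → x = y := by
    intro l x y h
    have h1 : φ c.F ^ l * ((uF⁻¹ : Vˣ) : V) ^ l = 1 := by
      rw [← huF, ← mul_pow, Units.mul_inv, one_pow]
    calc x = x * φ c.F ^ l * ((uF⁻¹ : Vˣ) : V) ^ l := by rw [mul_assoc, h1, mul_one]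
      _ = y * φ c.F ^ l * ((uF⁻¹ : Vˣ) : V) ^ l := by rw [h]
      _ = y := by rw [mul_assoc, h1, mul_one]
  have own : ∀ b, f b * φ c.F ^ k b = φ (s b) := fun b => key b (k b) (s b) (hs b) (hks b)
  have hone : f 1 = 1 := by
    have h := key 1 0 1 (by rw [Nat.mul_zero]; exact SetLike.one_mem_graded 𝒜)
      (by rw [map_one, pow_zero, mul_one])
    rwa [pow_zero, mul_one, map_one] at h
  have hzero : f 0 = 0 := by
    have h := key 0 0 0 (zero_mem _) (by rw [map_zero, zero_mul])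
    rwa [pow_zero, mul_one, map_zero] at h
  have hmul : ∀ a b, f (a * b) = f a * f b := by
    intro a b
    refine canc (k a + k b) _ _ ?_
    rw [key (a * b) (k a + k b) (s a * s b) (ChartPoint_mulmem (hs a) (hs b) (by ring))
      (by rw [map_mul, ← hks a, ← hks b]; ring), map_mul, ← own a, ← own b]
    ring
  have hadd : ∀ a b, f (a + b) = f a + f b := by
    intro a b
    refine canc (k a + k b) _ _ ?_
    rw [key (a + b) (k a + k b) (s a * c.F ^ k b + s b * c.F ^ k a)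
      (add_mem (ChartPoint_mulmem (hs a) (ChartPoint_pow c _) (by ring))
        (ChartPoint_mulmem (hs b) (ChartPoint_pow c _) (by ring)))
      (by rw [map_add, map_mul, map_mul, map_pow, map_pow, ← hks a, ← hks b]; ring),
      map_add, map_mul, map_mul, map_pow, map_pow, ← own a, ← own b]
    ring
  have halg : ∀ z : ℂ, f (algebraMap ℂ c.B z) = algebraMap ℂ V z := by
    intro z
    have h := key (algebraMap ℂ c.B z) 0 (algebraMap ℂ R z)
      (by rw [Nat.mul_zero]; exact SetLike.algebraMap_mem_graded 𝒜 z)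
      (by rw [AlgHom.commutes, pow_zero, mul_one])
    rwa [pow_zero, mul_one, AlgHom.commutes] at h
  let ψ : c.B →ₐ[ℂ] V :=
    { toFun := f
      map_one' := hone
      map_mul' := hmul
      map_zero' := hzero
      map_add' := hadd
      commutes' := halg }
  refine ⟨ψ, uT * (uF ^ c.e)⁻¹, fun m t ht => ?_⟩
  change φ t = _ * f (c.ρ t)
  set K := k (c.ρ t) with hK
  have h1 : t * c.F ^ (c.e * m + K) = c.T ^ m * s (c.ρ t) := by
    have hTm : c.T ^ m ∈ 𝒜 ((c.d * c.e + 1) * m) := by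
      have h := SetLike.pow_mem_graded m c.hT
      rwa [smul_eq_mul, Nat.mul_comm] at h
    refine ChartPoint_inj c (m + c.d * (c.e * m + K)) _ _
      (ChartPoint_mulmem ht (ChartPoint_pow c _) rfl)
      (ChartPoint_mulmem hTm (hs (c.ρ t)) (by rw [← hK]; ring)) ?_
    rw [map_mul, map_mul, map_pow, map_pow, c.ρT, ← hks (c.ρ t), ← hK]
    ring
  have h2 := congrArg φ h1
  rw [map_mul, map_mul, map_pow, map_pow, ← own (c.ρ t), ← hK] at h2
  refine canc (c.e * m + K) _ _ ?_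
  rw [h2]
  have h3 : ((uT * (uF ^ c.e)⁻¹ : Vˣ) : V) ^ m * φ c.F ^ (c.e * m) = φ c.T ^ m := by
    rw [← huF, ← huT, pow_mul, ← mul_pow, ← Units.val_pow_eq_pow_val, ← Units.val_mul,
      mul_assoc, inv_mul_cancel, mul_one]
  rw [← h3, pow_add]
  ring

/-- G05b: with an atlas every point of `X` with values in a local ring comes from a chart. -/
theorem Atlas.exists_point (a : Atlas 𝒜 n) {V : Type} [CommRing V] [IsLocalRing V]
    [Algebra ℂ V] (φ : R →ₐ[ℂ] V) (hφ : ∃ d > 0, ∃ f ∈ 𝒜 d, IsUnit (φ f)) :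
    ∃ (k : Fin a.r) (ψ : (a.chart k).B →ₐ[ℂ] V) (w : Vˣ),
      ∀ m, ∀ s ∈ 𝒜 m, φ s = (w : V) ^ m * ψ ((a.chart k).ρ s) := by
  obtain ⟨d, hd, f, hf, hu⟩ := hφ
  set p : Ideal R := Ideal.comap φ (IsLocalRing.maximalIdeal V) with hp
  have hmem : ∀ x : R, x ∉ p ↔ IsUnit (φ x) := by
    intro x
    rw [hp, Ideal.mem_comap, IsLocalRing.mem_maximalIdeal, mem_nonunits_iff, not_not]
  have hpp : p.IsPrime := Ideal.comap_isPrime _ _
  obtain ⟨k, h1, h2⟩ := a.cover p hpp ⟨d, hd, f, hf, (hmem f).2 hu⟩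
  obtain ⟨ψ, w, h⟩ := (a.chart k).exists_point φ ((hmem _).1 h1) ((hmem _).1 h2)
  exact ⟨k, ψ, w, h⟩

/-- G05c: the ratios of sections are exactly the functions of the chart. -/
theorem Chart.ratio_mem (c : Chart 𝒜 n) (b : c.B) :
    ∃ m, ∃ s ∈ 𝒜 m, ∃ s' ∈ 𝒜 m, IsUnit (c.ρ s') ∧ b * c.ρ s' = c.ρ s := by
  obtain ⟨k, s, hs, h⟩ := c.surj b
  refine ⟨c.d * k, s, hs, c.F ^ k, ChartPoint_pow c k, ?_, ?_⟩
  · rw [map_pow]
    exact c.unit.pow k
  · rw [map_pow]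
    exact h

/-- G05d: every chart has a `ℂ`-point. -/
theorem Chart.exists_C_point (c : Chart 𝒜 n) : Nonempty (c.B →ₐ[ℂ] ℂ) := by
  obtain ⟨M, hM⟩ := Ideal.exists_maximal c.B
  letI : Field (c.B ⧸ M) := Ideal.Quotient.field M
  have h1 : Algebra.FiniteType ℂ (c.B ⧸ M) :=
    Algebra.FiniteType.of_surjective (Ideal.Quotient.mkₐ ℂ M) (Ideal.Quotient.mkₐ_surjective ℂ M)
  have h2 : Module.Finite ℂ (c.B ⧸ M) := finite_of_finite_type_of_isJacobsonRing ℂ (c.B ⧸ M)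
  have h3 : Function.Bijective (algebraMap ℂ (c.B ⧸ M)) :=
    IsAlgClosed.algebraMap_bijective_of_isIntegral
  let e : ℂ ≃ₐ[ℂ] (c.B ⧸ M) := AlgEquiv.ofBijective (Algebra.ofId ℂ _) h3
  exact ⟨(e.symm : (c.B ⧸ M) →ₐ[ℂ] ℂ).comp (Ideal.Quotient.mkₐ ℂ M)⟩

end Pool.Agent.Lib_GD
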