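import Pool.Agent.Lib_GD.ChartPoint
import Pool.Agent.Lib_GD.ChartDer
import Pool.Agent.Lib_GD.Growth

/-! G06: separation of jets. -/

open PowerSeries

namespace Pool.Agent.Lib_GD

variable {R : Type} [CommRing R] [Algebra ℂ R] {𝒜 : ℕ → Submodule ℂ R} [GradedAlgebra 𝒜]
  {n : ℕ}

section Aux

variable {L : Type} [Field L] [Algebra ℂ L]

/-- the span over `L` of the Taylor expansions of the sections of degree `m` -/
private noncomputable def Sep_W (c : Chart 𝒜 n) (t : c.B →ₐ[ℂ] MvPowerSeries (Fin n) L) (m : ℕ) :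
    Submodule L (MvPowerSeries (Fin n) L) :=
  Submodule.span L {f | ∃ s ∈ 𝒜 m, f = t (c.ρ s)}

private theorem Sep_mem (c : Chart 𝒜 n) (t : c.B →ₐ[ℂ] MvPowerSeries (Fin n) L) {m : ℕ} {s : R}
    (hs : s ∈ 𝒜 m) : t (c.ρ s) ∈ Sep_W c t m :=
  Submodule.subset_span ⟨s, hs, rfl⟩

private theorem Sep_mul (c : Chart 𝒜 n) (t : c.B →ₐ[ℂ] MvPowerSeries (Fin n) L) {a b : ℕ}
    {f g : MvPowerSeries (Fin n) L} (hf : f ∈ Sep_W c t a) (hg : g ∈ Sep_W c t b) :
    f * g ∈ Sep_W c t (a + b) := by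
  have h1 : Sep_W c t a * Sep_W c t b ≤ Sep_W c t (a + b) := by
    unfold Sep_W
    rw [Submodule.span_mul_span]
    refine Submodule.span_le.2 ?_
    rintro _ ⟨_, ⟨s, hs, rfl⟩, _, ⟨s', hs', rfl⟩, rfl⟩
    refine Submodule.subset_span ⟨s * s', SetLike.mul_mem_graded hs hs', ?_⟩
    simp only [map_mul]
  exact h1 (Submodule.mul_mem_mul hf hg)

private theorem Sep_one (c : Chart 𝒜 n) (t : c.B →ₐ[ℂ] MvPowerSeries (Fin n) L) :
    (1 : MvPowerSeries (Fin n) L) ∈ Sep_W c t 0 := by
  have h := Sep_mem c t (SetLike.one_mem_graded 𝒜)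
  rwa [map_one, map_one] at h

private theorem Sep_pow (c : Chart 𝒜 n) (t : c.B →ₐ[ℂ] MvPowerSeries (Fin n) L) {a : ℕ}
    {f : MvPowerSeries (Fin n) L} (hf : f ∈ Sep_W c t a) (k : ℕ) :
    f ^ k ∈ Sep_W c t (a * k) := by
  induction k with
  | zero => simpa using Sep_one c t
  | succ k ih =>
    rw [pow_succ, mul_add, mul_one]
    exact Sep_mul c t ih hf

private theorem Sep_prod (c : Chart 𝒜 n) (t : c.B →ₐ[ℂ] MvPowerSeries (Fin n) L) {a : ℕ}
    {f : Fin n → MvPowerSeries (Fin n) L} (hf : ∀ l, f l ∈ Sep_W c t a) (β : Fin n → ℕ)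
    (s : Finset (Fin n)) : ∏ l ∈ s, f l ^ β l ∈ Sep_W c t (a * ∑ l ∈ s, β l) := by
  classical
  induction s using Finset.induction_on with
  | empty => simpa using Sep_one c t
  | insert l s hl ih =>
    rw [Finset.prod_insert hl, Finset.sum_insert hl, mul_add]
    exact Sep_mul c t (Sep_pow c t (hf l) _) ih

private theorem Sep_exists_add (α : Fin n →₀ ℕ) (h : α ≠ 0) :
    ∃ (α' : Fin n →₀ ℕ) (l : Fin n), α = α' + Finsupp.single l 1 := by
  obtain ⟨l, hl⟩ := Finsupp.ne_iff.1 h
  refine ⟨α - Finsupp.single l 1, l, ?_⟩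
  rw [tsub_add_cancel_of_le]
  rw [Finsupp.single_le_iff]
  exact Nat.one_le_iff_ne_zero.2 hl

omit [GradedAlgebra 𝒜] in
private theorem Sep_dd_one (c : Chart 𝒜 n) (α : Fin n →₀ ℕ) (h : α ≠ 0) : c.dd α 1 = 0 := by
  obtain ⟨α', l, rfl⟩ := Sep_exists_add α h
  rw [c.dd_add_single, Derivation.map_one_eq_zero, map_zero]

omit [GradedAlgebra 𝒜] in
private theorem Sep_taylor_y (c : Chart 𝒜 n) (x : c.B →ₐ[ℂ] L)
    (t : c.B →ₐ[ℂ] MvPowerSeries (Fin n) L)
    (ht : ∀ b α, MvPowerSeries.coeff α (t b) = c.tay x α b) (l : Fin n) :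
    t (c.y l) = MvPowerSeries.C (x (c.y l)) + MvPowerSeries.X l := by
  classical
  ext α
  rw [ht, map_add, MvPowerSeries.coeff_C, MvPowerSeries.coeff_X]
  by_cases h0 : α = 0
  · subst h0
    have h1 : (0 : Fin n →₀ ℕ) ≠ Finsupp.single l 1 := by
      intro h
      have := congrArg (fun f => f l) h
      simp at this
    rw [if_pos rfl, if_neg h1, Chart.tay, c.dd_zero]
    simp
  · obtain ⟨α', k, rfl⟩ := Sep_exists_add α h0
    rw [if_neg h0, zero_add, Chart.tay, c.dd_add_single, c.der_y]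
    by_cases hα' : α' = 0
    · subst hα'
      rw [zero_add]
      by_cases hkl : k = l
      · subst hkl
        rw [if_pos rfl, if_pos rfl, c.dd_zero, map_one, mul_one]
        have h2 : ∏ j, ((Finsupp.single k 1 j).factorial : ℂ) = 1 := by
          refine Finset.prod_eq_one fun j _ => ?_
          by_cases hj : k = j
          · subst hj; simp
          · rw [Finsupp.single_eq_of_ne (Ne.symm hj)]; simp
        rw [h2]; simp
      · have h3 : Finsupp.single k 1 ≠ Finsupp.single l 1 := by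
          intro h
          exact hkl ((Finsupp.single_left_inj one_ne_zero).1 h)
        rw [if_neg hkl, if_neg h3, map_zero, map_zero, mul_zero]
    · have h4 : α' + Finsupp.single k 1 ≠ Finsupp.single l 1 := by
        intro h
        apply hα'
        have h5 := congrArg Finsupp.degree h
        rw [map_add, Finsupp.degree_single, Finsupp.degree_single] at h5
        exact (Finsupp.degree_eq_zero_iff _).1 (by omega)
      rw [if_neg h4]
      split_ifs
      · rw [Sep_dd_one c α' hα', map_zero, mul_zero]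
      · rw [map_zero, map_zero, mul_zero]

private theorem Sep_prod_X (β : Fin n →₀ ℕ) :
    ∏ l, (MvPowerSeries.X l : MvPowerSeries (Fin n) L) ^ β l = MvPowerSeries.monomial β 1 := by
  classical
  have h : ∀ s : Finset (Fin n), ∏ l ∈ s, (MvPowerSeries.X l : MvPowerSeries (Fin n) L) ^ β l =
      MvPowerSeries.monomial (∑ l ∈ s, Finsupp.single l (β l)) 1 := by
    intro s
    induction s using Finset.induction_on with
    | empty => simp [MvPowerSeries.monomial_zero_one]
    | insert l s hl ih =>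
      rw [Finset.prod_insert hl, Finset.sum_insert hl, ih, MvPowerSeries.X_pow_eq,
        MvPowerSeries.monomial_mul_monomial, one_mul]
  rw [h, Finsupp.univ_sum_single]

end Aux

/-- G06 (Sep): at every point of a chart with values in a field the jets of order `< q` of the
sections of degree `m` are independent functionals, for `q ≤ c₀ m`. -/
theorem Chart.sep (h : IsSmoothPolarised 𝒜 n) (c : Chart 𝒜 n) :
    ∃ c₀ : ℝ, 0 < c₀ ∧ ∃ m₀ : ℕ, ∀ m, m₀ ≤ m → ∀ (L : Type) [Field L] [Algebra ℂ L]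
      (x : c.B →ₐ[ℂ] L) (q : ℕ), (q : ℝ) ≤ c₀ * m →
      LinearIndependent L (fun α : {α : Fin n →₀ ℕ // α.degree < q} =>
        fun i : Fin (secDim 𝒜 m) => x (c.dd α.1 (c.ρ (secBasis 𝒜 m i)))) := by
  classical
  choose k Y hY hYρ using fun l => c.surj (c.y l)
  set K : ℕ := ∑ l, k l with hK
  have hkK : ∀ l, k l ≤ K := fun l => Finset.single_le_sum (fun _ _ => Nat.zero_le _)
    (Finset.mem_univ l)
  refine ⟨1 / (2 * (c.d * K + 1)), by positivity, 2 * (c.d * c.e + 1) * c.d,
    fun m hm L _ _ x q hq => ?_⟩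
  obtain ⟨t, ht⟩ := c.exists_taylor x
  set u : MvPowerSeries (Fin n) L := t (c.ρ c.F) with hu
  have hcoeff : ∀ b α, x (c.dd α b) =
      algebraMap ℂ L (∏ l, ((α l).factorial : ℂ)) * MvPowerSeries.coeff α (t b) := by
    intro b α
    rw [ht, Chart.tay, ← mul_assoc, ← map_mul, mul_inv_cancel₀, map_one, one_mul]
    exact Finset.prod_ne_zero_iff.2 fun l _ => by exact_mod_cast (Nat.factorial_ne_zero _)
  have hu0 : MvPowerSeries.constantCoeff u ≠ 0 := by
    have h1 : IsUnit (x (c.ρ c.F)) := c.unit.map x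
    have h2 : MvPowerSeries.coeff 0 u = x (c.ρ c.F) := by
      rw [hu, ht, Chart.tay, c.dd_zero]; simp
    rw [← MvPowerSeries.coeff_zero_eq_constantCoeff_apply, h2]
    exact h1.ne_zero
  -- the elements of the span
  have hFW : u ∈ Sep_W c t c.d := Sep_mem c t c.hF
  have hTW : u ^ c.e ∈ Sep_W c t (c.d * c.e + 1) := by
    have h1 := Sep_mem c t c.hT
    rwa [c.ρT, map_pow] at h1
  have hXW : ∀ l, MvPowerSeries.X l * u ^ K ∈ Sep_W c t (c.d * K) := by
    intro l
    have h1 : Y l * c.F ^ (K - k l) ∈ 𝒜 (c.d * K) := by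
      have h2 := SetLike.mul_mem_graded (hY l) (SetLike.pow_mem_graded (K - k l) c.hF)
      have h3 : c.d * k l + (K - k l) • c.d = c.d * K := by
        rw [smul_eq_mul, mul_comm (K - k l), ← mul_add, Nat.add_sub_cancel' (hkK l)]
      rwa [h3] at h2
    have h2 := Sep_mem c t h1
    have h3 : t (c.ρ (Y l * c.F ^ (K - k l))) =
        (MvPowerSeries.C (x (c.y l)) + MvPowerSeries.X l) * u ^ K := by
      rw [map_mul, ← hYρ, map_pow, mul_assoc, ← pow_add, Nat.add_sub_cancel' (hkK l), map_mul,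
        map_pow, Sep_taylor_y c x t ht]
    have h4 : u ^ K ∈ Sep_W c t (c.d * K) := Sep_pow c t hFW K
    have h5 : MvPowerSeries.X l * u ^ K = t (c.ρ (Y l * c.F ^ (K - k l))) -
        x (c.y l) • u ^ K := by
      rw [h3, add_mul, MvPowerSeries.smul_eq_C_mul]
      ring
    rw [h5]
    exact Submodule.sub_mem _ h2 (Submodule.smul_mem _ _ h4)
  rw [linearIndependent_iff']
  intro S g hg
  by_contra hne
  push Not at hne
  obtain ⟨α₀, hα₀, hα₀'⟩ := hne
  obtain ⟨β, hβ, hβmax⟩ := Finset.exists_max_image (S.filter fun α => g α ≠ 0)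
    (fun α => α.1.degree) ⟨α₀, Finset.mem_filter.2 ⟨hα₀, hα₀'⟩⟩
  obtain ⟨hβS, hgβ⟩ := Finset.mem_filter.1 hβ
  -- the functional
  let Λ : MvPowerSeries (Fin n) L →ₗ[L] L :=
    ∑ α ∈ S, (g α * algebraMap ℂ L (∏ l, ((α.1 l).factorial : ℂ))) • MvPowerSeries.coeff α.1
  have hΛ : ∀ f, Λ f = ∑ α ∈ S, (g α * algebraMap ℂ L (∏ l, ((α.1 l).factorial : ℂ))) *
      MvPowerSeries.coeff α.1 f := by
    intro f
    simp [Λ, LinearMap.sum_apply]
  have hbasis : ∀ i, Λ (t (c.ρ (secBasis 𝒜 m i))) = 0 := by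
    intro i
    have h1 := congrFun hg i
    rw [Finset.sum_apply] at h1
    rw [hΛ]
    refine Eq.trans ?_ h1
    simp only [Pi.smul_apply, smul_eq_mul]
    refine Finset.sum_congr rfl fun α _ => ?_
    rw [hcoeff, mul_assoc]
  have hsec : ∀ s ∈ 𝒜 m, Λ (t (c.ρ s)) = 0 := by
    intro s hs
    rw [← (secBasis_spec h m).2.2] at hs
    induction hs using Submodule.span_induction with
    | mem s hs =>
      obtain ⟨i, rfl⟩ := hs
      exact hbasis i
    | zero => rw [map_zero, map_zero, map_zero]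
    | add s s' _ _ hs hs' => rw [map_add, map_add, map_add, hs, hs', add_zero]
    | smul z s _ hs =>
      rw [map_smul, map_smul]
      have h1 : z • t (c.ρ s) = (algebraMap ℂ L z) • t (c.ρ s) := by
        rw [algebraMap_smul]
      rw [h1, map_smul, hs, smul_zero]
  have hW : ∀ f ∈ Sep_W c t m, Λ f = 0 := by
    intro f hf
    have h1 : Sep_W c t m ≤ LinearMap.ker Λ := by
      refine Submodule.span_le.2 ?_
      rintro _ ⟨s, hs, rfl⟩
      exact hsec s hs
    exact h1 hf
  -- the degree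
  have hdeg : 2 * (c.d * K) * β.1.degree ≤ m := by
    have h1 : (β.1.degree : ℝ) ≤ 1 / (2 * (c.d * K + 1)) * m :=
      le_trans (by exact_mod_cast β.2.le) hq
    have h2 : (2 * (c.d * K + 1) : ℝ) * β.1.degree ≤ m := by
      have h3 : (0 : ℝ) < 2 * (c.d * K + 1) := by positivity
      calc (2 * (c.d * K + 1) : ℝ) * β.1.degree ≤
          2 * (c.d * K + 1) * (1 / (2 * (c.d * K + 1)) * m) :=
            mul_le_mul_of_nonneg_left h1 h3.le
        _ = m := by field_simp
    have h4 : 2 * (c.d * K + 1) * β.1.degree ≤ m := by exact_mod_cast h2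
    nlinarith
  have hd := c.hd
  have hmod : m % c.d < c.d := Nat.mod_lt _ hd
  have hle : c.d * (c.e * (m % c.d) + K * β.1.degree) ≤ m := by
    have h1 : c.d * (c.e * (m % c.d)) ≤ c.d * c.e * c.d := by
      rw [← mul_assoc]
      exact Nat.mul_le_mul_left _ hmod.le
    nlinarith
  set j : ℕ := m / c.d - (c.e * (m % c.d) + K * β.1.degree) with hj
  have hj' : c.e * (m % c.d) + K * β.1.degree + j = m / c.d :=
    Nat.add_sub_of_le ((Nat.le_div_iff_mul_le hd).2 (by rwa [mul_comm]))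
  have hmeq : (c.d * c.e + 1) * (m % c.d) + c.d * j + c.d * K * β.1.degree = m := by
    have h1 := Nat.div_add_mod m c.d
    rw [← hj'] at h1
    nlinarith
  have hfinal : (u ^ c.e) ^ (m % c.d) * u ^ j *
      ∏ l, (MvPowerSeries.X l * u ^ K) ^ (β.1 l) ∈ Sep_W c t m := by
    have h1 := Sep_mul c t (Sep_mul c t (Sep_pow c t hTW (m % c.d)) (Sep_pow c t hFW j))
      (Sep_prod c t hXW β.1 Finset.univ)
    rwa [← Finsupp.degree_eq_sum, hmeq] at h1
  set M : ℕ := c.e * (m % c.d) + j + K * ∑ l, β.1 l with hM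
  have hprod : (u ^ c.e) ^ (m % c.d) * u ^ j * ∏ l, (MvPowerSeries.X l * u ^ K) ^ (β.1 l) =
      u ^ M * MvPowerSeries.monomial β.1 1 := by
    rw [← Sep_prod_X]
    simp only [mul_pow, Finset.prod_mul_distrib]
    rw [Finset.prod_congr rfl fun l _ => (pow_mul u K (β.1 l)).symm, Finset.prod_pow_eq_pow_sum,
      ← Finset.mul_sum, hM, pow_add, pow_add, pow_mul]
    ring
  rw [hprod] at hfinal
  have h0 := hW _ hfinal
  rw [hΛ, Finset.sum_eq_single β] at h0
  · rw [MvPowerSeries.coeff_mul_monomial, if_pos le_rfl, tsub_self, mul_one,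
      MvPowerSeries.coeff_zero_eq_constantCoeff_apply, map_pow] at h0
    have h1 : algebraMap ℂ L (∏ l, ((β.1 l).factorial : ℂ)) ≠ 0 := by
      rw [Ne, _root_.map_eq_zero]
      exact Finset.prod_ne_zero_iff.2 fun l _ => by exact_mod_cast (Nat.factorial_ne_zero _)
    exact mul_ne_zero (mul_ne_zero hgβ h1) (pow_ne_zero _ hu0) h0
  · intro α hα hαβ
    rw [MvPowerSeries.coeff_mul_monomial]
    split_ifs with hle'
    · have h1 : g α = 0 := by
        by_contra hgα
        have h2 := hβmax α (Finset.mem_filter.2 ⟨hα, hgα⟩)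
        have h3 : β.1 + (α.1 - β.1) = α.1 := add_tsub_cancel_of_le hle'
        have h4 := congrArg Finsupp.degree h3
        rw [map_add] at h4
        have h5 : (α.1 - β.1).degree = 0 := by
          have h6 : α.1.degree ≤ β.1.degree := h2
          omega
        rw [Finsupp.degree_eq_zero_iff] at h5
        rw [h5, add_zero] at h3
        exact hαβ (Subtype.ext h3.symm)
      rw [h1, zero_mul, zero_mul]
    · rw [mul_zero]
  · intro h1
    exact absurd hβS h1

end Pool.Agent.Lib_GD
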