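import Pool.Agent.Lib_GD.OkDefs
import Pool.Agent.Lib_GD.Leading
import Pool.Agent.Lib_GD.Sep
import Pool.Agent.Lib_GD.OrdC
import Pool.Agent.Lib_GD.OrdFacts
import Pool.Agent.Lib_GD.ChartTay

/-! B07: the graded semigroup of leading exponents. -/

open scoped ENNReal

namespace Pool.Agent.Lib_GD

variable {R : Type} [CommRing R] [Algebra ℂ R] {𝒜 : ℕ → Submodule ℂ R} [GradedAlgebra 𝒜]
  {n : ℕ}

theorem okGeom_exists_pos (h : IsSmoothPolarised 𝒜 n) : ∃ d > 0, ∃ f ∈ 𝒜 d, f ≠ 0 := by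
  classical
  by_contra hcon
  push Not at hcon
  have hdim := h.dim
  have halg : Algebra.IsAlgebraic ℂ R := by
    refine ⟨fun r => ?_⟩
    have hr : r = ((DirectSum.decompose 𝒜 r) 0 : R) := by
      conv_lhs => rw [← DirectSum.sum_support_decompose 𝒜 r]
      by_cases h0 : (0 : ℕ) ∈ (DirectSum.decompose 𝒜 r).support
      · rw [Finset.sum_eq_single_of_mem 0 h0]
        intro d _ hd
        exact hcon d (Nat.pos_of_ne_zero hd) _ (SetLike.coe_mem _)
      · have h1 : ((DirectSum.decompose 𝒜 r) 0 : R) = 0 := by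
          rw [DFinsupp.notMem_support_iff] at h0
          rw [h0]; rfl
        rw [h1]
        refine Finset.sum_eq_zero fun d hd => ?_
        refine hcon d (Nat.pos_of_ne_zero ?_) _ (SetLike.coe_mem _)
        rintro rfl
        exact h0 hd
    have hm : r ∈ 𝒜 0 := by rw [hr]; exact SetLike.coe_mem _
    rw [h.connected] at hm
    obtain ⟨z, rfl⟩ := Algebra.mem_bot.1 ((Subalgebra.mem_toSubmodule _).1 hm)
    exact isAlgebraic_algebraMap z
  have h0 : Algebra.trdeg ℂ R = 0 := _root_.trdeg_eq_zero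
  rw [h0] at hdim
  have h2 : ((n : Cardinal) + 1) = ((n + 1 : ℕ) : Cardinal) := by simp
  rw [h2] at hdim
  have h3 : ((0 : ℕ) : Cardinal) = ((n + 1 : ℕ) : Cardinal) := by simpa using hdim
  rw [Nat.cast_inj] at h3
  omega

/-- Leading exponents. -/
def OkLead (c : Chart 𝒜 n) (x : c.B →ₐ[ℂ] ℂ) (s : R) (γ : DegLex (Fin n →₀ ℕ)) : Prop :=
  c.tay x (ofDegLex γ) (c.ρ s) ≠ 0 ∧ ∀ α < γ, c.tay x (ofDegLex α) (c.ρ s) = 0

theorem okLead_mul (c : Chart 𝒜 n) (x : c.B →ₐ[ℂ] ℂ) {s s' : R} {γ γ' : DegLex (Fin n →₀ ℕ)}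
    (h : OkLead c x s γ) (h' : OkLead c x s' γ') : OkLead c x (s * s') (γ + γ') := by
  classical
  constructor
  · rw [map_mul, c.tay_mul, Finset.sum_eq_single (ofDegLex γ, ofDegLex γ')]
    · exact mul_ne_zero h.1 h'.1
    · rintro ⟨p, q⟩ hpq hne
      have hpq' : p + q = ofDegLex γ + ofDegLex γ' := Finset.HasAntidiagonal.mem_antidiagonal.1 hpq
      have e : toDegLex p + toDegLex q = γ + γ' := hpq'
      rcases lt_trichotomy (toDegLex p) γ with hlt | heq | hgt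
      · rw [show c.tay x p (c.ρ s) = 0 from h.2 _ hlt, zero_mul]
      · exfalso
        apply hne
        have hq : toDegLex q = γ' := by
          rw [heq] at e
          exact add_left_cancel e
        exact Prod.ext heq hq
      · have hq : toDegLex q < γ' := by
          by_contra hcon
          push Not at hcon
          exact absurd e (ne_of_gt (add_lt_add_of_lt_of_le hgt hcon))
        rw [show c.tay x q (c.ρ s') = 0 from h'.2 _ hq, mul_zero]
    · intro hcon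
      exfalso
      apply hcon
      rw [Finset.HasAntidiagonal.mem_antidiagonal, ofDegLex_add]
  · intro α hα
    rw [map_mul, c.tay_mul]
    refine Finset.sum_eq_zero ?_
    rintro ⟨p, q⟩ hpq
    have hpq' : p + q = ofDegLex α := Finset.HasAntidiagonal.mem_antidiagonal.1 hpq
    have e : toDegLex p + toDegLex q = α := hpq'
    by_cases hlt : toDegLex p < γ
    · rw [show c.tay x p (c.ρ s) = 0 from h.2 _ hlt, zero_mul]
    · push Not at hlt
      have hq : toDegLex q < γ' := by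
        by_contra hcon
        push Not at hcon
        exact absurd (e ▸ hα) (not_lt_of_ge (add_le_add hlt hcon))
      rw [show c.tay x q (c.ρ s') = 0 from h'.2 _ hq, mul_zero]

/-- The functionals. -/
noncomputable def okFun (c : Chart 𝒜 n) (x : c.B →ₐ[ℂ] ℂ) (m : ℕ) (α : DegLex (Fin n →₀ ℕ)) :
    𝒜 m →ₗ[ℂ] ℂ where
  toFun s := c.tay x (ofDegLex α) (c.ρ s)
  map_add' s s' := by simp [Chart.tay, mul_add]
  map_smul' z s := by simp [Chart.tay, mul_left_comm]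

theorem okFun_apply (c : Chart 𝒜 n) (x : c.B →ₐ[ℂ] ℂ) (m : ℕ) (α : DegLex (Fin n →₀ ℕ))
    (s : 𝒜 m) : okFun c x m α s = c.tay x (ofDegLex α) (c.ρ s) := rfl

theorem okFun_inj (c : Chart 𝒜 n) (x : c.B →ₐ[ℂ] ℂ) (m : ℕ) (s : 𝒜 m)
    (hs : ∀ α, okFun c x m α s = 0) : s = 0 := by
  have h1 : c.ρ s = 0 := c.eq_zero_of_tay x _ fun α => hs (toDegLex α)
  exact Subtype.ext (c.inj m s s.2 h1)

/-- Separation of jets, in the form of prescribed jets. -/
theorem okGeom_prescribe {N : ℕ} {ι : Type} [Finite ι] (v : ι → Fin N → ℂ)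
    (hv : LinearIndependent ℂ v) (i₀ : ι) [DecidableEq ι] :
    ∃ w : Fin N → ℂ, ∀ i, ∑ j, w j * v i j = if i = i₀ then 1 else 0 := by
  have hinj : Function.Injective (Finsupp.linearCombination ℂ v) := hv
  obtain ⟨G, hG⟩ := LinearMap.exists_leftInverse_of_injective (Finsupp.linearCombination ℂ v)
    (LinearMap.ker_eq_bot.2 hinj)
  let F : (Fin N → ℂ) →ₗ[ℂ] ℂ := (Finsupp.lapply i₀).comp G
  refine ⟨fun j => F (fun k => if j = k then 1 else 0), fun i => ?_⟩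
  have h1 : F (v i) = if i = i₀ then 1 else 0 := by
    have h2 : G (v i) = Finsupp.single i 1 := by
      have := congrFun (congrArg DFunLike.coe hG) (Finsupp.single i 1)
      simpa using this
    change (G (v i)) i₀ = _
    rw [h2, Finsupp.single_apply]
  rw [← h1, LinearMap.pi_apply_eq_sum_univ F (v i)]
  refine Finset.sum_congr rfl fun j _ => ?_
  rw [smul_eq_mul, mul_comm]

theorem okGeom_simplex (h : IsSmoothPolarised 𝒜 n) (c : Chart 𝒜 n) (x : c.B →ₐ[ℂ] ℂ) :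
    ∃ c₁ : ℝ, 0 < c₁ ∧ ∃ m₀ : ℕ, 1 ≤ m₀ ∧ ∀ m, m₀ ≤ m → ∀ γ : DegLex (Fin n →₀ ℕ),
      ((ofDegLex γ).degree : ℝ) ≤ c₁ * m → ∃ s ∈ 𝒜 m, OkLead c x s γ := by
  classical
  obtain ⟨c₀, hc₀, m₀, hsep⟩ := Chart.sep h c
  refine ⟨c₀ / 2, half_pos hc₀, max m₀ (⌈2 / c₀⌉₊ + 1), by omega, ?_⟩
  intro m hm γ hγ
  have hm1 : m₀ ≤ m := le_trans (le_max_left _ _) hm
  have hm2 : 2 / c₀ ≤ m := by
    have h1 : ⌈2 / c₀⌉₊ ≤ m := by
      have := le_trans (le_max_right _ _) hm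
      omega
    exact (Nat.le_ceil _).trans (by exact_mod_cast h1)
  have hm3 : 1 ≤ c₀ / 2 * m := by
    rw [div_le_iff₀ hc₀] at hm2
    nlinarith
  have hq : (((ofDegLex γ).degree + 1 : ℕ) : ℝ) ≤ c₀ * m := by
    push_cast
    linarith
  have hli := hsep m hm1 ℂ x _ hq
  have : Finite {α : Fin n →₀ ℕ // α.degree < (ofDegLex γ).degree + 1} :=
    hli.finite_of_isNoetherian
  obtain ⟨w, hw⟩ := okGeom_prescribe _ hli ⟨ofDegLex γ, Nat.lt_succ_self _⟩
  have hsb := (secBasis_spec h m).1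
  let s : R := ∑ i, w i • secBasis 𝒜 m i
  have hs : s ∈ 𝒜 m := Submodule.sum_mem _ fun i _ => Submodule.smul_mem _ _ (hsb i)
  have hval : ∀ α : Fin n →₀ ℕ, x (c.dd α (c.ρ s)) =
      ∑ i, w i * x (c.dd α (c.ρ (secBasis 𝒜 m i))) := by
    intro α
    simp only [s, map_sum, map_smul, smul_eq_mul]
  refine ⟨s, hs, ?_, ?_⟩
  · have h1 := hw ⟨ofDegLex γ, Nat.lt_succ_self _⟩
    rw [if_pos rfl] at h1
    unfold Chart.tay
    rw [hval, h1, mul_one]
    exact (map_ne_zero_iff _ (algebraMap ℂ ℂ).injective).2 (inv_ne_zero (facG_ne_zero _))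
  · intro α hα
    have hdeg : (ofDegLex α).degree < (ofDegLex γ).degree + 1 :=
      Nat.lt_succ_of_le (Finsupp.DegLex.monotone_degree hα.le)
    have h1 := hw ⟨ofDegLex α, hdeg⟩
    rw [if_neg] at h1
    · unfold Chart.tay
      rw [hval, h1, mul_zero]
    · intro hcon
      have : ofDegLex α = ofDegLex γ := congrArg Subtype.val hcon
      exact absurd hα (by rw [show α = γ from this]; exact lt_irrefl _)

theorem okGeom_bdd (h : IsSmoothPolarised 𝒜 n) (hn : 1 ≤ n) (c : Chart 𝒜 n)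
    (x : c.B →ₐ[ℂ] ℂ) :
    ∃ C : ℕ, ∀ m, ∀ s ∈ 𝒜 m, ∀ γ, OkLead c x s γ → (ofDegLex γ).degree ≤ C * m := by
  obtain ⟨C, hC⟩ := Chart.ord_le_C h hn c
  refine ⟨C, fun m s hs γ hγ => ?_⟩
  rcases Nat.eq_zero_or_pos m with rfl | hm
  · rw [h.connected] at hs
    obtain ⟨z, rfl⟩ := Algebra.mem_bot.1 ((Subalgebra.mem_toSubmodule _).1 hs)
    have hz : z ≠ 0 := by
      rintro rfl
      apply hγ.1
      rw [map_zero, map_zero]
      simp [Chart.tay]
    by_contra hcon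
    have h0 : (toDegLex (0 : Fin n →₀ ℕ)) < γ := by
      rw [Finsupp.DegLex.lt_iff]
      left
      simp only [ofDegLex_toDegLex, map_zero]
      omega
    have h1 := hγ.2 _ h0
    rw [AlgHom.commutes, Chart.tay, ofDegLex_toDegLex, c.dd_zero, AlgHom.commutes] at h1
    simp at h1
    exact hz h1
  · have hs0 : s ≠ 0 := by
      rintro rfl
      apply hγ.1
      rw [map_zero]
      simp [Chart.tay]
    obtain ⟨α, hα, hα'⟩ := hC m hm x s hs hs0
    refine le_trans ?_ hα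
    have hle : γ ≤ toDegLex α := by
      by_contra hcon
      push Not at hcon
      have h1 := hγ.2 _ hcon
      rw [Chart.tay, mul_eq_zero, map_eq_zero_iff _ (algebraMap ℂ ℂ).injective] at h1
      rcases h1 with h1 | h1
      · exact inv_ne_zero (facG_ne_zero _) h1
      · exact hα' h1
    exact Finsupp.DegLex.monotone_degree hle

/-- The set of leading exponents and the weights, from B08. -/
theorem okGeom_leading (h : IsSmoothPolarised 𝒜 n) (c : Chart 𝒜 n) (x : c.B →ₐ[ℂ] ℂ) (m : ℕ)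
    (f : 𝒜 m → ℕ∞) (U : ℕ → Submodule ℂ (𝒜 m)) (hU : ∀ k v, v ∈ U k ↔ (k : ℕ∞) ≤ f v)
    (hf : ∀ v, v ≠ 0 → f v ≠ ⊤) :
    ∃ (Γ : Finset (DegLex (Fin n →₀ ℕ))) (g : DegLex (Fin n →₀ ℕ) → ℕ),
      Γ.card = secDim 𝒜 m ∧
      (∀ γ, γ ∈ Γ ↔ ∃ s ∈ 𝒜 m, OkLead c x s γ) ∧
      (∀ γ ∈ Γ, ∃ s : 𝒜 m, OkLead c x s γ ∧ f s = g γ) ∧
      (∀ γ, ∀ s : 𝒜 m, OkLead c x s γ → f s ≤ g γ) ∧
      (∀ k : ℕ, (Γ.filter fun γ => k ≤ g γ).card = Module.finrank ℂ (U k)) ∧
      ∀ b : Fin (secDim 𝒜 m) → 𝒜 m, LinearIndependent ℂ b →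
        ∑ i, (f (b i)).toNat ≤ ∑ γ ∈ Γ, g γ := by
  have := finite_graded h m
  obtain ⟨Γ, g, h1, h2, h3, h4, h5, h6⟩ := exists_leading (V := 𝒜 m) (okFun c x m)
    (okFun_inj c x m) f U hU hf
  refine ⟨Γ, g, h1, ?_, ?_, ?_, h5, h6⟩
  · intro γ
    rw [h2]
    constructor
    · rintro ⟨v, hv, hv'⟩
      exact ⟨v, v.2, hv, hv'⟩
    · rintro ⟨s, hs, hv, hv'⟩
      exact ⟨⟨s, hs⟩, hv, hv'⟩
  · intro γ hγ
    obtain ⟨v, hv, hv', hv''⟩ := h3 γ hγ
    exact ⟨v, ⟨hv, hv'⟩, hv''⟩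
  · intro γ s hs
    exact h4 γ s hs.1 hs.2

/-- Exponents as functions. -/
noncomputable def okEmb : DegLex (Fin n →₀ ℕ) ≃ (Fin n → ℕ) := ofDegLex.trans Finsupp.equivFunOnFinite

theorem okEmb_add (γ γ' : DegLex (Fin n →₀ ℕ)) : okEmb (γ + γ') = okEmb γ + okEmb γ' := rfl

theorem okEmb_sum (γ : DegLex (Fin n →₀ ℕ)) : ∑ i, okEmb γ i = (ofDegLex γ).degree := by
  rw [Finsupp.degree_eq_sum]
  rfl

/-- B07: the leading exponents (for the order: total degree, then lexicographic) of the sections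
at a `ℂ`-point form data as in `OkData`, the same for all divisors; every divisor over `X` gives a
superadditive weight computing its filtration. -/
theorem exists_okData (h : IsSmoothPolarised 𝒜 n) (hn : 1 ≤ n) :
    ∃ D : OkData n, (∀ m, 1 ≤ m → (D.Γ m).card = secDim 𝒜 m) ∧
      ∀ E : DivisorOver 𝒜 n 1, ∃ g : ℕ → (Fin n → ℕ) → ℕ, D.IsWeight g ∧
        (∀ m, 1 ≤ m → ∀ r : ℝ, D.cnt g m r = Module.finrank ℂ (E.filt 𝒜 m r)) ∧
        ∀ m, 1 ≤ m → ∀ b : Fin (secDim 𝒜 m) → R, (∀ i, b i ∈ 𝒜 m) → LinearIndependent ℂ b →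
          ∑ i, (E.ord (E.φ 0 (b i))).toNat ≤ ∑ γ ∈ D.Γ m, g m γ := by
  classical
  -- a chart and a point
  have := h.domain
  obtain ⟨d, hd, f, hf, hf0⟩ := okGeom_exists_pos h
  obtain ⟨c, -, -⟩ := exists_chart h hn ⊥ Ideal.isPrime_bot ⟨d, hd, f, hf, by simpa using hf0⟩
  obtain ⟨x⟩ := c.exists_C_point
  -- the sets of leading exponents
  have hΓ : ∀ m, ∃ Γ : Finset (DegLex (Fin n →₀ ℕ)), Γ.card = secDim 𝒜 m ∧
      ∀ γ, γ ∈ Γ ↔ ∃ s ∈ 𝒜 m, OkLead c x s γ := by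
    intro m
    obtain ⟨Γ, g, h1, h2, -⟩ := okGeom_leading h c x m (fun v => if v = 0 then ⊤ else 0)
      (fun k => if k = 0 then ⊤ else ⊥) (by
        intro k v
        by_cases hk : k = 0
        · simp [hk]
        · by_cases hv : v = 0
          · simp [hk, hv]
          · simp [hk, hv]) (by intro v hv; simp [hv])
    exact ⟨Γ, h1, h2⟩
  choose Γ hΓcard hΓmem using hΓ
  obtain ⟨C, hC⟩ := okGeom_bdd h hn c x
  obtain ⟨c₁, hc₁, m₀, hm₀, hsimp⟩ := okGeom_simplex h c x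
  have hmem : ∀ m γ, okEmb γ ∈ (Γ m).map okEmb.toEmbedding ↔ γ ∈ Γ m := by
    intro m γ
    rw [Finset.mem_map_equiv, Equiv.symm_apply_apply]
  have hadd : ∀ m m' γ γ', γ ∈ (Γ m).map okEmb.toEmbedding →
      γ' ∈ (Γ m').map okEmb.toEmbedding → γ + γ' ∈ (Γ (m + m')).map okEmb.toEmbedding := by
    intro m m' γ γ' hγ hγ'
    obtain ⟨γ, rfl⟩ := okEmb.surjective γ
    obtain ⟨γ', rfl⟩ := okEmb.surjective γ'
    rw [← okEmb_add]
    rw [hmem, hΓmem] at hγ hγ' ⊢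
    obtain ⟨s, hs, hl⟩ := hγ
    obtain ⟨s', hs', hl'⟩ := hγ'
    exact ⟨s * s', SetLike.mul_mem_graded hs hs', okLead_mul c x hl hl'⟩
  have hbdd : ∀ m, ∀ γ ∈ (Γ m).map okEmb.toEmbedding, ∑ i, γ i ≤ C * m := by
    intro m γ hγ
    obtain ⟨γ, rfl⟩ := okEmb.surjective γ
    rw [hmem, hΓmem] at hγ
    obtain ⟨s, hs, hl⟩ := hγ
    rw [okEmb_sum]
    exact hC m s hs γ hl
  have hsim : ∀ m, m₀ ≤ m → ∀ γ : Fin n → ℕ, ((∑ i, γ i : ℕ) : ℝ) ≤ c₁ * m →
      γ ∈ (Γ m).map okEmb.toEmbedding := by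
    intro m hm γ hγ
    obtain ⟨γ, rfl⟩ := okEmb.surjective γ
    rw [hmem, hΓmem]
    rw [okEmb_sum] at hγ
    exact hsimp m hm γ hγ
  let D : OkData n := ⟨fun m => (Γ m).map okEmb.toEmbedding, hadd, C, hbdd, c₁, hc₁, m₀, hm₀,
    hsim⟩
  refine ⟨D, fun m _ => by rw [Finset.card_map, hΓcard], fun E => ?_⟩
  -- the weights
  have hord : ∀ (k : ℕ) (s : R), ENNReal.ofReal k ≤ (E.ord (E.φ 0 s) : ℝ≥0∞) ↔
      (k : ℕ∞) ≤ E.ord (E.φ 0 s) := by
    intro k s
    rw [ENNReal.ofReal_natCast]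
    rw [← ENat.toENNReal_coe, ENat.toENNReal_le]
  have hg : ∀ m, ∃ g : DegLex (Fin n →₀ ℕ) → ℕ,
      (∀ γ ∈ Γ m, ∃ s : 𝒜 m, OkLead c x s γ ∧ E.ord (E.φ 0 s) = g γ) ∧
      (∀ γ, ∀ s : 𝒜 m, OkLead c x s γ → E.ord (E.φ 0 s) ≤ g γ) ∧
      (∀ k : ℕ, ((Γ m).filter fun γ => k ≤ g γ).card =
        Module.finrank ℂ ((E.filt 𝒜 m k).comap (𝒜 m).subtype)) ∧
      ∀ b : Fin (secDim 𝒜 m) → 𝒜 m, LinearIndependent ℂ b →
        ∑ i, (E.ord (E.φ 0 (b i))).toNat ≤ ∑ γ ∈ Γ m, g γ := by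
    intro m
    obtain ⟨Γ', g, h1, h2, h3⟩ := okGeom_leading h c x m (fun v => E.ord (E.φ 0 v))
      (fun k => (E.filt 𝒜 m k).comap (𝒜 m).subtype) (by
        intro k v
        rw [Submodule.mem_comap]
        constructor
        · intro hv
          exact (hord k v).1 hv.2
        · intro hv
          exact ⟨v.2, (hord k v).2 hv⟩) (by
        intro v hv
        exact E.ord_ne_top h hn m v v.2 (by simpa using hv))
    have : Γ' = Γ m := by
      ext γ
      rw [h2, hΓmem]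
    subst this
    exact ⟨g, h3⟩
  choose g hg1 hg2 hg3 hg4 using hg
  refine ⟨fun m γ => g m (okEmb.symm γ), ?_, ?_, ?_⟩
  · intro m m' γ γ' hγ hγ'
    obtain ⟨γ, rfl⟩ := okEmb.surjective γ
    obtain ⟨γ', rfl⟩ := okEmb.surjective γ'
    rw [← okEmb_add]
    change g m (okEmb.symm (okEmb γ)) + g m' (okEmb.symm (okEmb γ')) ≤
      g (m + m') (okEmb.symm (okEmb (γ + γ')))
    rw [Equiv.symm_apply_apply, Equiv.symm_apply_apply, Equiv.symm_apply_apply]
    have hγ1 : γ ∈ Γ m := by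
      have := hγ
      simpa only [D, Finset.mem_map_equiv, Equiv.symm_apply_apply] using this
    have hγ2 : γ' ∈ Γ m' := by
      have := hγ'
      simpa only [D, Finset.mem_map_equiv, Equiv.symm_apply_apply] using this
    obtain ⟨s, hs, hs'⟩ := hg1 m γ hγ1
    obtain ⟨t, ht, ht'⟩ := hg1 m' γ' hγ2
    have h1 := hg2 (m + m') (γ + γ') ⟨s * t, SetLike.mul_mem_graded s.2 t.2⟩
      (okLead_mul c x hs ht)
    rw [DivisorOver.ord_mul_section, hs', ht'] at h1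
    exact_mod_cast h1
  · intro m _ r
    have h1 : D.cnt (fun m γ => g m (okEmb.symm γ)) m r =
        ((Γ m).filter fun γ => ⌈r⌉₊ ≤ g m γ).card := by
      unfold OkData.cnt
      rw [← Finset.card_map okEmb.toEmbedding]
      congr 1
      ext γ
      obtain ⟨γ, rfl⟩ := okEmb.surjective γ
      rw [Finset.mem_map_equiv, Finset.mem_filter, Finset.mem_filter, Equiv.symm_apply_apply,
        Finset.mem_map_equiv, Equiv.symm_apply_apply, Nat.ceil_le]
      change (γ ∈ Γ m ∧ r ≤ ((g m (okEmb.symm (okEmb γ)) : ℕ) : ℝ)) ↔ _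
      rw [Equiv.symm_apply_apply]
    rw [h1, hg3]
    have h2 : E.filt 𝒜 m (⌈r⌉₊ : ℝ) = E.filt 𝒜 m r := by
      ext s
      change (s ∈ 𝒜 m ∧ _) ↔ (s ∈ 𝒜 m ∧ _)
      refine and_congr_right fun _ => ?_
      rw [hord]
      generalize E.ord (E.φ 0 s) = o
      induction o using ENat.recTopCoe with
      | top => simp
      | coe o =>
        rw [Nat.cast_le, Nat.ceil_le, ENat.toENNReal_coe, ENNReal.ofReal_le_natCast]
    rw [h2]
    have hle : E.filt 𝒜 m r ≤ 𝒜 m := fun s hs => hs.1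
    exact LinearEquiv.finrank_eq (Submodule.comapSubtypeEquivOfLe hle)
  · intro m _ b hb hbi
    have h1 := hg4 m (fun i => ⟨b i, hb i⟩) (by
      refine LinearIndependent.of_comp (𝒜 m).subtype ?_
      exact hbi)
    refine h1.trans (le_of_eq ?_)
    change _ = ∑ γ ∈ (Γ m).map okEmb.toEmbedding, g m (okEmb.symm γ)
    rw [Finset.sum_map]
    refine Finset.sum_congr rfl fun γ _ => ?_
    rw [Equiv.coe_toEmbedding, Equiv.symm_apply_apply]

end Pool.Agent.Lib_GD
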