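import Pool.Agent.Lib_GD.OkMain
import Pool.Agent.Lib_GD.OkGeom

/-! B08: the uniform estimate `S_m(E) ≤ (1 + ε) S(E)`. -/

open scoped ENNReal

namespace Pool.Agent.Lib_GD

variable {R : Type} [CommRing R] [Algebra ℂ R] {𝒜 : ℕ → Submodule ℂ R} [GradedAlgebra 𝒜]
  {n : ℕ}

/-- B08: `∑_i ord_E(b_i) ≤ (1 + ε) m N_m S(E)` for all bases, all divisors and all large `m`. -/
theorem sum_ord_le (h : IsSmoothPolarised 𝒜 n) (hn : 1 ≤ n) (ε : ℝ) (hε : 0 < ε) :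
    ∃ m₁ : ℕ, ∀ m, m₁ ≤ m → ∀ (E : DivisorOver 𝒜 n 1) (b : Fin (secDim 𝒜 m) → R),
      (∀ i, b i ∈ 𝒜 m) → LinearIndependent ℂ b →
      ((∑ i, (E.ord (E.φ 0 (b i))).toNat : ℕ) : ℝ≥0∞) ≤
        ENNReal.ofReal (1 + ε) * ((m * secDim 𝒜 m : ℕ) : ℝ≥0∞) * E.S 𝒜 := by
  obtain ⟨D, hcard, hE⟩ := exists_okData h hn
  obtain ⟨m₁, hm₁⟩ := D.sum_le_S ε hε
  refine ⟨max m₁ 1, fun m hm E b hb hlin => ?_⟩
  have hm1 : m₁ ≤ m := le_trans (le_max_left _ _) hm
  have hm2 : 1 ≤ m := le_trans (le_max_right _ _) hm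
  obtain ⟨g, hg, hcnt, hsum⟩ := hE E
  have hvol : D.vol = volL 𝒜 n := by
    unfold OkData.vol volL
    apply Filter.limsup_congr
    filter_upwards [Filter.eventually_ge_atTop 1] with k hk
    rw [hcard k hk]
  have hvolt : ∀ t : ℝ, D.volt g t = E.vol 𝒜 t := by
    intro t
    unfold OkData.volt DivisorOver.vol
    apply Filter.limsup_congr
    filter_upwards [Filter.eventually_ge_atTop 1] with k hk
    rw [hcnt k hk]
  have hS : D.S g = E.S 𝒜 := by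
    unfold OkData.S DivisorOver.S
    rw [hvol]
    congr 1
    apply MeasureTheory.lintegral_congr
    intro t
    exact hvolt t
  have h1 := hm₁ m hm1 g hg
  rw [hS, hcard m hm2] at h1
  refine le_trans ?_ h1
  exact_mod_cast hsum m hm2 b hb hlin

end Pool.Agent.Lib_GD
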