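import Pool.Agent.Lib_GD.CombDefs

namespace Pool.Agent.Lib_GD

/-- Building an order point by point, keeping an invariant. -/
private lemma combWord_build {N : ℕ} (I : Finset (Fin N) → Prop)
    (Q : Finset (Fin N) → Fin N → Prop) (h0 : I ∅)
    (hstep : ∀ S, I S → S ≠ Finset.univ → ∃ j, j ∉ S ∧ Q S j ∧ I (insert j S)) :
    ∃ σ : Equiv.Perm (Fin N), ∀ k : Fin N,
      Q ((Finset.Iio k).map σ.toEmbedding) (σ k) ∧ I ((Finset.Iio k).map σ.toEmbedding) := by
  classical
  rcases Nat.eq_zero_or_pos N with hN | hN
  · subst hN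
    exact ⟨Equiv.refl _, fun k => k.elim0⟩
  let d : Fin N := ⟨0, hN⟩
  have hex : ∀ S : Finset (Fin N), ∃ j, I S → S ≠ Finset.univ → j ∉ S ∧ Q S j ∧ I (insert j S) := by
    intro S
    by_cases h : I S ∧ S ≠ Finset.univ
    · obtain ⟨j, hj⟩ := hstep S h.1 h.2
      exact ⟨j, fun _ _ => hj⟩
    · exact ⟨d, fun h1 h2 => absurd ⟨h1, h2⟩ h⟩
  choose f hf using hex
  obtain ⟨T, hT0, hTs⟩ : ∃ T : ℕ → Finset (Fin N), T 0 = ∅ ∧ ∀ m, T (m + 1) = insert (f (T m)) (T m) :=
    ⟨fun m => Nat.rec ∅ (fun _ S => insert (f S) S) m, rfl, fun m => rfl⟩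
  have hT : ∀ m, m ≤ N → (T m).card = m ∧ I (T m) := by
    intro m
    induction m with
    | zero => intro _; rw [hT0]; exact ⟨rfl, h0⟩
    | succ m ih =>
      intro hm
      obtain ⟨h1, h2⟩ := ih (by omega)
      have hne : T m ≠ Finset.univ := by
        intro h
        rw [h, Finset.card_univ, Fintype.card_fin] at h1
        omega
      obtain ⟨h3, h4, h5⟩ := hf (T m) h2 hne
      rw [hTs]
      refine ⟨?_, h5⟩
      rw [Finset.card_insert_of_notMem h3, h1]
  have hne : ∀ m, m < N → T m ≠ Finset.univ := by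
    intro m hm h
    have h1 := (hT m hm.le).1
    rw [h, Finset.card_univ, Fintype.card_fin] at h1
    omega
  have hmono : Monotone T := by
    apply monotone_nat_of_le_succ
    intro m
    rw [hTs]
    exact Finset.subset_insert _ _
  have hmem : ∀ k l : Fin N, k < l → f (T k) ∈ T l := by
    intro k l h
    apply hmono (show (k : ℕ) + 1 ≤ l from h)
    rw [hTs]
    exact Finset.mem_insert_self _ _
  have hnot : ∀ k : Fin N, f (T k) ∉ T k := fun k =>
    (hf (T k) (hT k k.2.le).2 (hne k k.2)).1
  have hinj : Function.Injective (fun k : Fin N => f (T k)) := by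
    intro k l h
    dsimp only at h
    rcases lt_trichotomy k l with h1 | h1 | h1
    · exact absurd (h ▸ hmem k l h1) (hnot l)
    · exact h1
    · exact absurd (h.symm ▸ hmem l k h1) (hnot k)
  have hbij : Function.Bijective (fun k : Fin N => f (T k)) :=
    Finite.injective_iff_bijective.1 hinj
  obtain ⟨σ, hσ⟩ : ∃ σ : Equiv.Perm (Fin N), ∀ k, σ k = f (T k) :=
    ⟨Equiv.ofBijective _ hbij, fun k => rfl⟩
  have himg : ∀ k : Fin N, (Finset.Iio k).map σ.toEmbedding = T k := by
    intro k
    apply Finset.eq_of_subset_of_card_le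
    · intro x hx
      rw [Finset.mem_map] at hx
      obtain ⟨l, hl, rfl⟩ := hx
      rw [Finset.mem_Iio] at hl
      show σ l ∈ T k
      rw [hσ]
      exact hmem l k hl
    · rw [Finset.card_map, Fin.card_Iio, (hT k k.2.le).1]
  refine ⟨σ, fun k => ?_⟩
  rw [himg, hσ]
  exact ⟨(hf (T k) (hT k k.2.le).2 (hne k k.2)).2.1, (hT k k.2.le).2⟩

private lemma combWord_sum {N r : ℕ} (c : Fin N → Fin (r + 1)) (S : Finset (Fin N)) :
    ∑ τ, (S ∩ cls c τ).card = S.card := by
  classical
  have h := Finset.card_eq_sum_card_fiberwise (f := c) (s := S) (t := Finset.univ)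
    (fun x _ => Finset.mem_coe.2 (Finset.mem_univ _))
  rw [h]
  apply Finset.sum_congr rfl
  intro τ _
  congr 1
  ext x
  simp [cls]

/-- M02 (balanced greedy order): for a colouring `c` and any rule `P S j` such that inside every
non-empty remaining part of a class there is a `j` satisfying the rule, there is an order `σ`
following the rule such that, when the `i`-th point of the class `τ` is exposed, at most
`N i / #class + r + 1` points are already exposed. -/
theorem exists_balanced_order {N r : ℕ} (c : Fin N → Fin (r + 1))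
    (P : Finset (Fin N) → Fin N → Prop)
    (hP : ∀ (S : Finset (Fin N)) (τ : Fin (r + 1)), (cls c τ \ S).Nonempty →
      ∃ j ∈ cls c τ \ S, P S j) :
    ∃ σ : Equiv.Perm (Fin N), ∀ k : Fin N,
      P ((Finset.Iio k).map σ.toEmbedding) (σ k) ∧
      ((cls c (c (σ k))).card : ℝ) * (((Finset.Iio k).map σ.toEmbedding).card : ℝ) ≤
        N * (((Finset.Iio k).map σ.toEmbedding ∩ cls c (c (σ k))).card : ℝ) +
          (r + 1) * (cls c (c (σ k))).card := by
  classical
  -- the invariant
  have hstep : ∀ S : Finset (Fin N), (∀ τ τ', (S ∩ cls c τ').card * (cls c τ).card ≤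
      (S ∩ cls c τ).card * (cls c τ').card + (cls c τ).card) → S ≠ Finset.univ →
      ∃ j, j ∉ S ∧ P S j ∧ (∀ τ τ', (insert j S ∩ cls c τ').card * (cls c τ).card ≤
      (insert j S ∩ cls c τ).card * (cls c τ').card + (cls c τ).card) := by
    intro S hI hS
    -- unfinished classes
    have hne : (Finset.univ.filter fun τ : Fin (r + 1) => (cls c τ \ S).Nonempty).Nonempty := by
      obtain ⟨x, hx⟩ : ∃ x, x ∉ S := by
        by_contra h
        push Not at h
        exact hS (Finset.eq_univ_iff_forall.2 h)
      refine ⟨c x, ?_⟩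
      rw [Finset.mem_filter]
      refine ⟨Finset.mem_univ _, x, ?_⟩
      rw [Finset.mem_sdiff]
      exact ⟨by simp [cls], hx⟩
    obtain ⟨τ₀, hτ₀, hmin⟩ := Finset.exists_min_image _
      (fun τ => ((S ∩ cls c τ).card : ℝ) / (cls c τ).card) hne
    rw [Finset.mem_filter] at hτ₀
    obtain ⟨j, hj, hPj⟩ := hP S τ₀ hτ₀.2
    rw [Finset.mem_sdiff] at hj
    refine ⟨j, hj.2, hPj, ?_⟩
    -- minimality, extended to the finished classes
    have hmin' : ∀ τ, (S ∩ cls c τ₀).card * (cls c τ).card ≤
        (S ∩ cls c τ).card * (cls c τ₀).card := by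
      intro τ
      by_cases hτ : (cls c τ \ S).Nonempty
      · have h1 := hmin τ (Finset.mem_filter.2 ⟨Finset.mem_univ _, hτ⟩)
        have hp : (0 : ℝ) < (cls c τ).card := by
          have : (cls c τ).Nonempty := hτ.mono Finset.sdiff_subset
          exact_mod_cast this.card_pos
        have hp0 : (0 : ℝ) < (cls c τ₀).card := by
          have : (cls c τ₀).Nonempty := ⟨j, hj.1⟩
          exact_mod_cast this.card_pos
        rw [div_le_div_iff₀ hp0 hp] at h1
        exact_mod_cast h1
      · have h2 : cls c τ ⊆ S := by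
          rw [Finset.not_nonempty_iff_eq_empty, Finset.sdiff_eq_empty_iff_subset] at hτ
          exact hτ
        rw [Finset.inter_eq_right.2 h2, mul_comm]
        exact Nat.mul_le_mul_left _ (Finset.card_le_card Finset.inter_subset_right)
    have hcard : ∀ τ, (insert j S ∩ cls c τ).card =
        (S ∩ cls c τ).card + (if τ = τ₀ then 1 else 0) := by
      intro τ
      by_cases hτ : τ = τ₀
      · subst hτ
        rw [Finset.insert_inter_of_mem hj.1, Finset.card_insert_of_notMem, if_pos rfl]
        intro h
        exact hj.2 (Finset.mem_inter.1 h).1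
      · have : j ∉ cls c τ := by
          intro h
          apply hτ
          have h1 : c j = τ := by simpa [cls] using h
          have h2 : c j = τ₀ := by simpa [cls] using hj.1
          rw [← h1, h2]
        rw [Finset.insert_inter_of_notMem this, if_neg hτ, add_zero]
    intro τ τ'
    rw [hcard, hcard]
    by_cases h' : τ' = τ₀
    · subst h'
      rw [if_pos rfl]
      have h3 := hmin' τ
      calc ((S ∩ cls c τ').card + 1) * (cls c τ).card
          = (S ∩ cls c τ').card * (cls c τ).card + (cls c τ).card := by ring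
        _ ≤ (S ∩ cls c τ).card * (cls c τ').card + (cls c τ).card := by omega
        _ ≤ _ := by
            apply Nat.add_le_add_right
            apply Nat.mul_le_mul_right
            omega
    · rw [if_neg h', add_zero]
      calc (S ∩ cls c τ').card * (cls c τ).card
          ≤ (S ∩ cls c τ).card * (cls c τ').card + (cls c τ).card := hI τ τ'
        _ ≤ _ := by
            apply Nat.add_le_add_right
            apply Nat.mul_le_mul_right
            omega
  obtain ⟨σ, hσ⟩ := combWord_build
    (fun S => ∀ τ τ', (S ∩ cls c τ').card * (cls c τ).card ≤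
      (S ∩ cls c τ).card * (cls c τ').card + (cls c τ).card) P
    (by intro τ τ'; simp) hstep
  refine ⟨σ, fun k => ⟨(hσ k).1, ?_⟩⟩
  have hI := (hσ k).2
  generalize (Finset.Iio k).map σ.toEmbedding = S at hI ⊢
  generalize c (σ k) = τ
  have h1 : ∑ τ', (S ∩ cls c τ').card * (cls c τ).card ≤
      ∑ τ', ((S ∩ cls c τ).card * (cls c τ').card + (cls c τ).card) :=
    Finset.sum_le_sum fun τ' _ => hI τ τ'
  rw [← Finset.sum_mul, combWord_sum, Finset.sum_add_distrib, ← Finset.mul_sum,
    Finset.sum_const, Finset.card_univ, Fintype.card_fin] at h1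
  have h2 : ∑ τ', (cls c τ').card = N := by
    have h := combWord_sum c Finset.univ
    simp only [Finset.univ_inter, Finset.card_univ, Fintype.card_fin] at h
    exact h
  rw [h2, smul_eq_mul] at h1
  have h3 : ((S.card * (cls c τ).card : ℕ) : ℝ) ≤
      (((S ∩ cls c τ).card * N + (r + 1) * (cls c τ).card : ℕ) : ℝ) := by
    exact_mod_cast h1
  push_cast at h3
  linarith

/-- M03 (blocked order): there is an order exposing the classes one after the other. -/
theorem exists_blocked_order {N r : ℕ} (c : Fin N → Fin (r + 1)) :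
    ∃ σ : Equiv.Perm (Fin N), ∀ k l : Fin N, k < l → c (σ k) ≤ c (σ l) :=
  ⟨Tuple.sort c, fun _ _ h => Tuple.monotone_sort c h.le⟩

end Pool.Agent.Lib_GD
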