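import Pool.Agent.Lib_GD.CombDefs
import Pool.Agent.Lib_GD.CombWord

namespace Pool.Agent.Lib_GD

/-- the rule for the next exposed point: it is expensive, or it has minimal energy in a set of
cheap points which makes up more than half of the rest of its class -/
private def combEnergyRule {N r : ℕ} (P : Profile N) (a : ℕ) (c : Fin N → Fin (r + 1))
    (S : Finset (Fin N)) (j : Fin N) : Prop :=
  j ∉ S ∧ (a < P.cost j S ∨
    (P.cost j S ≤ a ∧ ∃ E', E' ⊆ cls c (c j) \ S ∧ j ∈ E' ∧
      (cls c (c j) \ S).card < 2 * E'.card ∧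
      ∀ i ∈ E', P.cost i S ≤ a ∧ P.phi j S ≤ P.phi i S))

private theorem combEnergy_exists {N r : ℕ} (P : Profile N) (a : ℕ) (c : Fin N → Fin (r + 1))
    (S : Finset (Fin N)) (τ : Fin (r + 1)) (h : (cls c τ \ S).Nonempty) :
    ∃ j ∈ cls c τ \ S, combEnergyRule P a c S j := by
  classical
  have hcard := Finset.card_filter_add_card_filter_not (s := cls c τ \ S)
    (fun i => a < P.cost i S)
  have hpos := h.card_pos
  have hcls : ∀ j ∈ cls c τ \ S, c j = τ := by
    intro j hj
    have h1 := (Finset.mem_sdiff.1 hj).1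
    simpa [cls] using h1
  by_cases h1 : (cls c τ \ S).card ≤ 2 * ((cls c τ \ S).filter fun i => a < P.cost i S).card
  · obtain ⟨j, hj⟩ : ((cls c τ \ S).filter fun i => a < P.cost i S).Nonempty := by
      rw [← Finset.card_pos]; omega
    rw [Finset.mem_filter] at hj
    exact ⟨j, hj.1, (Finset.mem_sdiff.1 hj.1).2, Or.inl hj.2⟩
  · push Not at h1
    obtain ⟨j, hj, hmin⟩ := Finset.exists_min_image
      ((cls c τ \ S).filter fun i => ¬ a < P.cost i S) (fun i => P.phi i S)
      (by rw [← Finset.card_pos]; omega)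
    have hj' := Finset.mem_filter.1 hj
    refine ⟨j, hj'.1, (Finset.mem_sdiff.1 hj'.1).2, Or.inr ⟨by omega,
      (cls c τ \ S).filter fun i => ¬ a < P.cost i S, ?_, hj, ?_, ?_⟩⟩
    · rw [hcls j hj'.1]
      exact Finset.filter_subset _ _
    · rw [hcls j hj'.1]; omega
    · intro i hi
      have hi' := Finset.mem_filter.1 hi
      exact ⟨by omega, hmin i hi⟩

/-- the estimate for one cheap exposure -/
private theorem combEnergy_cheap {N r : ℕ} (hN : 0 < N) (P : Profile N) (R : Ranks N) (D a : ℕ)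
    (κ ξ η₅ : ℝ) (hκ : 0 < κ) (hξ : 0 ≤ ξ)
    (hT : P.HT D) (hEL : P.HEL R D a) (c : Fin N → Fin (r + 1))
    (hc : ∀ τ, τ ≠ 0 → ∀ E', E' ⊆ cls c τ → η₅ * (cls c τ).card ≤ (E'.card : ℝ) →
      (R.G (D * a) E' : ℝ) ≤ R.G (D * a) (cls c τ) + ξ * D * a * N)
    (S : Finset (Fin N)) (j : Fin N) (hjS : j ∉ S) (hj0 : c j ≠ 0) (hja : P.cost j S ≤ a)
    (E' : Finset (Fin N)) (hE' : E' ⊆ cls c (c j) \ S) (hjE : j ∈ E')
    (hcard : (cls c (c j) \ S).card < 2 * E'.card)
    (hmin : ∀ i ∈ E', P.cost i S ≤ a ∧ P.phi j S ≤ P.phi i S) :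
    (P.phi j S : ℝ) ≤ ((Finset.Icc 1 (D * a)).filter (fun b =>
        (N : ℝ) - S.card - κ * N < R.r (cls c (c j)) b)).card + ξ / κ * D * a +
      (if ((cls c (c j)).card : ℝ) - (S ∩ cls c (c j)).card < 2 * η₅ * (cls c (c j)).card
        then (D * a : ℝ) else 0) := by
  classical
  have hphi : P.phi j S ≤ D * a := (hT j S hjS).trans (Nat.mul_le_mul_left D hja)
  have hphi' : (P.phi j S : ℝ) ≤ D * a := by exact_mod_cast hphi
  have hDa : (0 : ℝ) ≤ D * a := by positivity
  have hNr : (0 : ℝ) < N := by exact_mod_cast hN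
  have hx1 : (0 : ℝ) ≤ ((Finset.Icc 1 (D * a)).filter (fun b =>
        (N : ℝ) - S.card - κ * N < R.r (cls c (c j)) b)).card := Nat.cast_nonneg _
  have hx2 : 0 ≤ ξ / κ * D * a := by positivity
  have hsplit : (cls c (c j) \ S).card + (S ∩ cls c (c j)).card = (cls c (c j)).card := by
    rw [Finset.inter_comm]
    exact Finset.card_sdiff_add_card_inter _ _
  split_ifs with hif
  · linarith
  · rw [add_zero]
    rw [not_lt] at hif
    have hE5 : η₅ * (cls c (c j)).card ≤ (E'.card : ℝ) := by
      have h1 : ((cls c (c j) \ S).card : ℝ) + (S ∩ cls c (c j)).card = (cls c (c j)).card := by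
        exact_mod_cast hsplit
      have h2 : ((cls c (c j) \ S).card : ℝ) < 2 * E'.card := by exact_mod_cast hcard
      linarith
    have hsub : E' ⊆ cls c (c j) := hE'.trans Finset.sdiff_subset
    have hG := hc (c j) hj0 E' hsub hE5
    have hdis : Disjoint E' S := by
      rw [Finset.disjoint_left]
      intro i hi
      exact (Finset.mem_sdiff.1 (hE' hi)).2
    have hEL' : ∀ b ∈ Finset.Icc 1 (P.phi j S), N ≤ R.r E' b + S.card := by
      intro b hb
      obtain ⟨hb1, hb2⟩ := Finset.mem_Icc.1 hb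
      exact hEL S E' b ⟨j, hjE⟩ hdis hb1 (hb2.trans hphi)
        fun i hi => ⟨(hmin i hi).1, hb2.trans (hmin i hi).2⟩
    -- Markov
    set Bad : Finset ℕ := (Finset.Icc 1 (D * a)).filter (fun b =>
      κ * N ≤ (R.r E' b : ℝ) - R.r (cls c (c j)) b) with hBad
    have hM : (Bad.card : ℝ) * (κ * N) ≤ ξ * D * a * N := by
      have h1 : (Bad.card : ℝ) * (κ * N) ≤ ∑ b ∈ Bad, ((R.r E' b : ℝ) - R.r (cls c (c j)) b) := by
        rw [← nsmul_eq_mul]
        apply Finset.card_nsmul_le_sum
        intro b hb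
        exact (Finset.mem_filter.1 hb).2
      have h2 : ∑ b ∈ Bad, ((R.r E' b : ℝ) - R.r (cls c (c j)) b) ≤
          ∑ b ∈ Finset.Icc 1 (D * a), ((R.r E' b : ℝ) - R.r (cls c (c j)) b) := by
        apply Finset.sum_le_sum_of_subset_of_nonneg (Finset.filter_subset _ _)
        intro b _ _
        have := R.anti E' (cls c (c j)) b hsub
        have h3 : (R.r (cls c (c j)) b : ℝ) ≤ R.r E' b := by exact_mod_cast this
        linarith
      have h3 : (R.G (D * a) E' : ℝ) = ∑ b ∈ Finset.Icc 1 (D * a), (R.r E' b : ℝ) := by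
        simp [Ranks.G]
      have h4 : (R.G (D * a) (cls c (c j)) : ℝ) =
          ∑ b ∈ Finset.Icc 1 (D * a), (R.r (cls c (c j)) b : ℝ) := by
        simp [Ranks.G]
      have h5 : ∑ b ∈ Finset.Icc 1 (D * a), ((R.r E' b : ℝ) - R.r (cls c (c j)) b) =
          R.G (D * a) E' - R.G (D * a) (cls c (c j)) := by
        rw [Finset.sum_sub_distrib, h3, h4]
      rw [h5] at h2
      linarith
    have hM' : (Bad.card : ℝ) ≤ ξ / κ * D * a := by
      have h1 : (Bad.card : ℝ) * κ ≤ ξ * D * a := by
        have : ((Bad.card : ℝ) * κ) * N ≤ (ξ * D * a) * N := by linarith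
        exact le_of_mul_le_mul_right this hNr
      rw [div_mul_eq_mul_div, div_mul_eq_mul_div, le_div_iff₀ hκ]
      exact h1
    have hcov : Finset.Icc 1 (P.phi j S) ⊆ (Finset.Icc 1 (D * a)).filter (fun b =>
        (N : ℝ) - S.card - κ * N < R.r (cls c (c j)) b) ∪ Bad := by
      intro b hb
      have hb' := Finset.mem_Icc.1 hb
      have hbD : b ∈ Finset.Icc 1 (D * a) := Finset.mem_Icc.2 ⟨hb'.1, hb'.2.trans hphi⟩
      rw [Finset.mem_union]
      by_cases hbad : b ∈ Bad
      · exact Or.inr hbad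
      · left
        rw [hBad, Finset.mem_filter, not_and] at hbad
        have h1 := hbad hbD
        rw [not_le] at h1
        have h2 : (N : ℝ) ≤ R.r E' b + S.card := by exact_mod_cast hEL' b hb
        rw [Finset.mem_filter]
        refine ⟨hbD, ?_⟩
        linarith
    have hcc := (Finset.card_le_card hcov).trans (Finset.card_union_le _ _)
    rw [Nat.card_Icc, Nat.add_sub_cancel] at hcc
    have hcc' : (P.phi j S : ℝ) ≤ ((Finset.Icc 1 (D * a)).filter (fun b =>
        (N : ℝ) - S.card - κ * N < R.r (cls c (c j)) b)).card + Bad.card := by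
      exact_mod_cast hcc
    linarith

/-- counting exposures of a class -/
private theorem combEnergy_count {N r : ℕ} (c : Fin N → Fin (r + 1)) (σ : Equiv.Perm (Fin N))
    (τ : Fin (r + 1)) (T : Finset (Fin N)) (x : ℝ)
    (hT : ∀ k ∈ T, c (σ k) = τ ∧ x < (((Finset.Iio k).map σ.toEmbedding ∩ cls c τ).card : ℝ))
    (hx : x ≤ (cls c τ).card) : (T.card : ℝ) ≤ (cls c τ).card - x := by
  classical
  rcases T.eq_empty_or_nonempty with rfl | hne
  · simp only [Finset.card_empty, Nat.cast_zero]
    linarith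
  · set k₀ := T.min' hne with hk₀
    have hk₀T : k₀ ∈ T := T.min'_mem hne
    have h1 := (hT k₀ hk₀T).2
    have h2 : T.card + ((Finset.Iio k₀).map σ.toEmbedding ∩ cls c τ).card ≤ (cls c τ).card := by
      rw [← Finset.card_map σ.toEmbedding (s := T), ← Finset.card_union_of_disjoint]
      · apply Finset.card_le_card
        intro i hi
        rcases Finset.mem_union.1 hi with hi | hi
        · obtain ⟨k, hk, rfl⟩ := Finset.mem_map.1 hi
          simp only [cls, Finset.mem_filter, Finset.mem_univ, true_and]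
          exact (hT k hk).1
        · exact (Finset.mem_inter.1 hi).2
      · rw [Finset.disjoint_left]
        intro i hi hi'
        obtain ⟨k, hk, rfl⟩ := Finset.mem_map.1 hi
        obtain ⟨l, hl, hlk⟩ := Finset.mem_map.1 (Finset.mem_inter.1 hi').1
        have hlk' : l = k := σ.injective hlk
        rw [hlk', Finset.mem_Iio] at hl
        exact absurd (T.min'_le k hk) (not_le.2 hl)
    have h3 : (T.card : ℝ) + ((Finset.Iio k₀).map σ.toEmbedding ∩ cls c τ).card ≤
        (cls c τ).card := by exact_mod_cast h2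
    linarith

/-- M04 (energy upper bound). -/
theorem energy_le {N r : ℕ} (hN : 0 < N) (P : Profile N) (R : Ranks N) (D a : ℕ) (hD : 1 ≤ D)
    (ha : 1 ≤ a) (θ κ ξ η₅ : ℝ) (hθ : 0 ≤ θ) (hκ : 0 < κ) (hξ : 0 ≤ ξ) (h5 : 0 < η₅)
    (hT : P.HT D) (hExp : P.HExp a θ) (hEL : P.HEL R D a) (c : Fin N → Fin (r + 1))
    (hc : ∀ τ, τ ≠ 0 → ∀ E', E' ⊆ cls c τ → η₅ * (cls c τ).card ≤ (E'.card : ℝ) →
      (R.G (D * a) E' : ℝ) ≤ R.G (D * a) (cls c τ) + ξ * D * a * N) :
    (P.v : ℝ) ≤ θ * P.A + (∑ τ ∈ Finset.univ.erase 0,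
        ((cls c τ).card : ℝ) / N * R.G (D * a) (cls c τ)) +
      (κ + ξ / κ + 2 * η₅) * D * a * N + 3 * (r + 2) * D * a + (cls c 0).card * D * a := by
  classical
  have hNr : (0 : ℝ) < N := by exact_mod_cast hN
  have hDa : (0 : ℝ) ≤ D * a := by positivity
  obtain ⟨σ, hσ⟩ := exists_balanced_order c (combEnergyRule P a c)
    (fun S τ h => combEnergy_exists P a c S τ h)
  set S : Fin N → Finset (Fin N) := fun k => (Finset.Iio k).map σ.toEmbedding with hS
  -- the bound for one exposure
  set g : Fin (r + 1) → Fin N → ℝ := fun τ k => if τ = 0 then (D * a : ℝ) else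
    (((Finset.Icc 1 (D * a)).filter (fun b =>
        (N : ℝ) - (S k).card - κ * N < R.r (cls c τ) b)).card : ℝ) + ξ / κ * D * a +
      (if ((cls c τ).card : ℝ) - (S k ∩ cls c τ).card < 2 * η₅ * (cls c τ).card
        then (D * a : ℝ) else 0) with hg
  have hg0 : ∀ τ k, 0 ≤ g τ k := by
    intro τ k
    simp only [hg]
    split_ifs <;> positivity
  have hk : ∀ k, (P.phi (σ k) (S k) : ℝ) ≤ θ * P.cost (σ k) (S k) + g (c (σ k)) k := by
    intro k
    obtain ⟨⟨hk1, hk2⟩, -⟩ := hσ k
    have hcost0 : 0 ≤ θ * (P.cost (σ k) (S k) : ℝ) := by positivity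
    rcases hk2 with hk2 | ⟨hk2, E', hE', hjE, hcard, hmin⟩
    · have h1 := hExp (σ k) (S k) hk1 hk2
      have h2 := hg0 (c (σ k)) k
      linarith
    · by_cases h0 : c (σ k) = 0
      · have h1 : P.phi (σ k) (S k) ≤ D * a := (hT _ _ hk1).trans (Nat.mul_le_mul_left D hk2)
        have h2 : (P.phi (σ k) (S k) : ℝ) ≤ D * a := by exact_mod_cast h1
        simp only [hg, if_pos h0]
        linarith
      · have h1 := combEnergy_cheap hN P R D a κ ξ η₅ hκ hξ hT hEL c hc (S k) (σ k) hk1 h0 hk2
          E' hE' hjE hcard hmin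
        simp only [hg, if_neg h0]
        linarith
  -- sums over the classes
  set fib : Fin (r + 1) → Finset (Fin N) := fun τ => Finset.univ.filter fun k => c (σ k) = τ
    with hfib
  have hfibc : ∀ τ, (fib τ).card = (cls c τ).card := by
    intro τ
    rw [← Finset.card_map σ.toEmbedding]
    congr 1
    ext i
    simp only [hfib, cls, Finset.mem_map, Finset.mem_filter, Finset.mem_univ, true_and,
      Equiv.coe_toEmbedding]
    constructor
    · rintro ⟨k, hk, rfl⟩; exact hk
    · intro hi
      exact ⟨σ.symm i, by rw [Equiv.apply_symm_apply]; exact hi, Equiv.apply_symm_apply _ _⟩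
  have hsumcls : (∑ τ : Fin (r + 1), ((cls c τ).card : ℝ)) = N := by
    have h2 := Finset.card_eq_sum_card_fiberwise (f := c) (s := (Finset.univ : Finset (Fin N)))
      (t := (Finset.univ : Finset (Fin (r + 1)))) (fun i _ => by simp)
    rw [Finset.card_univ, Fintype.card_fin] at h2
    exact_mod_cast h2.symm
  have hclass : ∀ τ, τ ≠ 0 → ∑ k ∈ fib τ, g τ k ≤ ((cls c τ).card : ℝ) / N *
      R.G (D * a) (cls c τ) + (κ + ξ / κ + 2 * η₅) * (D * a) * (cls c τ).card +
      (r + 1) * (D * a) * ((cls c τ).card / N) := by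
    intro τ hτ
    have hn0 : (0 : ℝ) ≤ (cls c τ).card := Nat.cast_nonneg _
    simp only [hg, if_neg hτ]
    rw [Finset.sum_add_distrib, Finset.sum_add_distrib]
    have h1 : ∑ k ∈ fib τ, (((Finset.Icc 1 (D * a)).filter (fun b =>
        (N : ℝ) - (S k).card - κ * N < R.r (cls c τ) b)).card : ℝ) ≤
        ((cls c τ).card : ℝ) / N * R.G (D * a) (cls c τ) + κ * (D * a) * (cls c τ).card +
        (r + 1) * (D * a) * ((cls c τ).card / N) := by
      have h2 : ∑ k ∈ fib τ, (((Finset.Icc 1 (D * a)).filter (fun b =>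
          (N : ℝ) - (S k).card - κ * N < R.r (cls c τ) b)).card : ℝ) =
          ∑ b ∈ Finset.Icc 1 (D * a), (((fib τ).filter (fun k =>
            (N : ℝ) - (S k).card - κ * N < R.r (cls c τ) b)).card : ℝ) := by
        simp only [Finset.card_filter]
        push_cast
        exact Finset.sum_comm
      rw [h2]
      have h3 : ∀ b ∈ Finset.Icc 1 (D * a), (((fib τ).filter (fun k =>
            (N : ℝ) - (S k).card - κ * N < R.r (cls c τ) b)).card : ℝ) ≤
          ((cls c τ).card : ℝ) / N * R.r (cls c τ) b +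
            ((cls c τ).card * κ + (r + 1) * ((cls c τ).card / N)) := by
        intro b _
        have h4 := combEnergy_count c σ τ ((fib τ).filter (fun k =>
            (N : ℝ) - (S k).card - κ * N < R.r (cls c τ) b))
          ((cls c τ).card * (1 - R.r (cls c τ) b / N - κ - (r + 1) / N)) (by
            intro k hk
            obtain ⟨hk1, hk2⟩ := Finset.mem_filter.1 hk
            have hk3 : c (σ k) = τ := by simpa [hfib] using hk1
            refine ⟨hk3, ?_⟩
            have h5 := (hσ k).2
            rw [hk3] at h5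
            have hpos : (0 : ℝ) < (cls c τ).card := by
              have : σ k ∈ cls c τ := by simp [cls, hk3]
              exact_mod_cast Finset.card_pos.2 ⟨_, this⟩
            have h6 : ((cls c τ).card : ℝ) * ((N : ℝ) - κ * N - R.r (cls c τ) b - (r + 1)) <
                N * ((S k ∩ cls c τ).card : ℝ) := by
              have h7 : ((cls c τ).card : ℝ) * ((N : ℝ) - κ * N - R.r (cls c τ) b) <
                  (cls c τ).card * (S k).card := by
                apply mul_lt_mul_of_pos_left _ hpos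
                linarith
              have h8 : ((cls c τ).card : ℝ) * (S k).card ≤
                  N * (S k ∩ cls c τ).card + (r + 1) * (cls c τ).card := h5
              nlinarith
            have h9 : ((cls c τ).card : ℝ) * (1 - R.r (cls c τ) b / N - κ - (r + 1) / N) * N =
                (cls c τ).card * ((N : ℝ) - κ * N - R.r (cls c τ) b - (r + 1)) := by
              field_simp
              ring
            have h10 : ((cls c τ).card : ℝ) * (1 - R.r (cls c τ) b / N - κ - (r + 1) / N) * N <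
                (S k ∩ cls c τ).card * N := by
              rw [h9]; linarith
            exact lt_of_mul_lt_mul_right h10 hNr.le)
          (by
            have h11 : 1 - (R.r (cls c τ) b : ℝ) / N - κ - (r + 1) / N ≤ 1 := by
              have h12 : 0 ≤ (R.r (cls c τ) b : ℝ) / N := by positivity
              have h13 : 0 ≤ ((r : ℝ) + 1) / N := by positivity
              linarith
            nlinarith)
        refine h4.trans (le_of_eq ?_)
        ring
      refine (Finset.sum_le_sum h3).trans (le_of_eq ?_)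
      rw [Finset.sum_add_distrib, ← Finset.mul_sum, Finset.sum_const, Nat.card_Icc,
        Nat.add_sub_cancel, nsmul_eq_mul]
      simp only [Ranks.G]
      push_cast
      ring
    have h2 : ∑ k ∈ fib τ, ξ / κ * D * a = ξ / κ * (D * a) * (cls c τ).card := by
      rw [Finset.sum_const, nsmul_eq_mul, hfibc]
      ring
    have h3 : ∑ k ∈ fib τ, (if ((cls c τ).card : ℝ) - (S k ∩ cls c τ).card <
        2 * η₅ * (cls c τ).card then (D * a : ℝ) else 0) ≤
        2 * η₅ * (D * a) * (cls c τ).card := by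
      rw [← Finset.sum_filter, Finset.sum_const, nsmul_eq_mul]
      have h4 := combEnergy_count c σ τ ((fib τ).filter (fun k =>
          ((cls c τ).card : ℝ) - (S k ∩ cls c τ).card < 2 * η₅ * (cls c τ).card))
        ((cls c τ).card - 2 * η₅ * (cls c τ).card) (by
          intro k hk
          obtain ⟨hk1, hk2⟩ := Finset.mem_filter.1 hk
          have hk3 : c (σ k) = τ := by simpa [hfib] using hk1
          refine ⟨hk3, ?_⟩
          show _ < ((S k ∩ cls c τ).card : ℝ)
          linarith)
        (by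
          have : 0 ≤ 2 * η₅ * ((cls c τ).card : ℝ) := by positivity
          linarith)
      have h5 : (((fib τ).filter (fun k =>
          ((cls c τ).card : ℝ) - (S k ∩ cls c τ).card < 2 * η₅ * (cls c τ).card)).card : ℝ) ≤
          2 * η₅ * (cls c τ).card := by linarith
      have h6 := mul_le_mul_of_nonneg_right h5 hDa
      linarith
    rw [h2]
    linarith
  have htot : (P.v : ℝ) ≤ θ * P.A + ∑ τ : Fin (r + 1), ∑ k ∈ fib τ, g τ k := by
    have h1 : (P.v : ℝ) = ∑ k, (P.phi (σ k) (S k) : ℝ) := by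
      rw [← P.phi_sum σ]; push_cast; rfl
    have h2 : (P.A : ℝ) = ∑ k, (P.cost (σ k) (S k) : ℝ) := by
      rw [← P.cost_sum σ]; push_cast; rfl
    have h3 : ∑ τ : Fin (r + 1), ∑ k ∈ fib τ, g τ k = ∑ k, g (c (σ k)) k := by
      rw [← Finset.sum_fiberwise (s := (Finset.univ : Finset (Fin N))) (g := fun k => c (σ k))
        (f := fun k => g (c (σ k)) k)]
      refine Finset.sum_congr rfl fun τ _ => Finset.sum_congr rfl fun k hk => ?_
      have : c (σ k) = τ := by simpa [hfib] using hk
      rw [this]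
    rw [h1, h2, h3, Finset.mul_sum, ← Finset.sum_add_distrib]
    exact Finset.sum_le_sum fun k _ => hk k
  have hsum0 : ∑ k ∈ fib 0, g 0 k = (cls c 0).card * D * a := by
    simp only [hg, if_true]
    rw [Finset.sum_const, nsmul_eq_mul, hfibc]
    ring
  have hrest : ∑ τ ∈ Finset.univ.erase 0, ∑ k ∈ fib τ, g τ k ≤
      (∑ τ ∈ Finset.univ.erase 0, ((cls c τ).card : ℝ) / N * R.G (D * a) (cls c τ)) +
      (κ + ξ / κ + 2 * η₅) * D * a * N + (r + 1) * (D * a) := by
    have h1 : ∑ τ ∈ (Finset.univ.erase 0 : Finset (Fin (r + 1))), ((cls c τ).card : ℝ) ≤ N := by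
      rw [← hsumcls]
      exact Finset.sum_le_sum_of_subset_of_nonneg (Finset.erase_subset _ _)
        fun τ _ _ => Nat.cast_nonneg _
    refine (Finset.sum_le_sum fun τ hτ => hclass τ (Finset.ne_of_mem_erase hτ)).trans ?_
    rw [Finset.sum_add_distrib, Finset.sum_add_distrib, ← Finset.mul_sum, ← Finset.mul_sum,
      ← Finset.sum_div]
    have h2 : 0 ≤ (κ + ξ / κ + 2 * η₅) * (D * a : ℝ) := by positivity
    have h3 := mul_le_mul_of_nonneg_left h1 h2
    have h4 : (∑ τ ∈ (Finset.univ.erase 0 : Finset (Fin (r + 1))), ((cls c τ).card : ℝ)) / N ≤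
        1 := by
      rw [div_le_one hNr]; exact h1
    have h5 : (0 : ℝ) ≤ ((r : ℝ) + 1) * (D * a) := by positivity
    have h6 := mul_le_mul_of_nonneg_left h4 h5
    linarith
  rw [← Finset.add_sum_erase _ _ (Finset.mem_univ (0 : Fin (r + 1))), hsum0] at htot
  have h7 : (0 : ℝ) ≤ (2 * r + 5) * (D * a) := by positivity
  linarith

end Pool.Agent.Lib_GD
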