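import Pool.Agent.Lib_GD.CombPart
import Pool.Agent.Lib_GD.CombEnergy
import Pool.Agent.Lib_GD.CombCost

namespace Pool.Agent.Lib_GD

private theorem Comb_G_le {N : ℕ} (R : Ranks N) (B : ℕ) (S : Finset (Fin N)) :
    R.G B S ≤ B * N := by
  have h1 : R.G B S ≤ ∑ _b ∈ Finset.Icc 1 B, N := Finset.sum_le_sum fun b _ => R.r_le S b
  refine h1.trans (le_of_eq ?_)
  rw [Finset.sum_const, Nat.card_Icc, smul_eq_mul]
  congr 1

/-- M06 (combinatorial core). -/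
theorem comb (κ : ℝ) (hκ : 0 < κ) : ∃ (ξ : ℝ) (C₂ N₀ : ℕ), 0 < ξ ∧ 1 ≤ C₂ ∧ ∀ (N : ℕ), N₀ ≤ N →
    ∀ (P : Profile N) (R : Ranks N) (D a : ℕ) (θ σ : ℝ), 1 ≤ D → 1 ≤ a → 0 ≤ θ → 0 ≤ σ →
      P.HT D → P.HExp a θ → P.HEL R D a → P.HCL R D a C₂ σ ξ →
      (P.v : ℝ) ≤ θ * P.A + σ / N * P.A + κ * D * a * N := by
  obtain ⟨κ1, hκ1⟩ : ∃ κ1 : ℝ, κ1 = κ / 10 := ⟨_, rfl⟩
  have hκ1p : 0 < κ1 := by rw [hκ1]; positivity
  obtain ⟨ξ1, hξ1⟩ : ∃ ξ1 : ℝ, ξ1 = κ1 * κ1 := ⟨_, rfl⟩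
  have hξ1p : 0 < ξ1 := by rw [hξ1]; positivity
  obtain ⟨η5, hη5⟩ : ∃ η5 : ℝ, η5 = min (κ1 / 2) 1 := ⟨_, rfl⟩
  have hη5p : 0 < η5 := by rw [hη5]; exact lt_min (by positivity) one_pos
  have hη51 : η5 ≤ 1 := by rw [hη5]; exact min_le_right _ _
  have hη52 : η5 ≤ κ1 / 2 := by rw [hη5]; exact min_le_left _ _
  obtain ⟨r₀, hr₀⟩ := exists_partition ξ1 η5 κ1 hξ1p hη5p hη51 hκ1p
  obtain ⟨C, hC⟩ := exists_nat_ge ((r₀ : ℝ) / κ1)
  obtain ⟨M, hM⟩ := exists_nat_ge (3 * ((r₀ : ℝ) + 2) / κ1)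
  refine ⟨κ1, max C 1, max M 1, hκ1p, le_max_right _ _, ?_⟩
  intro N hN P R D a θ σ hD ha hθ hσ hT hExp hEL hCL
  have hN1 : 1 ≤ N := (le_max_right _ _).trans hN
  have hNr : (0 : ℝ) < N := by exact_mod_cast hN1
  have hMN : (M : ℝ) ≤ N := by exact_mod_cast (le_max_left _ _).trans hN
  have hDa : (0 : ℝ) ≤ D * a := by positivity
  obtain ⟨r, c, hr, hc0, hc⟩ := hr₀ N (fun S => (R.G (D * a) S : ℝ)) (D * a * N) (by
    intro S
    refine ⟨Nat.cast_nonneg _, ?_⟩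
    have h1 : R.G (D * a) S ≤ D * a * N := Comb_G_le R _ _
    exact_mod_cast h1) (by
    intro S S' hSS
    have h1 : R.G (D * a) S' ≤ R.G (D * a) S :=
      Finset.sum_le_sum fun b _ => R.anti S S' b hSS
    exact_mod_cast h1)
  have hE := energy_le hN1 P R D a hD ha θ κ1 ξ1 η5 hθ hκ1p hξ1p.le hη5p hT hExp hEL c (by
    intro τ hτ E' hE' hcard
    have h1 := (hc τ hτ).2 E' hE' hcard
    calc (R.G (D * a) E' : ℝ) ≤ R.G (D * a) (cls c τ) + ξ1 * (D * a * N) := h1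
      _ = R.G (D * a) (cls c τ) + ξ1 * D * a * N := by ring)
  have hCo := le_cost hN1 P R D a (max C 1) hD ha (le_max_right _ _) σ κ1 hσ hκ1p.le hCL c
  have hCo2 : (∑ τ ∈ Finset.univ.erase 0, ((cls c τ).card : ℝ) / N * R.G (D * a) (cls c τ)) ≤
      σ / N * P.A + (r * (D * a) + r / (max C 1 : ℕ) * (D * a * N)) + κ1 * (D * a * N) := by
    have h1 : (∑ τ ∈ Finset.univ.erase 0, ((cls c τ).card : ℝ) / N * R.G (D * a) (cls c τ)) =
        (∑ τ ∈ Finset.univ.erase 0, ((cls c τ).card : ℝ) * R.G (D * a) (cls c τ)) / N := by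
      rw [Finset.sum_div]
      refine Finset.sum_congr rfl fun τ _ => ?_
      ring
    rw [h1, div_le_iff₀ hNr]
    refine hCo.trans (le_of_eq ?_)
    field_simp
  -- the numerical bounds
  have hCr : (0 : ℝ) < ((max C 1 : ℕ) : ℝ) := by
    have : 1 ≤ max C 1 := le_max_right _ _
    exact_mod_cast this
  have hrr : (r : ℝ) ≤ r₀ := by exact_mod_cast hr
  have hb1 : (r : ℝ) / (max C 1 : ℕ) ≤ κ1 := by
    rw [div_le_iff₀ hCr]
    rw [div_le_iff₀ hκ1p] at hC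
    have h1 : (C : ℝ) ≤ ((max C 1 : ℕ) : ℝ) := by exact_mod_cast le_max_left _ _
    nlinarith
  have hb2 : 3 * ((r : ℝ) + 2) ≤ κ1 * N := by
    rw [div_le_iff₀ hκ1p] at hM
    nlinarith
  have hb3 : (r : ℝ) ≤ κ1 * N := by
    have : (0 : ℝ) ≤ r := Nat.cast_nonneg _
    linarith
  have hx1 : (r : ℝ) * (D * a) ≤ κ1 * (D * a * N) := by
    calc (r : ℝ) * (D * a) ≤ (κ1 * N) * (D * a) := mul_le_mul_of_nonneg_right hb3 hDa
      _ = _ := by ring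
  have hx2 : (r : ℝ) / (max C 1 : ℕ) * (D * a * N) ≤ κ1 * (D * a * N) :=
    mul_le_mul_of_nonneg_right hb1 (by positivity)
  have hx3 : 3 * ((r : ℝ) + 2) * D * a ≤ κ1 * (D * a * N) := by
    calc 3 * ((r : ℝ) + 2) * D * a = (3 * ((r : ℝ) + 2)) * (D * a) := by ring
      _ ≤ (κ1 * N) * (D * a) := mul_le_mul_of_nonneg_right hb2 hDa
      _ = _ := by ring
  have hx4 : ((cls c 0).card : ℝ) * D * a ≤ κ1 * (D * a * N) := by
    calc ((cls c 0).card : ℝ) * D * a = ((cls c 0).card : ℝ) * (D * a) := by ring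
      _ ≤ (κ1 * N) * (D * a) := mul_le_mul_of_nonneg_right hc0 hDa
      _ = _ := by ring
  have hx5 : (κ1 + ξ1 / κ1 + 2 * η5) * D * a * N ≤ 3 * κ1 * (D * a * N) := by
    have h1 : ξ1 / κ1 = κ1 := by
      rw [hξ1]
      field_simp
    rw [h1]
    calc (κ1 + κ1 + 2 * η5) * D * a * N = (κ1 + κ1 + 2 * η5) * (D * a * N) := by ring
      _ ≤ 3 * κ1 * (D * a * N) := mul_le_mul_of_nonneg_right (by linarith) (by positivity)
  have hk : κ * D * a * N = 10 * κ1 * (D * a * N) := by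
    rw [hκ1]
    ring
  have hnn : (0 : ℝ) ≤ κ1 * (D * a * N) := by positivity
  rw [hk]
  linarith

end Pool.Agent.Lib_GD
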