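import Mathlib

/-!
# Combinatorial core: definitions
-/

namespace Pool.Agent.Lib_GD

/-- Exposure data on `N` points: `cost j S` and `phi j S` are the cost and the energy of exposing
`j` after `S`; the totals `A` and `v` do not depend on the order. -/
structure Profile (N : ℕ) where
  cost : Fin N → Finset (Fin N) → ℕ
  phi : Fin N → Finset (Fin N) → ℕ
  A : ℕ
  v : ℕ
  cost_sum : ∀ σ : Equiv.Perm (Fin N),
    ∑ k, cost (σ k) ((Finset.Iio k).map σ.toEmbedding) = A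
  phi_sum : ∀ σ : Equiv.Perm (Fin N),
    ∑ k, phi (σ k) ((Finset.Iio k).map σ.toEmbedding) = v
  cost_mono : ∀ S T j, S ⊆ T → j ∉ T → cost j S ≤ cost j T

/-- The class of `τ` for a colouring `c`. -/
def cls {N r : ℕ} (c : Fin N → Fin (r + 1)) (τ : Fin (r + 1)) : Finset (Fin N) :=
  Finset.univ.filter fun i => c i = τ

/-- The ranks `r S b` attached to sets of points, and the total energies
`G S = ∑_{b=1}^B r S b`. -/
structure Ranks (N : ℕ) where
  r : Finset (Fin N) → ℕ → ℕ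
  r_le : ∀ S b, r S b ≤ N
  anti : ∀ S T b, S ⊆ T → r T b ≤ r S b

/-- `G S = ∑_{b=1}^B r S b`. -/
def Ranks.G {N : ℕ} (R : Ranks N) (B : ℕ) (S : Finset (Fin N)) : ℕ :=
  ∑ b ∈ Finset.Icc 1 B, R.r S b

/-- Hypothesis (T): `φ(j|S) ≤ D a(j|S)`. -/
def Profile.HT {N : ℕ} (P : Profile N) (D : ℕ) : Prop :=
  ∀ j S, j ∉ S → P.phi j S ≤ D * P.cost j S

/-- Hypothesis (Exp): expensive exposures have energy at most `θ` times their cost. -/
def Profile.HExp {N : ℕ} (P : Profile N) (a : ℕ) (θ : ℝ) : Prop :=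
  ∀ j S, j ∉ S → a < P.cost j S → (P.phi j S : ℝ) ≤ θ * P.cost j S

/-- Hypothesis (EL). -/
def Profile.HEL {N : ℕ} (P : Profile N) (R : Ranks N) (D a : ℕ) : Prop :=
  ∀ (S E : Finset (Fin N)) (b : ℕ), E.Nonempty → Disjoint E S → 1 ≤ b → b ≤ D * a →
    (∀ i ∈ E, P.cost i S ≤ a ∧ b ≤ P.phi i S) → N ≤ R.r E b + S.card

/-- Hypothesis (CL). -/
def Profile.HCL {N : ℕ} (P : Profile N) (R : Ranks N) (D a C₂ : ℕ) (σ ξ : ℝ) : Prop :=
  ∀ (S : Finset (Fin N)) (j : Fin N), S.Nonempty → j ∉ S →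
    R.G (D * a) S ≤ R.G (D * a) (insert j S) + C₂ * (D * a) →
    (R.G (D * a) S : ℝ) ≤ σ * P.cost j S + ξ * D * a * N

end Pool.Agent.Lib_GD
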