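import Pool.Agent.Lib_GD.CombDefs

namespace Pool.Agent.Lib_GD

/-- homogeneous sets -/
private def hom {N : ℕ} (G : Finset (Fin N) → ℝ) (T ξ η₅ : ℝ) (E : Finset (Fin N)) : Prop :=
  ∀ E', E' ⊆ E → η₅ * E.card ≤ (E'.card : ℝ) → G E' ≤ G E + ξ * T

private theorem hom_sub {N : ℕ} (G : Finset (Fin N) → ℝ) (T ξ η₅ : ℝ) (hξ : 0 < ξ) (h5 : 0 < η₅)
    (h5' : η₅ ≤ 1) (hG : ∀ S, 0 ≤ G S ∧ G S ≤ T) (j : ℕ) :
    ∀ E : Finset (Fin N), E.Nonempty → T ≤ G E + j * (ξ * T) →
      ∃ E', E' ⊆ E ∧ E'.Nonempty ∧ hom G T ξ η₅ E' ∧ η₅ ^ j * E.card ≤ (E'.card : ℝ) := by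
  have hT : 0 ≤ T := (hG ∅).1.trans (hG ∅).2
  have hξT : 0 ≤ ξ * T := mul_nonneg hξ.le hT
  induction j with
  | zero =>
    intro E hE h
    refine ⟨E, Finset.Subset.refl E, hE, ?_, by simp⟩
    intro E' _ _
    have h1 := (hG E').2
    simp only [Nat.cast_zero, zero_mul, add_zero] at h
    linarith
  | succ j ih =>
    intro E hE h
    by_cases hh : hom G T ξ η₅ E
    · refine ⟨E, Finset.Subset.refl E, hE, hh, ?_⟩
      have h1 : η₅ ^ (j + 1) ≤ 1 := pow_le_one₀ h5.le h5'
      have h2 : (0 : ℝ) ≤ E.card := Nat.cast_nonneg _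
      nlinarith
    · unfold hom at hh
      push Not at hh
      obtain ⟨E', hE', hcard, hGE⟩ := hh
      have hpos : (0 : ℝ) < E.card := by exact_mod_cast hE.card_pos
      have hne : E'.Nonempty := by
        rw [← Finset.card_pos]
        have h1 : (0 : ℝ) < E'.card := lt_of_lt_of_le (mul_pos h5 hpos) hcard
        exact_mod_cast h1
      have hT' : T ≤ G E' + j * (ξ * T) := by
        push_cast at h
        linarith
      obtain ⟨E'', h1, h2, h3, h4⟩ := ih E' hne hT'
      refine ⟨E'', h1.trans hE', h2, h3, ?_⟩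
      calc η₅ ^ (j + 1) * (E.card : ℝ) = η₅ ^ j * (η₅ * E.card) := by ring
        _ ≤ η₅ ^ j * E'.card := mul_le_mul_of_nonneg_left hcard (pow_nonneg h5.le j)
        _ ≤ _ := h4

/-- M01 (regular partition): for an antitone function `G` on sets with values in `[0, T]` there is
a partition into boundedly many classes, all homogeneous except the class `0` which is small. -/
theorem exists_partition (ξ η₅ η : ℝ) (hξ : 0 < ξ) (h5 : 0 < η₅) (h5' : η₅ ≤ 1) (hη : 0 < η) :
    ∃ r₀ : ℕ, ∀ (N : ℕ) (G : Finset (Fin N) → ℝ) (T : ℝ), (∀ S, 0 ≤ G S ∧ G S ≤ T) →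
      (∀ S S', S ⊆ S' → G S' ≤ G S) →
      ∃ (r : ℕ) (c : Fin N → Fin (r + 1)), r ≤ r₀ ∧ ((cls c 0).card : ℝ) ≤ η * N ∧
        ∀ τ, τ ≠ 0 → (cls c τ).Nonempty ∧ ∀ E', E' ⊆ cls c τ →
          η₅ * (cls c τ).card ≤ (E'.card : ℝ) → G E' ≤ G (cls c τ) + ξ * T := by
  classical
  obtain ⟨k, hk⟩ := exists_nat_ge (1 / ξ)
  set δ : ℝ := η₅ ^ k * η with hδ
  have hδ0 : 0 < δ := mul_pos (pow_pos h5 k) hη
  obtain ⟨r₀, hr₀⟩ := exists_nat_ge (1 / δ)
  refine ⟨r₀, ?_⟩
  intro N G T hG _
  have hT : 0 ≤ T := (hG ∅).1.trans (hG ∅).2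
  rcases Nat.eq_zero_or_pos N with hN | hN
  · subst hN
    refine ⟨0, fun i => i.elim0, Nat.zero_le _, ?_, ?_⟩
    · have h1 : (cls (fun i : Fin 0 => (i.elim0 : Fin (0 + 1))) 0).card ≤ 0 := by
        refine (Finset.card_le_univ _).trans ?_
        simp
      have h2 : (cls (fun i : Fin 0 => (i.elim0 : Fin (0 + 1))) 0).card = 0 := by omega
      rw [h2]
      simp
    · intro τ hτ
      exact absurd (Fin.ext (by have h1 := τ.2; have h2 : ((0 : Fin (0 + 1)) : ℕ) = 0 := rfl; omega)) hτ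
  have hNr : (0 : ℝ) < N := by exact_mod_cast hN
  let Good : ℕ → Prop := fun r => ∃ c : Fin N → Fin (r + 1), ∀ τ, τ ≠ 0 →
    (cls c τ).Nonempty ∧ hom G T ξ η₅ (cls c τ) ∧ δ * N ≤ ((cls c τ).card : ℝ)
  have hgood0 : Good 0 := ⟨fun _ => 0, fun τ hτ => absurd (Fin.ext (by
    have h1 := τ.2
    have h2 : ((0 : Fin (0 + 1)) : ℕ) = 0 := rfl
    omega)) hτ⟩
  have hbound : ∀ r, Good r → r ≤ r₀ := by
    rintro r ⟨c, hc⟩
    have h1 : ∑ τ : Fin (r + 1), (cls c τ).card = N := by
      have h2 := Finset.card_eq_sum_card_fiberwise (f := c) (s := (Finset.univ : Finset (Fin N)))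
        (t := (Finset.univ : Finset (Fin (r + 1)))) (fun i _ => by simp)
      rw [Finset.card_univ, Fintype.card_fin] at h2
      refine Eq.trans ?_ h2.symm
      refine Finset.sum_congr rfl fun τ _ => ?_
      congr 1
    have h2 : (∑ τ : Fin (r + 1), ((cls c τ).card : ℝ)) = N := by exact_mod_cast h1
    rw [Fin.sum_univ_succ] at h2
    have h3 : ∑ τ : Fin r, δ * N ≤ ∑ τ : Fin r, ((cls c τ.succ).card : ℝ) :=
      Finset.sum_le_sum fun τ _ => (hc τ.succ (Fin.succ_ne_zero τ)).2.2
    rw [Finset.sum_const, Finset.card_univ, Fintype.card_fin, nsmul_eq_mul] at h3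
    have h4 : (0 : ℝ) ≤ ((cls c 0).card : ℝ) := Nat.cast_nonneg _
    have h5 : (r : ℝ) * (δ * N) ≤ N := by linarith
    have h6 : (r : ℝ) * δ ≤ 1 := by
      have : ((r : ℝ) * δ) * N ≤ 1 * N := by linarith
      exact le_of_mul_le_mul_right this hNr
    have h7 : (r : ℝ) ≤ 1 / δ := by
      rw [le_div_iff₀ hδ0]
      exact h6
    exact_mod_cast h7.trans hr₀
  set r := Nat.findGreatest Good r₀ with hr
  have hgr : Good r := Nat.findGreatest_spec (P := Good) (Nat.zero_le r₀) hgood0
  obtain ⟨c, hc⟩ := hgr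
  refine ⟨r, c, Nat.findGreatest_le r₀, ?_, fun τ hτ => ⟨(hc τ hτ).1, (hc τ hτ).2.1⟩⟩
  by_contra hcon
  push Not at hcon
  -- peel off one more class
  have hne : (cls c 0).Nonempty := by
    rw [← Finset.card_pos]
    have h1 : (0 : ℝ) < ((cls c 0).card : ℝ) := lt_trans (mul_pos hη hNr) hcon
    exact_mod_cast h1
  have hTk : T ≤ G (cls c 0) + k * (ξ * T) := by
    have h1 := (hG (cls c 0)).1
    have h2 : 1 ≤ k * ξ := by
      rw [div_le_iff₀ hξ] at hk
      exact hk
    have h3 : T ≤ (k * ξ) * T := by nlinarith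
    linarith
  obtain ⟨E, hE1, hE2, hE3, hE4⟩ := hom_sub G T ξ η₅ hξ h5 h5' hG k (cls c 0) hne hTk
  have hgood : Good (r + 1) := by
    refine ⟨fun i => if i ∈ E then Fin.last (r + 1) else (c i).castSucc, ?_⟩
    intro τ hτ
    induction τ using Fin.lastCases with
    | last =>
      have h1 : cls (fun i => if i ∈ E then Fin.last (r + 1) else (c i).castSucc)
          (Fin.last (r + 1)) = E := by
        ext i
        simp only [cls, Finset.mem_filter, Finset.mem_univ, true_and]
        constructor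
        · intro h
          by_contra hi
          rw [if_neg hi] at h
          exact absurd h (Fin.castSucc_lt_last (c i)).ne
        · intro h
          rw [if_pos h]
      rw [h1]
      refine ⟨hE2, hE3, ?_⟩
      have h2 : δ * N ≤ η₅ ^ k * ((cls c 0).card : ℝ) := by
        rw [hδ, mul_assoc]
        exact mul_le_mul_of_nonneg_left hcon.le (pow_nonneg h5.le k)
      exact h2.trans hE4
    | cast τ =>
      have hτ0 : τ ≠ 0 := by
        rintro rfl
        exact hτ Fin.castSucc_zero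
      have h1 : cls (fun i => if i ∈ E then Fin.last (r + 1) else (c i).castSucc)
          τ.castSucc = cls c τ := by
        ext i
        simp only [cls, Finset.mem_filter, Finset.mem_univ, true_and]
        constructor
        · intro h
          by_cases hi : i ∈ E
          · rw [if_pos hi] at h
            exact absurd h (Fin.castSucc_lt_last τ).ne'
          · rw [if_neg hi] at h
            exact Fin.castSucc_injective _ h
        · intro h
          have hi : i ∉ E := by
            intro hi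
            have h2 := hE1 hi
            simp only [cls, Finset.mem_filter, Finset.mem_univ, true_and] at h2
            rw [h] at h2
            exact hτ0 h2
          rw [if_neg hi, h]
      rw [h1]
      exact hc τ hτ0
  have h1 := hbound (r + 1) hgood
  have h2 := Nat.le_findGreatest (P := Good) h1 hgood
  rw [← hr] at h2
  omega

end Pool.Agent.Lib_GD
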