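import Pool.Agent.Lib_GD.ElimJet

/-! K09: the estimate (E'). -/

open PowerSeries

namespace Pool.Agent.Lib_GD.ArcSystem

variable {L : Type} [Field L] [Algebra ℂ L] {n N : ℕ} (Γ : ArcSystem L n N)

/-- Sections with vanishing jets of order `< q` at `x_j` which vanish at the points of `J`. -/
private def EPrime_W (q : ℕ) (j : Fin N) (J : Finset (Fin N)) :
    Submodule L⟦X⟧ (Fin N → L⟦X⟧) where
  carrier := {f | (∀ α : Fin n →₀ ℕ, α.degree < q → Γ.ev j α f = 0) ∧ ∀ i ∈ J, Γ.ev i 0 f = 0}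
  add_mem' {f g} hf hg := ⟨fun α hα => by rw [map_add, hf.1 α hα, hg.1 α hα, add_zero],
    fun i hi => by rw [map_add, hf.2 i hi, hg.2 i hi, add_zero]⟩
  zero_mem' := ⟨fun α _ => map_zero _, fun i _ => map_zero _⟩
  smul_mem' c f hf := ⟨fun α hα => by rw [map_smul, hf.1 α hα, smul_zero],
    fun i hi => by rw [map_smul, hf.2 i hi, smul_zero]⟩

private theorem EPrime_stable (q : ℕ) (j : Fin N) (J : Finset (Fin N)) :
    Γ.Stable (insert j J) (Γ.EPrime_W q j J) := by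
  intro δ hδ f hf
  refine ⟨fun α hα => ?_, fun i hi => ?_⟩
  · rw [← Γ.hat_ev_of_mem (insert j J) δ hδ (Finset.mem_insert_self j J), hf.1 α hα, hat_zero]
  · rw [← Γ.hat_ev_of_mem (insert j J) δ hδ (Finset.mem_insert_of_mem hi), hf.2 i hi, hat_zero]

/-- The costs relative to a fixed set of points add up to at most the total cost. -/
private theorem EPrime_sum (K P : Finset (Fin N)) (hP : ∀ i ∈ P, i ∉ K) :
    ∑ i ∈ P, Γ.cost i K ≤ Γ.A := by
  classical
  let f : Fin N → ℕ := fun i => if i ∈ K then 0 else 1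
  let σ : Equiv.Perm (Fin N) := Tuple.sort f
  have hmono : Monotone (f ∘ σ) := Tuple.monotone_sort f
  have hlt : ∀ x ∈ K, ∀ i, i ∉ K → σ.symm x < σ.symm i := by
    intro x hx i hi
    by_contra hcon
    have h := hmono (not_lt.1 hcon)
    simp only [Function.comp_apply, Equiv.apply_symm_apply, f, hi, hx, if_true, if_false] at h
    omega
  have hsum := Γ.cost_sum σ
  have h2 : ∑ k, Γ.cost (σ k) ((Finset.Iio k).map σ.toEmbedding) =
      ∑ i, Γ.cost i ((Finset.Iio (σ.symm i)).map σ.toEmbedding) := by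
    rw [← Equiv.sum_comp σ (fun i => Γ.cost i ((Finset.Iio (σ.symm i)).map σ.toEmbedding))]
    exact Finset.sum_congr rfl fun k _ => by rw [Equiv.symm_apply_apply]
  rw [← hsum, h2]
  refine (Finset.sum_le_sum fun i hi => ?_).trans
    (Finset.sum_le_sum_of_subset_of_nonneg (Finset.subset_univ P) fun _ _ _ => Nat.zero_le _)
  refine Γ.cost_mono K _ i ?_ ?_
  · intro x hx
    rw [Finset.mem_map]
    exact ⟨σ.symm x, Finset.mem_Iio.2 (hlt x hx i (hP i hi)), σ.apply_symm_apply x⟩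
  · rw [Finset.mem_map]
    rintro ⟨k, hk, hki⟩
    have h3 : k = σ.symm i := by
      rw [← hki]
      exact (σ.symm_apply_apply k).symm
    rw [h3] at hk
    exact lt_irrefl _ (Finset.mem_Iio.1 hk)

/-- K07b (E'). -/
theorem phi_le_max (hdet : Γ.det ≠ 0) {D q : ℕ} (hD : Γ.HT D) (hq : Γ.HSep q) (hq1 : 1 ≤ q)
    (S : Finset (Fin N)) (j : Fin N) (hj : j ∉ S) :
    Γ.phi j S ≤ 2 * (q - 1) * Γ.cost j S ∨
      Nat.card {α : Fin n →₀ ℕ // α.degree < q} * Γ.phi j S ≤ 2 * D * Γ.A := by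
  classical
  rcases le_or_gt (Γ.phi j S) (2 * (q - 1) * Γ.cost j S) with hle | hgt
  · exact Or.inl hle
  refine Or.inr ?_
  have hjets : ∀ f ∈ Γ.W S, ∀ α : Fin n →₀ ℕ, α.degree < q →
      (X : L⟦X⟧) ^ ((Γ.phi j S + 1) / 2) ∣ Γ.ev j α f := by
    intro f hf α hα
    have h1 := Γ.jet_dvd S j hj (Γ.W S) (Γ.stable_W S) (Γ.phi j S)
      (Γ.X_pow_phi_dvd hdet S j hj) α f hf
    have h2 : α.degree * Γ.cost j S ≤ (q - 1) * Γ.cost j S :=
      Nat.mul_le_mul_right _ (by omega)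
    have h3 : 2 * (q - 1) * Γ.cost j S = 2 * ((q - 1) * Γ.cost j S) := by ring
    rw [h3] at hgt
    obtain ⟨d, hd⟩ : ∃ d, Γ.phi j S = α.degree * Γ.cost j S + d := by
      exact Nat.exists_eq_add_of_le (by omega)
    have h4 : (Γ.phi j S + 1) / 2 ≤ d := by omega
    rw [hd, pow_add] at h1
    have h5 : (X : L⟦X⟧) ^ (α.degree * Γ.cost j S) ≠ 0 := pow_ne_zero _ X_ne_zero
    have h6 := (mul_dvd_mul_iff_left h5).1 h1
    exact (pow_dvd_pow _ h4).trans h6
  obtain ⟨J, hJS, hJc, hJ, f0, hf0, hf0', i0, hi0⟩ := Γ.exists_elim hdet hq S j hj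
    ((Γ.phi j S + 1) / 2) (by omega) hjets
  have hcost : ∀ i ∈ S \ J, (Γ.phi j S + 1) / 2 ≤ D * Γ.cost i (insert j J) := by
    intro i hi
    rw [Finset.mem_sdiff] at hi
    refine Γ.le_of_primitive hD (insert j J) i ?_ (Γ.EPrime_W q j J) (Γ.EPrime_stable q j J)
      _ (fun f hf => hJ f hf.1 hf.2 i hi.1) ⟨f0, ⟨hf0, hf0'⟩, i0, hi0⟩
    rw [Finset.mem_insert, not_or]
    exact ⟨fun h => hj (h ▸ hi.1), hi.2⟩
  have hsum := Γ.EPrime_sum (insert j J) (S \ J) (by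
    intro i hi
    rw [Finset.mem_sdiff] at hi
    rw [Finset.mem_insert, not_or]
    exact ⟨fun h => hj (h ▸ hi.1), hi.2⟩)
  have h1 : (S \ J).card * ((Γ.phi j S + 1) / 2) ≤ D * Γ.A := by
    calc (S \ J).card * ((Γ.phi j S + 1) / 2) = ∑ i ∈ S \ J, (Γ.phi j S + 1) / 2 := by
          rw [Finset.sum_const, smul_eq_mul]
      _ ≤ ∑ i ∈ S \ J, D * Γ.cost i (insert j J) := Finset.sum_le_sum hcost
      _ = D * ∑ i ∈ S \ J, Γ.cost i (insert j J) := by rw [Finset.mul_sum]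
      _ ≤ D * Γ.A := Nat.mul_le_mul_left D hsum
  have h2 : Nat.card {α : Fin n →₀ ℕ // α.degree < q} ≤ (S \ J).card := by
    rw [Finset.card_sdiff_of_subset hJS]
    omega
  calc Nat.card {α : Fin n →₀ ℕ // α.degree < q} * Γ.phi j S
      ≤ (S \ J).card * (2 * ((Γ.phi j S + 1) / 2)) := Nat.mul_le_mul h2 (by omega)
    _ = 2 * ((S \ J).card * ((Γ.phi j S + 1) / 2)) := by ring
    _ ≤ 2 * (D * Γ.A) := Nat.mul_le_mul_left 2 h1
    _ = 2 * D * Γ.A := by ring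

end Pool.Agent.Lib_GD.ArcSystem
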