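import Mathlib

/-! K14: the number of multi-indices. -/

namespace Pool.Agent.Lib_GD

private lemma sum_count_fin {n m : ℕ} (s : Sym (Fin (n + 1)) m) :
    (∑ i : Fin n, (s : Multiset (Fin (n + 1))).count i.castSucc)
      + (s : Multiset (Fin (n + 1))).count (Fin.last n) = m := by
  have h := Multiset.sum_count_eq_card (s := (Finset.univ : Finset (Fin (n + 1))))
    (m := (s : Multiset (Fin (n + 1)))) (fun a _ => Finset.mem_univ a)
  rw [Fin.sum_univ_castSucc] at h
  rw [h]
  exact s.2

private noncomputable def symToMulti (n m : ℕ) (s : Sym (Fin (n + 1)) m) :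
    {α : Fin n →₀ ℕ // α.degree < m + 1} :=
  ⟨Finsupp.equivFunOnFinite.symm
      (fun i : Fin n => (s : Multiset (Fin (n + 1))).count i.castSucc), by
    have h := sum_count_fin s
    rw [Finsupp.degree_eq_sum]
    simp only [Finsupp.equivFunOnFinite_symm_apply_apply]
    omega⟩

private lemma symToMulti_injective (n m : ℕ) : Function.Injective (symToMulti n m) := by
  intro s t hst
  have h1 : ∀ i : Fin n, (s : Multiset (Fin (n + 1))).count i.castSucc
      = (t : Multiset (Fin (n + 1))).count i.castSucc := by
    intro i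
    have := congrArg (fun z => (z.1 : Fin n →₀ ℕ) i) hst
    simpa [symToMulti] using this
  have hs := sum_count_fin s
  have ht := sum_count_fin t
  have hsum : (∑ i : Fin n, (s : Multiset (Fin (n + 1))).count i.castSucc)
      = ∑ i : Fin n, (t : Multiset (Fin (n + 1))).count i.castSucc :=
    Finset.sum_congr rfl (fun i _ => h1 i)
  have h2 : (s : Multiset (Fin (n + 1))).count (Fin.last n)
      = (t : Multiset (Fin (n + 1))).count (Fin.last n) := by omega
  apply Subtype.ext
  apply Multiset.ext.mpr
  intro a
  refine Fin.lastCases h2 h1 a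

/-- K11: number of multi-indices (for `n = q = 0` the inequality would read `1 ≤ 0`). -/
theorem pow_le_card_multi (n q : ℕ) (hn : 1 ≤ n) :
    (q : ℝ) ^ n / n.factorial ≤ (Nat.card {α : Fin n →₀ ℕ // α.degree < q} : ℝ) := by
  have : Finite {α : Fin n →₀ ℕ // α.degree < q} := (Finsupp.finite_of_degree_lt q).to_subtype
  have hfac : (0 : ℝ) < (n.factorial : ℝ) := by exact_mod_cast n.factorial_pos
  rw [div_le_iff₀ hfac]
  have key : q ^ n ≤ Nat.card {α : Fin n →₀ ℕ // α.degree < q} * n.factorial := by
    rcases q with _ | m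
    · rw [Nat.zero_pow hn]
      exact Nat.zero_le _
    · have hc : Nat.card (Sym (Fin (n + 1)) m)
          ≤ Nat.card {α : Fin n →₀ ℕ // α.degree < m + 1} :=
        Nat.card_le_card_of_injective _ (symToMulti_injective n m)
      have hs : Nat.card (Sym (Fin (n + 1)) m) = (m + n).choose n := by
        rw [Nat.card_eq_fintype_card, Sym.card_sym_eq_choose, Fintype.card_fin]
        have : n + 1 + m - 1 = m + n := by omega
        rw [this]
        exact Nat.choose_symm_of_eq_add rfl
      have h1 : (m + 1) ^ n ≤ (m + 1).ascFactorial n := Nat.pow_succ_le_ascFactorial _ _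
      rw [Nat.ascFactorial_eq_factorial_mul_choose] at h1
      calc (m + 1) ^ n ≤ n.factorial * (m + n).choose n := h1
        _ = (m + n).choose n * n.factorial := Nat.mul_comm _ _
        _ ≤ _ := Nat.mul_le_mul_right _ (hs ▸ hc)
  exact_mod_cast key

end Pool.Agent.Lib_GD
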