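import Pool.Agent.Lib_GD.Comb
import Pool.Agent.Lib_GD.EPrime
import Pool.Agent.Lib_GD.CLemma
import Pool.Agent.Lib_GD.MultiCount

/-! K11, K12: the core theorem on arc systems. -/

open PowerSeries

namespace Pool.Agent.Lib_GD

/-- The profile of an arc system. -/
noncomputable def ArcSystem.profile {L : Type} [Field L] [Algebra ℂ L] {n N : ℕ}
    (Γ : ArcSystem L n N) (hdet : Γ.det ≠ 0) : Profile N where
  cost := Γ.cost
  phi := Γ.phi
  A := Γ.A
  v := Γ.det.order.toNat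
  cost_sum := Γ.cost_sum
  phi_sum σ := by
    rw [← Γ.phi_sum hdet σ]; rfl
  cost_mono := Γ.cost_mono

/-- The ranks of an arc system. -/
noncomputable def ArcSystem.ranks {L : Type} [Field L] [Algebra ℂ L] {n N : ℕ}
    (Γ : ArcSystem L n N) (B a : ℕ) : Ranks N where
  r := Γ.rk B a
  r_le := Γ.rk_le B a
  anti S T b h := Γ.rk_anti B a S T b h

/-- Separation of jets bounds the number of jets by the number of sections. -/
private theorem Core_card_le {L : Type} [Field L] [Algebra ℂ L] {n N : ℕ}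
    (Γ : ArcSystem L n N) (q : ℕ) (hq : Γ.HSep q) (j : Fin N) :
    Nat.card {α : Fin n →₀ ℕ // α.degree < q} ≤ N := by
  have h := (hq j).cardinal_le_rank
  rw [rank_fin_fun] at h
  have hlt : Cardinal.mk {α : Fin n →₀ ℕ // α.degree < q} < Cardinal.aleph0 :=
    lt_of_le_of_lt h Cardinal.natCast_lt_aleph0
  rw [← Cardinal.cast_toNat_of_lt_aleph0 hlt] at h
  exact_mod_cast h

/-- The case of small total cost. -/
private theorem Core_small {N : ℕ} (P : Profile N) (t : ℝ)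
    (h : ∀ j S, j ∉ S → (P.phi j S : ℝ) ≤ t * P.cost j S) : (P.v : ℝ) ≤ t * P.A := by
  have h1 := P.phi_sum 1
  have h2 := P.cost_sum 1
  have h3 : ((∑ k, P.phi ((1 : Equiv.Perm (Fin N)) k)
      ((Finset.Iio k).map (1 : Equiv.Perm (Fin N)).toEmbedding) : ℕ) : ℝ) ≤
      t * ((∑ k, P.cost ((1 : Equiv.Perm (Fin N)) k)
      ((Finset.Iio k).map (1 : Equiv.Perm (Fin N)).toEmbedding) : ℕ) : ℝ) := by
    push_cast
    rw [Finset.mul_sum]
    refine Finset.sum_le_sum fun k _ => h _ _ fun hk => ?_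
    obtain ⟨l, hl, hlk⟩ := Finset.mem_map.1 hk
    exact (Finset.mem_Iio.1 hl).ne hlk
  rw [h1, h2] at h3
  exact h3

/-- Arithmetic of the radius. -/
private theorem Core_radius {A Cq N e C : ℝ} {D n : ℕ} (he : 0 < e) (hA : e * Cq < A)
    (hD : 0 < (D : ℝ)) (hCq : (e * D) ^ n / n.factorial ≤ Cq)
    (hN : N ≤ C * D ^ n) (hN0 : 0 ≤ N) :
    (⌈A / (e * Cq)⌉₊ : ℝ) * N ≤ 2 * C * n.factorial / e ^ (n + 1) * A := by
  have hf : (0 : ℝ) < n.factorial := by positivity
  have hCq0 : 0 < Cq := lt_of_lt_of_le (by positivity) hCq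
  have hA0 : 0 < A := lt_trans (by positivity) hA
  have h1 : (⌈A / (e * Cq)⌉₊ : ℝ) ≤ 2 * (A / (e * Cq)) := by
    have h2 := (Nat.ceil_lt_add_one (by positivity : 0 ≤ A / (e * Cq))).le
    have h3 : 1 ≤ A / (e * Cq) := by
      rw [one_le_div (by positivity)]; exact hA.le
    linarith
  have h4 : A / (e * Cq) ≤ A * n.factorial / (e * (e * D) ^ n) := by
    rw [div_le_div_iff₀ (by positivity) (by positivity)]
    have h5 : (e * D) ^ n ≤ Cq * n.factorial := by
      rwa [div_le_iff₀ hf] at hCq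
    calc A * (e * (e * D) ^ n) ≤ A * (e * (Cq * n.factorial)) := by gcongr
      _ = A * n.factorial * (e * Cq) := by ring
  calc (⌈A / (e * Cq)⌉₊ : ℝ) * N ≤ (2 * (A * n.factorial / (e * (e * D) ^ n))) * (C * D ^ n) := by
        refine mul_le_mul (h1.trans (by linarith)) hN hN0 (by positivity)
    _ = 2 * C * n.factorial / e ^ (n + 1) * A := by
        rw [mul_pow, pow_succ]
        field_simp

/-- K12 (core theorem). -/
theorem core (n : ℕ) (hn : 1 ≤ n) (c C ε : ℝ) (hc : 0 < c) (hC : 0 < C) (hε : 0 < ε) :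
    ∃ D₀ : ℕ, ∀ (D N : ℕ), D₀ ≤ D → (N : ℝ) ≤ C * D ^ n →
      ∀ (L : Type) [Field L] [Algebra ℂ L] (Γ : ArcSystem L n N) (σ : ℝ), 0 ≤ σ → Γ.det ≠ 0 →
        Γ.HT D → (∀ q : ℕ, (q : ℝ) ≤ c * D → Γ.HSep q) → Γ.HI2 σ →
        (Γ.det.order.toNat : ℝ) ≤ (σ / N + ε * D) * Γ.A := by
  obtain ⟨e, he0, he1, he2⟩ : ∃ e : ℝ, 0 < e ∧ e ≤ ε / 8 ∧ e ≤ c / 2 :=
    ⟨min (ε / 8) (c / 2), by positivity, min_le_left _ _, min_le_right _ _⟩
  obtain ⟨C', hC'⟩ : ∃ C' : ℝ, C' = 2 * C * n.factorial / e ^ (n + 1) := ⟨_, rfl⟩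
  have hC'0 : 0 < C' := by rw [hC']; positivity
  obtain ⟨ξ, C₂, N₀, hξ, hC₂, hcomb⟩ := comb (ε / (2 * C')) (by positivity)
  obtain ⟨D₁, N₁, hclose⟩ := ArcSystem.closeness ξ hξ C₂ hC₂
  obtain ⟨D₂, hD₂⟩ := exists_nat_ge (2 / c)
  obtain ⟨D₃, hD₃⟩ := exists_nat_ge (1 / e)
  obtain ⟨D₄, hD₄⟩ := exists_nat_ge ((max N₀ N₁ : ℕ) * n.factorial / e : ℝ)
  refine ⟨1 + D₁ + D₂ + D₃ + D₄, ?_⟩
  intro D N hD hN L _ _ Γ σ hσ hdet hT hSep hI2
  have hDD1 : D₁ ≤ D := by omega
  have hDD2 : (2 / c : ℝ) ≤ D := hD₂.trans (by exact_mod_cast (by omega : D₂ ≤ D))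
  have hDD3 : (1 / e : ℝ) ≤ D := hD₃.trans (by exact_mod_cast (by omega : D₃ ≤ D))
  have hDD4 : ((max N₀ N₁ : ℕ) * n.factorial / e : ℝ) ≤ D :=
    hD₄.trans (by exact_mod_cast (by omega : D₄ ≤ D))
  have hDpos : (0 : ℝ) < D := by exact_mod_cast (by omega : 0 < D)
  -- the trivial case
  rcases Nat.eq_zero_or_pos N with hN0 | hN0
  · subst hN0
    have h1 : Γ.det.order.toNat = 0 := by
      have : Γ.det = 1 := by
        rw [ArcSystem.det]; exact Matrix.det_isEmpty
      rw [this]; simp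
    rw [h1]
    simp only [Nat.cast_zero]
    positivity
  -- the main case
  obtain ⟨q, hq⟩ : ∃ q : ℕ, q = ⌈e * D⌉₊ := ⟨_, rfl⟩
  have hqlow : e * D ≤ q := by rw [hq]; exact Nat.le_ceil _
  have hqup : (q : ℝ) ≤ e * D + 1 := by
    rw [hq]; exact (Nat.ceil_lt_add_one (by positivity)).le
  have heD : 1 ≤ e * D := by
    rw [div_le_iff₀ he0] at hDD3
    linarith
  have hq1 : 1 ≤ q := by
    have : (1 : ℝ) ≤ q := heD.trans hqlow
    exact_mod_cast this
  have hqc : (q : ℝ) ≤ c * D := by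
    rw [div_le_iff₀ hc] at hDD2
    have : e * D ≤ c / 2 * D := by gcongr
    linarith
  have hS := hSep q hqc
  obtain ⟨Cq, hCq⟩ : ∃ Cq : ℕ, Cq = Nat.card {α : Fin n →₀ ℕ // α.degree < q} := ⟨_, rfl⟩
  have hCqN : Cq ≤ N := by
    rw [hCq]; exact Core_card_le Γ q hS ⟨0, hN0⟩
  have hCqlow : (e * D) ^ n / n.factorial ≤ (Cq : ℝ) := by
    rw [hCq]
    refine le_trans ?_ (pow_le_card_multi n q hn)
    gcongr
  have hf : (0 : ℝ) < n.factorial := by positivity
  have hCq0 : (0 : ℝ) < Cq := lt_of_lt_of_le (by positivity) hCqlow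
  have hNbig : max N₀ N₁ ≤ N := by
    have h1 : ((max N₀ N₁ : ℕ) : ℝ) ≤ N := by
      have h2 : e * D ≤ (e * D) ^ n := le_self_pow₀ heD (by omega)
      have h3 : ((max N₀ N₁ : ℕ) : ℝ) ≤ e * D / n.factorial := by
        rw [div_le_iff₀ he0] at hDD4
        rw [le_div_iff₀ hf]
        linarith
      calc ((max N₀ N₁ : ℕ) : ℝ) ≤ e * D / n.factorial := h3
        _ ≤ (e * D) ^ n / n.factorial := by gcongr
        _ ≤ Cq := hCqlow
        _ ≤ N := by exact_mod_cast hCqN
    exact_mod_cast h1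
  have hE : ∀ (j : Fin N) (S : Finset (Fin N)), j ∉ S →
      (Γ.phi j S : ℝ) ≤ 2 * e * D * Γ.cost j S ∨ (Cq : ℝ) * Γ.phi j S ≤ 2 * D * Γ.A := by
    intro j S hj
    rcases Γ.phi_le_max hdet hT hS hq1 S j hj with h | h
    · left
      have h1 : (Γ.phi j S : ℝ) ≤ 2 * ((q - 1 : ℕ) : ℝ) * Γ.cost j S := by exact_mod_cast h
      refine h1.trans ?_
      have h2 : ((q - 1 : ℕ) : ℝ) ≤ e * D := by
        rw [Nat.cast_sub hq1]; push_cast; linarith
      have h3 : 2 * ((q - 1 : ℕ) : ℝ) ≤ 2 * e * D := by linarith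
      gcongr
    · right
      rw [← hCq] at h
      exact_mod_cast h
  have hAnn : (0 : ℝ) ≤ Γ.A := Nat.cast_nonneg _
  have hσN : 0 ≤ σ / N := by positivity
  rcases le_or_gt (Γ.A : ℝ) (e * Cq) with hA | hA
  · -- small total cost
    have h1 : ((Γ.profile hdet).v : ℝ) ≤ 2 * e * D * (Γ.profile hdet).A := by
      refine Core_small _ _ ?_
      intro j S hj
      change (Γ.phi j S : ℝ) ≤ 2 * e * D * Γ.cost j S
      rcases hE j S hj with h | h
      · exact h
      · rcases Nat.eq_zero_or_pos (Γ.cost j S) with h0 | h0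
        · have h2 := Γ.phi_le hdet hT S j hj
          rw [h0, mul_zero] at h2
          have h3 : Γ.phi j S = 0 := by omega
          rw [h3, h0]; simp
        · have h2 : (Cq : ℝ) * Γ.phi j S ≤ Cq * (2 * e * D) := by
            calc (Cq : ℝ) * Γ.phi j S ≤ 2 * D * Γ.A := h
              _ ≤ 2 * D * (e * Cq) := by gcongr
              _ = Cq * (2 * e * D) := by ring
          have h3 : (Γ.phi j S : ℝ) ≤ 2 * e * D := le_of_mul_le_mul_left h2 hCq0
          have h4 : (1 : ℝ) ≤ Γ.cost j S := by exact_mod_cast h0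
          have h5 : (0 : ℝ) ≤ 2 * e * D := by positivity
          nlinarith
    change (Γ.det.order.toNat : ℝ) ≤ 2 * e * D * Γ.A at h1
    refine h1.trans ?_
    gcongr
    have : 2 * e * D ≤ ε * D := by
      gcongr; linarith
    linarith
  · -- large total cost
    obtain ⟨a, ha⟩ : ∃ a : ℕ, a = ⌈(Γ.A : ℝ) / (e * Cq)⌉₊ := ⟨_, rfl⟩
    have haN : (a : ℝ) * N ≤ C' * Γ.A := by
      rw [ha, hC']
      exact Core_radius he0 hA hDpos hCqlow hN (Nat.cast_nonneg _)
    have hale : (Γ.A : ℝ) ≤ e * Cq * a := by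
      have h1 : (Γ.A : ℝ) / (e * Cq) ≤ a := by rw [ha]; exact Nat.le_ceil _
      rw [div_le_iff₀ (by positivity)] at h1
      linarith
    have ha1 : 1 ≤ a := by
      have h1 : (0 : ℝ) < a := by
        by_contra hcon
        have h2 : (a : ℝ) = 0 := le_antisymm (not_lt.1 hcon) (Nat.cast_nonneg _)
        rw [h2, mul_zero] at hale
        have h3 : (0 : ℝ) < e * Cq := by positivity
        linarith
      exact_mod_cast h1
    have key := hcomb N (le_trans (le_max_left _ _) hNbig) (Γ.profile hdet) (Γ.ranks (D * a) a) D a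
      (2 * e * D) σ (by exact_mod_cast hDpos) ha1 (by positivity) hσ
      (fun j S hj => Γ.phi_le hdet hT S j hj)
      (by
        intro j S hj hcost
        change (Γ.phi j S : ℝ) ≤ 2 * e * D * Γ.cost j S
        rcases hE j S hj with h | h
        · exact h
        · have h2 : (Cq : ℝ) * Γ.phi j S ≤ Cq * (2 * e * D * a) := by
            calc (Cq : ℝ) * Γ.phi j S ≤ 2 * D * Γ.A := h
              _ ≤ 2 * D * (e * Cq * a) := by gcongr
              _ = Cq * (2 * e * D * a) := by ring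
          have h3 : (Γ.phi j S : ℝ) ≤ 2 * e * D * a := le_of_mul_le_mul_left h2 hCq0
          refine h3.trans ?_
          have h4 : (a : ℝ) ≤ Γ.cost j S := by
            change a < Γ.cost j S at hcost
            exact_mod_cast hcost.le
          gcongr)
      (by
        intro S E b _ hES hb hb' h
        exact Γ.le_rk hdet D a S E b hES hb hb' h)
      (by
        intro S j hSne hj h
        have s1 := Γ.sum_rk (D * a) a S
        have s2 := Γ.sum_rk (D * a) a (insert j S)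
        change (((Γ.ranks (D * a) a).G (D * a) S : ℕ) : ℝ) ≤ σ * Γ.cost j S + ξ * D * a * N
        have g1 : (Γ.ranks (D * a) a).G (D * a) S + colen (Γ.Lam (D * a) a S) = D * a * N := s1
        have g2 : (Γ.ranks (D * a) a).G (D * a) (insert j S) +
            colen (Γ.Lam (D * a) a (insert j S)) = D * a * N := s2
        have h3 := hclose L n N Γ σ D a hDD1 (le_trans (le_max_right _ _) hNbig) ha1 hσ hI2 S j
          hSne hj (by omega)
        have g3 : (((Γ.ranks (D * a) a).G (D * a) S : ℕ) : ℝ) +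
            (colen (Γ.Lam (D * a) a S) : ℝ) = D * a * N := by exact_mod_cast g1
        linarith)
    change (Γ.det.order.toNat : ℝ) ≤ 2 * e * D * Γ.A + σ / N * Γ.A +
      ε / (2 * C') * D * a * N at key
    refine key.trans ?_
    have h1 : ε / (2 * C') * D * a * N ≤ ε / 2 * D * Γ.A := by
      calc ε / (2 * C') * D * a * N = ε / (2 * C') * D * (a * N) := by ring
        _ ≤ ε / (2 * C') * D * (C' * Γ.A) := by gcongr
        _ = ε / 2 * D * Γ.A := by field_simp
    have h2 : 2 * e * D * Γ.A ≤ ε / 2 * D * Γ.A := by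
      gcongr; linarith
    calc 2 * e * D * Γ.A + σ / N * Γ.A + ε / (2 * C') * D * a * N
        ≤ ε / 2 * D * Γ.A + σ / N * Γ.A + ε / 2 * D * Γ.A := by linarith
      _ = (σ / N + ε * D) * Γ.A := by ring

end Pool.Agent.Lib_GD
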