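import Pool.Agent.Lib_GD.Colen

/-! K03: the chain rule for costs. -/

open PowerSeries

namespace Pool.Agent.Lib_GD.ArcSystem

variable {L : Type} [Field L] [Algebra ℂ L] {n N : ℕ} (Γ : ArcSystem L n N)

private theorem Cost_single {j : Fin N} {S : Finset (Fin N)} (hj : j ∉ S) {v : Fin n → L⟦X⟧}
    (h : (Pi.single j v : Fin N → Fin n → L⟦X⟧) ∈ Γ.Ξ) : v ∈ Γ.Xirel j S := by
  refine Submodule.mem_map.2 ⟨Pi.single j v, ⟨h, fun i hi => ?_⟩, ?_⟩
  · exact Pi.single_eq_of_ne (ne_of_mem_of_not_mem hi hj) _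
  · exact Pi.single_eq_same _ _

theorem finColen_Xirel (j : Fin N) (S : Finset (Fin N)) (hj : j ∉ S) :
    FinColen (Γ.Xirel j S) := by
  refine (finColen_of_X_pow (B := colen Γ.Ξ) fun f => ?_).1
  apply Γ.Cost_single hj
  rw [Pi.single_smul']
  exact X_pow_smul_mem Γ.fin_Ξ le_rfl _

/-- `X ^ a(j|S) O^n ⊆ Ξ_{j|S}`. -/
theorem X_pow_cost_smul_mem (j : Fin N) (S : Finset (Fin N)) (hj : j ∉ S) (v : Fin n → L⟦X⟧) :
    (X : L⟦X⟧) ^ (Γ.cost j S) • v ∈ Γ.Xirel j S :=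
  X_pow_smul_mem (Γ.finColen_Xirel j S hj) le_rfl v

/-- Elements of `Ξ_{j|S}` are the `ξ δ j`, `δ` killing the arcs in `S`. -/
theorem mem_Xirel (j : Fin N) (S : Finset (Fin N)) (v : Fin n → L⟦X⟧) :
    v ∈ Γ.Xirel j S ↔ ∃ δ ∈ Γ.Dker S, Γ.ξ δ j = v := by
  constructor
  · rintro ⟨w, ⟨hw, hw0⟩, rfl⟩
    obtain ⟨δ, hδ, rfl⟩ := (Γ.mem_Ξ w).1 hw
    exact ⟨δ, ⟨hδ, hw0⟩, rfl⟩
  · rintro ⟨δ, ⟨hδ, h0⟩, rfl⟩
    exact Submodule.mem_map.2 ⟨Γ.ξ δ, ⟨(Γ.mem_Ξ _).2 ⟨δ, hδ, rfl⟩, h0⟩, rfl⟩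

theorem cost_mono (S T : Finset (Fin N)) (j : Fin N) (h : S ⊆ T) (hj : j ∉ T) :
    Γ.cost j S ≤ Γ.cost j T := by
  refine colen_anti ?_ (Γ.finColen_Xirel j T hj)
  rintro v ⟨w, ⟨hw, hw0⟩, rfl⟩
  exact Submodule.mem_map.2 ⟨w, ⟨hw, fun i hi => hw0 i (h hi)⟩, rfl⟩

/-- the elements vanishing at the arcs in `S` -/
private def Cost_T (L : Type) [Field L] (n : ℕ) {N : ℕ} (S : Finset (Fin N)) :
    Submodule L⟦X⟧ (Fin N → Fin n → L⟦X⟧) where
  carrier := {w | ∀ i ∈ S, w i = 0}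
  add_mem' {a b} ha hb i hi := by simp [ha i hi, hb i hi]
  zero_mem' _ _ := rfl
  smul_mem' c a ha i hi := by simp [ha i hi]

private theorem Cost_step (j : Fin N) (S S' : Finset (Fin N)) (hj : j ∉ S)
    (hS : ∀ i, i ∈ S' ↔ i ∈ S ∨ i = j) :
    Module.length L⟦X⟧ ((Fin N → Fin n → L⟦X⟧) ⧸ (Γ.Ξ ⊔ Cost_T L n S')) =
      Module.length L⟦X⟧ ((Fin n → L⟦X⟧) ⧸ Γ.Xirel j S) +
        Module.length L⟦X⟧ ((Fin N → Fin n → L⟦X⟧) ⧸ (Γ.Ξ ⊔ Cost_T L n S)) := by
  classical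
  let V := Fin N → Fin n → L⟦X⟧
  let sg : (Fin n → L⟦X⟧) →ₗ[L⟦X⟧] V := LinearMap.single L⟦X⟧ (fun _ => Fin n → L⟦X⟧) j
  have hsg : ∀ v, sg v = Pi.single j v := fun _ => rfl
  have key : ∀ v, sg v ∈ Γ.Ξ ⊔ Cost_T L n S' ↔ v ∈ Γ.Xirel j S := by
    intro v
    constructor
    · intro h
      obtain ⟨w, hw, t, ht, hwt⟩ := Submodule.mem_sup.1 h
      have ht' : ∀ i ∈ S', t i = 0 := ht
      refine Submodule.mem_map.2 ⟨w, ⟨hw, fun i hi => ?_⟩, ?_⟩
      · have h1 := congrFun hwt i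
        rw [Pi.add_apply, ht' i ((hS i).2 (Or.inl hi)), add_zero, hsg,
          Pi.single_eq_of_ne (ne_of_mem_of_not_mem hi hj)] at h1
        exact h1
      · have h1 := congrFun hwt j
        rw [Pi.add_apply, ht' j ((hS j).2 (Or.inr rfl)), add_zero, hsg, Pi.single_eq_same] at h1
        exact h1
    · rintro ⟨w, ⟨hw, hw0⟩, rfl⟩
      have h1 : sg (w j) = w + (sg (w j) - w) := by abel
      change sg (w j) ∈ _
      rw [h1]
      refine Submodule.add_mem_sup hw ?_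
      change ∀ i ∈ S', (sg (w j) - w) i = 0
      intro i hi
      rw [Pi.sub_apply, hsg]
      rcases (hS i).1 hi with h2 | h2
      · rw [Pi.single_eq_of_ne (ne_of_mem_of_not_mem h2 hj), hw0 i h2, sub_zero]
      · subst h2
        rw [Pi.single_eq_same, sub_self]
  have hle : Γ.Ξ ⊔ Cost_T L n S' ≤ Γ.Ξ ⊔ Cost_T L n S := by
    refine sup_le_sup_left ?_ _
    intro w hw i hi
    exact hw i ((hS i).2 (Or.inl hi))
  let f : ((Fin n → L⟦X⟧) ⧸ Γ.Xirel j S) →ₗ[L⟦X⟧] (V ⧸ (Γ.Ξ ⊔ Cost_T L n S')) :=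
    Submodule.mapQ _ _ sg (fun v hv => (key v).2 hv)
  let g : (V ⧸ (Γ.Ξ ⊔ Cost_T L n S')) →ₗ[L⟦X⟧] (V ⧸ (Γ.Ξ ⊔ Cost_T L n S)) :=
    Submodule.mapQ _ _ LinearMap.id (fun v hv => hle hv)
  have hf : Function.Injective f := by
    rw [← LinearMap.ker_eq_bot, Submodule.ker_mapQ]
    refine (Submodule.eq_bot_iff _).2 ?_
    rintro x ⟨v, hv, rfl⟩
    rw [Submodule.mkQ_apply, Submodule.Quotient.mk_eq_zero]
    exact (key v).1 hv
  have hg : Function.Surjective g := by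
    intro x
    obtain ⟨v, rfl⟩ := Submodule.Quotient.mk_surjective _ x
    exact ⟨Submodule.Quotient.mk v, rfl⟩
  have hfg : Function.Exact f g := by
    intro x
    constructor
    · intro hx
      obtain ⟨v, rfl⟩ := Submodule.Quotient.mk_surjective _ x
      have h1 : v ∈ Γ.Ξ ⊔ Cost_T L n S := by
        rw [← Submodule.Quotient.mk_eq_zero]
        exact hx
      obtain ⟨w, hw, t, ht, rfl⟩ := Submodule.mem_sup.1 h1
      have ht' : ∀ i ∈ S, t i = 0 := ht
      refine ⟨Submodule.Quotient.mk (t j), ?_⟩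
      change Submodule.Quotient.mk (sg (t j)) = _
      rw [Submodule.Quotient.eq]
      have h2 : sg (t j) - (w + t) = -w + (sg (t j) - t) := by abel
      rw [h2]
      refine Submodule.add_mem_sup (neg_mem hw) ?_
      change ∀ i ∈ S', (sg (t j) - t) i = 0
      intro i hi
      rw [Pi.sub_apply, hsg]
      rcases (hS i).1 hi with h3 | h3
      · rw [Pi.single_eq_of_ne (ne_of_mem_of_not_mem h3 hj), ht' i h3, sub_zero]
      · subst h3
        rw [Pi.single_eq_same, sub_self]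
    · rintro ⟨y, rfl⟩
      obtain ⟨v, rfl⟩ := Submodule.Quotient.mk_surjective _ y
      change (Submodule.Quotient.mk (sg v) : V ⧸ (Γ.Ξ ⊔ Cost_T L n S)) = 0
      rw [Submodule.Quotient.mk_eq_zero]
      refine Submodule.mem_sup_right ?_
      change ∀ i ∈ S, (sg v) i = 0
      intro i hi
      rw [hsg]
      exact Pi.single_eq_of_ne (ne_of_mem_of_not_mem hi hj) _
  exact Module.length_eq_add_of_exact f g hf hg hfg

/-- The chain rule: the costs along any order add up to the colength of `Ξ`. -/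
theorem cost_sum (σ : Equiv.Perm (Fin N)) :
    ∑ k, Γ.cost (σ k) ((Finset.Iio k).map σ.toEmbedding) = Γ.A := by
  classical
  let S : ℕ → Finset (Fin N) := fun k =>
    (Finset.univ.filter fun i : Fin N => i.val < k).map σ.toEmbedding
  have hSmem : ∀ k i, i ∈ S k ↔ (σ.symm i).val < k := by
    intro k i
    simp only [S, Finset.mem_map, Finset.mem_filter, Finset.mem_univ, true_and,
      Equiv.coe_toEmbedding]
    constructor
    · rintro ⟨a, ha, rfl⟩
      rw [σ.symm_apply_apply]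
      exact ha
    · intro h
      exact ⟨σ.symm i, h, σ.apply_symm_apply i⟩
  have hSk : ∀ k : Fin N, S k.val = (Finset.Iio k).map σ.toEmbedding := by
    intro k
    simp only [S]
    congr 1
    ext i
    simp
  let c : ℕ → ℕ := fun k => if h : k < N then Γ.cost (σ ⟨k, h⟩) (S k) else 0
  have hfin : ∀ k, FinColen (Γ.Ξ ⊔ Cost_T L n (S k)) := fun k =>
    finColen_mono le_sup_left Γ.fin_Ξ
  have main : ∀ k, k ≤ N → colen (Γ.Ξ ⊔ Cost_T L n (S k)) = ∑ i ∈ Finset.range k, c i := by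
    intro k
    induction k with
    | zero =>
      intro _
      have h1 : Γ.Ξ ⊔ Cost_T L n (S 0) = ⊤ := by
        rw [eq_top_iff]
        intro w _
        refine Submodule.mem_sup_right ?_
        change ∀ i ∈ S 0, w i = 0
        intro i hi
        exact absurd ((hSmem 0 i).1 hi) (Nat.not_lt_zero _)
      rw [h1, Finset.range_zero, Finset.sum_empty]
      unfold colen
      have : Subsingleton ((Fin N → Fin n → L⟦X⟧) ⧸ (⊤ : Submodule L⟦X⟧ (Fin N → Fin n → L⟦X⟧))) :=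
        Submodule.Quotient.subsingleton_iff.2 rfl
      rw [Module.length_eq_zero]
      rfl
    | succ k ih =>
      intro hk
      have hkN : k < N := hk
      have hj : σ ⟨k, hkN⟩ ∉ S k := by
        rw [hSmem, σ.symm_apply_apply]
        exact lt_irrefl _
      have hstep := Γ.Cost_step (σ ⟨k, hkN⟩) (S k) (S (k + 1)) hj (by
        intro i
        rw [hSmem, hSmem, Nat.lt_succ_iff_lt_or_eq]
        refine or_congr Iff.rfl ?_
        constructor
        · intro h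
          have : σ.symm i = ⟨k, hkN⟩ := Fin.ext h
          rw [← this, σ.apply_symm_apply]
        · rintro rfl
          rw [σ.symm_apply_apply])
      rw [Finset.sum_range_succ, ← ih (le_of_lt hkN)]
      have hc : c k = Γ.cost (σ ⟨k, hkN⟩) (S k) := by
        simp only [c]
        rw [dif_pos hkN]
      rw [hc]
      unfold cost colen
      rw [hstep, ENat.toNat_add (Γ.finColen_Xirel _ _ hj) (hfin k), add_comm]
  have hN := main N le_rfl
  have h1 : Γ.Ξ ⊔ Cost_T L n (S N) = Γ.Ξ := by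
    refine sup_eq_left.2 ?_
    intro w hw
    have h2 : w = 0 := by
      funext i
      exact hw i ((hSmem N i).2 (σ.symm i).isLt)
    rw [h2]
    exact Γ.Ξ.zero_mem
  rw [h1] at hN
  unfold A
  rw [hN, ← Fin.sum_univ_eq_sum_range]
  refine Finset.sum_congr rfl fun k _ => ?_
  simp only [c]
  rw [dif_pos k.isLt, hSk k]

end Pool.Agent.Lib_GD.ArcSystem
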