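import Mathlib

/-!
# Polarised smooth projective varieties, divisors over powers, stability threshold, Gibbs invariant

`R` with the grading `𝒜` is the section ring of `(X, L)`: `X = Proj R`, `L = O(1)`, `𝒜 m` is
`H⁰(X, mL)` (for `m` large).
-/

open scoped ENNReal NNReal

namespace Pool.Agent.Lib_GD

/-- `R = ⨁ 𝒜 m` is the section ring of an ample line bundle on a smooth projective variety
`X = Proj R` of dimension `n` over `ℂ`. -/
structure IsSmoothPolarised {R : Type} [CommRing R] [Algebra ℂ R] (𝒜 : ℕ → Submodule ℂ R)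
    [GradedAlgebra 𝒜] (n : ℕ) : Prop where
  /-- `X` is integral. -/
  domain : IsDomain R
  /-- `X` is projective. -/
  finiteType : Algebra.FiniteType ℂ R
  /-- the degree zero part is `ℂ`. -/
  connected : 𝒜 0 = Subalgebra.toSubmodule (⊥ : Subalgebra ℂ R)
  /-- `O(1)` is a line bundle: at every point of `X = Proj R` there are two sections of
  consecutive degrees which do not vanish. -/
  line : ∀ p : Ideal R, p.IsPrime → (∃ d > 0, ∃ f ∈ 𝒜 d, f ∉ p) →
    ∃ d, ∃ f ∈ 𝒜 d, ∃ g ∈ 𝒜 (d + 1), f ∉ p ∧ g ∉ p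
  /-- `X` is smooth over `ℂ = 𝒜 0`: the rings of the standard affine charts `D₊(f)` are smooth. -/
  smooth : ∀ d > 0, ∀ f ∈ 𝒜 d, f ≠ 0 → Algebra.Smooth (𝒜 0) (HomogeneousLocalization.Away 𝒜 f)
  /-- `X` has dimension `n`. -/
  dim : Algebra.trdeg ℂ R = n + 1

/-- A prime divisor over `X ^ N`: a discrete valuation ring `V`, essentially of finite type over
`ℂ`, with function field that of `X ^ N`, and with centre on `X ^ N`. The morphism from `Spec V`
to the `j`-th factor is given by a ring homomorphism `φ j : R → V` for which some homogeneous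
element of positive degree becomes a unit (a choice of a local generator of `L`); so for a section
`s ∈ 𝒜 m` of `mL`, the element `φ j s` is the local expression of its pull-back. -/
structure DivisorOver {R : Type} [CommRing R] [Algebra ℂ R] (𝒜 : ℕ → Submodule ℂ R)
    (n N : ℕ) where
  /-- the valuation ring -/
  V : Type
  [commRing : CommRing V]
  [isDomain : IsDomain V]
  [isDVR : IsDiscreteValuationRing V]
  [algebra : Algebra ℂ V]
  [essFiniteType : Algebra.EssFiniteType ℂ V]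
  /-- the morphisms to the factors -/
  φ : Fin N → R →ₐ[ℂ] V
  /-- they are morphisms to `X`, not only to the cone -/
  centre : ∀ j, ∃ d > 0, ∃ f ∈ 𝒜 d, IsUnit (φ j f)
  /-- the fraction field of `V` is generated by the functions of `X ^ N` -/
  generates : IntermediateField.adjoin ℂ {z : FractionRing V | ∃ j m, ∃ s ∈ 𝒜 m, ∃ s' ∈ 𝒜 m,
    φ j s' ≠ 0 ∧ z = algebraMap V (FractionRing V) (φ j s) /
      algebraMap V (FractionRing V) (φ j s')} = ⊤
  /-- and has transcendence degree `dim X ^ N` -/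
  trdeg : Algebra.trdeg ℂ V = (n * N : ℕ)

attribute [instance] DivisorOver.commRing DivisorOver.isDomain DivisorOver.isDVR
  DivisorOver.algebra DivisorOver.essFiniteType

variable {R : Type} [CommRing R] [Algebra ℂ R] {𝒜 : ℕ → Submodule ℂ R} {n N : ℕ}

/-- The differentials (in `Ω_{V/ℂ}`) of the regular functions of `X ^ N` at the centre: the
`V`-submodule spanned by the `d (s / s')`, `s, s'` sections of the same degree, `s'` non-vanishing
at the centre. -/
noncomputable def DivisorOver.pulledBack (E : DivisorOver 𝒜 n N) : Submodule E.V (KaehlerDifferential ℂ E.V) :=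
  Submodule.span E.V {ω | ∃ j m, ∃ s ∈ 𝒜 m, ∃ s' ∈ 𝒜 m, ∃ w : E.V, E.φ j s' * w = 1 ∧
    ω = KaehlerDifferential.D ℂ E.V (E.φ j s * w)}

/-- The log discrepancy `A_{X ^ N}(E) = 1 + ord_E (K_{Y / X ^ N})`, `X ^ N` being smooth:
one plus the length of `Ω_{V/ℂ}` modulo the pulled back differentials. -/
noncomputable def DivisorOver.logDisc (E : DivisorOver 𝒜 n N) : ℕ∞ :=
  1 + Module.length E.V (KaehlerDifferential ℂ E.V ⧸ E.pulledBack)

/-- The order of vanishing along `E` of a function of `V`. -/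
noncomputable def DivisorOver.ord (E : DivisorOver 𝒜 n N) (f : E.V) : ℕ∞ :=
  IsDiscreteValuationRing.addVal E.V f

section Section

variable (𝒜)

/-- `N_m = dim H⁰(X, mL)`. -/
noncomputable def secDim (m : ℕ) : ℕ := Module.finrank ℂ (𝒜 m)

open Classical in
/-- A basis of `H⁰(X, mL)` (for finite-dimensional `𝒜 m`). -/
noncomputable def secBasis (m : ℕ) (i : Fin (secDim 𝒜 m)) : R :=
  if _h : Module.Finite ℂ (𝒜 m) then (Module.finBasis ℂ (𝒜 m) i : R) else 0

/-- The order of vanishing along `E`, a prime divisor over `X ^ N_m`, of the divisor `D_m` of the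
section `det (s_i (x_j))`. -/
noncomputable def DivisorOver.ordDet {m : ℕ} (E : DivisorOver 𝒜 n (secDim 𝒜 m)) : ℕ∞ :=
  E.ord (Matrix.det (Matrix.of fun j i : Fin (secDim 𝒜 m) => E.φ j (secBasis 𝒜 m i)))

/-- The pair `(X ^ N_m, (c / m) D_m)` is klt: all its log discrepancies are positive. -/
def IsKlt (n m : ℕ) (c : ℝ≥0) : Prop :=
  ∀ E : DivisorOver 𝒜 n (secDim 𝒜 m), ((c / m : ℝ≥0) : ℝ≥0∞) * (E.ordDet 𝒜 : ℝ≥0∞) <
    (E.logDisc : ℝ≥0∞)

/-- `lct (X ^ N_m, (1 / m) D_m)`. -/
noncomputable def lct (n m : ℕ) : ℝ≥0∞ := ⨆ c : {c : ℝ≥0 // IsKlt 𝒜 n m c}, (c : ℝ≥0∞)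

/-- The Gibbs invariant `γ(X, L)`. -/
noncomputable def gibbs (n : ℕ) : ℝ≥0∞ := Filter.liminf (fun m => lct 𝒜 n m) Filter.atTop

/-- For a prime divisor `E` over `X`, the space of sections of `mL` vanishing to order at least
`r` along `E`. -/
def DivisorOver.filt (E : DivisorOver 𝒜 n 1) (m : ℕ) (r : ℝ) : Submodule ℂ R where
  carrier := {s | s ∈ 𝒜 m ∧ ENNReal.ofReal r ≤ (E.ord (E.φ 0 s) : ℝ≥0∞)}
  add_mem' {a b} ha hb := by
    refine ⟨add_mem ha.1 hb.1, ?_⟩
    have h1 : min (E.ord (E.φ 0 a)) (E.ord (E.φ 0 b)) ≤ E.ord (E.φ 0 (a + b)) := by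
      rw [map_add]; exact IsDiscreteValuationRing.addVal_add
    rcases min_le_iff.1 h1 with h | h
    · exact ha.2.trans (by exact_mod_cast h)
    · exact hb.2.trans (by exact_mod_cast h)
  zero_mem' := ⟨zero_mem _, by simp [DivisorOver.ord]⟩
  smul_mem' c s hs := by
    refine ⟨Submodule.smul_mem _ c hs.1, ?_⟩
    have h1 : E.ord (E.φ 0 s) ≤ E.ord (E.φ 0 (c • s)) := by
      rw [map_smul, Algebra.smul_def]
      unfold DivisorOver.ord
      rw [IsDiscreteValuationRing.addVal_mul]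
      exact le_add_self
    exact hs.2.trans (by exact_mod_cast h1)

/-- `vol (L - tE)`. -/
noncomputable def DivisorOver.vol (E : DivisorOver 𝒜 n 1) (t : ℝ) : ℝ≥0∞ :=
  Filter.limsup (fun m : ℕ => ((n.factorial * Module.finrank ℂ (E.filt 𝒜 m (t * m)) : ℕ) : ℝ≥0∞) /
    (m : ℝ≥0∞) ^ n) Filter.atTop

/-- `vol L`. -/
noncomputable def volL (n : ℕ) : ℝ≥0∞ :=
  Filter.limsup (fun m : ℕ => ((n.factorial * secDim 𝒜 m : ℕ) : ℝ≥0∞) /
    (m : ℝ≥0∞) ^ n) Filter.atTop

/-- `S(E) = (1 / vol L) ∫₀^∞ vol (L - tE) dt`. -/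
noncomputable def DivisorOver.S (E : DivisorOver 𝒜 n 1) : ℝ≥0∞ :=
  (∫⁻ t in Set.Ioi (0 : ℝ), E.vol 𝒜 t) / volL 𝒜 n

/-- The stability threshold `δ(X, L) = inf_E A_X(E) / S(E)`. -/
noncomputable def stability (n : ℕ) : ℝ≥0∞ :=
  ⨅ E : DivisorOver 𝒜 n 1, (E.logDisc : ℝ≥0∞) / E.S 𝒜

end Section

end Pool.Agent.Lib_GD
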