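import Mathlib

/-! J05a: Krull. -/

namespace Pool.Agent.Lib_GD

open Polynomial in
/-- the polynomial `∑ f_i p^i Y^(m-i)` -/
private noncomputable def krullRev {P : Type} [CommRing P] (f : P[X]) (p : P) : P[X] :=
  ∑ i ∈ Finset.range (f.natDegree + 1), C (f.coeff i * p ^ i) * X ^ (f.natDegree - i)

open Polynomial in
private theorem krullRev_aeval {P Q : Type} [CommRing P] [CommRing Q] [Algebra P Q]
    (f : P[X]) (p : P) (z y : Q) (h : z * y = algebraMap P Q p) (hf : aeval z f = 0) :
    aeval y (krullRev f p) = 0 := by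
  have h1 : aeval y (krullRev f p) = y ^ f.natDegree * aeval z f := by
    unfold krullRev
    rw [map_sum, aeval_eq_sum_range, Finset.mul_sum]
    apply Finset.sum_congr rfl
    intro i hi
    have hi' : i ≤ f.natDegree := Nat.lt_succ_iff.mp (Finset.mem_range.mp hi)
    rw [map_mul, aeval_C, map_pow, aeval_X, map_mul, map_pow, ← h, Algebra.smul_def]
    have : y ^ f.natDegree = y ^ i * y ^ (f.natDegree - i) := by
      rw [← pow_add]; congr 1; omega
    rw [this, mul_pow]
    ring
  rw [h1, hf, mul_zero]

open Polynomial in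
private theorem krullRev_coeff {P : Type} [CommRing P] (f : P[X]) (p : P) (k : ℕ) :
    (krullRev f p).coeff k = if k ≤ f.natDegree then
      f.coeff (f.natDegree - k) * p ^ (f.natDegree - k) else 0 := by
  unfold krullRev
  rw [finsetSum_coeff]
  simp_rw [coeff_C_mul, coeff_X_pow]
  by_cases hk : k ≤ f.natDegree
  · rw [if_pos hk, Finset.sum_eq_single (f.natDegree - k)]
    · rw [if_pos (by omega), mul_one]
    · intro i hi hne
      have hi' : i ≤ f.natDegree := Nat.lt_succ_iff.mp (Finset.mem_range.mp hi)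
      rw [if_neg (by omega), mul_zero]
    · intro h
      exact absurd (Finset.mem_range.mpr (by omega)) h
  · rw [if_neg hk]
    apply Finset.sum_eq_zero
    intro i _
    rw [if_neg (by omega), mul_zero]

open Polynomial in
private theorem krullRev_natDegree_le {P : Type} [CommRing P] (f : P[X]) (p : P) :
    (krullRev f p).natDegree ≤ f.natDegree := by
  rw [natDegree_le_iff_coeff_eq_zero]
  intro k hk
  rw [krullRev_coeff, if_neg (by omega)]

open Polynomial in
private theorem krull_minpoly_natDegree_le {P Q : Type} [CommRing P] [IsDomain P]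
    [IsIntegrallyClosed P] [CommRing Q] [IsDomain Q] [Algebra P Q] [Algebra.IsIntegral P Q]
    [Module.IsTorsionFree P Q] (p : P) (z y : Q)
    (h : z * y = algebraMap P Q p) (h0 : (minpoly P z).coeff 0 ≠ 0) :
    (minpoly P y).natDegree ≤ (minpoly P z).natDegree := by
  have h1 := krullRev_aeval (minpoly P z) p z y h (minpoly.aeval P z)
  have h2 : krullRev (minpoly P z) p ≠ 0 := by
    intro hc
    have := krullRev_coeff (minpoly P z) p (minpoly P z).natDegree
    rw [hc, if_pos le_rfl, Nat.sub_self, pow_zero, mul_one, coeff_zero] at this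
    exact h0 this.symm
  exact (natDegree_le_of_dvd (minpoly.isIntegrallyClosed_dvd (Algebra.IsIntegral.isIntegral y) h1)
    h2).trans (krullRev_natDegree_le _ _)

open Polynomial in
private theorem krull_coeff_zero_ne {P Q : Type} [CommRing P] [IsDomain P]
    [IsIntegrallyClosed P] [CommRing Q] [IsDomain Q] [Algebra P Q] [Algebra.IsIntegral P Q]
    [Module.IsTorsionFree P Q] (z : Q) (hz : z ≠ 0) : (minpoly P z).coeff 0 ≠ 0 := by
  intro hc
  have hint : IsIntegral P z := Algebra.IsIntegral.isIntegral z
  have h1 : (minpoly P z) = X * divX (minpoly P z) := by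
    conv_lhs => rw [← X_mul_divX_add (minpoly P z), hc, C_0, add_zero]
  have h2 : aeval z (divX (minpoly P z)) = 0 := by
    have := minpoly.aeval P z
    rw [h1, map_mul, aeval_X] at this
    exact (mul_eq_zero.mp this).resolve_left hz
  have h3 := minpoly.isIntegrallyClosed_dvd hint h2
  have h4 : divX (minpoly P z) ≠ 0 := by
    intro h
    rw [h, mul_zero] at h1
    exact minpoly.ne_zero hint h1
  have h5 := natDegree_le_of_dvd h3 h4
  have h6 : (minpoly P z).natDegree = (divX (minpoly P z)).natDegree + 1 := by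
    conv_lhs => rw [h1]
    rw [natDegree_X_mul h4]
  omega

open Polynomial in
private theorem krull_dvd_pow {P Q : Type} [CommRing P] [IsDomain P]
    [IsIntegrallyClosed P] [CommRing Q] [IsDomain Q] [Algebra P Q] [Algebra.IsIntegral P Q]
    [Module.IsTorsionFree P Q] (p : P) (z y : Q) (hz : z ≠ 0) (hy : y ≠ 0)
    (h : z * y = algebraMap P Q p) :
    (minpoly P z).coeff 0 ∣ p ^ (minpoly P z).natDegree := by
  have hz0 := krull_coeff_zero_ne (P := P) z hz
  have hy0 := krull_coeff_zero_ne (P := P) y hy
  have e1 := krull_minpoly_natDegree_le p z y h hz0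
  have e2 := krull_minpoly_natDegree_le p y z (by rw [mul_comm]; exact h) hy0
  have e3 : (minpoly P y).natDegree = (minpoly P z).natDegree := le_antisymm e1 e2
  have h1 := krullRev_aeval (minpoly P z) p z y h (minpoly.aeval P z)
  obtain ⟨q, hq⟩ := minpoly.isIntegrallyClosed_dvd
    (Algebra.IsIntegral.isIntegral (R := P) y) h1
  have hc1 := krullRev_coeff (minpoly P z) p (minpoly P z).natDegree
  rw [if_pos le_rfl, Nat.sub_self, pow_zero, mul_one] at hc1
  have hne : krullRev (minpoly P z) p ≠ 0 := by
    intro hc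
    rw [hc, coeff_zero] at hc1
    exact hz0 hc1.symm
  have hq0 : q ≠ 0 := by
    intro hc
    rw [hc, mul_zero] at hq
    exact hne hq
  have hmon : (minpoly P y).Monic := minpoly.monic (Algebra.IsIntegral.isIntegral y)
  have hd : (minpoly P y).natDegree + q.natDegree ≤ (minpoly P z).natDegree := by
    rw [← hmon.natDegree_mul' hq0, ← hq]
    exact krullRev_natDegree_le _ _
  have hq1 : q = C (q.coeff 0) := by
    apply eq_C_of_natDegree_eq_zero
    omega
  have hc2 : (krullRev (minpoly P z) p).coeff (minpoly P z).natDegree = q.coeff 0 := by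
    rw [hq, hq1, coeff_mul_C, coeff_C_zero, ← e3, hmon.coeff_natDegree, one_mul]
  have hc3 := krullRev_coeff (minpoly P z) p 0
  have hmz : (minpoly P z).Monic := minpoly.monic (Algebra.IsIntegral.isIntegral z)
  rw [if_pos (Nat.zero_le _), Nat.sub_zero, hmz.coeff_natDegree, one_mul, hq, hq1,
    coeff_mul_C] at hc3
  rw [← hc3, ← hc1, hc2]
  exact Dvd.intro_left _ rfl

open Polynomial in
private theorem krull_dvd_coeff_zero {P Q : Type} [CommRing P] [CommRing Q] [Algebra P Q]
    (z : Q) : z ∣ algebraMap P Q ((minpoly P z).coeff 0) := by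
  have h := minpoly.aeval P z
  conv at h => lhs; rw [← X_mul_divX_add (minpoly P z)]
  rw [map_add, map_mul, aeval_X, aeval_C] at h
  refine ⟨-(aeval z (divX (minpoly P z))), ?_⟩
  linear_combination h

/-- J05a (Krull): let `Q` be a domain, finitely generated over `ℂ`, containing `r + 1`
algebraically independent elements, and `z ∈ Q` not a unit, `z ≠ 0`. There are a field `L₂` and a
homomorphism `g : Q → L₂` with `g z = 0` such that `L₂` contains `r` elements algebraically
independent over `ℂ` in the image of `Q`. -/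
theorem exists_degeneration (Q : Type) [CommRing Q] [IsDomain Q] [Algebra ℂ Q]
    [Algebra.FiniteType ℂ Q] (r : ℕ) (w : Fin (r + 1) → Q) (hw : AlgebraicIndependent ℂ w)
    (z : Q) (hz : z ≠ 0) (hz' : ¬ IsUnit z) :
    ∃ (L₂ : Type) (_ : Field L₂) (_ : Algebra ℂ L₂) (g : Q →ₐ[ℂ] L₂) (w' : Fin r → Q),
      g z = 0 ∧ AlgebraicIndependent ℂ (fun i => g (w' i)) := by
  classical
  obtain ⟨s, g, hinj, hint⟩ := exists_integral_inj_algHom_of_fg ℂ Q
  let _ : Algebra (MvPolynomial (Fin s) ℂ) Q := g.toRingHom.toAlgebra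
  have hmap : ∀ x, algebraMap (MvPolynomial (Fin s) ℂ) Q x = g x := fun x => rfl
  have : IsScalarTower ℂ (MvPolynomial (Fin s) ℂ) Q :=
    IsScalarTower.of_algebraMap_eq fun x => by
      rw [hmap]; exact (g.commutes x).symm
  have : FaithfulSMul (MvPolynomial (Fin s) ℂ) Q :=
    (faithfulSMul_iff_algebraMap_injective _ _).mpr hinj
  have : Algebra.IsIntegral (MvPolynomial (Fin s) ℂ) Q := ⟨hint⟩
  -- the number of variables
  have hs : r + 1 ≤ s := by
    have h1 := hw.cardinalMk_le_trdeg
    have h2 := trdeg_add_eq ℂ (MvPolynomial (Fin s) ℂ) (A := Q)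
    have h3 : Algebra.trdeg (MvPolynomial (Fin s) ℂ) Q = 0 :=
      trdeg_eq_zero
    rw [h3, add_zero, MvPolynomial.trdeg_of_isDomain] at h2
    rw [← h2] at h1
    simpa using h1
  -- the prime
  have hnu : ¬ IsUnit ((minpoly (MvPolynomial (Fin s) ℂ) z).coeff 0) := by
    intro h
    exact hz' (isUnit_of_dvd_unit (krull_dvd_coeff_zero (P := MvPolynomial (Fin s) ℂ) z)
      (h.map (algebraMap (MvPolynomial (Fin s) ℂ) Q)))
  have hne := krull_coeff_zero_ne (P := MvPolynomial (Fin s) ℂ) z hz
  obtain ⟨π, hπ, hπd⟩ := WfDvdMonoid.exists_irreducible_factor hnu hne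
  have hπp : Prime π := hπ.prime
  have hkey : ∀ p : MvPolynomial (Fin s) ℂ, z ∣ algebraMap (MvPolynomial (Fin s) ℂ) Q p →
      π ∣ p := by
    rintro p ⟨y, hy⟩
    by_cases hy0 : y = 0
    · rw [hy0, mul_zero] at hy
      have : p = 0 := by
        apply hinj
        rw [map_zero]
        exact hy
      rw [this]; exact dvd_zero _
    · exact hπp.dvd_of_dvd_pow (hπd.trans (krull_dvd_pow p z y hz hy0 hy.symm))
  -- the prime ideal of `Q`
  let S : Submonoid (MvPolynomial (Fin s) ℂ) := (Ideal.span {π}).primeCompl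
    (hp := (Ideal.span_singleton_prime hπp.ne_zero).mpr hπp)
  obtain ⟨q, hq, hqz, hqS⟩ := Ideal.exists_le_prime_disjoint (Ideal.span {z})
    (S.map (algebraMap (MvPolynomial (Fin s) ℂ) Q)) (by
      rw [Set.disjoint_left]
      rintro x hx ⟨p, hp, rfl⟩
      rw [SetLike.mem_coe, Ideal.mem_span_singleton] at hx
      exact hp (Ideal.mem_span_singleton.mpr (hkey p hx)))
  have hqπ : ∀ p : MvPolynomial (Fin s) ℂ, algebraMap (MvPolynomial (Fin s) ℂ) Q p ∈ q →
      π ∣ p := by
    intro p hp
    by_contra hc
    exact Set.disjoint_left.mp hqS hp ⟨p, fun h => hc (Ideal.mem_span_singleton.mp h), rfl⟩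
  -- a variable of `π`
  obtain ⟨i, hi⟩ : ∃ i, π.degreeOf i ≠ 0 := by
    by_contra hc
    push Not at hc
    have h1 : π.vars = ∅ := by
      rw [Finset.eq_empty_iff_forall_notMem]
      intro i hi
      have h2 := hc i
      rw [MvPolynomial.degreeOf_def, Multiset.count_eq_zero] at h2
      rw [MvPolynomial.vars_def, Multiset.mem_toFinset] at hi
      exact h2 hi
    rw [MvPolynomial.vars_eq_empty_iff_eq_C] at h1
    apply hπ.not_isUnit
    rw [h1]
    apply IsUnit.map
    rw [isUnit_iff_ne_zero]
    intro h2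
    rw [h2, MvPolynomial.C_0] at h1
    exact hπp.ne_zero h1
  -- the other variables
  have hcard : Fintype.card (Fin r) ≤ Fintype.card {j : Fin s // j ≠ i} := by
    rw [Fintype.card_fin, Fintype.card_subtype_compl, Fintype.card_fin, Fintype.card_subtype_eq]
    omega
  obtain ⟨e⟩ := Function.Embedding.nonempty_of_card_le hcard
  let e' : Fin r → Fin s := fun k => (e k : Fin s)
  have he' : Function.Injective e' := fun a b hab => e.injective (Subtype.ext hab)
  have := hq
  refine ⟨FractionRing (Q ⧸ q), inferInstance, inferInstance,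
    (Algebra.ofId (Q ⧸ q) (FractionRing (Q ⧸ q))).restrictScalars ℂ |>.comp (Ideal.Quotient.mkₐ ℂ q),
    fun k => g (MvPolynomial.X (e' k)), ?_, ?_⟩
  · have : Ideal.Quotient.mk q z = 0 :=
      Ideal.Quotient.eq_zero_iff_mem.mpr (hqz (Ideal.mem_span_singleton_self z))
    simp [this]
  · rw [algebraicIndependent_iff]
    intro F hF
    have h1 : Ideal.Quotient.mk q (g (MvPolynomial.rename e' F)) = 0 := by
      apply IsFractionRing.injective (Q ⧸ q) (FractionRing (Q ⧸ q))
      rw [map_zero]
      rw [← hF]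
      have h2 : ((Algebra.ofId (Q ⧸ q) (FractionRing (Q ⧸ q))).restrictScalars ℂ |>.comp
          (Ideal.Quotient.mkₐ ℂ q)) (g (MvPolynomial.rename e' F)) =
          algebraMap (Q ⧸ q) (FractionRing (Q ⧸ q))
            (Ideal.Quotient.mk q (g (MvPolynomial.rename e' F))) := rfl
      rw [← h2, ← AlgHom.comp_apply, ← AlgHom.comp_apply]
      congr 1
      apply MvPolynomial.algHom_ext
      intro k
      simp
    rw [Ideal.Quotient.eq_zero_iff_mem] at h1
    have h2 := hqπ _ h1
    have h3 : (MvPolynomial.rename e' F).degreeOf i = 0 := by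
      rw [MvPolynomial.degreeOf_def, MvPolynomial.degrees_rename_of_injective he',
        Multiset.count_eq_zero]
      intro hc
      obtain ⟨k, -, hk⟩ := Multiset.mem_map.mp hc
      exact (e k).2 hk
    by_contra hF0
    have hF1 : MvPolynomial.rename e' F ≠ 0 := by
      intro hc
      exact hF0 (MvPolynomial.rename_injective e' he' (by rw [hc, map_zero]))
    obtain ⟨G, hG⟩ := h2
    have hG0 : G ≠ 0 := by
      intro hc
      rw [hc, mul_zero] at hG
      exact hF1 hG
    rw [hG, MvPolynomial.degreeOf_mul_eq hπp.ne_zero hG0] at h3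
    omega

end Pool.Agent.Lib_GD
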