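import Pool.Agent.Lib_GD.Lift
import Pool.Agent.Lib_GD.TrdegBound
import Pool.Agent.Lib_GD.Krull0
import Pool.Agent.Lib_GD.AlgCoeff
import Pool.Agent.Lib_GD.Growth

/-! J05: degeneration to constant coefficients. -/

open PowerSeries

namespace Pool.Agent.Lib_GD

variable {R : Type} [CommRing R] [Algebra ℂ R] {𝒜 : ℕ → Submodule ℂ R} [GradedAlgebra 𝒜]
  {n : ℕ}

/-! ### Independence of `z, z ^ j c` -/

private theorem Degen_scale {K ι : Type} [Field K] [Algebra ℂ K] (x : ι → K)
    (hx : AlgebraicIndependent ℂ x) (e : ι → ℕ) (a : ℂ) (ha : a ≠ 0) :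
    AlgebraicIndependent ℂ (fun p => algebraMap ℂ K (a ^ e p) * x p) := by
  obtain ⟨θ, hθ⟩ : ∃ θ : ℂ → (MvPolynomial ι ℂ →ₐ[ℂ] MvPolynomial ι ℂ), ∀ b,
      θ b = MvPolynomial.aeval (fun p => MvPolynomial.C (b ^ e p) * MvPolynomial.X p) :=
    ⟨_, fun _ => rfl⟩
  have hθX : ∀ b p, θ b (MvPolynomial.X p) = MvPolynomial.C (b ^ e p) * MvPolynomial.X p := by
    intro b p
    rw [hθ, MvPolynomial.aeval_X]
  have h1 : (θ a⁻¹).comp (θ a) = AlgHom.id ℂ _ := by
    apply MvPolynomial.algHom_ext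
    intro p
    rw [AlgHom.comp_apply, hθX, map_mul, hθX, AlgHom.id_apply]
    have h2 : θ a⁻¹ (MvPolynomial.C (a ^ e p)) = MvPolynomial.C (a ^ e p) := by
      rw [← MvPolynomial.algebraMap_eq]
      exact (θ a⁻¹).commutes _
    rw [h2, ← mul_assoc, ← map_mul, ← mul_pow, mul_inv_cancel₀ ha, one_pow, map_one, one_mul]
  have h3 : Function.Injective (θ a) := by
    intro u v huv
    have h4 := congrArg (θ a⁻¹) huv
    rw [← AlgHom.comp_apply, ← AlgHom.comp_apply, h1] at h4
    exact h4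
  rw [algebraicIndependent_iff_injective_aeval]
  have h5 : (MvPolynomial.aeval (fun p => algebraMap ℂ K (a ^ e p) * x p) :
      MvPolynomial ι ℂ →ₐ[ℂ] K) = (MvPolynomial.aeval x).comp (θ a) := by
    apply MvPolynomial.algHom_ext
    intro p
    rw [AlgHom.comp_apply, hθX, map_mul, MvPolynomial.aeval_X, MvPolynomial.aeval_X,
      MvPolynomial.aeval_C]
  rw [h5, AlgHom.coe_comp]
  exact (algebraicIndependent_iff_injective_aeval.1 hx).comp h3

private theorem Degen_indep {K ι : Type} [Field K] [Algebra ℂ K] (x : ι → K)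
    (hx : AlgebraicIndependent ℂ x) (e : ι → ℕ) :
    AlgebraicIndependent ℂ (fun o : Option ι => o.elim (Polynomial.X : Polynomial K)
      (fun p => Polynomial.C (x p) * Polynomial.X ^ e p)) := by
  rw [algebraicIndependent_iff]
  intro P hP
  obtain ⟨q, hq⟩ : ∃ q, q = MvPolynomial.optionEquivLeft ℂ ι P := ⟨_, rfl⟩
  have key : ∀ a : ℂ, a ≠ 0 → Polynomial.IsRoot q (MvPolynomial.C a) := by
    intro a ha
    have h1 := Degen_scale x hx e a ha
    rw [algebraicIndependent_iff] at h1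
    apply h1
    -- two homs
    obtain ⟨ev, hev⟩ : ∃ ev : Polynomial K →ₐ[ℂ] K, ∀ f, ev f = Polynomial.eval (algebraMap ℂ K a) f :=
      ⟨(Polynomial.aeval (R := K) (algebraMap ℂ K a)).restrictScalars ℂ, fun f => by
        rw [AlgHom.restrictScalars_apply, Polynomial.coe_aeval_eq_eval]⟩
    obtain ⟨ev', hev'⟩ : ∃ ev' : Polynomial (MvPolynomial ι ℂ) →ₐ[ℂ] MvPolynomial ι ℂ,
        ∀ f, ev' f = Polynomial.eval (MvPolynomial.C a) f :=
      ⟨(Polynomial.aeval (R := MvPolynomial ι ℂ) (MvPolynomial.C a)).restrictScalars ℂ, fun f => by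
        rw [AlgHom.restrictScalars_apply, Polynomial.coe_aeval_eq_eval]⟩
    obtain ⟨oe, hoe⟩ : ∃ oe : MvPolynomial (Option ι) ℂ →ₐ[ℂ] Polynomial (MvPolynomial ι ℂ),
        ∀ f, oe f = MvPolynomial.optionEquivLeft ℂ ι f :=
      ⟨(MvPolynomial.optionEquivLeft ℂ ι).toAlgHom, fun _ => rfl⟩
    have h2 : (ev.comp (MvPolynomial.aeval (fun o : Option ι => o.elim (Polynomial.X : Polynomial K)
        (fun p => Polynomial.C (x p) * Polynomial.X ^ e p)))) =
        ((MvPolynomial.aeval (fun p => algebraMap ℂ K (a ^ e p) * x p) :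
          MvPolynomial ι ℂ →ₐ[ℂ] K).comp ev').comp oe := by
      apply MvPolynomial.algHom_ext
      intro o
      cases o with
      | none =>
        rw [AlgHom.comp_apply, AlgHom.comp_apply, AlgHom.comp_apply, MvPolynomial.aeval_X]
        show ev Polynomial.X = _
        rw [hev, Polynomial.eval_X]
        rw [hoe, MvPolynomial.optionEquivLeft_X_none, hev', Polynomial.eval_X, MvPolynomial.aeval_C]
      | some p =>
        rw [AlgHom.comp_apply, AlgHom.comp_apply, AlgHom.comp_apply, MvPolynomial.aeval_X]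
        show ev (Polynomial.C (x p) * Polynomial.X ^ e p) = _
        rw [hev, Polynomial.eval_mul, Polynomial.eval_C, Polynomial.eval_pow, Polynomial.eval_X]
        rw [hoe, MvPolynomial.optionEquivLeft_X_some, hev', Polynomial.eval_C,
          MvPolynomial.aeval_X, map_pow, mul_comm]
    have h4 := DFunLike.congr_fun h2 P
    rw [AlgHom.comp_apply, AlgHom.comp_apply, AlgHom.comp_apply, hP, map_zero, hev', hoe] at h4
    rw [hq]
    exact h4.symm
  have h5 : q = 0 := by
    apply Polynomial.eq_zero_of_infinite_isRoot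
    have h6 : Set.Infinite ((MvPolynomial.C : ℂ →+* MvPolynomial ι ℂ) '' {a : ℂ | a ≠ 0}) := by
      apply Set.Infinite.image (MvPolynomial.C_injective ι ℂ).injOn
      have h7 : {a : ℂ | a ≠ 0} = ({0} : Set ℂ)ᶜ := by
        ext a
        simp
      rw [h7]
      exact (Set.finite_singleton (0 : ℂ)).infinite_compl
    refine h6.mono ?_
    rintro _ ⟨a, ha, rfl⟩
    exact key a ha
  rw [hq] at h5
  exact (map_eq_zero_iff _ (MvPolynomial.optionEquivLeft ℂ ι).injective).1 h5

/-! ### The degenerating algebra -/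

private theorem Degen_Q {B : Type} [CommRing B] [Algebra ℂ B] [hB : Algebra.FiniteType ℂ B]
    {L₁ : Type} [Field L₁] [Algebra ℂ L₁] (x₁ : B →ₐ[ℂ] L₁⟦X⟧) (k : ℕ) :
    ∃ (Q : Subalgebra ℂ (Polynomial L₁)) (_ : Algebra.FiniteType ℂ Q) (hX : Polynomial.X ∈ Q)
      (hb : ∀ (b : B) (j : ℕ), j < k → Polynomial.C (coeff j (x₁ b)) * Polynomial.X ^ j ∈ Q),
      ∀ S : Subalgebra ℂ Q, (⟨Polynomial.X, hX⟩ : Q) ∈ S →
        (∀ b j (hj : j < k), (⟨_, hb b j hj⟩ : Q) ∈ S) → ∀ q, q ∈ S := by
  obtain ⟨t, ht⟩ := hB.out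
  classical
  obtain ⟨G, hG⟩ : ∃ G : Finset (Polynomial L₁), G = insert Polynomial.X
      ((t ×ˢ Finset.range k).image fun p =>
        Polynomial.C (coeff p.2 (x₁ p.1)) * Polynomial.X ^ p.2) := ⟨_, rfl⟩
  have hX : (Polynomial.X : Polynomial L₁) ∈ Algebra.adjoin ℂ (G : Set (Polynomial L₁)) := by
    apply Algebra.subset_adjoin
    rw [hG]
    simp
  have hb0 : ∀ b ∈ t, ∀ j, j < k → Polynomial.C (coeff j (x₁ b)) * Polynomial.X ^ j ∈ G := by
    intro b hb j hj
    rw [hG]
    apply Finset.mem_insert_of_mem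
    exact Finset.mem_image.2 ⟨(b, j), Finset.mem_product.2 ⟨hb, Finset.mem_range.2 hj⟩, rfl⟩
  have hb : ∀ (b : B) (j : ℕ), j < k → Polynomial.C (coeff j (x₁ b)) * Polynomial.X ^ j ∈
      Algebra.adjoin ℂ (G : Set (Polynomial L₁)) := by
    intro b
    have hbt : b ∈ Algebra.adjoin ℂ (t : Set B) := by
      rw [ht]
      exact Algebra.mem_top
    induction hbt using Algebra.adjoin_induction with
    | mem b hb =>
      intro j hj
      exact Algebra.subset_adjoin (hb0 b hb j hj)
    | algebraMap r =>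
      intro j hj
      rw [AlgHom.commutes, PowerSeries.algebraMap_apply, PowerSeries.coeff_C]
      by_cases h : j = 0
      · rw [if_pos h, h, pow_zero, mul_one]
        exact Subalgebra.algebraMap_mem _ r
      · rw [if_neg h, map_zero, zero_mul]
        exact Subalgebra.zero_mem _
    | add a b _ _ ha hb =>
      intro j hj
      rw [map_add, map_add, map_add, add_mul]
      exact Subalgebra.add_mem _ (ha j hj) (hb j hj)
    | mul a b _ _ ha hb =>
      intro j hj
      rw [map_mul, PowerSeries.coeff_mul, map_sum, Finset.sum_mul]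
      apply Subalgebra.sum_mem
      intro p hp
      have h1 := Finset.HasAntidiagonal.mem_antidiagonal.1 hp
      have h2 : Polynomial.C (coeff p.1 (x₁ a) * coeff p.2 (x₁ b)) * Polynomial.X ^ j =
          (Polynomial.C (coeff p.1 (x₁ a)) * Polynomial.X ^ p.1) *
            (Polynomial.C (coeff p.2 (x₁ b)) * Polynomial.X ^ p.2) := by
        rw [← h1, pow_add, map_mul]
        ring
      rw [h2]
      exact Subalgebra.mul_mem _ (ha _ (by omega)) (hb _ (by omega))
  refine ⟨Algebra.adjoin ℂ (G : Set (Polynomial L₁)),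
    (Subalgebra.fg_iff_finiteType _).1 (Subalgebra.fg_adjoin_finset G), hX, hb, ?_⟩
  intro S hS1 hS2 q
  have h1 : Algebra.adjoin ℂ (((↑) : Algebra.adjoin ℂ (G : Set (Polynomial L₁)) → Polynomial L₁) ⁻¹'
      (G : Set (Polynomial L₁))) ≤ S := by
    apply Algebra.adjoin_le
    rintro ⟨f, hf⟩ hfG
    have hfG' : f ∈ G := hfG
    rw [hG, Finset.mem_insert] at hfG'
    rcases hfG' with h | h
    · subst h
      exact hS1
    · obtain ⟨p, hp, rfl⟩ := Finset.mem_image.1 h
      exact hS2 p.1 p.2 (Finset.mem_range.1 (Finset.mem_product.1 hp).2)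
  rw [Algebra.adjoin_adjoin_coe_preimage] at h1
  exact h1 Algebra.mem_top

/-! ### Truncated homomorphisms -/

private theorem Degen_hom {B : Type} [CommRing B] [Algebra ℂ B] {L : Type} [Field L] [Algebra ℂ L]
    (k : ℕ) (γ : B → ℕ → L) (hadd : ∀ a b j, j < k → γ (a + b) j = γ a j + γ b j)
    (hmul : ∀ a b j, j < k → γ (a * b) j = ∑ p ∈ Finset.HasAntidiagonal.antidiagonal j, γ a p.1 * γ b p.2)
    (halg : ∀ r j, j < k → γ (algebraMap ℂ B r) j = if j = 0 then algebraMap ℂ L r else 0) :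
    ∃ x : B →ₐ[ℂ] (L⟦X⟧ ⧸ Ideal.span {(X : L⟦X⟧) ^ k}),
      ∀ b, x b = Ideal.Quotient.mk _ (PowerSeries.mk (γ b)) := by
  have hq : ∀ f f' : L⟦X⟧, (∀ m, m < k → coeff m f = coeff m f') →
      Ideal.Quotient.mk (Ideal.span {(X : L⟦X⟧) ^ k}) f = Ideal.Quotient.mk _ f' := by
    intro f f' h
    rw [Ideal.Quotient.eq, Ideal.mem_span_singleton, X_pow_dvd_iff]
    intro m hm
    rw [map_sub, h m hm, sub_self]
  have hcomm : ∀ r : ℂ, Ideal.Quotient.mk (Ideal.span {(X : L⟦X⟧) ^ k})
      (PowerSeries.mk (γ (algebraMap ℂ B r))) = algebraMap ℂ _ r := by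
    intro r
    have h1 : algebraMap ℂ (L⟦X⟧ ⧸ Ideal.span {(X : L⟦X⟧) ^ k}) r =
        Ideal.Quotient.mk _ (algebraMap ℂ L⟦X⟧ r) := rfl
    rw [h1]
    apply hq
    intro m hm
    rw [coeff_mk, halg r m hm, PowerSeries.algebraMap_apply, PowerSeries.coeff_C]
  refine ⟨{ toFun := fun b => Ideal.Quotient.mk _ (PowerSeries.mk (γ b))
            map_one' := ?_
            map_mul' := ?_
            map_zero' := ?_
            map_add' := ?_
            commutes' := ?_ }, fun b => rfl⟩
  · have h1 := hcomm 1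
    rw [map_one, map_one] at h1
    exact h1
  · intro a b
    show Ideal.Quotient.mk _ (PowerSeries.mk (γ (a * b))) =
      Ideal.Quotient.mk _ (PowerSeries.mk (γ a)) * Ideal.Quotient.mk _ (PowerSeries.mk (γ b))
    rw [← map_mul]
    apply hq
    intro m hm
    rw [coeff_mk, hmul a b m hm, PowerSeries.coeff_mul]
    refine Finset.sum_congr rfl fun p _ => ?_
    rw [coeff_mk, coeff_mk]
  · have h1 := hcomm 0
    rw [map_zero, map_zero] at h1
    exact h1
  · intro a b
    show Ideal.Quotient.mk _ (PowerSeries.mk (γ (a + b))) =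
      Ideal.Quotient.mk _ (PowerSeries.mk (γ a)) + Ideal.Quotient.mk _ (PowerSeries.mk (γ b))
    rw [← map_add]
    apply hq
    intro m hm
    rw [coeff_mk, hadd a b m hm, map_add, coeff_mk, coeff_mk]
  · intro r
    exact hcomm r

/-! ### Ranks of values of derivations -/

private theorem Degen_sum_apply {L : Type} [Field L] [Algebra ℂ L] {ι : Type} (s : Finset ι)
    (δ : ι → Derivation ℂ L L) (x : L) : (∑ i ∈ s, δ i) x = ∑ i ∈ s, δ i x := by
  classical
  induction s using Finset.induction_on with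
  | empty => simp
  | insert a s ha ih => rw [Finset.sum_insert ha, Finset.sum_insert ha, Derivation.add_apply, ih]

private theorem Degen_rank {L : Type} [Field L] [Algebra ℂ L] {ι : Type} [Fintype ι] (z : ι → L)
    (r : ℕ) (w : Fin r → L) (hw : AlgebraicIndependent ℂ w)
    (h : ∀ δ : Derivation ℂ L L, (∀ p, δ (z p) = 0) → ∀ i, δ (w i) = 0) :
    r ≤ Module.finrank L (Submodule.span L {v : ι → L |
      ∃ δ ∈ (⊤ : Submodule L (Derivation ℂ L L)), ∀ p, δ (z p) = v p}) := by
  have h1 : ∀ i : Fin r, ∃ δ : Derivation ℂ L L, ∀ j, δ (w j) = (Pi.single i 1 : Fin r → L) j :=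
    fun i => exists_derivation w hw _
  choose δ hδ using h1
  obtain ⟨V, hV⟩ : ∃ V : Submodule L (ι → L), V = Submodule.span L {v : ι → L |
      ∃ δ ∈ (⊤ : Submodule L (Derivation ℂ L L)), ∀ p, δ (z p) = v p} := ⟨_, rfl⟩
  have hm : ∀ i, (fun p => δ i (z p)) ∈ V := by
    intro i
    rw [hV]
    exact Submodule.subset_span ⟨δ i, Submodule.mem_top, fun p => rfl⟩
  have hli : LinearIndependent L (fun i => (⟨fun p => δ i (z p), hm i⟩ : V)) := by
    rw [Fintype.linearIndependent_iff]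
    intro a ha i
    have h2 : ∀ p, ∑ i, a i * δ i (z p) = 0 := by
      intro p
      have h3 := congrArg (fun v : V => (v : ι → L) p) ha
      simpa using h3
    have h4 : ∀ p, (∑ i, a i • δ i : Derivation ℂ L L) (z p) = 0 := by
      intro p
      rw [← h2 p, Degen_sum_apply]
      rfl
    have h5 := h _ h4 i
    have h6 : (∑ j, a j • δ j : Derivation ℂ L L) (w i) = a i := by
      have h7 : (∑ j, a j • δ j : Derivation ℂ L L) (w i) = ∑ j, a j * δ j (w i) := by
        rw [Degen_sum_apply]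
        rfl
      rw [h7, Finset.sum_eq_single i]
      · rw [hδ, Pi.single_eq_same, mul_one]
      · intro j _ hj
        rw [hδ, Pi.single_eq_of_ne hj.symm, mul_zero]
      · intro hi
        exact absurd (Finset.mem_univ i) hi
    rw [← h6]
    exact h5
  have h8 := hli.fintype_card_le_finrank
  rw [Fintype.card_fin] at h8
  rw [← hV]
  exact h8

/-! ### The degeneration -/

/-- J05c: degeneration `X ↦ z X`, `z → 0`: from an arc on which the sections `∑ e_il(X) σ_l` have
orders at least `λ_i` to an arc, varying in a family of at least the same dimension, on which the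
sections `∑ e_il(0) σ_l` have orders at least `λ_i`. -/
theorem Chart.degenerate (c : Chart 𝒜 n) {L₁ : Type} [Field L₁] [Algebra ℂ L₁]
    (x₁ : c.B →ₐ[ℂ] L₁⟦X⟧) {N k : ℕ} (σ : Fin N → R) (e₁ : Fin N → Fin N → ℂ⟦X⟧)
    (lam : Fin N → ℕ) (hk : 1 ≤ k) (hlam : ∀ i, lam i ≤ k)
    (hx : ∀ i, (X : L₁⟦X⟧) ^ lam i ∣
        ∑ l, PowerSeries.map (algebraMap ℂ L₁) (e₁ i l) * x₁ (c.ρ (σ l)))
    (s : Finset (Fin n × Fin k))
    (hs : AlgebraicIndependent ℂ (fun p : s => coeff (p.1.2 : ℕ) (x₁ (c.y p.1.1)))) :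
    ∃ (L₂ : Type) (_ : Field L₂) (_ : Algebra ℂ L₂) (x₂ : c.B →ₐ[ℂ] L₂⟦X⟧)
      (s₂ : Finset (Fin n × Fin k)), s.card ≤ s₂.card ∧
      (∀ i, (X : L₂⟦X⟧) ^ lam i ∣
        ∑ l, algebraMap ℂ L₂⟦X⟧ (constantCoeff (e₁ i l)) * x₂ (c.ρ (σ l))) ∧
      AlgebraicIndependent ℂ (fun p : s₂ => coeff (p.1.2 : ℕ) (x₂ (c.y p.1.1))) := by
  obtain ⟨Q, hQ, hX, hb, hind⟩ := Degen_Q x₁ k
  -- the element `z`
  have hz : (⟨Polynomial.X, hX⟩ : Q) ≠ 0 := by
    intro h
    exact Polynomial.X_ne_zero (congrArg Subtype.val h)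
  have hz' : ¬ IsUnit (⟨Polynomial.X, hX⟩ : Q) := by
    intro h
    have h1 := h.map ((Polynomial.evalRingHom (0 : L₁)).comp (Q.val : Q →+* Polynomial L₁))
    have h2 : ((Polynomial.evalRingHom (0 : L₁)).comp (Q.val : Q →+* Polynomial L₁))
        (⟨Polynomial.X, hX⟩ : Q) = 0 := by
      show Polynomial.eval 0 (Polynomial.X : Polynomial L₁) = 0
      exact Polynomial.eval_X
    rw [h2] at h1
    exact not_isUnit_zero h1
  -- the independent family
  have hcard : Fintype.card (Option s) = s.card + 1 := by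
    rw [Fintype.card_option, Fintype.card_coe]
  obtain ⟨wO, hwO⟩ : ∃ wO : Option s → Q, wO = fun o => o.elim (⟨Polynomial.X, hX⟩ : Q)
      (fun p => ⟨_, hb (c.y p.1.1) p.1.2 p.1.2.isLt⟩) := ⟨_, rfl⟩
  have hw : AlgebraicIndependent ℂ wO := by
    apply AlgebraicIndependent.of_comp Q.val
    have h1 : (Q.val ∘ wO) = fun o : Option s => o.elim (Polynomial.X : Polynomial L₁)
        (fun p => Polynomial.C (coeff (p.1.2 : ℕ) (x₁ (c.y p.1.1))) *
          Polynomial.X ^ (p.1.2 : ℕ)) := by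
      funext o
      rw [hwO]
      cases o <;> rfl
    rw [h1]
    exact Degen_indep _ hs (fun p : s => (p.1.2 : ℕ))
  have hw2 := hw.comp (Fintype.equivFinOfCardEq hcard).symm
    (Fintype.equivFinOfCardEq hcard).symm.injective
  obtain ⟨L₂, hf, ha, g, w', hg0, hgw⟩ := exists_degeneration Q s.card _ hw2 _ hz hz'
  -- the coefficients
  obtain ⟨γ, hγ⟩ : ∃ γ : c.B → ℕ → L₂, ∀ b j (hj : j < k), γ b j = g ⟨_, hb b j hj⟩ :=
    ⟨fun b j => if hj : j < k then g ⟨_, hb b j hj⟩ else 0, fun b j hj => by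
      show (if hj : j < k then g ⟨_, hb b j hj⟩ else 0) = _
      rw [dif_pos hj]⟩
  obtain ⟨x, hx'⟩ := Degen_hom (B := c.B) (L := L₂) k γ
    (by
      intro a b j hj
      rw [hγ _ _ hj, hγ _ _ hj, hγ _ _ hj, ← map_add]
      congr 1
      apply Subtype.ext
      show Polynomial.C (coeff j (x₁ (a + b))) * Polynomial.X ^ j =
        Polynomial.C (coeff j (x₁ a)) * Polynomial.X ^ j +
          Polynomial.C (coeff j (x₁ b)) * Polynomial.X ^ j
      rw [map_add, map_add, map_add, add_mul])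
    (by
      intro a b j hj
      have h1 : ∀ p ∈ Finset.HasAntidiagonal.antidiagonal j, p.1 < k ∧ p.2 < k ∧ p.1 + p.2 = j := by
        intro p hp
        have h2 := Finset.HasAntidiagonal.mem_antidiagonal.1 hp
        exact ⟨by omega, by omega, h2⟩
      rw [hγ _ _ hj]
      have h3 : (⟨_, hb (a * b) j hj⟩ : Q) = ∑ p ∈ (Finset.HasAntidiagonal.antidiagonal j).attach,
          (⟨_, hb a p.1.1 (h1 _ p.2).1⟩ : Q) * ⟨_, hb b p.1.2 (h1 _ p.2).2.1⟩ := by
        apply Subtype.ext
        have h4 : ((∑ p ∈ (Finset.HasAntidiagonal.antidiagonal j).attach,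
          (⟨_, hb a p.1.1 (h1 _ p.2).1⟩ : Q) * ⟨_, hb b p.1.2 (h1 _ p.2).2.1⟩ : Q) :
          Polynomial L₁) = ∑ p ∈ (Finset.HasAntidiagonal.antidiagonal j).attach,
            (Polynomial.C (coeff p.1.1 (x₁ a)) * Polynomial.X ^ p.1.1) *
            (Polynomial.C (coeff p.1.2 (x₁ b)) * Polynomial.X ^ p.1.2) := by
          rw [← Q.coe_val, map_sum]
          rfl
        rw [h4]
        show Polynomial.C (coeff j (x₁ (a * b))) * Polynomial.X ^ j = _
        rw [map_mul, PowerSeries.coeff_mul, map_sum, Finset.sum_mul, ← Finset.sum_attach]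
        refine Finset.sum_congr rfl fun p _ => ?_
        have h5 : (Polynomial.X : Polynomial L₁) ^ j =
            Polynomial.X ^ p.1.1 * Polynomial.X ^ p.1.2 := by
          rw [← pow_add, (h1 _ p.2).2.2]
        rw [map_mul, h5]
        ring
      rw [h3, map_sum, ← Finset.sum_attach (Finset.HasAntidiagonal.antidiagonal j)
        (fun p => γ a p.1 * γ b p.2)]
      refine Finset.sum_congr rfl fun p _ => ?_
      rw [map_mul, hγ _ _ (h1 _ p.2).1, hγ _ _ (h1 _ p.2).2.1])
    (by
      intro r j hj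
      rw [hγ _ _ hj]
      have h1 : (⟨_, hb (algebraMap ℂ c.B r) j hj⟩ : Q) =
          if j = 0 then algebraMap ℂ Q r else 0 := by
        apply Subtype.ext
        show Polynomial.C (coeff j (x₁ (algebraMap ℂ c.B r))) * Polynomial.X ^ j = _
        rw [AlgHom.commutes, PowerSeries.algebraMap_apply, PowerSeries.coeff_C]
        by_cases h : j = 0
        · rw [if_pos h, if_pos h, h, pow_zero, mul_one]
          rfl
        · rw [if_neg h, if_neg h, map_zero, zero_mul]
          rfl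
      rw [h1]
      by_cases h : j = 0
      · rw [if_pos h, if_pos h, AlgHom.commutes]
      · rw [if_neg h, if_neg h, map_zero])
  obtain ⟨x₂, hx₂⟩ := c.exists_lift k hk x
  have hc : ∀ b j (hj : j < k), coeff j (x₂ b) = g ⟨_, hb b j hj⟩ := by
    intro b j hj
    have h1 := hx₂ b
    rw [hx', Ideal.Quotient.eq, Ideal.mem_span_singleton, X_pow_dvd_iff] at h1
    have h2 := h1 j hj
    rw [map_sub, coeff_mk, sub_eq_zero] at h2
    rw [h2, hγ _ _ hj]
  -- independence
  have hkill : ∀ δ : Derivation ℂ L₂ L₂,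
      (∀ p : Fin n × Fin k, δ (coeff (p.2 : ℕ) (x₂ (c.y p.1))) = 0) → ∀ q : Q, δ (g q) = 0 := by
    intro δ hδ
    obtain ⟨S, hS⟩ : ∃ S : Subalgebra ℂ Q, ∀ q, q ∈ S ↔ δ (g q) = 0 :=
      ⟨{ carrier := {q | δ (g q) = 0}
         mul_mem' := by
          intro a b ha hb
          have ha' : δ (g a) = 0 := ha
          have hb' : δ (g b) = 0 := hb
          show δ (g (a * b)) = 0
          rw [map_mul, Derivation.leibniz, ha', hb', smul_zero, smul_zero, add_zero]
         add_mem' := by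
          intro a b ha hb
          have ha' : δ (g a) = 0 := ha
          have hb' : δ (g b) = 0 := hb
          show δ (g (a + b)) = 0
          rw [map_add, map_add, ha', hb', add_zero]
         algebraMap_mem' := by
          intro r
          show δ (g (algebraMap ℂ Q r)) = 0
          rw [AlgHom.commutes, Derivation.map_algebraMap] }, fun q => Iff.rfl⟩
    have hhat : ∀ (f : L₂⟦X⟧) (m : ℕ), coeff m (hat δ f) = δ (coeff m f) := by
      intro f m
      rw [hat, PowerSeries.coeff_mk]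
    have h1 : ∀ b, (X : L₂⟦X⟧) ^ k ∣ hat δ (x₂ b) := by
      intro b
      rw [c.hat_arc x₂ δ b]
      refine Finset.dvd_sum fun l _ => Dvd.dvd.mul_left ?_ _
      rw [X_pow_dvd_iff]
      intro m hm
      rw [hhat]
      exact hδ (l, ⟨m, hm⟩)
    intro q
    rw [← hS]
    refine hind S ?_ ?_ q
    · rw [hS, hg0, map_zero]
    · intro b j hj
      rw [hS, ← hc b j hj, ← hhat]
      exact X_pow_dvd_iff.1 (h1 b) j hj
  have hrank := Degen_rank (fun p : Fin n × Fin k => coeff (p.2 : ℕ) (x₂ (c.y p.1))) s.card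
    (fun i => g (w' i)) hgw (fun δ hδ i => hkill δ hδ (w' i))
  obtain ⟨s₂, hs₂, hai⟩ := exists_algebraicIndependent _ _ _ hrank
  refine ⟨L₂, hf, ha, x₂, s₂, hs₂, ?_, ?_⟩
  · intro i
    rw [X_pow_dvd_iff]
    intro m hm
    have hmk : m < k := lt_of_lt_of_le hm (hlam i)
    have h1 : ∀ p ∈ Finset.HasAntidiagonal.antidiagonal m, p.2 < k := by
      intro p hp
      have h2 := Finset.HasAntidiagonal.mem_antidiagonal.1 hp
      omega
    -- the relation in `Q`
    have h3 : ∑ l, ∑ p ∈ (Finset.HasAntidiagonal.antidiagonal m).attach,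
        algebraMap ℂ Q (coeff p.1.1 (e₁ i l)) * (⟨Polynomial.X, hX⟩ : Q) ^ p.1.1 *
          ⟨_, hb (c.ρ (σ l)) p.1.2 (h1 _ p.2)⟩ = 0 := by
      apply Subtype.ext
      have h4 : ((∑ l, ∑ p ∈ (Finset.HasAntidiagonal.antidiagonal m).attach,
        algebraMap ℂ Q (coeff p.1.1 (e₁ i l)) * (⟨Polynomial.X, hX⟩ : Q) ^ p.1.1 *
          ⟨_, hb (c.ρ (σ l)) p.1.2 (h1 _ p.2)⟩ : Q) : Polynomial L₁) =
          ∑ l, ∑ p ∈ (Finset.HasAntidiagonal.antidiagonal m).attach,
            Polynomial.C (algebraMap ℂ L₁ (coeff p.1.1 (e₁ i l))) * Polynomial.X ^ p.1.1 *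
              (Polynomial.C (coeff p.1.2 (x₁ (c.ρ (σ l)))) * Polynomial.X ^ p.1.2) := by
        rw [← Q.coe_val, map_sum]
        refine Finset.sum_congr rfl fun l _ => ?_
        rw [map_sum]
        rfl
      rw [h4]
      show _ = (0 : Polynomial L₁)
      have h5 := X_pow_dvd_iff.1 (hx i) m hm
      rw [map_sum] at h5
      have h6 : ∀ l, (∑ p ∈ (Finset.HasAntidiagonal.antidiagonal m).attach,
            Polynomial.C (algebraMap ℂ L₁ (coeff p.1.1 (e₁ i l))) * Polynomial.X ^ p.1.1 *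
              (Polynomial.C (coeff p.1.2 (x₁ (c.ρ (σ l)))) * Polynomial.X ^ p.1.2)) =
          Polynomial.C (coeff m (PowerSeries.map (algebraMap ℂ L₁) (e₁ i l) *
            x₁ (c.ρ (σ l)))) * Polynomial.X ^ m := by
        intro l
        rw [PowerSeries.coeff_mul, map_sum, Finset.sum_mul, ← Finset.sum_attach (s :=
          Finset.HasAntidiagonal.antidiagonal m) (f := fun p => Polynomial.C (coeff p.1
          (PowerSeries.map (algebraMap ℂ L₁) (e₁ i l)) * coeff p.2 (x₁ (c.ρ (σ l)))) *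
          Polynomial.X ^ m)]
        refine Finset.sum_congr rfl fun p _ => ?_
        have h7 : (Polynomial.X : Polynomial L₁) ^ m =
            Polynomial.X ^ p.1.1 * Polynomial.X ^ p.1.2 := by
          rw [← pow_add, Finset.HasAntidiagonal.mem_antidiagonal.1 p.2]
        rw [PowerSeries.coeff_map, map_mul, h7]
        ring
      simp_rw [h6]
      rw [← Finset.sum_mul, ← map_sum, h5, map_zero, zero_mul]
    have h8 := congrArg g h3
    rw [map_zero, map_sum] at h8
    rw [← h8, map_sum]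
    refine Finset.sum_congr rfl fun l _ => ?_
    rw [map_sum, PowerSeries.algebraMap_apply, PowerSeries.coeff_C_mul, hc _ _ hmk]
    have h9 : (0, m) ∈ Finset.HasAntidiagonal.antidiagonal m := by
      rw [Finset.HasAntidiagonal.mem_antidiagonal]
      exact zero_add m
    rw [Finset.sum_eq_single (⟨(0, m), h9⟩ : {x // x ∈ Finset.HasAntidiagonal.antidiagonal m})]
    · rw [map_mul, map_mul, AlgHom.commutes, map_pow, pow_zero, mul_one,
        ← PowerSeries.coeff_zero_eq_constantCoeff_apply]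
    · rintro ⟨⟨p1, p2⟩, hp⟩ _ hne
      have h10 : p1 ≠ 0 := by
        rintro rfl
        apply hne
        have h11 := Finset.HasAntidiagonal.mem_antidiagonal.1 hp
        have h12 : p2 = m := by
          rw [← h11]
          exact (zero_add p2).symm
        subst h12
        rfl
      rw [map_mul, map_mul, map_pow, hg0, zero_pow h10, mul_zero, zero_mul]
    · intro h
      exact absurd (Finset.mem_attach _ _) h
  · exact hai.restrictScalars (algebraMap ℂ _).injective

end Pool.Agent.Lib_GD
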