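import Mathlib

/-! A02: dual derivations. -/

namespace Pool.Agent.Lib_GD

/-- a derivation killing the coordinates is zero -/
private theorem DvrDer_ext (V : Type) [CommRing V] [Algebra ℂ V] (r : ℕ) (t : V) (w : Fin r → V)
    (b : Module.Basis (Option (Fin r)) V (KaehlerDifferential ℂ V))
    (hb : b none = KaehlerDifferential.D ℂ V t)
    (hb' : ∀ l, b (some l) = KaehlerDifferential.D ℂ V (w l)) (E : Derivation ℂ V V)
    (h1 : E t = 0) (h2 : ∀ l, E (w l) = 0) : E = 0 := by
  have h : E.liftKaehlerDifferential = 0 := by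
    refine b.ext fun i => ?_
    cases i with
    | none => rw [hb, Derivation.liftKaehlerDifferential_comp_D, h1]; simp
    | some l => rw [hb', Derivation.liftKaehlerDifferential_comp_D, h2]; simp
  have h3 := E.liftKaehlerDifferential_comp
  rw [h] at h3
  rw [← h3]
  ext f
  simp

/-- A02: the dual derivations. -/
theorem exists_dvr_der (V : Type) [CommRing V] [Algebra ℂ V] (r : ℕ) (t : V) (w : Fin r → V)
    (b : Module.Basis (Option (Fin r)) V (KaehlerDifferential ℂ V))
    (hb : b none = KaehlerDifferential.D ℂ V t)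
    (hb' : ∀ l, b (some l) = KaehlerDifferential.D ℂ V (w l)) :
    ∃ (δt : Derivation ℂ V V) (δ : Fin r → Derivation ℂ V V),
      δt t = 1 ∧ (∀ l, δt (w l) = 0) ∧ (∀ l, δ l t = 0) ∧
      (∀ l k, δ l (w k) = if l = k then 1 else 0) ∧
      (∀ f, KaehlerDifferential.D ℂ V f = δt f • KaehlerDifferential.D ℂ V t +
        ∑ l, δ l f • KaehlerDifferential.D ℂ V (w l)) ∧
      (∀ l f, δt (δ l f) = δ l (δt f)) ∧ (∀ l k f, δ l (δ k f) = δ k (δ l f)) := by
  classical
  set c : Option (Fin r) → Derivation ℂ V V := fun i =>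
    (b.coord i).compDer (KaehlerDifferential.D ℂ V) with hc
  have hca : ∀ i f, c i f = b.repr (KaehlerDifferential.D ℂ V f) i := fun i f => rfl
  have h1 : ∀ i, c i t = if i = none then 1 else 0 := by
    intro i
    rw [hca, ← hb, Module.Basis.repr_self, Finsupp.single_apply]
    by_cases h : i = none
    · rw [if_pos h, if_pos h.symm]
    · rw [if_neg h, if_neg (Ne.symm h)]
  have h2 : ∀ i l, c i (w l) = if i = some l then 1 else 0 := by
    intro i l
    rw [hca, ← hb', Module.Basis.repr_self, Finsupp.single_apply]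
    by_cases h : i = some l
    · rw [if_pos h, if_pos h.symm]
    · rw [if_neg h, if_neg (Ne.symm h)]
  have hcomm : ∀ i j f, c i (c j f) = c j (c i f) := by
    intro i j f
    have h0 : ⁅c i, c j⁆ = 0 := by
      apply DvrDer_ext V r t w b hb hb'
      · rw [Derivation.commutator_apply, h1, h1]
        split_ifs <;> simp
      · intro l
        rw [Derivation.commutator_apply, h2, h2]
        split_ifs <;> simp
    have h3 := congrArg (fun E : Derivation ℂ V V => E f) h0
    simp only [Derivation.commutator_apply, Derivation.coe_zero, Pi.zero_apply] at h3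
    exact sub_eq_zero.1 h3
  refine ⟨c none, fun l => c (some l), ?_, ?_, ?_, ?_, ?_, ?_, ?_⟩
  · rw [h1, if_pos rfl]
  · intro l
    rw [h2, if_neg (by simp)]
  · intro l
    rw [h1, if_neg (by simp)]
  · intro l k
    rw [h2]
    simp
  · intro f
    have h3 := b.sum_repr (KaehlerDifferential.D ℂ V f)
    rw [Fintype.sum_option] at h3
    simp only [hb, hb'] at h3
    exact h3.symm
  · intro l f
    exact hcomm _ _ f
  · intro l k f
    exact hcomm _ _ f

end Pool.Agent.Lib_GD
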