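import Mathlib

/-! K06: elimination over a discrete valuation ring. -/

open PowerSeries

namespace Pool.Agent.Lib_GD

private theorem Elim_dvd_min {O : Type} [CommRing O] [IsDomain O] [ValuationRing O] {ι : Type}
    (f : ι → O) (S : Finset ι) (hS : S.Nonempty) : ∃ i₀ ∈ S, ∀ i ∈ S, f i₀ ∣ f i := by
  classical
  induction hS using Finset.Nonempty.cons_induction with
  | singleton a => exact ⟨a, by simp, by simp⟩
  | cons a s ha hs ih =>
    obtain ⟨i₀, h0, h⟩ := ih
    rcases ValuationRing.dvd_total (f i₀) (f a) with h1 | h1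
    · refine ⟨i₀, by simp [h0], ?_⟩
      intro i hi
      rw [Finset.mem_cons] at hi
      rcases hi with rfl | hi
      · exact h1
      · exact h i hi
    · refine ⟨a, by simp, ?_⟩
      intro i hi
      rw [Finset.mem_cons] at hi
      rcases hi with rfl | hi
      · exact dvd_refl _
      · exact h1.trans (h i hi)

/-- Vectors over a valuation ring: a generating subfamily with at most `r` elements. -/
private theorem Elim_span {O : Type} [CommRing O] [IsDomain O] [ValuationRing O] {ι : Type}
    [DecidableEq ι] (S : Finset ι) : ∀ (r : ℕ) (c : ι → Fin r → O),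
    ∃ J : Finset ι, J ⊆ S ∧ J.card ≤ r ∧
      ∀ i ∈ S, c i ∈ Submodule.span O (c '' (J : Set ι)) := by
  intro r
  induction r with
  | zero =>
    intro c
    refine ⟨∅, by simp, by simp, ?_⟩
    intro i _
    rw [Subsingleton.elim (c i) 0]
    exact Submodule.zero_mem _
  | succ r ih =>
    intro c
    rcases S.eq_empty_or_nonempty with hS | hS
    · exact ⟨∅, by simp, by simp, by simp [hS]⟩
    obtain ⟨i₀, hi₀, hdiv⟩ := Elim_dvd_min (fun i => c i 0) S hS
    have hdiv' : ∀ i, ∃ q : O, i ∈ S → c i 0 = c i₀ 0 * q := by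
      intro i
      by_cases hi : i ∈ S
      · obtain ⟨q, hq⟩ := hdiv i hi
        exact ⟨q, fun _ => hq⟩
      · exact ⟨0, fun h => absurd h hi⟩
    choose q hq using hdiv'
    obtain ⟨J, hJS, hJc, hJ⟩ := ih (fun i k => c i k.succ - q i * c i₀ k.succ)
    refine ⟨insert i₀ J, ?_, ?_, ?_⟩
    · intro x hx
      rw [Finset.mem_insert] at hx
      rcases hx with rfl | hx
      · exact hi₀
      · exact hJS hx
    · exact (Finset.card_insert_le _ _).trans (Nat.succ_le_succ hJc)
    · intro i hi
      let ext : (Fin r → O) →ₗ[O] (Fin (r + 1) → O) :=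
        { toFun := fun w => Fin.cons 0 w
          map_add' := by
            intro x y
            funext k
            refine Fin.cases ?_ (fun k => ?_) k <;> simp
          map_smul' := by
            intro a x
            funext k
            refine Fin.cases ?_ (fun k => ?_) k <;> simp }
      have hext : ∀ l ∈ S, ext (fun k => c l k.succ - q l * c i₀ k.succ)
          = c l - q l • c i₀ := by
        intro l hl
        funext k
        refine Fin.cases ?_ (fun k => ?_) k
        · simp [ext, hq l hl, mul_comm]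
        · simp [ext]
      have hbase : c i₀ ∈ Submodule.span O (c '' ((insert i₀ J : Finset ι) : Set ι)) :=
        Submodule.subset_span ⟨i₀, by simp, rfl⟩
      have hmem : ext (fun k => c i k.succ - q i * c i₀ k.succ) ∈
          Submodule.span O (c '' ((insert i₀ J : Finset ι) : Set ι)) := by
        have h1 : ∀ w ∈ Submodule.span O
            ((fun i k => c i k.succ - q i * c i₀ k.succ : ι → Fin r → O) '' (J : Set ι)),
            ext w ∈ Submodule.span O (c '' ((insert i₀ J : Finset ι) : Set ι)) := by
          intro w hw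
          have h2 : Submodule.span O
              ((fun i k => c i k.succ - q i * c i₀ k.succ : ι → Fin r → O) '' (J : Set ι)) ≤
              (Submodule.span O (c '' ((insert i₀ J : Finset ι) : Set ι))).comap ext := by
            rw [Submodule.span_le]
            rintro _ ⟨l, hl, rfl⟩
            change ext (fun k => c l k.succ - q l * c i₀ k.succ) ∈
              Submodule.span O (c '' ((insert i₀ J : Finset ι) : Set ι))
            rw [hext l (hJS hl)]
            refine Submodule.sub_mem _ (Submodule.subset_span ⟨l, ?_, rfl⟩)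
              (Submodule.smul_mem _ _ hbase)
            simp only [Finset.coe_insert, Set.mem_insert_iff]
            exact Or.inr hl
          exact h2 hw
        exact h1 _ (hJ i hi)
      rw [hext i hi] at hmem
      have := Submodule.add_mem _ hmem (Submodule.smul_mem _ (q i) hbase)
      rwa [sub_add_cancel] at this

/-- Let `G i` (`i ∈ S`) be linear functionals on a finite free `O`-module `V` which are, modulo
`X ^ β`, combinations of `r` functionals `F k`. Then `r` of the `G i` are enough: if they vanish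
on `f`, all `G i f` are divisible by `X ^ β`. -/
theorem elimination {L : Type} [Field L] {V : Type} [AddCommGroup V] [Module L⟦X⟧ V]
    [Module.Free L⟦X⟧ V] [Module.Finite L⟦X⟧ V] {ι : Type} [DecidableEq ι]
    (S : Finset ι) (G : ι → V →ₗ[L⟦X⟧] L⟦X⟧) (r : ℕ) (F : Fin r → V →ₗ[L⟦X⟧] L⟦X⟧) (β : ℕ)
    (h : ∀ i ∈ S, ∃ c : Fin r → L⟦X⟧, ∀ v, (X : L⟦X⟧) ^ β ∣ G i v - ∑ k, c k * F k v) :
    ∃ J, J ⊆ S ∧ J.card ≤ r ∧ ∀ v, (∀ l ∈ J, G l v = 0) → ∀ i ∈ S, (X : L⟦X⟧) ^ β ∣ G i v := by
  have h' : ∀ i, ∃ c : Fin r → L⟦X⟧, i ∈ S → ∀ v, (X : L⟦X⟧) ^ β ∣ G i v - ∑ k, c k * F k v := by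
    intro i
    by_cases hi : i ∈ S
    · obtain ⟨c, hc⟩ := h i hi
      exact ⟨c, fun _ => hc⟩
    · exact ⟨0, fun h => absurd h hi⟩
  choose c hc using h'
  obtain ⟨J, hJS, hJc, hJ⟩ := Elim_span S r c
  refine ⟨J, hJS, hJc, ?_⟩
  intro v hv i hi
  let W : Submodule L⟦X⟧ (Fin r → L⟦X⟧) :=
    { carrier := {w | (X : L⟦X⟧) ^ β ∣ ∑ k, w k * F k v}
      add_mem' := by
        intro a b ha hb
        have : ∑ k, (a + b) k * F k v = ∑ k, a k * F k v + ∑ k, b k * F k v := by
          rw [← Finset.sum_add_distrib]
          exact Finset.sum_congr rfl fun k _ => by simp [add_mul]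
        change (X : L⟦X⟧) ^ β ∣ ∑ k, (a + b) k * F k v
        rw [this]
        exact dvd_add ha hb
      zero_mem' := by
        change (X : L⟦X⟧) ^ β ∣ ∑ k, (0 : Fin r → L⟦X⟧) k * F k v
        simp
      smul_mem' := by
        intro a b hb
        have : ∑ k, (a • b) k * F k v = a * ∑ k, b k * F k v := by
          rw [Finset.mul_sum]
          exact Finset.sum_congr rfl fun k _ => by simp [mul_assoc]
        change (X : L⟦X⟧) ^ β ∣ ∑ k, (a • b) k * F k v
        rw [this]
        exact Dvd.dvd.mul_left hb a }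
  have hW : Submodule.span L⟦X⟧ (c '' (J : Set ι)) ≤ W := by
    rw [Submodule.span_le]
    rintro _ ⟨l, hl, rfl⟩
    change (X : L⟦X⟧) ^ β ∣ ∑ k, c l k * F k v
    have h1 := hc l (hJS hl) v
    rw [hv l hl, zero_sub] at h1
    exact (dvd_neg.mp h1)
  have h2 : (X : L⟦X⟧) ^ β ∣ ∑ k, c i k * F k v := hW (hJ i hi)
  have h3 := dvd_add (hc i hi v) h2
  rwa [sub_add_cancel] at h3

end Pool.Agent.Lib_GD
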