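import Pool.Agent.Lib_GD.PhiDet
import Pool.Agent.Lib_GD.Elim

/-! K08: elimination for jets. -/

open PowerSeries

namespace Pool.Agent.Lib_GD

/-- Functionals which are independent modulo `X` are part of a basis. -/
private theorem ElimJet_extend {L : Type} [Field L] {Q : Type} [AddCommGroup Q] [Module L⟦X⟧ Q]
    {m : ℕ} (b : Module.Basis (Fin m) L⟦X⟧ Q) {A : Type} [Fintype A]
    (g : A → Q →ₗ[L⟦X⟧] L⟦X⟧)
    (hg : LinearIndependent L (fun α : A => fun k : Fin m => constantCoeff (g α (b k)))) :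
    ∃ (r : ℕ) (F : Fin r → Q →ₗ[L⟦X⟧] L⟦X⟧), r + Fintype.card A = m ∧
      ∀ φ : Q →ₗ[L⟦X⟧] L⟦X⟧, ∃ (a : A → L⟦X⟧) (c : Fin r → L⟦X⟧),
        φ = ∑ α, a α • g α + ∑ k, c k • F k := by
  classical
  set v : A → Fin m → L := fun α k => constantCoeff (g α (b k)) with hv
  set E' : Submodule L (Fin m → L) := Submodule.span L (Set.range v) with hE'
  have h1 : Module.finrank L E' = Fintype.card A := finrank_span_eq_card hg
  have h2 : Module.finrank L ((Fin m → L) ⧸ E') + Module.finrank L E' = m := by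
    rw [Submodule.finrank_quotient_add_finrank, Module.finrank_fin_fun]
  let bq := Module.finBasis L ((Fin m → L) ⧸ E')
  choose w hw using fun k => Submodule.mkQ_surjective E' (bq k)
  let F : Fin (Module.finrank L ((Fin m → L) ⧸ E')) → Q →ₗ[L⟦X⟧] L⟦X⟧ :=
    fun k => b.constr L⟦X⟧ (fun k' => C (w k k'))
  have hF : ∀ k k', F k (b k') = C (w k k') := fun k k' => b.constr_basis _ _ _
  refine ⟨_, F, by rw [← h1]; exact h2, ?_⟩
  haveI : Module.Free L⟦X⟧ Q := Module.Free.of_basis b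
  haveI : Module.Finite L⟦X⟧ Q := Module.Finite.of_basis b
  have hfg : (⊤ : Submodule L⟦X⟧ (Q →ₗ[L⟦X⟧] L⟦X⟧)).FG := Module.Finite.fg_top
  have hnak : (⊤ : Submodule L⟦X⟧ (Q →ₗ[L⟦X⟧] L⟦X⟧)) ≤
      Submodule.span L⟦X⟧ (Set.range (Sum.elim g F)) := by
    refine Submodule.le_of_le_smul_of_le_jacobson_bot (I := Ideal.span {(X : L⟦X⟧)}) hfg ?_ ?_
    · rw [IsLocalRing.jacobson_eq_maximalIdeal _ bot_ne_top, PowerSeries.maximalIdeal_eq_span_X]
    · intro φ _
      -- reduction modulo `X`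
      set x : Fin m → L := fun k => constantCoeff (φ (b k)) with hx
      have h3 : x - ∑ k, bq.repr (E'.mkQ x) k • w k ∈ E' := by
        rw [← Submodule.Quotient.mk_eq_zero, ← Submodule.mkQ_apply, map_sub, map_sum]
        simp only [map_smul, hw]
        rw [bq.sum_repr, sub_self]
      obtain ⟨a, ha⟩ := (Submodule.mem_span_range_iff_exists_fun L).1 h3
      set c : Fin (Module.finrank L ((Fin m → L) ⧸ E')) → L := fun k => bq.repr (E'.mkQ x) k
        with hc
      set ψ : Q →ₗ[L⟦X⟧] L⟦X⟧ := φ - ∑ α, (C (a α) : L⟦X⟧) • g α - ∑ k, (C (c k) : L⟦X⟧) • F k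
        with hψ
      have h4 : ∀ k', (X : L⟦X⟧) ∣ ψ (b k') := by
        intro k'
        rw [PowerSeries.X_dvd_iff]
        simp only [hψ, LinearMap.sub_apply, LinearMap.sum_apply, LinearMap.smul_apply,
          smul_eq_mul, map_sub, map_sum, map_mul, hF, PowerSeries.constantCoeff_C]
        have h5 := congrFun ha k'
        simp only [Finset.sum_apply, Pi.smul_apply, Pi.sub_apply, smul_eq_mul] at h5
        rw [h5]
        simp only [hx, hc]
        ring
      choose y hy using h4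
      have h6 : ψ = (X : L⟦X⟧) • b.constr L⟦X⟧ y := by
        refine b.ext fun k' => ?_
        rw [LinearMap.smul_apply, b.constr_basis, hy, smul_eq_mul]
      have h7 : φ = (∑ α, (C (a α) : L⟦X⟧) • g α + ∑ k, (C (c k) : L⟦X⟧) • F k) +
          (X : L⟦X⟧) • b.constr L⟦X⟧ y := by
        rw [← h6, hψ]
        abel
      rw [h7]
      refine Submodule.add_mem_sup (Submodule.add_mem _ ?_ ?_) ?_
      · exact Submodule.sum_mem _ fun α _ => Submodule.smul_mem _ _
          (Submodule.subset_span ⟨Sum.inl α, rfl⟩)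
      · exact Submodule.sum_mem _ fun k _ => Submodule.smul_mem _ _
          (Submodule.subset_span ⟨Sum.inr k, rfl⟩)
      · exact Submodule.smul_mem_smul (Ideal.mem_span_singleton_self _) Submodule.mem_top
  intro φ
  obtain ⟨a, ha⟩ := (Submodule.mem_span_range_iff_exists_fun L⟦X⟧).1 (hnak (Submodule.mem_top (x := φ)))
  refine ⟨fun α => a (Sum.inl α), fun k => a (Sum.inr k), ?_⟩
  rw [← ha, Fintype.sum_sum_type]
  rfl

/-- A non-injective map from `O^N` to a torsion-free module has a primitive vector in its kernel. -/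
private theorem ElimJet_primitive {L : Type} [Field L] {N : ℕ} {T : Type} [Fintype T]
    (Θ : (Fin N → L⟦X⟧) →ₗ[L⟦X⟧] (T → L⟦X⟧)) (hT : Fintype.card T < N) :
    ∃ f : Fin N → L⟦X⟧, Θ f = 0 ∧ ∃ i, constantCoeff (f i) ≠ 0 := by
  classical
  have h1 : ¬ Function.Injective Θ := by
    intro hinj
    have h2 := LinearMap.finrank_le_finrank_of_injective hinj
    rw [Module.finrank_fin_fun, Module.finrank_fintype_fun_eq_card] at h2
    omega
  rw [← LinearMap.ker_eq_bot, Submodule.eq_bot_iff] at h1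
  push_neg at h1
  obtain ⟨f, hf, hf0⟩ := h1
  rw [LinearMap.mem_ker] at hf
  obtain ⟨i₀, hi₀⟩ : ∃ i, f i ≠ 0 := by
    by_contra hcon
    push_neg at hcon
    exact hf0 (funext hcon)
  have hex : ∃ m : ℕ, ¬ ∀ i, (X : L⟦X⟧) ^ m ∣ f i := by
    by_contra hcon
    push_neg at hcon
    apply hi₀
    ext m
    have h3 := hcon (m + 1) i₀
    rw [PowerSeries.X_pow_dvd_iff] at h3
    rw [h3 m (Nat.lt_succ_self m), map_zero]
  have hm := Nat.find_spec hex
  have hm' : ∀ k, k < Nat.find hex → ∀ i, (X : L⟦X⟧) ^ k ∣ f i := fun k hk => by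
    have := Nat.find_min hex hk
    push_neg at this
    exact this
  obtain ⟨k, hk⟩ : ∃ k, Nat.find hex = k + 1 := by
    refine Nat.exists_eq_succ_of_ne_zero ?_
    intro h0
    rw [h0] at hm
    exact hm fun i => by simp
  rw [hk] at hm
  choose g hg using hm' k (by omega)
  have hX : (X : L⟦X⟧) ^ k ≠ 0 := pow_ne_zero _ PowerSeries.X_ne_zero
  refine ⟨g, ?_, ?_⟩
  · have h4 : f = (X : L⟦X⟧) ^ k • g := funext fun i => hg i
    rw [h4, map_smul] at hf
    funext t
    have h5 := congrFun hf t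
    simp only [Pi.smul_apply, smul_eq_mul, Pi.zero_apply, mul_eq_zero] at h5
    exact h5.resolve_left hX
  · by_contra hcon
    push_neg at hcon
    apply hm
    intro i
    obtain ⟨y, hy⟩ := PowerSeries.X_dvd_iff.2 (hcon i)
    exact ⟨y, by rw [hg i, hy, pow_succ, mul_assoc]⟩

namespace ArcSystem

variable {L : Type} [Field L] [Algebra ℂ L] {n N : ℕ} (Γ : ArcSystem L n N)

/-- K07a: if the jets of order `< q` at `x_j` of all `f ∈ W_S` are divisible by `X ^ β`, `β ≥ 1`,
then there are `J ⊆ S` and at least `#{|α| < q}` points `i ∈ S \ J` such that `f(x_i)` is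
divisible by `X ^ β` for every `f` with vanishing jets of order `< q` at `x_j` and `f(x_J) = 0`;
and there is such an `f` which is non-zero modulo `X`. -/
theorem exists_elim (hdet : Γ.det ≠ 0) {q : ℕ} (hq : Γ.HSep q) (S : Finset (Fin N)) (j : Fin N)
    (hj : j ∉ S) (β : ℕ) (hβ : 1 ≤ β)
    (h : ∀ f ∈ Γ.W S, ∀ α : Fin n →₀ ℕ, α.degree < q → (X : L⟦X⟧) ^ β ∣ Γ.ev j α f) :
    ∃ J, J ⊆ S ∧ J.card + Nat.card {α : Fin n →₀ ℕ // α.degree < q} ≤ S.card ∧
      (∀ f : Fin N → L⟦X⟧, (∀ α : Fin n →₀ ℕ, α.degree < q → Γ.ev j α f = 0) →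
        (∀ i ∈ J, Γ.ev i 0 f = 0) → ∀ i ∈ S, (X : L⟦X⟧) ^ β ∣ Γ.ev i 0 f) ∧
      ∃ f : Fin N → L⟦X⟧, (∀ α : Fin n →₀ ℕ, α.degree < q → Γ.ev j α f = 0) ∧
        (∀ i ∈ J, Γ.ev i 0 f = 0) ∧ ∃ i, constantCoeff (f i) ≠ 0 := by
  classical
  have hfinA : Finite {α : Fin n →₀ ℕ // α.degree < q} := (hq j).finite
  letI : Fintype {α : Fin n →₀ ℕ // α.degree < q} := Fintype.ofFinite _
  -- evaluation at the points of `S`
  let evS : (Fin N → L⟦X⟧) →ₗ[L⟦X⟧] (S → L⟦X⟧) := LinearMap.pi fun i : S => Γ.ev i 0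
  let Q := LinearMap.range evS
  let π := evS.rangeRestrict
  have hπ : Function.Surjective π := LinearMap.surjective_rangeRestrict _
  let b := Module.finBasis L⟦X⟧ Q
  have hQ : Module.finrank L⟦X⟧ Q ≤ S.card := by
    refine (Submodule.finrank_le Q).trans (le_of_eq ?_)
    rw [Module.finrank_fintype_fun_eq_card, Fintype.card_coe]
  obtain ⟨s, hs⟩ := Module.projective_lifting_property π LinearMap.id hπ
  have hs' : ∀ y, π (s y) = y := fun y => LinearMap.congr_fun hs y
  have hW : ∀ f, π f = 0 → f ∈ Γ.W S := by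
    intro f hf i hi
    have h1 : evS f = 0 := by
      have := congrArg Subtype.val hf
      exact this
    exact congrFun h1 ⟨i, hi⟩
  have hker : ∀ f, f - s (π f) ∈ Γ.W S := by
    intro f
    apply hW
    rw [map_sub, hs', sub_self]
  -- the jets as functionals on `Q`
  let g : {α : Fin n →₀ ℕ // α.degree < q} → Q →ₗ[L⟦X⟧] L⟦X⟧ := fun α => (Γ.ev j α.1) ∘ₗ s
  have hX1 : (X : L⟦X⟧) ∣ X ^ β := dvd_pow_self _ (by omega)
  have hg : LinearIndependent L (fun α : {α : Fin n →₀ ℕ // α.degree < q} =>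
      fun k => constantCoeff (g α (b k))) := by
    rw [Fintype.linearIndependent_iff]
    intro a ha
    have h1 := Fintype.linearIndependent_iff.1 (hq j) a
    apply h1
    let Ψ : (Fin N → L⟦X⟧) →ₗ[L⟦X⟧] L⟦X⟧ := ∑ α : {α : Fin n →₀ ℕ // α.degree < q},
      (C (a α) : L⟦X⟧) • Γ.ev j α.1
    have hΨ : ∀ f, Ψ f = ∑ α : {α : Fin n →₀ ℕ // α.degree < q}, C (a α) * Γ.ev j α.1 f := by
      intro f
      simp only [Ψ, LinearMap.sum_apply, LinearMap.smul_apply, smul_eq_mul]
    have h2 : ∀ k, (X : L⟦X⟧) ∣ (Ψ ∘ₗ s) (b k) := by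
      intro k
      rw [LinearMap.comp_apply, hΨ, PowerSeries.X_dvd_iff, map_sum]
      have h3 := congrFun ha k
      simp only [Finset.sum_apply, Pi.smul_apply, smul_eq_mul, Pi.zero_apply] at h3
      rw [← h3]
      refine Finset.sum_congr rfl fun α _ => ?_
      rw [map_mul, PowerSeries.constantCoeff_C]
      rfl
    have h4 : ∀ y, (X : L⟦X⟧) ∣ (Ψ ∘ₗ s) y := by
      intro y
      rw [← b.sum_repr y, map_sum]
      refine Finset.dvd_sum fun k _ => ?_
      rw [map_smul, smul_eq_mul]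
      exact Dvd.dvd.mul_left (h2 k) _
    have h5 : ∀ f, (X : L⟦X⟧) ∣ Ψ f := by
      intro f
      have h6 : Ψ f = (Ψ ∘ₗ s) (π f) + Ψ (f - s (π f)) := by
        rw [LinearMap.comp_apply, map_sub]
        ring
      rw [h6]
      refine dvd_add (h4 _) ?_
      rw [hΨ]
      refine Finset.dvd_sum fun α _ => ?_
      exact Dvd.dvd.mul_left (hX1.trans (h _ (hker f) α.1 α.2)) _
    funext i
    have h7 := h5 (Pi.single i 1)
    rw [hΨ, PowerSeries.X_dvd_iff, map_sum] at h7
    simp only [Finset.sum_apply, Pi.smul_apply, smul_eq_mul, Pi.zero_apply]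
    rw [← h7]
    refine Finset.sum_congr rfl fun α _ => ?_
    rw [map_mul, PowerSeries.constantCoeff_C]
    congr 2
    simp [ev, Pi.single_apply]
  obtain ⟨r, F, hr, hF⟩ := ElimJet_extend b g hg
  -- the sections with vanishing jets
  let V' : Submodule L⟦X⟧ (Fin N → L⟦X⟧) :=
    ⨅ α : {α : Fin n →₀ ℕ // α.degree < q}, LinearMap.ker (Γ.ev j α.1)
  have hV' : ∀ f, f ∈ V' ↔ ∀ α : Fin n →₀ ℕ, α.degree < q → Γ.ev j α f = 0 := by
    intro f
    simp only [V', Submodule.mem_iInf, LinearMap.mem_ker, Subtype.forall]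
  obtain ⟨J, hJS, hJr, hJ⟩ := elimination (V := V') S (fun i => (Γ.ev i 0).domRestrict V') r
    (fun k => ((F k) ∘ₗ π).domRestrict V') β (by
      intro i hi
      -- the functional of `i` on `Q`
      let φ : Q →ₗ[L⟦X⟧] L⟦X⟧ := (LinearMap.proj (⟨i, hi⟩ : S)) ∘ₗ Q.subtype
      have hφ : ∀ f, φ (π f) = Γ.ev i 0 f := fun f => rfl
      obtain ⟨a, c, hac⟩ := hF φ
      refine ⟨c, fun v => ?_⟩
      have h8 : Γ.ev i 0 v.1 = ∑ α, a α * g α (π v.1) + ∑ k, c k * F k (π v.1) := by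
        rw [← hφ, hac]
        simp only [LinearMap.add_apply, LinearMap.sum_apply, LinearMap.smul_apply, smul_eq_mul]
      simp only [LinearMap.domRestrict_apply, LinearMap.comp_apply]
      rw [h8, add_sub_cancel_right]
      refine Finset.dvd_sum fun α _ => Dvd.dvd.mul_left ?_ _
      have h9 := h _ (hker v.1) α.1 α.2
      rw [map_sub, (hV' v.1).1 v.2 α.1 α.2, zero_sub, dvd_neg] at h9
      exact h9)
  have hcard : J.card + Nat.card {α : Fin n →₀ ℕ // α.degree < q} ≤ S.card := by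
    rw [Nat.card_eq_fintype_card]
    omega
  have hSN : S.card < N := by
    have h10 : S.card < (Finset.univ : Finset (Fin N)).card :=
      Finset.card_lt_card ⟨Finset.subset_univ _, fun hsub => hj (hsub (Finset.mem_univ j))⟩
    rwa [Finset.card_univ, Fintype.card_fin] at h10
  refine ⟨J, hJS, hcard, ?_, ?_⟩
  · intro f hf hfJ i hi
    exact hJ ⟨f, (hV' f).2 hf⟩ (fun l hl => hfJ l hl) i hi
  · let Θ : (Fin N → L⟦X⟧) →ₗ[L⟦X⟧] (J ⊕ {α : Fin n →₀ ℕ // α.degree < q} → L⟦X⟧) :=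
      LinearMap.pi fun t => Sum.elim (fun i : J => Γ.ev i 0)
        (fun α : {α : Fin n →₀ ℕ // α.degree < q} => Γ.ev j α.1) t
    obtain ⟨f, hf, hf1⟩ := ElimJet_primitive Θ (by
      rw [Fintype.card_sum, Fintype.card_coe, ← Nat.card_eq_fintype_card]
      omega)
    refine ⟨f, fun α hα => ?_, fun i hi => ?_, hf1⟩
    · exact congrFun hf (Sum.inr ⟨α, hα⟩)
    · exact congrFun hf (Sum.inl ⟨i, hi⟩)

end ArcSystem

end Pool.Agent.Lib_GD
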