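import Pool.Agent.Lib_GD.OkGeom

/-! P08: the graded semigroup with adapted bases. -/

open scoped ENNReal

namespace Pool.Agent.Lib_GD

/-- Vectors with different leading exponents are independent. -/
theorem okBasis_linearIndependent {V : Type} [AddCommGroup V] [Module ℂ V] {Λ : Type}
    [LinearOrder Λ] [Fintype Λ] (c : Λ → V →ₗ[ℂ] ℂ) (v : Λ → V) (h1 : ∀ γ, c γ (v γ) ≠ 0)
    (h2 : ∀ γ, ∀ α < γ, c α (v γ) = 0) : LinearIndependent ℂ v := by
  classical
  rw [Fintype.linearIndependent_iff]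
  intro a ha
  by_contra hcon
  push Not at hcon
  obtain ⟨γ₁, hγ₁⟩ := hcon
  obtain ⟨γ, hγ, hmin⟩ := (Finset.univ.filter fun γ => a γ ≠ 0).exists_min_image id
    ⟨γ₁, by simpa using hγ₁⟩
  have h3 := congrArg (c γ) ha
  rw [map_sum, map_zero, Finset.sum_eq_single γ] at h3
  · rw [map_smul, smul_eq_mul, mul_eq_zero] at h3
    rcases h3 with h3 | h3
    · exact (Finset.mem_filter.1 hγ).2 h3
    · exact h1 γ h3
  · intro β _ hβ
    rw [map_smul, smul_eq_mul]
    by_cases hβ0 : a β = 0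
    · rw [hβ0, zero_mul]
    · have := hmin β (by simpa using hβ0)
      rw [h2 β γ (lt_of_le_of_ne this (Ne.symm hβ)), mul_zero]
  · intro hcon
    exact absurd (Finset.mem_univ _) hcon

/-- Adapted bases. -/
theorem okBasis_exists {V : Type} [AddCommGroup V] [Module ℂ V] [Module.Finite ℂ V]
    (f : V → ℕ∞) (U : ℕ → Submodule ℂ V) (hU : ∀ k v, v ∈ U k ↔ (k : ℕ∞) ≤ f v)
    (hf : ∀ v, v ≠ 0 → f v ≠ ⊤) :
    ∃ (b : Fin (Module.finrank ℂ V) → V) (g : Fin (Module.finrank ℂ V) → ℕ),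
      LinearIndependent ℂ b ∧ (∀ i, f (b i) = g i) ∧
        ∀ k : ℕ, (Finset.univ.filter fun i => k ≤ g i).card = Module.finrank ℂ (U k) := by
  classical
  let B := Module.finBasis ℂ V
  obtain ⟨Γ, g, h1, h2, h3, h4, h5, h6⟩ := exists_leading (V := V)
    (Λ := Fin (Module.finrank ℂ V)) (fun i => B.coord i)
    (fun v hv => B.ext_elem fun i => by simpa using hv i) f U hU hf
  have hΓ : Γ = Finset.univ := by
    rw [← Finset.card_eq_iff_eq_univ, h1, Fintype.card_fin]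
  subst hΓ
  choose v hv1 hv2 hv3 using fun γ => h3 γ (Finset.mem_univ γ)
  exact ⟨v, g, okBasis_linearIndependent _ v hv1 hv2, hv3, h5⟩

/-- A sum of natural numbers from its counting function. -/
theorem okBasis_sum {ι : Type} (s : Finset ι) (g : ι → ℕ) (K : ℕ) (hK : ∀ i ∈ s, g i ≤ K) :
    ∑ i ∈ s, g i = ∑ k ∈ Finset.range K, (s.filter fun i => k + 1 ≤ g i).card := by
  classical
  simp only [Finset.card_filter]
  rw [Finset.sum_comm]
  refine Finset.sum_congr rfl fun i hi => ?_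
  rw [← Finset.card_filter]
  have : (Finset.range K).filter (fun k => k + 1 ≤ g i) = Finset.range (g i) := by
    ext k
    simp only [Finset.mem_filter, Finset.mem_range]
    have := hK i hi
    omega
  rw [this, Finset.card_range]

variable {R : Type} [CommRing R] [Algebra ℂ R] {𝒜 : ℕ → Submodule ℂ R} [GradedAlgebra 𝒜]
  {n : ℕ}

/-- P08: as `exists_okData`, and there are bases of `𝒜 m` adapted to the filtration of `E`. -/
theorem exists_okData_basis (h : IsSmoothPolarised 𝒜 n) (hn : 1 ≤ n) :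
    ∃ D : OkData n, (∀ m, 1 ≤ m → (D.Γ m).card = secDim 𝒜 m) ∧
      ∀ E : DivisorOver 𝒜 n 1, ∃ g : ℕ → (Fin n → ℕ) → ℕ, D.IsWeight g ∧
        (∀ m, 1 ≤ m → ∀ r : ℝ, D.cnt g m r = Module.finrank ℂ (E.filt 𝒜 m r)) ∧
        ∀ m, 1 ≤ m → ∃ b : Fin (secDim 𝒜 m) → R, (∀ i, b i ∈ 𝒜 m) ∧ LinearIndependent ℂ b ∧
          ∑ i, E.ord (E.φ 0 (b i)) = (∑ γ ∈ D.Γ m, g m γ : ℕ) := by
  classical
  obtain ⟨D, hD, hE⟩ := exists_okData h hn
  refine ⟨D, hD, fun E => ?_⟩
  obtain ⟨g, hg, hcnt, -⟩ := hE E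
  refine ⟨g, hg, hcnt, fun m hm => ?_⟩
  have := finite_graded h m
  have hord : ∀ (k : ℕ) (s : R), ENNReal.ofReal k ≤ (E.ord (E.φ 0 s) : ℝ≥0∞) ↔
      (k : ℕ∞) ≤ E.ord (E.φ 0 s) := by
    intro k s
    rw [ENNReal.ofReal_natCast]
    rw [← ENat.toENNReal_coe, ENat.toENNReal_le]
  obtain ⟨b, g', hb, hbg, hc⟩ := okBasis_exists (V := 𝒜 m) (fun v => E.ord (E.φ 0 v))
    (fun k => (E.filt 𝒜 m k).comap (𝒜 m).subtype) (by
      intro k v
      rw [Submodule.mem_comap]
      constructor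
      · intro hv
        exact (hord k v).1 hv.2
      · intro hv
        exact ⟨v.2, (hord k v).2 hv⟩) (by
      intro v hv
      exact E.ord_ne_top h hn m v v.2 (by simpa using hv))
  have hfin : ∀ k : ℕ, Module.finrank ℂ ((E.filt 𝒜 m k).comap (𝒜 m).subtype) =
      Module.finrank ℂ (E.filt 𝒜 m k) := by
    intro k
    have hle : E.filt 𝒜 m k ≤ 𝒜 m := fun s hs => hs.1
    exact LinearEquiv.finrank_eq (Submodule.comapSubtypeEquivOfLe hle)
  refine ⟨fun i => b i, fun i => (b i).2, ?_, ?_⟩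
  · exact hb.map' (𝒜 m).subtype (Submodule.ker_subtype _)
  · have e1 : ∑ i, E.ord (E.φ 0 (b i)) = ((∑ i, g' i : ℕ) : ℕ∞) := by
      push_cast
      exact Finset.sum_congr rfl fun i _ => hbg i
    refine e1.trans ?_
    congr 1
    obtain ⟨K, hK1, hK2⟩ : ∃ K, (∀ i ∈ (Finset.univ : Finset (Fin (secDim 𝒜 m))), g' i ≤ K) ∧
        ∀ γ ∈ D.Γ m, g m γ ≤ K := by
      refine ⟨∑ i, g' i + ∑ γ ∈ D.Γ m, g m γ, fun i hi => ?_, fun γ hγ => ?_⟩
      · have h0 : g' i ≤ ∑ i, g' i :=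
          Finset.single_le_sum (f := g') (fun i _ => Nat.zero_le _) (Finset.mem_univ i)
        exact h0.trans (Nat.le_add_right _ _)
      · have := Finset.single_le_sum (f := g m) (fun i _ => Nat.zero_le _) hγ
        omega
    have e2 := okBasis_sum _ g' K hK1
    have e3 := okBasis_sum _ (g m) K hK2
    rw [e3]
    refine e2.trans (Finset.sum_congr rfl fun k _ => ?_)
    have e4 := hc (k + 1)
    have e5 := hcnt m hm ((k + 1 : ℕ) : ℝ)
    rw [hfin] at e4
    refine e4.trans (e5.symm.trans ?_)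
    unfold OkData.cnt
    congr 1
    ext γ
    simp only [Finset.mem_filter, Nat.cast_le]

end Pool.Agent.Lib_GD
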