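import Pool.Agent.Lib_GD.OkMain

/-! P09: `S ≤ liminf S_m`. -/

open scoped ENNReal
open MeasureTheory

namespace Pool.Agent.Lib_GD.OkData

variable {n : ℕ} (D : OkData n)

private lemma OkLower_step (g : ℕ → (Fin n → ℕ) → ℕ) (hg : D.IsWeight g) (l t : ℝ)
    (ht : 0 < t) (θ : ℝ) (hθ : 0 < θ) (hθ1 : θ < 1) (hθl : l < 1 - θ) :
    ENNReal.ofReal ((1 - θ) ^ n) * D.volt g t ≤
      Filter.liminf (fun M : ℕ => ((n.factorial * D.cnt g M (l * t * M) : ℕ) : ℝ≥0∞) /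
        (M : ℝ≥0∞) ^ n) Filter.atTop := by
  obtain ⟨m₃, hm₃⟩ := exists_nat_ge (((n : ℝ) / θ + 1) / D.c)
  set Λ : ℝ≥0∞ := Filter.liminf (fun M : ℕ => (D.cnt g M (l * t * M) : ℝ≥0∞) /
    (M : ℝ≥0∞) ^ n) Filter.atTop with hΛ
  have e2 : Filter.liminf (fun M : ℕ => ((n.factorial * D.cnt g M (l * t * M) : ℕ) : ℝ≥0∞) /
      (M : ℝ≥0∞) ^ n) Filter.atTop = (n.factorial : ℝ≥0∞) * Λ := by
    rw [hΛ, ← ENNReal.liminf_const_mul_of_ne_top (ENNReal.natCast_ne_top _)]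
    congr 1
    funext M
    rw [Nat.cast_mul, mul_div_assoc]
  rw [e2]
  have e1 : D.volt g t = (n.factorial : ℝ≥0∞) * Filter.limsup (fun M : ℕ =>
      (D.cnt g M (t * M) : ℝ≥0∞) / (M : ℝ≥0∞) ^ n) Filter.atTop := by
    rw [← ENNReal.limsup_const_mul_of_ne_top (ENNReal.natCast_ne_top _)]
    unfold volt
    congr 1
    funext M
    rw [Nat.cast_mul, mul_div_assoc]
  rw [e1, mul_left_comm]
  gcongr
  rw [← ENNReal.limsup_const_mul_of_ne_top ENNReal.ofReal_ne_top]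
  refine Filter.limsup_le_of_le (by isBoundedDefault) ?_
  filter_upwards [Filter.eventually_ge_atTop (max m₃ D.m₀)] with m hm
  have hmm₃ : m₃ ≤ m := (le_max_left _ _).trans hm
  have hmm₀ : D.m₀ ≤ m := (le_max_right _ _).trans hm
  have hm1 : 1 ≤ m := D.hm₀.trans hmm₀
  have hm0 : (0 : ℝ) < m := by exact_mod_cast hm1
  have hθm : (n : ℝ) / θ ≤ D.c * m - 1 := by
    have h1 : ((n : ℝ) / θ + 1) / D.c ≤ m := hm₃.trans (by exact_mod_cast hmm₃)
    rw [div_le_iff₀ D.hc] at h1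
    linarith
  have h1 := D.cnt_le_volume g m hmm₀ θ hθ hθ1 hθm (t * m) (by positivity)
  have h2 := D.count_lower g hg m hmm₀ ((1 - θ) * (t * m)) (l * t)
    (Or.inl (by
      have h3 : 0 < t * m := by positivity
      nlinarith))
  refine le_trans ?_ h2
  rw [← mul_div_assoc]
  refine ENNReal.div_le_div_right (le_trans ?_ h1) _
  have h3 : (0 : ℝ) ≤ 1 - θ := by linarith
  rw [ENNReal.ofReal_mul (by positivity), ENNReal.ofReal_natCast]

private lemma OkLower_key (g : ℕ → (Fin n → ℕ) → ℕ) (hg : D.IsWeight g) (l t : ℝ)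
    (hl : l < 1) (ht : 0 < t) :
    D.volt g t ≤ Filter.liminf (fun M : ℕ => ((n.factorial * D.cnt g M (l * t * M) : ℕ) : ℝ≥0∞) /
        (M : ℝ≥0∞) ^ n) Filter.atTop := by
  set Λ := Filter.liminf (fun M : ℕ => ((n.factorial * D.cnt g M (l * t * M) : ℕ) : ℝ≥0∞) /
        (M : ℝ≥0∞) ^ n) Filter.atTop with hΛ
  have hlim : Filter.Tendsto (fun θ : ℝ => ENNReal.ofReal ((1 - θ) ^ n) * D.volt g t)
      (nhdsWithin 0 (Set.Ioi 0)) (nhds (ENNReal.ofReal ((1 - 0) ^ n) * D.volt g t)) := by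
    refine ENNReal.Tendsto.mul_const ?_ (Or.inl (by simp))
    refine (Continuous.tendsto ?_ 0).mono_left nhdsWithin_le_nhds
    exact ENNReal.continuous_ofReal.comp ((continuous_const.sub continuous_id).pow n)
  rw [sub_zero, one_pow, ENNReal.ofReal_one, one_mul] at hlim
  refine le_of_tendsto hlim ?_
  have : Set.Ioo (0 : ℝ) (min 1 (1 - l)) ∈ nhdsWithin (0 : ℝ) (Set.Ioi 0) :=
    Ioo_mem_nhdsGT (lt_min one_pos (by linarith))
  filter_upwards [this] with θ hθ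
  have h1 : θ < 1 := lt_of_lt_of_le hθ.2 (min_le_left _ _)
  have h2 : θ < 1 - l := lt_of_lt_of_le hθ.2 (min_le_right _ _)
  exact OkLower_step D g hg l t ht θ hθ.1 h1 (by linarith)

open Classical in
private lemma OkLower_cnt (g : ℕ → (Fin n → ℕ) → ℕ) (M : ℕ) (hM : 1 ≤ M) (l : ℝ) (hl : 0 < l) :
    ∫⁻ t in Set.Ioi (0 : ℝ), (D.cnt g M (l * t * M) : ℝ≥0∞) =
      ((∑ γ ∈ D.Γ M, g M γ : ℕ) : ℝ≥0∞) / (ENNReal.ofReal l * M) := by
  have hM0 : (0 : ℝ) < M := by exact_mod_cast hM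
  have h1 : ∀ t : ℝ, (D.cnt g M (l * t * M) : ℝ≥0∞) =
      ∑ γ ∈ D.Γ M, (Set.Iic ((g M γ : ℝ) / (l * M))).indicator (fun _ => (1 : ℝ≥0∞)) t := by
    intro t
    unfold cnt
    rw [Finset.card_filter, Nat.cast_sum]
    refine Finset.sum_congr rfl fun γ _ => ?_
    by_cases h : l * t * M ≤ (g M γ : ℝ)
    · rw [if_pos h, Set.indicator_of_mem, Nat.cast_one]
      rw [Set.mem_Iic, le_div_iff₀ (by positivity)]
      linarith
    · rw [if_neg h, Set.indicator_of_notMem, Nat.cast_zero]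
      rw [Set.mem_Iic, le_div_iff₀ (by positivity)]
      intro h'
      exact h (by linarith)
  simp only [h1]
  rw [lintegral_finsetSum _ fun γ _ => measurable_const.indicator measurableSet_Iic]
  have h2 : ∀ γ, ∫⁻ t in Set.Ioi (0 : ℝ), (Set.Iic ((g M γ : ℝ) / (l * M))).indicator
      (fun _ => (1 : ℝ≥0∞)) t = (g M γ : ℝ≥0∞) / (ENNReal.ofReal l * M) := by
    intro γ
    rw [lintegral_indicator measurableSet_Iic, Measure.restrict_restrict measurableSet_Iic,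
      setLIntegral_const, one_mul, Set.inter_comm, Set.Ioi_inter_Iic, Real.volume_Ioc, sub_zero,
      ENNReal.ofReal_div_of_pos (by positivity), ENNReal.ofReal_natCast,
      ENNReal.ofReal_mul hl.le, ENNReal.ofReal_natCast]
  simp only [h2]
  rw [Nat.cast_sum]
  simp only [div_eq_mul_inv]
  rw [Finset.sum_mul]

/-- P09: `S ≤ liminf S_m`. Proof: for `0 < l < 1` and `t > 0`, `volt t ≤ liminf_M n! cnt M (l t M)
/ M ^ n` by `cnt_le_volume` and `count_lower`; Fatou, and `∫_0^∞ cnt M (l t M) dt =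
(∑ g) / (l M)`. -/
theorem S_le_liminf (g : ℕ → (Fin n → ℕ) → ℕ) (hg : D.IsWeight g) :
    D.S g ≤ Filter.liminf (fun m : ℕ => ((∑ γ ∈ D.Γ m, g m γ : ℕ) : ℝ≥0∞) /
      ((m * (D.Γ m).card : ℕ) : ℝ≥0∞)) Filter.atTop := by
  classical
  set a : ℕ → ℝ≥0∞ := fun m : ℕ => ((∑ γ ∈ D.Γ m, g m γ : ℕ) : ℝ≥0∞) /
      ((m * (D.Γ m).card : ℕ) : ℝ≥0∞) with ha
  set V : ℕ → ℝ≥0∞ := fun m : ℕ => ((n.factorial * (D.Γ m).card : ℕ) : ℝ≥0∞) /
    (m : ℝ≥0∞) ^ n with hV
  have hvol : D.vol = Filter.limsup V Filter.atTop := rfl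
  -- the estimate for every `l < 1`
  have key : ∀ l : ℝ, 0 < l → l < 1 → ENNReal.ofReal l * D.S g ≤
      Filter.liminf a Filter.atTop := by
    intro l hl0 hl
    have hlE : ENNReal.ofReal l ≠ 0 := (ENNReal.ofReal_pos.2 hl0).ne'
    have hlT : ENNReal.ofReal l ≠ ⊤ := ENNReal.ofReal_ne_top
    have h1 : (∫⁻ t in Set.Ioi (0 : ℝ), D.volt g t) ≤ ∫⁻ t in Set.Ioi (0 : ℝ),
        Filter.liminf (fun M : ℕ => ((n.factorial * D.cnt g M (l * t * M) : ℕ) : ℝ≥0∞) /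
          (M : ℝ≥0∞) ^ n) Filter.atTop := by
      refine lintegral_mono_ae ?_
      refine (ae_restrict_iff' measurableSet_Ioi).2 (Filter.Eventually.of_forall fun t ht => ?_)
      exact OkLower_key D g hg l t hl ht
    have hmeas : ∀ M : ℕ, Measurable fun t : ℝ =>
        ((n.factorial * D.cnt g M (l * t * M) : ℕ) : ℝ≥0∞) / (M : ℝ≥0∞) ^ n := by
      intro M
      refine Antitone.measurable fun s t hst => ?_
      have h1 : D.cnt g M (l * t * M) ≤ D.cnt g M (l * s * M) := by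
        unfold cnt
        refine Finset.card_le_card fun γ hγ => ?_
        rw [Finset.mem_filter] at hγ ⊢
        refine ⟨hγ.1, le_trans ?_ hγ.2⟩
        have : l * s ≤ l * t := mul_le_mul_of_nonneg_left hst hl0.le
        exact mul_le_mul_of_nonneg_right this (Nat.cast_nonneg M)
      refine ENNReal.div_le_div_right ?_ _
      exact_mod_cast Nat.mul_le_mul_left _ h1
    have h2 := lintegral_liminf_le (μ := volume.restrict (Set.Ioi (0 : ℝ)))
      (u := Filter.atTop) hmeas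
    have h3 : Filter.liminf (fun M : ℕ => ∫⁻ t in Set.Ioi (0 : ℝ),
        ((n.factorial * D.cnt g M (l * t * M) : ℕ) : ℝ≥0∞) / (M : ℝ≥0∞) ^ n) Filter.atTop =
        (ENNReal.ofReal l)⁻¹ * Filter.liminf (V * a) Filter.atTop := by
      rw [← ENNReal.liminf_const_mul_of_ne_top (ENNReal.inv_ne_top.2 hlE)]
      refine Filter.liminf_congr ?_
      filter_upwards [Filter.eventually_ge_atTop 1] with M hM
      have hME : (M : ℝ≥0∞) ≠ 0 := by exact_mod_cast (by omega : M ≠ 0)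
      have hMT : (M : ℝ≥0∞) ≠ ⊤ := ENNReal.natCast_ne_top M
      have e1 : ∫⁻ t in Set.Ioi (0 : ℝ),
          ((n.factorial * D.cnt g M (l * t * M) : ℕ) : ℝ≥0∞) / (M : ℝ≥0∞) ^ n =
          ((n.factorial : ℝ≥0∞) / (M : ℝ≥0∞) ^ n) *
            ∫⁻ t in Set.Ioi (0 : ℝ), (D.cnt g M (l * t * M) : ℝ≥0∞) := by
        rw [← lintegral_const_mul']
        · refine lintegral_congr fun t => ?_
          rw [Nat.cast_mul, ENNReal.mul_div_right_comm]
        · exact ENNReal.div_ne_top (ENNReal.natCast_ne_top _) (pow_ne_zero _ hME)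
      rw [e1, OkLower_cnt D g M hM l hl0]
      simp only [Pi.mul_apply, hV, ha]
      rcases Nat.eq_zero_or_pos (D.Γ M).card with hc | hc
      · have h0 : D.Γ M = ∅ := Finset.card_eq_zero.1 hc
        simp [h0]
      · have hcE : ((D.Γ M).card : ℝ≥0∞) ≠ 0 := by
          exact_mod_cast (by omega : (D.Γ M).card ≠ 0)
        have hcT : ((D.Γ M).card : ℝ≥0∞) ≠ ⊤ := ENNReal.natCast_ne_top _
        generalize ((∑ γ ∈ D.Γ M, g M γ : ℕ) : ℝ≥0∞) = Y
        rw [Nat.cast_mul, Nat.cast_mul]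
        generalize ((D.Γ M).card : ℝ≥0∞) = c at hcE hcT
        generalize (n.factorial : ℝ≥0∞) = f
        generalize ENNReal.ofReal l = L at hlE hlT
        generalize (M : ℝ≥0∞) ^ n = Q
        rw [div_eq_mul_inv, div_eq_mul_inv, div_eq_mul_inv, div_eq_mul_inv,
          ENNReal.mul_inv (Or.inl hlE) (Or.inl hlT), ENNReal.mul_inv (Or.inl hME) (Or.inl hMT)]
        have hcc : c * c⁻¹ = 1 := ENNReal.mul_inv_cancel hcE hcT
        calc f * Q⁻¹ * (Y * (L⁻¹ * (M : ℝ≥0∞)⁻¹))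
            = f * Q⁻¹ * (Y * (L⁻¹ * (M : ℝ≥0∞)⁻¹)) * 1 := (mul_one _).symm
          _ = f * Q⁻¹ * (Y * (L⁻¹ * (M : ℝ≥0∞)⁻¹)) * (c * c⁻¹) := by rw [hcc]
          _ = L⁻¹ * (f * c * Q⁻¹ * (Y * ((M : ℝ≥0∞)⁻¹ * c⁻¹))) := by ring
    have h4 : Filter.liminf (V * a) Filter.atTop ≤ D.vol * Filter.liminf a Filter.atTop := by
      rw [hvol]
      exact ENNReal.liminf_mul_le (Or.inl D.vol_ne_zero) (Or.inl D.vol_ne_top)
    have h5 : (∫⁻ t in Set.Ioi (0 : ℝ), D.volt g t) ≤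
        (ENNReal.ofReal l)⁻¹ * (D.vol * Filter.liminf a Filter.atTop) := by
      refine h1.trans (h2.trans ?_)
      rw [h3]
      gcongr
    unfold OkData.S
    rw [← mul_div_assoc]
    refine ENNReal.div_le_of_le_mul ?_
    calc ENNReal.ofReal l * ∫⁻ t in Set.Ioi (0 : ℝ), D.volt g t
        ≤ ENNReal.ofReal l * ((ENNReal.ofReal l)⁻¹ * (D.vol * Filter.liminf a Filter.atTop)) := by
          gcongr
      _ = Filter.liminf a Filter.atTop * D.vol := by
          rw [← mul_assoc, ENNReal.mul_inv_cancel hlE hlT, one_mul, mul_comm]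
  -- let `l → 1`
  have hlim : Filter.Tendsto (fun l : ℝ => ENNReal.ofReal l * D.S g)
      (nhdsWithin 1 (Set.Iio 1)) (nhds (ENNReal.ofReal 1 * D.S g)) := by
    refine ENNReal.Tendsto.mul_const ?_ (Or.inl (by simp))
    exact (ENNReal.continuous_ofReal.tendsto 1).mono_left nhdsWithin_le_nhds
  rw [ENNReal.ofReal_one, one_mul] at hlim
  refine le_of_tendsto hlim ?_
  have : Set.Ioo (0 : ℝ) 1 ∈ nhdsWithin (1 : ℝ) (Set.Iio 1) :=
    Ioo_mem_nhdsLT (by norm_num)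
  filter_upwards [this] with l hl
  exact key l hl.1 hl.2

end Pool.Agent.Lib_GD.OkData
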