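import Pool.Agent.Lib_GD.ProdDiv
import Pool.Agent.Lib_GD.OkBasis
import Pool.Agent.Lib_GD.OkLower
import Pool.Agent.Lib_GD.ArcPull

/-! P10: Fujita's inequality. -/

open scoped ENNReal NNReal

namespace Pool.Agent.Lib_GD

variable {R : Type} [CommRing R] [Algebra ℂ R] {𝒜 : ℕ → Submodule ℂ R} [GradedAlgebra 𝒜]
  {n : ℕ}

/-- the determinant of `secBasis` vanishes to the order of the determinant of any other basis -/
private theorem Fujita_det (h : IsSmoothPolarised 𝒜 n) {m : ℕ}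
    (E' : DivisorOver 𝒜 n (secDim 𝒜 m)) (b : Fin (secDim 𝒜 m) → R) (hb : ∀ i, b i ∈ 𝒜 m)
    (hli : LinearIndependent ℂ b) :
    E'.ord (Matrix.det (Matrix.of fun j i : Fin (secDim 𝒜 m) => E'.φ j (b i))) ≤
      E'.ordDet 𝒜 := by
  classical
  have hfin := finite_graded h m
  have hspan : Submodule.span ℂ (Set.range b) = 𝒜 m := by
    refine Submodule.eq_of_le_of_finrank_eq ?_ ?_
    · rw [Submodule.span_le]
      rintro _ ⟨i, rfl⟩
      exact hb i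
    · rw [finrank_span_eq_card hli, Fintype.card_fin]
      rfl
  have hmem : ∀ k, ∃ M : Fin (secDim 𝒜 m) → ℂ, ∑ i, M i • b i = secBasis 𝒜 m k := by
    intro k
    have h1 := (secBasis_spec h m).1 k
    rw [← hspan] at h1
    exact (Submodule.mem_span_range_iff_exists_fun ℂ).1 h1
  choose M hM using hmem
  have hmat : (Matrix.of fun j i : Fin (secDim 𝒜 m) => E'.φ j (secBasis 𝒜 m i)) =
      (Matrix.of fun j i : Fin (secDim 𝒜 m) => E'.φ j (b i)) *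
        (Matrix.of fun i k : Fin (secDim 𝒜 m) => algebraMap ℂ E'.V (M k i)) := by
    ext j k
    rw [Matrix.mul_apply]
    simp only [Matrix.of_apply]
    rw [← hM k, map_sum]
    refine Finset.sum_congr rfl fun i _ => ?_
    rw [map_smul, Algebra.smul_def, mul_comm]
  unfold DivisorOver.ordDet
  rw [hmat, Matrix.det_mul]
  unfold DivisorOver.ord
  rw [IsDiscreteValuationRing.addVal_mul]
  exact le_self_add

/-- the bound for one degree -/
private theorem Fujita_bound (h : IsSmoothPolarised 𝒜 n) (hn : 1 ≤ n) (E : DivisorOver 𝒜 n 1)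
    {m : ℕ} (hm : 1 ≤ m) (hN : 1 ≤ secDim 𝒜 m) (G : ℕ)
    (hG : ∃ b : Fin (secDim 𝒜 m) → R, (∀ i, b i ∈ 𝒜 m) ∧ LinearIndependent ℂ b ∧
      ∑ i, E.ord (E.φ 0 (b i)) = (G : ℕ∞)) (c : ℝ≥0) (hc : IsKlt 𝒜 n m c) :
    (c : ℝ≥0∞) * ((G : ℝ≥0∞) / ((m * secDim 𝒜 m : ℕ) : ℝ≥0∞)) ≤ (E.logDisc : ℝ≥0∞) := by
  obtain ⟨b, hb, hli, hsum⟩ := hG
  obtain ⟨E', h1, h2⟩ := exists_product_divisor hn E (secDim 𝒜 m) hN
  have h3 : (G : ℕ∞) ≤ E'.ordDet 𝒜 := by
    rw [← hsum]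
    exact (h2 b).trans (Fujita_det h E' b hb hli)
  have h4 := (hc E').le
  have h5 : ((c / m : ℝ≥0) : ℝ≥0∞) * (G : ℝ≥0∞) ≤ (secDim 𝒜 m : ℝ≥0∞) * (E.logDisc : ℝ≥0∞) := by
    calc ((c / m : ℝ≥0) : ℝ≥0∞) * (G : ℝ≥0∞)
        ≤ ((c / m : ℝ≥0) : ℝ≥0∞) * (E'.ordDet 𝒜 : ℝ≥0∞) := by
          gcongr
          exact_mod_cast h3
      _ ≤ (E'.logDisc : ℝ≥0∞) := h4
      _ ≤ (secDim 𝒜 m : ℝ≥0∞) * (E.logDisc : ℝ≥0∞) := by exact_mod_cast h1
  have hm0 : (m : ℝ≥0∞) ≠ 0 := by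
    have : m ≠ 0 := by omega
    exact_mod_cast this
  have hN0 : (secDim 𝒜 m : ℝ≥0∞) ≠ 0 := by
    have : secDim 𝒜 m ≠ 0 := by omega
    exact_mod_cast this
  have hmt : (m : ℝ≥0∞) ≠ ⊤ := ENNReal.natCast_ne_top m
  have hNt : (secDim 𝒜 m : ℝ≥0∞) ≠ ⊤ := ENNReal.natCast_ne_top _
  have h6 : ((c / m : ℝ≥0) : ℝ≥0∞) = (c : ℝ≥0∞) / (m : ℝ≥0∞) := by
    have : (m : ℝ≥0) ≠ 0 := by
      have : m ≠ 0 := by omega
      exact_mod_cast this
    rw [ENNReal.coe_div this]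
    norm_cast
  rw [h6] at h5
  have h7 : (c : ℝ≥0∞) * ((G : ℝ≥0∞) / ((m * secDim 𝒜 m : ℕ) : ℝ≥0∞)) =
      (c : ℝ≥0∞) / (m : ℝ≥0∞) * (G : ℝ≥0∞) / (secDim 𝒜 m : ℝ≥0∞) := by
    rw [Nat.cast_mul, div_eq_mul_inv, div_eq_mul_inv, div_eq_mul_inv,
      ENNReal.mul_inv (Or.inl hm0) (Or.inl hmt)]
    ring
  rw [h7]
  refine ENNReal.div_le_of_le_mul ?_
  rw [mul_comm (E.logDisc : ℝ≥0∞)]
  exact h5

/-- The upper limit of the log canonical thresholds is at most the stability threshold. -/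
theorem limsup_lct_le_stability (h : IsSmoothPolarised 𝒜 n) (hn : 1 ≤ n) :
    Filter.limsup (fun m => lct 𝒜 n m) Filter.atTop ≤ stability 𝒜 n := by
  obtain ⟨D, hcard, hE⟩ := exists_okData_basis h hn
  unfold stability
  refine le_iInf fun E => ?_
  obtain ⟨g, hg, hcnt, hbas⟩ := hE E
  have hvol : D.vol = volL 𝒜 n := by
    unfold OkData.vol volL
    apply Filter.limsup_congr
    filter_upwards [Filter.eventually_ge_atTop 1] with k hk
    rw [hcard k hk]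
  have hvolt : ∀ t : ℝ, D.volt g t = E.vol 𝒜 t := by
    intro t
    unfold OkData.volt DivisorOver.vol
    apply Filter.limsup_congr
    filter_upwards [Filter.eventually_ge_atTop 1] with k hk
    rw [hcnt k hk]
  have hS : D.S g = E.S 𝒜 := by
    unfold OkData.S DivisorOver.S
    rw [hvol]
    congr 1
    apply MeasureTheory.lintegral_congr
    intro t
    exact hvolt t
  have hlow := D.S_le_liminf g hg
  rw [hS] at hlow
  have hA0 : (E.logDisc : ℝ≥0∞) ≠ 0 := by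
    have h1 : (1 : ℕ∞) ≤ E.logDisc := by
      unfold DivisorOver.logDisc
      exact le_self_add
    have h2 : ((1 : ℕ∞) : ℝ≥0∞) ≤ (E.logDisc : ℝ≥0∞) := by exact_mod_cast h1
    intro h3
    rw [h3] at h2
    simp at h2
  have hAt : (E.logDisc : ℝ≥0∞) ≠ ⊤ := by
    have h1 := E.logDisc_ne_top
    rwa [Ne, ENat.toENNReal_eq_top]
  -- the dimension is positive for large `m`
  have hpos : ∀ m, max D.m₀ 1 ≤ m → 1 ≤ secDim 𝒜 m := by
    intro m hm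
    have hm1 : 1 ≤ m := le_trans (le_max_right _ _) hm
    rw [← hcard m hm1]
    refine Finset.card_pos.2 ⟨0, D.simplex m (le_trans (le_max_left _ _) hm) 0 ?_⟩
    simp only [Pi.zero_apply, Finset.sum_const_zero, Nat.cast_zero]
    exact mul_nonneg D.hc.le (Nat.cast_nonneg m)
  refine le_of_forall_lt fun a ha => ?_
  obtain ⟨a', ha', ha''⟩ := exists_between ha
  refine lt_of_lt_of_le ha' ?_
  have hev := Filter.frequently_lt_of_lt_limsup (by isBoundedDefault) ha''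
  have ha't : a' ≠ ⊤ := (lt_of_lt_of_le ha'' le_top).ne
  have ha'0 : a' ≠ 0 := (lt_of_le_of_lt zero_le ha').ne'
  have hx : ∃ᶠ m : ℕ in Filter.atTop, ((∑ γ ∈ D.Γ m, g m γ : ℕ) : ℝ≥0∞) /
      ((m * (D.Γ m).card : ℕ) : ℝ≥0∞) ≤ (E.logDisc : ℝ≥0∞) / a' := by
    refine (hev.and_eventually (Filter.eventually_ge_atTop (max D.m₀ 1))).mono ?_
    rintro m ⟨hm, hm1⟩
    have hm2 : 1 ≤ m := le_trans (le_max_right _ _) hm1
    unfold lct at hm
    obtain ⟨⟨c, hc⟩, hac⟩ := lt_iSup_iff.1 hm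
    have h1 := Fujita_bound h hn E hm2 (hpos m hm1) _ (hbas m hm2) c hc
    rw [hcard m hm2]
    rw [ENNReal.le_div_iff_mul_le (Or.inl ha'0) (Or.inl ha't), mul_comm]
    exact le_trans (mul_le_mul_left hac.le _) h1
  have hliminf : Filter.liminf (fun m : ℕ => ((∑ γ ∈ D.Γ m, g m γ : ℕ) : ℝ≥0∞) /
      ((m * (D.Γ m).card : ℕ) : ℝ≥0∞)) Filter.atTop ≤ (E.logDisc : ℝ≥0∞) / a' :=
    Filter.liminf_le_of_frequently_le hx
  have h2 : E.S 𝒜 ≤ (E.logDisc : ℝ≥0∞) / a' := hlow.trans hliminf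
  rw [ENNReal.le_div_iff_mul_le (Or.inr hA0) (Or.inr hAt)]
  rw [ENNReal.le_div_iff_mul_le (Or.inl ha'0) (Or.inl ha't)] at h2
  rwa [mul_comm]

/-- P10: `γ(X, L) ≤ δ(X, L)`. -/
theorem gibbs_le_stability (h : IsSmoothPolarised 𝒜 n) (hn : 1 ≤ n) :
    gibbs 𝒜 n ≤ stability 𝒜 n := by
  refine le_trans ?_ (limsup_lct_le_stability h hn)
  unfold gibbs
  exact Filter.liminf_le_limsup

end Pool.Agent.Lib_GD
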