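import Pool.Agent.Lib_GD.Main
import Pool.Agent.Lib_GD.Fujita

/-! P11: `γ = δ`. -/

open scoped ENNReal NNReal

namespace Pool.Agent.Lib_GD

variable {R : Type} [CommRing R] [Algebra ℂ R] {𝒜 : ℕ → Submodule ℂ R} [GradedAlgebra 𝒜]
  {n : ℕ}

/-- The log canonical thresholds converge to the stability threshold. -/
theorem tendsto_lct (h : IsSmoothPolarised 𝒜 n) (hn : 1 ≤ n) :
    Filter.Tendsto (fun m : ℕ => lct 𝒜 n m) Filter.atTop (nhds (stability 𝒜 n)) :=
  tendsto_of_le_liminf_of_limsup_le (stability_le_gibbs h hn) (limsup_lct_le_stability h hn)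

/-- `γ(X, L) = δ(X, L)`. -/
theorem gibbs_eq_stability (h : IsSmoothPolarised 𝒜 n) (hn : 1 ≤ n) :
    gibbs 𝒜 n = stability 𝒜 n :=
  le_antisymm (gibbs_le_stability h hn) (stability_le_gibbs h hn)

end Pool.Agent.Lib_GD
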