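import Pool.Agent.Lib_GD.Lift
import Pool.Agent.Lib_GD.TrdegBound

/-! J06: generic lift. -/

open PowerSeries

namespace Pool.Agent.Lib_GD

variable {R : Type} [CommRing R] [Algebra ℂ R] {𝒜 : ℕ → Submodule ℂ R} {n : ℕ}

open TensorProduct KaehlerDifferential in
/-- Derivations extend to the fraction field. -/
private lemma exists_ext_fraction {K S T : Type} [Field K] [CommRing S] [IsDomain S] [Field T]
    [Algebra K S] [Algebra K T] [Algebra S T] [IsScalarTower K S T] [IsFractionRing S T]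
    (D : Derivation K S T) : ∃ δ : Derivation K T T, ∀ s, δ (algebraMap S T s) = D s := by
  have := Algebra.FormallyEtale.of_isLocalization (Rₘ := T) (nonZeroDivisors S)
  let e := (KaehlerDifferential.tensorKaehlerEquivOfFormallyEtale K S T).symm
  let φ : T ⊗[S] Ω[S⁄K] →ₗ[T] T := LinearMap.liftBaseChange T D.liftKaehlerDifferential
  refine ⟨(φ ∘ₗ e.toLinearMap).compDer (KaehlerDifferential.D K T), fun s => ?_⟩
  change φ (e (KaehlerDifferential.D K T (algebraMap S T s))) = D s
  rw [show e (KaehlerDifferential.D K T (algebraMap S T s)) = 1 ⊗ₜ KaehlerDifferential.D K S s from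
    KaehlerDifferential.tensorKaehlerEquivOfFormallyEtale_symm_D_algebraMap K S T s]
  simp [φ]

/-- A purely transcendental extension with free derivations. -/
private lemma exists_free_ext (K : Type) [Field K] [Algebra ℂ K] (σ : Type) :
    ∃ (L : Type) (_ : Field L) (_ : Algebra ℂ L) (j : K →ₐ[ℂ] L) (z : σ → L),
      ∀ v : σ → L, ∃ δ : Derivation ℂ L L, (∀ a, δ (j a) = 0) ∧ ∀ i, δ (z i) = v i := by
  let S := MvPolynomial σ K
  let T := FractionRing S
  refine ⟨T, inferInstance, inferInstance, IsScalarTower.toAlgHom ℂ K T,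
    fun i => algebraMap S T (MvPolynomial.X i), fun v => ?_⟩
  obtain ⟨δ, hδ⟩ := exists_ext_fraction (K := K) (S := S) (T := T)
    (MvPolynomial.mkDerivation K v)
  refine ⟨δ.restrictScalars ℂ, fun a => ?_, fun i => ?_⟩
  · change δ (algebraMap K T a) = 0
    exact δ.map_algebraMap a
  · change δ (algebraMap S T (MvPolynomial.X i)) = v i
    rw [hδ, MvPolynomial.mkDerivation_X]

/-- J06: given an arc `x₂` and algebraically independent coefficients of order `< k` of its
coordinates, indexed by `s₂`, there are an extension `L₃` and an arc `x₃` with the same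
coefficients of order `< k` such that derivations of `L₃` realise all values divisible by `X ^ k`
on the coordinates, and, modulo `X ^ k`, a space of values of dimension at least `#s₂`. -/
theorem Chart.generic_lift (c : Chart 𝒜 n) {L₂ : Type} [Field L₂] [Algebra ℂ L₂]
    (x₂ : c.B →ₐ[ℂ] L₂⟦X⟧) (k : ℕ) (hk : 1 ≤ k) (s₂ : Finset (Fin n × Fin k))
    (hs : AlgebraicIndependent ℂ (fun p : s₂ => coeff (p.1.2 : ℕ) (x₂ (c.y p.1.1)))) :
    ∃ (L₃ : Type) (_ : Field L₃) (_ : Algebra ℂ L₃) (j : L₂ →ₐ[ℂ] L₃)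
      (x₃ : c.B →ₐ[ℂ] L₃⟦X⟧),
      (∀ b i, i < k → coeff i (x₃ b) = j (coeff i (x₂ b))) ∧
      (∀ v : Fin n → L₃⟦X⟧, (∀ l, X ^ k ∣ v l) →
        ∃ δ : Derivation ℂ L₃ L₃, ∀ l, hat δ (x₃ (c.y l)) = v l) ∧
      s₂.card ≤ Module.finrank L₃ (Submodule.span L₃ {v : Fin n × Fin k → L₃ |
        ∃ δ : Derivation ℂ L₃ L₃, ∀ p, coeff (p.2 : ℕ) (hat δ (x₃ (c.y p.1))) = v p}) := by
  classical
  obtain ⟨L, _, _, j, z, hz⟩ := exists_free_ext L₂ (Fin n × ℕ)
  obtain ⟨x', hx'⟩ := c.exists_map j x₂
  let Z : Fin n → L⟦X⟧ := fun l => PowerSeries.mk fun i => if i < k then 0 else z (l, i)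
  have hZ : ∀ l, X ^ k ∣ Z l := by
    intro l
    rw [X_pow_dvd_iff]
    intro m hm
    simp [Z, hm]
  obtain ⟨x₃, hy, hb⟩ := c.exists_perturb x' k hk Z hZ
  have h1 : ∀ b i, i < k → coeff i (x₃ b) = j (coeff i (x₂ b)) := by
    intro b i hi
    have := (X_pow_dvd_iff.1 (hb b)) i hi
    rw [map_sub, sub_eq_zero] at this
    rw [this, hx']
  have h2 : ∀ l i, coeff i (x₃ (c.y l)) = j (coeff i (x₂ (c.y l))) +
      if i < k then 0 else z (l, i) := by
    intro l i
    rw [hy, map_add, hx']
    simp [Z]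
  refine ⟨L, inferInstance, inferInstance, j, x₃, h1, ?_, ?_⟩
  · intro v hv
    obtain ⟨δ, hδ, hδ'⟩ := hz (fun p => coeff p.2 (v p.1))
    refine ⟨δ, fun l => ?_⟩
    ext i
    rw [coeff_hat, h2, map_add, hδ, zero_add]
    by_cases hi : i < k
    · rw [if_pos hi, map_zero]
      exact ((X_pow_dvd_iff.1 (hv l)) i hi).symm
    · rw [if_neg hi, hδ']
  · have hs' : AlgebraicIndependent ℂ
        (fun p : s₂ => j (coeff (p.1.2 : ℕ) (x₂ (c.y p.1.1)))) :=
      hs.map' (f := j) j.toRingHom.injective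
    choose δ hδ using fun q : s₂ => exists_derivation _ hs' (Pi.single q (1 : L))
    let V : s₂ → (Fin n × Fin k → L) :=
      fun q p => coeff (p.2 : ℕ) (hat (δ q) (x₃ (c.y p.1)))
    have hV : ∀ q p : s₂, V q p.1 = if p = q then 1 else 0 := by
      intro q p
      simp only [V]
      rw [coeff_hat, h1 _ _ p.1.2.2, hδ q p, Pi.single_apply]
    have hli : LinearIndependent L V := by
      rw [Fintype.linearIndependent_iff]
      intro g hg q
      have := congrFun hg q.1
      simpa [Finset.sum_apply, hV] using this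
    calc s₂.card = Fintype.card s₂ := (Fintype.card_coe s₂).symm
      _ = Module.finrank L (Submodule.span L (Set.range V)) := (finrank_span_eq_card hli).symm
      _ ≤ _ := Submodule.finrank_mono (Submodule.span_mono (by
        rintro _ ⟨q, rfl⟩
        exact ⟨δ q, fun p => rfl⟩))

end Pool.Agent.Lib_GD
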