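import Pool.Agent.Lib_GD.ArcDefs
import Pool.Agent.Lib_GD.DvrCoords
import Pool.Agent.Lib_GD.DvrDer
import Pool.Agent.Lib_GD.HatLem
import Pool.Agent.Lib_GD.TaylorGen
import Pool.Agent.Lib_GD.TrdegBound

/-! A03: the generic arc of a divisorial valuation ring. -/

open PowerSeries

namespace Pool.Agent.Lib_GD

theorem genericArc_ddG_coord {n : ℕ} {B : Type} [CommRing B] [Algebra ℂ B]
    (der : Fin n → Derivation ℂ B B) (hc : ∀ l k b, der l (der k b) = der k (der l b))
    (y : Fin n → B) (hy : ∀ l k, der l (y k) = if l = k then 1 else 0)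
    (α : Fin n →₀ ℕ) (k : Fin n) :
    ddG der α (y k) = if α = 0 then y k else if α = Finsupp.single k 1 then 1 else 0 := by
  split_ifs with h1 h2
  · rw [h1, ddG_zero]
  · rw [h2, ddG_single, hy, if_pos rfl]
  · obtain ⟨l, hl⟩ : ∃ l, α l ≠ 0 := by
      by_contra hcon
      push Not at hcon
      exact h1 (by ext l; simp [hcon l])
    obtain ⟨β, rfl⟩ : ∃ β : Fin n →₀ ℕ, α = β + Finsupp.single l 1 := by
      refine ⟨α - Finsupp.single l 1, ?_⟩
      rw [tsub_add_cancel_of_le]
      rw [Finsupp.single_le_iff]
      omega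
    rw [ddG_add_single der hc, hy]
    by_cases hlk : l = k
    · subst hlk
      rw [if_pos rfl]
      have hβ : β ≠ 0 := by
        rintro rfl
        exact h2 (by simp)
      obtain ⟨l', hl'⟩ : ∃ l', β l' ≠ 0 := by
        by_contra hcon
        push Not at hcon
        exact hβ (by ext l; simp [hcon l])
      obtain ⟨γ, rfl⟩ : ∃ γ : Fin n →₀ ℕ, β = γ + Finsupp.single l' 1 := by
        refine ⟨β - Finsupp.single l' 1, ?_⟩
        rw [tsub_add_cancel_of_le]
        rw [Finsupp.single_le_iff]
        omega
      rw [ddG_add_single der hc, Derivation.map_one_eq_zero, map_zero]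
    · rw [if_neg hlk, map_zero]

theorem genericArc_taylor_coord {n : ℕ} {B : Type} [CommRing B] [Algebra ℂ B]
    (der : Fin n → Derivation ℂ B B) (hc : ∀ l k b, der l (der k b) = der k (der l b))
    (y : Fin n → B) (hy : ∀ l k, der l (y k) = if l = k then 1 else 0)
    {K : Type} [Field K] [Algebra ℂ K] (x : B →ₐ[ℂ] K) (k : Fin n) :
    taylorG der hc x (y k) = MvPowerSeries.C (x (y k)) + MvPowerSeries.X k := by
  classical
  ext α
  rw [coeff_taylorG, tayG, genericArc_ddG_coord der hc y hy, map_add, MvPowerSeries.coeff_C,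
    MvPowerSeries.coeff_X]
  have h01 : (Finsupp.single k 1 : Fin n →₀ ℕ) ≠ 0 := by simp
  split_ifs with h1 h2 h3
  · exact absurd (h2.symm.trans h1) h01
  · subst h1; simp
  · subst h3
    have : (∏ l, (((Finsupp.single k 1 : Fin n →₀ ℕ) l).factorial : ℂ)) = 1 := by
      refine Finset.prod_eq_one fun l _ => ?_
      by_cases hl : k = l
      · subst hl; simp
      · simp [hl]
    rw [this]; simp
  · simp

/-- Independence from dual derivations. -/
theorem genericArc_algInd {n : ℕ} {K : Type} [Field K] [Algebra ℂ K]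
    (der : Fin n → Derivation ℂ K K) (hc : ∀ l k b, der l (der k b) = der k (der l b))
    (z : Fin n → K)
    (hz : ∀ l k, der l (z k) = if l = k then 1 else 0) : AlgebraicIndependent ℂ z := by
  rw [algebraicIndependent_iff]
  intro p hp
  have h1 : taylorG der hc (AlgHom.id ℂ K) (MvPolynomial.aeval z p) = 0 := by rw [hp, map_zero]
  rw [MvPolynomial.comp_aeval_apply] at h1
  let c : MvPolynomial (Fin n) K →ₐ[ℂ] MvPowerSeries (Fin n) K :=
    { MvPolynomial.coeToMvPowerSeries.ringHom (σ := Fin n) (R := K) with
      commutes' := fun r => by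
        change ((algebraMap ℂ (MvPolynomial (Fin n) K) r : MvPolynomial (Fin n) K) :
          MvPowerSeries (Fin n) K) = _
        rw [IsScalarTower.algebraMap_apply ℂ K (MvPolynomial (Fin n) K),
          MvPolynomial.algebraMap_eq, MvPolynomial.coe_C]
        exact (MvPowerSeries.algebraMap_apply (r := r)).symm }
  have hc' : ∀ q : MvPolynomial (Fin n) K, c q = (q : MvPowerSeries (Fin n) K) := fun q => rfl
  let e : Fin n → MvPolynomial (Fin n) K := fun k => MvPolynomial.C (z k) + MvPolynomial.X k
  have h2 : (fun k => taylorG der hc (AlgHom.id ℂ K) (z k)) = fun k => c (e k) := by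
    funext k
    rw [genericArc_taylor_coord der hc z hz, hc']
    simp [e]
  rw [h2, ← MvPolynomial.comp_aeval_apply, hc'] at h1
  have h4 : MvPolynomial.aeval (R := ℂ) e p = 0 := by exact_mod_cast h1
  let g : MvPolynomial (Fin n) K →ₐ[ℂ] MvPolynomial (Fin n) K :=
    (MvPolynomial.aeval (R := K) (fun k => (MvPolynomial.X k - MvPolynomial.C (z k) :
        MvPolynomial (Fin n) K))).restrictScalars ℂ
  have h5 : g (MvPolynomial.aeval (R := ℂ) e p) = MvPolynomial.map (algebraMap ℂ K) p := by
    rw [MvPolynomial.comp_aeval_apply]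
    have h6 : (fun k => g (e k)) = fun k => (MvPolynomial.X k : MvPolynomial (Fin n) K) := by
      funext k
      simp [g, e]
    rw [h6]
    clear h1 h4 h6 hp
    induction p using MvPolynomial.induction_on with
    | C a =>
      rw [MvPolynomial.map_C, MvPolynomial.aeval_C,
        IsScalarTower.algebraMap_apply ℂ K (MvPolynomial (Fin n) K), MvPolynomial.algebraMap_eq]
    | add p q hp hq => rw [map_add, map_add, hp, hq]
    | mul_X p k hp => rw [map_mul, map_mul, hp]; simp
  rw [h4, map_zero] at h5
  exact (MvPolynomial.map_injective _ (algebraMap ℂ K).injective) (by rw [← h5, map_zero])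

/-- A derivation preserving the kernel of a surjection descends. -/
theorem genericArc_desc {V κ : Type} [CommRing V] [CommRing κ] [Algebra ℂ V] [Algebra ℂ κ]
    [Algebra V κ] [IsScalarTower ℂ V κ] (hs : Function.Surjective (algebraMap V κ))
    (d : Derivation ℂ V V)
    (hd : ∀ f, algebraMap V κ f = 0 → algebraMap V κ (d f) = 0) :
    ∃ e : Derivation ℂ κ κ, ∀ f, e (algebraMap V κ f) = algebraMap V κ (d f) := by
  choose g hg using hs
  have key : ∀ f f', algebraMap V κ f = algebraMap V κ f' →
      algebraMap V κ (d f) = algebraMap V κ (d f') := by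
    intro f f' h
    have := hd (f - f') (by rw [map_sub, h, sub_self])
    rw [map_sub, map_sub, sub_eq_zero] at this
    exact this
  let E : κ →ₗ[ℂ] κ :=
    { toFun := fun c => algebraMap V κ (d (g c))
      map_add' := fun c c' => by
        rw [← map_add, ← map_add]
        exact key _ _ (by rw [hg, map_add, hg, hg])
      map_smul' := fun z c => by
        have h1 : algebraMap V κ (d (g (z • c))) = algebraMap V κ (d (z • g c)) := by
          refine key _ _ ?_
          rw [hg, Algebra.smul_def, Algebra.smul_def, map_mul, hg,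
            ← IsScalarTower.algebraMap_apply]
        rw [h1, Derivation.map_smul, Algebra.smul_def, map_mul, ← IsScalarTower.algebraMap_apply,
          RingHom.id_apply, Algebra.smul_def] }
  have hE : ∀ f, E (algebraMap V κ f) = algebraMap V κ (d f) := fun f =>
    key _ _ (hg _)
  refine ⟨Derivation.mk' E ?_, hE⟩
  intro c c'
  obtain ⟨f, rfl⟩ : ∃ f, algebraMap V κ f = c := ⟨g c, hg c⟩
  obtain ⟨f', rfl⟩ : ∃ f, algebraMap V κ f = c' := ⟨g c', hg c'⟩
  rw [← map_mul, hE, hE, hE, Derivation.leibniz, map_add, smul_eq_mul, smul_eq_mul, smul_eq_mul,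
    smul_eq_mul, map_mul, map_mul]

/-- A03: let `V` be a discrete valuation ring with coordinates `t, w_l` as in A01, A02. There are
a field `L` and a homomorphism `Φ : V → L⟦X⟧` with `ord Φ(f) = v(f)` such that the derivations of
`L`, acting coefficientwise, realise all prescribed values on `Φ t` (divisible by `X`) and on the
`Φ (w_l)`. Construction: `κ` the residue field, `L = Frac κ[a_i, b_{l,i+1}]`,
`T = ∑ a_i X^{i+1}`, `U_l = ∑ b_{l,i+1} X^{i+1}`,
`Φ f = ∑_α (residue of δ^α f) / α! · T^{α_0} U^{α'}`. -/
theorem exists_generic_arc (V : Type) [CommRing V] [IsDomain V] [IsDiscreteValuationRing V]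
    [Algebra ℂ V] (r : ℕ) (t : V) (w : Fin r → V) (ht : Irreducible t)
    (δt : Derivation ℂ V V) (δ : Fin r → Derivation ℂ V V)
    (h1 : δt t = 1) (h2 : ∀ l, δt (w l) = 0) (h3 : ∀ l, δ l t = 0)
    (h4 : ∀ l k, δ l (w k) = if l = k then 1 else 0)
    (h5 : ∀ f, KaehlerDifferential.D ℂ V f = δt f • KaehlerDifferential.D ℂ V t +
        ∑ l, δ l f • KaehlerDifferential.D ℂ V (w l))
    (h6 : ∀ l f, δt (δ l f) = δ l (δt f)) (h7 : ∀ l k f, δ l (δ k f) = δ k (δ l f)) :
    ∃ (L : Type) (_ : Field L) (_ : Algebra ℂ L) (Φ : V →ₐ[ℂ] L⟦X⟧),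
      (∀ f, (Φ f).order = IsDiscreteValuationRing.addVal V f) ∧
      ∀ (ζ₀ : L⟦X⟧) (ζ : Fin r → L⟦X⟧), X ∣ ζ₀ →
        ∃ d : Derivation ℂ L L, hat d (Φ t) = ζ₀ ∧ ∀ l, hat d (Φ (w l)) = ζ l := by
  classical
  let κ : Type := IsLocalRing.ResidueField V
  let σ : Type := Option (Fin r) × ℕ
  let L : Type := FractionRing (MvPolynomial σ κ)
  -- the point
  let x : V →ₐ[ℂ] L := (IsScalarTower.toAlgHom ℂ κ L).comp (IsScalarTower.toAlgHom ℂ V κ)
  let cc : σ → L := fun s => algebraMap (MvPolynomial σ κ) L (MvPolynomial.X s)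
  let der : Fin (r + 1) → Derivation ℂ V V := Fin.cons δt δ
  let y : Fin (r + 1) → V := Fin.cons t w
  have hc : ∀ l k b, der l (der k b) = der k (der l b) := by
    intro l k b
    refine Fin.cases ?_ (fun l => ?_) l <;> refine Fin.cases ?_ (fun k => ?_) k
    · rfl
    · exact h6 k b
    · exact (h6 l b).symm
    · exact h7 l k b
  have hy : ∀ l k, der l (y k) = if l = k then 1 else 0 := by
    intro l k
    refine Fin.cases ?_ (fun l => ?_) l <;> refine Fin.cases ?_ (fun k => ?_) k
    · simpa [der, y] using h1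
    · simpa [der, y, Fin.succ_ne_zero, (Fin.succ_ne_zero _).symm] using h2 k
    · simpa [der, y, Fin.succ_ne_zero] using h3 l
    · simpa [der, y] using h4 l k
  -- the arc
  let idx : Fin (r + 1) → Option (Fin r) := Fin.cons none some
  let a : Fin (r + 1) → L⟦X⟧ := fun k => PowerSeries.mk fun i =>
    if i = 0 then 0 else cc (idx k, i)
  have ha0 : ∀ k, MvPowerSeries.constantCoeff (a k) = 0 := by
    intro k
    change PowerSeries.constantCoeff (a k) = 0
    rw [← PowerSeries.coeff_zero_eq_constantCoeff_apply]
    simp [a]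
  have ha : MvPowerSeries.HasSubst a := MvPowerSeries.hasSubst_of_constantCoeff_zero ha0
  have hxt : x t = 0 := by
    change algebraMap κ L (algebraMap V κ t) = 0
    have : algebraMap V κ t = 0 := by
      change IsLocalRing.residue V t = 0
      rw [IsLocalRing.residue_eq_zero_iff, ht.maximalIdeal_eq]
      exact Ideal.mem_span_singleton_self t
    rw [this, map_zero]
  have hcc : ∀ s, cc s ≠ 0 := by
    intro s h
    have := (map_eq_zero_iff _ (IsFractionRing.injective (MvPolynomial σ κ) L)).1 h
    exact MvPolynomial.X_ne_zero s this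
  let sb : MvPowerSeries (Fin (r + 1)) L →ₐ[L] L⟦X⟧ := MvPowerSeries.substAlgHom ha
  let Φ : V →ₐ[ℂ] L⟦X⟧ := (sb.restrictScalars ℂ).comp (taylorG der hc x)
  have hsbC : ∀ c : L, sb (MvPowerSeries.C c) = C c := by
    intro c
    exact sb.commutes c
  have hΦy : ∀ k, Φ (y k) = C (x (y k)) + a k := by
    intro k
    change sb (taylorG der hc x (y k)) = _
    rw [genericArc_taylor_coord der hc y hy x k, map_add, hsbC]
    congr 1
    exact MvPowerSeries.substAlgHom_X ha k
  have hΦ0 : ∀ f, constantCoeff (Φ f) = x f := by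
    intro f
    have e1 : MvPowerSeries.constantCoeff (taylorG der hc x f) = x f := by
      rw [← MvPowerSeries.coeff_zero_eq_constantCoeff_apply, coeff_taylorG, tayG, ddG_zero]
      simp
    have e2 : Φ f = sb (taylorG der hc x f - MvPowerSeries.C (x f)) + C (x f) := by
      rw [map_sub, hsbC, sub_add_cancel]
      rfl
    rw [e2, map_add, constantCoeff_C]
    have e3 : MvPowerSeries.constantCoeff (taylorG der hc x f - MvPowerSeries.C (x f)) = 0 := by
      rw [map_sub, e1, MvPowerSeries.constantCoeff_C, sub_self]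
    have e4 := MvPowerSeries.constantCoeff_subst_eq_zero ha ha0 e3
    have e5 : constantCoeff (sb (taylorG der hc x f - MvPowerSeries.C (x f))) = 0 := by
      change MvPowerSeries.constantCoeff (sb _) = 0
      rw [← e4]
      congr 1
      exact congrFun (MvPowerSeries.coe_substAlgHom ha) _
    rw [e5, zero_add]
  have hΦt : Φ t = a 0 := by
    have := hΦy 0
    simp only [y, Fin.cons_zero, hxt, map_zero, zero_add] at this
    exact this
  have hΦw : ∀ l, Φ (w l) = C (x (w l)) + a l.succ := by
    intro l
    have := hΦy l.succ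
    simpa only [y, Fin.cons_succ] using this
  refine ⟨L, inferInstance, inferInstance, Φ, ?_, ?_⟩
  · -- orders
    have hot : (Φ t).order = 1 := by
      rw [hΦt]
      have : ((1 : ℕ) : ℕ∞) = 1 := rfl
      rw [← this, PowerSeries.order_eq_nat]
      constructor
      · simp only [a, coeff_mk, one_ne_zero, if_false]
        exact hcc _
      · intro i hi
        have : i = 0 := by omega
        subst this
        simp [a]
    intro f
    by_cases hf : f = 0
    · subst hf; simp
    · obtain ⟨k, u, rfl⟩ := IsDiscreteValuationRing.eq_unit_mul_pow_irreducible hf ht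
      have hu : (Φ u).order = 0 := by
        have h := hΦ0 (u : V)
        have hxu : x (u : V) ≠ 0 := (u.isUnit.map x).ne_zero
        have : ((0 : ℕ) : ℕ∞) = 0 := rfl
        rw [← this, PowerSeries.order_eq_nat]
        refine ⟨?_, fun i hi => absurd hi (Nat.not_lt_zero i)⟩
        rw [coeff_zero_eq_constantCoeff_apply, h]
        exact hxu
      rw [map_mul, map_pow, PowerSeries.order_mul, PowerSeries.order_pow, hot, hu]
      rw [IsDiscreteValuationRing.addVal_def _ u ht k rfl]
      simp
  · -- derivations
    intro ζ₀ ζ hζ₀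
    have hex : ∀ l, ∃ e : Derivation ℂ κ κ, ∀ f, e (algebraMap V κ f) =
        algebraMap V κ (δ l f) := by
      intro l
      refine genericArc_desc (V := V) (κ := κ) IsLocalRing.residue_surjective (δ l) ?_
      intro f hf
      have hf' : f ∈ IsLocalRing.maximalIdeal V := by
        rw [← IsLocalRing.residue_eq_zero_iff]; exact hf
      rw [ht.maximalIdeal_eq, Ideal.mem_span_singleton] at hf'
      obtain ⟨g, rfl⟩ := hf'
      rw [Derivation.leibniz, h3, smul_zero, add_zero, smul_eq_mul, map_mul]
      have : algebraMap V κ t = 0 := by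
        change IsLocalRing.residue V t = 0
        rw [IsLocalRing.residue_eq_zero_iff, ht.maximalIdeal_eq]
        exact Ideal.mem_span_singleton_self t
      rw [this, zero_mul]
    choose e he using hex
    have hAI : AlgebraicIndependent ℂ (fun l => algebraMap V κ (w l)) := by
      refine genericArc_algInd e ?_ _ ?_
      · intro l k b
        obtain ⟨f, rfl⟩ := IsLocalRing.residue_surjective (R := V) b
        change e l (e k (algebraMap V κ f)) = e k (e l (algebraMap V κ f))
        rw [he, he, he, he, h7]
      · intro l k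
        rw [he, h4]
        split_ifs <;> simp
    have hAI2 : AlgebraicIndependent κ cc := by
      have := (MvPolynomial.algebraicIndependent_X σ κ).map'
        (f := IsScalarTower.toAlgHom κ (MvPolynomial σ κ) L)
        (IsFractionRing.injective (MvPolynomial σ κ) L)
      exact this
    have hAI3 := hAI.sumElim_comp hAI2
    obtain ⟨d, hd⟩ := exists_derivation _ hAI3
      (Sum.elim (fun s : σ => s.1.elim (coeff s.2 ζ₀) (fun l => coeff s.2 (ζ l)))
        (fun l => coeff 0 (ζ l)))
    have hd1 : ∀ i, d (cc (none, i)) = coeff i ζ₀ := fun i => hd (Sum.inl (none, i))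
    have hd2 : ∀ l i, d (cc (some l, i)) = coeff i (ζ l) := fun l i => hd (Sum.inl (some l, i))
    have hd3 : ∀ l, d (x (w l)) = coeff 0 (ζ l) := fun l => hd (Sum.inr l)
    refine ⟨d, ?_, ?_⟩
    · rw [hΦt]
      ext i
      rw [coeff_hat]
      simp only [a, coeff_mk]
      by_cases hi : i = 0
      · subst hi
        rw [if_pos rfl, map_zero, coeff_zero_eq_constantCoeff_apply, eq_comm,
          ← X_dvd_iff]
        exact hζ₀
      · rw [if_neg hi]
        exact hd1 i
    · intro l
      rw [hΦw]
      ext i
      rw [coeff_hat, map_add, coeff_C]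
      simp only [a, coeff_mk]
      by_cases hi : i = 0
      · subst hi
        rw [if_pos rfl, if_pos rfl, add_zero]
        exact hd3 l
      · rw [if_neg hi, if_neg hi, zero_add]
        exact hd2 l i

end Pool.Agent.Lib_GD
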