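import Pool.Agent.Lib_GD.Defs
import Pool.Agent.Lib_GD.ArcDefs

/-!
# Charts of a polarised smooth variety

A chart is an affine open subset `Spec B` of `X = Proj R` with coordinates `y_1, …, y_n` (so that
`Ω_B` is free on the `dy_l`) and a trivialisation of `O(1)`; `ρ : R → B` is dehomogenisation.
-/

open PowerSeries

namespace Pool.Agent.Lib_GD

/-- A chart. -/
structure Chart {R : Type} [CommRing R] [Algebra ℂ R] (𝒜 : ℕ → Submodule ℂ R) (n : ℕ) where
  B : Type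
  [commRing : CommRing B]
  [isDomain : IsDomain B]
  [algebra : Algebra ℂ B]
  [finiteType : Algebra.FiniteType ℂ B]
  [smooth : Algebra.FormallySmooth ℂ B]
  /-- dehomogenisation -/
  ρ : R →ₐ[ℂ] B
  F : R
  d : ℕ
  hd : 0 < d
  hF : F ∈ 𝒜 d
  unit : IsUnit (ρ F)
  inj : ∀ m, ∀ s ∈ 𝒜 m, ρ s = 0 → s = 0
  surj : ∀ b, ∃ k, ∃ s ∈ 𝒜 (d * k), b * ρ F ^ k = ρ s
  e : ℕ
  T : R
  hT : T ∈ 𝒜 (d * e + 1)
  ρT : ρ T = ρ F ^ e
  /-- coordinates -/
  y : Fin n → B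
  /-- dual derivations -/
  der : Fin n → Derivation ℂ B B
  der_y : ∀ l k, der l (y k) = if l = k then 1 else 0
  gen : ∀ b, KaehlerDifferential.D ℂ B b =
    ∑ l, der l b • KaehlerDifferential.D ℂ B (y l)

attribute [instance] Chart.commRing Chart.isDomain Chart.algebra Chart.finiteType Chart.smooth

variable {R : Type} [CommRing R] [Algebra ℂ R] {𝒜 : ℕ → Submodule ℂ R} {n N : ℕ}

/-- The iterated derivation `∂^α`. -/
noncomputable def Chart.dd (c : Chart 𝒜 n) (α : Fin n →₀ ℕ) : Module.End ℂ c.B :=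
  ((List.finRange n).map fun l => ((c.der l : c.B →ₗ[ℂ] c.B) : Module.End ℂ c.B) ^ (α l)).prod

/-- A finite family of charts covering `X`. -/
structure Atlas {R : Type} [CommRing R] [Algebra ℂ R] (𝒜 : ℕ → Submodule ℂ R) (n : ℕ) where
  r : ℕ
  chart : Fin r → Chart 𝒜 n
  cover : ∀ p : Ideal R, p.IsPrime → (∃ d > 0, ∃ f ∈ 𝒜 d, f ∉ p) →
    ∃ k, (chart k).F ∉ p ∧ (chart k).T ∉ p

end Pool.Agent.Lib_GD
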