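import Pool.Agent.Lib_GD.LatBound
import Pool.Agent.Lib_GD.Cost
import Pool.Agent.Lib_GD.HatLem

/-! J09: (I2) for arc systems. -/

open PowerSeries

namespace Pool.Agent.Lib_GD

variable {R : Type} [CommRing R] [Algebra ℂ R] {𝒜 : ℕ → Submodule ℂ R} [GradedAlgebra 𝒜]
  {n : ℕ}

/-- J09: (I2) for the arc system of a divisor over `X ^ N_m`. -/
theorem hI2 (h : IsSmoothPolarised 𝒜 n) (hn : 1 ≤ n) (a : Atlas 𝒜 n) (m : ℕ)
    (τ : ℝ) (hτ : 0 ≤ τ)
    (hE : ∀ E : DivisorOver 𝒜 n 1, E.logDisc ≠ ⊤ → ∀ b : Fin (secDim 𝒜 m) → R,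
      (∀ i, b i ∈ 𝒜 m) → LinearIndependent ℂ b →
      ((∑ i, (E.ord (E.φ 0 (b i))).toNat : ℕ) : ℝ) ≤ τ * E.logDisc.toNat)
    {L : Type} [Field L] [Algebra ℂ L] (k : Fin (secDim 𝒜 m) → Fin a.r)
    (x : ∀ j, (a.chart (k j)).B →ₐ[ℂ] L⟦X⟧) (Γ : ArcSystem L n (secDim 𝒜 m))
    (hu : ∀ j α i, Γ.u j α i = x j ((a.chart (k j)).dd α ((a.chart (k j)).ρ (secBasis 𝒜 m i))))
    (hξ : ∀ δ j l, Γ.ξ δ j l = hat δ (x j ((a.chart (k j)).y l))) :
    Γ.HI2 τ := by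
  intro S j hj B M hB hM hev
  let Δ : Submodule L (Derivation ℂ L L) :=
    { carrier := Γ.Dker S
      add_mem' := by
        intro δ δ' hδ hδ'
        refine ⟨Γ.𝒟.add_mem hδ.1 hδ'.1, fun i hi => ?_⟩
        funext l
        have h1 := congrFun (hδ.2 i hi) l
        have h2 := congrFun (hδ'.2 i hi) l
        rw [hξ] at h1 h2
        rw [hξ, hat_add_der, h1, h2, Pi.zero_apply, add_zero]
      zero_mem' := by
        refine ⟨Γ.𝒟.zero_mem, fun i hi => ?_⟩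
        funext l
        rw [hξ, Pi.zero_apply]
        ext t
        rw [coeff_hat, Derivation.zero_apply, map_zero]
      smul_mem' := by
        intro c δ hδ
        refine ⟨Γ.𝒟.smul_mem c hδ.1, fun i hi => ?_⟩
        funext l
        have h1 := congrFun (hδ.2 i hi) l
        rw [hξ] at h1
        rw [hξ, hat_smul_der, h1, Pi.zero_apply, mul_zero] }
  have hev0 : ∀ f : Fin (secDim 𝒜 m) → L⟦X⟧,
      Γ.ev j 0 f = ∑ i, x j ((a.chart (k j)).ρ (secBasis 𝒜 m i)) * f i := by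
    intro f
    rw [Γ.ev_apply]
    refine Finset.sum_congr rfl fun i _ => ?_
    have h0 : (a.chart (k j)).dd 0 = 1 := by
      unfold Chart.dd
      refine List.prod_eq_one fun y hy => ?_
      obtain ⟨l, _, rfl⟩ := List.mem_map.1 hy
      rw [Finsupp.zero_apply, pow_zero]
    rw [hu, h0, Module.End.one_apply]
  refine (a.chart (k j)).lattice_bound h hn m τ hτ hE Δ (x j) (Γ.Xirel j S)
    (Γ.finColen_Xirel j S hj) ?_ B M hB ?_ ?_
  · intro v hv
    obtain ⟨δ, hδ, rfl⟩ := (Γ.mem_Xirel j S v).1 hv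
    exact ⟨δ, hδ, fun l => (hξ δ j l).symm⟩
  · exact hM
  · intro f hf
    rw [← hev0 f]
    exact hev f hf

end Pool.Agent.Lib_GD
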