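import Pool.Agent.Lib_GD.HatLem
import Pool.Agent.Lib_GD.Cost

/-! K04: the jet bound (I3) and the T-bound. -/

open PowerSeries

namespace Pool.Agent.Lib_GD.ArcSystem

variable {L : Type} [Field L] [Algebra ℂ L] {n N : ℕ} (Γ : ArcSystem L n N)

private theorem JetBound_step (S : Finset (Fin N)) (j : Fin N) (hj : j ∉ S)
    (W : Submodule L⟦X⟧ (Fin N → L⟦X⟧)) (hW : Γ.Stable S W) (b : ℕ) (β : Fin n →₀ ℕ)
    (ih : ∀ f ∈ W, (X : L⟦X⟧) ^ b ∣ X ^ (β.degree * Γ.cost j S) * Γ.ev j β f) (l : Fin n) :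
    ∀ f ∈ W, (X : L⟦X⟧) ^ b ∣
      X ^ ((β + Finsupp.single l 1).degree * Γ.cost j S) * Γ.ev j (β + Finsupp.single l 1) f := by
  intro f hf
  have h1 := Γ.X_pow_cost_smul_mem j S hj (Pi.single l 1)
  obtain ⟨δ, hδ, hξ⟩ := (Γ.mem_Xirel j S _).1 h1
  have h2 := X_pow_dvd_hat δ (ih f hf)
  rw [hat_X_pow_mul, Γ.hat_ev δ hδ.1, hξ, mul_add] at h2
  have h3 := ih _ (hW δ hδ f hf)
  have h4 := (dvd_add_right h3).1 h2
  have h5 : ∑ l', (((X : L⟦X⟧) ^ Γ.cost j S • (Pi.single l 1 : Fin n → L⟦X⟧)) l') *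
      Γ.ev j (β + Finsupp.single l' 1) f = X ^ Γ.cost j S * Γ.ev j (β + Finsupp.single l 1) f := by
    rw [Finset.sum_eq_single l]
    · rw [Pi.smul_apply, Pi.single_eq_same, smul_eq_mul, mul_one]
    · intro l' _ hl'
      rw [Pi.smul_apply, Pi.single_eq_of_ne hl', smul_zero, zero_mul]
    · intro h
      exact absurd (Finset.mem_univ l) h
  rw [h5] at h4
  have h6 : (β + Finsupp.single l 1).degree = β.degree + 1 := by
    rw [map_add, Finsupp.degree_single]
  rw [h6, add_mul, one_mul, pow_add, mul_assoc]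
  exact h4

/-- (I3): if `W` is stable and all values at `x_j` are divisible by `X ^ b`, then the jets of
order `|α|` are divisible by `X ^ (b - |α| a(j|S))`. -/
theorem jet_dvd (S : Finset (Fin N)) (j : Fin N) (hj : j ∉ S)
    (W : Submodule L⟦X⟧ (Fin N → L⟦X⟧)) (hW : Γ.Stable S W) (b : ℕ)
    (hb : ∀ f ∈ W, (X : L⟦X⟧) ^ b ∣ Γ.ev j 0 f) (α : Fin n →₀ ℕ) :
    ∀ f ∈ W, (X : L⟦X⟧) ^ b ∣ X ^ (α.degree * Γ.cost j S) * Γ.ev j α f := by
  obtain ⟨m, hm⟩ : ∃ m, α.degree = m := ⟨_, rfl⟩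
  induction m generalizing α with
  | zero =>
    intro f hf
    have h0 : α = 0 := (Finsupp.degree_eq_zero_iff α).1 hm
    subst h0
    exact Dvd.dvd.mul_left (hb f hf) _
  | succ m ih =>
    have hne : α ≠ 0 := by
      rintro rfl
      rw [map_zero] at hm
      exact absurd hm (by omega)
    obtain ⟨l, hl⟩ := Finsupp.ne_iff.1 hne
    have hl' : 1 ≤ α l := Nat.one_le_iff_ne_zero.2 hl
    have h1 : α - Finsupp.single l 1 + Finsupp.single l 1 = α := by
      ext i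
      rw [Finsupp.add_apply, Finsupp.tsub_apply]
      by_cases h : i = l
      · subst h
        rw [Finsupp.single_eq_same]
        omega
      · rw [Finsupp.single_eq_of_ne h]
        omega
    have h2 : (α - Finsupp.single l 1).degree = m := by
      have h3 : (α - Finsupp.single l 1 + Finsupp.single l 1).degree = m + 1 := by rw [h1, hm]
      rw [map_add, Finsupp.degree_single] at h3
      omega
    have h3 := Γ.JetBound_step S j hj W hW b (α - Finsupp.single l 1) (ih _ h2) l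
    rw [h1] at h3
    exact h3

/-- (T-bound): if moreover `W` contains an element which is non-zero modulo `X`, then
`b ≤ D a(j|S)`. -/
theorem le_of_primitive {D : ℕ} (hD : Γ.HT D) (S : Finset (Fin N)) (j : Fin N) (hj : j ∉ S)
    (W : Submodule L⟦X⟧ (Fin N → L⟦X⟧)) (hW : Γ.Stable S W) (b : ℕ)
    (hb : ∀ f ∈ W, (X : L⟦X⟧) ^ b ∣ Γ.ev j 0 f)
    (hp : ∃ f ∈ W, ∃ i, constantCoeff (f i) ≠ 0) : b ≤ D * Γ.cost j S := by
  obtain ⟨f, hf, i, hi⟩ := hp
  obtain ⟨α, hα, h1⟩ := hD j (fun i => constantCoeff (f i)) (fun h => hi (congrFun h i))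
  have h2 := Γ.jet_dvd S j hj W hW b hb α f hf
  have h3 : constantCoeff (Γ.ev j α f) ≠ 0 := by
    rw [ev_apply, map_sum]
    simp only [map_mul]
    exact h1
  have h4 : b ≤ α.degree * Γ.cost j S := by
    by_contra h
    have h5 : (X : L⟦X⟧) ^ (α.degree * Γ.cost j S + 1) ∣
        X ^ (α.degree * Γ.cost j S) * Γ.ev j α f :=
      dvd_trans (pow_dvd_pow _ (by omega)) h2
    rw [pow_succ] at h5
    have h6 : (X : L⟦X⟧) ∣ Γ.ev j α f :=
      (mul_dvd_mul_iff_left (pow_ne_zero _ PowerSeries.X_ne_zero)).1 h5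
    exact h3 (PowerSeries.X_dvd_iff.1 h6)
  exact le_trans h4 (Nat.mul_le_mul_right _ hα)

end Pool.Agent.Lib_GD.ArcSystem
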