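import Pool.Agent.Lib_GD.Rational
import Pool.Agent.Lib_GD.Colen

/-! J01b: elementary divisors over the constants. -/

open PowerSeries

namespace Pool.Agent.Lib_GD

variable {L : Type} [Field L] [Algebra ℂ L]

section Aux

variable {N : ℕ} (K : IntermediateField ℂ L)

/-- base change of a vector of power series -/
private noncomputable def RatBasis_bc (f : Fin N → K⟦X⟧) : Fin N → L⟦X⟧ :=
  fun i => PowerSeries.map (algebraMap K L) (f i)

private theorem RatBasis_bc_add (f g : Fin N → K⟦X⟧) :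
    RatBasis_bc K (f + g) = RatBasis_bc K f + RatBasis_bc K g := by
  funext i; simp [RatBasis_bc]

private theorem RatBasis_bc_zero : RatBasis_bc K (0 : Fin N → K⟦X⟧) = 0 := by
  funext i; simp [RatBasis_bc]

private theorem RatBasis_bc_smul (c : K⟦X⟧) (g : Fin N → K⟦X⟧) :
    RatBasis_bc K (c • g) = PowerSeries.map (algebraMap K L) c • RatBasis_bc K g := by
  funext i; simp [RatBasis_bc]

private theorem RatBasis_bc_sum {ι : Type} (s : Finset ι) (g : ι → Fin N → K⟦X⟧) :
    RatBasis_bc K (∑ i ∈ s, g i) = ∑ i ∈ s, RatBasis_bc K (g i) := by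
  funext i; simp [RatBasis_bc, Finset.sum_apply, map_sum]

/-- the rational part of a lattice -/
private noncomputable def RatBasis_MK (M : Submodule L⟦X⟧ (Fin N → L⟦X⟧)) :
    Submodule K⟦X⟧ (Fin N → K⟦X⟧) where
  carrier := {f | RatBasis_bc K f ∈ M}
  add_mem' {f g} hf hg := by
    simp only [Set.mem_setOf_eq, RatBasis_bc_add] at *
    exact M.add_mem hf hg
  zero_mem' := by
    simp only [Set.mem_setOf_eq, RatBasis_bc_zero]
    exact M.zero_mem
  smul_mem' c f hf := by
    simp only [Set.mem_setOf_eq, RatBasis_bc_smul] at *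
    exact M.smul_mem _ hf

/-- polynomial vectors with given coefficients -/
private noncomputable def RatBasis_poly {B : ℕ} (v : Fin N × Fin B → L) : Fin N → L⟦X⟧ :=
  fun i => PowerSeries.mk fun k => if h : k < B then v (i, ⟨k, h⟩) else 0

private theorem RatBasis_poly_add {B : ℕ} (v w : Fin N × Fin B → L) :
    RatBasis_poly (v + w) = RatBasis_poly v + RatBasis_poly w := by
  funext i
  ext k
  simp only [RatBasis_poly, coeff_mk, Pi.add_apply, map_add]
  split_ifs <;> simp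

private theorem RatBasis_poly_smul {B : ℕ} (c : L) (v : Fin N × Fin B → L) :
    RatBasis_poly (c • v) = (C c : L⟦X⟧) • RatBasis_poly v := by
  funext i
  ext k
  simp only [RatBasis_poly, coeff_mk, Pi.smul_apply, smul_eq_mul, coeff_C_mul]
  split_ifs <;> simp

private theorem RatBasis_poly_zero {B : ℕ} :
    RatBasis_poly (0 : Fin N × Fin B → L) = 0 := by
  funext i
  ext k
  simp [RatBasis_poly]

private theorem RatBasis_mem_of_dvd {B : ℕ} {M : Submodule L⟦X⟧ (Fin N → L⟦X⟧)}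
    (hB : ∀ f, (X : L⟦X⟧) ^ B • f ∈ M) {f : Fin N → L⟦X⟧} (hf : ∀ i, (X : L⟦X⟧) ^ B ∣ f i) :
    f ∈ M := by
  choose g hg using hf
  have : f = (X : L⟦X⟧) ^ B • g := by
    funext i; simp [hg i]
  rw [this]
  exact hB g

private theorem RatBasis_poly_dvd {B : ℕ} {f : Fin N → L⟦X⟧} {v : Fin N × Fin B → L}
    (hv : ∀ p, v p = coeff p.2.1 (f p.1)) (i : Fin N) :
    (X : L⟦X⟧) ^ B ∣ (f - RatBasis_poly v) i := by
  rw [X_pow_dvd_iff]
  intro k hk
  simp only [Pi.sub_apply, map_sub, RatBasis_poly, coeff_mk, dif_pos hk, hv]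
  simp

/-- the space of coefficient vectors of a lattice -/
private def RatBasis_U (B : ℕ) (M : Submodule L⟦X⟧ (Fin N → L⟦X⟧)) :
    Submodule L (Fin N × Fin B → L) where
  carrier := {v | ∃ f ∈ M, ∀ p, v p = coeff p.2.1 (f p.1)}
  add_mem' {v w} := by
    rintro ⟨f, hf, hf'⟩ ⟨g, hg, hg'⟩
    exact ⟨f + g, M.add_mem hf hg, fun p => by simp [hf' p, hg' p]⟩
  zero_mem' := ⟨0, M.zero_mem, fun p => by simp⟩
  smul_mem' c v := by
    rintro ⟨f, hf, hf'⟩
    exact ⟨(C c : L⟦X⟧) • f, M.smul_mem _ hf, fun p => by simp [hf' p]⟩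

/-- a stable lattice is generated by its rational part -/
private theorem RatBasis_gen {B : ℕ} (Δ : Set (Derivation ℂ L L))
    (M : Submodule L⟦X⟧ (Fin N → L⟦X⟧)) (hB : ∀ f, (X : L⟦X⟧) ^ B • f ∈ M)
    (hM : StableD Δ M) :
    M ≤ Submodule.span L⟦X⟧ {g | ∃ f ∈ RatBasis_MK (consts Δ) M, g = RatBasis_bc (consts Δ) f} := by
  set S : Set (Fin N → L⟦X⟧) :=
    {g | ∃ f ∈ RatBasis_MK (consts Δ) M, g = RatBasis_bc (consts Δ) f} with hS
  -- the vectors divisible by X ^ B
  have hXB : ∀ f : Fin N → L⟦X⟧, (∀ i, (X : L⟦X⟧) ^ B ∣ f i) → f ∈ Submodule.span L⟦X⟧ S := by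
    intro f hf
    choose g hg using hf
    have h1 : f = ∑ l, g l • ((X : L⟦X⟧) ^ B • (Pi.single l (1 : L⟦X⟧) : Fin N → L⟦X⟧)) := by
      funext i
      simp only [Finset.sum_apply, Pi.smul_apply, smul_eq_mul, Pi.single_apply]
      simp [hg i, mul_comm]
    rw [h1]
    refine Submodule.sum_mem _ fun l _ => Submodule.smul_mem _ _ (Submodule.subset_span ?_)
    refine ⟨(X : (consts Δ)⟦X⟧) ^ B • (Pi.single l 1), ?_, ?_⟩
    · show RatBasis_bc _ _ ∈ M
      rw [RatBasis_bc_smul]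
      simp only [map_pow, PowerSeries.map_X]
      exact hB _
    · rw [RatBasis_bc_smul]
      simp only [map_pow, PowerSeries.map_X]
      congr 1
      funext i
      by_cases h : i = l
      · subst h; simp [RatBasis_bc]
      · simp [RatBasis_bc, Pi.single_eq_of_ne h]
  have hU : ∀ δ ∈ Δ, ∀ v ∈ RatBasis_U B M, (fun i => δ (v i)) ∈ RatBasis_U B M := by
    rintro δ hδ v ⟨f, hf, hf'⟩
    exact ⟨fun i => hat δ (f i), hM δ hδ f hf, fun p => by
      show δ (v p) = _
      rw [coeff_hat, hf' p]⟩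
  have hspan := span_consts Δ (RatBasis_U B M) hU
  have key : ∀ v ∈ Submodule.span L {v | v ∈ RatBasis_U B M ∧ ∀ i, v i ∈ consts Δ},
      RatBasis_poly v ∈ Submodule.span L⟦X⟧ S := by
    intro v hv
    induction hv using Submodule.span_induction with
    | mem v hv =>
      obtain ⟨⟨f, hf, hf'⟩, hc⟩ := hv
      refine Submodule.subset_span ⟨fun i => PowerSeries.mk fun k =>
        if h : k < B then ⟨v (i, ⟨k, h⟩), hc _⟩ else 0, ?_, ?_⟩
      · show RatBasis_bc _ _ ∈ M
        have h1 : RatBasis_bc (consts Δ) (fun i => PowerSeries.mk fun k =>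
            if h : k < B then (⟨v (i, ⟨k, h⟩), hc _⟩ : consts Δ) else 0) = RatBasis_poly v := by
          funext i
          ext k
          simp only [RatBasis_bc, coeff_map, coeff_mk, RatBasis_poly]
          split_ifs <;> simp
        rw [h1]
        have h2 : RatBasis_poly v = f - (f - RatBasis_poly v) := by abel
        rw [h2]
        exact M.sub_mem hf (RatBasis_mem_of_dvd hB (RatBasis_poly_dvd hf'))
      · funext i
        ext k
        simp only [RatBasis_bc, coeff_map, coeff_mk, RatBasis_poly]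
        split_ifs <;> simp
    | zero => rw [RatBasis_poly_zero]; exact Submodule.zero_mem _
    | add v w _ _ hv hw => rw [RatBasis_poly_add]; exact Submodule.add_mem _ hv hw
    | smul c v _ hv => rw [RatBasis_poly_smul]; exact Submodule.smul_mem _ _ hv
  intro f hf
  have hv : (fun p : Fin N × Fin B => coeff p.2.1 (f p.1)) ∈ RatBasis_U B M :=
    ⟨f, hf, fun p => rfl⟩
  rw [← hspan] at hv
  have h1 := key _ hv
  have h2 : f = RatBasis_poly (fun p : Fin N × Fin B => coeff p.2.1 (f p.1)) +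
      (f - RatBasis_poly (fun p : Fin N × Fin B => coeff p.2.1 (f p.1))) := by abel
  rw [h2]
  exact Submodule.add_mem _ h1 (hXB _ (RatBasis_poly_dvd fun p => rfl))

/-- Smith normal form of the rational part -/
private theorem RatBasis_smith {B : ℕ} (M : Submodule L⟦X⟧ (Fin N → L⟦X⟧))
    (hB : ∀ f, (X : L⟦X⟧) ^ B • f ∈ M) :
    ∃ (b : Module.Basis (Fin N) K⟦X⟧ (Fin N → K⟦X⟧)) (μ : Fin N → ℕ),
      (∀ i, μ i ≤ B) ∧ (∀ i, (X : K⟦X⟧) ^ μ i • b i ∈ RatBasis_MK K M) ∧
      ∀ f ∈ RatBasis_MK K M, ∃ c : Fin N → K⟦X⟧, f = ∑ i, (c i * X ^ μ i) • b i := by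
  have hB' : ∀ f : Fin N → K⟦X⟧, (X : K⟦X⟧) ^ B • f ∈ RatBasis_MK K M := by
    intro f
    show RatBasis_bc _ _ ∈ M
    rw [RatBasis_bc_smul]
    simp only [map_pow, PowerSeries.map_X]
    exact hB _
  have hrank : Module.finrank K⟦X⟧ (RatBasis_MK K M) = Module.finrank K⟦X⟧ (Fin N → K⟦X⟧) := by
    apply le_antisymm
    · exact Submodule.finrank_le _
    · let φ : (Fin N → K⟦X⟧) →ₗ[K⟦X⟧] RatBasis_MK K M :=
        LinearMap.codRestrict _ (LinearMap.lsmul K⟦X⟧ (Fin N → K⟦X⟧) (X ^ B)) hB'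
      apply LinearMap.finrank_le_finrank_of_injective (f := φ)
      intro f g hfg
      have h1 : (X : K⟦X⟧) ^ B • f = (X : K⟦X⟧) ^ B • g := congrArg Subtype.val hfg
      funext i
      have h2 : (X : K⟦X⟧) ^ B * f i = X ^ B * g i := congrFun h1 i
      exact mul_left_cancel₀ (pow_ne_zero _ X_ne_zero) h2
  obtain ⟨b, a, ab, hab⟩ := Submodule.exists_smith_normal_form_of_rank_eq
    (Pi.basisFun K⟦X⟧ (Fin N)) hrank
  -- the coordinates of elements of the submodule
  have hcoord : ∀ f ∈ RatBasis_MK K M, ∃ c : Fin N → K⟦X⟧, f = ∑ i, (c i * a i) • b i := by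
    intro f hf
    refine ⟨fun i => ab.repr ⟨f, hf⟩ i, ?_⟩
    have h1 := congrArg Subtype.val (ab.sum_repr ⟨f, hf⟩)
    simp only [Submodule.coe_sum, Submodule.coe_smul, hab] at h1
    exact h1.symm.trans (Finset.sum_congr rfl fun i _ => by rw [smul_smul])
  have hdvd : ∀ i, a i ∣ (X : K⟦X⟧) ^ B := by
    intro i
    obtain ⟨c, hc⟩ := hcoord _ (hB' (b i))
    refine ⟨c i, ?_⟩
    have h1 := congrArg (fun f => b.repr f i) hc
    simp only [map_smul, Finsupp.smul_apply, Module.Basis.repr_self, map_sum,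
      Finsupp.coe_finset_sum, Finset.sum_apply, smul_eq_mul, Finsupp.single_apply] at h1
    simp only [if_true, mul_ite, mul_one, mul_zero, Finset.sum_ite_eq', Finset.mem_univ] at h1
    rw [h1, mul_comm]
  have hass : ∀ i, ∃ k ≤ B, Associated (a i) ((X : K⟦X⟧) ^ k) := fun i =>
    (dvd_prime_pow X_prime B).1 (hdvd i)
  choose μ hμ hassoc using hass
  refine ⟨b, μ, hμ, fun i => ?_, fun f hf => ?_⟩
  · obtain ⟨u, hu⟩ := hassoc i
    rw [← hu, mul_comm, mul_smul, ← hab]
    exact Submodule.smul_mem _ _ (ab i).2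
  · obtain ⟨c, hc⟩ := hcoord f hf
    choose u hu using fun i => (hassoc i).symm
    refine ⟨fun i => c i * u i, ?_⟩
    rw [hc]
    refine Finset.sum_congr rfl fun i _ => ?_
    rw [← hu i]
    congr 1
    ring

end Aux

/-- J01b: elementary divisors of a stable lattice, over the constants. -/
theorem exists_rational_basis {N B : ℕ} (Δ : Set (Derivation ℂ L L))
    (M : Submodule L⟦X⟧ (Fin N → L⟦X⟧)) (hB : ∀ f, (X : L⟦X⟧) ^ B • f ∈ M)
    (hM : StableD Δ M) :
    ∃ (e : Fin N → Fin N → L⟦X⟧) (lam : Fin N → ℕ),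
      (∀ i l k, coeff k (e i l) ∈ consts Δ) ∧ (∀ i l k, B < k → coeff k (e i l) = 0) ∧
      (∀ i, lam i ≤ B) ∧ (∑ i, lam i) + colen M = B * N ∧
      Matrix.det (Matrix.of fun i l => constantCoeff (e i l)) ≠ 0 ∧
      ∀ i, (X : L⟦X⟧) ^ (B - lam i) • e i ∈ M := by
  obtain ⟨b, μ, hμ, hbM, hcoord⟩ := RatBasis_smith (consts Δ) M hB
  set P : Matrix (Fin N) (Fin N) L⟦X⟧ :=
    Matrix.of fun i l => PowerSeries.map (algebraMap (consts Δ) L) (b i l) with hP
  have hPdet : IsUnit P.det := by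
    have h1 : IsUnit ((Pi.basisFun (consts Δ)⟦X⟧ (Fin N)).det b) :=
      (Pi.basisFun (consts Δ)⟦X⟧ (Fin N)).isUnit_det b
    rw [Pi.basisFun_det_apply] at h1
    have h2 : P.det = PowerSeries.map (algebraMap (consts Δ) L) (Matrix.of b).det := by
      rw [RingHom.map_det]
      rfl
    rw [h2]
    exact h1.map _
  have hbcP : ∀ i, RatBasis_bc (consts Δ) (b i) = P i := fun i => rfl
  -- the elements X ^ μ i • P i
  have hPM : ∀ i, (X : L⟦X⟧) ^ μ i • P i ∈ M := by
    intro i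
    have h1 : RatBasis_bc (consts Δ) ((X : (consts Δ)⟦X⟧) ^ μ i • b i) ∈ M := hbM i
    rw [RatBasis_bc_smul, hbcP] at h1
    simpa using h1
  -- the linear equivalence
  let φ : (Fin N → L⟦X⟧) ≃ₗ[L⟦X⟧] (Fin N → L⟦X⟧) :=
    LinearEquiv.ofLinear (P.vecMulLinear) (P⁻¹.vecMulLinear)
      (by
        refine LinearMap.ext fun x => ?_
        show Matrix.vecMul (Matrix.vecMul x P⁻¹) P = x
        rw [Matrix.vecMul_vecMul, Matrix.nonsing_inv_mul P hPdet, Matrix.vecMul_one])
      (by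
        refine LinearMap.ext fun x => ?_
        show Matrix.vecMul (Matrix.vecMul x P) P⁻¹ = x
        rw [Matrix.vecMul_vecMul, Matrix.mul_nonsing_inv P hPdet, Matrix.vecMul_one])
  have hφ : ∀ c, φ c = ∑ i, c i • P i := by
    intro c
    show Matrix.vecMul c P = _
    funext l
    simp [Matrix.vecMul, dotProduct, Finset.sum_apply]
  let Nμ : Submodule L⟦X⟧ (Fin N → L⟦X⟧) :=
    Submodule.pi Set.univ fun i => (Ideal.span {(X : L⟦X⟧) ^ μ i} : Ideal L⟦X⟧)
  have hNμ : Nμ.map (φ : (Fin N → L⟦X⟧) →ₗ[L⟦X⟧] (Fin N → L⟦X⟧)) = M := by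
    apply le_antisymm
    · rintro _ ⟨c, hc, rfl⟩
      have hc' : ∀ i, (X : L⟦X⟧) ^ μ i ∣ c i := fun i =>
        Ideal.mem_span_singleton.1 (hc i (Set.mem_univ i))
      choose d hd using hc'
      show φ c ∈ M
      rw [hφ]
      refine Submodule.sum_mem _ fun i _ => ?_
      rw [hd i, mul_comm, mul_smul]
      exact Submodule.smul_mem _ _ (hPM i)
    · refine (RatBasis_gen Δ M hB hM).trans (Submodule.span_le.2 ?_)
      rintro _ ⟨f, hf, rfl⟩
      obtain ⟨c, hc⟩ := hcoord f hf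
      refine ⟨fun i => PowerSeries.map (algebraMap (consts Δ) L) (c i * X ^ μ i), ?_, ?_⟩
      · intro i _
        refine Ideal.mem_span_singleton.2 ?_
        show _ ∣ PowerSeries.map (algebraMap (consts Δ) L) (c i * X ^ μ i)
        rw [map_mul, map_pow, PowerSeries.map_X]
        exact Dvd.intro_left _ rfl
      · show φ _ = _
        rw [hφ, hc, RatBasis_bc_sum]
        refine Finset.sum_congr rfl fun i _ => ?_
        rw [RatBasis_bc_smul, hbcP]
  have hcolen : colen M = ∑ i, μ i := by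
    have e1 : ((Fin N → L⟦X⟧) ⧸ Nμ) ≃ₗ[L⟦X⟧] ((Fin N → L⟦X⟧) ⧸ M) :=
      Submodule.Quotient.equiv Nμ M φ hNμ
    have e2 : ((Fin N → L⟦X⟧) ⧸ Nμ) ≃ₗ[L⟦X⟧]
        (∀ i, L⟦X⟧ ⧸ (Ideal.span {(X : L⟦X⟧) ^ μ i} : Ideal L⟦X⟧)) :=
      Submodule.quotientPi (fun i => (Ideal.span {(X : L⟦X⟧) ^ μ i} : Ideal L⟦X⟧))
    have h1 : ∀ i, Module.length L⟦X⟧ (L⟦X⟧ ⧸ (Ideal.span {(X : L⟦X⟧) ^ μ i} : Ideal L⟦X⟧)) =
        μ i := by
      intro i
      rw [← Ideal.span_singleton_pow, ← PowerSeries.maximalIdeal_eq_span_X]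
      exact IsDiscreteValuationRing.length_quotient_pow_maximalIdeal _ _
    rw [colen, ← e1.length_eq, e2.length_eq, Module.length_pi_of_fintype]
    simp_rw [h1]
    rw [← Nat.cast_sum, ENat.toNat_coe]
  -- truncation
  refine ⟨fun i l => PowerSeries.mk fun k => if k ≤ B then coeff k (P i l) else 0,
    fun i => B - μ i, ?_, ?_, fun i => Nat.sub_le _ _, ?_, ?_, ?_⟩
  · intro i l k
    rw [coeff_mk]
    split_ifs
    · rw [hP, Matrix.of_apply, coeff_map]
      exact (coeff k (b i l)).2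
    · exact zero_mem _
  · intro i l k hk
    rw [coeff_mk, if_neg (not_le.2 hk)]
  · rw [hcolen, ← Finset.sum_add_distrib]
    rw [Finset.sum_congr rfl fun i _ => Nat.sub_add_cancel (hμ i)]
    simp [mul_comm]
  · have h1 : (Matrix.of fun i l => constantCoeff (PowerSeries.mk fun k =>
        if k ≤ B then coeff k (P i l) else 0)) = P.map constantCoeff := by
      ext i l
      rw [Matrix.of_apply, Matrix.map_apply, ← coeff_zero_eq_constantCoeff_apply, coeff_mk,
        if_pos (Nat.zero_le _), coeff_zero_eq_constantCoeff_apply]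
    rw [h1]
    have h2 : (P.map (constantCoeff (R := L))).det = constantCoeff P.det := by
      rw [RingHom.map_det]; rfl
    rw [h2]
    exact (hPdet.map (constantCoeff (R := L))).ne_zero
  · intro i
    have hi : B - (B - μ i) = μ i := Nat.sub_sub_self (hμ i)
    rw [hi]
    have h1 : (X : L⟦X⟧) ^ μ i • (fun l => PowerSeries.mk fun k =>
        if k ≤ B then coeff k (P i l) else 0) = (X : L⟦X⟧) ^ μ i • P i -
        (X : L⟦X⟧) ^ μ i • (P i - fun l => PowerSeries.mk fun k =>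
        if k ≤ B then coeff k (P i l) else 0) := by
      rw [smul_sub]; abel
    rw [h1]
    refine M.sub_mem (hPM i) (M.smul_mem _ (RatBasis_mem_of_dvd hB fun l => ?_))
    rw [X_pow_dvd_iff]
    intro k hk
    simp only [Pi.sub_apply, map_sub, coeff_mk, if_pos hk.le, sub_self]

end Pool.Agent.Lib_GD
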