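import Pool.Agent.Lib_GD.TrdegBound
import Pool.Agent.Lib_GD.RatBasis

/-! J02b: algebraic independence of coefficients. -/

open PowerSeries

namespace Pool.Agent.Lib_GD

variable {L : Type} [Field L] [Algebra ℂ L]

/-- The residue field of `L⟦X⟧` is `L`. -/
private theorem TrdegCoeff_residue (K : Type) [Field K] : Function.Surjective
    (algebraMap (IsLocalRing.ResidueField K) (IsLocalRing.ResidueField K⟦X⟧)) := by
  intro y
  obtain ⟨f, rfl⟩ := IsLocalRing.residue_surjective y
  refine ⟨IsLocalRing.residue K (constantCoeff f), ?_⟩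
  rw [IsLocalRing.ResidueField.algebraMap_residue, ← sub_eq_zero, ← map_sub,
    IsLocalRing.residue_eq_zero_iff, PowerSeries.maximalIdeal_eq_span_X,
    Ideal.mem_span_singleton, PowerSeries.X_dvd_iff, map_sub]
  have h1 : (algebraMap K K⟦X⟧) (constantCoeff f) = C (constantCoeff f) := rfl
  rw [h1, PowerSeries.constantCoeff_C, sub_self]

/-- Length over `L⟦X⟧` and over `L`. -/
private theorem TrdegCoeff_length (K : Type) [Field K] (M : Type) [AddCommGroup M]
    [Module K M] [Module K⟦X⟧ M] [IsScalarTower K K⟦X⟧ M] :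
    Module.length K M = Module.length K⟦X⟧ M := by
  have h1 := IsLocalRing.length_restrictScalars K K⟦X⟧ M
  have h2 : Module.length (IsLocalRing.ResidueField K) (IsLocalRing.ResidueField K⟦X⟧) = 1 := by
    rw [Module.length_eq_of_surjective (M := IsLocalRing.ResidueField K⟦X⟧)
      (TrdegCoeff_residue K), Module.length_eq_one]
  rw [h2, mul_one] at h1
  exact h1

/-- Truncation of the coefficients. -/
private noncomputable def TrdegCoeff_T (K : Type) [Field K] (n k : ℕ) :
    (Fin n → K⟦X⟧) →ₗ[K] (Fin n × Fin k → K) where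
  toFun v p := coeff (p.2 : ℕ) (v p.1)
  map_add' v w := by
    funext p
    simp only [Pi.add_apply, map_add]
  map_smul' c v := by
    funext p
    simp only [Pi.smul_apply, PowerSeries.coeff_smul, RingHom.id_apply]

private theorem TrdegCoeff_T_surj (K : Type) [Field K] (n k : ℕ) :
    Function.Surjective (TrdegCoeff_T K n k) := by
  intro w
  refine ⟨fun l => PowerSeries.mk fun i => if h : i < k then w (l, ⟨i, h⟩) else 0, ?_⟩
  funext p
  simp only [TrdegCoeff_T, LinearMap.coe_mk, AddHom.coe_mk, PowerSeries.coeff_mk, p.2.2,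
    dif_pos, Fin.eta, Prod.mk.eta]

private theorem TrdegCoeff_finrank (K : Type) [Field K] (n k : ℕ)
    (Ξ : Submodule K⟦X⟧ (Fin n → K⟦X⟧)) (hΞ : FinColen Ξ) :
    n * k ≤ Module.finrank K ((Ξ.restrictScalars K).map (TrdegCoeff_T K n k)) + colen Ξ := by
  set R := (Ξ.restrictScalars K).map (TrdegCoeff_T K n k) with hR
  -- the quotient by `Ξ` is finite-dimensional
  have h1 : Module.length K ((Fin n → K⟦X⟧) ⧸ Ξ) = Module.length K⟦X⟧ ((Fin n → K⟦X⟧) ⧸ Ξ) :=
    TrdegCoeff_length K _
  have h2 : Module.length K ((Fin n → K⟦X⟧) ⧸ Ξ) ≠ ⊤ := by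
    rw [h1]
    exact hΞ
  have h3 : Module.Finite K ((Fin n → K⟦X⟧) ⧸ Ξ) := by
    have h4 := (isFiniteLength_iff_isNoetherian_isArtinian.1 (Module.length_ne_top_iff.1 h2)).1
    infer_instance
  have h5 : Module.finrank K ((Fin n → K⟦X⟧) ⧸ Ξ) = colen Ξ := by
    unfold colen
    rw [← h1, Module.length_eq_finrank, ENat.toNat_natCast]
  -- the induced surjection
  let g : ((Fin n → K⟦X⟧) ⧸ Ξ.restrictScalars K) →ₗ[K] ((Fin n × Fin k → K) ⧸ R) :=
    Submodule.mapQ _ R (TrdegCoeff_T K n k) (Submodule.le_comap_map _ _)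
  have hg : Function.Surjective g := by
    intro y
    obtain ⟨w, rfl⟩ := Submodule.Quotient.mk_surjective _ y
    obtain ⟨v, rfl⟩ := TrdegCoeff_T_surj K n k w
    exact ⟨Submodule.Quotient.mk v, rfl⟩
  let e := Submodule.Quotient.restrictScalarsEquiv K Ξ
  have h6 : Module.finrank K ((Fin n × Fin k → K) ⧸ R) ≤ colen Ξ := by
    rw [← h5]
    exact LinearMap.finrank_le_finrank_of_surjective
      (f := g ∘ₗ e.symm.toLinearMap) (hg.comp e.symm.surjective)
  have h7 : Module.finrank K ((Fin n × Fin k → K) ⧸ R) + Module.finrank K R = n * k := by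
    rw [Submodule.finrank_quotient_add_finrank, Module.finrank_fintype_fun_eq_card,
      Fintype.card_prod, Fintype.card_fin, Fintype.card_fin]
  omega

/-- J02b: if the values on `n` power series `η_l` of the derivations in `Δ` form a submodule of
colength `a` of `O^n`, then among the coefficients of order `< k` at least `n k - a` are
algebraically independent over the constants of `Δ`. -/
theorem exists_algebraicIndependent_coeff {n : ℕ} (Δ : Submodule L (Derivation ℂ L L))
    (η : Fin n → L⟦X⟧) (Ξ : Submodule L⟦X⟧ (Fin n → L⟦X⟧)) (hΞ : FinColen Ξ)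
    (h : ∀ v ∈ Ξ, ∃ δ ∈ Δ, ∀ l, hat δ (η l) = v l) (k : ℕ) :
    ∃ s : Finset (Fin n × Fin k), n * k ≤ s.card + colen Ξ ∧
      AlgebraicIndependent (consts (Δ : Set (Derivation ℂ L L)))
        (fun p : s => coeff (p.1.2 : ℕ) (η p.1.1)) := by
  have h1 := TrdegCoeff_finrank L n k Ξ hΞ
  obtain ⟨s, hs, hs'⟩ := exists_algebraicIndependent Δ
    (fun p : Fin n × Fin k => coeff (p.2 : ℕ) (η p.1)) _
    (Submodule.finrank_mono (s := (Ξ.restrictScalars L).map (TrdegCoeff_T L n k)) (by
      rintro w ⟨v, hv, rfl⟩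
      obtain ⟨δ, hδ, hδv⟩ := h v hv
      refine Submodule.subset_span ⟨δ, hδ, fun p => ?_⟩
      rw [← coeff_hat, hδv]
      rfl))
  exact ⟨s, by omega, hs'⟩

end Pool.Agent.Lib_GD
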