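import Pool.Agent.Lib_GD.Special
import Pool.Agent.Lib_GD.Degen
import Pool.Agent.Lib_GD.GenLift
import Pool.Agent.Lib_GD.ArcDivisor
import Pool.Agent.Lib_GD.TrdegCoeff

/-! J08: (I2) for one arc. -/

open PowerSeries

namespace Pool.Agent.Lib_GD

variable {R : Type} [CommRing R] [Algebra ℂ R] {𝒜 : ℕ → Submodule ℂ R} [GradedAlgebra 𝒜]
  {n : ℕ}

/-- An invertible matrix applied to a linearly independent family. -/
private theorem LatBound_linInd {N : ℕ} {V : Type} [AddCommGroup V] [Module ℂ V] (v : Fin N → V)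
    (hv : LinearIndependent ℂ v) (A : Matrix (Fin N) (Fin N) ℂ) (hA : A.det ≠ 0) :
    LinearIndependent ℂ (fun i => ∑ l, A i l • v l) := by
  classical
  rw [Fintype.linearIndependent_iff] at hv ⊢
  intro g hg
  have h1 : ∑ l, (∑ i, g i * A i l) • v l = 0 := by
    rw [← hg]
    simp only [Finset.smul_sum, Finset.sum_smul, smul_smul]
    exact Finset.sum_comm
  have h2 := hv _ h1
  have h3 : Matrix.vecMul g A = 0 := by
    funext l
    exact h2 l
  have h4 := Matrix.eq_zero_of_vecMul_eq_zero hA h3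
  exact fun i => congrFun h4 i

/-- J08: (I2) for one arc. -/
theorem Chart.lattice_bound (h : IsSmoothPolarised 𝒜 n) (hn : 1 ≤ n) (c : Chart 𝒜 n) (m : ℕ)
    (τ : ℝ) (hτ : 0 ≤ τ)
    (hE : ∀ E : DivisorOver 𝒜 n 1, E.logDisc ≠ ⊤ → ∀ b : Fin (secDim 𝒜 m) → R,
      (∀ i, b i ∈ 𝒜 m) → LinearIndependent ℂ b →
      ((∑ i, (E.ord (E.φ 0 (b i))).toNat : ℕ) : ℝ) ≤ τ * E.logDisc.toNat)
    {L : Type} [Field L] [Algebra ℂ L] (Δ : Submodule L (Derivation ℂ L L))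
    (x : c.B →ₐ[ℂ] L⟦X⟧) (Ξ : Submodule L⟦X⟧ (Fin n → L⟦X⟧)) (hΞ : FinColen Ξ)
    (hΞΔ : ∀ v ∈ Ξ, ∃ δ ∈ Δ, ∀ l, hat δ (x (c.y l)) = v l) (B : ℕ)
    (M : Submodule L⟦X⟧ (Fin (secDim 𝒜 m) → L⟦X⟧)) (hB : ∀ f, (X : L⟦X⟧) ^ B • f ∈ M)
    (hM : StableD (Δ : Set (Derivation ℂ L L)) M)
    (hx : ∀ f ∈ M, (X : L⟦X⟧) ^ B ∣ ∑ i, x (c.ρ (secBasis 𝒜 m i)) * f i) :
    (B : ℝ) * secDim 𝒜 m - colen M ≤ τ * colen Ξ := by
  classical
  obtain ⟨e, lam, he, he', hlam, hsum, hdet, hmem⟩ :=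
    exists_rational_basis (Δ : Set (Derivation ℂ L L)) M hB hM
  -- the orders of the sections `∑ e_il s_l` on the arc
  have hord : ∀ i, (X : L⟦X⟧) ^ lam i ∣ ∑ l, e i l * x (c.ρ (secBasis 𝒜 m l)) := by
    intro i
    have h1 := hx _ (hmem i)
    have h2 : ∑ l, x (c.ρ (secBasis 𝒜 m l)) * ((X : L⟦X⟧) ^ (B - lam i) • e i) l =
        X ^ (B - lam i) * ∑ l, e i l * x (c.ρ (secBasis 𝒜 m l)) := by
      rw [Finset.mul_sum]
      refine Finset.sum_congr rfl fun l _ => ?_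
      rw [Pi.smul_apply, smul_eq_mul]
      ring
    rw [h2] at h1
    have h3 : (X : L⟦X⟧) ^ B = X ^ (B - lam i) * X ^ lam i := by
      rw [← pow_add, Nat.sub_add_cancel (hlam i)]
    rw [h3] at h1
    exact (mul_dvd_mul_iff_left (pow_ne_zero _ PowerSeries.X_ne_zero)).1 h1
  obtain ⟨s, hs, hsI⟩ :=
    exists_algebraicIndependent_coeff Δ (fun l => x (c.y l)) Ξ hΞ hΞΔ (B + 1)
  obtain ⟨L₁, _, _, x₁, e₁, hdet₁, hx₁, hs₁⟩ :=
    c.specialise (consts (Δ : Set (Derivation ℂ L L))) x (secBasis 𝒜 m) e he he' hdet lam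
      (Nat.le_add_left 1 B) (fun i => le_trans (hlam i) (Nat.le_succ B)) hord s hsI
  obtain ⟨L₂, _, _, x₂, s₂, hcard, hx₂, hs₂⟩ :=
    c.degenerate x₁ (secBasis 𝒜 m) e₁ lam (Nat.le_add_left 1 B)
      (fun i => le_trans (hlam i) (Nat.le_succ B)) hx₁ s hs₁
  obtain ⟨L₃, _, _, j, x₃, hx₃, hmove, hrank⟩ :=
    c.generic_lift x₂ (B + 1) (Nat.le_add_left 1 B) s₂ hs₂
  have hdiv := c.exists_divisor h hn x₃ (B + 1) (colen Ξ) hmove (by omega)
  have hinj : Function.Injective x₃ := c.arc_injective x₃ (B + 1) hmove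
  -- the constant basis
  obtain ⟨hb1, hb2, -⟩ := secBasis_spec h m
  set b : Fin (secDim 𝒜 m) → R := fun i => ∑ l, constantCoeff (e₁ i l) • secBasis 𝒜 m l with hb
  have hbmem : ∀ i, b i ∈ 𝒜 m := fun i =>
    Submodule.sum_mem _ fun l _ => Submodule.smul_mem _ _ (hb1 l)
  have hbind : LinearIndependent ℂ b :=
    LatBound_linInd _ hb2 (Matrix.of fun i l => constantCoeff (e₁ i l)) hdet₁
  have hbne : ∀ i, b i ≠ 0 := fun i => hbind.ne_zero i
  have hx₂b : ∀ i, x₂ (c.ρ (b i)) =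
      ∑ l, algebraMap ℂ L₂⟦X⟧ (constantCoeff (e₁ i l)) * x₂ (c.ρ (secBasis 𝒜 m l)) := by
    intro i
    simp only [hb, map_sum]
    refine Finset.sum_congr rfl fun l _ => ?_
    rw [map_smul, map_smul, Algebra.smul_def]
  have hle : ∀ i, ((lam i : ℕ) : ℕ∞) ≤ (x₃ (c.ρ (b i))).order := by
    intro i
    refine PowerSeries.nat_le_order _ _ fun k hk => ?_
    rw [hx₃ _ k (by have := hlam i; omega)]
    have h1 : (X : L₂⟦X⟧) ^ lam i ∣ x₂ (c.ρ (b i)) := by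
      rw [hx₂b]; exact hx₂ i
    rw [X_pow_dvd_iff.1 h1 k hk, map_zero]
  have hfin : ∀ i, (x₃ (c.ρ (b i))).order ≠ ⊤ := by
    intro i h1
    rw [PowerSeries.order_eq_top] at h1
    have h2 : c.ρ (b i) = 0 := hinj (by rw [h1, map_zero])
    exact hbne i (c.inj m _ (hbmem i) h2)
  have hgoal : (B : ℝ) * secDim 𝒜 m - colen M = ((∑ i, lam i : ℕ) : ℝ) := by
    have : ((∑ i, lam i : ℕ) : ℝ) + colen M = B * secDim 𝒜 m := by exact_mod_cast hsum
    linarith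
  rw [hgoal]
  rcases hdiv with htriv | ⟨E, q, hq, hqa, hqE⟩
  · have h0 : ∀ i, lam i = 0 := by
      intro i
      have h1 := hle i
      rw [htriv m _ (hbmem i) (hbne i)] at h1
      have : ((lam i : ℕ) : ℕ∞) = 0 := le_antisymm h1 zero_le
      exact_mod_cast this
    have h1 : ∑ i, lam i = 0 := Finset.sum_eq_zero fun i _ => h0 i
    rw [h1]
    simpa using mul_nonneg hτ (Nat.cast_nonneg (colen Ξ))
  · have hq0 : (q : ℕ∞) ≠ 0 := by
      intro h1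
      have : q = 0 := by exact_mod_cast h1
      omega
    have hfinD : E.logDisc ≠ ⊤ := by
      intro h1
      rw [h1, ENat.mul_top hq0] at hqa
      exact absurd (top_le_iff.1 hqa) (ENat.natCast_ne_top _)
    have h1 := hE E hfinD b hbmem hbind
    obtain ⟨A, hA⟩ := ENat.ne_top_iff_exists.1 hfinD
    have hqA : q * A ≤ colen Ξ := by
      rw [← hA] at hqa
      exact_mod_cast hqa
    have h2 : ∀ i, lam i ≤ q * (E.ord (E.φ 0 (b i))).toNat := by
      intro i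
      have h3 := hle i
      have h4 := hfin i
      rw [hqE m _ (hbmem i)] at h3 h4
      have h5 : E.ord (E.φ 0 (b i)) ≠ ⊤ := by
        intro h6
        rw [h6, ENat.mul_top hq0] at h4
        exact h4 rfl
      obtain ⟨o, ho⟩ := ENat.ne_top_iff_exists.1 h5
      rw [← ho] at h3 ⊢
      rw [ENat.toNat_natCast]
      exact_mod_cast h3
    have h3 : ∑ i, lam i ≤ q * ∑ i, (E.ord (E.φ 0 (b i))).toNat := by
      rw [Finset.mul_sum]
      exact Finset.sum_le_sum fun i _ => h2 i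
    rw [← hA, ENat.toNat_natCast] at h1
    calc ((∑ i, lam i : ℕ) : ℝ) ≤ ((q * ∑ i, (E.ord (E.φ 0 (b i))).toNat : ℕ) : ℝ) := by
          exact_mod_cast h3
      _ = q * ((∑ i, (E.ord (E.φ 0 (b i))).toNat : ℕ) : ℝ) := by push_cast; ring
      _ ≤ q * (τ * A) := mul_le_mul_of_nonneg_left h1 (Nat.cast_nonneg _)
      _ = τ * ((q * A : ℕ) : ℝ) := by push_cast; ring
      _ ≤ τ * colen Ξ := mul_le_mul_of_nonneg_left (by exact_mod_cast hqA) hτ

end Pool.Agent.Lib_GD
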