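import Pool.Agent.Lib_GD.ChartDer

/-! J03: lifting truncated arcs (smoothness). -/

open PowerSeries

namespace Pool.Agent.Lib_GD

variable {R : Type} [CommRing R] [Algebra ℂ R] {𝒜 : ℕ → Submodule ℂ R} {n : ℕ}

private theorem Lift_complete (L : Type) [Field L] (k : ℕ) (hk : 1 ≤ k) :
    IsAdicComplete (Ideal.span {(X : L⟦X⟧) ^ k}) L⟦X⟧ := by
  have h0 : IsAdicComplete (Ideal.span {(X : L⟦X⟧)}) L⟦X⟧ := inferInstance
  have hpow : ∀ m, (Ideal.span {(X : L⟦X⟧) ^ k}) ^ m = (Ideal.span {(X : L⟦X⟧)}) ^ (k * m) := by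
    intro m
    rw [Ideal.span_singleton_pow, Ideal.span_singleton_pow, pow_mul]
  have hle : ∀ m, (Ideal.span {(X : L⟦X⟧) ^ k}) ^ m ≤ (Ideal.span {(X : L⟦X⟧)}) ^ m := by
    intro m
    rw [hpow]
    exact Ideal.pow_le_pow_right (Nat.le_mul_of_pos_left m hk)
  have hH : IsHausdorff (Ideal.span {(X : L⟦X⟧) ^ k}) L⟦X⟧ := by
    refine ⟨fun x hx => h0.toIsHausdorff.haus' x fun m => ?_⟩
    exact (hx m).mono (Submodule.smul_mono_left (hle m))
  have hP : IsPrecomplete (Ideal.span {(X : L⟦X⟧) ^ k}) L⟦X⟧ := by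
    refine ⟨fun f hf => ?_⟩
    obtain ⟨l, hl⟩ := h0.toIsPrecomplete.prec' f (fun {m n} hmn =>
      (hf hmn).mono (Submodule.smul_mono_left (hle m)))
    refine ⟨l, fun m => ?_⟩
    have h1 := hf (m := m) (n := k * m) (Nat.le_mul_of_pos_left m hk)
    have h2 := hl (k * m)
    rw [← hpow] at h2
    exact h1.trans h2
  exact { toIsHausdorff := hH, toIsPrecomplete := hP }

/-- J03a: a homomorphism from the ring of a chart to `L⟦X⟧ / X ^ k` lifts to `L⟦X⟧`. -/
theorem Chart.exists_lift (c : Chart 𝒜 n) {L : Type} [Field L] [Algebra ℂ L] (k : ℕ)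
    (hk : 1 ≤ k) (x : c.B →ₐ[ℂ] (L⟦X⟧ ⧸ Ideal.span {(X : L⟦X⟧) ^ k})) :
    ∃ x' : c.B →ₐ[ℂ] L⟦X⟧, ∀ b, Ideal.Quotient.mk _ (x' b) = x b := by
  have := Lift_complete L k hk
  obtain ⟨g, hg⟩ := Algebra.FormallySmooth.exists_mkₐ_comp_eq_of_isAdicComplete x
  exact ⟨g, fun b => DFunLike.congr_fun hg b⟩

section perturb

open scoped PowerSeries.WithPiTopology

private theorem Lift_eval {L : Type} [Field L] (k : ℕ) (hk : 1 ≤ k)
    (Z : Fin n → L⟦X⟧) (hZ : ∀ l, X ^ k ∣ Z l) :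
    ∃ E : MvPowerSeries (Fin n) L⟦X⟧ →ₐ[L⟦X⟧] L⟦X⟧, (∀ l, E (MvPowerSeries.X l) = Z l) ∧
      ∀ f, X ^ k ∣ E f - MvPowerSeries.constantCoeff f := by
  let _ : UniformSpace L := ⊥
  have _ : DiscreteTopology L := ⟨rfl⟩
  have hZ0 : ∀ l, constantCoeff (Z l) = 0 := by
    intro l
    have := (X_pow_dvd_iff.1 (hZ l)) 0 hk
    simpa using this
  have ha : MvPowerSeries.HasEval Z := by
    refine ⟨fun l => PowerSeries.WithPiTopology.isTopologicallyNilpotent_of_constantCoeff_zero (hZ0 l), ?_⟩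
    rw [Filter.cofinite_eq_bot]
    exact Filter.tendsto_bot
  refine ⟨MvPowerSeries.aeval ha, ?_, ?_⟩
  · intro l
    have := MvPowerSeries.aeval_coe (R := L⟦X⟧) ha (MvPolynomial.X l)
    simpa using this
  · intro f
    rw [X_pow_dvd_iff]
    intro i hi
    have h1 := MvPowerSeries.hasSum_aeval ha f
    have h2 := (PowerSeries.WithPiTopology.hasSum_iff_hasSum_coeff _).1 h1 i
    have h3 : ∀ d : Fin n →₀ ℕ, d ≠ 0 → (coeff i) (MvPowerSeries.coeff d f •
        d.prod fun s e => (Z s) ^ e) = 0 := by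
      intro d hd
      obtain ⟨l, hl⟩ := Finsupp.ne_iff.1 hd
      have h4 : X ^ k ∣ d.prod fun s e => (Z s) ^ e := by
        refine dvd_trans ?_ (Finset.dvd_prod_of_mem (fun s => (Z s) ^ (d s))
          (Finsupp.mem_support_iff.2 hl))
        exact (hZ l).trans (dvd_pow_self _ hl)
      have h5 : X ^ k ∣ (MvPowerSeries.coeff d f • d.prod fun s e => (Z s) ^ e) := by
        rw [smul_eq_mul]
        exact h4.mul_left _
      exact (X_pow_dvd_iff.1 h5) i hi
    have h6 := hasSum_single (f := fun d : Fin n →₀ ℕ => (coeff i) (MvPowerSeries.coeff d f •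
        d.prod fun s e => (Z s) ^ e)) 0 (fun d hd => h3 d hd)
    have h7 := h2.unique h6
    rw [map_sub, h7]
    simp

end perturb

private theorem Lift_single {α : Fin n →₀ ℕ} (h : α ≠ 0) :
    ∃ (β : Fin n →₀ ℕ) (m : Fin n), α = β + Finsupp.single m 1 := by
  obtain ⟨m, hm⟩ := Finsupp.ne_iff.1 h
  have hm' : α m ≠ 0 := hm
  refine ⟨α - Finsupp.single m 1, m, ?_⟩
  rw [tsub_add_cancel_of_le]
  rw [Finsupp.single_le_iff]
  omega

private theorem Lift_tay_y (c : Chart 𝒜 n) {L : Type} [Field L] [Algebra ℂ L]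
    (x : c.B →ₐ[ℂ] L⟦X⟧) (l : Fin n) (α : Fin n →₀ ℕ) :
    c.tay x α (c.y l) = MvPowerSeries.coeff α (MvPowerSeries.C (x (c.y l)) + MvPowerSeries.X l) := by
  classical
  rw [map_add, MvPowerSeries.coeff_C, MvPowerSeries.coeff_X, Chart.tay]
  by_cases h0 : α = 0
  · subst h0
    rw [c.dd_zero]
    have : ¬ ((0 : Fin n →₀ ℕ) = Finsupp.single l 1) := by
      intro h
      have := DFunLike.congr_fun h l
      simp at this
    simp [this]
  · obtain ⟨β, m, rfl⟩ := Lift_single h0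
    rw [c.dd_add_single, c.der_y, if_neg h0, zero_add]
    by_cases h1 : β = 0
    · subst h1
      rw [zero_add, c.dd_zero]
      by_cases hml : m = l
      · subst hml
        have : ∏ i, (((Finsupp.single m 1 : Fin n →₀ ℕ) i).factorial : ℂ) = 1 := by
          refine Finset.prod_eq_one fun i _ => ?_
          rw [Finsupp.single_apply]
          split_ifs <;> simp
        simp [this]
      · have : ¬ (Finsupp.single m 1 = (Finsupp.single l 1 : Fin n →₀ ℕ)) := by
          intro h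
          exact hml ((Finsupp.single_left_inj one_ne_zero).1 h)
        simp [this, hml]
    · obtain ⟨γ, m', rfl⟩ := Lift_single h1
      have h2 : c.dd (γ + Finsupp.single m' 1) (if m = l then 1 else 0) = 0 := by
        rw [c.dd_add_single]
        split_ifs <;> simp
      have h3 : ¬ (γ + Finsupp.single m' 1 + Finsupp.single m 1 = (Finsupp.single l 1 : Fin n →₀ ℕ)) := by
        intro h
        have := congrArg Finsupp.degree h
        simp [Finsupp.degree_single] at this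
      rw [h2, if_neg h3]
      simp

/-- J03b: perturbation of an arc: for `Z : Fin n → L⟦X⟧` divisible by `X` there is an arc `x'`
with `x' b = ∑_α tay x α b · Z^α`; in particular `x' (y l) = x (y l) + Z l`, and `x' b ≡ x b`
modulo `X ^ k` if `X ^ k` divides all `Z l`. -/
theorem Chart.exists_perturb (c : Chart 𝒜 n) {L : Type} [Field L] [Algebra ℂ L]
    (x : c.B →ₐ[ℂ] L⟦X⟧) (k : ℕ) (hk : 1 ≤ k) (Z : Fin n → L⟦X⟧) (hZ : ∀ l, X ^ k ∣ Z l) :
    ∃ x' : c.B →ₐ[ℂ] L⟦X⟧, (∀ l, x' (c.y l) = x (c.y l) + Z l) ∧ ∀ b, X ^ k ∣ x' b - x b := by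
  obtain ⟨T, hT⟩ := c.exists_taylor x
  obtain ⟨E, hE1, hE2⟩ := Lift_eval k hk Z hZ
  have h0 : ∀ b, MvPowerSeries.constantCoeff (T b) = x b := by
    intro b
    have := hT b 0
    rw [MvPowerSeries.coeff_zero_eq_constantCoeff] at this
    rw [this, Chart.tay, c.dd_zero]
    simp
  refine ⟨(E.restrictScalars ℂ).comp T, ?_, ?_⟩
  · intro l
    have h1 : T (c.y l) = MvPowerSeries.C (x (c.y l)) + MvPowerSeries.X l := by
      refine MvPowerSeries.ext fun α => ?_
      rw [hT]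
      exact Lift_tay_y c x l α
    have h2 : ((E.restrictScalars ℂ).comp T) (c.y l) = E (T (c.y l)) := rfl
    rw [h2, h1, map_add, hE1]
    congr 1
    exact E.commutes (x (c.y l))
  · intro b
    have := hE2 (T b)
    rwa [h0] at this

/-- J03c: extension of scalars of an arc along a homomorphism of fields. -/
theorem Chart.exists_map (c : Chart 𝒜 n) {L L' : Type} [Field L] [Algebra ℂ L] [Field L']
    [Algebra ℂ L'] (j : L →ₐ[ℂ] L') (x : c.B →ₐ[ℂ] L⟦X⟧) :
    ∃ x' : c.B →ₐ[ℂ] L'⟦X⟧, ∀ b k, coeff k (x' b) = j (coeff k (x b)) :=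
  ⟨(PowerSeries.mapAlgHom j).comp x, fun b k => by
    rw [AlgHom.comp_apply, PowerSeries.mapAlgHom_apply, PowerSeries.coeff_map]
    rfl⟩

end Pool.Agent.Lib_GD
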