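import Pool.Agent.Lib_GD.MainBound

/-! F02: the main theorem. -/

open scoped ENNReal NNReal

namespace Pool.Agent.Lib_GD

variable {R : Type} [CommRing R] [Algebra ℂ R] {𝒜 : ℕ → Submodule ℂ R} [GradedAlgebra 𝒜]
  {n : ℕ}

private theorem Main_ordDet_ne_top (h : IsSmoothPolarised 𝒜 n) (hn : 1 ≤ n) (m : ℕ) (hm : 1 ≤ m)
    (E : DivisorOver 𝒜 n (secDim 𝒜 m)) : E.ordDet 𝒜 ≠ ⊤ := by
  classical
  rcases Nat.eq_zero_or_pos (secDim 𝒜 m) with h0 | h0
  · have : IsEmpty (Fin (secDim 𝒜 m)) := by rw [h0]; infer_instance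
    unfold DivisorOver.ordDet
    rw [Matrix.det_isEmpty]
    unfold DivisorOver.ord
    rw [IsDiscreteValuationRing.addVal_one]
    exact ENat.zero_ne_top
  · obtain ⟨a⟩ := exists_atlas h hn
    obtain ⟨L, _, _, k, x, Γ, h1, h2, h3, h4, h5⟩ :=
      exists_arcSystem h hn a m h0 E E.logDisc_ne_top
    choose C hC using fun i : Fin a.r => (a.chart i).ord_le h hn
    have hT : Γ.HT ((∑ i, C i) * m) := by
      intro j v hv
      let cc : PowerSeries L →ₐ[ℂ] L :=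
        { (PowerSeries.constantCoeff : PowerSeries L →+* L) with
          commutes' := fun z => by
            change PowerSeries.constantCoeff (algebraMap ℂ (PowerSeries L) z) = _
            rw [PowerSeries.algebraMap_apply, PowerSeries.constantCoeff_C] }
      obtain ⟨α, hα, hα2⟩ := hC (k j) m hm L (cc.comp (x j)) v hv
      refine ⟨α, hα.trans ?_, ?_⟩
      · exact Nat.mul_le_mul_right _ (Finset.single_le_sum (f := C) (fun i _ => Nat.zero_le _)
          (Finset.mem_univ (k j)))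
      · convert hα2 using 3 with i
        rw [h2]
        rfl
    rw [← h5]
    intro h6
    exact Γ.det_ne_zero hT (PowerSeries.order_eq_top.1 h6)

/-- F02: `δ(X, L) ≤ γ(X, L)`. -/
theorem stability_le_gibbs (h : IsSmoothPolarised 𝒜 n) (hn : 1 ≤ n) :
    stability 𝒜 n ≤ gibbs 𝒜 n := by
  refine ENNReal.le_of_forall_nnreal_lt fun r hr => ?_
  obtain ⟨d, hrd, hd⟩ := ENNReal.lt_iff_exists_nnreal_btwn.1 hr
  have hrd' : r < d := ENNReal.coe_lt_coe.1 hrd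
  have hrd2 : (r : ℝ) < d := by exact_mod_cast hrd'
  have hE : ∀ E : DivisorOver 𝒜 n 1, (d : ℝ≥0∞) * E.S 𝒜 ≤ (E.logDisc : ℝ≥0∞) := by
    intro E
    have h1 : (d : ℝ≥0∞) ≤ (E.logDisc : ℝ≥0∞) / E.S 𝒜 := hd.le.trans (iInf_le _ E)
    exact ENNReal.mul_le_of_le_div h1
  obtain ⟨m₁, hm₁⟩ := main_bound h hn d (lt_of_le_of_lt bot_le hrd') hE (((d : ℝ) - r) / 2)
    (by linarith)
  have hr2 : (r : ℝ≥0∞) < ENNReal.ofReal (d - ((d : ℝ) - r) / 2) := by
    rw [← ENNReal.ofReal_coe_nnreal, ENNReal.ofReal_lt_ofReal_iff']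
    constructor
    · linarith
    · have h2 : (0 : ℝ) ≤ r := r.2
      linarith
  unfold gibbs
  refine Filter.le_liminf_of_le (by isBoundedDefault) ?_
  filter_upwards [Filter.eventually_ge_atTop (max m₁ 1)] with m hm
  have hm1 : m₁ ≤ m := (le_max_left _ _).trans hm
  have hm2 : 1 ≤ m := (le_max_right _ _).trans hm
  have hk : IsKlt 𝒜 n m r := by
    intro E
    have h1 := hm₁ m hm1 E
    have h2 : (E.ordDet 𝒜 : ℝ≥0∞) ≠ ⊤ := by
      simpa using Main_ordDet_ne_top h hn m hm2 E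
    have h3 : (1 : ℝ≥0∞) ≤ (E.logDisc : ℝ≥0∞) := by
      have h4 : (1 : ℕ∞) ≤ E.logDisc := le_self_add
      exact_mod_cast h4
    by_cases h4 : (E.ordDet 𝒜 : ℝ≥0∞) = 0
    · rw [h4, mul_zero]
      exact lt_of_lt_of_le one_pos h3
    have hm0 : (m : ℝ≥0) ≠ 0 := by
      have : m ≠ 0 := by omega
      exact_mod_cast this
    have h5 : ((r / (m : ℝ≥0) : ℝ≥0) : ℝ≥0∞) * (E.ordDet 𝒜 : ℝ≥0∞) =
        (r : ℝ≥0∞) * (E.ordDet 𝒜 : ℝ≥0∞) / (m : ℝ≥0∞) := by
      rw [ENNReal.coe_div hm0, div_eq_mul_inv, div_eq_mul_inv, mul_right_comm,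
        ENNReal.coe_natCast]
    have hm3 : (m : ℝ≥0∞) ≠ 0 := by
      have : m ≠ 0 := by omega
      exact_mod_cast this
    rw [h5, ENNReal.div_lt_iff (Or.inl hm3) (Or.inl (ENNReal.natCast_ne_top m)),
      mul_comm (E.logDisc : ℝ≥0∞)]
    exact lt_of_lt_of_le ((ENNReal.mul_lt_mul_iff_left h4 h2).2 hr2) h1
  exact le_iSup (fun c : {c : ℝ≥0 // IsKlt 𝒜 n m c} => ((c : ℝ≥0) : ℝ≥0∞)) ⟨r, hk⟩

end Pool.Agent.Lib_GD
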