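import Pool.Agent.Lib_GD.Core
import Pool.Agent.Lib_GD.I2
import Pool.Agent.Lib_GD.BJ
import Pool.Agent.Lib_GD.ArcBuild
import Pool.Agent.Lib_GD.OrdL
import Pool.Agent.Lib_GD.AtlasEx

/-! F01: assembly. -/

open scoped ENNReal NNReal

namespace Pool.Agent.Lib_GD

variable {R : Type} [CommRing R] [Algebra ℂ R] {𝒜 : ℕ → Submodule ℂ R} [GradedAlgebra 𝒜]
  {n : ℕ}

/-- the constant coefficient as an algebra homomorphism -/
private noncomputable def MainBound_cc (L : Type) [Field L] [Algebra ℂ L] :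
    PowerSeries L →ₐ[ℂ] L :=
  { (PowerSeries.constantCoeff : PowerSeries L →+* L) with
    commutes' := fun z => by
      change PowerSeries.constantCoeff (algebraMap ℂ (PowerSeries L) z) = _
      rw [PowerSeries.algebraMap_apply, PowerSeries.constantCoeff_C] }

/-- a positive lower bound for finitely many positive reals -/
private theorem MainBound_lower {r : ℕ} (f : Fin r → ℝ) (hf : ∀ i, 0 < f i) :
    ∃ c : ℝ, 0 < c ∧ ∀ i, c ≤ f i := by
  have h0 : 0 ≤ ∑ i, (f i)⁻¹ := Finset.sum_nonneg fun i _ => (inv_pos.2 (hf i)).le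
  refine ⟨(1 + ∑ i, (f i)⁻¹)⁻¹, inv_pos.2 (by linarith), fun i => ?_⟩
  have h1 : (f i)⁻¹ ≤ ∑ i, (f i)⁻¹ :=
    Finset.single_le_sum (f := fun i => (f i)⁻¹) (fun i _ => (inv_pos.2 (hf i)).le)
      (Finset.mem_univ i)
  rw [inv_le_comm₀ (by linarith) (hf i)]
  linarith

omit [GradedAlgebra 𝒜] in
/-- the hypothesis of (I2) from the estimate of the sum of the orders -/
private theorem MainBound_tau (m : ℕ) (d : ℝ≥0) (hd : 0 < d) (ε₁ : ℝ) (hε₁ : 0 < ε₁)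
    (E : DivisorOver 𝒜 n 1) (hA : E.logDisc ≠ ⊤)
    (hE : (d : ℝ≥0∞) * E.S 𝒜 ≤ (E.logDisc : ℝ≥0∞)) (s : ℕ)
    (hs : (s : ℝ≥0∞) ≤ ENNReal.ofReal (1 + ε₁) * ((m * secDim 𝒜 m : ℕ) : ℝ≥0∞) * E.S 𝒜) :
    (s : ℝ) ≤ (1 + ε₁) * m * secDim 𝒜 m / d * E.logDisc.toNat := by
  have hd' : (0 : ℝ) < d := by exact_mod_cast hd
  obtain ⟨A, hA'⟩ := ENat.ne_top_iff_exists.1 hA
  rw [← hA'] at hE ⊢
  rw [ENat.toNat_natCast]
  have h1 : (d : ℝ≥0∞) * s ≤ ENNReal.ofReal (1 + ε₁) * ((m * secDim 𝒜 m : ℕ) : ℝ≥0∞) * A := by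
    calc (d : ℝ≥0∞) * s ≤ d * (ENNReal.ofReal (1 + ε₁) *
          ((m * secDim 𝒜 m : ℕ) : ℝ≥0∞) * E.S 𝒜) := mul_le_mul_right hs _
      _ = ENNReal.ofReal (1 + ε₁) * ((m * secDim 𝒜 m : ℕ) : ℝ≥0∞) * (d * E.S 𝒜) := by ring
      _ ≤ _ := by
        refine mul_le_mul_right ?_ _
        simpa using hE
  have h2 := ENNReal.toReal_mono (by
    refine ENNReal.mul_ne_top (ENNReal.mul_ne_top ENNReal.ofReal_ne_top ?_) ?_
    · exact ENNReal.natCast_ne_top _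
    · exact ENNReal.natCast_ne_top _) h1
  rw [ENNReal.toReal_mul, ENNReal.toReal_mul, ENNReal.toReal_mul, ENNReal.coe_toReal,
    ENNReal.toReal_natCast, ENNReal.toReal_natCast, ENNReal.toReal_natCast,
    ENNReal.toReal_ofReal (by linarith)] at h2
  push_cast at h2
  rw [div_mul_eq_mul_div, le_div_iff₀ hd']
  linarith

/-- F01: if `d S(E) ≤ A(E)` for all divisors over `X`, then for large `m` all divisors over
`X ^ N_m` satisfy `(d - ε) ord(D_m) ≤ m A`. -/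
theorem main_bound (h : IsSmoothPolarised 𝒜 n) (hn : 1 ≤ n) (d : ℝ≥0) (hd : 0 < d)
    (hE : ∀ E : DivisorOver 𝒜 n 1, (d : ℝ≥0∞) * E.S 𝒜 ≤ (E.logDisc : ℝ≥0∞)) (ε : ℝ)
    (hε : 0 < ε) : ∃ m₁ : ℕ, ∀ m, m₁ ≤ m → ∀ E : DivisorOver 𝒜 n (secDim 𝒜 m),
      ENNReal.ofReal (d - ε) * (E.ordDet 𝒜 : ℝ≥0∞) ≤ m * (E.logDisc : ℝ≥0∞) := by
  classical
  have hd' : (0 : ℝ) < d := by exact_mod_cast hd
  by_cases hde : (d : ℝ) - ε ≤ 0
  · refine ⟨0, fun m _ E => ?_⟩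
    rw [ENNReal.ofReal_of_nonpos hde, zero_mul]
    exact bot_le
  rw [not_le] at hde
  obtain ⟨a⟩ := exists_atlas h hn
  choose Ct hCt using fun i : Fin a.r => (a.chart i).ord_le h hn
  choose c₀ hc₀ m₀ hm₀ using fun i : Fin a.r => (a.chart i).sep h
  obtain ⟨cl, hcl, hcl'⟩ := MainBound_lower c₀ hc₀
  obtain ⟨Cg, hCg⟩ := secDim_le h
  -- the constants
  obtain ⟨CT, hCT1, hCT⟩ : ∃ CT : ℕ, 1 ≤ CT ∧ ∀ i, Ct i ≤ CT :=
    ⟨1 + ∑ i, Ct i, by omega, fun i => (Finset.single_le_sum (f := Ct)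
      (fun i _ => Nat.zero_le _) (Finset.mem_univ i)).trans (by omega)⟩
  have hCT' : (0 : ℝ) < CT := by exact_mod_cast hCT1
  set g : ℝ := 1 / (d - ε) - 1 / d with hg
  have hg0 : 0 < g := by
    rw [hg, sub_pos]
    exact one_div_lt_one_div_of_lt hde (by linarith)
  set ε₁ : ℝ := g * d / 2 with hε₁
  have hε₁0 : 0 < ε₁ := by positivity
  set ε₂ : ℝ := g / (2 * CT) with hε₂
  have hε₂0 : 0 < ε₂ := by positivity
  have hkey : (1 + ε₁) / d + ε₂ * CT = 1 / (d - ε) := by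
    have e1 : (1 + ε₁) / d = 1 / d + g / 2 := by
      rw [hε₁]; field_simp
    have e2 : ε₂ * CT = g / 2 := by
      rw [hε₂]; field_simp
    rw [e1, e2]
    linarith
  obtain ⟨D₀, hD₀⟩ := core n hn (cl / CT) (Cg + 1) ε₂ (by positivity) (by positivity) hε₂0
  obtain ⟨m₂, hm₂⟩ := sum_ord_le h hn ε₁ hε₁0
  refine ⟨1 + D₀ + m₂ + ∑ i, m₀ i, fun m hm E => ?_⟩
  have hm1 : 1 ≤ m := by omega
  have hmm₂ : m₂ ≤ m := by omega
  have hmD₀ : D₀ ≤ m := by omega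
  have hmm₀ : ∀ i, m₀ i ≤ m := fun i => by
    have := Finset.single_le_sum (f := m₀) (fun i _ => Nat.zero_le _) (Finset.mem_univ i)
    omega
  have hm1' : (1 : ℝ) ≤ m := by exact_mod_cast hm1
  rcases Nat.eq_zero_or_pos (secDim 𝒜 m) with h0 | h0
  · have : IsEmpty (Fin (secDim 𝒜 m)) := by rw [h0]; infer_instance
    have h1 : E.ordDet 𝒜 = 0 := by
      unfold DivisorOver.ordDet
      rw [Matrix.det_isEmpty]
      unfold DivisorOver.ord
      rw [IsDiscreteValuationRing.addVal_one]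
    rw [h1]
    simp
  by_cases hA : E.logDisc = ⊤
  · rw [hA]
    have h1 : (m : ℝ≥0∞) * ((⊤ : ℕ∞) : ℝ≥0∞) = ⊤ := by
      rw [ENat.toENNReal_top]
      refine ENNReal.mul_top ?_
      have : m ≠ 0 := by omega
      exact_mod_cast this
    rw [h1]
    exact le_top
  obtain ⟨L, _, _, k, x, Γ, h1, h2, h3, h4, h5⟩ := exists_arcSystem h hn a m h0 E hA
  have hu : ∀ j α i, PowerSeries.constantCoeff (Γ.u j α i) =
      ((MainBound_cc L).comp (x j)) ((a.chart (k j)).dd α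
        ((a.chart (k j)).ρ (secBasis 𝒜 m i))) := by
    intro j α i
    rw [h2]
    rfl
  have hT : Γ.HT (CT * m) := by
    intro j v hv
    obtain ⟨α, hα, hα2⟩ := hCt (k j) m hm1 L ((MainBound_cc L).comp (x j)) v hv
    refine ⟨α, hα.trans (Nat.mul_le_mul_right _ (hCT _)), ?_⟩
    simp only [hu]
    exact hα2
  have hS : ∀ q : ℕ, (q : ℝ) ≤ cl / CT * (CT * m : ℕ) → Γ.HSep q := by
    intro q hq j
    have h6 : (q : ℝ) ≤ c₀ (k j) * m := by
      refine hq.trans ?_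
      push_cast
      have h7 : cl / CT * (CT * m) = cl * m := by field_simp
      rw [h7]
      exact mul_le_mul_of_nonneg_right (hcl' _) (by linarith)
    have h8 := hm₀ (k j) m (hmm₀ _) L ((MainBound_cc L).comp (x j)) q h6
    simp only [hu]
    exact h8
  have hdet : Γ.det ≠ 0 := Γ.det_ne_zero hT
  have hN' : (0 : ℝ) < secDim 𝒜 m := by exact_mod_cast h0
  set τ : ℝ := (1 + ε₁) * m * secDim 𝒜 m / d with hτ
  have hτ0 : 0 ≤ τ := by positivity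
  have hI : Γ.HI2 τ := by
    refine hI2 h hn a m τ hτ0 (fun E' hE' b hb hb' => ?_) k x Γ h2 h3
    exact MainBound_tau m d hd ε₁ hε₁0 E' hE' (hE E') _ (hm₂ m hmm₂ E' b hb hb')
  have hND : (secDim 𝒜 m : ℝ) ≤ (Cg + 1) * ((CT * m : ℕ) : ℝ) ^ n := by
    have h6 : secDim 𝒜 m ≤ Cg * m ^ n := hCg m hm1
    have h7 : m ^ n ≤ (CT * m) ^ n := Nat.pow_le_pow_left (Nat.le_mul_of_pos_left m hCT1) n
    have h8 : secDim 𝒜 m ≤ (Cg + 1) * (CT * m) ^ n :=
      h6.trans (Nat.mul_le_mul (Nat.le_succ _) h7)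
    exact_mod_cast h8
  have hmain := hD₀ (CT * m) (secDim 𝒜 m) (hmD₀.trans (Nat.le_mul_of_pos_left m hCT1)) hND L Γ τ hτ0
    hdet hT hS hI
  -- conclusion
  obtain ⟨A, hA'⟩ := ENat.ne_top_iff_exists.1 hA
  have hA2 : Γ.A = A := by
    rw [← hA'] at h4
    exact_mod_cast h4
  have ho : E.ordDet 𝒜 = (Γ.det.order.toNat : ℕ∞) := by
    rw [← h5, ENat.natCast_toNat_eq_self.2 (PowerSeries.order_eq_top.not.2 hdet)]
  rw [ho, ← hA']
  set o := Γ.det.order.toNat with ho'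
  have hfin : ((d : ℝ) - ε) * o ≤ m * A := by
    have h6 : (τ / secDim 𝒜 m + ε₂ * ((CT * m : ℕ) : ℝ)) = m * (1 / (d - ε)) := by
      rw [← hkey, hτ]
      push_cast
      field_simp
    rw [h6, hA2] at hmain
    calc ((d : ℝ) - ε) * o ≤ (d - ε) * (m * (1 / (d - ε)) * A) :=
          mul_le_mul_of_nonneg_left hmain hde.le
      _ = m * A := by field_simp
  have h7 : ENNReal.ofReal (((d : ℝ) - ε) * o) ≤ ENNReal.ofReal (m * A) :=
    ENNReal.ofReal_le_ofReal hfin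
  rw [ENNReal.ofReal_mul hde.le, ENNReal.ofReal_mul (by linarith), ENNReal.ofReal_natCast,
    ENNReal.ofReal_natCast, ENNReal.ofReal_natCast] at h7
  simpa using h7

end Pool.Agent.Lib_GD
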