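import Pool.Agent.Lib_GD.OkDefs

/-! B03a. -/

open scoped ENNReal
open MeasureTheory

namespace Pool.Agent.Lib_GD.OkData

variable {n : ℕ} (D : OkData n)

private theorem OkMem_nsmul (g : ℕ → (Fin n → ℕ) → ℕ) (hg : D.IsWeight g) {m r : ℕ}
    {γ x : Fin n → ℕ} (hγ : γ ∈ D.Γ m) (hx : x ∈ D.Γ r) (j : ℕ) :
    x + j • γ ∈ D.Γ (m * j + r) ∧ j * g m γ + g r x ≤ g (m * j + r) (x + j • γ) := by
  induction j with
  | zero => simp [hx]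
  | succ j ih =>
    have e1 : m * (j + 1) + r = (m * j + r) + m := by ring
    have e2 : x + (j + 1) • γ = (x + j • γ) + γ := by
      rw [add_smul, one_smul, add_assoc]
    rw [e1, e2]
    refine ⟨D.add _ _ _ _ ih.1 hγ, ?_⟩
    have h1 := hg _ _ _ _ ih.1 hγ
    have h2 : (j + 1) * g m γ = j * g m γ + g m γ := by ring
    rw [h2]
    have h3 := ih.2
    omega

private theorem OkMem_sum (g : ℕ → (Fin n → ℕ) → ℕ) (hg : D.IsWeight g) {m : ℕ}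
    (kf : (Fin n → ℕ) → ℕ) (s : Finset (Fin n → ℕ)) (hs : ∀ γ ∈ s, γ ∈ D.Γ m) {r : ℕ}
    {x : Fin n → ℕ} (hx : x ∈ D.Γ r) :
    x + ∑ γ ∈ s, kf γ • γ ∈ D.Γ (m * (∑ γ ∈ s, kf γ) + r) ∧
      (∑ γ ∈ s, kf γ * g m γ) + g r x ≤
        g (m * (∑ γ ∈ s, kf γ) + r) (x + ∑ γ ∈ s, kf γ • γ) := by
  classical
  induction s using Finset.induction_on with
  | empty => simp [hx]
  | insert a s ha ih =>
    have ih' := ih (fun γ hγ => hs γ (Finset.mem_insert_of_mem hγ))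
    obtain ⟨h1, h2⟩ := D.OkMem_nsmul g hg (hs a (Finset.mem_insert_self a s)) ih'.1 (kf a)
    have e1 : m * (∑ γ ∈ insert a s, kf γ) + r = m * kf a + (m * (∑ γ ∈ s, kf γ) + r) := by
      rw [Finset.sum_insert ha]
      ring
    have e2 : x + ∑ γ ∈ insert a s, kf γ • γ = (x + ∑ γ ∈ s, kf γ • γ) + kf a • a := by
      rw [Finset.sum_insert ha]
      abel
    rw [e1, e2, Finset.sum_insert ha]
    refine ⟨h1, ?_⟩
    have h3 := ih'.2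
    omega

/-- B03a: a lattice point of `k · lev m t` belongs to `Γ (m k + r)`, with weight at least
`k t - K`, as soon as `r ≥ r₀` (`r₀`, `K` depend on `m`, `g`, not on `k`). -/
theorem exists_mem_of_lev (g : ℕ → (Fin n → ℕ) → ℕ) (hg : D.IsWeight g) (m : ℕ)
    (hm : D.m₀ ≤ m) (t : ℝ) : ∃ (r₀ : ℕ) (K : ℝ), ∀ (k r : ℕ), r₀ ≤ r → 1 ≤ k →
      ∀ z : Fin n → ℕ, (fun i => (z i : ℝ) / k) ∈ D.lev g m t →
        z ∈ D.Γ (m * k + r) ∧ k * t - K ≤ (g (m * k + r) z : ℝ) := by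
  classical
  obtain ⟨T, hT⟩ := exists_nat_ge (((∑ γ ∈ D.Γ m, ∑ i, γ i : ℕ) : ℝ) / D.c)
  refine ⟨max D.m₀ T, ((∑ γ ∈ D.Γ m, g m γ : ℕ) : ℝ), fun k r hr hk z hz => ?_⟩
  obtain ⟨p, hp0, hp1, hpx, hpt⟩ := hz
  have hk0 : (0 : ℝ) < k := by exact_mod_cast hk
  have hrm : D.m₀ ≤ r := le_trans (le_max_left _ _) hr
  have hrT : (T : ℝ) ≤ r := by exact_mod_cast le_trans (le_max_right _ _) hr
  have hz1 : ∀ i, (z i : ℝ) = ∑ γ ∈ D.Γ m, (k * p γ) * (γ i : ℝ) := by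
    intro i
    have h1 := hpx i
    simp only at h1
    rw [div_eq_iff hk0.ne'] at h1
    rw [h1, Finset.sum_mul]
    exact Finset.sum_congr rfl fun γ _ => by ring
  obtain ⟨kf, hkf⟩ : ∃ kf : (Fin n → ℕ) → ℕ, ∀ γ, kf γ = ⌊(k : ℝ) * p γ⌋₊ := ⟨_, fun _ => rfl⟩
  have hkle : ∀ γ, (kf γ : ℝ) ≤ k * p γ := by
    intro γ
    rw [hkf]
    exact Nat.floor_le (mul_nonneg hk0.le (hp0 γ))
  have hkge : ∀ γ, (k : ℝ) * p γ - 1 ≤ kf γ := by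
    intro γ
    rw [hkf]
    have := Nat.lt_floor_add_one ((k : ℝ) * p γ)
    linarith
  have hksum : ∑ γ ∈ D.Γ m, kf γ ≤ k := by
    have h1 : ((∑ γ ∈ D.Γ m, kf γ : ℕ) : ℝ) ≤ k := by
      push_cast
      calc ∑ γ ∈ D.Γ m, (kf γ : ℝ) ≤ ∑ γ ∈ D.Γ m, (k : ℝ) * p γ :=
            Finset.sum_le_sum fun γ _ => hkle γ
        _ = k := by rw [← Finset.mul_sum, hp1, mul_one]
    exact_mod_cast h1
  have hzge : ∀ i, ∑ γ ∈ D.Γ m, kf γ * γ i ≤ z i := by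
    intro i
    have h1 : ((∑ γ ∈ D.Γ m, kf γ * γ i : ℕ) : ℝ) ≤ z i := by
      rw [hz1 i]
      push_cast
      exact Finset.sum_le_sum fun γ _ => mul_le_mul_of_nonneg_right (hkle γ) (Nat.cast_nonneg _)
    exact_mod_cast h1
  obtain ⟨e, he⟩ : ∃ e : Fin n → ℕ, ∀ i, e i = z i - ∑ γ ∈ D.Γ m, kf γ * γ i := ⟨_, fun _ => rfl⟩
  have hez : ∀ i, e i + ∑ γ ∈ D.Γ m, kf γ * γ i = z i := by
    intro i
    rw [he]
    exact Nat.sub_add_cancel (hzge i)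
  have hebd : ∀ i, e i ≤ ∑ γ ∈ D.Γ m, γ i := by
    intro i
    have h1 : (e i : ℝ) ≤ ((∑ γ ∈ D.Γ m, γ i : ℕ) : ℝ) := by
      have h2 : (e i : ℝ) + ∑ γ ∈ D.Γ m, (kf γ : ℝ) * γ i = z i := by
        have := congrArg (fun y : ℕ => (y : ℝ)) (hez i)
        push_cast at this
        exact this
      rw [hz1 i] at h2
      push_cast
      have h3 : ∑ γ ∈ D.Γ m, (k * p γ) * (γ i : ℝ) ≤
          ∑ γ ∈ D.Γ m, ((γ i : ℝ) + (kf γ : ℝ) * γ i) := by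
        refine Finset.sum_le_sum fun γ _ => ?_
        have h4 := hkge γ
        have h5 : (0 : ℝ) ≤ γ i := Nat.cast_nonneg _
        nlinarith
      rw [Finset.sum_add_distrib] at h3
      linarith
    exact_mod_cast h1
  have hesum : ((∑ i, e i : ℕ) : ℝ) ≤ D.c * r := by
    have h1 : ∑ i, e i ≤ ∑ γ ∈ D.Γ m, ∑ i, γ i := by
      rw [Finset.sum_comm]
      exact Finset.sum_le_sum fun i _ => hebd i
    have h2 : ((∑ γ ∈ D.Γ m, ∑ i, γ i : ℕ) : ℝ) ≤ D.c * T := by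
      rw [div_le_iff₀ D.hc] at hT
      linarith
    calc ((∑ i, e i : ℕ) : ℝ) ≤ ((∑ γ ∈ D.Γ m, ∑ i, γ i : ℕ) : ℝ) := by exact_mod_cast h1
      _ ≤ D.c * T := h2
      _ ≤ D.c * r := mul_le_mul_of_nonneg_left hrT D.hc.le
  have heΓ : e ∈ D.Γ r := D.simplex r hrm e hesum
  have h0Γ : (0 : Fin n → ℕ) ∈ D.Γ m := by
    refine D.simplex m hm 0 ?_
    simp only [Pi.zero_apply, Finset.sum_const_zero, Nat.cast_zero]
    exact mul_nonneg D.hc.le (Nat.cast_nonneg _)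
  obtain ⟨a1, a2⟩ := D.OkMem_nsmul g hg h0Γ heΓ (k - ∑ γ ∈ D.Γ m, kf γ)
  obtain ⟨b1, b2⟩ := D.OkMem_sum g hg (m := m) kf (D.Γ m) (fun _ h => h) a1
  have ez : e + (k - ∑ γ ∈ D.Γ m, kf γ) • (0 : Fin n → ℕ) + ∑ γ ∈ D.Γ m, kf γ • γ = z := by
    rw [smul_zero, add_zero]
    funext i
    rw [Pi.add_apply, Finset.sum_apply]
    simp only [Pi.smul_apply, smul_eq_mul]
    exact hez i
  have em : m * (∑ γ ∈ D.Γ m, kf γ) + (m * (k - ∑ γ ∈ D.Γ m, kf γ) + r) = m * k + r := by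
    rw [← add_assoc, ← Nat.mul_add, Nat.add_sub_cancel' hksum]
  rw [ez, em] at b1 b2
  refine ⟨b1, ?_⟩
  have c1 : ((∑ γ ∈ D.Γ m, kf γ * g m γ : ℕ) : ℝ) ≤ (g (m * k + r) z : ℝ) := by
    exact_mod_cast le_trans (Nat.le_add_right _ _) b2
  have c2 : k * t - ((∑ γ ∈ D.Γ m, g m γ : ℕ) : ℝ) ≤
      ((∑ γ ∈ D.Γ m, kf γ * g m γ : ℕ) : ℝ) := by
    have h1 : (k : ℝ) * t ≤ ∑ γ ∈ D.Γ m, (k * p γ) * (g m γ : ℝ) := by
      have h2 := mul_le_mul_of_nonneg_left hpt hk0.le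
      rw [Finset.mul_sum] at h2
      refine h2.trans (le_of_eq (Finset.sum_congr rfl fun γ _ => by ring))
    have h3 : ∑ γ ∈ D.Γ m, (k * p γ) * (g m γ : ℝ) ≤
        ∑ γ ∈ D.Γ m, ((g m γ : ℝ) + (kf γ : ℝ) * g m γ) := by
      refine Finset.sum_le_sum fun γ _ => ?_
      have h4 := hkge γ
      have h5 : (0 : ℝ) ≤ g m γ := Nat.cast_nonneg _
      nlinarith
    rw [Finset.sum_add_distrib] at h3
    push_cast
    linarith
  linarith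

end Pool.Agent.Lib_GD.OkData
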