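import Mathlib

/-! B03b: lattice points of dilates. -/

open scoped ENNReal
open MeasureTheory

namespace Pool.Agent.Lib_GD.OkData

open scoped Pointwise in
private theorem OkTend_card {n : ℕ} (A : Set (Fin n → ℝ)) (hA0 : ∀ x ∈ A, ∀ i, 0 ≤ x i) (k : ℕ)
    (hk : 1 ≤ k) :
    Nat.card {z : Fin n → ℕ // (fun i => (z i : ℝ) / k) ∈ A} =
      Nat.card ↑(A ∩ (k : ℝ)⁻¹ • Submodule.span ℤ (Set.range (Pi.basisFun ℝ (Fin n)))) := by
  have : NeZero k := ⟨by omega⟩
  have hk0 : (0 : ℝ) < k := by exact_mod_cast hk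
  have hmem : ∀ z : {z : Fin n → ℕ // (fun i => (z i : ℝ) / k) ∈ A},
      (fun i => (z.1 i : ℝ) / k) ∈
        (A ∩ (k : ℝ)⁻¹ • Submodule.span ℤ (Set.range (Pi.basisFun ℝ (Fin n))) :
          Set (Fin n → ℝ)) := by
    intro z
    refine ⟨z.2, ?_⟩
    refine BoxIntegral.unitPartition.mem_smul_span_iff.2 fun i => ⟨(z.1 i : ℤ), ?_⟩
    simp only [algebraMap_int_eq, eq_intCast, Int.cast_natCast]
    field_simp
  refine Nat.card_congr (Equiv.ofBijective (fun z => ⟨fun i => (z.1 i : ℝ) / k, hmem z⟩) ⟨?_, ?_⟩)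
  · intro a b hab
    apply Subtype.ext
    funext i
    have h1 := congrFun (congrArg Subtype.val hab) i
    simp only at h1
    rw [div_left_inj' hk0.ne'] at h1
    exact_mod_cast h1
  · rintro ⟨x, hx1, hx2⟩
    have h1 := BoxIntegral.unitPartition.mem_smul_span_iff.1 hx2
    choose m hm using h1
    simp only [algebraMap_int_eq, eq_intCast] at hm
    have h0 : ∀ i, 0 ≤ m i := by
      intro i
      have h2 : (0 : ℝ) ≤ (m i : ℝ) := by
        rw [hm i]
        exact mul_nonneg hk0.le (hA0 x hx1 i)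
      exact_mod_cast h2
    have h3 : ∀ i, (((m i).toNat : ℕ) : ℝ) / k = x i := by
      intro i
      have h4 : (((m i).toNat : ℕ) : ℝ) = (m i : ℝ) := by
        have := Int.toNat_of_nonneg (h0 i)
        exact_mod_cast this
      rw [h4, hm i]
      field_simp
    have h5 : (fun i => (((m i).toNat : ℕ) : ℝ) / k) = x := funext h3
    refine ⟨⟨fun i => (m i).toNat, ?_⟩, ?_⟩
    · simp only [h5]
      exact hx1
    · apply Subtype.ext
      exact h5

/-- B03b: lattice points of the dilates of a compact convex set of `[0, ∞)^n`. -/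
theorem tendsto_lattice {n : ℕ} (A : Set (Fin n → ℝ)) (hA : IsCompact A) (hA' : Convex ℝ A)
    (hA0 : ∀ x ∈ A, ∀ i, 0 ≤ x i) :
    Filter.Tendsto (fun k : ℕ => (Nat.card {z : Fin n → ℕ // (fun i => (z i : ℝ) / k) ∈ A} : ℝ) /
      (k : ℝ) ^ n) Filter.atTop (nhds (volume A).toReal) := by
  have h1 := tendsto_card_div_pow_atTop_volume A hA.isBounded hA.isClosed.measurableSet
    (hA'.addHaar_frontier volume)
  rw [measureReal_def] at h1
  refine h1.congr' ?_
  filter_upwards [Filter.eventually_ge_atTop 1] with k hk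
  rw [OkTend_card A hA0 k hk, Fintype.card_fin]

end Pool.Agent.Lib_GD.OkData
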