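import Pool.Agent.Lib_GD.OkLattice
import Pool.Agent.Lib_GD.OkMem
import Pool.Agent.Lib_GD.OkTend

/-! B03c: products of sections fill the level sets. -/

open scoped ENNReal
open MeasureTheory

namespace Pool.Agent.Lib_GD.OkData

variable {n : ℕ} (D : OkData n)

private theorem OkCount_lev_nonneg (g : ℕ → (Fin n → ℕ) → ℕ) (m : ℕ) (t : ℝ) :
    ∀ x ∈ D.lev g m t, ∀ i, 0 ≤ x i := by
  rintro x ⟨p, hp, _, hx, _⟩ i
  rw [hx i]
  exact Finset.sum_nonneg fun γ _ => mul_nonneg (hp γ) (Nat.cast_nonneg _)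

private theorem OkCount_tendsto_div (m r₀ : ℕ) (hm : 1 ≤ m) :
    Filter.Tendsto (fun M : ℕ => (M - r₀) / m) Filter.atTop Filter.atTop := by
  refine Filter.tendsto_atTop.2 fun b => ?_
  filter_upwards [Filter.eventually_ge_atTop (r₀ + b * m)] with M hM
  rw [Nat.le_div_iff_mul_le (by omega)]
  omega

private theorem OkCount_ratio (m r₀ : ℕ) (hm : 1 ≤ m) :
    Filter.Tendsto (fun M : ℕ => (((M - r₀) / m : ℕ) : ℝ) / M) Filter.atTop
      (nhds (1 / (m : ℝ))) := by
  have hm0 : (0 : ℝ) < m := by exact_mod_cast hm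
  rw [Metric.tendsto_atTop]
  intro ε hε
  obtain ⟨N, hN⟩ := exists_nat_gt (((r₀ : ℝ) + m) / ε)
  refine ⟨max (N + 1) (r₀ + 1), fun M hM => ?_⟩
  have hM1 : N + 1 ≤ M := le_trans (le_max_left _ _) hM
  have hM2 : r₀ + 1 ≤ M := le_trans (le_max_right _ _) hM
  have hM0 : (0 : ℝ) < M := by
    have : 0 < M := by omega
    exact_mod_cast this
  set k := (M - r₀) / m with hk
  have h1 : m * k ≤ M - r₀ := Nat.mul_div_le _ _
  have h2 : M - r₀ < m * k + m := by
    have := Nat.lt_mul_div_succ (M - r₀) (show 0 < m by omega)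
    rw [mul_add, mul_one] at this
    exact this
  have h3 : (m : ℝ) * k ≤ M := by
    have : m * k ≤ M := by omega
    exact_mod_cast this
  have h4 : (M : ℝ) < m * k + m + r₀ := by
    have : M < m * k + m + r₀ := by omega
    exact_mod_cast this
  rw [Real.dist_eq, abs_sub_comm]
  have h5 : 1 / (m : ℝ) - k / M = (M - m * k) / (m * M) := by field_simp
  rw [h5, abs_of_nonneg (div_nonneg (by linarith) (by positivity))]
  have h6 : ((M : ℝ) - m * k) / (m * M) ≤ (r₀ + m) / M := by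
    rw [div_le_div_iff₀ (by positivity) hM0]
    have h7 : (M : ℝ) - m * k ≤ m + r₀ := by linarith
    have h8 : (1 : ℝ) ≤ m := by exact_mod_cast hm
    have h9 : (0 : ℝ) ≤ (r₀ : ℝ) := Nat.cast_nonneg _
    calc ((M : ℝ) - m * k) * M ≤ (m + r₀) * M := mul_le_mul_of_nonneg_right h7 hM0.le
      _ ≤ (r₀ + m) * (m * M) := by nlinarith [mul_nonneg (add_nonneg h9 hm0.le) hM0.le]
  refine lt_of_le_of_lt h6 ?_
  have hr : (0 : ℝ) < (r₀ : ℝ) + m := by positivity
  rw [div_lt_iff₀ hM0]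
  rw [div_lt_iff₀ hε] at hN
  have : (N : ℝ) < M := by
    have : N < M := by omega
    exact_mod_cast this
  nlinarith

open Classical in
/-- B03c: asymptotic lower bound for the number of elements of large weight. -/
private theorem OkCount_le (g : ℕ → (Fin n → ℕ) → ℕ) (hg : D.IsWeight g) (m : ℕ) (hm : D.m₀ ≤ m)
    (t : ℝ) (τ : ℝ) (hτ : τ * m < t ∨ (τ = 0 ∧ t = 0)) :
    ∃ r₀ : ℕ, ∀ᶠ M : ℕ in Filter.atTop,
      Nat.card {z : Fin n → ℕ // (fun i => (z i : ℝ) / ((M - r₀) / m : ℕ)) ∈ D.lev g m t} ≤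
        D.cnt g M (τ * M) := by
  obtain ⟨r₀, K, hK⟩ := D.exists_mem_of_lev g hg m hm t
  refine ⟨r₀, ?_⟩
  have hm1 : 1 ≤ m := D.hm₀.trans hm
  have hm0 : (0 : ℝ) < m := by exact_mod_cast hm1
  have hev : ∀ᶠ k : ℕ in Filter.atTop, 1 ≤ k ∧ (τ * m < t →
      K + |τ| * (r₀ + m) ≤ k * (t - τ * m)) := by
    refine (Filter.eventually_ge_atTop 1).and ?_
    by_cases h : τ * m < t
    · obtain ⟨N, hN⟩ := exists_nat_gt ((K + |τ| * (r₀ + m)) / (t - τ * m))
      filter_upwards [Filter.eventually_ge_atTop N] with k hk _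
      rw [div_lt_iff₀ (by linarith)] at hN
      have : (N : ℝ) ≤ k := by exact_mod_cast hk
      nlinarith
    · exact Filter.Eventually.of_forall fun k h' => absurd h' h
  have hev2 := (OkCount_tendsto_div m r₀ hm1).eventually hev
  filter_upwards [hev2, Filter.eventually_ge_atTop (r₀ + 1)] with M ⟨hk1, hk2⟩ hM
  set k := (M - r₀) / m with hk
  have h1 : m * k ≤ M - r₀ := Nat.mul_div_le _ _
  have h2 : M - r₀ < m * k + m := by
    have := Nat.lt_mul_div_succ (M - r₀) (show 0 < m by omega)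
    rw [mul_add, mul_one] at this
    exact this
  obtain ⟨r, hr⟩ : ∃ r, M = m * k + r := ⟨M - m * k, by omega⟩
  have hr1 : r₀ ≤ r := by omega
  have hr2 : r < r₀ + m := by omega
  have hmem : ∀ z : {z : Fin n → ℕ // (fun i => (z i : ℝ) / k) ∈ D.lev g m t},
      z.1 ∈ (D.Γ M).filter fun γ => τ * M ≤ (g M γ : ℝ) := by
    intro z
    obtain ⟨h3, h4⟩ := hK k r hr1 hk1 z.1 z.2
    rw [← hr] at h3 h4
    refine Finset.mem_filter.2 ⟨h3, ?_⟩
    rcases hτ with h5 | ⟨h5, h6⟩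
    · refine le_trans ?_ h4
      have h7 := hk2 h5
      have h8 : (M : ℝ) = m * k + r := by rw [hr]; push_cast; ring
      rw [h8]
      have h9 : τ * r ≤ |τ| * (r₀ + m) := by
        have h10 : (r : ℝ) ≤ r₀ + m := by
          have : r ≤ r₀ + m := by omega
          exact_mod_cast this
        calc τ * r ≤ |τ| * r := mul_le_mul_of_nonneg_right (le_abs_self _) (Nat.cast_nonneg _)
          _ ≤ |τ| * (r₀ + m) := mul_le_mul_of_nonneg_left h10 (abs_nonneg _)
      nlinarith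
    · rw [h5, zero_mul]; exact Nat.cast_nonneg _
  have hinj : Function.Injective (fun z : {z : Fin n → ℕ //
      (fun i => (z i : ℝ) / k) ∈ D.lev g m t} =>
        (⟨z.1, hmem z⟩ : ↥((D.Γ M).filter fun γ => τ * M ≤ (g M γ : ℝ)))) := by
    intro a b hab
    exact Subtype.ext (Subtype.mk.inj hab)
  have := Nat.card_le_card_of_injective _ hinj
  refine this.trans (le_of_eq ?_)
  rw [Nat.card_eq_fintype_card, Fintype.card_coe]
  rfl

/-- B03c: asymptotic lower bound for the number of elements of large weight. -/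
theorem count_lower (g : ℕ → (Fin n → ℕ) → ℕ) (hg : D.IsWeight g) (m : ℕ) (hm : D.m₀ ≤ m)
    (t : ℝ) (τ : ℝ) (hτ : τ * m < t ∨ (τ = 0 ∧ t = 0)) :
    volume (D.lev g m t) / (m : ℝ≥0∞) ^ n ≤
      Filter.liminf (fun M : ℕ => (D.cnt g M (τ * M) : ℝ≥0∞) / (M : ℝ≥0∞) ^ n)
        Filter.atTop := by
  obtain ⟨r₀, hev⟩ := OkCount_le D g hg m hm t τ hτ
  have hm1 : 1 ≤ m := D.hm₀.trans hm
  have hm0 : (0 : ℝ) < m := by exact_mod_cast hm1
  set L : ℕ → ℕ := fun k =>
    Nat.card {z : Fin n → ℕ // (fun i => (z i : ℝ) / k) ∈ D.lev g m t} with hL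
  have h1 := tendsto_lattice (D.lev g m t) (D.isCompact_lev g m t) (D.convex_lev g m t)
    (OkCount_lev_nonneg D g m t)
  have h2 := h1.comp (OkCount_tendsto_div m r₀ hm1)
  have h3 := h2.mul ((OkCount_ratio m r₀ hm1).pow n)
  have h4 : Filter.Tendsto (fun M : ℕ => (L ((M - r₀) / m) : ℝ) / (M : ℝ) ^ n) Filter.atTop
      (nhds ((volume (D.lev g m t)).toReal * (1 / (m : ℝ)) ^ n)) := by
    refine h3.congr' ?_
    filter_upwards [(OkCount_tendsto_div m r₀ hm1).eventually (Filter.eventually_ge_atTop 1)]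
      with M hM
    simp only [Function.comp_apply]
    have hk0 : (0 : ℝ) < (((M - r₀) / m : ℕ) : ℝ) := by exact_mod_cast hM
    rw [div_pow, div_mul_div_comm, mul_comm (((((M - r₀) / m : ℕ) : ℝ)) ^ n) ((M : ℝ) ^ n),
      mul_div_mul_right _ _ (pow_ne_zero n hk0.ne')]
  have h5 := ENNReal.tendsto_ofReal h4
  have hV : volume (D.lev g m t) ≠ ⊤ := (D.isCompact_lev g m t).measure_lt_top.ne
  have h6 : ENNReal.ofReal ((volume (D.lev g m t)).toReal * (1 / (m : ℝ)) ^ n) =
      volume (D.lev g m t) / (m : ℝ≥0∞) ^ n := by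
    rw [ENNReal.ofReal_mul ENNReal.toReal_nonneg, ENNReal.ofReal_toReal hV, one_div, inv_pow,
      ENNReal.ofReal_inv_of_pos (by positivity), ENNReal.ofReal_pow hm0.le,
      ENNReal.ofReal_natCast, ENNReal.div_eq_inv_mul, mul_comm]
  rw [h6] at h5
  rw [← h5.liminf_eq]
  refine Filter.liminf_le_liminf ?_
  filter_upwards [hev, Filter.eventually_ge_atTop 1] with M hM hM1
  have hM0 : (0 : ℝ) < M := by exact_mod_cast hM1
  rw [ENNReal.ofReal_div_of_pos (by positivity), ENNReal.ofReal_natCast,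
    ENNReal.ofReal_pow hM0.le, ENNReal.ofReal_natCast]
  exact ENNReal.div_le_div_right (by exact_mod_cast hM) _

end Pool.Agent.Lib_GD.OkData
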