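import Mathlib

/-!
# Graded semigroups in `ℕ^n` with superadditive weights
-/

open scoped ENNReal
open MeasureTheory

namespace Pool.Agent.Lib_GD

/-- A graded semigroup `Γ m ⊆ ℕ^n` of linear growth containing the lattice points of the simplices
of size `c m`. -/
structure OkData (n : ℕ) where
  Γ : ℕ → Finset (Fin n → ℕ)
  add : ∀ m m' γ γ', γ ∈ Γ m → γ' ∈ Γ m' → γ + γ' ∈ Γ (m + m')
  C : ℕ
  bdd : ∀ m, ∀ γ ∈ Γ m, ∑ i, γ i ≤ C * m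
  c : ℝ
  hc : 0 < c
  m₀ : ℕ
  hm₀ : 1 ≤ m₀
  simplex : ∀ m, m₀ ≤ m → ∀ γ : Fin n → ℕ, ((∑ i, γ i : ℕ) : ℝ) ≤ c * m → γ ∈ Γ m

variable {n : ℕ} (D : OkData n)

/-- A superadditive weight. -/
def OkData.IsWeight (g : ℕ → (Fin n → ℕ) → ℕ) : Prop :=
  ∀ m m' γ γ', γ ∈ D.Γ m → γ' ∈ D.Γ m' → g m γ + g m' γ' ≤ g (m + m') (γ + γ')

open Classical in
/-- number of `γ ∈ Γ m` of weight at least `r` -/
noncomputable def OkData.cnt (g : ℕ → (Fin n → ℕ) → ℕ) (m : ℕ) (r : ℝ) : ℕ :=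
  ((D.Γ m).filter fun γ => r ≤ (g m γ : ℝ)).card

/-- `vol (L - tE)`, combinatorially. -/
noncomputable def OkData.volt (g : ℕ → (Fin n → ℕ) → ℕ) (t : ℝ) : ℝ≥0∞ :=
  Filter.limsup (fun m : ℕ => ((n.factorial * D.cnt g m (t * m) : ℕ) : ℝ≥0∞) /
    (m : ℝ≥0∞) ^ n) Filter.atTop

/-- `vol L`, combinatorially. -/
noncomputable def OkData.vol : ℝ≥0∞ :=
  Filter.limsup (fun m : ℕ => ((n.factorial * (D.Γ m).card : ℕ) : ℝ≥0∞) /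
    (m : ℝ≥0∞) ^ n) Filter.atTop

/-- `S`, combinatorially. -/
noncomputable def OkData.S (g : ℕ → (Fin n → ℕ) → ℕ) : ℝ≥0∞ :=
  (∫⁻ t in Set.Ioi (0 : ℝ), D.volt g t) / D.vol

/-- The superlevel set of the concave envelope of `g m` on the convex hull of `Γ m`. -/
def OkData.lev (g : ℕ → (Fin n → ℕ) → ℕ) (m : ℕ) (t : ℝ) : Set (Fin n → ℝ) :=
  {x | ∃ p : (Fin n → ℕ) → ℝ, (∀ γ, 0 ≤ p γ) ∧ ∑ γ ∈ D.Γ m, p γ = 1 ∧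
    (∀ i, x i = ∑ γ ∈ D.Γ m, p γ * γ i) ∧ t ≤ ∑ γ ∈ D.Γ m, p γ * g m γ}

end Pool.Agent.Lib_GD
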