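import Pool.Agent.Lib_GD.OkCount

/-! B04b. -/

open scoped ENNReal
open MeasureTheory

namespace Pool.Agent.Lib_GD.OkData

variable {n : ℕ} (D : OkData n)

private lemma OkInt_volt_anti (g : ℕ → (Fin n → ℕ) → ℕ) : Antitone (D.volt g) := by
  classical
  intro s t hst
  unfold volt
  refine Filter.limsup_le_limsup (Filter.Eventually.of_forall fun m => ?_)
  have h1 : D.cnt g m (t * m) ≤ D.cnt g m (s * m) := by
    unfold cnt
    refine Finset.card_le_card fun γ hγ => ?_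
    rw [Finset.mem_filter] at hγ ⊢
    exact ⟨hγ.1, le_trans (mul_le_mul_of_nonneg_right hst (Nat.cast_nonneg m)) hγ.2⟩
  refine ENNReal.div_le_div_right ?_ _
  exact_mod_cast Nat.mul_le_mul_left _ h1

private lemma OkInt_key (g : ℕ → (Fin n → ℕ) → ℕ) (hg : D.IsWeight g) (m : ℕ) (hm : D.m₀ ≤ m)
    (l : ℝ) (hl0 : 0 < l) (hl : l < 1) (s : ℝ) (hs : 0 < s) :
    (n.factorial : ℝ≥0∞) * volume (D.lev g m s) ≤
      (m : ℝ≥0∞) ^ n * D.volt g ((l / m) * s) := by
  have hm1 : 1 ≤ m := D.hm₀.trans hm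
  have hm0 : (0 : ℝ) < m := by exact_mod_cast hm1
  have hmE : (m : ℝ≥0∞) ^ n ≠ 0 := pow_ne_zero _ (by exact_mod_cast (by omega : m ≠ 0))
  have hmT : (m : ℝ≥0∞) ^ n ≠ ⊤ := ENNReal.pow_ne_top (ENNReal.natCast_ne_top m)
  have hτ : (l / m) * s * m < s := by
    have : (l / m) * s * m = l * s := by field_simp
    rw [this]
    nlinarith
  have h := D.count_lower g hg m hm s ((l / m) * s) (Or.inl hτ)
  have h2 : (n.factorial : ℝ≥0∞) * (volume (D.lev g m s) / (m : ℝ≥0∞) ^ n) ≤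
      D.volt g ((l / m) * s) := by
    calc (n.factorial : ℝ≥0∞) * (volume (D.lev g m s) / (m : ℝ≥0∞) ^ n)
        ≤ (n.factorial : ℝ≥0∞) * Filter.liminf (fun M : ℕ =>
            (D.cnt g M ((l / m) * s * M) : ℝ≥0∞) / (M : ℝ≥0∞) ^ n) Filter.atTop := by gcongr
      _ ≤ (n.factorial : ℝ≥0∞) * Filter.limsup (fun M : ℕ =>
            (D.cnt g M ((l / m) * s * M) : ℝ≥0∞) / (M : ℝ≥0∞) ^ n) Filter.atTop := by
          gcongr
          exact Filter.liminf_le_limsup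
      _ = Filter.limsup (fun M : ℕ => (n.factorial : ℝ≥0∞) *
            ((D.cnt g M ((l / m) * s * M) : ℝ≥0∞) / (M : ℝ≥0∞) ^ n)) Filter.atTop := by
          rw [ENNReal.limsup_const_mul_of_ne_top (ENNReal.natCast_ne_top _)]
      _ = D.volt g ((l / m) * s) := by
          unfold volt
          congr 1
          funext M
          rw [Nat.cast_mul, mul_div_assoc]
  calc (n.factorial : ℝ≥0∞) * volume (D.lev g m s)
      = (m : ℝ≥0∞) ^ n * ((n.factorial : ℝ≥0∞) * (volume (D.lev g m s) / (m : ℝ≥0∞) ^ n)) := by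
        rw [mul_left_comm, ENNReal.mul_div_cancel hmE hmT]
    _ ≤ (m : ℝ≥0∞) ^ n * D.volt g ((l / m) * s) := by gcongr

private lemma OkInt_subst (f : ℝ → ℝ≥0∞) (hf : Measurable f) (a : ℝ) (ha : 0 < a) :
    ENNReal.ofReal a * ∫⁻ s in Set.Ioi (0 : ℝ), f (a * s) = ∫⁻ t in Set.Ioi (0 : ℝ), f t := by
  have hF : Measurable ((Set.Ioi (0 : ℝ)).indicator f) := hf.indicator measurableSet_Ioi
  rw [← lintegral_indicator measurableSet_Ioi, ← lintegral_indicator measurableSet_Ioi]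
  have h := Real.smul_map_volume_mul_left (a := a) ha.ne'
  conv_rhs => rw [← h]
  rw [lintegral_smul_measure, lintegral_map hF (measurable_const_mul _), abs_of_pos ha,
    smul_eq_mul]
  congr 1
  refine lintegral_congr fun t => ?_
  simp only [Set.indicator, Set.mem_Ioi, mul_pos_iff_of_pos_left ha]

/-- B04b: the integral of the volumes of the level sets is bounded by the integral of the
asymptotic volumes. -/
theorem integral_lev_le (g : ℕ → (Fin n → ℕ) → ℕ) (hg : D.IsWeight g) (m : ℕ)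
    (hm : D.m₀ ≤ m) :
    (n.factorial : ℝ≥0∞) * ∫⁻ s in Set.Ioi (0 : ℝ), volume (D.lev g m s) ≤
      (m : ℝ≥0∞) ^ (n + 1) * ∫⁻ t in Set.Ioi (0 : ℝ), D.volt g t := by
  have hm1 : 1 ≤ m := D.hm₀.trans hm
  have hm0 : (0 : ℝ) < m := by exact_mod_cast hm1
  have hmeas : Measurable (D.volt g) := (OkInt_volt_anti D g).measurable
  have hfac : (n.factorial : ℝ≥0∞) ≠ ⊤ := ENNReal.natCast_ne_top _
  have hmT : (m : ℝ≥0∞) ^ n ≠ ⊤ := ENNReal.pow_ne_top (ENNReal.natCast_ne_top m)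
  -- the estimate for every `l < 1`
  have key : ∀ l : ℝ, 0 < l → l < 1 → ENNReal.ofReal l * ((n.factorial : ℝ≥0∞) *
      ∫⁻ s in Set.Ioi (0 : ℝ), volume (D.lev g m s)) ≤
      (m : ℝ≥0∞) ^ (n + 1) * ∫⁻ t in Set.Ioi (0 : ℝ), D.volt g t := by
    intro l hl0 hl
    have h1 : (n.factorial : ℝ≥0∞) * ∫⁻ s in Set.Ioi (0 : ℝ), volume (D.lev g m s) ≤
        (m : ℝ≥0∞) ^ n * ∫⁻ s in Set.Ioi (0 : ℝ), D.volt g ((l / m) * s) := by
      rw [← lintegral_const_mul' _ _ hfac, ← lintegral_const_mul' _ _ hmT]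
      refine lintegral_mono_ae ?_
      refine (ae_restrict_iff' measurableSet_Ioi).2 (Filter.Eventually.of_forall fun s hs => ?_)
      exact OkInt_key D g hg m hm l hl0 hl s hs
    have h2 := OkInt_subst (D.volt g) hmeas (l / m) (by positivity)
    have h3 : ENNReal.ofReal l = (m : ℝ≥0∞) * ENNReal.ofReal (l / m) := by
      rw [← ENNReal.ofReal_natCast m, ← ENNReal.ofReal_mul (Nat.cast_nonneg m)]
      congr 1
      field_simp
    calc ENNReal.ofReal l * ((n.factorial : ℝ≥0∞) *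
          ∫⁻ s in Set.Ioi (0 : ℝ), volume (D.lev g m s))
        ≤ ENNReal.ofReal l * ((m : ℝ≥0∞) ^ n *
          ∫⁻ s in Set.Ioi (0 : ℝ), D.volt g ((l / m) * s)) := by gcongr
      _ = (m : ℝ≥0∞) ^ (n + 1) * (ENNReal.ofReal (l / m) *
          ∫⁻ s in Set.Ioi (0 : ℝ), D.volt g ((l / m) * s)) := by
          rw [h3]
          ring
      _ = (m : ℝ≥0∞) ^ (n + 1) * ∫⁻ t in Set.Ioi (0 : ℝ), D.volt g t := by rw [h2]
  -- let `l → 1`
  have hlim : Filter.Tendsto (fun l : ℝ => ENNReal.ofReal l * ((n.factorial : ℝ≥0∞) *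
      ∫⁻ s in Set.Ioi (0 : ℝ), volume (D.lev g m s))) (nhdsWithin 1 (Set.Iio 1))
      (nhds (ENNReal.ofReal 1 * ((n.factorial : ℝ≥0∞) *
        ∫⁻ s in Set.Ioi (0 : ℝ), volume (D.lev g m s)))) := by
    refine ENNReal.Tendsto.mul_const ?_ (Or.inl (by simp))
    exact (ENNReal.continuous_ofReal.tendsto 1).mono_left nhdsWithin_le_nhds
  rw [ENNReal.ofReal_one, one_mul] at hlim
  refine le_of_tendsto hlim ?_
  have : Set.Ioo (0 : ℝ) 1 ∈ nhdsWithin (1 : ℝ) (Set.Iio 1) :=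
    Ioo_mem_nhdsLT (by norm_num)
  filter_upwards [this] with l hl
  exact key l hl.1 hl.2

end Pool.Agent.Lib_GD.OkData
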