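import Pool.Agent.Lib_GD.OkDefs

/-! B01, B02: lattice sums are bounded by integrals. -/

open scoped ENNReal
open MeasureTheory

namespace Pool.Agent.Lib_GD.OkData

variable {n : ℕ} (D : OkData n)

private lemma mem_lev_iff (g : ℕ → (Fin n → ℕ) → ℕ) (m : ℕ) (t : ℝ) (x : Fin n → ℝ) :
    x ∈ D.lev g m t ↔ ∃ p : (Fin n → ℕ) → ℝ, (∀ γ, 0 ≤ p γ) ∧ ∑ γ ∈ D.Γ m, p γ = 1 ∧
    (∀ i, x i = ∑ γ ∈ D.Γ m, p γ * γ i) ∧ t ≤ ∑ γ ∈ D.Γ m, p γ * g m γ := Iff.rfl

/-- The level sets are compact and convex. -/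
theorem isCompact_lev (g : ℕ → (Fin n → ℕ) → ℕ) (m : ℕ) (t : ℝ) : IsCompact (D.lev g m t) := by
  classical
  have hK : IsCompact (stdSimplex ℝ (D.Γ m) ∩
      {q : (D.Γ m) → ℝ | t ≤ ∑ γ : D.Γ m, q γ * g m γ}) := by
    refine (isCompact_stdSimplex ℝ (D.Γ m)).inter_right ?_
    refine isClosed_le continuous_const ?_
    exact continuous_finsetSum _ fun i _ => (continuous_apply i).mul continuous_const
  have hc : Continuous (fun (q : (D.Γ m) → ℝ) (i : Fin n) =>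
      ∑ γ : D.Γ m, q γ * (((γ : Fin n → ℕ) i : ℕ) : ℝ)) := by
    refine continuous_pi fun i => ?_
    exact continuous_finsetSum _ fun j _ => (continuous_apply j).mul continuous_const
  have he : D.lev g m t = (fun (q : (D.Γ m) → ℝ) (i : Fin n) =>
      ∑ γ : D.Γ m, q γ * (((γ : Fin n → ℕ) i : ℕ) : ℝ)) '' (stdSimplex ℝ (D.Γ m) ∩
      {q : (D.Γ m) → ℝ | t ≤ ∑ γ : D.Γ m, q γ * g m γ}) := by
    ext x
    constructor
    · rintro ⟨p, hp0, hp1, hx, ht⟩
      refine ⟨fun γ => p γ, ⟨⟨fun γ => hp0 γ, ?_⟩, ?_⟩, ?_⟩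
      · rw [Finset.sum_coe_sort (D.Γ m) p]; exact hp1
      · have := Finset.sum_coe_sort (D.Γ m) (fun γ => p γ * g m γ)
        simp only [Set.mem_ofPred_eq]
        rw [this]; exact ht
      · funext i
        have := Finset.sum_coe_sort (D.Γ m) (fun γ => p γ * ((γ i : ℕ) : ℝ))
        simp only
        rw [this, hx i]
    · rintro ⟨q, ⟨⟨hq0, hq1⟩, hqt⟩, rfl⟩
      refine ⟨fun γ => if h : γ ∈ D.Γ m then q ⟨γ, h⟩ else 0, ?_, ?_, ?_, ?_⟩
      · intro γ
        simp only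
        split_ifs with h
        · exact hq0 _
        · exact le_rfl
      · rw [← Finset.sum_coe_sort]
        simpa using hq1
      · intro i
        rw [← Finset.sum_coe_sort]
        simp
      · rw [← Finset.sum_coe_sort]
        simpa using hqt
  rw [he]
  exact hK.image hc

private lemma mix_mem_lev (g : ℕ → (Fin n → ℕ) → ℕ) (m : ℕ) {t s : ℝ} {x y : Fin n → ℝ}
    (hx : x ∈ D.lev g m t) (hy : y ∈ D.lev g m s) {a b : ℝ} (ha : 0 ≤ a) (hb : 0 ≤ b)
    (hab : a + b = 1) : a • x + b • y ∈ D.lev g m (a * t + b * s) := by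
  obtain ⟨p, hp0, hp1, hpx, hpt⟩ := hx
  obtain ⟨q, hq0, hq1, hqy, hqt⟩ := hy
  refine ⟨fun γ => a * p γ + b * q γ, fun γ => ?_, ?_, fun i => ?_, ?_⟩
  · exact add_nonneg (mul_nonneg ha (hp0 γ)) (mul_nonneg hb (hq0 γ))
  · rw [Finset.sum_add_distrib, ← Finset.mul_sum, ← Finset.mul_sum, hp1, hq1, mul_one, mul_one,
      hab]
  · simp only [Pi.add_apply, Pi.smul_apply, smul_eq_mul, hpx i, hqy i, Finset.mul_sum,
      add_mul, Finset.sum_add_distrib]
    congr 1 <;> exact Finset.sum_congr rfl fun γ _ => by ring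
  · have h1 : ∑ γ ∈ D.Γ m, (a * p γ + b * q γ) * (g m γ : ℝ) =
        a * ∑ γ ∈ D.Γ m, p γ * g m γ + b * ∑ γ ∈ D.Γ m, q γ * g m γ := by
      rw [Finset.mul_sum, Finset.mul_sum, ← Finset.sum_add_distrib]
      exact Finset.sum_congr rfl fun γ _ => by ring
    rw [h1]
    exact add_le_add (mul_le_mul_of_nonneg_left hpt ha) (mul_le_mul_of_nonneg_left hqt hb)

theorem convex_lev (g : ℕ → (Fin n → ℕ) → ℕ) (m : ℕ) (t : ℝ) : Convex ℝ (D.lev g m t) := by
  intro x hx y hy a b ha hb hab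
  have := mix_mem_lev D g m hx hy ha hb hab
  rwa [← add_mul, hab, one_mul] at this

private lemma lev_anti (g : ℕ → (Fin n → ℕ) → ℕ) (m : ℕ) {s t : ℝ} (hst : s ≤ t) :
    D.lev g m t ⊆ D.lev g m s := by
  rintro x ⟨p, h0, h1, h2, h3⟩
  exact ⟨p, h0, h1, h2, hst.trans h3⟩

private lemma point_mem_lev (g : ℕ → (Fin n → ℕ) → ℕ) (m : ℕ) (γ : Fin n → ℕ) (hγ : γ ∈ D.Γ m) :
    (fun i => (γ i : ℝ)) ∈ D.lev g m (g m γ) := by
  classical
  refine ⟨fun δ => if δ = γ then 1 else 0, fun δ => ?_, ?_, fun i => ?_, ?_⟩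
  · simp only; split_ifs <;> norm_num
  · simp [hγ]
  · simp [ite_mul, hγ]
  · simp [ite_mul, hγ]

private lemma simplex_mem_lev (g : ℕ → (Fin n → ℕ) → ℕ) (m : ℕ) (hm : D.m₀ ≤ m)
    (w : Fin n → ℝ) (hw : ∀ i, 0 ≤ w i) (hws : ∑ i, w i ≤ D.c * m - 1) :
    w ∈ D.lev g m 0 := by
  classical
  set K : ℕ := ⌊D.c * m⌋₊ with hKdef
  have hcm : 0 ≤ D.c * m := mul_nonneg D.hc.le (Nat.cast_nonneg m)
  have hKle : (K : ℝ) ≤ D.c * m := Nat.floor_le hcm
  have hKgt : D.c * m - 1 < K := by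
    have := Nat.lt_floor_add_one (D.c * m)
    rw [← hKdef] at this
    linarith
  have hKpos : (0 : ℝ) < K := by
    have : (0 : ℝ) ≤ ∑ i, w i := Finset.sum_nonneg fun i _ => hw i
    linarith
  have hsum : ∑ i, w i / K ≤ 1 := by
    rw [← Finset.sum_div, div_le_one hKpos]
    linarith
  -- the points
  let z : Option (Fin n) → (Fin n → ℕ) := fun o => match o with
    | none => 0
    | some i => Pi.single i K
  let wt : Option (Fin n) → ℝ := fun o => match o with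
    | none => 1 - ∑ i, w i / K
    | some i => w i / K
  have hz : ∀ o, z o ∈ D.Γ m := by
    intro o
    apply D.simplex m hm
    cases o with
    | none => simpa [z] using hcm
    | some i =>
      have : ∑ j, z (some i) j = K := by simp [z]
      rw [this]; exact hKle
  have hmem : ∀ o, (fun i => ((z o) i : ℝ)) ∈ D.lev g m 0 := fun o =>
    lev_anti D g m (Nat.cast_nonneg _) (point_mem_lev D g m (z o) (hz o))
  have hwt0 : ∀ o ∈ (Finset.univ : Finset (Option (Fin n))), 0 ≤ wt o := by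
    intro o _
    cases o with
    | none => simp only [wt]; linarith
    | some i => exact div_nonneg (hw i) hKpos.le
  have hwt1 : ∑ o, wt o = 1 := by
    rw [Fintype.sum_option]
    simp [wt]
  have := (convex_lev D g m 0).sum_mem hwt0 hwt1 (fun o _ => hmem o)
  convert this using 1
  funext j
  rw [Fintype.sum_option]
  simp only [Pi.add_apply, Pi.smul_apply, Finset.sum_apply, smul_eq_mul, z, wt, Pi.zero_apply,
    Nat.cast_zero, mul_zero, zero_add]
  rw [Finset.sum_eq_single j]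
  · simp [hKpos.ne']
  · intro i _ hij
    simp [hij.symm]
  · intro h; exact absurd (Finset.mem_univ j) h

/-- the cube -/
private def cube (θ : ℝ) (γ : Fin n → ℕ) : Set (Fin n → ℝ) :=
  Set.pi Set.univ fun i => Set.Ico ((1 - θ) * (γ i : ℝ)) ((1 - θ) * (γ i : ℝ) + (1 - θ))

private lemma volume_cube (θ : ℝ) (γ : Fin n → ℕ) :
    volume (cube θ γ) = ENNReal.ofReal (1 - θ) ^ n := by
  rw [cube, Real.volume_pi_Ico]
  simp

private lemma measurable_cube (θ : ℝ) (γ : Fin n → ℕ) : MeasurableSet (cube θ γ) :=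
  MeasurableSet.univ_pi fun _ => measurableSet_Ico

private lemma cube_disjoint {θ : ℝ} (hθ1 : θ < 1) {γ δ : Fin n → ℕ} (h : γ ≠ δ) :
    Disjoint (cube θ γ) (cube θ δ) := by
  rw [Set.disjoint_left]
  intro x hx hy
  apply h
  funext i
  have h1 := hx i (Set.mem_univ i)
  have h2 := hy i (Set.mem_univ i)
  simp only [Set.mem_Ico] at h1 h2
  have hp : 0 < 1 - θ := by linarith
  have key : ∀ a b : ℕ, (1 - θ) * (a : ℝ) ≤ x i → x i < (1 - θ) * (b : ℝ) + (1 - θ) → a ≤ b := by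
    intro a b ha hb
    have : (1 - θ) * (a : ℝ) < (1 - θ) * ((b : ℝ) + 1) := by linarith
    have := lt_of_mul_lt_mul_left this hp.le
    have h3 : (a : ℝ) < ((b + 1 : ℕ) : ℝ) := by push_cast; exact this
    have h4 : a < b + 1 := by exact_mod_cast h3
    omega
  exact le_antisymm (key _ _ h1.1 h2.2) (key _ _ h2.1 h1.2)

private lemma cube_subset (g : ℕ → (Fin n → ℕ) → ℕ) (m : ℕ) (hm : D.m₀ ≤ m) (θ : ℝ) (hθ : 0 < θ)
    (hθ1 : θ < 1) (hθm : n / θ ≤ D.c * m - 1) (γ : Fin n → ℕ) (hγ : γ ∈ D.Γ m) :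
    cube θ γ ⊆ D.lev g m ((1 - θ) * g m γ) := by
  intro x hx
  have hp : 0 < 1 - θ := by linarith
  set w : Fin n → ℝ := fun i => (x i - (1 - θ) * γ i) / θ with hwdef
  have hx' : ∀ i, (1 - θ) * (γ i : ℝ) ≤ x i ∧ x i < (1 - θ) * (γ i : ℝ) + (1 - θ) := fun i =>
    hx i (Set.mem_univ i)
  have hw0 : ∀ i, 0 ≤ w i := fun i => div_nonneg (by linarith [(hx' i).1]) hθ.le
  have hw1 : ∀ i, w i ≤ 1 / θ := fun i => by
    apply div_le_div_of_nonneg_right _ hθ.le
    linarith [(hx' i).2]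
  have hws : ∑ i, w i ≤ D.c * m - 1 := by
    calc ∑ i, w i ≤ ∑ _i : Fin n, 1 / θ := Finset.sum_le_sum fun i _ => hw1 i
      _ = n / θ := by simp [div_eq_mul_inv]
      _ ≤ _ := hθm
  have h1 := simplex_mem_lev D g m hm w hw0 hws
  have h2 := point_mem_lev D g m γ hγ
  have h3 := mix_mem_lev D g m h2 h1 hp.le hθ.le (by ring)
  rw [mul_zero, add_zero] at h3
  convert h3 using 1
  funext i
  simp only [Pi.add_apply, Pi.smul_apply, smul_eq_mul, hwdef]
  field_simp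
  ring

/-- B01: for `θ ∈ (0, 1)` with `n / θ ≤ c m - 1`, the cubes `(1 - θ) (γ + [0, 1)^n)`,
`γ ∈ Γ m`, `g m γ ≥ t`, lie in the level set of `(1 - θ) t`. -/
theorem cnt_le_volume (g : ℕ → (Fin n → ℕ) → ℕ) (m : ℕ) (hm : D.m₀ ≤ m) (θ : ℝ) (hθ : 0 < θ)
    (hθ1 : θ < 1) (hθm : n / θ ≤ D.c * m - 1) (t : ℝ) (ht : 0 ≤ t) :
    ENNReal.ofReal ((1 - θ) ^ n * D.cnt g m t) ≤ volume (D.lev g m ((1 - θ) * t)) := by
  classical
  have hp : 0 < 1 - θ := by linarith
  set s := (D.Γ m).filter fun γ => t ≤ (g m γ : ℝ) with hs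
  have hcnt : D.cnt g m t = s.card := by
    rw [cnt, hs]
  have hU : (⋃ γ ∈ s, cube θ γ) ⊆ D.lev g m ((1 - θ) * t) := by
    refine Set.iUnion₂_subset fun γ hγ => ?_
    rw [hs, Finset.mem_filter] at hγ
    refine (cube_subset D g m hm θ hθ hθ1 hθm γ hγ.1).trans (lev_anti D g m ?_)
    exact mul_le_mul_of_nonneg_left hγ.2 hp.le
  have hV : volume (⋃ γ ∈ s, cube θ γ) = ENNReal.ofReal ((1 - θ) ^ n * D.cnt g m t) := by
    rw [measure_biUnion_finset (fun γ _ δ _ h => cube_disjoint hθ1 h)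
      (fun γ _ => measurable_cube θ γ)]
    simp only [volume_cube, Finset.sum_const, nsmul_eq_mul]
    rw [ENNReal.ofReal_mul (pow_nonneg hp.le n), ENNReal.ofReal_pow hp.le,
      ENNReal.ofReal_natCast, hcnt, mul_comm]
  rw [← hV]
  exact measure_mono hU

private lemma lintegral_cnt (g : ℕ → (Fin n → ℕ) → ℕ) (m : ℕ) :
    ∫⁻ t in Set.Ioi (0 : ℝ), (D.cnt g m t : ℝ≥0∞) = ((∑ γ ∈ D.Γ m, g m γ : ℕ) : ℝ≥0∞) := by
  classical
  have h1 : ∀ t : ℝ, (D.cnt g m t : ℝ≥0∞) =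
      ∑ γ ∈ D.Γ m, (Set.Iic ((g m γ : ℕ) : ℝ)).indicator (fun _ => (1 : ℝ≥0∞)) t := by
    intro t
    have : D.cnt g m t = ((D.Γ m).filter fun γ => t ≤ (g m γ : ℝ)).card := by
      rw [cnt]
    rw [this, Finset.card_filter, Nat.cast_sum]
    refine Finset.sum_congr rfl fun γ _ => ?_
    simp only [Set.indicator, Set.mem_Iic]
    split_ifs <;> simp
  simp only [h1]
  rw [lintegral_finsetSum _ (fun γ _ => measurable_const.indicator measurableSet_Iic)]
  rw [Nat.cast_sum]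
  refine Finset.sum_congr rfl fun γ _ => ?_
  rw [lintegral_indicator measurableSet_Iic, setLIntegral_const, one_mul,
    Measure.restrict_apply' measurableSet_Ioi, Set.inter_comm, Set.Ioi_inter_Iic,
    Real.volume_Ioc, sub_zero, ENNReal.ofReal_natCast]

/-- B02. -/
theorem sum_le_integral (g : ℕ → (Fin n → ℕ) → ℕ) (m : ℕ) (hm : D.m₀ ≤ m) (θ : ℝ) (hθ : 0 < θ)
    (hθ1 : θ < 1) (hθm : n / θ ≤ D.c * m - 1) :
    ENNReal.ofReal ((1 - θ) ^ (n + 1)) * ((∑ γ ∈ D.Γ m, g m γ : ℕ) : ℝ≥0∞) ≤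
      ∫⁻ s in Set.Ioi (0 : ℝ), volume (D.lev g m s) := by
  have hp : 0 < 1 - θ := by linarith
  have hanti : Antitone fun s : ℝ => volume (D.lev g m s) := fun s t hst =>
    measure_mono (lev_anti D g m hst)
  have hmeas : Measurable fun s : ℝ => volume (D.lev g m s) := hanti.measurable
  have hF : Measurable ((Set.Ioi (0 : ℝ)).indicator fun s : ℝ => volume (D.lev g m s)) :=
    hmeas.indicator measurableSet_Ioi
  have hcv : ∫⁻ s in Set.Ioi (0 : ℝ), volume (D.lev g m s) =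
      ENNReal.ofReal (1 - θ) * ∫⁻ t in Set.Ioi (0 : ℝ), volume (D.lev g m ((1 - θ) * t)) := by
    rw [← lintegral_indicator measurableSet_Ioi, ← lintegral_indicator measurableSet_Ioi]
    have h := Real.smul_map_volume_mul_left (a := 1 - θ) hp.ne'
    conv_lhs => rw [← h]
    rw [lintegral_smul_measure, lintegral_map hF (measurable_const_mul _), abs_of_pos hp,
      smul_eq_mul]
    congr 1
    refine lintegral_congr fun t => ?_
    simp only [Set.indicator, Set.mem_Ioi, mul_pos_iff_of_pos_left hp]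
  rw [hcv, ← lintegral_cnt, pow_succ', ENNReal.ofReal_mul hp.le, mul_assoc]
  gcongr
  rw [← lintegral_const_mul']
  · refine lintegral_mono_ae ?_
    refine (ae_restrict_iff' measurableSet_Ioi).2 (Filter.Eventually.of_forall fun t ht => ?_)
    have := cnt_le_volume D g m hm θ hθ hθ1 hθm t (le_of_lt ht)
    rwa [ENNReal.ofReal_mul (pow_nonneg hp.le n), ENNReal.ofReal_natCast] at this
  · exact ENNReal.ofReal_ne_top

end Pool.Agent.Lib_GD.OkData
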