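import Pool.Agent.Lib_GD.OkVol
import Pool.Agent.Lib_GD.OkInt

/-! B05: the uniform estimate `S_m ≤ (1 + ε) S`, combinatorial form. -/

open scoped ENNReal
open MeasureTheory

namespace Pool.Agent.Lib_GD.OkData

variable {n : ℕ} (D : OkData n)

/-- B05: the uniform estimate. -/
theorem sum_le_S (ε : ℝ) (hε : 0 < ε) : ∃ m₁ : ℕ, ∀ m, m₁ ≤ m →
    ∀ g : ℕ → (Fin n → ℕ) → ℕ, D.IsWeight g →
      ((∑ γ ∈ D.Γ m, g m γ : ℕ) : ℝ≥0∞) ≤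
        ENNReal.ofReal (1 + ε) * ((m * (D.Γ m).card : ℕ) : ℝ≥0∞) * D.S g := by
  -- the parameters
  obtain ⟨δ, hδ⟩ : ∃ δ : ℝ, δ = ε / (1 + ε) := ⟨_, rfl⟩
  have hε1 : (0 : ℝ) < 1 + ε := by linarith
  have hδ0 : 0 < δ := by rw [hδ]; positivity
  have hδ1 : δ < 1 := by rw [hδ, div_lt_one hε1]; linarith
  have hδε : (1 + ε) * (1 - δ) = 1 := by rw [hδ]; field_simp; ring
  have hn1 : (0 : ℝ) < (n : ℝ) + 1 := by positivity
  obtain ⟨θ, hθdef⟩ : ∃ θ : ℝ, θ = δ / (2 * ((n : ℝ) + 1)) := ⟨_, rfl⟩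
  have hθ0 : 0 < θ := by rw [hθdef]; positivity
  have hθn : ((n : ℝ) + 1) * θ = δ / 2 := by rw [hθdef]; field_simp
  have hθ1 : θ < 1 := by
    have h1 : θ ≤ ((n : ℝ) + 1) * θ := by
      have : (0 : ℝ) ≤ n := Nat.cast_nonneg n
      nlinarith
    linarith
  have hbern : 1 - δ / 2 ≤ (1 - θ) ^ (n + 1) := by
    have h1 := one_add_mul_le_pow (a := -θ) (by linarith) (n + 1)
    have h2 : (1 : ℝ) + ((n + 1 : ℕ) : ℝ) * (-θ) = 1 - δ / 2 := by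
      push_cast
      linarith
    rw [h2] at h1
    have h3 : (1 : ℝ) + -θ = 1 - θ := by ring
    rwa [h3] at h1
  obtain ⟨m₂, hm₂⟩ := D.vol_le (δ / 2) (by linarith) (by linarith)
  obtain ⟨m₃, hm₃⟩ := exists_nat_ge (((n : ℝ) / θ + 1) / D.c)
  refine ⟨max (max m₂ m₃) (max D.m₀ 1), fun m hm g hg => ?_⟩
  have hmm₂ : m₂ ≤ m := le_trans (le_trans (le_max_left _ _) (le_max_left _ _)) hm
  have hmm₃ : m₃ ≤ m := le_trans (le_trans (le_max_right _ _) (le_max_left _ _)) hm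
  have hmm₀ : D.m₀ ≤ m := le_trans (le_trans (le_max_left _ _) (le_max_right _ _)) hm
  have hθm : (n : ℝ) / θ ≤ D.c * m - 1 := by
    have h1 : ((n : ℝ) / θ + 1) / D.c ≤ m := hm₃.trans (by exact_mod_cast hmm₃)
    rw [div_le_iff₀ D.hc] at h1
    linarith
  -- the three estimates
  have e1 := D.sum_le_integral g m hmm₀ θ hθ0 hθ1 hθm
  have e2 := D.integral_lev_le g hg m hmm₀
  have e3 := hm₂ m hmm₂
  have eI : (∫⁻ t in Set.Ioi (0 : ℝ), D.volt g t) = D.S g * D.vol := by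
    unfold OkData.S
    exact (ENNReal.div_mul_cancel D.vol_ne_zero D.vol_ne_top).symm
  rw [eI] at e2
  generalize (∫⁻ s in Set.Ioi (0 : ℝ), volume (D.lev g m s)) = J at e1 e2
  generalize D.S g = S at e2 ⊢
  generalize D.vol = V at e2 e3
  generalize ((∑ γ ∈ D.Γ m, g m γ : ℕ) : ℝ≥0∞) = Y at e1 ⊢
  obtain ⟨p, hp⟩ : ∃ p : ℝ≥0∞, p = ENNReal.ofReal ((1 - θ) ^ (n + 1)) := ⟨_, rfl⟩
  obtain ⟨q, hq⟩ : ∃ q : ℝ≥0∞, q = ENNReal.ofReal (1 - δ / 2) := ⟨_, rfl⟩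
  rw [← hp] at e1
  rw [← hq] at e3
  have hpq : 1 ≤ ENNReal.ofReal (1 + ε) * (p * q) := by
    rw [hp, hq, ← ENNReal.ofReal_mul (by positivity), ← ENNReal.ofReal_mul (by linarith)]
    rw [← ENNReal.ofReal_one]
    apply ENNReal.ofReal_le_ofReal
    have h1 : (1 - δ / 2) * (1 - δ / 2) ≤ (1 - θ) ^ (n + 1) * (1 - δ / 2) :=
      mul_le_mul_of_nonneg_right hbern (by linarith)
    have h2 : 1 - δ ≤ (1 - δ / 2) * (1 - δ / 2) := by nlinarith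
    calc (1 : ℝ) = (1 + ε) * (1 - δ) := hδε.symm
      _ ≤ (1 + ε) * ((1 - θ) ^ (n + 1) * (1 - δ / 2)) :=
        mul_le_mul_of_nonneg_left (h2.trans h1) hε1.le
  have hfac0 : (n.factorial : ℝ≥0∞) ≠ 0 := by
    exact_mod_cast n.factorial_ne_zero
  have hfact : (n.factorial : ℝ≥0∞) ≠ ⊤ := ENNReal.natCast_ne_top _
  have key : (n.factorial : ℝ≥0∞) * ((p * q) * Y) ≤
      (n.factorial : ℝ≥0∞) * (((m * (D.Γ m).card : ℕ) : ℝ≥0∞) * S) := by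
    calc (n.factorial : ℝ≥0∞) * ((p * q) * Y) = q * ((n.factorial : ℝ≥0∞) * (p * Y)) := by ring
      _ ≤ q * ((n.factorial : ℝ≥0∞) * J) := by gcongr
      _ ≤ q * ((m : ℝ≥0∞) ^ (n + 1) * (S * V)) := by gcongr
      _ = (m : ℝ≥0∞) * S * ((m : ℝ≥0∞) ^ n * (q * V)) := by ring
      _ ≤ (m : ℝ≥0∞) * S * ((m : ℝ≥0∞) ^ n *
          (((n.factorial * (D.Γ m).card : ℕ) : ℝ≥0∞) / (m : ℝ≥0∞) ^ n)) := by gcongr
      _ ≤ (m : ℝ≥0∞) * S * ((n.factorial * (D.Γ m).card : ℕ) : ℝ≥0∞) := by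
        gcongr
        exact ENNReal.mul_div_le
      _ = (n.factorial : ℝ≥0∞) * (((m * (D.Γ m).card : ℕ) : ℝ≥0∞) * S) := by
        push_cast
        ring
  have key2 : (p * q) * Y ≤ ((m * (D.Γ m).card : ℕ) : ℝ≥0∞) * S :=
    (ENNReal.mul_le_mul_iff_right hfac0 hfact).1 key
  calc Y = 1 * Y := (one_mul _).symm
    _ ≤ (ENNReal.ofReal (1 + ε) * (p * q)) * Y := by gcongr
    _ = ENNReal.ofReal (1 + ε) * ((p * q) * Y) := by ring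
    _ ≤ ENNReal.ofReal (1 + ε) * (((m * (D.Γ m).card : ℕ) : ℝ≥0∞) * S) := by gcongr
    _ = ENNReal.ofReal (1 + ε) * ((m * (D.Γ m).card : ℕ) : ℝ≥0∞) * S := by ring

end Pool.Agent.Lib_GD.OkData
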