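import Pool.Agent.Lib_GD.OkCount

/-! B04a: volumes. -/

open scoped ENNReal
open MeasureTheory

namespace Pool.Agent.Lib_GD.OkData

variable {n : ℕ} (D : OkData n)

private lemma OkVol_card_le (m : ℕ) : (D.Γ m).card ≤ (D.C * m + 1) ^ n := by
  classical
  have h1 : D.Γ m ⊆ Fintype.piFinset (fun _ : Fin n => Finset.range (D.C * m + 1)) := by
    intro γ hγ
    rw [Fintype.mem_piFinset]
    intro i
    rw [Finset.mem_range]
    have h2 := D.bdd m γ hγ
    have h3 : γ i ≤ ∑ j, γ j := Finset.single_le_sum (fun _ _ => Nat.zero_le _) (Finset.mem_univ i)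
    omega
  have h2 := Finset.card_le_card h1
  rwa [Fintype.card_piFinset_const, Finset.card_range] at h2

private lemma OkVol_le_card (m : ℕ) (hm : D.m₀ ≤ m) :
    (D.c / ((n : ℝ) + 1) * m) ^ n ≤ ((D.Γ m).card : ℝ) := by
  classical
  have hn : (0 : ℝ) < (n : ℝ) + 1 := by positivity
  have hcm : 0 ≤ D.c / ((n : ℝ) + 1) * m :=
    mul_nonneg (div_nonneg D.hc.le hn.le) (Nat.cast_nonneg m)
  set K : ℕ := ⌊D.c / ((n : ℝ) + 1) * m⌋₊ with hK
  have h1 : Fintype.piFinset (fun _ : Fin n => Finset.range (K + 1)) ⊆ D.Γ m := by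
    intro γ hγ
    rw [Fintype.mem_piFinset] at hγ
    refine D.simplex m hm γ ?_
    have h2 : ∑ i, γ i ≤ n * K := by
      calc ∑ i, γ i ≤ ∑ _i : Fin n, K := Finset.sum_le_sum fun i _ => by
            have := Finset.mem_range.1 (hγ i)
            omega
        _ = n * K := by simp
    have h3 : (K : ℝ) ≤ D.c / ((n : ℝ) + 1) * m := Nat.floor_le hcm
    calc ((∑ i, γ i : ℕ) : ℝ) ≤ ((n * K : ℕ) : ℝ) := by exact_mod_cast h2
      _ = (n : ℝ) * K := by push_cast; ring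
      _ ≤ ((n : ℝ) + 1) * K := by
          have : (0 : ℝ) ≤ K := Nat.cast_nonneg K
          nlinarith
      _ ≤ ((n : ℝ) + 1) * (D.c / ((n : ℝ) + 1) * m) := mul_le_mul_of_nonneg_left h3 hn.le
      _ = D.c * m := by field_simp
  have h2 := Finset.card_le_card h1
  rw [Fintype.card_piFinset_const, Finset.card_range] at h2
  have h3 : D.c / ((n : ℝ) + 1) * m ≤ ((K + 1 : ℕ) : ℝ) := by
    have := Nat.lt_floor_add_one (D.c / ((n : ℝ) + 1) * m)
    rw [← hK] at this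
    push_cast
    exact this.le
  calc (D.c / ((n : ℝ) + 1) * m) ^ n ≤ ((K + 1 : ℕ) : ℝ) ^ n := pow_le_pow_left₀ hcm h3 n
    _ = (((K + 1) ^ n : ℕ) : ℝ) := by push_cast; ring
    _ ≤ ((D.Γ m).card : ℝ) := by exact_mod_cast h2

private lemma OkVol_ne_top : D.vol ≠ ⊤ := by
  have h : D.vol ≤ ((n.factorial * (D.C + 1) ^ n : ℕ) : ℝ≥0∞) := by
    unfold vol
    refine Filter.limsup_le_of_le (by isBoundedDefault) ?_
    filter_upwards [Filter.eventually_ge_atTop 1] with m hm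
    have h1 := OkVol_card_le D m
    have h2 : (D.C * m + 1) ^ n ≤ (D.C + 1) ^ n * m ^ n := by
      rw [← mul_pow]
      refine Nat.pow_le_pow_left ?_ n
      rw [add_mul, one_mul]
      omega
    refine ENNReal.div_le_of_le_mul ?_
    have h3 : n.factorial * (D.Γ m).card ≤ n.factorial * (D.C + 1) ^ n * m ^ n := by
      rw [mul_assoc]
      exact Nat.mul_le_mul_left _ (h1.trans h2)
    exact_mod_cast h3
  exact ne_top_of_le_ne_top (ENNReal.natCast_ne_top _) h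

private lemma OkVol_ne_zero : D.vol ≠ 0 := by
  have hn : (0 : ℝ) < (n : ℝ) + 1 := by positivity
  have hc : 0 < D.c / ((n : ℝ) + 1) := div_pos D.hc hn
  have h : ENNReal.ofReal ((D.c / ((n : ℝ) + 1)) ^ n) ≤ D.vol := by
    unfold vol
    refine le_trans (Filter.le_liminf_of_le (by isBoundedDefault) ?_) Filter.liminf_le_limsup
    filter_upwards [Filter.eventually_ge_atTop D.m₀] with m hm
    have hm1 : 1 ≤ m := D.hm₀.trans hm
    have hmE : (m : ℝ≥0∞) ^ n ≠ 0 := pow_ne_zero _ (by exact_mod_cast (by omega : m ≠ 0))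
    have hmT : (m : ℝ≥0∞) ^ n ≠ ⊤ := ENNReal.pow_ne_top (ENNReal.natCast_ne_top m)
    rw [ENNReal.le_div_iff_mul_le (Or.inl hmE) (Or.inl hmT)]
    have h1 := OkVol_le_card D m hm
    have h2 : ((D.Γ m).card : ℝ) ≤ ((n.factorial * (D.Γ m).card : ℕ) : ℝ) := by
      have : (D.Γ m).card ≤ n.factorial * (D.Γ m).card :=
        Nat.le_mul_of_pos_left _ n.factorial_pos
      exact_mod_cast this
    calc ENNReal.ofReal ((D.c / ((n : ℝ) + 1)) ^ n) * (m : ℝ≥0∞) ^ n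
        = ENNReal.ofReal ((D.c / ((n : ℝ) + 1) * m) ^ n) := by
          rw [mul_pow, ENNReal.ofReal_mul (by positivity), ENNReal.ofReal_pow (Nat.cast_nonneg m),
            ENNReal.ofReal_natCast]
      _ ≤ ENNReal.ofReal ((n.factorial * (D.Γ m).card : ℕ) : ℝ) :=
          ENNReal.ofReal_le_ofReal (h1.trans h2)
      _ = ((n.factorial * (D.Γ m).card : ℕ) : ℝ≥0∞) := ENNReal.ofReal_natCast _
  have hpos : 0 < ENNReal.ofReal ((D.c / ((n : ℝ) + 1)) ^ n) :=
    ENNReal.ofReal_pos.2 (pow_pos hc n)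
  exact (lt_of_lt_of_le hpos h).ne'

/-- B04a: `vol > 0` and `vol < ∞`, and `n! #Γ_m / m^n ≥ (1 - ε) vol` for large `m`. -/
theorem vol_le (ε : ℝ) (hε : 0 < ε) (hε1 : ε < 1) : ∃ m₁ : ℕ, ∀ m, m₁ ≤ m →
    ENNReal.ofReal (1 - ε) * D.vol ≤
      ((n.factorial * (D.Γ m).card : ℕ) : ℝ≥0∞) / (m : ℝ≥0∞) ^ n := by
  classical
  -- the parameter
  have hn1 : (0 : ℝ) < (n : ℝ) + 1 := by positivity
  obtain ⟨θ, hθdef⟩ : ∃ θ : ℝ, θ = ε / (2 * ((n : ℝ) + 1)) := ⟨_, rfl⟩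
  have hθ0 : 0 < θ := by rw [hθdef]; positivity
  have hθn : ((n : ℝ) + 1) * θ = ε / 2 := by rw [hθdef]; field_simp
  have hn0 : (0 : ℝ) ≤ n := Nat.cast_nonneg n
  have hθ1 : θ < 1 := by nlinarith
  have hbern : 1 - ε / 2 ≤ (1 - θ) ^ n := by
    have h1 := one_add_mul_le_pow (a := -θ) (by linarith) n
    have h3 : (1 : ℝ) + -θ = 1 - θ := by ring
    rw [h3] at h1
    nlinarith
  -- the weight zero
  let g : ℕ → (Fin n → ℕ) → ℕ := fun _ _ => 0
  have hg : D.IsWeight g := fun _ _ _ _ _ _ => le_rfl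
  have hcnt : ∀ M : ℕ, D.cnt g M (0 * M) = (D.Γ M).card := by
    intro M
    unfold cnt
    congr 1
    refine Finset.filter_true_of_mem fun γ _ => ?_
    simp [g]
  have hcnt0 : ∀ M : ℕ, D.cnt g M 0 = (D.Γ M).card := by
    intro M
    have := hcnt M
    rwa [zero_mul] at this
  set L : ℝ≥0∞ := Filter.liminf (fun M : ℕ => ((D.Γ M).card : ℝ≥0∞) / (M : ℝ≥0∞) ^ n)
    Filter.atTop with hL
  obtain ⟨m₃, hm₃⟩ := exists_nat_ge (((n : ℝ) / θ + 1) / D.c)
  have hstep : ∀ m : ℕ, max m₃ D.m₀ ≤ m → ENNReal.ofReal (1 - ε / 2) *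
      (((D.Γ m).card : ℝ≥0∞) / (m : ℝ≥0∞) ^ n) ≤ L := by
    intro m hm
    have hmm₃ : m₃ ≤ m := (le_max_left _ _).trans hm
    have hmm₀ : D.m₀ ≤ m := (le_max_right _ _).trans hm
    have hθm : (n : ℝ) / θ ≤ D.c * m - 1 := by
      have h1 : ((n : ℝ) / θ + 1) / D.c ≤ m := hm₃.trans (by exact_mod_cast hmm₃)
      rw [div_le_iff₀ D.hc] at h1
      linarith
    have h1 := D.cnt_le_volume g m hmm₀ θ hθ0 hθ1 hθm 0 le_rfl
    rw [mul_zero, hcnt0] at h1
    have h2 := D.count_lower g hg m hmm₀ 0 0 (Or.inr ⟨rfl, rfl⟩)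
    simp only [hcnt] at h2
    refine le_trans ?_ h2
    rw [← mul_div_assoc]
    refine ENNReal.div_le_div_right (le_trans ?_ h1) _
    rw [ENNReal.ofReal_mul (by positivity), ENNReal.ofReal_natCast]
    gcongr
  have hvol : ENNReal.ofReal (1 - ε / 2) * D.vol ≤ Filter.liminf (fun M : ℕ =>
      ((n.factorial * (D.Γ M).card : ℕ) : ℝ≥0∞) / (M : ℝ≥0∞) ^ n) Filter.atTop := by
    have e1 : D.vol = (n.factorial : ℝ≥0∞) * Filter.limsup (fun M : ℕ =>
        ((D.Γ M).card : ℝ≥0∞) / (M : ℝ≥0∞) ^ n) Filter.atTop := by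
      rw [← ENNReal.limsup_const_mul_of_ne_top (ENNReal.natCast_ne_top _)]
      unfold vol
      congr 1
      funext M
      rw [Nat.cast_mul, mul_div_assoc]
    have e2 : Filter.liminf (fun M : ℕ =>
        ((n.factorial * (D.Γ M).card : ℕ) : ℝ≥0∞) / (M : ℝ≥0∞) ^ n) Filter.atTop =
        (n.factorial : ℝ≥0∞) * L := by
      rw [hL, ← ENNReal.liminf_const_mul_of_ne_top (ENNReal.natCast_ne_top _)]
      congr 1
      funext M
      rw [Nat.cast_mul, mul_div_assoc]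
    rw [e1, e2, mul_left_comm]
    gcongr
    rw [← ENNReal.limsup_const_mul_of_ne_top ENNReal.ofReal_ne_top]
    refine Filter.limsup_le_of_le (by isBoundedDefault) ?_
    filter_upwards [Filter.eventually_ge_atTop (max m₃ D.m₀)] with m hm
    exact hstep m hm
  have hlt : ENNReal.ofReal (1 - ε) * D.vol < Filter.liminf (fun M : ℕ =>
      ((n.factorial * (D.Γ M).card : ℕ) : ℝ≥0∞) / (M : ℝ≥0∞) ^ n) Filter.atTop := by
    refine lt_of_lt_of_le ?_ hvol
    rw [ENNReal.mul_lt_mul_iff_left (OkVol_ne_zero D) (OkVol_ne_top D)]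
    exact (ENNReal.ofReal_lt_ofReal_iff (by linarith)).2 (by linarith)
  have hev := Filter.eventually_lt_of_lt_liminf hlt (by isBoundedDefault)
  obtain ⟨m₁, hm₁⟩ := Filter.eventually_atTop.1 hev
  exact ⟨m₁, fun m hm => (hm₁ m hm).le⟩

theorem vol_ne_top : D.vol ≠ ⊤ := OkVol_ne_top D

theorem vol_ne_zero : D.vol ≠ 0 := OkVol_ne_zero D

end Pool.Agent.Lib_GD.OkData
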