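import Pool.Agent.Lib_GD.JetBound

/-! K05: energies. -/

open PowerSeries

namespace Pool.Agent.Lib_GD.ArcSystem

variable {L : Type} [Field L] [Algebra ℂ L] {n N : ℕ} (Γ : ArcSystem L n N)

/-- For `j ∉ S` (and non-zero determinant) some element of `W_S` does not vanish at `x_j`. -/
theorem exists_ev_ne_zero (hdet : Γ.det ≠ 0) (S : Finset (Fin N)) (j : Fin N) (hj : j ∉ S) :
    ∃ f ∈ Γ.W S, Γ.ev j 0 f ≠ 0 := by
  classical
  obtain ⟨M, hM⟩ : ∃ M : Matrix (Fin N) (Fin N) L⟦X⟧, M = Matrix.of fun j i => Γ.u j 0 i :=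
    ⟨_, rfl⟩
  have hd : Γ.det = M.det := by rw [hM]; rfl
  have key : ∀ k : Fin N, Γ.ev k 0 (fun i => M.adjugate i j) = if k = j then M.det else 0 := by
    intro k
    have h1 := congrFun (congrFun (Matrix.mul_adjugate M) k) j
    rw [Matrix.mul_apply, Matrix.smul_apply, Matrix.one_apply, smul_eq_mul] at h1
    rw [ev_apply]
    have h2 : ∑ i, Γ.u k 0 i * M.adjugate i j = ∑ i, M k i * M.adjugate i j := by
      rw [hM]
      rfl
    rw [h2, h1]
    split_ifs <;> simp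
  refine ⟨fun i => M.adjugate i j, ?_, ?_⟩
  · intro k hk
    rw [key, if_neg (ne_of_mem_of_not_mem hk hj)]
  · rw [key, if_pos rfl, ← hd]
    exact hdet

/-- All values at `x_j` of elements of `W_S` are divisible by `X ^ φ(j|S)`. -/
theorem X_pow_phi_dvd (hdet : Γ.det ≠ 0) (S : Finset (Fin N)) (j : Fin N) (hj : j ∉ S) :
    ∀ f ∈ Γ.W S, (X : L⟦X⟧) ^ (Γ.phi j S) ∣ Γ.ev j 0 f := by
  intro f hf
  by_contra hcon
  rcases Nat.eq_zero_or_pos (Γ.phi j S) with h0 | h0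
  · rw [h0, pow_zero] at hcon
    exact hcon (one_dvd _)
  · have h1 : Γ.phi j S - 1 ∈ {k | ∃ f ∈ Γ.W S, ¬ (X : L⟦X⟧) ^ (k + 1) ∣ Γ.ev j 0 f} := by
      refine ⟨f, hf, ?_⟩
      rw [Nat.sub_add_cancel h0]
      exact hcon
    have h2 : Γ.phi j S ≤ Γ.phi j S - 1 := Nat.sInf_le h1
    omega

/-- `φ(j|S)` is the largest such exponent. -/
theorem le_phi (hdet : Γ.det ≠ 0) (S : Finset (Fin N)) (j : Fin N) (hj : j ∉ S) (b : ℕ)
    (hb : ∀ f ∈ Γ.W S, (X : L⟦X⟧) ^ b ∣ Γ.ev j 0 f) : b ≤ Γ.phi j S := by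
  have hne : {k | ∃ f ∈ Γ.W S, ¬ (X : L⟦X⟧) ^ (k + 1) ∣ Γ.ev j 0 f}.Nonempty := by
    obtain ⟨f, hf, h⟩ := Γ.exists_ev_ne_zero hdet S j hj
    obtain ⟨m, hm⟩ : ∃ m, coeff m (Γ.ev j 0 f) ≠ 0 := by
      by_contra hcon
      push Not at hcon
      apply h
      ext m
      rw [hcon m, map_zero]
    refine ⟨m, f, hf, fun hd => hm ?_⟩
    exact (PowerSeries.X_pow_dvd_iff.1 hd) m (Nat.lt_succ_self m)
  obtain ⟨f, hf, h⟩ := Nat.sInf_mem hne
  by_contra hcon
  exact h (dvd_trans (pow_dvd_pow _ (by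
    have : Γ.phi j S < b := not_le.1 hcon
    exact this)) (hb f hf))

/-- `W_S` is saturated: divisible by `X` in `O^N` means divisible in `W_S`. -/
theorem mem_W_of_X_smul (S : Finset (Fin N)) (k : ℕ) (f : Fin N → L⟦X⟧)
    (h : (X : L⟦X⟧) ^ k • f ∈ Γ.W S) : f ∈ Γ.W S := by
  intro i hi
  have h1 := h i hi
  rw [map_smul, smul_eq_mul] at h1
  rcases mul_eq_zero.1 h1 with h2 | h2
  · exact absurd h2 (pow_ne_zero _ PowerSeries.X_ne_zero)
  · exact h2

/-- `W_S` as a kernel. -/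
private theorem PhiBasic_ker (S : Finset (Fin N)) :
    Γ.W S = LinearMap.ker (LinearMap.pi fun i : S => Γ.ev i.1 0) := by
  ext f
  rw [LinearMap.mem_ker]
  constructor
  · intro h
    funext i
    exact h i.1 i.2
  · intro h i hi
    exact congrFun h ⟨i, hi⟩

private theorem PhiBasic_finrank (S : Finset (Fin N)) :
    N ≤ Module.finrank L⟦X⟧ (Γ.W S) + S.card := by
  rw [Γ.PhiBasic_ker S]
  obtain ⟨F, hF⟩ : ∃ F : (Fin N → L⟦X⟧) →ₗ[L⟦X⟧] (S → L⟦X⟧),
      F = LinearMap.pi fun i : S => Γ.ev i.1 0 := ⟨_, rfl⟩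
  rw [← hF]
  have h1 := LinearMap.rank_range_add_rank_ker F
  have h2 := Submodule.finrank_le (LinearMap.range F)
  have h3 := congrArg Cardinal.toNat h1
  rw [Cardinal.toNat_add (Module.rank_lt_aleph0 _ _) (Module.rank_lt_aleph0 _ _)] at h3
  have h4 : Module.finrank L⟦X⟧ (LinearMap.range F) + Module.finrank L⟦X⟧ (LinearMap.ker F) =
      Module.finrank L⟦X⟧ (Fin N → L⟦X⟧) := h3
  rw [Module.finrank_fin_fun] at h4
  rw [Module.finrank_fintype_fun_eq_card, Fintype.card_coe] at h2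
  omega

/-- The reductions modulo `X` of the elements of `W_S` form a space of dimension at least
`N - #S`. -/
theorem le_finrank_W (S : Finset (Fin N)) :
    N ≤ Module.finrank L (Submodule.span L {v : Fin N → L | ∃ f ∈ Γ.W S,
      ∀ i, constantCoeff (f i) = v i}) + S.card := by
  have h0 := Γ.PhiBasic_finrank S
  obtain ⟨r, hr⟩ : ∃ r, r = Module.finrank L⟦X⟧ (Γ.W S) := ⟨_, rfl⟩
  rw [← hr] at h0
  obtain ⟨b⟩ : Nonempty (Module.Basis (Fin r) L⟦X⟧ (Γ.W S)) := by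
    rw [hr]
    exact ⟨Module.finBasis L⟦X⟧ (Γ.W S)⟩
  -- the reductions
  obtain ⟨v, hv⟩ : ∃ v : Fin r → Fin N → L, ∀ k i,
      v k i = constantCoeff ((b k : Fin N → L⟦X⟧) i) := ⟨_, fun _ _ => rfl⟩
  have hind : LinearIndependent L v := by
    rw [Fintype.linearIndependent_iff]
    intro c hc k
    -- the combination is divisible by `X`
    have h1 : ∀ i, (X : L⟦X⟧) ∣ (∑ k, (C (c k) : L⟦X⟧) • (b k : Fin N → L⟦X⟧)) i := by
      intro i
      rw [PowerSeries.X_dvd_iff, Finset.sum_apply, map_sum]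
      have h2 := congrFun hc i
      rw [Finset.sum_apply, Pi.zero_apply] at h2
      rw [← h2]
      refine Finset.sum_congr rfl fun k _ => ?_
      rw [Pi.smul_apply, Pi.smul_apply, smul_eq_mul, smul_eq_mul, map_mul,
        PowerSeries.constantCoeff_C, hv]
    choose g hg using h1
    have h3 : (X : L⟦X⟧) ^ 1 • g = ∑ k, (C (c k) : L⟦X⟧) • (b k : Fin N → L⟦X⟧) := by
      funext i
      rw [pow_one, Pi.smul_apply, smul_eq_mul, hg i]
    have h4 : g ∈ Γ.W S := by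
      apply Γ.mem_W_of_X_smul S 1
      rw [h3]
      exact Submodule.sum_mem _ fun k _ => Submodule.smul_mem _ _ (b k).2
    have h5 : (X : L⟦X⟧) • (⟨g, h4⟩ : Γ.W S) = ∑ k, (C (c k) : L⟦X⟧) • b k := by
      apply Subtype.ext
      rw [Submodule.coe_smul, Submodule.coe_sum]
      rw [pow_one] at h3
      exact h3
    have h6 : b.repr ((X : L⟦X⟧) • (⟨g, h4⟩ : Γ.W S)) k =
        b.repr (∑ k, (C (c k) : L⟦X⟧) • b k) k := by rw [h5]
    rw [map_smul, b.repr_sum_self] at h6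
    have h7 : (C (c k) : L⟦X⟧) = X * b.repr ⟨g, h4⟩ k := by
      rw [← h6]
      rfl
    have h8 := congrArg (constantCoeff (R := L)) h7
    rw [PowerSeries.constantCoeff_C, map_mul, PowerSeries.constantCoeff_X, zero_mul] at h8
    exact h8
  have hmem : ∀ k, v k ∈ Submodule.span L {v : Fin N → L | ∃ f ∈ Γ.W S,
      ∀ i, constantCoeff (f i) = v i} := fun k =>
    Submodule.subset_span ⟨b k, (b k).2, fun i => (hv k i).symm⟩
  have hind' : LinearIndependent L (fun k => (⟨v k, hmem k⟩ : Submodule.span L {v : Fin N → L |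
      ∃ f ∈ Γ.W S, ∀ i, constantCoeff (f i) = v i})) := by
    apply LinearIndependent.of_comp (Submodule.subtype _)
    exact hind
  have h9 := hind'.fintype_card_le_finrank
  rw [Fintype.card_fin] at h9
  omega

/-- `W_S` contains an element which is non-zero modulo `X` if `#S < N`. -/
theorem exists_primitive (S : Finset (Fin N)) (hS : S.card < N) :
    ∃ f ∈ Γ.W S, ∃ i, constantCoeff (f i) ≠ 0 := by
  by_contra hcon
  push Not at hcon
  have h1 : Submodule.span L {v : Fin N → L | ∃ f ∈ Γ.W S,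
      ∀ i, constantCoeff (f i) = v i} = ⊥ := by
    rw [Submodule.span_eq_bot]
    rintro v ⟨f, hf, hv⟩
    funext i
    rw [← hv i, hcon f hf i]
    rfl
  have h2 := Γ.le_finrank_W S
  rw [h1, finrank_bot] at h2
  omega

end Pool.Agent.Lib_GD.ArcSystem
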