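import Pool.Agent.Lib_GD.PhiBasic

/-! K06: energies and the determinant. -/

open PowerSeries

namespace Pool.Agent.Lib_GD.ArcSystem

variable {L : Type} [Field L] [Algebra ℂ L] {n N : ℕ} (Γ : ArcSystem L n N)

/-- The evaluation matrix times a triangular family. -/
private theorem PhiDet_tri (σ : Equiv.Perm (Fin N)) (f : Fin N → Fin N → L⟦X⟧)
    (hf : ∀ k, f k ∈ Γ.W ((Finset.Iio k).map σ.toEmbedding)) :
    (((Equiv.Perm.sign σ : ℤˣ) : ℤ) : L⟦X⟧) * Γ.det * (Matrix.of fun i k => f k i).det =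
      ∏ k, Γ.ev (σ k) 0 (f k) := by
  have h1 : (((Equiv.Perm.sign σ : ℤˣ) : ℤ) : L⟦X⟧) * Γ.det =
      ((Matrix.of fun j i : Fin N => Γ.u j 0 i).submatrix σ id).det := by
    rw [Matrix.det_permute]
    rfl
  rw [h1, ← Matrix.det_mul, Matrix.det_of_isLowerTriangular]
  · refine Finset.prod_congr rfl fun k _ => ?_
    rw [Matrix.mul_apply, ev_apply]
    rfl
  · intro i j hij
    have hij' : i < j := hij
    have h2 := hf j (σ i) (Finset.mem_map.2 ⟨i, Finset.mem_Iio.2 hij', rfl⟩)
    rw [ev_apply] at h2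
    rw [Matrix.mul_apply]
    exact h2

/-- The determinant is non-zero as soon as (T) holds: otherwise some `x_j` would kill `W_S`,
`j ∉ S`, and by the jet bound all jets at `x_j` of the elements of `W_S` would vanish. -/
theorem det_ne_zero {D : ℕ} (hD : Γ.HT D) : Γ.det ≠ 0 := by
  have key : ∀ k : Fin N, ∃ f ∈ Γ.W ((Finset.Iio k).map (Equiv.refl (Fin N)).toEmbedding),
      Γ.ev k 0 f ≠ 0 := by
    intro k
    by_contra hcon
    push Not at hcon
    have hk : k ∉ (Finset.Iio k).map (Equiv.refl (Fin N)).toEmbedding := by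
      intro h
      obtain ⟨i, hi, hik⟩ := Finset.mem_map.1 h
      have hik' : i = k := hik
      rw [hik', Finset.mem_Iio] at hi
      exact lt_irrefl _ hi
    have hcard : ((Finset.Iio k).map (Equiv.refl (Fin N)).toEmbedding).card < N := by
      rw [Finset.card_map]
      have := Finset.card_lt_univ_of_notMem (s := Finset.Iio k) (x := k) (by simp)
      rwa [Fintype.card_fin] at this
    have h1 := Γ.le_of_primitive hD _ k hk _ (Γ.stable_W _)
      (D * Γ.cost k ((Finset.Iio k).map (Equiv.refl (Fin N)).toEmbedding) + 1)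
      (fun f hf => by rw [hcon f hf]; exact dvd_zero _) (Γ.exists_primitive _ hcard)
    omega
  choose f hf hne using key
  have h := Γ.PhiDet_tri (Equiv.refl (Fin N)) f hf
  intro h0
  rw [h0, mul_zero, zero_mul] at h
  have h2 := Finset.prod_eq_zero_iff.1 h.symm
  obtain ⟨k, _, hk⟩ := h2
  exact hne k hk

/-- Sum of the energies along any order is the order of the determinant. -/
theorem phi_sum (hdet : Γ.det ≠ 0) (σ : Equiv.Perm (Fin N)) :
    ((∑ k, Γ.phi (σ k) ((Finset.Iio k).map σ.toEmbedding) : ℕ) : ℕ∞) = Γ.det.order := by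
  classical
  have hk : ∀ k : Fin N, σ k ∉ (Finset.Iio k).map σ.toEmbedding := by
    intro k h
    obtain ⟨i, hi, hik⟩ := Finset.mem_map.1 h
    have hik' : i = k := σ.injective hik
    rw [hik', Finset.mem_Iio] at hi
    exact lt_irrefl _ hi
  -- elements of minimal order
  have key : ∀ k : Fin N, ∃ f ∈ Γ.W ((Finset.Iio k).map σ.toEmbedding), ∃ v : L⟦X⟧,
      IsUnit v ∧ Γ.ev (σ k) 0 f = X ^ Γ.phi (σ k) ((Finset.Iio k).map σ.toEmbedding) * v := by
    intro k
    by_contra hcon
    push Not at hcon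
    have h1 := Γ.le_phi hdet _ (σ k) (hk k) (Γ.phi (σ k) ((Finset.Iio k).map σ.toEmbedding) + 1)
      (by
        intro f hf
        obtain ⟨v, hv⟩ := Γ.X_pow_phi_dvd hdet _ (σ k) (hk k) f hf
        have h2 : ¬ IsUnit v := fun h => hcon f hf v h hv
        have h3 : (X : L⟦X⟧) ∣ v := by
          rw [PowerSeries.X_dvd_iff]
          by_contra h4
          exact h2 (PowerSeries.isUnit_iff_constantCoeff.2 (isUnit_iff_ne_zero.2 h4))
        rw [hv, pow_succ]
        exact mul_dvd_mul_left _ h3)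
    omega
  choose f hf v hv hev using key
  -- the family spans
  have hspan : ∀ d m : ℕ, m + d = N → ∀ g : Fin N → L⟦X⟧,
      (∀ i : Fin N, ((σ.symm i : Fin N) : ℕ) < m → Γ.ev i 0 g = 0) →
      ∃ c : Fin N → L⟦X⟧, ∑ k, c k • f k = g := by
    intro d
    induction d with
    | zero =>
      intro m hm g hg
      refine ⟨0, ?_⟩
      have h1 : (Matrix.of fun j i : Fin N => Γ.u j 0 i).mulVec g = 0 := by
        funext j
        have h2 := hg j (by have := (σ.symm j).2; omega)
        rw [ev_apply] at h2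
        exact h2
      have h3 := Matrix.eq_zero_of_mulVec_eq_zero hdet h1
      rw [h3]
      simp
    | succ d ih =>
      intro m hm g hg
      have hmN : m < N := by omega
      obtain ⟨k, hkm⟩ : ∃ k : Fin N, (k : ℕ) = m := ⟨⟨m, hmN⟩, rfl⟩
      have hgW : g ∈ Γ.W ((Finset.Iio k).map σ.toEmbedding) := by
        intro i hi
        obtain ⟨i', hi', rfl⟩ := Finset.mem_map.1 hi
        refine hg _ ?_
        have h4 : σ.symm (σ.toEmbedding i') = i' := σ.symm_apply_apply i'
        rw [h4]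
        have := Finset.mem_Iio.1 hi'
        have h5 : (i' : ℕ) < (k : ℕ) := this
        omega
      obtain ⟨e, he⟩ := Γ.X_pow_phi_dvd hdet _ (σ k) (hk k) g hgW
      obtain ⟨w, hw⟩ := hv k
      have h5 : Γ.ev (σ k) 0 (g - (e * ((w⁻¹ : L⟦X⟧ˣ) : L⟦X⟧)) • f k) = 0 := by
        rw [map_sub, map_smul, he, hev k, ← hw, smul_eq_mul]
        have : (w : L⟦X⟧) * ((w⁻¹ : L⟦X⟧ˣ) : L⟦X⟧) = 1 := w.mul_inv
        linear_combination (-(X : L⟦X⟧) ^ Γ.phi (σ k) ((Finset.Iio k).map σ.toEmbedding) * e) * this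
      obtain ⟨c, hc⟩ := ih (m + 1) (by omega) (g - (e * ((w⁻¹ : L⟦X⟧ˣ) : L⟦X⟧)) • f k) (by
        intro i hi
        by_cases hik : σ.symm i = k
        · have h6 : i = σ k := by rw [← hik, Equiv.apply_symm_apply]
          rw [h6]
          exact h5
        · have h7 : ((σ.symm i : Fin N) : ℕ) < m := by
            have : ((σ.symm i : Fin N) : ℕ) ≠ k := fun h => hik (Fin.ext h)
            omega
          rw [map_sub, map_smul, hg i h7]
          have h8 := hf k i (Finset.mem_map.2 ⟨σ.symm i, Finset.mem_Iio.2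
            (by rw [Fin.lt_def]; omega), σ.apply_symm_apply i⟩)
          rw [h8, smul_zero, sub_zero])
      refine ⟨c + Pi.single k (e * ((w⁻¹ : L⟦X⟧ˣ) : L⟦X⟧)), ?_⟩
      have h9 : ∑ k', (c + Pi.single k (e * ((w⁻¹ : L⟦X⟧ˣ) : L⟦X⟧)) : Fin N → L⟦X⟧) k' • f k' =
          ∑ k', c k' • f k' + (e * ((w⁻¹ : L⟦X⟧ˣ) : L⟦X⟧)) • f k := by
        simp only [Pi.add_apply, add_smul, Finset.sum_add_distrib]
        congr 1
        rw [Finset.sum_eq_single k]
        · rw [Pi.single_eq_same]
        · intro k' _ hk'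
          rw [Pi.single_eq_of_ne hk', zero_smul]
        · intro h
          exact absurd (Finset.mem_univ k) h
      rw [h9, hc]
      abel
  have hunit : IsUnit (Matrix.of fun i k => f k i : Matrix (Fin N) (Fin N) L⟦X⟧).det := by
    have h1 : ∀ i : Fin N, ∃ c : Fin N → L⟦X⟧, ∑ k, c k • f k = Pi.single i 1 := fun i =>
      hspan N 0 (by omega) _ fun j hj => absurd hj (by omega)
    choose c hc using h1
    have h2 : (Matrix.of fun i k => f k i : Matrix (Fin N) (Fin N) L⟦X⟧) *
        (Matrix.of fun k i => c i k) = 1 := by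
      ext a i
      rw [Matrix.mul_apply]
      have h3 := congrFun (hc i) a
      rw [Finset.sum_apply] at h3
      simp only [Pi.smul_apply, smul_eq_mul] at h3
      simp only [Matrix.of_apply]
      rw [Matrix.one_apply, Finset.sum_congr rfl fun k _ => mul_comm (f k a) (c i k), h3,
        Pi.single_apply]
    have h4 := congrArg Matrix.det h2
    rw [Matrix.det_mul, Matrix.det_one] at h4
    exact IsUnit.of_mul_eq_one _ h4
  have htri := Γ.PhiDet_tri σ f hf
  have hprod : ∏ k, Γ.ev (σ k) 0 (f k) =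
      X ^ (∑ k, Γ.phi (σ k) ((Finset.Iio k).map σ.toEmbedding)) * ∏ k, v k := by
    rw [← Finset.prod_pow_eq_pow_sum, ← Finset.prod_mul_distrib]
    exact Finset.prod_congr rfl fun k _ => hev k
  have hvu : IsUnit (∏ k, v k) := by
    refine Finset.prod_induction v IsUnit (fun a b ha hb => ha.mul hb) isUnit_one fun k _ => hv k
  have hord0 : ∀ a : L⟦X⟧, IsUnit a → a.order = 0 := fun a ha => PowerSeries.order_zero_of_unit ha
  have hsign : (((((Equiv.Perm.sign σ : ℤˣ) : ℤ) : L⟦X⟧)) * Γ.det).order = Γ.det.order := by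
    rcases Int.units_eq_one_or (Equiv.Perm.sign σ) with h | h
    · rw [h]; simp
    · rw [h]; simp
  rw [hprod] at htri
  have h5 := congrArg PowerSeries.order htri
  have h6 := PowerSeries.order_mul ((((Equiv.Perm.sign σ : ℤˣ) : ℤ) : L⟦X⟧) * Γ.det)
    (Matrix.of fun i k => f k i).det
  rw [hsign, hord0 _ hunit, add_zero] at h6
  have h7 := PowerSeries.order_mul
    ((X : L⟦X⟧) ^ (∑ k, Γ.phi (σ k) ((Finset.Iio k).map σ.toEmbedding))) (∏ k, v k)
  rw [hord0 _ hvu, PowerSeries.order_X_pow, add_zero] at h7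
  exact h7.symm.trans (h5.symm.trans h6)

/-- `φ(j|S) ≤ D a(j|S)`. -/
theorem phi_le (hdet : Γ.det ≠ 0) {D : ℕ} (hD : Γ.HT D) (S : Finset (Fin N)) (j : Fin N)
    (hj : j ∉ S) : Γ.phi j S ≤ D * Γ.cost j S := by
  have hcard : S.card < N := by
    have := Finset.card_lt_univ_of_notMem hj
    rwa [Fintype.card_fin] at this
  exact Γ.le_of_primitive hD S j hj _ (Γ.stable_W S) _ (Γ.X_pow_phi_dvd hdet S j hj)
    (Γ.exists_primitive S hcard)

end Pool.Agent.Lib_GD.ArcSystem
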