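import Pool.Agent.Lib_GD.DvrCoords
import Pool.Agent.Lib_GD.DvrDer
import Pool.Agent.Lib_GD.TaylorGen
import Pool.Agent.Lib_GD.TrdegBound
import Pool.Agent.Lib_GD.GenericArc

/-! P01: independent arcs of a divisorial valuation ring. -/

open PowerSeries

namespace Pool.Agent.Lib_GD

private theorem ProdArc_res_t (V : Type) [CommRing V] [IsDomain V] [IsDiscreteValuationRing V]
    (t : V) (ht : Irreducible t) : IsLocalRing.residue V t = 0 := by
  rw [IsLocalRing.residue_eq_zero_iff, ht.maximalIdeal_eq]
  exact Ideal.mem_span_singleton_self t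

/-- P01a: the residue field of `V` is algebraic over the field generated by the residues of the
coordinates `w_l` (these are algebraically independent, by P01b). -/
theorem residue_isAlgebraic (V : Type) [CommRing V] [IsDomain V] [IsDiscreteValuationRing V]
    [Algebra ℂ V] (r : ℕ) (t : V) (w : Fin r → V) (ht : Irreducible t)
    (b : Module.Basis (Option (Fin r)) V (KaehlerDifferential ℂ V))
    (hb : b none = KaehlerDifferential.D ℂ V t)
    (hb' : ∀ l, b (some l) = KaehlerDifferential.D ℂ V (w l))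
    (f : IsLocalRing.ResidueField V) :
    IsAlgebraic (IntermediateField.adjoin ℂ (Set.range fun l => IsLocalRing.residue V (w l))) f := by
  obtain ⟨δt, δ, h1, h2, h3, h4, h5, h6, h7⟩ := exists_dvr_der V r t w b hb hb'
  refine isAlgebraic_of_derivation (L := IsLocalRing.ResidueField V)
    (fun l => IsLocalRing.residue V (w l)) f fun d hd => ?_
  obtain ⟨g, rfl⟩ := IsLocalRing.residue_surjective (R := V) f
  let D : Derivation ℂ V (IsLocalRing.ResidueField V) := d.compAlgebraMap V
  have hD : ∀ x, D x = d (IsLocalRing.residue V x) := fun x => rfl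
  have h8 := congrArg D.liftKaehlerDifferential (h5 g)
  rw [map_add, map_sum, map_smul, Derivation.liftKaehlerDifferential_comp_D,
    Derivation.liftKaehlerDifferential_comp_D] at h8
  rw [← hD, h8, hD t, ProdArc_res_t V t ht, map_zero, smul_zero, zero_add]
  refine Finset.sum_eq_zero fun l _ => ?_
  rw [map_smul, Derivation.liftKaehlerDifferential_comp_D, hD, hd l, smul_zero]

/-- P01b: the residues of the coordinates are algebraically independent. -/
theorem residue_algInd (V : Type) [CommRing V] [IsDomain V] [IsDiscreteValuationRing V]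
    [Algebra ℂ V] (r : ℕ) (t : V) (w : Fin r → V) (ht : Irreducible t)
    (b : Module.Basis (Option (Fin r)) V (KaehlerDifferential ℂ V))
    (hb : b none = KaehlerDifferential.D ℂ V t)
    (hb' : ∀ l, b (some l) = KaehlerDifferential.D ℂ V (w l)) :
    AlgebraicIndependent ℂ (fun l => IsLocalRing.residue V (w l)) := by
  obtain ⟨δt, δ, h1, h2, h3, h4, h5, h6, h7⟩ := exists_dvr_der V r t w b hb hb'
  have hex : ∀ l, ∃ e : Derivation ℂ (IsLocalRing.ResidueField V) (IsLocalRing.ResidueField V),
      ∀ f, e (algebraMap V (IsLocalRing.ResidueField V) f) =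
        algebraMap V (IsLocalRing.ResidueField V) (δ l f) := by
    intro l
    refine genericArc_desc (V := V) (κ := IsLocalRing.ResidueField V)
      IsLocalRing.residue_surjective (δ l) ?_
    intro f hf
    have hf' : f ∈ IsLocalRing.maximalIdeal V := by
      rw [← IsLocalRing.residue_eq_zero_iff]; exact hf
    rw [ht.maximalIdeal_eq, Ideal.mem_span_singleton] at hf'
    obtain ⟨g, rfl⟩ := hf'
    rw [Derivation.leibniz, h3, smul_zero, add_zero, smul_eq_mul, map_mul]
    have : algebraMap V (IsLocalRing.ResidueField V) t = 0 := ProdArc_res_t V t ht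
    rw [this, zero_mul]
  choose e he using hex
  refine genericArc_algInd e ?_ _ ?_
  · intro l k x
    obtain ⟨f, rfl⟩ := IsLocalRing.residue_surjective (R := V) x
    change e l (e k (algebraMap V (IsLocalRing.ResidueField V) f)) =
      e k (e l (algebraMap V (IsLocalRing.ResidueField V) f))
    rw [he, he, he, he, h7]
  · intro l k
    change e l (algebraMap V (IsLocalRing.ResidueField V) (w k)) = _
    rw [he, h4]
    split_ifs <;> simp

/-- One arc at a point of the residue field. -/
private theorem ProdArc_one (V : Type) [CommRing V] [IsDomain V] [IsDiscreteValuationRing V]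
    [Algebra ℂ V] (t : V) (ht : Irreducible t) (δt : Derivation ℂ V V) (h1 : δt t = 1)
    {L : Type} [Field L] [Algebra ℂ L] (x : V →ₐ[ℂ] L) (hxt : x t = 0) (c : L) (hc0 : c ≠ 0) :
    ∃ Φ : V →ₐ[ℂ] L⟦X⟧, (∀ f, (Φ f).order = IsDiscreteValuationRing.addVal V f) ∧
      coeff 1 (Φ t) = c ∧ ∀ f, constantCoeff (Φ f) = x f := by
  classical
  let der : Fin 1 → Derivation ℂ V V := fun _ => δt
  have hc : ∀ l k b, der l (der k b) = der k (der l b) := fun _ _ _ => rfl
  have hy : ∀ l k, der l ((fun _ : Fin 1 => t) k) = if l = k then 1 else 0 := by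
    intro l k
    rw [if_pos (Subsingleton.elim l k)]
    exact h1
  let a : Fin 1 → L⟦X⟧ := fun _ => C c * X
  have ha0 : ∀ k, MvPowerSeries.constantCoeff (a k) = 0 := by
    intro k
    change PowerSeries.constantCoeff (C c * X : L⟦X⟧) = 0
    rw [map_mul, constantCoeff_X, mul_zero]
  have ha : MvPowerSeries.HasSubst a := MvPowerSeries.hasSubst_of_constantCoeff_zero ha0
  let sb : MvPowerSeries (Fin 1) L →ₐ[L] L⟦X⟧ := MvPowerSeries.substAlgHom ha
  let Φ : V →ₐ[ℂ] L⟦X⟧ := (sb.restrictScalars ℂ).comp (taylorG der hc x)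
  have hsbC : ∀ c : L, sb (MvPowerSeries.C c) = C c := by
    intro c
    exact sb.commutes c
  have hΦt : Φ t = C c * X := by
    change sb (taylorG der hc x ((fun _ : Fin 1 => t) 0)) = _
    rw [genericArc_taylor_coord der hc (fun _ : Fin 1 => t) hy x 0, map_add, hsbC, hxt, map_zero,
      zero_add]
    exact MvPowerSeries.substAlgHom_X ha 0
  have hΦ0 : ∀ f, constantCoeff (Φ f) = x f := by
    intro f
    have e1 : MvPowerSeries.constantCoeff (taylorG der hc x f) = x f := by
      rw [← MvPowerSeries.coeff_zero_eq_constantCoeff_apply, coeff_taylorG, tayG, ddG_zero]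
      simp
    have e2 : Φ f = sb (taylorG der hc x f - MvPowerSeries.C (x f)) + C (x f) := by
      rw [map_sub, hsbC, sub_add_cancel]
      rfl
    rw [e2, map_add, constantCoeff_C]
    have e3 : MvPowerSeries.constantCoeff (taylorG der hc x f - MvPowerSeries.C (x f)) = 0 := by
      rw [map_sub, e1, MvPowerSeries.constantCoeff_C, sub_self]
    have e4 := MvPowerSeries.constantCoeff_subst_eq_zero ha ha0 e3
    have e5 : constantCoeff (sb (taylorG der hc x f - MvPowerSeries.C (x f))) = 0 := by
      change MvPowerSeries.constantCoeff (sb _) = 0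
      rw [← e4]
      congr 1
      exact congrFun (MvPowerSeries.coe_substAlgHom ha) _
    rw [e5, zero_add]
  refine ⟨Φ, ?_, ?_, hΦ0⟩
  · have hot : (Φ t).order = 1 := by
      rw [hΦt]
      have : ((1 : ℕ) : ℕ∞) = 1 := rfl
      rw [← this, PowerSeries.order_eq_nat]
      constructor
      · rw [coeff_C_mul, coeff_one_X, mul_one]
        exact hc0
      · intro i hi
        have : i = 0 := by omega
        subst this
        simp
    intro f
    by_cases hf : f = 0
    · subst hf; simp
    · obtain ⟨k, u, rfl⟩ := IsDiscreteValuationRing.eq_unit_mul_pow_irreducible hf ht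
      have hu : (Φ u).order = 0 := by
        have h := hΦ0 (u : V)
        have hxu : x (u : V) ≠ 0 := (u.isUnit.map x).ne_zero
        have : ((0 : ℕ) : ℕ∞) = 0 := rfl
        rw [← this, PowerSeries.order_eq_nat]
        refine ⟨?_, fun i hi => absurd hi (Nat.not_lt_zero i)⟩
        rw [coeff_zero_eq_constantCoeff_apply, h]
        exact hxu
      rw [map_mul, map_pow, PowerSeries.order_mul, PowerSeries.order_pow, hot, hu]
      rw [IsDiscreteValuationRing.addVal_def _ u ht k rfl]
      simp
  · rw [hΦt, coeff_C_mul, coeff_one_X, mul_one]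

/-- Embeddings of a field with prescribed values on a transcendence basis. -/
private theorem ProdArc_embed {κ L : Type} [Field κ] [Field L] [Algebra ℂ κ] [Algebra ℂ L]
    [IsAlgClosed L] {r : ℕ} (x : Fin r → κ) (hx : AlgebraicIndependent ℂ x)
    (halg : ∀ f : κ, IsAlgebraic (IntermediateField.adjoin ℂ (Set.range x)) f)
    (z : Fin r → L) (hz : AlgebraicIndependent ℂ z) : ∃ φ : κ →ₐ[ℂ] L, ∀ l, φ (x l) = z l := by
  have : Algebra.IsAlgebraic (IntermediateField.adjoin ℂ (Set.range x)) κ := ⟨halg⟩
  let g : FractionRing (MvPolynomial (Fin r) ℂ) →ₐ[ℂ] L :=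
    IsFractionRing.liftAlgHom (K := FractionRing (MvPolynomial (Fin r) ℂ))
      (algebraicIndependent_iff_injective_aeval.2 hz)
  let f : IntermediateField.adjoin ℂ (Set.range x) →ₐ[ℂ] L := g.comp hx.aevalEquivField.symm.toAlgHom
  obtain ⟨φ, hφ⟩ := IsAlgClosed.surjective_domRestrict_of_isAlgebraic (K := ℂ)
    (L := IntermediateField.adjoin ℂ (Set.range x)) (M := L) (E := κ) f
  refine ⟨φ, fun l => ?_⟩
  have h1 : hx.aevalEquivField.symm ⟨x l, IntermediateField.subset_adjoin ℂ _ ⟨l, rfl⟩⟩ =
      algebraMap (MvPolynomial (Fin r) ℂ) (FractionRing (MvPolynomial (Fin r) ℂ))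
        (MvPolynomial.X l) := by
    rw [AlgEquiv.symm_apply_eq]
    apply Subtype.ext
    rw [hx.aevalEquivField_algebraMap_apply_coe, MvPolynomial.aeval_X]
  have h2 : φ (x l) = f ⟨x l, IntermediateField.subset_adjoin ℂ _ ⟨l, rfl⟩⟩ := by
    rw [← hφ]
    rfl
  rw [h2]
  change g (hx.aevalEquivField.symm _) = z l
  rw [h1]
  simp [g]

/-- P01: `N` arcs `Φ_j : V → L⟦X⟧` with `ord Φ_j = v`, `Φ_{j₀} t = X + …`, such that the leading
coefficients of `Φ_j t` (`j ≠ j₀`) and the constant coefficients of the `Φ_j w_l` are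
algebraically independent. Construction: `L` an algebraic closure of `ℂ(a_j, z_{j,l})`, embeddings
`ι_j : κ → L` of the residue field with `w_l ↦ z_{j,l}`, and
`Φ_j f = ∑ ι_j (residue of δt ^ k f) / k! (a_j X)^k`, `a_{j₀} = 1`. -/
theorem exists_product_arcs (V : Type) [CommRing V] [IsDomain V] [IsDiscreteValuationRing V]
    [Algebra ℂ V] (r : ℕ) (t : V) (w : Fin r → V) (ht : Irreducible t)
    (b : Module.Basis (Option (Fin r)) V (KaehlerDifferential ℂ V))
    (hb : b none = KaehlerDifferential.D ℂ V t)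
    (hb' : ∀ l, b (some l) = KaehlerDifferential.D ℂ V (w l)) (N : ℕ) (j₀ : Fin N) :
    ∃ (L : Type) (_ : Field L) (_ : Algebra ℂ L) (Φ : Fin N → (V →ₐ[ℂ] L⟦X⟧)),
      (∀ j f, (Φ j f).order = IsDiscreteValuationRing.addVal V f) ∧
      coeff 1 (Φ j₀ t) = 1 ∧
      AlgebraicIndependent ℂ (Sum.elim (fun j : {j : Fin N // j ≠ j₀} => coeff 1 (Φ j t))
        (fun p : Fin N × Fin r => constantCoeff (Φ p.1 (w p.2)))) := by
  classical
  obtain ⟨δt, δ, h1, h2, h3, h4, h5, h6, h7⟩ := exists_dvr_der V r t w b hb hb'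
  let σ : Type := {j : Fin N // j ≠ j₀} ⊕ (Fin N × Fin r)
  let K : Type := FractionRing (MvPolynomial σ ℂ)
  let L : Type := AlgebraicClosure K
  let z : σ → L := fun s => algebraMap K L (algebraMap (MvPolynomial σ ℂ) K (MvPolynomial.X s))
  have hz : AlgebraicIndependent ℂ z := by
    have h8 := (MvPolynomial.algebraicIndependent_X σ ℂ).map'
      (f := (IsScalarTower.toAlgHom ℂ K L).comp (IsScalarTower.toAlgHom ℂ (MvPolynomial σ ℂ) K))
      ((algebraMap K L).injective.comp (IsFractionRing.injective (MvPolynomial σ ℂ) K))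
    exact h8
  have hemb : ∀ j : Fin N, ∃ φ : IsLocalRing.ResidueField V →ₐ[ℂ] L,
      ∀ l, φ (IsLocalRing.residue V (w l)) = z (Sum.inr (j, l)) := by
    intro j
    refine ProdArc_embed (fun l => IsLocalRing.residue V (w l))
      (residue_algInd V r t w ht b hb hb') (residue_isAlgebraic V r t w ht b hb hb')
      (fun l => z (Sum.inr (j, l))) (hz.comp _ fun l l' h => ?_)
    exact (Prod.mk.inj (Sum.inr.inj h)).2
  choose φ hφ using hemb
  let x : Fin N → (V →ₐ[ℂ] L) := fun j =>
    (φ j).comp (IsScalarTower.toAlgHom ℂ V (IsLocalRing.ResidueField V))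
  have hx : ∀ j f, x j f = φ j (IsLocalRing.residue V f) := fun _ _ => rfl
  let c : Fin N → L := fun j => if h : j = j₀ then 1 else z (Sum.inl ⟨j, h⟩)
  have hc : ∀ j, c j ≠ 0 := by
    intro j
    by_cases h : j = j₀
    · simp [c, h]
    · simp only [c, dif_neg h]
      exact hz.ne_zero _
  have harc : ∀ j, ∃ Φ : V →ₐ[ℂ] L⟦X⟧,
      (∀ f, (Φ f).order = IsDiscreteValuationRing.addVal V f) ∧
      coeff 1 (Φ t) = c j ∧ ∀ f, constantCoeff (Φ f) = x j f := fun j =>
    ProdArc_one V t ht δt h1 (x j) (by rw [hx, ProdArc_res_t V t ht, map_zero]) (c j) (hc j)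
  choose Φ hΦ1 hΦ2 hΦ3 using harc
  refine ⟨L, inferInstance, inferInstance, Φ, hΦ1, ?_, ?_⟩
  · rw [hΦ2]
    simp [c]
  · have h8 : Sum.elim (fun j : {j : Fin N // j ≠ j₀} => coeff 1 (Φ j t))
        (fun p : Fin N × Fin r => constantCoeff (Φ p.1 (w p.2))) = z := by
      funext s
      rcases s with j | p
      · rw [Sum.elim_inl, hΦ2]
        simp only [c, dif_neg j.2]
      · rw [Sum.elim_inr, hΦ3, hx, hφ]
    rw [h8]
    exact hz

end Pool.Agent.Lib_GD
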