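import Pool.Agent.Lib_GD.EssRes
import Pool.Agent.Lib_GD.DvrCoords

/-! P03: transcendence degree and finiteness of the product valuation ring. -/

open PowerSeries

namespace Pool.Agent.Lib_GD

/-- lifts of algebraically independent residues and `t` are algebraically independent -/
private theorem ProdCoord_indep (V : Type) [CommRing V] [IsDomain V] [IsDiscreteValuationRing V]
    [Algebra ℂ V] {ι : Type} (t : V) (ht : Irreducible t) (u : ι → V)
    (hu : AlgebraicIndependent ℂ fun i => IsLocalRing.residue V (u i)) :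
    AlgebraicIndependent ℂ fun o : Option ι => o.elim t u := by
  let f : V →ₐ[ℂ] IsLocalRing.ResidueField V := IsScalarTower.toAlgHom ℂ V _
  have hf : ∀ x, f x = IsLocalRing.residue V x := fun x => rfl
  have hu1 : AlgebraicIndependent ℂ (f ∘ u) := hu
  have hu2 : AlgebraicIndependent ℂ u := hu1.of_comp f
  rw [hu2.option_iff_transcendental]
  -- elements of `adjoin` with residue zero vanish
  have hA : ∀ x ∈ Algebra.adjoin ℂ (Set.range u), f x = 0 → x = 0 := by
    intro x hx h0
    rw [Algebra.adjoin_range_eq_range_aeval] at hx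
    obtain ⟨p, rfl⟩ := hx
    have h1 : MvPolynomial.aeval (f ∘ u) p = 0 := by
      rw [← h0]
      change _ = f (MvPolynomial.aeval u p)
      rw [MvPolynomial.comp_aeval_apply]
      rfl
    have h2 : p = 0 := hu1 (by rw [h1, map_zero])
    rw [h2]
    exact map_zero _
  have ht0 : f t = 0 := by
    rw [hf]
    refine (IsLocalRing.residue_eq_zero_iff t).2 ?_
    rw [ht.maximalIdeal_eq]
    exact Ideal.mem_span_singleton_self t
  rw [transcendental_iff]
  intro p
  induction hn : p.natDegree using Nat.strong_induction_on generalizing p with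
  | _ n ih =>
    intro hp
    have hdiv := Polynomial.divX_mul_X_add p
    have h0 : p.coeff 0 = 0 := by
      have h1 : f (Polynomial.aeval t p) = 0 := by rw [hp, map_zero]
      rw [← hdiv, map_add, map_mul, Polynomial.aeval_X, Polynomial.aeval_C, map_add, map_mul, ht0,
        mul_zero, zero_add] at h1
      exact Subtype.ext (hA _ (p.coeff 0).2 h1)
    rw [h0, Polynomial.C_0, add_zero] at hdiv
    by_cases hd : p.natDegree = 0
    · rw [Polynomial.eq_C_of_natDegree_eq_zero hd, h0, Polynomial.C_0]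
    · have h2 : Polynomial.aeval t p.divX = 0 := by
        rw [← hdiv, map_mul, Polynomial.aeval_X] at hp
        exact (mul_eq_zero.1 hp).resolve_right ht.ne_zero
      have h3 : p.divX = 0 := by
        refine ih p.divX.natDegree ?_ p.divX rfl h2
        rw [Polynomial.natDegree_divX_eq_natDegree_tsub_one]
        omega
      rw [← hdiv, h3, zero_mul]

/-- The residue field embeds in `L` by the constant coefficient. -/
private theorem ProdCoord_rho {V' L : Type} [CommRing V'] [IsDomain V']
    [IsDiscreteValuationRing V'] [Algebra ℂ V'] [Field L] [Algebra ℂ L] (Ψ : V' →ₐ[ℂ] L⟦X⟧)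
    (hΨ : ∀ f, (Ψ f).order = IsDiscreteValuationRing.addVal V' f) :
    ∃ ρ : IsLocalRing.ResidueField V' →ₐ[ℂ] L, ∀ f, ρ (IsLocalRing.residue V' f) =
      constantCoeff (Ψ f) := by
  let g : V' →+* L := (constantCoeff (R := L)).comp Ψ.toRingHom
  have hg : ∀ f, g f = constantCoeff (Ψ f) := fun f => rfl
  have hloc : IsLocalHom g := by
    constructor
    intro a ha
    have h0 : constantCoeff (Ψ a) ≠ 0 := ha.ne_zero
    have h1 : (Ψ a).order = 0 := by
      rw [← nonpos_iff_eq_zero]
      have := PowerSeries.order_le 0 (φ := Ψ a) (by rwa [coeff_zero_eq_constantCoeff_apply])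
      exact_mod_cast this
    rw [hΨ] at h1
    exact IsDiscreteValuationRing.addVal_eq_zero_iff.1 h1
  refine ⟨{ IsLocalRing.ResidueField.lift g with commutes' := ?_ }, fun f => rfl⟩
  intro c
  have h1 : algebraMap ℂ (IsLocalRing.ResidueField V') c =
      IsLocalRing.residue V' (algebraMap ℂ V' c) := rfl
  change IsLocalRing.ResidueField.lift g (algebraMap ℂ (IsLocalRing.ResidueField V') c) = _
  rw [h1, IsLocalRing.ResidueField.lift_residue_apply, hg, AlgHom.commutes]
  rw [PowerSeries.algebraMap_apply, constantCoeff_C]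

/-- the fraction field of `V'` is generated by the images of a finite set -/
private theorem ProdCoord_ess {V V' : Type} [CommRing V] [IsDomain V] [Algebra ℂ V]
    [CommRing V'] [IsDomain V'] [Algebra ℂ V'] {N : ℕ} (ψ : Fin N → (V →ₐ[ℂ] V'))
    [Algebra.EssFiniteType ℂ V]
    (hfr : ∀ f : V', ∃ b ∈ Algebra.adjoin ℂ (⋃ j, Set.range (ψ j)),
        ∃ b' ∈ Algebra.adjoin ℂ (⋃ j, Set.range (ψ j)), b' ≠ 0 ∧ f * b' = b) :
    Algebra.EssFiniteType ℂ (FractionRing V') := by
  classical
  obtain ⟨σ, hσ⟩ := (Algebra.essFiniteType_iff ℂ V).1 inferInstance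
  let K := FractionRing V'
  let θ : V' →ₐ[ℂ] K := IsScalarTower.toAlgHom ℂ V' K
  have hθ : ∀ f, θ f = algebraMap V' K f := fun f => rfl
  let σ' : Finset K := Finset.univ.biUnion fun j => σ.image fun v => θ (ψ j v)
  rw [← IntermediateField.fg_top_iff]
  refine ⟨σ', ?_⟩
  set F := IntermediateField.adjoin ℂ (σ' : Set K) with hF
  have h1 : ∀ j, ∀ v ∈ Algebra.adjoin ℂ (σ : Set V), θ (ψ j v) ∈ F := by
    intro j v hv
    have : Algebra.adjoin ℂ (σ : Set V) ≤ F.toSubalgebra.comap (θ.comp (ψ j)) := by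
      rw [Algebra.adjoin_le_iff]
      intro v hv
      refine IntermediateField.subset_adjoin ℂ _ ?_
      simp only [σ', Finset.coe_biUnion, Set.mem_iUnion, Finset.coe_image, Set.mem_image]
      exact ⟨j, Finset.mem_coe.2 (Finset.mem_univ j), v, hv, rfl⟩
    exact this hv
  have h2 : ∀ j v, θ (ψ j v) ∈ F := by
    intro j v
    obtain ⟨s, hs, hsu, hvs⟩ := hσ v
    have h3 := h1 j s hs
    have h4 := h1 j _ hvs
    rw [map_mul, map_mul] at h4
    have h5 : θ (ψ j s) ≠ 0 := ((hsu.map (ψ j)).map θ).ne_zero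
    have h6 := div_mem h4 h3
    rwa [mul_div_cancel_right₀ _ h5] at h6
  have h3 : ∀ b ∈ Algebra.adjoin ℂ (⋃ j, Set.range (ψ j)), θ b ∈ F := by
    intro b hb
    have : Algebra.adjoin ℂ (⋃ j, Set.range (ψ j)) ≤ F.toSubalgebra.comap θ := by
      rw [Algebra.adjoin_le_iff]
      intro x hx
      obtain ⟨j, v, rfl⟩ := Set.mem_iUnion.1 hx
      exact h2 j v
    exact this hb
  have h4 : ∀ f, θ f ∈ F := by
    intro f
    obtain ⟨b, hb, b', hb', hb0, hfb⟩ := hfr f
    have h5 : θ b' ≠ 0 := by
      rw [hθ]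
      intro h
      exact hb0 ((IsFractionRing.injective V' K) (by rw [h, map_zero]))
    have h6 := div_mem (h3 b hb) (h3 b' hb')
    rw [← hfb, map_mul, mul_div_cancel_right₀ _ h5] at h6
    exact h6
  rw [eq_top_iff]
  rintro z -
  obtain ⟨a, b, -, rfl⟩ := IsFractionRing.div_surjective (A := V') z
  exact div_mem (h4 a) (h4 b)

variable {V V' L : Type} [CommRing V] [IsDomain V] [IsDiscreteValuationRing V]
  [Algebra ℂ V] [CommRing V'] [IsDomain V'] [IsDiscreteValuationRing V'] [Algebra ℂ V']
  [Field L] [Algebra ℂ L] {N r : ℕ} (j₀ : Fin N)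
  (ψ : Fin N → (V →ₐ[ℂ] V')) (Ψ : V' →ₐ[ℂ] L⟦X⟧)

/-- P03a: the functions `u_j = ψ_j t / ψ_{j₀} t`, and the independence of the residues of the
`u_j`, `j ≠ j₀`, and the `ψ_j w_l` in the residue field of `V'` (which embeds in `L` by the
constant coefficient). -/
theorem product_residues (t : V) (w : Fin r → V) (ht : Irreducible t)
    (hψ : ∀ j f, (Ψ (ψ j f)).order = IsDiscreteValuationRing.addVal V f)
    (hΨ : ∀ f, (Ψ f).order = IsDiscreteValuationRing.addVal V' f)
    (h1 : coeff 1 (Ψ (ψ j₀ t)) = 1)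
    (hind : AlgebraicIndependent ℂ (Sum.elim
      (fun j : {j : Fin N // j ≠ j₀} => coeff 1 (Ψ (ψ j t)))
      (fun p : Fin N × Fin r => constantCoeff (Ψ (ψ p.1 (w p.2)))))) :
    Irreducible (ψ j₀ t) ∧ ∃ u : Fin N → V', u j₀ = 1 ∧ (∀ j, ψ j t = u j * ψ j₀ t) ∧
      AlgebraicIndependent ℂ (Sum.elim
        (fun j : {j : Fin N // j ≠ j₀} => IsLocalRing.residue V' (u j))
        (fun p : Fin N × Fin r => IsLocalRing.residue V' (ψ p.1 (w p.2)))) := by
  classical
  have hval : ∀ j f, IsDiscreteValuationRing.addVal V' (ψ j f) =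
      IsDiscreteValuationRing.addVal V f := fun j f => by rw [← hΨ, hψ]
  have hval1 : ∀ j, IsDiscreteValuationRing.addVal V' (ψ j t) = 1 := fun j => by
    rw [hval, IsDiscreteValuationRing.addVal_uniformizer ht]
  have hirr : Irreducible (ψ j₀ t) := by
    obtain ⟨ϖ, hϖ⟩ := IsDiscreteValuationRing.exists_irreducible V'
    have h : Associated ϖ (ψ j₀ t) := by
      rw [← IsDiscreteValuationRing.addVal_eq_iff_associated, hval1,
        IsDiscreteValuationRing.addVal_uniformizer hϖ]
    exact h.irreducible hϖ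
  have hdvd : ∀ j, ∃ c, ψ j t = c * ψ j₀ t := by
    intro j
    have h : ψ j₀ t ∣ ψ j t := by
      rw [← IsDiscreteValuationRing.addVal_le_iff_dvd, hval1, hval1]
    obtain ⟨c, hc⟩ := h
    exact ⟨c, by rw [hc, mul_comm]⟩
  choose u hu using hdvd
  have hu0 : u j₀ = 1 := by
    have := hu j₀
    have h2 : (u j₀ - 1) * ψ j₀ t = 0 := by rw [sub_mul, ← this, one_mul, sub_self]
    exact sub_eq_zero.1 ((mul_eq_zero.1 h2).resolve_right hirr.ne_zero)
  refine ⟨hirr, u, hu0, hu, ?_⟩
  obtain ⟨ρ, hρ⟩ := ProdCoord_rho Ψ hΨ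
  refine AlgebraicIndependent.of_comp ρ ?_
  convert hind using 1
  funext x
  rcases x with j | p
  · change ρ (IsLocalRing.residue V' (u j)) = coeff 1 (Ψ (ψ j t))
    rw [hρ, hu j, map_mul, PowerSeries.coeff_mul]
    have h0 : constantCoeff (Ψ (ψ j₀ t)) = 0 := by
      have h2 : (Ψ (ψ j₀ t)).order = 1 := by rw [hΨ, hval1]
      have h3 := PowerSeries.coeff_of_lt_order (φ := Ψ (ψ j₀ t)) 0 (by rw [h2]; norm_num)
      rwa [coeff_zero_eq_constantCoeff_apply] at h3
    rw [Finset.Nat.sum_antidiagonal_eq_sum_range_succ_mk]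
    rw [Finset.sum_range_succ, Finset.sum_range_one]
    simp only [Nat.sub_zero, Nat.sub_self, h1, coeff_zero_eq_constantCoeff_apply, h0, mul_one,
      mul_zero, add_zero]
  · exact hρ _

/-- P03b: `V'` has transcendence degree `(r + 1) N` and is essentially of finite type. -/
theorem product_trdeg [Algebra.EssFiniteType ℂ V] (hr : Algebra.trdeg ℂ V = (r + 1 : ℕ))
    (t : V) (w : Fin r → V) (ht : Irreducible t) (hw : AlgebraicIndependent ℂ
      (fun l => IsLocalRing.residue V (w l)))
    (hi : ∀ j, Function.Injective (ψ j))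
    (u : Fin N → V') (hu : u j₀ = 1) (hu' : ∀ j, ψ j t = u j * ψ j₀ t)
    (hirr : Irreducible (ψ j₀ t))
    (hind : AlgebraicIndependent ℂ (Sum.elim
        (fun j : {j : Fin N // j ≠ j₀} => IsLocalRing.residue V' (u j))
        (fun p : Fin N × Fin r => IsLocalRing.residue V' (ψ p.1 (w p.2)))))
    (hfr : ∀ f : V', ∃ b ∈ Algebra.adjoin ℂ (⋃ j, Set.range (ψ j)),
        ∃ b' ∈ Algebra.adjoin ℂ (⋃ j, Set.range (ψ j)), b' ≠ 0 ∧ f * b' = b) :
    Algebra.trdeg ℂ V' = ((r + 1) * N : ℕ) ∧ Algebra.EssFiniteType ℂ V' := by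
  classical
  have hN : 0 < N := j₀.pos
  -- the coordinates of `V`
  have hbV : IsTranscendenceBasis ℂ (fun o : Option (Fin r) => o.elim t w) := by
    refine (ProdCoord_indep V t ht w hw).isTranscendenceBasis_of_trdeg_le_of_finite ?_
    rw [hr, Cardinal.mk_fintype, Fintype.card_option, Fintype.card_fin]
  have halgV : Algebra.IsAlgebraic
      (Algebra.adjoin ℂ (Set.range (fun o : Option (Fin r) => o.elim t w))) V := hbV.isAlgebraic
  -- the coordinates of `V'`
  let ι : Type := {j : Fin N // j ≠ j₀} ⊕ (Fin N × Fin r)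
  let y : ι → V' := Sum.elim (fun j => u j) (fun p => ψ p.1 (w p.2))
  have hres : AlgebraicIndependent ℂ fun i => IsLocalRing.residue V' (y i) := by
    convert hind using 1
    funext i
    rcases i with j | p <;> rfl
  have hcard : Fintype.card ι = (r + 1) * N - 1 := by
    simp only [ι, Fintype.card_sum, Fintype.card_prod, Fintype.card_fin]
    have : Fintype.card {j : Fin N // j ≠ j₀} = N - 1 := by
      rw [Fintype.card_subtype_compl, Fintype.card_fin, Fintype.card_subtype_eq]
    rw [this, add_mul, one_mul, mul_comm N r]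
    omega
  have hind' := ProdCoord_indep V' (ψ j₀ t) hirr y hres
  set x' : Option ι → V' := fun o => o.elim (ψ j₀ t) y with hx'
  set A := Algebra.adjoin ℂ (Set.range x') with hA
  have hmem : ∀ o, x' o ∈ A := fun o => Algebra.subset_adjoin ⟨o, rfl⟩
  have hmu : ∀ j, u j ∈ A := by
    intro j
    by_cases hj : j = j₀
    · rw [hj, hu]
      exact one_mem _
    · exact hmem (some (Sum.inl ⟨j, hj⟩))
  have hmt : ∀ j, ψ j t ∈ A := fun j => by
    rw [hu']
    exact mul_mem (hmu j) (hmem none)
  have hmw : ∀ j l, ψ j (w l) ∈ A := fun j l => hmem (some (Sum.inr (j, l)))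
  have halg1 : ∀ j v, IsAlgebraic A (ψ j v) := by
    intro j v
    have hle : ∀ z ∈ Algebra.adjoin ℂ (Set.range (fun o : Option (Fin r) => o.elim t w)),
        ψ j z ∈ A := by
      intro z hz
      have : Algebra.adjoin ℂ (Set.range (fun o : Option (Fin r) => o.elim t w)) ≤
          A.comap (ψ j) := by
        rw [Algebra.adjoin_le_iff]
        rintro _ ⟨o, rfl⟩
        rcases o with _ | l
        · exact hmt j
        · exact hmw j l
      exact this hz
    obtain ⟨P, hP0, hP⟩ := halgV.isAlgebraic v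
    let g : (Algebra.adjoin ℂ (Set.range (fun o : Option (Fin r) => o.elim t w))) →+* A :=
      { toFun := fun z => ⟨ψ j z.1, hle z.1 z.2⟩
        map_one' := Subtype.ext (map_one _)
        map_mul' := fun a b => Subtype.ext (map_mul _ _ _)
        map_zero' := Subtype.ext (map_zero _)
        map_add' := fun a b => Subtype.ext (map_add _ _ _) }
    have hg : Function.Injective g := by
      intro a b hab
      exact Subtype.ext (hi j (congrArg Subtype.val hab))
    refine ⟨P.map g, ?_, ?_⟩
    · rwa [Ne, Polynomial.map_eq_zero_iff hg]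
    · have h2 := congrArg (ψ j).toRingHom hP
      rw [map_zero, Polynomial.aeval_def, Polynomial.hom_eval₂] at h2
      rw [Polynomial.aeval_def, Polynomial.eval₂_map]
      exact h2
  have halg2 : ∀ b ∈ Algebra.adjoin ℂ (⋃ j, Set.range (ψ j)), IsAlgebraic A b := by
    intro b hb
    have hle : Algebra.adjoin ℂ (⋃ j, Set.range (ψ j)) ≤
        (Subalgebra.algebraicClosure A V').restrictScalars ℂ := by
      rw [Algebra.adjoin_le_iff]
      intro z hz
      obtain ⟨j, v, rfl⟩ := Set.mem_iUnion.1 hz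
      exact halg1 j v
    exact hle hb
  have halg3 : Algebra.IsAlgebraic A V' := by
    constructor
    intro f
    obtain ⟨b, hb, b', hb', hb0, hfb⟩ := hfr f
    refine IsAlgebraic.of_mul (mem_nonZeroDivisors_of_ne_zero hb0) (halg2 b' hb') ?_
    rw [mul_comm, hfb]
    exact halg2 b hb
  have hbasis : IsTranscendenceBasis ℂ x' := hind'.isTranscendenceBasis_iff_isAlgebraic.2 halg3
  have htr : Algebra.trdeg ℂ V' = ((r + 1) * N : ℕ) := by
    rw [← hbasis.cardinalMk_eq_trdeg, Cardinal.mk_fintype, Fintype.card_option, hcard]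
    congr 1
    have : 0 < (r + 1) * N := by positivity
    omega
  refine ⟨htr, ?_⟩
  have hpos : 1 ≤ (r + 1) * N := by
    have : 0 < (r + 1) * N := by positivity
    omega
  let e : Fin ((r + 1) * N - 1) ≃ ι := (Fintype.equivFinOfCardEq hcard).symm
  exact essFiniteType_of_residue V' ((r + 1) * N) hpos htr (ProdCoord_ess ψ hfr) (y ∘ e)
    (hres.comp e e.injective)

end Pool.Agent.Lib_GD
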