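import Pool.Agent.Lib_GD.Defs

/-! P06: the functions of the product generate the fraction field of the product valuation
ring. -/

namespace Pool.Agent.Lib_GD

variable {R : Type} [CommRing R] [Algebra ℂ R] {𝒜 : ℕ → Submodule ℂ R} {n : ℕ}

/-- P06: transport of `generates`. -/
theorem product_generates (E : DivisorOver 𝒜 n 1) {V' : Type} [CommRing V'] [IsDomain V']
    [Algebra ℂ V'] {N : ℕ} (ψ : Fin N → (E.V →ₐ[ℂ] V')) (hi : ∀ j, Function.Injective (ψ j))
    (hfr : ∀ f : V', ∃ b ∈ Algebra.adjoin ℂ (⋃ j, Set.range (ψ j)),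
        ∃ b' ∈ Algebra.adjoin ℂ (⋃ j, Set.range (ψ j)), b' ≠ 0 ∧ f * b' = b) :
    IntermediateField.adjoin ℂ {z : FractionRing V' | ∃ j m, ∃ s ∈ 𝒜 m, ∃ s' ∈ 𝒜 m,
      (ψ j).comp (E.φ 0) s' ≠ 0 ∧
        z = algebraMap V' (FractionRing V') ((ψ j).comp (E.φ 0) s) /
          algebraMap V' (FractionRing V') ((ψ j).comp (E.φ 0) s')} = ⊤ := by
  set S : Set (FractionRing V') := {z : FractionRing V' | ∃ j m, ∃ s ∈ 𝒜 m, ∃ s' ∈ 𝒜 m,
      (ψ j).comp (E.φ 0) s' ≠ 0 ∧
        z = algebraMap V' (FractionRing V') ((ψ j).comp (E.φ 0) s) /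
          algebraMap V' (FractionRing V') ((ψ j).comp (E.φ 0) s')} with hS
  -- the image of each factor
  have key : ∀ j (v : E.V), algebraMap V' (FractionRing V') (ψ j v) ∈
      IntermediateField.adjoin ℂ S := by
    intro j v
    let g : E.V →ₐ[ℂ] FractionRing V' := (IsScalarTower.toAlgHom ℂ V' (FractionRing V')).comp (ψ j)
    have hg : Function.Injective g := (IsFractionRing.injective V' (FractionRing V')).comp (hi j)
    let F : FractionRing E.V →ₐ[ℂ] FractionRing V' := IsFractionRing.liftAlgHom hg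
    have hF : ∀ v : E.V, F (algebraMap E.V (FractionRing E.V) v) =
        algebraMap V' (FractionRing V') (ψ j v) := fun v =>
      IsFractionRing.lift_algebraMap (K := FractionRing E.V) (g := g.toRingHom) hg v
    have hle : (⊤ : IntermediateField ℂ (FractionRing E.V)).map F ≤
        IntermediateField.adjoin ℂ S := by
      rw [← E.generates, IntermediateField.adjoin_map]
      refine IntermediateField.adjoin.mono _ _ _ ?_
      rintro _ ⟨z, ⟨i, m, s, hs, s', hs', hne, rfl⟩, rfl⟩
      obtain rfl : i = 0 := Subsingleton.elim _ _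
      refine ⟨j, m, s, hs, s', hs', ?_, ?_⟩
      · rw [AlgHom.comp_apply]
        exact (map_ne_zero_iff _ (hi j)).2 hne
      · rw [map_div₀, hF, hF]
        rfl
    rw [← hF]
    exact hle ⟨_, IntermediateField.mem_top, rfl⟩
  -- the algebra generated by the factors
  have key2 : ∀ b ∈ Algebra.adjoin ℂ (⋃ j, Set.range (ψ j)),
      algebraMap V' (FractionRing V') b ∈ IntermediateField.adjoin ℂ S := by
    intro b hb
    have : Algebra.adjoin ℂ (⋃ j, Set.range (ψ j)) ≤
        (IntermediateField.adjoin ℂ S).toSubalgebra.comap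
          (IsScalarTower.toAlgHom ℂ V' (FractionRing V')) := by
      refine Algebra.adjoin_le ?_
      rintro x hx
      obtain ⟨j, v, rfl⟩ := Set.mem_iUnion.1 hx
      exact key j v
    exact this hb
  have key3 : ∀ f : V', algebraMap V' (FractionRing V') f ∈ IntermediateField.adjoin ℂ S := by
    intro f
    obtain ⟨b, hb, b', hb', hne, h⟩ := hfr f
    have h1 : algebraMap V' (FractionRing V') f =
        algebraMap V' (FractionRing V') b / algebraMap V' (FractionRing V') b' := by
      rw [eq_div_iff ((map_ne_zero_iff _ (IsFractionRing.injective V' (FractionRing V'))).2 hne),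
        ← map_mul, h]
    rw [h1]
    exact div_mem (key2 b hb) (key2 b' hb')
  rw [eq_top_iff]
  intro z _
  obtain ⟨a, c, hc, rfl⟩ := IsFractionRing.div_surjective (A := V') z
  exact div_mem (key3 a) (key3 c)

end Pool.Agent.Lib_GD
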