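import Pool.Agent.Lib_GD.DvrCoords
import Pool.Agent.Lib_GD.TrdegBound
import Pool.Agent.Lib_GD.ProdArc

/-! P04: generators of the differentials of a divisorial valuation ring. -/

namespace Pool.Agent.Lib_GD

/-- differentials of a field extension of `ℂ`: the differentials of a transcendence basis -/
private noncomputable def ProdKaehler_basis (K : Type) [Field K] [Algebra ℂ K] {ι : Type} (u : ι → K)
    (hu : IsTranscendenceBasis ℂ u) :
    { b : Module.Basis ι K (KaehlerDifferential ℂ K) // ∀ i, b i = KaehlerDifferential.D ℂ K (u i) } := by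
  classical
  letI : Algebra (MvPolynomial ι ℂ) K := (MvPolynomial.aeval u).toRingHom.toAlgebra
  have hmap : ∀ p : MvPolynomial ι ℂ, algebraMap (MvPolynomial ι ℂ) K p = MvPolynomial.aeval u p :=
    fun p => rfl
  haveI : IsScalarTower ℂ (MvPolynomial ι ℂ) K := by
    refine IsScalarTower.of_algebraMap_eq fun x => ?_
    rw [hmap, MvPolynomial.algebraMap_eq, MvPolynomial.aeval_C]
  have hinj : Function.Injective (algebraMap (MvPolynomial ι ℂ) K) := hu.1
  haveI : FaithfulSMul (MvPolynomial ι ℂ) K := (faithfulSMul_iff_algebraMap_injective _ _).2 hinj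
  haveI halg : Algebra.IsAlgebraic (MvPolynomial ι ℂ) K := by
    have := hu.isAlgebraic
    refine Algebra.IsAlgebraic.of_ringHom_of_comp_eq (S := Algebra.adjoin ℂ (Set.range u)) (B := K)
      (f := hu.1.aevalEquiv.toRingEquiv.toRingHom) (g := RingHom.id K)
      hu.1.aevalEquiv.surjective Function.injective_id ?_
    ext x
    · simp [hmap]
    · simp [hmap]
  letI : Algebra (FractionRing (MvPolynomial ι ℂ)) K := FractionRing.liftAlgebra _ K
  haveI : IsScalarTower (MvPolynomial ι ℂ) (FractionRing (MvPolynomial ι ℂ)) K :=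
    FractionRing.isScalarTower_liftAlgebra _ K
  haveI : Algebra.IsAlgebraic (FractionRing (MvPolynomial ι ℂ)) K :=
    (IsFractionRing.comap_isAlgebraic_iff (A := MvPolynomial ι ℂ)).1 halg
  haveI : CharZero (FractionRing (MvPolynomial ι ℂ)) := inferInstance
  haveI : Algebra.FormallyEtale (FractionRing (MvPolynomial ι ℂ)) K :=
    Algebra.FormallyEtale.of_isSeparable _ _
  haveI : Algebra.FormallyEtale (MvPolynomial ι ℂ) (FractionRing (MvPolynomial ι ℂ)) :=
    Algebra.FormallyEtale.of_isLocalization (nonZeroDivisors (MvPolynomial ι ℂ))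
  haveI : Algebra.FormallyEtale (MvPolynomial ι ℂ) K :=
    Algebra.FormallyEtale.comp _ (FractionRing (MvPolynomial ι ℂ)) _
  refine ⟨((KaehlerDifferential.mvPolynomialBasis ℂ ι).baseChange K).map
    (KaehlerDifferential.tensorKaehlerEquivOfFormallyEtale ℂ (MvPolynomial ι ℂ) K), fun i => ?_⟩
  rw [Module.Basis.map_apply, Module.Basis.baseChange_apply,
    KaehlerDifferential.mvPolynomialBasis_apply,
    KaehlerDifferential.tensorKaehlerEquivOfFormallyEtale_apply,
    KaehlerDifferential.mapBaseChange_tmul, KaehlerDifferential.map_D, one_smul, hmap,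
    MvPolynomial.aeval_X]

/-- the residues: if the differentials of the `ū i` span `Ω_κ`, then `dt` and the `du i` span `Ω_V` -/
private theorem ProdKaehler_span (V : Type) [CommRing V] [IsDomain V] [IsDiscreteValuationRing V]
    [Algebra ℂ V] [Algebra.EssFiniteType ℂ V] {ι : Type} (t : V) (ht : Irreducible t) (u : ι → V)
    (hu : Submodule.span (IsLocalRing.ResidueField V)
      (Set.range fun i => KaehlerDifferential.D ℂ (IsLocalRing.ResidueField V)
        (IsLocalRing.residue V (u i))) = ⊤) :
    Submodule.span V (Set.range fun o : Option ι =>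
      o.elim (KaehlerDifferential.D ℂ V t) (fun i => KaehlerDifferential.D ℂ V (u i))) = ⊤ := by
  have hsurj : Function.Surjective (algebraMap V (IsLocalRing.ResidueField V)) :=
    IsLocalRing.residue_surjective
  rw [← IsLocalRing.map_tensorProduct_mk_eq_top, Submodule.map_span, ← Set.range_comp,
    ← Submodule.restrictScalars_span V (IsLocalRing.ResidueField V) hsurj,
    Submodule.restrictScalars_eq_top_iff, eq_top_iff]
  set S := Submodule.span (IsLocalRing.ResidueField V) (Set.range
    ((TensorProduct.mk V (IsLocalRing.ResidueField V) (KaehlerDifferential ℂ V) 1) ∘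
      fun o : Option ι => o.elim (KaehlerDifferential.D ℂ V t)
        (fun i => KaehlerDifferential.D ℂ V (u i)))) with hS
  have h1 : (1 : IsLocalRing.ResidueField V) ⊗ₜ[V] KaehlerDifferential.D ℂ V t ∈ S :=
    Submodule.subset_span ⟨none, rfl⟩
  have h2 : ∀ i, (1 : IsLocalRing.ResidueField V) ⊗ₜ[V] KaehlerDifferential.D ℂ V (u i) ∈ S :=
    fun i => Submodule.subset_span ⟨some i, rfl⟩
  -- the kernel
  have hker : ∀ x, KaehlerDifferential.mapBaseChange ℂ V (IsLocalRing.ResidueField V) x = 0 →
      x ∈ S := by
    intro x hx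
    obtain ⟨y, rfl⟩ := (KaehlerDifferential.exact_kerCotangentToTensor_mapBaseChange ℂ V
      (IsLocalRing.ResidueField V) hsurj x).1 hx
    obtain ⟨⟨a, ha⟩, rfl⟩ := Ideal.toCotangent_surjective _ y
    rw [KaehlerDifferential.kerCotangentToTensor_toCotangent]
    have ha' : a ∈ IsLocalRing.maximalIdeal V := by
      rw [RingHom.mem_ker] at ha
      exact (IsLocalRing.residue_eq_zero_iff a).1 ha
    rw [ht.maximalIdeal_eq, Ideal.mem_span_singleton] at ha'
    obtain ⟨b, rfl⟩ := ha'
    have ht0 : (algebraMap V (IsLocalRing.ResidueField V)) t = 0 := by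
      have : t ∈ IsLocalRing.maximalIdeal V := by
        rw [ht.maximalIdeal_eq]; exact Ideal.mem_span_singleton_self t
      exact (IsLocalRing.residue_eq_zero_iff t).2 this
    have e : (1 : IsLocalRing.ResidueField V) ⊗ₜ[V] KaehlerDifferential.D ℂ V (t * b) =
        algebraMap V (IsLocalRing.ResidueField V) b •
          ((1 : IsLocalRing.ResidueField V) ⊗ₜ[V] KaehlerDifferential.D ℂ V t) := by
      rw [Derivation.leibniz, TensorProduct.tmul_add, ← TensorProduct.smul_tmul,
        ← TensorProduct.smul_tmul, ← Algebra.algebraMap_eq_smul_one,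
        ← Algebra.algebraMap_eq_smul_one, ht0, TensorProduct.zero_tmul, zero_add,
        TensorProduct.smul_tmul', smul_eq_mul, mul_one]
    rw [e]
    exact S.smul_mem _ h1
  intro x _
  have hx : KaehlerDifferential.mapBaseChange ℂ V (IsLocalRing.ResidueField V) x ∈
      Submodule.map (KaehlerDifferential.mapBaseChange ℂ V (IsLocalRing.ResidueField V)) S := by
    have h3 : Submodule.map (KaehlerDifferential.mapBaseChange ℂ V (IsLocalRing.ResidueField V)) S
        = ⊤ := by
      rw [eq_top_iff, ← hu, Submodule.span_le]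
      rintro _ ⟨i, rfl⟩
      refine ⟨_, h2 i, ?_⟩
      rw [KaehlerDifferential.mapBaseChange_tmul, KaehlerDifferential.map_D, one_smul]
      rfl
    rw [h3]
    exact Submodule.mem_top
  obtain ⟨y, hy, hxy⟩ := hx
  have h4 : x - y ∈ S := hker _ (by rw [map_sub, hxy, sub_self])
  have := S.add_mem h4 hy
  rwa [sub_add_cancel] at this

/-- lifts of algebraically independent residues and `t` are algebraically independent -/
private theorem ProdKaehler_indep (V : Type) [CommRing V] [IsDomain V] [IsDiscreteValuationRing V]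
    [Algebra ℂ V] {ι : Type} (t : V) (ht : Irreducible t) (u : ι → V)
    (hu : AlgebraicIndependent ℂ fun i => IsLocalRing.residue V (u i)) :
    AlgebraicIndependent ℂ fun o : Option ι => o.elim t u := by
  let f : V →ₐ[ℂ] IsLocalRing.ResidueField V := IsScalarTower.toAlgHom ℂ V _
  have hf : ∀ x, f x = IsLocalRing.residue V x := fun x => rfl
  have hu1 : AlgebraicIndependent ℂ (f ∘ u) := hu
  have hu2 : AlgebraicIndependent ℂ u := hu1.of_comp f
  rw [hu2.option_iff_transcendental]
  -- elements of `adjoin` with residue zero vanish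
  have hA : ∀ x ∈ Algebra.adjoin ℂ (Set.range u), f x = 0 → x = 0 := by
    intro x hx h0
    rw [Algebra.adjoin_range_eq_range_aeval] at hx
    obtain ⟨p, rfl⟩ := hx
    have h1 : MvPolynomial.aeval (f ∘ u) p = 0 := by
      rw [← h0]
      change _ = f (MvPolynomial.aeval u p)
      rw [MvPolynomial.comp_aeval_apply]
      rfl
    have h2 : p = 0 := hu1 (by rw [h1, map_zero])
    rw [h2]
    exact map_zero _
  have ht0 : f t = 0 := by
    rw [hf]
    refine (IsLocalRing.residue_eq_zero_iff t).2 ?_
    rw [ht.maximalIdeal_eq]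
    exact Ideal.mem_span_singleton_self t
  rw [transcendental_iff]
  intro p
  induction hn : p.natDegree using Nat.strong_induction_on generalizing p with
  | _ n ih =>
    intro hp
    have hdiv := Polynomial.divX_mul_X_add p
    have h0 : p.coeff 0 = 0 := by
      have h1 : f (Polynomial.aeval t p) = 0 := by rw [hp, map_zero]
      rw [← hdiv, map_add, map_mul, Polynomial.aeval_X, Polynomial.aeval_C, map_add, map_mul, ht0,
        mul_zero, zero_add] at h1
      exact Subtype.ext (hA _ (p.coeff 0).2 h1)
    rw [h0, Polynomial.C_0, add_zero] at hdiv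
    by_cases hd : p.natDegree = 0
    · rw [Polynomial.eq_C_of_natDegree_eq_zero hd, h0, Polynomial.C_0]
    · have h2 : Polynomial.aeval t p.divX = 0 := by
        rw [← hdiv, map_mul, Polynomial.aeval_X] at hp
        exact (mul_eq_zero.1 hp).resolve_right ht.ne_zero
      have h3 : p.divX = 0 := by
        refine ih p.divX.natDegree ?_ p.divX rfl h2
        rw [Polynomial.natDegree_divX_eq_natDegree_tsub_one]
        omega
      rw [← hdiv, h3, zero_mul]

/-- P04: if `t` is a uniformiser and the residues of the `w_i` are `trdeg V - 1` algebraically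
independent elements, then `Ω_V` is generated by `dt` and the `dw_i`. Proof: by A01 `Ω_V` is
finitely generated; by Nakayama it suffices that a derivation of `V` with values in the residue
field `κ` killing `t` and the `w_i` vanishes; it kills the maximal ideal, so it descends to `κ`,
which is algebraic over `ℂ(w_i)` (A01 for `V` gives coordinates `t', w'`; the residue field is
algebraic over the residues of the `w'`, so `trdeg κ ≤ trdeg V - 1`). -/
theorem span_D_eq_top (V : Type) [CommRing V] [IsDomain V] [IsDiscreteValuationRing V]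
    [Algebra ℂ V] [Algebra.EssFiniteType ℂ V] {ι : Type} [Fintype ι]
    (hr : Algebra.trdeg ℂ V = (Fintype.card ι + 1 : ℕ)) (t : V) (ht : Irreducible t) (w : ι → V)
    (hw : AlgebraicIndependent ℂ (fun i => IsLocalRing.residue V (w i))) :
    Submodule.span V (insert (KaehlerDifferential.D ℂ V t)
      (Set.range fun i => KaehlerDifferential.D ℂ V (w i))) = ⊤ := by
  classical
  obtain ⟨ι', ub, hub⟩ := exists_isTranscendenceBasis' ℂ (IsLocalRing.ResidueField V)
  have hlift : ∀ i, ∃ v : V, IsLocalRing.residue V v = ub i :=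
    fun i => IsLocalRing.residue_surjective (ub i)
  choose u hu using hlift
  have hind : AlgebraicIndependent ℂ fun o : Option ι' => o.elim t u := by
    refine ProdKaehler_indep V t ht u ?_
    simp only [hu]
    exact hub.1
  have hcard : Cardinal.mk (Option ι') ≤ (Fintype.card ι + 1 : ℕ) := by
    rw [← hr]
    exact hind.cardinalMk_le_trdeg
  have hle : Algebra.trdeg ℂ (IsLocalRing.ResidueField V) ≤ Cardinal.mk ι := by
    rw [← hub.cardinalMk_eq_trdeg, Cardinal.mk_fintype ι]
    rw [Cardinal.mk_option] at hcard
    push_cast at hcard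
    exact (Cardinal.add_le_add_iff_of_lt_aleph0 Cardinal.one_lt_aleph0).1 hcard
  have hwb : IsTranscendenceBasis ℂ (fun i => IsLocalRing.residue V (w i)) := by
    exact hw.isTranscendenceBasis_of_trdeg_le (hle.trans_lt (Cardinal.mk_lt_aleph0)) hle
  have h1 := ProdKaehler_span V t ht w (by
    obtain ⟨b, hb⟩ := ProdKaehler_basis (IsLocalRing.ResidueField V) _ hwb
    simp only [← hb]
    exact b.span_eq)
  rw [eq_top_iff, ← h1]
  refine Submodule.span_mono ?_
  rintro _ ⟨o, rfl⟩
  rcases o with _ | i
  · exact Set.mem_insert _ _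
  · exact Set.mem_insert_of_mem _ ⟨i, rfl⟩

end Pool.Agent.Lib_GD
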