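import Mathlib

/-! P05: the length of the differentials of the product valuation ring. -/

namespace Pool.Agent.Lib_GD

private theorem ProdLen_add {V : Type} [CommRing V] {Q : Type} [AddCommGroup Q] [Module V Q]
    (N : Submodule V Q) : Module.length V Q = Module.length V N + Module.length V (Q ⧸ N) :=
  Module.length_eq_add_of_exact N.subtype N.mkQ N.injective_subtype N.mkQ_surjective
    (LinearMap.exact_subtype_mkQ N)

/-- a cyclic module killed by a uniformiser has length at most one -/
private theorem ProdLen_cyclic {V : Type} [CommRing V] [IsDomain V] [IsDiscreteValuationRing V]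
    (t : V) (ht : Irreducible t) {Q : Type} [AddCommGroup Q] [Module V Q] (x : Q)
    (hx : Submodule.span V {x} = ⊤) (hk : t • x = 0) : Module.length V Q ≤ 1 := by
  let f : (V ⧸ Ideal.span {t}) →ₗ[V] Q := Submodule.liftQ _ (LinearMap.toSpanSingleton V Q x) (by
    intro a ha
    rw [Ideal.mem_span_singleton] at ha
    obtain ⟨c, rfl⟩ := ha
    rw [LinearMap.mem_ker, LinearMap.toSpanSingleton_apply, mul_comm, mul_smul, hk, smul_zero])
  have hf : Function.Surjective f := by
    intro y
    have hy : y ∈ Submodule.span V {x} := by rw [hx]; exact Submodule.mem_top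
    obtain ⟨a, rfl⟩ := Submodule.mem_span_singleton.1 hy
    exact ⟨Submodule.Quotient.mk a, rfl⟩
  refine (Module.length_le_of_surjective f hf).trans ?_
  have hmax : (Ideal.span {t} : Ideal V).IsMaximal := by
    rw [← ht.maximalIdeal_eq]
    infer_instance
  have : IsSimpleModule V (V ⧸ Ideal.span {t}) := by
    rw [isSimpleModule_iff_isCoatom]
    exact Ideal.isMaximal_def.1 hmax
  rw [Module.length_eq_one]

/-- P05a: length does not increase under base change between discrete valuation rings if a
uniformiser maps to a uniformiser (in the form: `g : Q → Q'` semilinear whose image generates). -/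
theorem length_semilinear_le {V V' : Type} [CommRing V] [IsDomain V] [IsDiscreteValuationRing V]
    [CommRing V'] [IsDomain V'] [IsDiscreteValuationRing V'] (ψ : V →+* V')
    (t : V) (ht : Irreducible t) (ht' : Irreducible (ψ t)) {Q Q' : Type} [AddCommGroup Q]
    [Module V Q] [AddCommGroup Q'] [Module V' Q'] (g : Q →ₛₗ[ψ] Q')
    (hg : Submodule.span V' (Set.range g) = ⊤) :
    Module.length V' Q' ≤ Module.length V Q := by
  by_cases htop : Module.length V Q = ⊤
  · rw [htop]; exact le_top
  rw [← Ne, Module.length_ne_top_iff] at htop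
  induction htop generalizing Q' with
  | of_subsingleton =>
    rename_i Q _ _ _
    have : Subsingleton Q' := by
      rw [← Submodule.subsingleton_iff V', ← subsingleton_iff_bot_eq_top, ← hg, eq_comm,
        Submodule.span_eq_bot]
      rintro _ ⟨q, rfl⟩
      rw [Subsingleton.elim q 0, map_zero]
    rw [Module.length_eq_zero]
    exact bot_le
  | of_simple_quotient hN ih =>
    rename_i Q _ _ N hs _ _
    let N' : Submodule V' Q' := Submodule.span V' (g '' N)
    let gN : N →ₛₗ[ψ] N' :=
      { toFun := fun x => ⟨g x, Submodule.subset_span ⟨x, x.2, rfl⟩⟩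
        map_add' := fun x y => Subtype.ext (by simp)
        map_smul' := fun c x => Subtype.ext (by simp) }
    have hgN : Submodule.span V' (Set.range gN) = ⊤ := by
      rw [eq_top_iff]
      rintro ⟨y, hy⟩ _
      have key : ∀ y (hy : y ∈ Submodule.span V' (g '' N)),
          (⟨y, hy⟩ : N') ∈ Submodule.span V' (Set.range gN) := by
        intro y hy
        induction hy using Submodule.span_induction with
        | mem z hz =>
          obtain ⟨x, hx, rfl⟩ := hz
          exact Submodule.subset_span ⟨⟨x, hx⟩, rfl⟩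
        | zero => exact Submodule.zero_mem _
        | add y z hy hz h1 h2 => exact Submodule.add_mem _ h1 h2
        | smul a z hz h1 => exact Submodule.smul_mem _ a h1
      exact key y hy
    have h1 := ih gN hgN
    rw [ProdLen_add N, ProdLen_add N']
    refine add_le_add h1 ?_
    have h2 : Module.length V (Q ⧸ N) = 1 := Module.length_eq_one V (Q ⧸ N)
    have hnt : Nontrivial (Q ⧸ N) := IsSimpleModule.nontrivial V (Q ⧸ N)
    rw [h2]
    obtain ⟨q, hq⟩ : ∃ q : Q ⧸ N, q ≠ 0 := exists_ne 0
    obtain ⟨x, rfl⟩ := N.mkQ_surjective q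
    have hspan : Submodule.span V {N.mkQ x} = ⊤ :=
      (IsSimpleModule.span_singleton_eq_top V hq)
    have hall : ∀ z : Q, ∃ a : V, z - a • x ∈ N := by
      intro z
      have : N.mkQ z ∈ Submodule.span V {N.mkQ x} := by rw [hspan]; exact Submodule.mem_top
      obtain ⟨a, ha⟩ := Submodule.mem_span_singleton.1 this
      refine ⟨a, ?_⟩
      rw [← Submodule.ker_mkQ N, LinearMap.mem_ker, map_sub, map_smul, ha, sub_self]
    have htx : t • x ∈ N := by
      by_contra hcon
      have h3 : N.mkQ (t • x) ≠ 0 := by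
        intro h0
        apply hcon
        rw [← Submodule.ker_mkQ N, LinearMap.mem_ker, h0]
      have h4 : Submodule.span V {N.mkQ (t • x)} = ⊤ := IsSimpleModule.span_singleton_eq_top V h3
      have h5 : N.mkQ x ∈ Submodule.span V {N.mkQ (t • x)} := by rw [h4]; exact Submodule.mem_top
      obtain ⟨a, ha⟩ := Submodule.mem_span_singleton.1 h5
      rw [map_smul, smul_smul] at ha
      have h6 : (1 - a * t) • N.mkQ x = 0 := by rw [sub_smul, one_smul, ha, sub_self]
      have h7 : IsUnit (1 - a * t) := by
        have : a * t ∈ IsLocalRing.maximalIdeal V := by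
          rw [ht.maximalIdeal_eq, Ideal.mem_span_singleton]
          exact Dvd.intro_left a rfl
        by_contra hnu
        have h8 : (1 - a * t) ∈ IsLocalRing.maximalIdeal V :=
          (IsLocalRing.mem_maximalIdeal _).2 hnu
        have h9 := Ideal.add_mem _ h8 this
        rw [sub_add_cancel] at h9
        exact (Ideal.ne_top_iff_one _).1 (IsLocalRing.maximalIdeal.isMaximal V).ne_top h9
      rw [h7.smul_eq_zero] at h6
      exact hq h6
    refine ProdLen_cyclic (ψ t) ht' (N'.mkQ (g x)) ?_ ?_
    · rw [eq_top_iff]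
      rintro y -
      obtain ⟨y, rfl⟩ := N'.mkQ_surjective y
      have hy : y ∈ Submodule.span V' (Set.range g) := by rw [hg]; exact Submodule.mem_top
      induction hy using Submodule.span_induction with
      | mem z hz =>
        obtain ⟨z, rfl⟩ := hz
        obtain ⟨a, ha⟩ := hall z
        have h3 : N'.mkQ (g z) = ψ a • N'.mkQ (g x) := by
          rw [← sub_eq_zero, ← map_smul, ← map_sub, ← LinearMap.map_smulₛₗ, ← map_sub,
            ← LinearMap.mem_ker, Submodule.ker_mkQ]
          exact Submodule.subset_span ⟨_, ha, rfl⟩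
        rw [h3]
        exact Submodule.smul_mem _ _ (Submodule.mem_span_singleton_self _)
      | zero => rw [map_zero]; exact Submodule.zero_mem _
      | add y z hy hz h1 h2 => rw [map_add]; exact Submodule.add_mem _ h1 h2
      | smul a z hz h1 => rw [map_smul]; exact Submodule.smul_mem _ a h1
    · rw [← map_smul, ← LinearMap.map_smulₛₗ, ← LinearMap.mem_ker, Submodule.ker_mkQ]
      exact Submodule.subset_span ⟨_, htx, rfl⟩

/-- adding a submodule of bounded length -/
private theorem ProdLen_step {V' : Type} [CommRing V'] {Ω : Type} [AddCommGroup Ω] [Module V' Ω]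
    (A S : Submodule V' Ω) (c : ℕ∞) (hc : Module.length V' (S.map A.mkQ) ≤ c) :
    Module.length V' (Ω ⧸ A) ≤ Module.length V' (Ω ⧸ (A ⊔ S)) + c := by
  rw [ProdLen_add (S.map A.mkQ), (Submodule.quotientQuotientEquivQuotientSup A S).length_eq,
    add_comm]
  exact add_le_add le_rfl hc

/-- adding the span of a semilinear image -/
private theorem ProdLen_stepSemi {V V' : Type} [CommRing V] [IsDomain V]
    [IsDiscreteValuationRing V] [CommRing V'] [IsDomain V'] [IsDiscreteValuationRing V']
    (ψ : V →+* V') (t : V) (ht : Irreducible t) (ht' : Irreducible (ψ t)) {Q Ω : Type}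
    [AddCommGroup Q] [Module V Q] [AddCommGroup Ω] [Module V' Ω] (g : Q →ₛₗ[ψ] Ω)
    (P : Submodule V Q) (A : Submodule V' Ω) (hPA : ∀ x ∈ P, g x ∈ A) :
    Module.length V' (Ω ⧸ A) ≤ Module.length V' (Ω ⧸ (A ⊔ Submodule.span V' (Set.range g))) +
      Module.length V (Q ⧸ P) := by
  refine ProdLen_step A _ _ ?_
  set S : Submodule V' Ω := Submodule.span V' (Set.range g) with hS
  let f : Q →ₛₗ[ψ] (S.map A.mkQ) :=
    { toFun := fun x => ⟨A.mkQ (g x), Submodule.mem_map_of_mem (Submodule.subset_span ⟨x, rfl⟩)⟩
      map_add' := fun x y => Subtype.ext (by simp)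
      map_smul' := fun c x => Subtype.ext (by simp) }
  have hf : P ≤ LinearMap.ker f := by
    intro x hx
    rw [LinearMap.mem_ker]
    apply Subtype.ext
    change A.mkQ (g x) = 0
    rw [← LinearMap.mem_ker, Submodule.ker_mkQ]
    exact hPA x hx
  refine length_semilinear_le ψ t ht ht' (P.liftQ f hf) ?_
  rw [eq_top_iff]
  rintro ⟨y, hy⟩ -
  obtain ⟨z, hz, rfl⟩ := hy
  have key : ∀ z (hz : z ∈ S), (⟨A.mkQ z, Submodule.mem_map_of_mem hz⟩ : S.map A.mkQ) ∈
      Submodule.span V' (Set.range (P.liftQ f hf)) := by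
    intro z hz
    induction hz using Submodule.span_induction with
    | mem z hz =>
      obtain ⟨x, rfl⟩ := hz
      exact Submodule.subset_span ⟨Submodule.Quotient.mk x, rfl⟩
    | zero =>
      convert Submodule.zero_mem _
      simp
    | add y z hy hz h1 h2 =>
      convert Submodule.add_mem _ h1 h2 using 1
      exact Subtype.ext (by simp)
    | smul a z hz h1 =>
      convert Submodule.smul_mem _ a h1 using 1
      exact Subtype.ext (by simp)
  exact key z hz

/-- adding a vector whose multiple by the uniformiser is present -/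
private theorem ProdLen_stepCyc {V' : Type} [CommRing V'] [IsDomain V'] [IsDiscreteValuationRing V']
    (t : V') (ht : Irreducible t) {Ω : Type} [AddCommGroup Ω] [Module V' Ω]
    (A : Submodule V' Ω) (x : Ω) (hx : t • x ∈ A) :
    Module.length V' (Ω ⧸ A) ≤ Module.length V' (Ω ⧸ (A ⊔ Submodule.span V' {x})) + 1 := by
  refine ProdLen_step A _ _ ?_
  refine ProdLen_cyclic t ht
    (⟨A.mkQ x, Submodule.mem_map_of_mem (Submodule.mem_span_singleton_self x)⟩ :
      (Submodule.span V' {x}).map A.mkQ) ?_ ?_
  · rw [eq_top_iff]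
    rintro ⟨y, hy⟩ -
    obtain ⟨z, hz, rfl⟩ := hy
    obtain ⟨a, rfl⟩ := Submodule.mem_span_singleton.1 hz
    rw [Submodule.mem_span_singleton]
    exact ⟨a, Subtype.ext (by simp)⟩
  · apply Subtype.ext
    change t • A.mkQ x = 0
    rw [← map_smul, ← LinearMap.mem_ker, Submodule.ker_mkQ]
    exact hx

/-- a chain of steps -/
private theorem ProdLen_chain {V' : Type} [CommRing V'] {Ω : Type} [AddCommGroup Ω] [Module V' Ω]
    {ι : Type} (S : ι → Submodule V' Ω) (A₀ : Submodule V' Ω) (c : ℕ∞)
    (h : ∀ j, ∀ A : Submodule V' Ω, A₀ ≤ A →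
      Module.length V' (Ω ⧸ A) ≤ Module.length V' (Ω ⧸ (A ⊔ S j)) + c) (s : Finset ι) :
    Module.length V' (Ω ⧸ A₀) ≤ Module.length V' (Ω ⧸ (A₀ ⊔ s.sup S)) + s.card * c := by
  classical
  induction s using Finset.induction_on with
  | empty =>
    have e : A₀ ⊔ (∅ : Finset ι).sup S = A₀ := by rw [Finset.sup_empty, sup_bot_eq]
    rw [e]
    exact le_self_add
  | insert j s hj ih =>
    refine ih.trans ?_
    rw [Finset.card_insert_of_notMem hj, Finset.sup_insert]
    have h1 := h j (A₀ ⊔ s.sup S) le_sup_left
    have e : A₀ ⊔ s.sup S ⊔ S j = A₀ ⊔ (S j ⊔ s.sup S) := by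
      rw [sup_assoc, sup_comm (s.sup S)]
    rw [e] at h1
    refine (add_le_add h1 le_rfl).trans ?_
    rw [add_assoc]
    refine add_le_add le_rfl ?_
    push_cast
    rw [add_mul, one_mul, add_comm]

/-- the semilinear map on differentials induced by an algebra map -/
private theorem ProdLen_semi {V V' : Type} [CommRing V] [Algebra ℂ V] [CommRing V'] [Algebra ℂ V']
    (ψ : V →ₐ[ℂ] V') : ∃ g : KaehlerDifferential ℂ V →ₛₗ[(ψ : V →+* V')] KaehlerDifferential ℂ V',
      ∀ f, g (KaehlerDifferential.D ℂ V f) = KaehlerDifferential.D ℂ V' (ψ f) := by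
  letI : Algebra V V' := (ψ : V →+* V').toAlgebra
  haveI : IsScalarTower ℂ V V' := IsScalarTower.of_algebraMap_eq fun x => (ψ.commutes x).symm
  refine ⟨{ toFun := KaehlerDifferential.map ℂ ℂ V V'
            map_add' := map_add _
            map_smul' := fun c x => ?_ }, fun f => ?_⟩
  · rw [map_smul]
    exact algebra_compatible_smul V' c _
  · exact KaehlerDifferential.map_D ℂ ℂ V V' f

/-- P05: the estimate of the log discrepancy of the product divisor. `P = span (D '' F)`,
`P'` a submodule containing all `D (ψ_j f)`, `f ∈ F`. -/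
theorem length_product_le {V V' : Type} [CommRing V] [IsDomain V] [IsDiscreteValuationRing V]
    [Algebra ℂ V] [CommRing V'] [IsDomain V'] [IsDiscreteValuationRing V'] [Algebra ℂ V']
    {N r : ℕ} (j₀ : Fin N) (ψ : Fin N → (V →ₐ[ℂ] V')) (t : V) (w : Fin r → V)
    (ht : Irreducible t) (ht' : Irreducible (ψ j₀ t))
    (hV : Submodule.span V (insert (KaehlerDifferential.D ℂ V t)
      (Set.range fun i => KaehlerDifferential.D ℂ V (w i))) = ⊤)
    (u : Fin N → V') (hu : u j₀ = 1) (hu' : ∀ j, ψ j t = u j * ψ j₀ t) (hu'' : ∀ j, IsUnit (u j))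
    (hV' : Submodule.span V' (insert (KaehlerDifferential.D ℂ V' (ψ j₀ t))
      (Set.range (fun j => KaehlerDifferential.D ℂ V' (u j)) ∪
        Set.range (fun p : Fin N × Fin r => KaehlerDifferential.D ℂ V' (ψ p.1 (w p.2))))) = ⊤)
    (F : Set V) (P' : Submodule V' (KaehlerDifferential ℂ V'))
    (hP' : ∀ j, ∀ f ∈ F, KaehlerDifferential.D ℂ V' (ψ j f) ∈ P') :
    1 + Module.length V' (KaehlerDifferential ℂ V' ⧸ P') ≤
      N * (1 + Module.length V (KaehlerDifferential ℂ V ⧸
        Submodule.span V (KaehlerDifferential.D ℂ V '' F))) := by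
  classical
  choose g hg using fun j => ProdLen_semi (ψ j)
  set P : Submodule V (KaehlerDifferential ℂ V) :=
    Submodule.span V (KaehlerDifferential.D ℂ V '' F) with hP
  have hirr : ∀ j, Irreducible ((ψ j : V →+* V') t) := by
    intro j
    change Irreducible (ψ j t)
    rw [hu' j]
    exact (irreducible_isUnit_mul (hu'' j)).2 ht'
  have hgP : ∀ j, ∀ x ∈ P, g j x ∈ P' := by
    intro j x hx
    induction hx using Submodule.span_induction with
    | mem z hz =>
      obtain ⟨f, hf, rfl⟩ := hz
      rw [hg]
      exact hP' j f hf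
    | zero => rw [map_zero]; exact P'.zero_mem
    | add y z hy hz h1 h2 => rw [map_add]; exact P'.add_mem h1 h2
    | smul a z hz h1 => rw [LinearMap.map_smulₛₗ]; exact P'.smul_mem _ h1
  have h1 := ProdLen_chain (fun j => Submodule.span V' (Set.range (g j))) P'
    (Module.length V (KaehlerDifferential ℂ V ⧸ P))
    (fun j A hA => ProdLen_stepSemi (ψ j : V →+* V') t ht (hirr j) (g j) P A
      (fun x hx => hA (hgP j x hx))) Finset.univ
  set M : Submodule V' (KaehlerDifferential ℂ V') :=
    P' ⊔ Finset.univ.sup (fun j => Submodule.span V' (Set.range (g j))) with hM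
  have hDM : ∀ j f, KaehlerDifferential.D ℂ V' (ψ j f) ∈ M := by
    intro j f
    have : Submodule.span V' (Set.range (g j)) ≤ M :=
      le_trans (Finset.le_sup (f := fun j => Submodule.span V' (Set.range (g j)))
        (Finset.mem_univ j)) le_sup_right
    exact this (Submodule.subset_span ⟨_, hg j f⟩)
  have h2 := ProdLen_chain (fun j => Submodule.span V' {KaehlerDifferential.D ℂ V' (u j)}) M 1
    (fun j A hA => ProdLen_stepCyc (ψ j₀ t) ht' A _ (by
      have h3 : KaehlerDifferential.D ℂ V' (ψ j t) =
          u j • KaehlerDifferential.D ℂ V' (ψ j₀ t) + ψ j₀ t • KaehlerDifferential.D ℂ V' (u j) := by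
        rw [hu' j, Derivation.leibniz]
      have h4 : ψ j₀ t • KaehlerDifferential.D ℂ V' (u j) =
          KaehlerDifferential.D ℂ V' (ψ j t) - u j • KaehlerDifferential.D ℂ V' (ψ j₀ t) := by
        rw [h3]; abel
      rw [h4]
      exact A.sub_mem (hA (hDM j t)) (A.smul_mem _ (hA (hDM j₀ t))))) (Finset.univ.erase j₀)
  have htop : M ⊔ (Finset.univ.erase j₀).sup
      (fun j => Submodule.span V' {KaehlerDifferential.D ℂ V' (u j)}) = ⊤ := by
    rw [eq_top_iff, ← hV', Submodule.span_le]
    rintro x (rfl | ⟨j, rfl⟩ | ⟨⟨j, i⟩, rfl⟩)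
    · exact (le_sup_left : M ≤ _) (hDM j₀ t)
    · by_cases hj : j = j₀
      · subst hj
        have : KaehlerDifferential.D ℂ V' (u j) = 0 := by
          rw [hu]; exact Derivation.map_one_eq_zero _
        simp only [this]
        exact Submodule.zero_mem _
      · have : Submodule.span V' {KaehlerDifferential.D ℂ V' (u j)} ≤ (Finset.univ.erase j₀).sup
            (fun j => Submodule.span V' {KaehlerDifferential.D ℂ V' (u j)}) :=
          Finset.le_sup (f := fun j => Submodule.span V' {KaehlerDifferential.D ℂ V' (u j)})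
            (Finset.mem_erase.2 ⟨hj, Finset.mem_univ _⟩)
        exact (le_sup_right : _ ≤ M ⊔ _) (this (Submodule.mem_span_singleton_self _))
    · exact (le_sup_left : M ≤ _) (hDM j (w i))
  rw [htop, Finset.card_erase_of_mem (Finset.mem_univ _), Finset.card_univ, Fintype.card_fin,
    mul_one] at h2
  have h5 : Module.length V' (KaehlerDifferential ℂ V' ⧸ (⊤ : Submodule V' (KaehlerDifferential ℂ V')))
      = 0 := by
    rw [Module.length_eq_zero_iff]
    infer_instance
  rw [h5, zero_add] at h2
  rw [Finset.card_univ, Fintype.card_fin] at h1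
  have hN : 1 ≤ N := Nat.one_le_iff_ne_zero.2 (fun h => by subst h; exact j₀.elim0)
  have h6 : (1 : ℕ∞) + ((N - 1 : ℕ) : ℕ∞) = N := by
    have : 1 + (N - 1) = N := by omega
    exact_mod_cast this
  calc 1 + Module.length V' (KaehlerDifferential ℂ V' ⧸ P')
      ≤ 1 + (((N - 1 : ℕ) : ℕ∞) + N * Module.length V (KaehlerDifferential ℂ V ⧸ P)) :=
        add_le_add le_rfl (h1.trans (add_le_add h2 le_rfl))
    _ = N * (1 + Module.length V (KaehlerDifferential ℂ V ⧸ P)) := by
        rw [← add_assoc, h6, mul_add, mul_one]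

end Pool.Agent.Lib_GD
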