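import Mathlib

/-! P02: the product valuation ring. -/

open PowerSeries

namespace Pool.Agent.Lib_GD

private theorem ProdRing_assoc {L : Type} [Field L] {f : L⟦X⟧} (hf : f ≠ 0) :
    Associated (X ^ f.order.toNat) f := by
  obtain ⟨u, hu⟩ := isUnit_divided_by_X_pow_order hf
  refine ⟨u, ?_⟩
  rw [hu, X_pow_order_mul_divXPowOrder]

private theorem ProdRing_dvd {L : Type} [Field L] {f g : L⟦X⟧} (h : f.order ≤ g.order) :
    f ∣ g := by
  by_cases hg : g = 0
  · rw [hg]; exact dvd_zero f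
  have hf : f ≠ 0 := by
    rintro rfl
    rw [order_zero, top_le_iff, order_eq_top] at h
    exact hg h
  refine ((ProdRing_assoc hf).symm.dvd).trans (dvd_trans ?_ (ProdRing_assoc hg).dvd)
  apply pow_dvd_pow
  rw [← coe_toNat_order hf, ← coe_toNat_order hg] at h
  exact_mod_cast h

/-- A domain with an injective divisibility-reflecting map to `L⟦X⟧` whose image contains an
element of order `1` is a discrete valuation ring whose valuation is the order. -/
private theorem ProdRing_dvr {V : Type} [CommRing V] [IsDomain V] [Algebra ℂ V] {L : Type}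
    [Field L] [Algebra ℂ L] (Φ : V →ₐ[ℂ] L⟦X⟧) (hinj : Function.Injective Φ)
    (hd : ∀ f g, Φ f ∣ Φ g → f ∣ g) (t : V) (ht : (Φ t).order = 1) :
    ∃ (_ : IsDiscreteValuationRing V),
      ∀ f, (Φ f).order = IsDiscreteValuationRing.addVal V f := by
  classical
  have hne : ∀ f : V, f ≠ 0 → Φ f ≠ 0 := fun f hf h => hf (hinj (by rw [h, map_zero]))
  have hle : ∀ f g : V, (Φ f).order ≤ (Φ g).order → f ∣ g := fun f g h => hd f g (ProdRing_dvd h)
  have hunit : ∀ f : V, (Φ f).order = 0 → IsUnit f := fun f h =>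
    isUnit_of_dvd_one (hle f 1 (by rw [h]; exact zero_le))
  have ht0 : t ≠ 0 := by
    rintro rfl
    rw [map_zero, order_zero] at ht
    exact absurd ht (ENat.top_ne_natCast 1)
  have htpow : ∀ q : ℕ, (Φ (t ^ q)).order = (q : ℕ∞) := by
    intro q
    rw [map_pow]
    induction q with
    | zero => simp
    | succ q ih => rw [pow_succ, order_mul, ih, ht]; push_cast; rfl
  -- factorisation
  have hfac : ∀ f : V, f ≠ 0 → ∃ (q : ℕ) (u : V), IsUnit u ∧ f = t ^ q * u ∧
      (Φ f).order = (q : ℕ∞) := by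
    intro f hf
    have hm := (coe_toNat_order (hne f hf)).symm
    generalize (Φ f).order.toNat = m at hm
    have h1 : t ^ m ∣ f := by
      apply hle
      rw [htpow, hm]
    obtain ⟨u, hu⟩ := h1
    have hu0 : u ≠ 0 := by rintro rfl; exact hf (by rw [hu, mul_zero])
    have hmu := (coe_toNat_order (hne u hu0)).symm
    generalize (Φ u).order.toNat = r at hmu
    have h2 : m = m + r := by
      have h3 := congrArg (fun z => (Φ z).order) hu
      simp only [map_mul, order_mul] at h3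
      rw [hm, hmu, htpow, ← Nat.cast_add] at h3
      exact_mod_cast h3
    have h7 : r = 0 := by omega
    subst h7
    exact ⟨m, u, hunit u (by rw [hmu]; rfl), hu, hm⟩
  have htirr : Irreducible t := by
    constructor
    · intro hu
      have h1 : IsUnit (Φ t) := hu.map Φ
      rw [order_zero_of_unit h1] at ht
      exact absurd ht (by norm_num)
    · intro a b hab
      have ha0 : a ≠ 0 := by rintro rfl; exact ht0 (by rw [hab, zero_mul])
      have hb0 : b ≠ 0 := by rintro rfl; exact ht0 (by rw [hab, mul_zero])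
      have ha := (coe_toNat_order (hne a ha0)).symm
      have hb := (coe_toNat_order (hne b hb0)).symm
      generalize (Φ a).order.toNat = ma at ha
      generalize (Φ b).order.toNat = mb at hb
      have h3 : 1 = ma + mb := by
        have h3 := congrArg (fun z => (Φ z).order) hab
        simp only [map_mul, order_mul] at h3
        rw [ht, ha, hb, ← Nat.cast_add] at h3
        exact_mod_cast h3
      by_cases hma : ma = 0
      · left
        exact hunit a (by rw [ha, hma]; rfl)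
      · right
        have : mb = 0 := by omega
        exact hunit b (by rw [hb, this]; rfl)
  have hdvr : IsDiscreteValuationRing V := by
    apply IsDiscreteValuationRing.ofHasUnitMulPowIrreducibleFactorization
    refine ⟨t, htirr, ?_⟩
    intro f hf
    obtain ⟨q, u, hu, hfu, -⟩ := hfac f hf
    exact ⟨q, hu.unit, hfu.symm⟩
  refine ⟨hdvr, ?_⟩
  intro f
  by_cases hf : f = 0
  · rw [hf, map_zero, order_zero, IsDiscreteValuationRing.addVal_zero]
  obtain ⟨q, u, hu, hfu, hord⟩ := hfac f hf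
  rw [hord, IsDiscreteValuationRing.addVal_def f hu.unit htirr q (by rw [hfu, mul_comm]; rfl)]

/-- P02: the valuation ring `V'` of the functions in the field generated by the images of the
`Φ_j` which have order at least `0`, as a subalgebra of `L⟦X⟧`. -/
theorem exists_product_ring {V L : Type} [CommRing V] [IsDomain V] [IsDiscreteValuationRing V]
    [Algebra ℂ V] [Field L] [Algebra ℂ L] {N : ℕ} (j₀ : Fin N)
    (Φ : Fin N → (V →ₐ[ℂ] L⟦X⟧))
    (hΦ : ∀ j f, (Φ j f).order = IsDiscreteValuationRing.addVal V f) :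
    ∃ (V' : Type) (_ : CommRing V') (_ : IsDomain V') (_ : IsDiscreteValuationRing V')
      (_ : Algebra ℂ V') (Ψ : V' →ₐ[ℂ] L⟦X⟧) (ψ : Fin N → (V →ₐ[ℂ] V')),
      Function.Injective Ψ ∧ (∀ j f, Ψ (ψ j f) = Φ j f) ∧
      (∀ f, (Ψ f).order = IsDiscreteValuationRing.addVal V' f) ∧
      ∀ f : V', ∃ b ∈ Algebra.adjoin ℂ (⋃ j, Set.range (ψ j)),
        ∃ b' ∈ Algebra.adjoin ℂ (⋃ j, Set.range (ψ j)), b' ≠ 0 ∧ f * b' = b := by
  classical
  let W : Subalgebra ℂ L⟦X⟧ := Algebra.adjoin ℂ (⋃ j, Set.range (Φ j))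
  have hW : ∀ j f, Φ j f ∈ W := fun j f =>
    Algebra.subset_adjoin (Set.mem_iUnion.2 ⟨j, f, rfl⟩)
  let V' : Subalgebra ℂ L⟦X⟧ :=
    { carrier := {g | ∃ b ∈ W, ∃ b' ∈ W, b' ≠ 0 ∧ g * b' = b}
      mul_mem' := by
        rintro g₁ g₂ ⟨b₁, hb₁, c₁, hc₁, hn₁, h₁⟩ ⟨b₂, hb₂, c₂, hc₂, hn₂, h₂⟩
        refine ⟨b₁ * b₂, W.mul_mem hb₁ hb₂, c₁ * c₂, W.mul_mem hc₁ hc₂, mul_ne_zero hn₁ hn₂, ?_⟩
        rw [← h₁, ← h₂]; ring
      add_mem' := by
        rintro g₁ g₂ ⟨b₁, hb₁, c₁, hc₁, hn₁, h₁⟩ ⟨b₂, hb₂, c₂, hc₂, hn₂, h₂⟩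
        refine ⟨b₁ * c₂ + b₂ * c₁, W.add_mem (W.mul_mem hb₁ hc₂) (W.mul_mem hb₂ hc₁), c₁ * c₂,
          W.mul_mem hc₁ hc₂, mul_ne_zero hn₁ hn₂, ?_⟩
        rw [← h₁, ← h₂]; ring
      algebraMap_mem' := fun r => ⟨algebraMap ℂ _ r, W.algebraMap_mem r, 1, W.one_mem,
        one_ne_zero, mul_one _⟩ }
  have hmem : ∀ g : L⟦X⟧, g ∈ V' ↔ ∃ b ∈ W, ∃ b' ∈ W, b' ≠ 0 ∧ g * b' = b := fun g => Iff.rfl
  have hWV : ∀ g ∈ W, g ∈ V' := fun g hg =>
    (hmem g).2 ⟨g, hg, 1, W.one_mem, one_ne_zero, mul_one _⟩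
  have hinj : Function.Injective V'.val := Subtype.val_injective
  have hdvd : ∀ f g : V', V'.val f ∣ V'.val g → f ∣ g := by
    intro f g ⟨c, hc⟩
    by_cases hf : f = 0
    · rw [hf, map_zero, zero_mul] at hc
      have : g = 0 := hinj (by rw [hc, map_zero])
      rw [this]; exact dvd_zero f
    by_cases hf' : (f : L⟦X⟧) = 0
    · exact absurd (Subtype.ext hf') hf
    obtain ⟨b₁, hb₁, c₁, hc₁, hn₁, h₁⟩ := (hmem _).1 f.2
    obtain ⟨b₂, hb₂, c₂, hc₂, hn₂, h₂⟩ := (hmem _).1 g.2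
    have hc' : (g : L⟦X⟧) = f * c := hc
    have hm : c ∈ V' := by
      rw [hmem]
      refine ⟨b₂ * c₁, W.mul_mem hb₂ hc₁, b₁ * c₂, W.mul_mem hb₁ hc₂, ?_, ?_⟩
      · refine mul_ne_zero ?_ hn₂
        rw [← h₁]
        exact mul_ne_zero hf' hn₁
      · rw [← h₁, ← h₂, hc']; ring
    exact ⟨⟨c, hm⟩, Subtype.ext hc'⟩
  obtain ⟨ϖ, hϖ⟩ := IsDiscreteValuationRing.exists_irreducible V
  have hord : (Φ j₀ ϖ).order = 1 := by
    rw [hΦ, IsDiscreteValuationRing.addVal_uniformizer hϖ]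
  obtain ⟨iV, hadd⟩ := ProdRing_dvr V'.val hinj hdvd ⟨Φ j₀ ϖ, hWV _ (hW _ _)⟩ hord
  let ψ : Fin N → (V →ₐ[ℂ] V') := fun j => (Φ j).codRestrict V' (fun f => hWV _ (hW _ _))
  refine ⟨V', inferInstance, inferInstance, iV, inferInstance, V'.val, ψ, hinj,
    fun j f => rfl, hadd, ?_⟩
  have hlift : ∀ b ∈ W, ∃ b' ∈ Algebra.adjoin ℂ (⋃ j, Set.range (ψ j)), V'.val b' = b := by
    have hmap : (Algebra.adjoin ℂ (⋃ j, Set.range (ψ j))).map V'.val = W := by
      rw [AlgHom.map_adjoin, Set.image_iUnion]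
      congr 1
      apply Set.iUnion_congr
      intro j
      rw [← Set.range_comp]
      rfl
    intro b hb
    rw [← hmap] at hb
    exact hb
  intro f
  obtain ⟨b, hb, c, hc, hn, h⟩ := (hmem _).1 f.2
  obtain ⟨b', hb', hbb⟩ := hlift b hb
  obtain ⟨c', hc', hcc⟩ := hlift c hc
  refine ⟨b', hb', c', hc', ?_, ?_⟩
  · rintro rfl
    apply hn
    rw [← hcc, map_zero]
  · apply hinj
    rw [map_mul, hbb, hcc]
    exact h

end Pool.Agent.Lib_GD
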