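import Pool.Agent.Lib_GD.ProdArc
import Pool.Agent.Lib_GD.ProdRing
import Pool.Agent.Lib_GD.ProdCoord
import Pool.Agent.Lib_GD.ProdKaehler
import Pool.Agent.Lib_GD.ProdLen
import Pool.Agent.Lib_GD.ProdGen

/-! P07: the product divisor. -/

open PowerSeries

namespace Pool.Agent.Lib_GD

variable {R : Type} [CommRing R] [Algebra ℂ R] {𝒜 : ℕ → Submodule ℂ R} {n : ℕ}

private theorem ProdDiv_addVal_prod {V : Type} [CommRing V] [IsDomain V]
    [IsDiscreteValuationRing V] {ι : Type} (s : Finset ι) (f : ι → V) :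
    IsDiscreteValuationRing.addVal V (∏ i ∈ s, f i) =
      ∑ i ∈ s, IsDiscreteValuationRing.addVal V (f i) := by
  classical
  induction s using Finset.induction_on with
  | empty => simp
  | insert a s ha ih =>
    rw [Finset.prod_insert ha, Finset.sum_insert ha, IsDiscreteValuationRing.addVal_mul, ih]

private theorem ProdDiv_addVal_units {V : Type} [CommRing V] [IsDomain V]
    [IsDiscreteValuationRing V] (e : ℤˣ) (x : V) :
    IsDiscreteValuationRing.addVal V (e • x) = IsDiscreteValuationRing.addVal V x := by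
  rcases Int.units_eq_one_or e with rfl | rfl
  · rw [one_smul]
  · rw [Units.neg_smul, one_smul]
    exact AddValuation.map_neg _ x

private theorem ProdDiv_addVal_det {V : Type} [CommRing V] [IsDomain V]
    [IsDiscreteValuationRing V] {N : ℕ} (M : Matrix (Fin N) (Fin N) V) (c : Fin N → ℕ∞)
    (h : ∀ j i, IsDiscreteValuationRing.addVal V (M j i) = c i) :
    ∑ i, c i ≤ IsDiscreteValuationRing.addVal V M.det := by
  rw [Matrix.det_apply]
  refine AddValuation.map_le_sum _ fun σ _ => ?_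
  rw [ProdDiv_addVal_units, ProdDiv_addVal_prod]
  exact (Finset.sum_congr rfl fun i _ => (h (σ i) i)).ge

/-- P07: for a prime divisor `E` over `X` there is a prime divisor `E'` over `X ^ N` with
`A(E') ≤ N A(E)` along which `det (b_i (x_j))` vanishes to order at least `∑ ord_E (b_i)`. -/
theorem exists_product_divisor (hn : 1 ≤ n) (E : DivisorOver 𝒜 n 1) (N : ℕ) (hN : 1 ≤ N) :
    ∃ E' : DivisorOver 𝒜 n N, E'.logDisc ≤ N * E.logDisc ∧
      ∀ b : Fin N → R, ∑ i, E.ord (E.φ 0 (b i)) ≤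
        E'.ord (Matrix.det (Matrix.of fun j i : Fin N => E'.φ j (b i))) := by
  obtain ⟨r, rfl⟩ : ∃ r, n = r + 1 := ⟨n - 1, by omega⟩
  have hr : Algebra.trdeg ℂ E.V = (r + 1 : ℕ) := by
    rw [E.trdeg, mul_one]
  obtain ⟨t, w, b, ht, hb, hb'⟩ := exists_dvr_coords E.V r hr
  have hw := residue_algInd E.V r t w ht b hb hb'
  let j₀ : Fin N := ⟨0, hN⟩
  obtain ⟨L, _, _, Φ, hΦ, h1, hind⟩ := exists_product_arcs E.V r t w ht b hb hb' N j₀
  obtain ⟨V', _, _, _, _, Ψ, ψ, hΨi, hΨψ, hΨ, hfr⟩ := exists_product_ring j₀ Φ hΦ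
  have hψ : ∀ j f, (Ψ (ψ j f)).order = IsDiscreteValuationRing.addVal E.V f := fun j f => by
    rw [hΨψ, hΦ]
  have hψ' : ∀ j f, IsDiscreteValuationRing.addVal V' (ψ j f) =
      IsDiscreteValuationRing.addVal E.V f := fun j f => by
    rw [← hψ j f, hΨ]
  have hi : ∀ j, Function.Injective (ψ j) := by
    intro j
    rw [injective_iff_map_eq_zero]
    intro f hf
    have h2 := hψ' j f
    rw [hf] at h2
    have h3 : IsDiscreteValuationRing.addVal E.V f = ⊤ := by
      rw [← h2]
      exact AddValuation.map_zero _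
    exact IsDiscreteValuationRing.addVal_eq_top_iff.1 h3
  have h1' : coeff 1 (Ψ (ψ j₀ t)) = 1 := by rw [hΨψ, h1]
  have hind' : AlgebraicIndependent ℂ (Sum.elim
      (fun j : {j : Fin N // j ≠ j₀} => coeff 1 (Ψ (ψ j t)))
      (fun p : Fin N × Fin r => constantCoeff (Ψ (ψ p.1 (w p.2))))) := by
    simp only [hΨψ]
    exact hind
  obtain ⟨hirr, u, hu, hu', hres⟩ := product_residues j₀ ψ Ψ t w ht hψ hΨ h1' hind'
  obtain ⟨htr, hess⟩ := product_trdeg j₀ ψ hr t w ht hw hi u hu hu' hirr hres hfr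
  have huu : ∀ j, IsUnit (u j) := by
    intro j
    by_cases hj : j = j₀
    · rw [hj, hu]
      exact isUnit_one
    · have h2 := hres.ne_zero (Sum.inl ⟨j, hj⟩)
      simp only [Sum.elim_inl] at h2
      exact (IsLocalRing.residue_ne_zero_iff_isUnit _).1 h2
  -- the differentials
  have hV : Submodule.span E.V (insert (KaehlerDifferential.D ℂ E.V t)
      (Set.range fun i => KaehlerDifferential.D ℂ E.V (w i))) = ⊤ := by
    rw [eq_top_iff, ← b.span_eq, Submodule.span_le]
    rintro _ ⟨o, rfl⟩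
    cases o with
    | none =>
      rw [hb]
      exact Submodule.subset_span (Set.mem_insert _ _)
    | some l =>
      rw [hb']
      exact Submodule.subset_span (Set.mem_insert_of_mem _ ⟨l, rfl⟩)
  have hV' : Submodule.span V' (insert (KaehlerDifferential.D ℂ V' (ψ j₀ t))
      (Set.range (fun j => KaehlerDifferential.D ℂ V' (u j)) ∪
        Set.range (fun p : Fin N × Fin r =>
          KaehlerDifferential.D ℂ V' (ψ p.1 (w p.2))))) = ⊤ := by
    have hcard : Fintype.card ({j : Fin N // j ≠ j₀} ⊕ (Fin N × Fin r)) + 1 = (r + 1) * N := by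
      rw [Fintype.card_sum, Fintype.card_prod, Fintype.card_fin, Fintype.card_fin,
        Fintype.card_subtype_compl, Fintype.card_fin, Fintype.card_subtype_eq]
      obtain ⟨k, rfl⟩ : ∃ k, N = k + 1 := ⟨N - 1, by omega⟩
      have : k + 1 - 1 = k := by omega
      rw [this]
      ring
    have h2 := span_D_eq_top V' (ι := {j : Fin N // j ≠ j₀} ⊕ (Fin N × Fin r))
      (by rw [htr, ← hcard]) (ψ j₀ t) hirr
      (Sum.elim (fun j => u j) (fun p => ψ p.1 (w p.2)))
      (by
        convert hres using 1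
        funext i
        rcases i with i | i <;> rfl)
    rw [eq_top_iff, ← h2]
    refine Submodule.span_mono ?_
    rintro x (rfl | ⟨i, rfl⟩)
    · exact Set.mem_insert _ _
    · refine Set.mem_insert_of_mem _ ?_
      rcases i with i | i
      · exact Or.inl ⟨i, rfl⟩
      · exact Or.inr ⟨i, rfl⟩
  -- the divisor
  let E' : DivisorOver 𝒜 (r + 1) N :=
    { V := V'
      φ := fun j => (ψ j).comp (E.φ 0)
      centre := fun j => by
        obtain ⟨d, hd, f, hf, hfu⟩ := E.centre 0
        exact ⟨d, hd, f, hf, hfu.map (ψ j)⟩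
      generates := product_generates E ψ hi hfr
      trdeg := htr }
  let F : Set E.V := {f | ∃ m, ∃ s ∈ 𝒜 m, ∃ s' ∈ 𝒜 m, ∃ w : E.V, E.φ 0 s' * w = 1 ∧
    f = E.φ 0 s * w}
  have hF : Submodule.span E.V (KaehlerDifferential.D ℂ E.V '' F) = E.pulledBack := by
    unfold DivisorOver.pulledBack
    congr 1
    ext ω
    constructor
    · rintro ⟨f, ⟨m, s, hs, s', hs', w, hw, rfl⟩, rfl⟩
      exact ⟨0, m, s, hs, s', hs', w, hw, rfl⟩
    · rintro ⟨j, m, s, hs, s', hs', w, hw, rfl⟩
      have hj : j = 0 := Subsingleton.elim _ _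
      rw [hj] at hw ⊢
      exact ⟨_, ⟨m, s, hs, s', hs', w, hw, rfl⟩, rfl⟩
  refine ⟨E', ?_, ?_⟩
  · have h2 := length_product_le j₀ ψ t w ht hirr hV u hu hu' huu hV' F E'.pulledBack (by
      rintro j f ⟨m, s, hs, s', hs', w, hw, rfl⟩
      refine Submodule.subset_span ⟨j, m, s, hs, s', hs', ψ j w, ?_, ?_⟩
      · show ψ j (E.φ 0 s') * ψ j w = 1
        rw [← map_mul, hw, map_one]
      · show _ = KaehlerDifferential.D ℂ V' (ψ j (E.φ 0 s) * ψ j w)
        rw [← map_mul])
    rw [hF] at h2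
    exact h2
  · intro c
    exact ProdDiv_addVal_det _ _ fun j i => hψ' j (E.φ 0 (c i))

end Pool.Agent.Lib_GD
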