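import Pool.Agent.Lib_GD.Window

/-! J01: stable lattices are defined over the constants. -/

open PowerSeries

namespace Pool.Agent.Lib_GD

variable {L : Type} [Field L] [Algebra ℂ L]

/-- The constants of a set of derivations. -/
def consts (Δ : Set (Derivation ℂ L L)) : IntermediateField ℂ L where
  carrier := {c | ∀ δ ∈ Δ, δ c = 0}
  mul_mem' {a b} ha hb δ hδ := by simp [Derivation.leibniz, ha δ hδ, hb δ hδ]
  add_mem' {a b} ha hb δ hδ := by simp [ha δ hδ, hb δ hδ]
  algebraMap_mem' c δ _ := by simp
  inv_mem' a ha δ hδ := by simp [Derivation.leibniz_inv, ha δ hδ]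

open scoped Classical in
/-- the support of a vector -/
private noncomputable def Rational_supp {ι : Type} [Fintype ι] (v : ι → L) : Finset ι :=
  Finset.univ.filter fun i => v i ≠ 0

omit [Algebra ℂ L] in
private theorem Rational_mem_supp {ι : Type} [Fintype ι] (v : ι → L) (i : ι) :
    i ∈ Rational_supp v ↔ v i ≠ 0 := by
  classical
  simp [Rational_supp]

/-- a normalised vector of minimal support below a given vector has constant coordinates -/
private theorem Rational_min {ι : Type} [Fintype ι] (Δ : Set (Derivation ℂ L L))
    (U : Submodule L (ι → L)) (hU : ∀ δ ∈ Δ, ∀ v ∈ U, (fun i => δ (v i)) ∈ U)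
    (v : ι → L) (hv : v ∈ U) (hv0 : v ≠ 0) :
    ∃ u ∈ U, (∀ i, u i ∈ consts Δ) ∧ Rational_supp u ⊆ Rational_supp v ∧ ∃ i, u i = 1 := by
  classical
  have hex : ∃ n : ℕ, ∃ u ∈ U, u ≠ 0 ∧ Rational_supp u ⊆ Rational_supp v ∧ (Rational_supp u).card = n :=
    ⟨_, v, hv, hv0, Finset.Subset.refl _, rfl⟩
  obtain ⟨u, huU, hu0, hus, hun⟩ := Nat.find_spec hex
  have hmin : ∀ w ∈ U, w ≠ 0 → Rational_supp w ⊆ Rational_supp v →
      (Rational_supp u).card ≤ (Rational_supp w).card := by
    intro w hw hw0 hws
    rw [hun]
    exact Nat.find_min' hex ⟨w, hw, hw0, hws, rfl⟩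
  obtain ⟨i, hi⟩ : ∃ i, u i ≠ 0 := by
    by_contra hcon
    push Not at hcon
    exact hu0 (funext hcon)
  refine ⟨(u i)⁻¹ • u, U.smul_mem _ huU, ?_, ?_, i, ?_⟩
  · intro j δ hδ
    have h1 := hU δ hδ _ (U.smul_mem (u i)⁻¹ huU)
    have h2 : (fun j => δ (((u i)⁻¹ • u) j)) = 0 := by
      by_contra hne
      have h3 : Rational_supp (fun j => δ (((u i)⁻¹ • u) j)) ⊆ (Rational_supp u).erase i := by
        intro j hj
        rw [Rational_mem_supp] at hj
        rw [Finset.mem_erase, Rational_mem_supp]
        refine ⟨?_, ?_⟩
        · rintro rfl
          apply hj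
          simp only [Pi.smul_apply, smul_eq_mul]
          rw [inv_mul_cancel₀ hi]
          simp
        · intro h0
          apply hj
          simp only [Pi.smul_apply, smul_eq_mul]
          rw [h0]
          simp
      have h4 := hmin _ h1 hne (h3.trans ((Finset.erase_subset _ _).trans hus))
      have h5 := Finset.card_le_card h3
      have h6 : i ∈ Rational_supp u := (Rational_mem_supp u i).2 hi
      have h7 := Finset.card_erase_lt_of_mem h6
      omega
    exact congrFun h2 j
  · intro j hj
    apply hus
    rw [Rational_mem_supp] at hj ⊢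
    intro h0
    apply hj
    simp [h0]
  · simp [hi]

/-- J01a: a subspace of `L^p` stable under `Δ` is spanned by its vectors with constant
coordinates. -/
theorem span_consts {ι : Type} [Fintype ι] (Δ : Set (Derivation ℂ L L))
    (U : Submodule L (ι → L)) (hU : ∀ δ ∈ Δ, ∀ v ∈ U, (fun i => δ (v i)) ∈ U) :
    Submodule.span L {v | v ∈ U ∧ ∀ i, v i ∈ consts Δ} = U := by
  classical
  apply le_antisymm
  · rw [Submodule.span_le]
    intro v hv
    exact hv.1
  · have key : ∀ n : ℕ, ∀ v ∈ U, (Rational_supp v).card = n →
        v ∈ Submodule.span L {v | v ∈ U ∧ ∀ i, v i ∈ consts Δ} := by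
      intro n
      induction n using Nat.strong_induction_on with
      | _ n ih =>
        intro v hv hn
        by_cases hv0 : v = 0
        · rw [hv0]
          exact Submodule.zero_mem _
        · obtain ⟨u, huU, huc, hus, i, hi⟩ := Rational_min Δ U hU v hv hv0
          have huS : u ∈ Submodule.span L {v | v ∈ U ∧ ∀ i, v i ∈ consts Δ} :=
            Submodule.subset_span ⟨huU, huc⟩
          have hiu : i ∈ Rational_supp u := by
            rw [Rational_mem_supp, hi]
            exact one_ne_zero
          have hiv : i ∈ Rational_supp v := hus hiu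
          have h1 : v - v i • u ∈ U := U.sub_mem hv (U.smul_mem _ huU)
          have h2 : Rational_supp (v - v i • u) ⊆ (Rational_supp v).erase i := by
            intro j hj
            rw [Rational_mem_supp] at hj
            rw [Finset.mem_erase]
            refine ⟨?_, ?_⟩
            · rintro rfl
              apply hj
              simp [hi]
            · by_contra hjv
              have h3 : v j = 0 := by
                by_contra h
                exact hjv ((Rational_mem_supp v j).2 h)
              have h4 : u j = 0 := by
                by_contra h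
                exact hjv (hus ((Rational_mem_supp u j).2 h))
              apply hj
              simp [h3, h4]
          have h5 : (Rational_supp (v - v i • u)).card < n := by
            have h6 := Finset.card_le_card h2
            have h7 := Finset.card_erase_lt_of_mem hiv
            omega
          have h8 := ih _ h5 _ h1 rfl
          have h9 : v = (v - v i • u) + v i • u := by
            rw [sub_add_cancel]
          rw [h9]
          exact Submodule.add_mem _ h8 (Submodule.smul_mem _ _ huS)
    intro v hv
    exact key _ v hv rfl


end Pool.Agent.Lib_GD
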