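import Mathlib

/-! J04a: generic lying over. -/

namespace Pool.Agent.Lib_GD

open PrimeSpectrum in
/-- a constructible set containing the generic point contains a non-empty basic open set -/
private theorem Spec0_constructible {R : Type*} [CommRing R] [IsDomain R]
    {s : Set (PrimeSpectrum R)} (hs : Topology.IsConstructible s) (h0 : (⊥ : PrimeSpectrum R) ∈ s) :
    ∃ h : R, h ≠ 0 ∧ ∀ p : PrimeSpectrum R, h ∉ p.asIdeal → p ∈ s := by
  obtain ⟨S, rfl⟩ := exists_constructibleSetData_iff.mpr hs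
  simp only [ConstructibleSetData.toSet, Set.mem_iUnion] at h0
  obtain ⟨C, hC, h1, h2⟩ := h0
  refine ⟨C.f, ?_, fun p hp => ?_⟩
  · intro h3
    apply h2
    rw [h3]
    intro x hx
    rw [Set.mem_singleton_iff] at hx
    rw [hx]
    exact Submodule.zero_mem _
  · simp only [ConstructibleSetData.toSet, Set.mem_iUnion]
    refine ⟨C, hC, ?_, ?_⟩
    · intro x hx
      have h4 : x ∈ (⊥ : PrimeSpectrum R).asIdeal := h1 hx
      have h5 : x = 0 := h4
      rw [h5]
      exact Submodule.zero_mem _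
    · intro h3
      exact hp (h3 (Set.mem_singleton _))

/-- a `ℂ`-point of a finitely generated domain where a given element does not vanish -/
private theorem Spec0_point (P : Type) [CommRing P] [IsDomain P] [Algebra ℂ P]
    [Algebra.FiniteType ℂ P] (f : P) (hf : f ≠ 0) : ∃ x : P →ₐ[ℂ] ℂ, x f ≠ 0 := by
  have : IsJacobsonRing P := isJacobsonRing_of_finiteType (A := ℂ)
  have h1 : (⊥ : Ideal P).jacobson = ⊥ := by
    apply IsJacobsonRing.out'
    exact Ideal.IsPrime.isRadical (Ideal.isPrime_bot)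
  have h2 : f ∉ (⊥ : Ideal P).jacobson := by
    rw [h1]
    exact fun h => hf ((Submodule.mem_bot P).1 h)
  rw [Ideal.jacobson, Submodule.mem_sInf] at h2
  push Not at h2
  obtain ⟨m, ⟨-, hm⟩, hfm⟩ := h2
  have := hm
  let : Field (P ⧸ m) := Ideal.Quotient.field m
  have : Module.Finite ℂ (P ⧸ m) := finite_of_finite_type_of_isJacobsonRing ℂ (P ⧸ m)
  have : Algebra.IsIntegral ℂ (P ⧸ m) := inferInstance
  have hb := IsAlgClosed.algebraMap_bijective_of_isIntegral (k := ℂ) (K := P ⧸ m)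
  let e : ℂ ≃ₐ[ℂ] (P ⧸ m) := AlgEquiv.ofBijective (Algebra.ofId ℂ (P ⧸ m)) hb
  refine ⟨e.symm.toAlgHom.comp (Ideal.Quotient.mkₐ ℂ m), ?_⟩
  intro h
  apply hfm
  have h3 : e.symm (Ideal.Quotient.mk m f) = 0 := h
  have h4 : Ideal.Quotient.mk m f = 0 := by
    rw [← map_zero e.symm] at h3
    exact e.symm.injective h3
  exact Ideal.Quotient.eq_zero_iff_mem.1 h4

/-- J04a (generic lying over): let `Q` be a domain, finitely generated over `ℂ`, `P ⊆ Q` a
finitely generated subalgebra, `z` a finite family in `Q`, algebraically independent over `P`,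
and `h₀ ∈ P` non-zero. There are a field `L₁` and a homomorphism `g : Q → L₁` such that `g` maps
`P` into `ℂ`, `g h₀ ≠ 0`, and the `g (z p)` are algebraically independent over `ℂ`. -/
theorem exists_specialisation (Q : Type) [CommRing Q] [IsDomain Q] [Algebra ℂ Q]
    [Algebra.FiniteType ℂ Q] (P : Subalgebra ℂ Q) (hP : P.FG) {ι : Type} [Finite ι] (z : ι → Q)
    (hz : AlgebraicIndependent P z) (h₀ : Q) (hh : h₀ ∈ P) (h0 : h₀ ≠ 0) :
    ∃ (L₁ : Type) (_ : Field L₁) (_ : Algebra ℂ L₁) (g : Q →ₐ[ℂ] L₁),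
      (∀ p ∈ P, ∃ c : ℂ, g p = algebraMap ℂ L₁ c) ∧ g h₀ ≠ 0 ∧
      AlgebraicIndependent ℂ (fun i => g (z i)) := by
  classical
  have : Algebra.FiniteType ℂ P := P.fg_iff_finiteType.1 hP
  have : IsNoetherianRing P := Algebra.FiniteType.isNoetherianRing ℂ P
  set φ : MvPolynomial ι P →ₐ[P] Q := MvPolynomial.aeval z with hφ
  have hinj : Function.Injective φ := hz
  have hft : (φ : MvPolynomial ι P →+* Q).FiniteType := by
    have h1 : ((φ : MvPolynomial ι P →+* Q).comp (algebraMap ℂ (MvPolynomial ι P))).FiniteType := by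
      have h2 : (φ : MvPolynomial ι P →+* Q).comp (algebraMap ℂ (MvPolynomial ι P)) =
          algebraMap ℂ Q := by
        ext c
        simp only [RingHom.comp_apply]
        rw [IsScalarTower.algebraMap_apply ℂ P (MvPolynomial ι P)]
        exact φ.commutes _
      rw [h2]
      exact RingHom.finiteType_algebraMap.2 inferInstance
    exact RingHom.FiniteType.of_comp_finiteType h1
  have hfp : (φ : MvPolynomial ι P →+* Q).FinitePresentation :=
    RingHom.FinitePresentation.of_finiteType.1 hft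
  have hcons := PrimeSpectrum.isConstructible_range_comap hfp
  have hbot : (⊥ : PrimeSpectrum (MvPolynomial ι P)) ∈
      Set.range (PrimeSpectrum.comap (φ : MvPolynomial ι P →+* Q)) := by
    refine ⟨⊥, ?_⟩
    apply PrimeSpectrum.ext
    rw [PrimeSpectrum.comap_asIdeal]
    ext x
    rw [Ideal.mem_comap]
    change φ x ∈ (⊥ : Ideal Q) ↔ x ∈ (⊥ : Ideal (MvPolynomial ι P))
    rw [Ideal.mem_bot, Ideal.mem_bot]
    exact map_eq_zero_iff φ hinj
  obtain ⟨h, hne, hD⟩ := Spec0_constructible hcons hbot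
  obtain ⟨s, hs⟩ := MvPolynomial.ne_zero_iff.1 hne
  obtain ⟨x, hx⟩ := Spec0_point P (⟨h₀, hh⟩ * h.coeff s) (mul_ne_zero (by
    intro h3
    exact h0 (congrArg Subtype.val h3)) hs)
  rw [map_mul] at hx
  have hx1 : x ⟨h₀, hh⟩ ≠ 0 := left_ne_zero_of_mul hx
  have hx2 : x (h.coeff s) ≠ 0 := right_ne_zero_of_mul hx
  let ψ : MvPolynomial ι P →+* MvPolynomial ι ℂ := MvPolynomial.map (x : P →+* ℂ)
  have hprime : (RingHom.ker ψ).IsPrime := RingHom.ker_isPrime ψ
  have hmem : (⟨RingHom.ker ψ, hprime⟩ : PrimeSpectrum (MvPolynomial ι P)) ∈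
      Set.range (PrimeSpectrum.comap (φ : MvPolynomial ι P →+* Q)) := by
    apply hD
    intro h3
    have h4 : ψ h = 0 := h3
    apply hx2
    have h5 := congrArg (MvPolynomial.coeff s) h4
    rw [MvPolynomial.coeff_map, MvPolynomial.coeff_zero] at h5
    exact h5
  obtain ⟨q, hq⟩ := hmem
  have hq1 : ∀ a : MvPolynomial ι P, φ a ∈ q.asIdeal ↔ ψ a = 0 := by
    intro a
    have h3 := congrArg PrimeSpectrum.asIdeal hq
    rw [PrimeSpectrum.comap_asIdeal] at h3
    have h4 := SetLike.ext_iff.1 h3 a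
    rw [Ideal.mem_comap] at h4
    exact h4
  have := q.isPrime
  let L₁ := FractionRing (Q ⧸ q.asIdeal)
  let g : Q →ₐ[ℂ] L₁ := (IsScalarTower.toAlgHom ℂ (Q ⧸ q.asIdeal) L₁).comp
    (Ideal.Quotient.mkₐ ℂ q.asIdeal)
  have hg : ∀ a, g a = 0 ↔ a ∈ q.asIdeal := by
    intro a
    change algebraMap (Q ⧸ q.asIdeal) L₁ (Ideal.Quotient.mk q.asIdeal a) = 0 ↔ _
    rw [map_eq_zero_iff _ (IsFractionRing.injective (Q ⧸ q.asIdeal) L₁),
      Ideal.Quotient.eq_zero_iff_mem]
  refine ⟨L₁, inferInstance, inferInstance, g, ?_, ?_, ?_⟩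
  · intro p hp
    refine ⟨x ⟨p, hp⟩, ?_⟩
    rw [← g.commutes, ← sub_eq_zero, ← map_sub, hg]
    have h3 : p - algebraMap ℂ Q (x ⟨p, hp⟩) =
        φ (MvPolynomial.C (⟨p, hp⟩ - algebraMap ℂ P (x ⟨p, hp⟩))) := by
      rw [hφ, MvPolynomial.aeval_C]
      rfl
    rw [h3, hq1]
    change MvPolynomial.map (x : P →+* ℂ) (MvPolynomial.C _) = 0
    rw [MvPolynomial.map_C]
    have h4 : (x : P →+* ℂ) (⟨p, hp⟩ - algebraMap ℂ P (x ⟨p, hp⟩)) = 0 := by
      change x (⟨p, hp⟩ - algebraMap ℂ P (x ⟨p, hp⟩)) = 0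
      rw [map_sub, x.commutes]
      simp
    rw [h4, map_zero]
  · intro h3
    rw [hg] at h3
    have h4 : h₀ = φ (MvPolynomial.C ⟨h₀, hh⟩) := by
      rw [hφ, MvPolynomial.aeval_C]
      rfl
    rw [h4, hq1] at h3
    change MvPolynomial.map (x : P →+* ℂ) (MvPolynomial.C _) = 0 at h3
    rw [MvPolynomial.map_C] at h3
    exact hx1 ((MvPolynomial.C_eq_zero).1 h3)
  · rw [AlgebraicIndependent, injective_iff_map_eq_zero]
    intro F hF
    have h3 : MvPolynomial.aeval (fun i => g (z i)) F = g (MvPolynomial.aeval z F) := by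
      rw [← MvPolynomial.comp_aeval_apply]
    rw [h3, hg] at hF
    have h4 : MvPolynomial.aeval z F = φ (MvPolynomial.map (algebraMap ℂ P) F) := by
      rw [hφ, MvPolynomial.aeval_map_algebraMap]
    rw [h4, hq1] at hF
    change MvPolynomial.map (x : P →+* ℂ) (MvPolynomial.map (algebraMap ℂ P) F) = 0 at hF
    rw [MvPolynomial.map_map] at hF
    have h5 : (x : P →+* ℂ).comp (algebraMap ℂ P) = RingHom.id ℂ := by
      ext c
      exact x.commutes c
    rw [h5, MvPolynomial.map_id] at hF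
    exact hF

end Pool.Agent.Lib_GD
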