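import Pool.Agent.Lib_GD.Lift
import Pool.Agent.Lib_GD.TrdegBound
import Pool.Agent.Lib_GD.Spec0
import Pool.Agent.Lib_GD.Growth

/-! J04: specialisation of the constants to `ℂ`. -/

open PowerSeries

namespace Pool.Agent.Lib_GD

variable {R : Type} [CommRing R] [Algebra ℂ R] {𝒜 : ℕ → Submodule ℂ R} [GradedAlgebra 𝒜]
  {n : ℕ}

private theorem Special_indep {L : Type} [Field L] [Algebra ℂ L] (K : IntermediateField ℂ L)
    (Q : Subalgebra ℂ L) (P : Subalgebra ℂ Q) (hPK : ∀ p ∈ P, ((p : Q) : L) ∈ K) {ι : Type}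
    (z : ι → Q) (hs : AlgebraicIndependent K (fun i => (z i : L))) : AlgebraicIndependent P z := by
  have hs' : Function.Injective (MvPolynomial.aeval (R := K) (fun i => (z i : L))) := hs
  change Function.Injective (MvPolynomial.aeval (R := P) z)
  rw [injective_iff_map_eq_zero] at hs' ⊢
  intro F hF
  let j : P →+* K := ((Q.val : Q →+* L).comp (P.val : P →+* Q)).codRestrict K
    (fun p => hPK _ p.2)
  have hj : Function.Injective j := by
    intro a b hab
    have h1 : ((a : Q) : L) = ((b : Q) : L) := congrArg (fun t : K => (t : L)) hab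
    exact Subtype.ext (Subtype.ext h1)
  have h1 : MvPolynomial.aeval (R := K) (fun i => (z i : L)) (MvPolynomial.map j F) = 0 := by
    have h2 : (Q.val : Q →+* L) (MvPolynomial.aeval (R := P) z F) = 0 := by
      rw [hF, map_zero]
    rw [MvPolynomial.aeval_def, MvPolynomial.hom_eval₂] at h2
    rw [MvPolynomial.aeval_def, MvPolynomial.eval₂_map]
    exact h2
  have h3 := hs' _ h1
  have h4 : MvPolynomial.map j F = MvPolynomial.map j 0 := by rw [h3, map_zero]
  exact MvPolynomial.map_injective j hj h4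

/-- J04b: specialisation of an arc together with a matrix with coefficients in a subfield `K` to
an arc with a matrix with coefficients in `ℂ`. -/
theorem Chart.specialise (c : Chart 𝒜 n) {L : Type} [Field L] [Algebra ℂ L]
    (K : IntermediateField ℂ L) (x : c.B →ₐ[ℂ] L⟦X⟧) {N B k : ℕ} (σ : Fin N → R)
    (e : Fin N → Fin N → L⟦X⟧) (he : ∀ i l k, coeff k (e i l) ∈ K)
    (he' : ∀ i l k, B < k → coeff k (e i l) = 0)
    (hdet : Matrix.det (Matrix.of fun i l => constantCoeff (e i l)) ≠ 0)
    (lam : Fin N → ℕ) (hk : 1 ≤ k) (hlam : ∀ i, lam i ≤ k)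
    (hx : ∀ i, (X : L⟦X⟧) ^ lam i ∣ ∑ l, e i l * x (c.ρ (σ l)))
    (s : Finset (Fin n × Fin k))
    (hs : AlgebraicIndependent K (fun p : s => coeff (p.1.2 : ℕ) (x (c.y p.1.1)))) :
    ∃ (L₁ : Type) (_ : Field L₁) (_ : Algebra ℂ L₁) (x₁ : c.B →ₐ[ℂ] L₁⟦X⟧)
      (e₁ : Fin N → Fin N → ℂ⟦X⟧),
      Matrix.det (Matrix.of fun i l => constantCoeff (e₁ i l)) ≠ 0 ∧
      (∀ i, (X : L₁⟦X⟧) ^ lam i ∣
        ∑ l, PowerSeries.map (algebraMap ℂ L₁) (e₁ i l) * x₁ (c.ρ (σ l))) ∧
      AlgebraicIndependent ℂ (fun p : s => coeff (p.1.2 : ℕ) (x₁ (c.y p.1.1))) := by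
  classical
  obtain ⟨Sg, hSg⟩ := c.finiteType.out
  let Gx : Finset L := (Sg ×ˢ Finset.range k).image fun q => coeff q.2 (x q.1)
  let Ge : Finset L := ((Finset.univ : Finset (Fin N × Fin N)) ×ˢ Finset.range (B + 1)).image
    fun q => coeff q.2 (e q.1.1 q.1.2)
  let Q : Subalgebra ℂ L := Algebra.adjoin ℂ ((Gx ∪ Ge : Finset L) : Set L)
  have hGx : ∀ b ∈ Sg, ∀ i < k, coeff i (x b) ∈ Q := by
    intro b hb i hi
    apply Algebra.subset_adjoin
    rw [Finset.coe_union]
    left
    exact Finset.mem_image.2 ⟨(b, i), Finset.mem_product.2 ⟨hb, Finset.mem_range.2 hi⟩, rfl⟩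
  have hQe : ∀ i l m, coeff m (e i l) ∈ Q := by
    intro i l m
    by_cases hm : m ≤ B
    · apply Algebra.subset_adjoin
      rw [Finset.coe_union]
      right
      exact Finset.mem_image.2 ⟨((i, l), m), Finset.mem_product.2 ⟨Finset.mem_univ _,
        Finset.mem_range.2 (Nat.lt_succ_of_le hm)⟩, rfl⟩
    · rw [he' i l m (not_le.1 hm)]
      exact Q.zero_mem
  have hQx : ∀ b i, i < k → coeff i (x b) ∈ Q := by
    intro b
    have hb : b ∈ Algebra.adjoin ℂ (Sg : Set c.B) := by
      rw [hSg]
      exact Algebra.mem_top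
    induction hb using Algebra.adjoin_induction with
    | mem b hb => exact hGx b hb
    | algebraMap r =>
      intro i _
      rw [AlgHom.commutes, PowerSeries.algebraMap_apply, PowerSeries.coeff_C]
      split_ifs
      · exact Q.algebraMap_mem r
      · exact Q.zero_mem
    | add a b _ _ ha hb =>
      intro i hi
      rw [map_add, map_add]
      exact Q.add_mem (ha i hi) (hb i hi)
    | mul a b _ _ ha hb =>
      intro i hi
      rw [map_mul, PowerSeries.coeff_mul]
      refine Q.sum_mem fun q hq => ?_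
      have hq' := Finset.HasAntidiagonal.mem_antidiagonal.1 hq
      exact Q.mul_mem (ha _ (by omega)) (hb _ (by omega))
  let eQ : Fin N → Fin N → ℕ → Q := fun i l m => ⟨coeff m (e i l), hQe i l m⟩
  let Gp : Finset Q := ((Finset.univ : Finset (Fin N × Fin N)) ×ˢ Finset.range (B + 1)).image
    fun q => eQ q.1.1 q.1.2 q.2
  let P : Subalgebra ℂ Q := Algebra.adjoin ℂ (Gp : Set Q)
  have hPe : ∀ i l m, eQ i l m ∈ P := by
    intro i l m
    by_cases hm : m ≤ B
    · apply Algebra.subset_adjoin
      exact Finset.mem_image.2 ⟨((i, l), m), Finset.mem_product.2 ⟨Finset.mem_univ _,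
        Finset.mem_range.2 (Nat.lt_succ_of_le hm)⟩, rfl⟩
    · have h1 : eQ i l m = 0 := Subtype.ext (he' i l m (not_le.1 hm))
      rw [h1]
      exact P.zero_mem
  have hPK : ∀ p ∈ P, ((p : Q) : L) ∈ K := by
    have h1 : P ≤ K.toSubalgebra.comap Q.val := by
      apply Algebra.adjoin_le
      intro y hy
      obtain ⟨q, _, rfl⟩ := Finset.mem_image.1 hy
      exact he _ _ _
    intro p hp
    exact h1 hp
  have hPfg : P.FG := ⟨Gp, rfl⟩
  have hQfg : Q.FG := ⟨Gx ∪ Ge, rfl⟩
  have : Algebra.FiniteType ℂ Q := Q.fg_iff_finiteType.1 hQfg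
  let z : s → Q := fun p => ⟨coeff (p.1.2 : ℕ) (x (c.y p.1.1)), hQx _ _ p.1.2.2⟩
  have hz : AlgebraicIndependent P z := Special_indep K Q P hPK z hs
  let h₀ : Q := Matrix.det (Matrix.of fun i l => eQ i l 0)
  have hh : h₀ ∈ P := by
    change Matrix.det (Matrix.of fun i l => eQ i l 0) ∈ P
    rw [Matrix.det_apply]
    refine P.sum_mem fun σ _ => ?_
    rw [Units.smul_def]
    exact P.zsmul_mem (P.prod_mem fun i _ => hPe _ _ _) _
  have hval : ((h₀ : Q) : L) = Matrix.det (Matrix.of fun i l => constantCoeff (e i l)) := by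
    change (Q.val : Q →+* L) (Matrix.det (Matrix.of fun i l => eQ i l 0)) = _
    rw [RingHom.map_det]
    congr 1
    ext i l
    change coeff 0 (e i l) = constantCoeff (e i l)
    rw [PowerSeries.coeff_zero_eq_constantCoeff_apply]
  have h0 : h₀ ≠ 0 := by
    intro h
    apply hdet
    rw [← hval, h]
    rfl
  obtain ⟨L₁, _, _, g, hgP, hg0, hgz⟩ := exists_specialisation Q P hPfg z hz h₀ hh h0
  choose! κ hκ using hgP
  have hκ' : ∀ i l m, g (eQ i l m) = algebraMap ℂ L₁ (κ (eQ i l m)) := fun i l m =>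
    hκ _ (hPe i l m)
  let f : c.B → L₁⟦X⟧ := fun b => PowerSeries.mk fun i =>
    if h : i < k then g ⟨coeff i (x b), hQx b i h⟩ else 0
  have hf : ∀ b i (h : i < k), coeff i (f b) = g ⟨coeff i (x b), hQx b i h⟩ := by
    intro b i h
    simp only [f]
    rw [PowerSeries.coeff_mk, dif_pos h]
  have hquot : ∀ a b : L₁⟦X⟧, (∀ m, m < k → coeff m a = coeff m b) →
      (Ideal.Quotient.mk (Ideal.span {(X : L₁⟦X⟧) ^ k}) a) = Ideal.Quotient.mk _ b := by
    intro a b h
    rw [Ideal.Quotient.eq, Ideal.mem_span_singleton, PowerSeries.X_pow_dvd_iff]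
    intro m hm
    rw [map_sub, h m hm, sub_self]
  let xb : c.B →ₐ[ℂ] (L₁⟦X⟧ ⧸ Ideal.span {(X : L₁⟦X⟧) ^ k}) :=
    { toFun := fun b => Ideal.Quotient.mk _ (f b)
      map_one' := by
        rw [← map_one (Ideal.Quotient.mk (Ideal.span {(X : L₁⟦X⟧) ^ k}))]
        apply hquot
        intro m hm
        rw [hf _ m hm]
        have h1 : (⟨coeff m (x 1), hQx 1 m hm⟩ : Q) = if m = 0 then 1 else 0 := by
          apply Subtype.ext
          change coeff m (x 1) = _
          rw [map_one, PowerSeries.coeff_one]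
          split_ifs <;> rfl
        rw [h1, PowerSeries.coeff_one]
        split_ifs
        · exact map_one g
        · exact map_zero g
      map_mul' := by
        intro a b
        rw [← map_mul (Ideal.Quotient.mk (Ideal.span {(X : L₁⟦X⟧) ^ k}))]
        apply hquot
        intro m hm
        rw [hf _ m hm, PowerSeries.coeff_mul]
        have h1 : (⟨coeff m (x (a * b)), hQx (a * b) m hm⟩ : Q) =
            ∑ q : (Finset.HasAntidiagonal.antidiagonal m : Finset (ℕ × ℕ)),
              (⟨coeff q.1.1 (x a), hQx a _ (by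
                have := Finset.HasAntidiagonal.mem_antidiagonal.1 q.2; omega)⟩ : Q) *
              ⟨coeff q.1.2 (x b), hQx b _ (by
                have := Finset.HasAntidiagonal.mem_antidiagonal.1 q.2; omega)⟩ := by
          apply Subtype.ext
          rw [AddSubmonoidClass.coe_finsetSum]
          change coeff m (x (a * b)) = _
          rw [map_mul, PowerSeries.coeff_mul,
            ← Finset.sum_coe_sort (Finset.HasAntidiagonal.antidiagonal m)]
          rfl
        rw [h1, map_sum, ← Finset.sum_coe_sort (Finset.HasAntidiagonal.antidiagonal m)]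
        refine Finset.sum_congr rfl fun q _ => ?_
        have hq := Finset.HasAntidiagonal.mem_antidiagonal.1 q.2
        rw [map_mul, hf a _ (by omega), hf b _ (by omega)]
      map_zero' := by
        rw [← map_zero (Ideal.Quotient.mk (Ideal.span {(X : L₁⟦X⟧) ^ k}))]
        apply hquot
        intro m hm
        rw [hf _ m hm]
        have h1 : (⟨coeff m (x 0), hQx 0 m hm⟩ : Q) = 0 := by
          apply Subtype.ext
          change coeff m (x 0) = 0
          rw [map_zero, map_zero]
        rw [h1, map_zero, map_zero]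
      map_add' := by
        intro a b
        rw [← map_add (Ideal.Quotient.mk (Ideal.span {(X : L₁⟦X⟧) ^ k}))]
        apply hquot
        intro m hm
        have h1 : (⟨coeff m (x (a + b)), hQx _ m hm⟩ : Q) =
            ⟨coeff m (x a), hQx _ m hm⟩ + ⟨coeff m (x b), hQx _ m hm⟩ := by
          apply Subtype.ext
          change coeff m (x (a + b)) = coeff m (x a) + coeff m (x b)
          rw [map_add, map_add]
        rw [hf _ m hm, h1, (coeff m).map_add, hf _ m hm, hf _ m hm]
        exact map_add g _ _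
      commutes' := by
        intro r
        change Ideal.Quotient.mk _ (f (algebraMap ℂ c.B r)) =
          Ideal.Quotient.mk (Ideal.span {(X : L₁⟦X⟧) ^ k}) (algebraMap ℂ L₁⟦X⟧ r)
        apply hquot
        intro m hm
        rw [hf _ m hm]
        have h1 : (⟨coeff m (x (algebraMap ℂ c.B r)), hQx _ m hm⟩ : Q) =
            if m = 0 then algebraMap ℂ Q r else 0 := by
          apply Subtype.ext
          change coeff m (x (algebraMap ℂ c.B r)) = _
          rw [AlgHom.commutes, PowerSeries.algebraMap_apply, PowerSeries.coeff_C]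
          split_ifs <;> rfl
        rw [h1, PowerSeries.algebraMap_apply, PowerSeries.coeff_C]
        split_ifs
        · exact g.commutes r
        · exact map_zero g }
  obtain ⟨x₁, hx₁⟩ := c.exists_lift k hk xb
  have hx1 : ∀ b i (h : i < k), coeff i (x₁ b) = g ⟨coeff i (x b), hQx b i h⟩ := by
    intro b i h
    have h1 : (Ideal.Quotient.mk (Ideal.span {(X : L₁⟦X⟧) ^ k})) (x₁ b) =
        Ideal.Quotient.mk _ (f b) := hx₁ b
    rw [Ideal.Quotient.eq, Ideal.mem_span_singleton, PowerSeries.X_pow_dvd_iff] at h1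
    have h2 := h1 i h
    rw [map_sub, sub_eq_zero] at h2
    rw [h2, hf b i h]
  refine ⟨L₁, inferInstance, inferInstance, x₁,
    fun i l => PowerSeries.mk fun m => κ (eQ i l m), ?_, ?_, ?_⟩
  · intro h
    apply hg0
    have h1 : g h₀ = algebraMap ℂ L₁ (Matrix.det (Matrix.of fun i l =>
        constantCoeff (PowerSeries.mk fun m => κ (eQ i l m)))) := by
      change (g : Q →+* L₁) (Matrix.det (Matrix.of fun i l => eQ i l 0)) = _
      rw [RingHom.map_det, RingHom.map_det]
      congr 1
      ext i l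
      change g (eQ i l 0) = algebraMap ℂ L₁ (constantCoeff (PowerSeries.mk fun m => κ (eQ i l m)))
      rw [hκ', ← PowerSeries.coeff_zero_eq_constantCoeff_apply, PowerSeries.coeff_mk]
    rw [h1, h, map_zero]
  · intro i
    rw [PowerSeries.X_pow_dvd_iff]
    intro m hm
    have hmk : m < k := lt_of_lt_of_le hm (hlam i)
    have h1 := (PowerSeries.X_pow_dvd_iff.1 (hx i)) m hm
    have h2 : ∑ l, ∑ q : (Finset.HasAntidiagonal.antidiagonal m : Finset (ℕ × ℕ)),
        eQ i l q.1.1 * (⟨coeff q.1.2 (x (c.ρ (σ l))), hQx _ _ (by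
          have := Finset.HasAntidiagonal.mem_antidiagonal.1 q.2; omega)⟩ : Q) = 0 := by
      apply Subtype.ext
      rw [AddSubmonoidClass.coe_finsetSum]
      change _ = (0 : L)
      rw [← h1, map_sum]
      refine Finset.sum_congr rfl fun l _ => ?_
      rw [AddSubmonoidClass.coe_finsetSum, PowerSeries.coeff_mul,
        ← Finset.sum_coe_sort (Finset.HasAntidiagonal.antidiagonal m)]
      rfl
    have h3 := congrArg g h2
    rw [map_zero, map_sum] at h3
    rw [← h3, map_sum]
    refine Finset.sum_congr rfl fun l _ => ?_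
    rw [map_sum, PowerSeries.coeff_mul, ← Finset.sum_coe_sort (Finset.HasAntidiagonal.antidiagonal m)]
    refine Finset.sum_congr rfl fun q _ => ?_
    have hq := Finset.HasAntidiagonal.mem_antidiagonal.1 q.2
    rw [map_mul, hκ', PowerSeries.coeff_map, PowerSeries.coeff_mk,
      hx1 _ _ (show q.1.2 < k by omega)]
  · have h1 : (fun p : s => coeff (p.1.2 : ℕ) (x₁ (c.y p.1.1))) = fun p => g (z p) := by
      funext p
      rw [hx1 _ _ p.1.2.2]
    rw [h1]
    exact hgz

end Pool.Agent.Lib_GD
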